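import Pool.Agent.CI.C.MdlStm

/-!
# Project CI, core: upper bound for `add N`
-/

set_option autoImplicit false
set_option linter.unusedVariables false
set_option linter.unusedSectionVars false

open Set Cardinal Pool.Agent.CL

namespace CI

universe u

theorem a1_pow (x N : ℕ) : x ^ N * (x + N) ≤ (x + 1) ^ N * x := by
  induction N with
  | zero => simp
  | succ N ih =>
    calc x ^ (N + 1) * (x + (N + 1)) = x ^ N * (x * (x + N + 1)) := by ring
      _ ≤ x ^ N * ((x + N) * (x + 1)) := Nat.mul_le_mul_left _ (by nlinarith)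
      _ = (x ^ N * (x + N)) * (x + 1) := by ring
      _ ≤ ((x + 1) ^ N * x) * (x + 1) := Nat.mul_le_mul_right _ ih
      _ = (x + 1) ^ (N + 1) * x := by ring

theorem a1_big (k x : ℕ) (hx : 0 < x) : ∃ N, 0 < N ∧
    ∀ M, N ≤ M → (k + 1) * x ^ M < (x + 1) ^ M := by
  refine ⟨k * x + 1, Nat.succ_pos _, fun M hM => ?_⟩
  obtain ⟨r, rfl⟩ := Nat.exists_eq_add_of_le hM
  have h1 := a1_pow x (k * x + 1)
  have hp : 0 < x ^ (k * x + 1) := pow_pos hx _
  have h2 : (k + 1) * x ^ (k * x + 1) < (x + 1) ^ (k * x + 1) := by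
    have h3 : x * ((k + 1) * x ^ (k * x + 1)) < x * (x + 1) ^ (k * x + 1) := by
      calc x * ((k + 1) * x ^ (k * x + 1)) = x ^ (k * x + 1) * (x + k * x) := by ring
        _ < x ^ (k * x + 1) * (x + (k * x + 1)) := by
            apply Nat.mul_lt_mul_of_pos_left _ hp
            omega
        _ ≤ (x + 1) ^ (k * x + 1) * x := h1
        _ = x * (x + 1) ^ (k * x + 1) := mul_comm _ _
    exact lt_of_mul_lt_mul_left h3 (Nat.zero_le _)
  calc (k + 1) * x ^ (k * x + 1 + r) = (k + 1) * x ^ (k * x + 1) * x ^ r := by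
        rw [pow_add]; ring
    _ ≤ (k + 1) * x ^ (k * x + 1) * (x + 1) ^ r :=
        Nat.mul_le_mul_left _ (Nat.pow_le_pow_left (Nat.le_succ x) r)
    _ < (x + 1) ^ (k * x + 1) * (x + 1) ^ r :=
        Nat.mul_lt_mul_of_pos_right h2 (pow_pos (Nat.succ_pos x) r)
    _ = (x + 1) ^ (k * x + 1 + r) := (pow_add _ _ _).symm

theorem a1_ex {B : Type u} [CompleteBooleanAlgebra B] {ι : Sort*} {x : B} {y : ι → B}
    (hx : x ≠ ⊥) (h : x ≤ ⨆ i, y i) : ∃ i, x ⊓ y i ≠ ⊥ := by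
  by_contra hc
  push Not at hc
  apply hx
  rw [← inf_eq_left.2 h, inf_iSup_eq]
  simp [hc]

/-- the counting argument -/
theorem a1_fin (h8 : CntStm) {B : Type u} [CompleteBooleanAlgebra B] (T : ℕ → Finset ℕ → B)
    (n : ℕ) (a : Finset ℕ) (m n' k : ℕ) (ha : a ⊆ Finset.range n) (hm : m ≤ n') (u : B)
    (hu : u ≠ ⊥) (hmu : u ≤ mGe (cone T n a) (k + 1) 1) (JJ : Finset ℕ)
    (hJ : ∀ j ∈ JJ, ∃ c : Fu B, u ≤ c.f n' j ∧ u ≤ missV T c n a m) :
    (2 ^ n') ^ JJ.card ≤ (k + 1) * (2 ^ n' - 1) ^ JJ.card := by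
  classical
  set m' : ℕ := n + ((JJ.biUnion (bits n')).sup id + 1) with hm'
  have hn : n ≤ m' := Nat.le_add_right _ _
  have hb : ∀ j ∈ JJ, bits n' j ⊆ Finset.range m' := by
    intro j hj x hx
    have h1 : x ≤ (JJ.biUnion (bits n')).sup id :=
      Finset.le_sup (f := id) (Finset.mem_biUnion.2 ⟨j, hj, hx⟩)
    rw [Finset.mem_range]
    omega
  have hc : u ≤ cntGe (Finset.range m').powerset (cone T n a m') (k + 1) (1 * 2 ^ m') :=
    hmu.trans (iInf_le _ m')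
  obtain ⟨C, hC⟩ := a1_ex hu hc
  have hC1 : C ⊆ (Finset.range m').powerset ∧ 1 * 2 ^ m' ≤ C.card * (k + 1) := by
    by_contra h
    apply hC
    rw [iSup_neg h, inf_bot_eq]
  rw [iSup_pos hC1] at hC
  set v := u ⊓ C.inf (cone T n a m') with hv
  have hb2 : ∀ b ∈ C, b ∩ Finset.range n = a ∧ v ≤ T m' b := by
    intro b hbC
    have h2 : v ≤ cone T n a m' b := inf_le_right.trans (Finset.inf_le hbC)
    have h3 : a ∩ Finset.range m' = a :=
      Finset.inter_eq_left.2 (ha.trans (Finset.range_subset_range.2 hn))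
    unfold cone at h2
    rw [h3] at h2
    by_cases h4 : b ∩ Finset.range n = a
    · rw [if_pos h4] at h2
      exact ⟨h4, h2⟩
    · rw [if_neg h4] at h2
      exact absurd (le_bot_iff.1 h2) hC
  have hcnt := h8 n' m' JJ hb
  have hle : C.card ≤
      ((Finset.range m').powerset.filter fun b => ∀ j ∈ JJ, ¬ Disjoint b (bits n' j)).card := by
    refine Finset.card_le_card fun b hbC => ?_
    rw [Finset.mem_filter]
    refine ⟨hC1.1 hbC, fun j hj hd => ?_⟩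
    obtain ⟨c, hc1, hc2⟩ := hJ j hj
    obtain ⟨h4, h5⟩ := hb2 b hbC
    apply hC
    have h6 : missV T c n a m ≤ c.f n' j ⇨ (T m' b)ᶜ := by
      unfold missV
      exact (iInf_le _ n').trans ((iInf_le _ hm).trans ((iInf_le _ j).trans ((iInf_le _ m').trans
        ((iInf_le _ b).trans (iInf_le _
          ⟨hn, Finset.mem_powerset.1 (hC1.1 hbC), h4, hb j hj, hd⟩)))))
    have h7 : v ≤ (T m' b)ᶜ := by
      have h8 : v ≤ (c.f n' j ⇨ (T m' b)ᶜ) ⊓ c.f n' j :=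
        le_inf (inf_le_left.trans (hc2.trans h6)) (inf_le_left.trans hc1)
      exact h8.trans himp_inf_le
    have h9 : v ≤ T m' b ⊓ (T m' b)ᶜ := le_inf h5 h7
    rw [inf_compl_eq_bot] at h9
    exact le_bot_iff.1 h9
  have e0 : 2 ^ m' ≤ C.card * (k + 1) := by
    have h := hC1.2
    rwa [one_mul] at h
  have e1 : 2 ^ m' * (2 ^ n') ^ JJ.card ≤ 2 ^ m' * ((k + 1) * (2 ^ n' - 1) ^ JJ.card) := by
    calc 2 ^ m' * (2 ^ n') ^ JJ.card ≤ (C.card * (k + 1)) * (2 ^ n') ^ JJ.card :=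
          Nat.mul_le_mul_right _ e0
      _ ≤ (((Finset.range m').powerset.filter
            fun b => ∀ j ∈ JJ, ¬ Disjoint b (bits n' j)).card * (k + 1)) * (2 ^ n') ^ JJ.card :=
          Nat.mul_le_mul_right _ (Nat.mul_le_mul_right _ hle)
      _ = (k + 1) * (((Finset.range m').powerset.filter
            fun b => ∀ j ∈ JJ, ¬ Disjoint b (bits n' j)).card * (2 ^ n') ^ JJ.card) := by ring
      _ = (k + 1) * (2 ^ m' * (2 ^ n' - 1) ^ JJ.card) := by rw [hcnt]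
      _ = 2 ^ m' * ((k + 1) * (2 ^ n' - 1) ^ JJ.card) := by ring
  exact Nat.le_of_mul_le_mul_left e1 (pow_pos two_pos _)

/-- conditions can be extended to a given coordinate -/
theorem a1_dom {K Λ : Type u} [LinearOrder K] (D : Dat K Λ) (i : K) (c : Λ) (p : PF K Λ) :
    ∃ p' : PF K Λ, i ∈ p'.dom ∧ ee D p' ≤ ee D p := by
  by_cases h : i ∈ p.dom
  · exact ⟨p, h, le_rfl⟩
  · refine ⟨p.upd i c, ?_, ?_⟩
    · rw [PF.dom_upd]
      exact mem_insert _ _
    · refine ee_mono (D := D) ?_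
      rw [le_iff]
      intro b c' hb
      have hne : b ≠ i := by
        rintro rfl
        exact h (PF.mem_dom.2 ⟨c', hb⟩)
      exact ⟨c', (PF.upd_f_ne hne).trans hb, D.refl _ _ _⟩

/-- a long stem with a given last value -/
theorem a1_stem (s : List ℕ) (n' j : ℕ) (h : s.length ≤ n') : ∃ t : List ℕ, s <+: t ∧
    t.length = n' + 1 ∧ at' t n' = j := by
  refine ⟨s ++ (List.replicate (n' - s.length) 0 ++ [j]), List.prefix_append _ _, ?_, ?_⟩
  · rw [List.length_append, List.length_append, List.length_replicate, List.length_singleton]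
    omega
  · unfold at'
    rw [← List.append_assoc, List.getD_append_right]
    · rw [List.length_append, List.length_replicate]
      have h1 : n' - (s.length + (n' - s.length)) = 0 := by omega
      rw [h1]
      rfl
    · rw [List.length_append, List.length_replicate]
      omega

section

variable {K Λ L : Type u} [LinearOrder K] [WellFoundedLT K] [LinearOrder L] (S : Sys K Λ L)

theorem a1_label (h5 : GenStm.{u}) (i : K) (hi : S.kd i = .coh) : Nonempty Λ := by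
  by_contra h
  rw [not_nonempty_iff] at h
  have h1 := (h5 K Λ L S i (by rw [hi]; simp [Kd.isS])).2.1 0
  have h2 : ∀ v, S.gen i 0 v = ⊥ := fun v => by
    unfold Sys.gen
    rw [iSup_of_empty]
  simp only [h2, iSup_bot] at h1
  have h3 := ee_ne_bot (D := S.D) (PF.nil : PF K Λ)
  rw [ee_nil] at h3
  exact h3 h1.symm

/-- the condition of a coordinate -/
theorem a1_cond (h5 : GenStm.{u}) (h7 : BairStm.{u}) (cf : K → Fu (BB S.D))
    (N : K → NulC (BB S.D))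
    (hcf : ∀ i, S.kd i = .coh → S.IsCf i (cf i) ∧ IsN1 (cf i) (N i)) (d : NulC (BB S.D))
    (T : ℕ → Finset ℕ → BB S.D) (hT : DecT T) (hT0 : T 0 ∅ = ⊤)
    (hTd : ∀ n a, a ⊆ Finset.range n → T n a ≤ ((d.U 1).O n a)ᶜ)
    (hTs : ∀ n a, a ⊆ Finset.range n → T n a ≤ ⨆ j : ℕ, mGe (cone T n a) (j + 1) 1) (i : K)
    (hk : S.kd i = .coh) (hv : (⨅ x, (N i).mem x ⇨ d.mem x) ≠ ⊥) :
    ∃ (p : PF K Λ) (x : ℕ × Finset ℕ × ℕ × ℕ), i ∈ p.dom ∧ x.2.1 ⊆ Finset.range x.1 ∧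
      ee S.D p ≤ mGe (cone T x.1 x.2.1) (x.2.2.2 + 1) 1 ⊓
        missV T (cf i) x.1 x.2.1 x.2.2.1 := by
  have hb := h7 (BB S.D) (cf i) (N i) d T (hcf i hk).2 hT hT0 hTd
  have h1 : ∃ n a, a ⊆ Finset.range n ∧ ∃ m, T n a ⊓ missV T (cf i) n a m ≠ ⊥ := by
    by_contra hc
    push Not at hc
    apply hv
    rw [eq_bot_iff]
    refine hb.trans ?_
    exact iSup_le fun n => iSup_le fun a => iSup_le fun ha => iSup_le fun m => (hc n a ha m).le
  obtain ⟨n, a, ha, m, hm⟩ := h1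
  obtain ⟨k, hk2⟩ := a1_ex hm (inf_le_left.trans (hTs n a ha))
  obtain ⟨p0, hp0⟩ := exists_ee_le (D := S.D) hk2
  obtain ⟨c0⟩ := a1_label S h5 i hk
  obtain ⟨p, hp1, hp2⟩ := a1_dom S.D i c0 p0
  refine ⟨p, (n, a, m, k), hp1, ha, ?_⟩
  have h3 := hp2.trans hp0
  exact le_inf (h3.trans inf_le_right) (h3.trans (inf_le_left.trans inf_le_right))

theorem a1_main (h1 : ThinStm.{u}) (h2 : CohStm.{u}) (h3 : AmStm.{u}) (h5 : GenStm.{u})
    (h6 : SuppStm.{u}) (h7 : BairStm.{u}) (h8 : CntStm) (κ : Cardinal.{u})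
    (hreg : κ.IsRegular) (hκ : ℵ₀ < κ)
    (hsz : ∀ b, S.kd b = .coh ∨ S.kd b = .loc → #(CndS (S.kd b) (S.W b)) < κ)
    (cf : K → Fu (BB S.D)) (N : K → NulC (BB S.D))
    (hcf : ∀ i, S.kd i = .coh → S.IsCf i (cf i) ∧ IsN1 (cf i) (N i)) (d : NulC (BB S.D)) :
    #{i | S.kd i = .coh ∧ (⨅ x, (N i).mem x ⇨ d.mem x) ≠ ⊥} < κ := by
  classical
  by_contra hlt
  have hJ := not_lt.1 hlt
  obtain ⟨T, hT, hT0, hTd, hTs⟩ := h6 (BB S.D) d
  set J : Set K := {i | S.kd i = .coh ∧ (⨅ x, (N i).mem x ⇨ d.mem x) ≠ ⊥} with hJd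
  have hex : ∀ i, ∃ (p : PF K Λ) (x : ℕ × Finset ℕ × ℕ × ℕ), i ∈ J → i ∈ p.dom ∧
      x.2.1 ⊆ Finset.range x.1 ∧
      ee S.D p ≤ mGe (cone T x.1 x.2.1) (x.2.2.2 + 1) 1 ⊓
        missV T (cf i) x.1 x.2.1 x.2.2.1 := by
    intro i
    by_cases hi : i ∈ J
    · obtain ⟨p, x, hp⟩ := a1_cond S h5 h7 cf N hcf d T hT hT0 hTd hTs i hi.1 hi.2
      exact ⟨p, x, fun _ => hp⟩
    · exact ⟨PF.nil, (0, ∅, 0, 0), fun h => absurd h hi⟩
  choose p x hpx using hex
  obtain ⟨J', R, s, n₀, hJ'J, hJ'κ, hiR, hRd, hdisj, hst, hnn, hroot⟩ :=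
    h1 K Λ L S κ hreg hκ J p (fun i => Encodable.encode (x i)) hJ
      (fun i hi => ⟨hi.1, (hpx i hi).1⟩)
  have hinf : Infinite J' := by
    rw [Cardinal.infinite_iff, hJ'κ]
    exact hκ.le
  let e : ℕ ↪ J' := Infinite.natEmbedding J'
  have hxe : ∀ i ∈ J', x i = x (e 0 : K) := fun i hi =>
    Encodable.encode_injective ((hnn i hi).trans (hnn _ (e 0).2).symm)
  obtain ⟨n, a, m, k, hx0⟩ : ∃ n a m k, x (e 0 : K) = (n, a, m, k) := ⟨_, _, _, _, rfl⟩
  have hc0 : ∀ j, ∃ c, (p (e j : K)).f (e j : K) = some c ∧ S.st (e j : K) c = s := by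
    intro j
    obtain ⟨c, hc⟩ := PF.mem_dom.1 (hpx _ (hJ'J (e j).2)).1
    exact ⟨c, hc, hst _ (e j).2 c hc⟩
  choose c hcf1 hcs using hc0
  set n' : ℕ := max m s.length + 1 with hn'
  have hmn : m ≤ n' := (le_max_left _ _).trans (Nat.le_succ _)
  have hsn : s.length ≤ n' := (le_max_right _ _).trans (Nat.le_succ _)
  have hpj : ∀ j : ℕ, ∃ c', ee S.D ((p (e j : K)).upd (e j : K) c') ≤ ee S.D (p (e j : K)) ∧
      ee S.D ((p (e j : K)).upd (e j : K) c') ≤ S.gen (e j : K) n' j := by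
    intro j
    obtain ⟨t, ht1, ht2, ht3⟩ := a1_stem s n' j hsn
    obtain ⟨c', -, hc2, hc3⟩ := h2 K Λ L S (e j : K) (hJ'J (e j).2).1 (p (e j : K)) (c j) t
      (hcf1 j) (by rw [hcs]; exact ht1)
    refine ⟨c', hc2, ?_⟩
    have h := hc3 n' (by rw [ht2]; exact Nat.lt_succ_self _)
    rwa [ht3] at h
  choose c' hc'1 hc'2 using hpj
  have hne : ∀ j, ∀ b ∈ R, b ≠ (e j : K) := fun j b hb h => hiR _ (e j).2 (h ▸ hb)
  have hfR : ∀ j, ∀ b ∈ R, ((p (e j : K)).upd (e j : K) (c' j)).f b = (p (e j : K)).f b :=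
    fun j b hb => PF.upd_f_ne (hne j b hb)
  have hdomj : ∀ j, ((p (e j : K)).upd (e j : K) (c' j)).dom = (p (e j : K)).dom := by
    intro j
    rw [PF.dom_upd]
    exact insert_eq_of_mem (hpx _ (hJ'J (e j).2)).1
  set Q : Finset K := R.filter fun b => S.kd b = .rnd with hQ
  set kq : ℕ := Q.sup fun b => ((p (e 0 : K)).f b).elim 0 fun c => (S.cR b c).q with hkq
  have hpos : 0 < 2 ^ n' - 1 := by
    have h : 2 ^ 1 ≤ 2 ^ n' := Nat.pow_le_pow_right two_pos (by omega)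
    omega
  obtain ⟨N1, hN1, hbig⟩ := a1_big k (2 ^ n' - 1) hpos
  obtain ⟨JJ, q, hcard, hq⟩ := h3 K Λ L S (N1 * (2 * (kq + 1)) ^ Q.card) kq
    (fun j => (p (e j : K)).upd (e j : K) (c' j)) R Q (Finset.filter_subset _ _)
    (by
      intro i j hij
      rw [hdomj, hdomj]
      refine hdisj _ (e i).2 _ (e j).2 fun h => hij ?_
      exact Fin.ext (e.injective (Subtype.ext h)))
    (by
      intro b hb hbQ i j c₁ c₂ hc₁ hc₂
      rw [hfR _ b hb] at hc₁ hc₂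
      obtain ⟨r1, r2, r3, r4, r5⟩ := hroot b hb _ (e i).2 _ (e j).2 c₁ c₂ hc₁ hc₂
      rcases hkd : S.kd b with _ | _ | _ | _ | _ | _ | _
      · exact Or.inl (r1 hkd)
      · exact Or.inl (r4 (by rw [hkd]; simp [Kd.isS]) (hsz b (Or.inl hkd)))
      · exact Or.inl (r4 (by rw [hkd]; simp [Kd.isS]) (hsz b (Or.inr hkd)))
      · exact Or.inr ⟨by simp [Kd.isC], (r2 (by rw [hkd]; simp [Kd.isS])).1⟩
      · exact absurd (Finset.mem_filter.2 ⟨hb, hkd⟩) hbQ
      · exact Or.inr ⟨by simp [Kd.isC], (r2 (by rw [hkd]; simp [Kd.isS])).1⟩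
      · exact Or.inr ⟨by simp [Kd.isC], (r2 (by rw [hkd]; simp [Kd.isS])).1⟩)
    (by
      intro b hb
      obtain ⟨hbR, hbk⟩ := Finset.mem_filter.1 hb
      refine ⟨hbk, fun i c₁ hc₁ => ?_⟩
      rw [hfR _ b hbR] at hc₁
      obtain ⟨c₂, hc₂⟩ := PF.mem_dom.1 (hRd _ (e 0).2 hbR)
      obtain ⟨r1, r2, r3, r4, r5⟩ := hroot b hbR _ (e i).2 _ (e 0).2 c₁ c₂ hc₁ hc₂
      rw [r3 hbk]
      have h := Finset.le_sup (f := fun b => ((p (e 0 : K)).f b).elim 0
        fun c => (S.cR b c).q) hb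
      simp only [hc₂] at h
      exact h)
  have hD : 0 < (2 * (kq + 1)) ^ Q.card := pow_pos (by omega) _
  have hN1J : N1 ≤ JJ.card := Nat.le_of_mul_le_mul_right hcard hD
  have hJ'card : (JJ.image fun j : Fin (N1 * (2 * (kq + 1)) ^ Q.card) => (j : ℕ)).card =
      JJ.card := Finset.card_image_of_injective _ Fin.val_injective
  obtain ⟨j1, hj1⟩ : JJ.Nonempty := Finset.card_pos.1 (hN1.trans_le hN1J)
  have hle : ∀ j ∈ JJ, ee S.D q ≤ mGe (cone T n a) (k + 1) 1 ⊓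
      missV T (cf (e j : K)) n a m := by
    intro j hj
    have h := (hpx _ (hJ'J (e j).2)).2.2
    rw [hxe _ (e j).2, hx0] at h
    exact ((hq j hj).trans (hc'1 j)).trans h
  have ha : a ⊆ Finset.range n := by
    have h := (hpx _ (hJ'J (e 0).2)).2.1
    rwa [hx0] at h
  have hfin := a1_fin h8 T n a m n' k ha hmn (ee S.D q) (ee_ne_bot q)
    ((hle j1 hj1).trans inf_le_left)
    (JJ.image fun j : Fin (N1 * (2 * (kq + 1)) ^ Q.card) => (j : ℕ)) (by
      intro j hj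
      obtain ⟨i, hi, rfl⟩ := Finset.mem_image.1 hj
      refine ⟨cf (e i : K), ?_, (hle i hi).trans inf_le_right⟩
      rw [(hcf _ (hJ'J (e i).2).1).1 n' i]
      exact (hq i hi).trans (hc'2 i))
  rw [hJ'card] at hfin
  have hfin2 := hbig JJ.card hN1J
  have h2n : 2 ^ n' - 1 + 1 = 2 ^ n' := Nat.sub_add_cancel Nat.one_le_two_pow
  rw [h2n] at hfin2
  exact absurd hfin (not_le.2 hfin2)

end

theorem a1Stm (h1 : ThinStm.{u}) (h2 : CohStm.{u}) (h3 : AmStm.{u}) (h4 : CccStm.{u})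
    (h5 : GenStm.{u}) (h6 : SuppStm.{u}) (h7 : BairStm.{u}) (h8 : CntStm) : A1Stm.{u} := by
  intro l th m hcr cf N hcf d
  have hle : 𝔠 ≤ th 1 := hcr.cnt
  have hl : l 1 = Order.succ (th 1) := hcr.succ 1 le_rfl (by decide)
  have h0 : ℵ₀ ≤ th 1 := Cardinal.aleph0_le_continuum.trans hle
  exact @a1_main m.K m.Λ m.L m.iK m.wK m.iL m.S h1 h2 h3 h5 h6 h7 h8 (l 1)
    (by rw [hl]; exact Cardinal.isRegular_succ h0)
    (by rw [hl]; exact h0.trans_lt (Order.lt_succ _))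
    (fun b hb => by rw [hl]; exact (m.sz1 b hb).trans_lt (Order.lt_succ _)) cf N hcf d

end CI
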