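import Pool.Agent.CI.C.MdlStm

/-!
# Project CI: upper bound for the number of Cohen functions below a given function
-/

set_option autoImplicit false

open Set Cardinal Pool.Agent.CL

namespace CI

universe u

section

variable {K Λ L Θ : Type u} [LinearOrder K] [LinearOrder L] (S : Sys K Λ L)

/-- there are labels -/
theorem a2_nonempty (b : K) (hb : (S.kd b).isS) : Nonempty Λ := by
  have h : Nonempty (CndS (S.kd b) (S.W b)) := by
    refine ⟨⟨[], 0, fun _ _ => ⊥, fun _ _ => (S.ss b).bot, fun k s hs => ?_, ?_⟩⟩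
    · obtain ⟨a, ha⟩ := Finset.card_pos.1 (by omega : 0 < s.card)
      exact le_bot_iff.1 (Finset.inf_le ha)
    · unfold Kd.len
      split <;> simp
  obtain ⟨c⟩ := h
  obtain ⟨x, -⟩ := (S.vS b hb).2 c
  exact ⟨x⟩

/-- a condition below a given element, with a given coordinate in its domain -/
theorem a2_ext (i : K) (hΛ : Nonempty Λ) (U : BB S.D) (hU : U ≠ ⊥) :
    ∃ p : PF K Λ, i ∈ p.dom ∧ ee S.D p ≤ U := by
  obtain ⟨p, hp⟩ := exists_ee_le hU
  by_cases h : i ∈ p.dom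
  · exact ⟨p, h, hp⟩
  · obtain ⟨c⟩ := hΛ
    refine ⟨p.upd i c, ?_, (ee_mono ?_).trans hp⟩
    · rw [PF.dom_upd]
      exact mem_insert _ _
    · intro b d hb
      have hbi : b ≠ i := by
        rintro rfl
        exact h (PF.mem_dom.2 ⟨d, hb⟩)
      exact ⟨d, by rw [PF.upd_f_ne hbi]; exact hb, S.D.refl _ _ _⟩

theorem a2_core (h1 : ThinStm.{u}) (h2 : CohStm.{u}) (h3 : Lim2Stm.{u}) (h4 : EvBotStm.{u})
    (rd : Θ → ℕ → Λ) (rt : Θ → List ℕ) (φ : (ℕ → BB S.D) → TT S.D Θ)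
    (hccc : Ccc (BB S.D)) (hgood : S.Good rd rt univ φ) (hgs : S.Gs rd rt)
    (hcld : ∀ b, S.kd b = .rnd ∨ (S.kd b).isE → S.Cld (S.W b) φ)
    (κ : Cardinal.{u}) (hreg : κ.IsRegular) (hκ : ℵ₀ < κ)
    (sz : ∀ b, S.kd b = .coh ∨ S.kd b = .loc ∨ S.kd b = .hech →
      #(CndS (S.kd b) (S.W b)) < κ)
    (cf : K → Fu (BB S.D)) (hcf : ∀ i, S.kd i = .coh → S.IsCf i (cf i)) (g : Fu (BB S.D)) :
    #{i | S.kd i = .coh ∧ (cf i).le g ≠ ⊥} < κ := by
  by_contra hcon
  rw [not_lt] at hcon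
  set J : Set K := {i | S.kd i = .coh ∧ (cf i).le g ≠ ⊥} with hJ
  have hex : ∀ i : K, ∃ (p : PF K Λ) (n : ℕ), i ∈ J → i ∈ p.dom ∧
      ee S.D p ≤ ⨅ k : ℕ, ⨅ _ : n ≤ k, ⨆ v : ℕ, ⨆ w : ℕ, ⨆ _ : v ≤ w,
        (cf i).f k v ⊓ g.f k w := by
    intro i
    by_cases hi : i ∈ J
    · have hne : ∃ n : ℕ, (⨅ k : ℕ, ⨅ _ : n ≤ k, ⨆ v : ℕ, ⨆ w : ℕ, ⨆ _ : v ≤ w,
          (cf i).f k v ⊓ g.f k w) ≠ ⊥ := by
        by_contra hc
        push Not at hc
        exact hi.2 (iSup_eq_bot.2 hc)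
      obtain ⟨n, hn⟩ := hne
      obtain ⟨p, hp1, hp2⟩ := a2_ext S i
        (a2_nonempty S i (by rw [hi.1]; exact Or.inl rfl)) _ hn
      exact ⟨p, n, fun _ => ⟨hp1, hp2⟩⟩
    · exact ⟨PF.nil, 0, fun h => absurd h hi⟩
  choose p n hpn using hex
  obtain ⟨J', R, s, n₀, hJ', hcard, hR1, hR2, hR3, hst, hn, hlab⟩ :=
    h1 K Λ L S κ hreg hκ J p n hcon fun i hi => ⟨hi.1, (hpn i hi).1⟩
  have hinf : J'.Infinite := by
    rw [← Set.infinite_coe_iff, Cardinal.infinite_iff, hcard]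
    exact hκ.le
  let e := hinf.natEmbedding
  obtain ⟨i, hi, hinj⟩ : ∃ i : ℕ → K, (∀ l, i l ∈ J') ∧ Function.Injective i :=
    ⟨fun l => (e l : K), fun l => (e l).2, fun a b h => e.injective (Subtype.ext h)⟩
  have hM1 : n₀ ≤ max n₀ s.length := le_max_left _ _
  have hM2 : s.length ≤ max n₀ s.length := le_max_right _ _
  set M := max n₀ s.length with hM
  have hc : ∀ l, ∃ c', ee S.D ((p (i l)).upd (i l) c') ≤ ee S.D (p (i l)) ∧
      ee S.D ((p (i l)).upd (i l) c') ≤ S.gen (i l) M l := by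
    intro l
    obtain ⟨c, hc⟩ := PF.mem_dom.1 (hpn (i l) (hJ' (hi l))).1
    have hlen : (s ++ List.replicate (M - s.length) 0).length = M := by
      rw [List.length_append, List.length_replicate]
      omega
    obtain ⟨c', h5, h6, h7⟩ := h2 K Λ L S (i l) (hJ' (hi l)).1 (p (i l)) c
      (s ++ List.replicate (M - s.length) 0 ++ [l]) hc (by
        rw [hst _ (hi l) c hc, List.append_assoc]
        exact List.prefix_append _ _)
    have h8 := h7 M (by rw [List.length_append, hlen]; simp)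
    have h9 : at' (s ++ List.replicate (M - s.length) 0 ++ [l]) M = l := by
      unfold at'
      rw [List.getD_eq_getElem?_getD, List.getElem?_append_right (by rw [hlen]), hlen]
      simp
    rw [h9] at h8
    exact ⟨c', h6, h8⟩
  choose c' hc1 hc2 using hc
  have hf : ∀ l b, b ∈ R → ((p (i l)).upd (i l) (c' l)).f b = (p (i l)).f b := by
    intro l b hb
    refine PF.upd_f_ne ?_
    rintro rfl
    exact hR1 _ (hi l) hb
  have hdom : ∀ l, ((p (i l)).upd (i l) (c' l)).dom = (p (i l)).dom := by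
    intro l
    rw [PF.dom_upd]
    exact insert_eq_of_mem (hpn (i l) (hJ' (hi l))).1
  classical
  have hlim := h3 K Λ L Θ S rd rt φ hgood hccc hgs hcld
    (fun l => (p (i l)).upd (i l) (c' l)) R
    (R.sup fun b => if h : ∃ c, (p (i 0)).f b = some c then (S.cR b h.choose).q else 0)
    (fun l => by rw [hdom]; exact hR2 _ (hi l))
    (fun l m hlm => by
      rw [hdom, hdom]
      exact hR3 _ (hi l) _ (hi m) fun h => hlm (hinj h))
    (by
      intro b hb l m c d hc hd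
      rw [hf l b hb] at hc
      rw [hf m b hb] at hd
      obtain ⟨t1, t2, t3, t4, t5⟩ := hlab b hb (i l) (hi l) (i m) (hi m) c d hc hd
      have hk : S.kd b = .tr ∨ (S.kd b = .coh ∨ S.kd b = .loc ∨ S.kd b = .hech) ∨
          S.kd b = .rnd ∨ (S.kd b = .ev ∨ S.kd b = .et) := by
        cases S.kd b <;> simp
      rcases hk with hk | hk | hk | hk
      · exact Or.inl (t1 hk)
      · refine Or.inl (t4 ?_ (sz b hk))
        rcases hk with hk | hk | hk <;> rw [hk] <;> simp [Kd.isS]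
      · refine Or.inr (Or.inl ⟨hk, ?_⟩)
        have hex : ∃ c, (p (i 0)).f b = some c := PF.mem_dom.1 (hR2 _ (hi 0) hb)
        have h5 : (S.cR b hex.choose).q ≤ R.sup fun b =>
            if h : ∃ c, (p (i 0)).f b = some c then (S.cR b h.choose).q else 0 := by
          refine le_trans (le_of_eq ?_) (Finset.le_sup (f := fun b =>
            if h : ∃ c, (p (i 0)).f b = some c then (S.cR b h.choose).q else 0) hb)
          rw [dif_pos hex]
        have h6 := (hlab b hb (i l) (hi l) (i 0) (hi 0) c _ hc hex.choose_spec).2.2.1 hk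
        have h7 := (hlab b hb (i m) (hi m) (i 0) (hi 0) d _ hd hex.choose_spec).2.2.1 hk
        rw [h6, h7]
        exact ⟨h5, h5⟩
      · have hS : (S.kd b).isS := by
          rcases hk with hk | hk <;> rw [hk] <;> simp [Kd.isS]
        exact Or.inr (Or.inr ⟨hk, t2 hS⟩))
  apply hlim
  refine (h4 K Λ L Θ S rd rt φ hgood).1 _ (fun n => g.f M n) (g.top M) fun n' =>
    ⟨n' + 1, fun l hl => ?_⟩
  have hx1 : ee S.D ((p (i l)).upd (i l) (c' l)) ≤ ⨆ v : ℕ, ⨆ w : ℕ, ⨆ _ : v ≤ w,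
      (cf (i l)).f M v ⊓ g.f M w := by
    refine (hc1 l).trans ((hpn (i l) (hJ' (hi l))).2.trans ?_)
    exact (iInf_le _ M).trans (iInf_le _ (by rw [hn _ (hi l)]; exact hM1))
  have hx2 : ee S.D ((p (i l)).upd (i l) (c' l)) ≤ (cf (i l)).f M l := by
    rw [hcf (i l) (hJ' (hi l)).1]
    exact hc2 l
  have hx3 : ee S.D ((p (i l)).upd (i l) (c' l)) ≤ (cf (i l)).f M l ⊓
      ⨆ v : ℕ, ⨆ w : ℕ, ⨆ _ : v ≤ w, (cf (i l)).f M v ⊓ g.f M w := le_inf hx2 hx1
  rw [← le_bot_iff]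
  refine (inf_le_inf_right _ hx3).trans ?_
  rw [inf_iSup_eq, iSup_inf_eq]
  refine iSup_le fun v => ?_
  rw [inf_iSup_eq, iSup_inf_eq]
  refine iSup_le fun w => ?_
  rw [inf_iSup_eq, iSup_inf_eq]
  refine iSup_le fun hvw => ?_
  by_cases hv : v = l
  · have hwn : w ≠ n' := by omega
    calc _ ≤ g.f M w ⊓ g.f M n' := inf_le_inf_right _ (inf_le_right.trans inf_le_right)
      _ = ⊥ := g.disj M w n' hwn
      _ ≤ ⊥ := le_rfl
  · calc _ ≤ (cf (i l)).f M l ⊓ (cf (i l)).f M v :=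
        inf_le_left.trans (inf_le_inf_left _ inf_le_left)
      _ = ⊥ := (cf (i l)).disj M l v fun h => hv h.symm
      _ ≤ ⊥ := le_rfl

end

theorem a2Stm (h1 : ThinStm.{u}) (h2 : CohStm.{u}) (h3 : Lim2Stm.{u}) (h4 : EvBotStm.{u})
    (h5 : CccStm.{u}) (_h6 : GenStm.{u}) : A2Stm.{u} := by
  intro l th m hC
  letI := m.iK
  letI := m.iL
  letI := m.wK
  intro cf hcf g
  have e1 : l 1 = Order.succ (th 1) := hC.succ 1 (by decide) (by decide)
  have e2 : l 2 = Order.succ (th 2) := hC.succ 2 (by decide) (by decide)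
  have h02 : l 0 < l 2 := hC.lt 0 2 (by decide)
  have h12 : l 1 < l 2 := hC.lt 1 2 (by decide)
  have h01 : l 0 < l 1 := hC.lt 0 1 (by decide)
  have hle : l 1 ≤ th 2 := hC.le 1 2 (by decide) (by decide)
  have ha : ℵ₀ < l 0 := by
    rw [hC.zero]
    exact aleph0_lt_aleph_one
  have ht : th 1 < l 2 := by
    refine lt_trans ?_ h12
    rw [e1]
    exact Order.lt_succ _
  refine a2_core m.S h1 h2 h3 h4 m.rd m.rt m.φ (h5 m.K m.Λ m.L m.S) m.good m.gus m.cld (l 2)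
    ?_ (ha.trans h02) ?_ cf hcf g
  · rw [e2]
    exact isRegular_succ ((ha.trans h01).le.trans hle)
  · rintro b (hb | hb | hb)
    · exact (m.sz1 b (Or.inl hb)).trans_lt ht
    · exact (m.sz1 b (Or.inr hb)).trans_lt ht
    · exact (m.sz2 b hb).trans_lt (by rw [e2]; exact Order.lt_succ _)

end CI
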