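import Pool.Agent.CI.C.MdlStm

/-!
# Project CI, core: upper bound for the covering number of the null ideal
-/

set_option autoImplicit false

open Set Cardinal Pool.Agent.CL

namespace CI

universe u

/-- an element which is disjoint from all the values of an initial segment is `⊥` -/
private lemma a3_cut {B : Type u} [CompleteBooleanAlgebra B] (x : Rl B) :
    ∀ (m : ℕ) (U : B), (∀ a, a ⊆ Finset.range m → U ⊓ cutV x m a = ⊥) → U = ⊥ := by
  intro m
  induction m with
  | zero =>
    intro U h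
    have h1 := h ∅ (Finset.empty_subset _)
    have h2 : cutV x 0 ∅ = ⊤ := by
      unfold cutV
      exact iInf_of_empty (ι := Fin 0) _
    rwa [h2, inf_top_eq] at h1
  | succ m ih =>
    intro U h
    have h1 : U ⊓ x m = ⊥ := by
      refine ih _ fun a ha => ?_
      have h3 : cutV x m a ⊓ x m ≤ cutV x (m + 1) (insert m a) := by
        unfold cutV
        refine le_iInf fun i => ?_
        by_cases hi : (i : ℕ) < m
        · have h4 : ((i : ℕ) ∈ insert m a) ↔ (i : ℕ) ∈ a := by
            rw [Finset.mem_insert]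
            exact ⟨fun h => h.resolve_left (ne_of_lt hi), Or.inr⟩
          rw [if_congr h4 rfl rfl]
          exact inf_le_left.trans (iInf_le (fun j : Fin m => if (j : ℕ) ∈ a then x j else (x j)ᶜ)
            ⟨i, hi⟩)
        · have h5 : (i : ℕ) = m := le_antisymm (Nat.lt_succ_iff.1 i.2) (not_lt.1 hi)
          rw [h5, if_pos (Finset.mem_insert_self _ _)]
          exact inf_le_right
      refine le_bot_iff.1 ?_
      rw [← h (insert m a) (Finset.insert_subset (Finset.self_mem_range_succ m)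
        (ha.trans (Finset.range_subset_range.2 (Nat.le_succ m)))), inf_assoc, inf_comm (x m)]
      exact inf_le_inf_left _ h3
    have h2 : U ⊓ (x m)ᶜ = ⊥ := by
      refine ih _ fun a ha => ?_
      have hm : m ∉ a := fun hc => Finset.notMem_range_self (ha hc)
      have h3 : cutV x m a ⊓ (x m)ᶜ ≤ cutV x (m + 1) a := by
        unfold cutV
        refine le_iInf fun i => ?_
        by_cases hi : (i : ℕ) < m
        · exact inf_le_left.trans (iInf_le (fun j : Fin m => if (j : ℕ) ∈ a then x j else (x j)ᶜ)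
            ⟨i, hi⟩)
        · have h5 : (i : ℕ) = m := le_antisymm (Nat.lt_succ_iff.1 i.2) (not_lt.1 hi)
          rw [h5, if_neg hm]
          exact inf_le_right
      refine le_bot_iff.1 ?_
      rw [← h a (ha.trans (Finset.range_subset_range.2 (Nat.le_succ m))), inf_assoc,
        inf_comm (x m)ᶜ]
      exact inf_le_inf_left _ h3
    rw [← inf_top_eq U, ← sup_compl_eq_top (x := x m), inf_sup_left, h1, h2, sup_bot_eq]

private lemma a3_blk (s : ℕ) (n : ℕ) (a : Finset ℕ) : blk s n a < 2 ^ n := by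
  unfold blk
  have h1 : ∑ i ∈ Finset.range n, (if s + i ∈ a then 2 ^ i else 0) ≤
      ∑ i ∈ Finset.range n, 2 ^ i := by
    refine Finset.sum_le_sum fun i _ => ?_
    split_ifs
    · exact le_rfl
    · exact Nat.zero_le _
  have h2 : ∑ i ∈ Finset.range n, 2 ^ i = 2 ^ n - 1 := by
    have := Nat.geomSum_eq (m := 2) le_rfl n
    simpa using this
  have h3 : 0 < 2 ^ n := Nat.two_pow_pos n
  omega

/-- a label with a trivial condition -/
private lemma a3_lab {K Λ L : Type u} [LinearOrder K] [LinearOrder L] (S : Sys K Λ L) (i : K)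
    (hi : S.kd i = .coh) : Nonempty Λ := by
  obtain ⟨c, _⟩ := (S.vS i (by rw [hi]; simp [Kd.isS])).2
    ⟨[], 0, fun _ _ => ⊥, fun _ _ => (S.ss i).bot, by
      intro k s hs
      have : s.Nonempty := by
        rw [← Finset.card_pos, hs]
        exact Nat.succ_pos _
      obtain ⟨v, hv⟩ := this
      exact le_bot_iff.1 (Finset.inf_le hv), by rw [hi]; simp [Kd.len]⟩
  exact ⟨c⟩

theorem a3Stm (h1 : ThinStm.{u}) (h2 : CohStm.{u}) (h3 : AmStm.{u}) (_h4 : CccStm.{u})
    (_h5 : GenStm.{u}) : A3Stm.{u} := by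
  classical
  intro l th m hC
  let _ := m.iK
  let _ := m.iL
  let _ := m.wK
  intro cf N hN x
  by_contra hc
  rw [not_lt] at hc
  obtain ⟨J, hJ⟩ : ∃ J : Set m.K, J = {i | m.S.kd i = .coh ∧ (N i).mem x ≠ ⊤} := ⟨_, rfl⟩
  rw [← hJ] at hc
  -- the conditions
  have hex : ∀ i : m.K, ∃ (p : PF m.K m.Λ) (k : ℕ), i ∈ J → i ∈ p.dom ∧
      ee m.S.D p ≤ (((N i).U k).mem x)ᶜ := by
    intro i
    by_cases hi : i ∈ J
    · rw [hJ] at hi
      obtain ⟨hi1, hi2⟩ := hi
      have h6 : ∃ k, (((N i).U k).mem x)ᶜ ≠ ⊥ := by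
        by_contra hcon
        push Not at hcon
        apply hi2
        unfold NulC.mem
        refine iInf_eq_top.2 fun k => ?_
        exact compl_eq_bot.1 (hcon k)
      obtain ⟨k, hk⟩ := h6
      obtain ⟨p, hp⟩ := exists_ee_le hk
      by_cases hd : i ∈ p.dom
      · exact ⟨p, k, fun _ => ⟨hd, hp⟩⟩
      · obtain ⟨c⟩ := a3_lab m.S i hi1
        refine ⟨p.upd i c, k, fun _ => ⟨?_, le_trans (ee_mono ?_) hp⟩⟩
        · rw [PF.dom_upd]
          exact Set.mem_insert _ _
        · intro b c' hb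
          have hbi : b ≠ i := by
            rintro rfl
            exact hd (PF.mem_dom.2 ⟨c', hb⟩)
          exact ⟨c', by rw [PF.upd_f_ne hbi, hb], m.S.D.refl _ _ _⟩
    · exact ⟨PF.nil, 0, fun h => absurd h hi⟩
  choose p k hp using hex
  -- cardinals
  have hth : ∀ j : Fin 8, 1 ≤ j → j ≤ 6 → th j < l j := fun j hj hj' => by
    rw [hC.succ j hj hj']
    exact Order.lt_succ _
  have hal : ℵ₀ ≤ th 3 := by
    have h6 := hC.le 1 3 le_rfl (by decide)
    have h7 := hC.lt 0 1 (by decide)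
    rw [hC.zero] at h7
    exact (aleph0_le_aleph 1).trans (h7.le.trans h6)
  have hreg : (l 3).IsRegular := by
    rw [hC.succ 3 (by decide) (by decide)]
    exact isRegular_succ hal
  have hal' : ℵ₀ < l 3 := lt_of_le_of_lt hal (hth 3 (by decide) (by decide))
  obtain ⟨J', R, s, k0, hJJ, hJc, hJR, hRd, hdj, hst, hk, hrt⟩ :=
    h1 m.K m.Λ m.L m.S (l 3) hreg hal' J p k hc fun i hi => by
      refine ⟨?_, (hp i hi).1⟩
      rw [hJ] at hi
      exact hi.1
  have hcoh : ∀ i ∈ J', m.S.kd i = .coh := fun i hi => by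
    have := hJJ hi
    rw [hJ] at this
    exact this.1
  -- equivalence on the root
  have hroot : ∀ b ∈ R, ∀ i ∈ J', ∀ j ∈ J', ∀ c c', (p i).f b = some c → (p j).f b = some c' →
      m.S.Eqv b c c' ∨ ((m.S.kd b).isC ∧ m.S.st b c = m.S.st b c') := by
    intro b hb i hi j hj c c' hc1 hc2
    obtain ⟨q1, q2, _, q4, q5⟩ := hrt b hb i hi j hj c c' hc1 hc2
    rcases hkd : m.S.kd b with _ | _ | _ | _ | _ | _ | _
    · exact Or.inl (q1 hkd)
    · exact Or.inr ⟨by simp [Kd.isC], (q2 (by rw [hkd]; simp [Kd.isS])).1⟩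
    · refine Or.inl (q4 (by rw [hkd]; simp [Kd.isS]) ?_)
      exact lt_of_le_of_lt (m.sz1 b (Or.inr hkd)) ((hth 1 le_rfl (by decide)).trans
        (hC.lt 1 3 (by decide)))
    · exact Or.inr ⟨by simp [Kd.isC], (q2 (by rw [hkd]; simp [Kd.isS])).1⟩
    · exact Or.inl (q5 hkd (lt_of_le_of_lt (m.sz3 b hkd) (hth 3 (by decide) (by decide))))
    · exact Or.inr ⟨by simp [Kd.isC], (q2 (by rw [hkd]; simp [Kd.isS])).1⟩
    · exact Or.inr ⟨by simp [Kd.isC], (q2 (by rw [hkd]; simp [Kd.isS])).1⟩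
  obtain ⟨n, hn⟩ : ∃ n, n = max (k0 + 1) s.length := ⟨_, rfl⟩
  have hn1 : k0 < n := by rw [hn]; exact lt_of_lt_of_le (Nat.lt_succ_self _) (le_max_left _ _)
  have hn2 : s.length ≤ n := by rw [hn]; exact le_max_right _ _
  -- distinct members
  have hinf : Infinite J' := by
    rw [Cardinal.infinite_iff, hJc]
    exact hal'.le
  let e : Fin (2 ^ n) ↪ J' := Fin.valEmbedding.trans (Infinite.natEmbedding J')
  -- changing the stems
  have hnew : ∀ v : Fin (2 ^ n), ∃ c' : m.Λ,
      ee m.S.D ((p (e v)).upd (e v) c') ≤ ee m.S.D (p (e v)) ∧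
      ee m.S.D ((p (e v)).upd (e v) c') ≤ m.S.gen (e v) n v := by
    intro v
    have hv : ((e v : J') : m.K) ∈ J' := (e v).2
    obtain ⟨c, hcv⟩ := PF.mem_dom.1 (hp _ (hJJ hv)).1
    have hsv := hst _ hv c hcv
    obtain ⟨t, ht⟩ : ∃ t : List ℕ, t = s ++ List.replicate (n - s.length) 0 ++ [(v : ℕ)] :=
      ⟨_, rfl⟩
    have hlen : (s ++ List.replicate (n - s.length) 0).length = n := by
      rw [List.length_append, List.length_replicate]
      omega
    have htl : t.length = n + 1 := by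
      rw [ht, List.length_append, hlen]
      rfl
    have hat : at' t n = v := by
      unfold at'
      rw [ht, List.getD_append_right _ _ _ _ (le_of_eq hlen), hlen, Nat.sub_self]
      rfl
    obtain ⟨c', _, hc2, hc3⟩ := h2 m.K m.Λ m.L m.S (e v) (hcoh _ hv) (p (e v)) c t hcv (by
      rw [hsv, ht, List.append_assoc]
      exact List.prefix_append _ _)
    refine ⟨c', hc2, ?_⟩
    have := hc3 n (by rw [htl]; exact Nat.lt_succ_self _)
    rwa [hat] at this
  choose c' hc1 hc2 using hnew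
  obtain ⟨J₁, q, hJ1, hq⟩ := h3 m.K m.Λ m.L m.S (2 ^ n) 0
    (fun v => (p (e v)).upd (e v) (c' v)) R ∅ (Finset.empty_subset _) (by
      intro v w hvw
      have hvw' : ((e v : J') : m.K) ≠ (e w : J') := fun h => hvw (e.injective (Subtype.ext h))
      rw [PF.dom_upd, PF.dom_upd, Set.insert_eq_of_mem (hp _ (hJJ (e v).2)).1,
        Set.insert_eq_of_mem (hp _ (hJJ (e w).2)).1]
      exact hdj _ (e v).2 _ (e w).2 hvw') (by
      intro b hb _ v w c c'' hcv hcw
      have hbv : b ≠ (e v : J') := fun h => hJR _ (e v).2 (h ▸ hb)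
      have hbw : b ≠ (e w : J') := fun h => hJR _ (e w).2 (h ▸ hb)
      rw [PF.upd_f_ne hbv] at hcv
      rw [PF.upd_f_ne hbw] at hcw
      exact hroot b hb _ (e v).2 _ (e w).2 c c'' hcv hcw) (by
      intro b hb
      exact absurd hb (Finset.notMem_empty b))
  have hall : ∀ v, v ∈ J₁ := by
    have h6 : J₁ = Finset.univ := by
      rw [← Finset.card_eq_iff_eq_univ, Fintype.card_fin]
      refine le_antisymm ?_ ?_
      · have := Finset.card_le_univ J₁
        rwa [Fintype.card_fin] at this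
      · simpa using hJ1
    intro v
    rw [h6]
    exact Finset.mem_univ v
  refine ee_ne_bot (D := m.S.D) q (a3_cut x (tri n + n) _ fun a ha => ?_)
  have hv : blk (tri n) n a < 2 ^ n := a3_blk _ _ _
  obtain ⟨v, hvv⟩ : ∃ v : Fin (2 ^ n), v = ⟨blk (tri n) n a, hv⟩ := ⟨_, rfl⟩
  have h6 : ee m.S.D q ≤ (((N (e v)).U k0).mem x)ᶜ := by
    refine (hq v (hall v)).trans ((hc1 v).trans ?_)
    have := (hp _ (hJJ (e v).2)).2
    rwa [hk _ (e v).2] at this
  have h7 : ee m.S.D q ≤ ((N (e v)).U k0).O (tri n + n) a := by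
    obtain ⟨hcf, hN3⟩ := hN (e v) (hcoh _ (e v).2)
    rw [hN3 k0 _ a ha]
    refine (hq v (hall v)).trans ((hc2 v).trans ?_)
    rw [← hcf]
    unfold opn3
    refine le_trans ?_ (le_iSup _ n)
    refine le_trans ?_ (le_iSup _ ⟨hn1, le_rfl⟩)
    rw [hvv]
  have h8 : ee m.S.D q ⊓ cutV x (tri n + n) a ≤ ((N (e v)).U k0).mem x := by
    unfold OpnC.mem
    refine le_trans (inf_le_inf_right _ h7) ?_
    refine le_trans ?_ (le_iSup _ (tri n + n))
    refine le_trans ?_ (le_iSup _ a)
    exact le_iSup (fun _ : a ⊆ Finset.range (tri n + n) =>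
      ((N (e v)).U k0).O (tri n + n) a ⊓ cutV x (tri n + n) a) ha
  refine le_bot_iff.1 ?_
  rw [← compl_inf_self (((N (e v)).U k0).mem x)]
  exact le_inf (inf_le_left.trans h6) h8

end CI
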