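import Pool.Agent.CI.C.Sys

/-!
# Project CI, core: first facts about finite partial functions, the order and cylinders
-/

set_option autoImplicit false

open Set Cardinal Pool.Agent.CL

namespace CI

universe u

namespace PF

variable {K Λ : Type u}

lemma res_f_of_mem {p : PF K Λ} {Z : Set K} {b : K} (h : b ∈ Z) : (p.res Z).f b = p.f b := by
  simp [res, h]

lemma res_f_of_notMem {p : PF K Λ} {Z : Set K} {b : K} (h : b ∉ Z) : (p.res Z).f b = none := by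
  simp [res, h]

lemma res_f_eq_some {p : PF K Λ} {Z : Set K} {b : K} {c : Λ} :
    (p.res Z).f b = some c ↔ b ∈ Z ∧ p.f b = some c := by
  by_cases h : b ∈ Z
  · simp [res, h]
  · simp [res, h]

lemma upd_f_same (p : PF K Λ) (b : K) (c : Λ) : (p.upd b c).f b = some c := by simp [upd]

lemma upd_f_ne {p : PF K Λ} {b x : K} {c : Λ} (h : x ≠ b) : (p.upd b c).f x = p.f x := by
  simp [upd, h]

lemma nil_f (b : K) : (nil : PF K Λ).f b = none := rfl

lemma sng_f_same (b : K) (c : Λ) : (sng b c).f b = some c := upd_f_same _ _ _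

lemma sng_f_ne {b x : K} {c : Λ} (h : x ≠ b) : (sng b c).f x = none := by
  rw [sng, upd_f_ne h, nil_f]

lemma sng_f_eq_some {b x : K} {c d : Λ} : (sng b c).f x = some d ↔ x = b ∧ c = d := by
  by_cases h : x = b
  · subst h; rw [sng_f_same]; simp
  · rw [sng_f_ne h]; simp [h]

lemma ov_f_some {r p : PF K Λ} {b : K} {c : Λ} (h : r.f b = some c) : (r.ov p).f b = some c := by
  simp [ov, h]

lemma ov_f_none {r p : PF K Λ} {b : K} (h : r.f b = none) : (r.ov p).f b = p.f b := by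
  simp [ov, h]

lemma mem_dom {p : PF K Λ} {b : K} : b ∈ p.dom ↔ ∃ c, p.f b = some c := by
  simp only [dom, mem_ofPred_eq, Option.ne_none_iff_exists']

lemma notMem_dom {p : PF K Λ} {b : K} : b ∉ p.dom ↔ p.f b = none := by
  simp [dom]

lemma dom_res (p : PF K Λ) (Z : Set K) : (p.res Z).dom = p.dom ∩ Z := by
  ext b
  simp only [mem_dom, mem_inter_iff, res_f_eq_some]
  constructor
  · rintro ⟨c, h1, h2⟩; exact ⟨⟨c, h2⟩, h1⟩
  · rintro ⟨⟨c, h2⟩, h1⟩; exact ⟨c, h1, h2⟩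

lemma dom_res_subset (p : PF K Λ) (Z : Set K) : (p.res Z).dom ⊆ Z := by
  rw [dom_res]; exact inter_subset_right

lemma dom_upd (p : PF K Λ) (b : K) (c : Λ) : (p.upd b c).dom = insert b p.dom := by
  ext x
  by_cases h : x = b
  · subst h; simp [mem_dom, upd_f_same]
  · simp [mem_dom, upd_f_ne h, h]

lemma dom_sng (b : K) (c : Λ) : (sng b c).dom = {b} := by
  ext x
  simp only [mem_dom, sng_f_eq_some, mem_singleton_iff]
  constructor
  · rintro ⟨d, h, _⟩; exact h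
  · rintro h; exact ⟨c, h, rfl⟩

lemma dom_nil : (nil : PF K Λ).dom = ∅ := by
  ext x; simp [mem_dom, nil_f]

lemma dom_ov (r p : PF K Λ) : (r.ov p).dom = r.dom ∪ p.dom := by
  ext x
  simp only [mem_union]
  by_cases h : x ∈ r.dom
  · obtain ⟨c, hc⟩ := mem_dom.1 h
    exact ⟨fun _ => Or.inl h, fun _ => mem_dom.2 ⟨c, ov_f_some hc⟩⟩
  · have h' := notMem_dom.1 h
    rw [mem_dom, ov_f_none h']
    exact ⟨fun hx => Or.inr (mem_dom.2 hx), fun hx => mem_dom.1 (hx.resolve_left h)⟩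

lemma res_res (p : PF K Λ) (Z Z' : Set K) : (p.res Z).res Z' = p.res (Z ∩ Z') := by
  ext b c
  simp only [res_f_eq_some, mem_inter_iff]
  tauto

lemma res_eq_self {p : PF K Λ} {Z : Set K} (h : p.dom ⊆ Z) : p.res Z = p := by
  ext b c
  simp only [res_f_eq_some]
  exact ⟨fun h => h.2, fun hc => ⟨h (mem_dom.2 ⟨c, hc⟩), hc⟩⟩

lemma res_univ (p : PF K Λ) : p.res univ = p := res_eq_self (subset_univ _)

lemma res_empty (p : PF K Λ) : p.res ∅ = nil := by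
  ext b c
  simp [res_f_eq_some, nil_f]

lemma nil_res (Z : Set K) : (nil : PF K Λ).res Z = nil := by
  ext b c
  simp [res_f_eq_some, nil_f]

lemma dom_finite (p : PF K Λ) : p.dom.Finite := p.fin

lemma ov_res (r p : PF K Λ) (Z : Set K) : (r.ov p).res Z = (r.res Z).ov (p.res Z) := by
  ext b c
  by_cases hb : b ∈ Z
  · rw [res_f_of_mem hb]
    by_cases h : b ∈ r.dom
    · obtain ⟨d, hd⟩ := mem_dom.1 h
      rw [ov_f_some hd, ov_f_some (c := d) (by rw [res_f_of_mem hb]; exact hd)]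
    · have h' := notMem_dom.1 h
      rw [ov_f_none h', ov_f_none (by rw [res_f_of_mem hb]; exact h'), res_f_of_mem hb]
  · rw [res_f_of_notMem hb, ov_f_none (res_f_of_notMem hb), res_f_of_notMem hb]

end PF

section

variable {K Λ : Type u} [LinearOrder K] {D : Dat K Λ}

lemma le_iff {p q : PF K Λ} : @LE.le (PD D) _ p q ↔
    ∀ b c, q.f b = some c → ∃ c', p.f b = some c' ∧ p.res (Iio b) ∈ D.D b c' c := Iff.rfl

lemma le_res (p : PF K Λ) (Z : Set K) : @LE.le (PD D) _ p (p.res Z) := fun b c h =>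
  ⟨c, (PF.res_f_eq_some.1 h).2, D.refl _ _ _⟩

lemma le_nil (p : PF K Λ) : @LE.le (PD D) _ p (PF.nil : PF K Λ) := fun _ c h => by
  simp [PF.nil_f] at h

lemma mem_dv {b : K} {c' c : Λ} {p : PF K Λ} : p ∈ (dv D b c' c).S ↔ p ∈ D.D b c' c := Iff.rfl

lemma mem_dv_res {b : K} {c' c : Λ} {p : PF K Λ} :
    p.res (Iio b) ∈ (dv D b c' c).S ↔ p ∈ (dv D b c' c).S := (D.cyl b c' c p).symm

/-- restriction to an initial segment is monotone -/
lemma res_mono_lower {Z : Set K} (hZ : IsLowerSet Z) {p q : PF K Λ}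
    (h : @LE.le (PD D) _ p q) : @LE.le (PD D) _ (p.res Z) (q.res Z) := by
  intro b c hb
  obtain ⟨hbZ, hq⟩ := PF.res_f_eq_some.1 hb
  obtain ⟨c', hc', hm⟩ := h b c hq
  refine ⟨c', PF.res_f_eq_some.2 ⟨hbZ, hc'⟩, ?_⟩
  have h3 : Z ∩ Iio b = Iio b :=
    inter_eq_self_of_subset_right fun x (hx : x < b) => hZ (le_of_lt hx) hbZ
  rw [PF.res_res, h3]
  exact hm

lemma mem_SZ {Z : Set K} {U : BB D} : U ∈ SZ D Z ↔ ∀ p : PF K Λ, p ∈ U.S ↔ p.res Z ∈ U.S := Iff.rfl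

lemma SZ_mono {Z Z' : Set K} (h : Z ⊆ Z') : SZ D Z ⊆ SZ D Z' := fun U hU p => by
  rw [hU p, hU (p.res Z'), PF.res_res, inter_eq_self_of_subset_right h]

lemma SZ_inter {Z Z' : Set K} {U : BB D} (h : U ∈ SZ D Z) (h' : U ∈ SZ D Z') :
    U ∈ SZ D (Z ∩ Z') := fun p => by
  rw [h p, h' (p.res Z), PF.res_res]

lemma SZ_univ (U : BB D) : U ∈ SZ D univ := fun p => by rw [PF.res_univ]

lemma dv_mem_Iio (b : K) (c' c : Λ) : dv D b c' c ∈ SZ D (Iio b) := fun p => D.cyl b c' c p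

lemma ee_mem_iff {p q : PF K Λ} : q ∈ (ee D p).S ↔
    ∀ r : PF K Λ, @LE.le (PD D) _ r q → ∃ s : PF K Λ, @LE.le (PD D) _ s r ∧
      @LE.le (PD D) _ s p := Iff.rfl

lemma ee_le_iff {p : PF K Λ} {U : BB D} : ee D p ≤ U ↔ p ∈ U.S := RO.pt_le_iff (Q := PD D)

lemma ee_ne_bot (p : PF K Λ) : ee D p ≠ ⊥ := RO.pt_ne_bot (Q := PD D) p

lemma ee_mono {p q : PF K Λ} (h : @LE.le (PD D) _ p q) : ee D p ≤ ee D q := RO.pt_mono (Q := PD D) h

lemma ee_nil : ee D PF.nil = ⊤ := by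
  refine RO.eq_top_iff'.2 fun p r _ => ⟨r, @le_rfl (PD D) _ r, le_nil r⟩

lemma exists_ee_le {U : BB D} (h : U ≠ ⊥) : ∃ p : PF K Λ, ee D p ≤ U :=
  RO.exists_pt_le (Q := PD D) h

lemma Tr_of_lower {Z : Set K} (hZ : IsLowerSet Z) : Tr D Z := fun b hb c' c =>
  SZ_mono (fun _ hx => hZ (le_of_lt hx) hb) (dv_mem_Iio b c' c)

lemma Tr.inter {Z Z' : Set K} (h : Tr D Z) (h' : Tr D Z') : Tr D (Z ∩ Z') :=
  fun b hb c' c => SZ_inter (h b hb.1 c' c) (h' b hb.2 c' c)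

lemma Tr.union {Z Z' : Set K} (h : Tr D Z) (h' : Tr D Z') : Tr D (Z ∪ Z') := by
  rintro b (hb | hb) c' c
  · exact SZ_mono subset_union_left (h b hb c' c)
  · exact SZ_mono subset_union_right (h' b hb c' c)

end

section

variable {K Λ L : Type u} [LinearOrder K] [LinearOrder L] (S : Sys K Λ L)

lemma Sys.dv_mem_W (b : K) (c' c : Λ)
    (hS : ∀ (κ : Kd) (W : Set (BB S.D)), IsSS W → ∀ c d : CndS κ W, c.cmp d ∈ W)
    (hR : ∀ (W : Set (BB S.D)), IsSS W → ∀ c d : CndR W, c.cmp d ∈ W) :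
    dv S.D b c' c ∈ S.W b ∨ dv S.D b c' c = ⊤ := by
  rcases h : S.kd b with _ | _ | _ | _ | _ | _ | _
  · exact Or.inr (S.vT b h c' c)
  · exact Or.inl ((S.vS b (by rw [h]; simp [Kd.isS])).1 c' c ▸ hS _ _ (S.ss b) _ _)
  · exact Or.inl ((S.vS b (by rw [h]; simp [Kd.isS])).1 c' c ▸ hS _ _ (S.ss b) _ _)
  · exact Or.inl ((S.vS b (by rw [h]; simp [Kd.isS])).1 c' c ▸ hS _ _ (S.ss b) _ _)
  · exact Or.inl ((S.vR b h).1 c' c ▸ hR _ (S.ss b) _ _)
  · exact Or.inl ((S.vS b (by rw [h]; simp [Kd.isS])).1 c' c ▸ hS _ _ (S.ss b) _ _)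
  · exact Or.inl ((S.vS b (by rw [h]; simp [Kd.isS])).1 c' c ▸ hS _ _ (S.ss b) _ _)

end

end CI
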