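import Pool.Agent.CI.C.MdlStm
import Pool.Agent.CI.C.ItrLem

/-!
# Project CI, core: upper bound for `non E` (proof)
-/

set_option autoImplicit false

open Set Cardinal Pool.Agent.CL

namespace CI

universe u

namespace A4

/-! ### counting -/

section

variable {B : Type u} [CompleteBooleanAlgebra B]

/-- the truth value of: at most `2 ^ (n - k)` nodes at the level `n` -/
noncomputable def uu (T : ℕ → Finset ℕ → B) (k n : ℕ) : B :=
  ⨅ A : Finset (Finset ℕ), ⨅ _ : (∀ a ∈ A, a ⊆ Finset.range n) ∧ 2 ^ n < 2 ^ k * A.card,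
    (⨅ a ∈ A, T n a)ᶜ

lemma uu_le {T : ℕ → Finset ℕ → B} {k n : ℕ} {A : Finset (Finset ℕ)}
    (h1 : ∀ a ∈ A, a ⊆ Finset.range n) (h2 : 2 ^ n < 2 ^ k * A.card) :
    uu T k n ≤ (⨅ a ∈ A, T n a)ᶜ :=
  iInf₂_le A ⟨h1, h2⟩

lemma T_le (F : CloC B) (n : ℕ) {a : Finset ℕ} (ha : a ⊆ Finset.range (n + 1)) :
    F.T (n + 1) a ≤ F.T n (a.erase n) := by
  have h1 : a.erase n ⊆ Finset.range n := by
    intro x hx
    obtain ⟨h2, h3⟩ := Finset.mem_erase.1 hx
    have := Finset.mem_range.1 (ha h3)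
    exact Finset.mem_range.2 (by omega)
  rw [F.zero n _ h1]
  by_cases hn : n ∈ a
  · rw [Finset.insert_erase hn]
    exact le_sup_right
  · rw [Finset.erase_eq_of_notMem hn]
    exact le_sup_left

lemma uu_succ (F : CloC B) (k n : ℕ) : uu F.T k n ≤ uu F.T k (n + 1) := by
  classical
  refine le_iInf₂ fun A hA => ?_
  obtain ⟨h1, h2⟩ := hA
  set A' := A.image fun a => a.erase n with hA'
  have h3 : ∀ a ∈ A', a ⊆ Finset.range n := by
    intro a ha
    obtain ⟨b, hb, rfl⟩ := Finset.mem_image.1 ha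
    intro x hx
    obtain ⟨h4, h5⟩ := Finset.mem_erase.1 hx
    have := Finset.mem_range.1 (h1 b hb h5)
    exact Finset.mem_range.2 (by omega)
  have h4 : A.card ≤ 2 * A'.card := by
    refine Finset.card_le_mul_card_image (f := fun a : Finset ℕ => a.erase n) A 2 fun b hb => ?_
    have h5 : (A.filter fun a => a.erase n = b) ⊆ {b, insert n b} := by
      intro a ha
      obtain ⟨_, rfl⟩ := Finset.mem_filter.1 ha
      by_cases hn : n ∈ a
      · rw [Finset.insert_erase hn]; simp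
      · rw [Finset.erase_eq_of_notMem hn]; simp
    exact (Finset.card_le_card h5).trans Finset.card_le_two
  have h5 : 2 ^ n < 2 ^ k * A'.card := by
    have h6 : 2 ^ (n + 1) < 2 ^ k * (2 * A'.card) := lt_of_lt_of_le h2 (Nat.mul_le_mul_left _ h4)
    rw [pow_succ, mul_left_comm, mul_comm (2 ^ n) 2] at h6
    omega
  refine (uu_le h3 h5).trans (compl_le_compl ?_)
  refine le_iInf₂ fun a ha => ?_
  obtain ⟨b, hb, rfl⟩ := Finset.mem_image.1 ha
  exact (iInf₂_le b hb).trans (T_le F n (h1 b hb))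

lemma uu_mono (F : CloC B) (k : ℕ) {n m : ℕ} (h : n ≤ m) : uu F.T k n ≤ uu F.T k m :=
  monotone_nat_of_le_succ (uu_succ F k) h

lemma uu_top (F : CloC B) (hF : F.Nul) (k : ℕ) : ⨆ n, uu F.T k n = ⊤ := hF k

lemma cutV_le_of_mem {x : Rl B} {n k : ℕ} {a : Finset ℕ} (hk : k < n) (ha : k ∈ a) :
    cutV x n a ≤ x k := by
  refine (iInf_le _ (⟨k, hk⟩ : Fin n)).trans ?_
  simp [ha]

lemma cutV_le_of_notMem {x : Rl B} {n k : ℕ} {a : Finset ℕ} (hk : k < n) (ha : k ∉ a) :
    cutV x n a ≤ (x k)ᶜ := by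
  refine (iInf_le _ (⟨k, hk⟩ : Fin n)).trans ?_
  simp [ha]

lemma cutV_disj {x : Rl B} {n : ℕ} {a b : Finset ℕ} (ha : a ⊆ Finset.range n)
    (hb : b ⊆ Finset.range n) (hab : a ≠ b) : cutV x n a ⊓ cutV x n b = ⊥ := by
  have h1 : ∃ k, k < n ∧ ¬ (k ∈ a ↔ k ∈ b) := by
    by_contra h
    push Not at h
    apply hab
    ext k
    by_cases hk : k < n
    · exact h k hk
    · exact ⟨fun h2 => absurd (Finset.mem_range.1 (ha h2)) hk,
        fun h2 => absurd (Finset.mem_range.1 (hb h2)) hk⟩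
  obtain ⟨k, hk, h2⟩ := h1
  rw [eq_bot_iff]
  by_cases h3 : k ∈ a
  · have h4 : k ∉ b := fun h => h2 ⟨fun _ => h, fun _ => h3⟩
    exact (inf_le_inf (cutV_le_of_mem hk h3) (cutV_le_of_notMem hk h4)).trans
      (inf_compl_eq_bot).le
  · have h4 : k ∈ b := by
      by_contra h
      exact h2 ⟨fun h5 => absurd h5 h3, fun h5 => absurd h5 h⟩
    exact (inf_le_inf (cutV_le_of_notMem hk h3) (cutV_le_of_mem hk h4)).trans
      (compl_inf_eq_bot).le

/-- an element below `⟦x ∈ F⟧` and `⟦x ∩ n = a⟧` is below `T n a` -/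
lemma le_T {F : CloC B} {x : Rl B} {n : ℕ} {a : Finset ℕ} {e : B} (ha : a ⊆ Finset.range n)
    (h1 : e ≤ F.mem x) (h2 : e ≤ cutV x n a) : e ≤ F.T n a := by
  have h3 : e ≤ (⨆ b : Finset ℕ, ⨆ _ : b ⊆ Finset.range n, F.T n b ⊓ cutV x n b) ⊓
      cutV x n a := le_inf (h1.trans (iInf_le _ n)) h2
  refine h3.trans ?_
  rw [iSup_inf_eq]
  refine iSup_le fun b => ?_
  rw [iSup_inf_eq]
  refine iSup_le fun hb => ?_
  by_cases hab : b = a
  · subst hab
    exact inf_le_left.trans inf_le_left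
  · rw [inf_assoc, cutV_disj hb ha hab, inf_bot_eq]
    exact bot_le

end

/-! ### bits -/

/-- the stem `s` followed by the bits of `x` -/
def stm (s : List ℕ) (l x : ℕ) : List ℕ :=
  s ++ (List.range (l - s.length)).map fun r => if x.testBit r then 1 else 0

/-- the set given by the stem -/
def nod (s : List ℕ) (l x : ℕ) : Finset ℕ :=
  (Finset.range l).filter fun k => at' (stm s l x) k ≠ 0

/-- the number of stems -/
def XX (s : List ℕ) (l : ℕ) : ℕ := if s.length < l then 2 ^ (l - s.length) else 0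

lemma length_stm {s : List ℕ} {l : ℕ} (h : s.length ≤ l) (x : ℕ) : (stm s l x).length = l := by
  simp only [stm, List.length_append, List.length_map, List.length_range]
  omega

lemma at_stm {s : List ℕ} {l r : ℕ} (hr : r < l - s.length) (x : ℕ) :
    at' (stm s l x) (s.length + r) = if x.testBit r then 1 else 0 := by
  rw [at', stm, List.getD_append_right _ _ _ _ (by omega), Nat.add_sub_cancel_left,
    List.getD_eq_getElem _ _ (by simpa using hr)]
  simp

lemma nod_inj {s : List ℕ} {l x y : ℕ} (hx : x < XX s l) (hy : y < XX s l)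
    (h : nod s l x = nod s l y) : x = y := by
  have hl : s.length < l := by
    by_contra h1
    simp [XX, h1] at hx
  rw [XX, if_pos hl] at hx hy
  refine Nat.eq_of_testBit_eq fun r => ?_
  by_cases hr : r < l - s.length
  · have h1 : s.length + r ∈ nod s l x ↔ s.length + r ∈ nod s l y := by rw [h]
    rw [nod, nod, Finset.mem_filter, Finset.mem_filter, Finset.mem_range, at_stm hr,
      at_stm hr] at h1
    have h2 : s.length + r < l := by omega
    cases h3 : x.testBit r <;> cases h4 : y.testBit r <;> simp_all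
  · have h1 : 2 ^ (l - s.length) ≤ 2 ^ r := Nat.pow_le_pow_right (by norm_num) (by omega)
    rw [Nat.testBit_lt_two_pow (lt_of_lt_of_le hx h1),
      Nat.testBit_lt_two_pow (lt_of_lt_of_le hy h1)]

lemma nod_sub (s : List ℕ) (l x : ℕ) : nod s l x ⊆ Finset.range l := Finset.filter_subset _ _

/-! ### the main argument -/

section

variable {K Λ L : Type u} [LinearOrder K] [LinearOrder L] (S : Sys K Λ L)

lemma nonempty_label (h6 : GenStm.{u}) {b : K} (hb : (S.kd b).isS) : Nonempty Λ := by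
  by_contra h
  rw [not_nonempty_iff] at h
  have h1 := (h6 K Λ L S b hb).2.1 0
  have h2 : (⨆ v, S.gen b 0 v) = ⊥ := by
    rw [eq_bot_iff]
    refine iSup_le fun v => ?_
    rw [Sys.gen]
    exact iSup_le fun c => (h.false c).elim
  rw [h2] at h1
  have h3 : ee S.D (PF.nil : PF K Λ) = ⊤ := ee_nil
  exact ee_ne_bot (D := S.D) (PF.nil : PF K Λ) (h3.trans h1.symm)

/-- a condition with `i` in its domain below a given element -/
lemma exists_cond (h6 : GenStm.{u}) {i : K} (hi : (S.kd i).isS) {U : BB S.D} (hU : U ≠ ⊥) :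
    ∃ p : PF K Λ, i ∈ p.dom ∧ ee S.D p ≤ U := by
  obtain ⟨p, hp⟩ := exists_ee_le hU
  by_cases h : i ∈ p.dom
  · exact ⟨p, h, hp⟩
  · obtain ⟨c⟩ := nonempty_label S h6 hi
    refine ⟨p.upd i c, by rw [PF.dom_upd]; exact mem_insert _ _, (ee_mono ?_).trans hp⟩
    intro b c' hb
    have hne : b ≠ i := by
      rintro rfl
      exact h (PF.mem_dom.2 ⟨c', hb⟩)
    exact ⟨c', by rw [PF.upd_f_ne hne]; exact hb, S.D.refl _ _ _⟩

/-- the condition with a longer stem -/
lemma exists_long (h2 : CohStm.{u}) {i : K} (hi : S.kd i = .coh) {p : PF K Λ} (hp : i ∈ p.dom)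
    {s : List ℕ} (hs : ∀ c, p.f i = some c → S.st i c = s) (t : List ℕ) (ht : s <+: t) :
    ∃ q : PF K Λ, q.dom = p.dom ∧ (∀ b, b ≠ i → q.f b = p.f b) ∧ ee S.D q ≤ ee S.D p ∧
      ∀ k, k < t.length → ee S.D q ≤ S.gen i k (at' t k) := by
  obtain ⟨c, hc⟩ := PF.mem_dom.1 hp
  obtain ⟨c', h3, h4, h5⟩ := h2 K Λ L S i hi p c t hc (by rw [hs c hc]; exact ht)
  refine ⟨p.upd i c', ?_, fun b hb => PF.upd_f_ne hb, h4, h5⟩
  rw [PF.dom_upd]
  exact insert_eq_of_mem hp

/-- the stem decides the restriction of the real -/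
lemma le_cutV (h6 : GenStm.{u}) {i : K} (hi : (S.kd i).isS) {e : BB S.D} {t : List ℕ} {l : ℕ}
    (ht : t.length = l) (h : ∀ k, k < t.length → e ≤ S.gen i k (at' t k)) {a : Finset ℕ}
    (ha : ∀ k, k < l → (k ∈ a ↔ at' t k ≠ 0)) : e ≤ cutV (S.crl i) l a := by
  refine le_iInf fun k => ?_
  have hk : (k : ℕ) < t.length := by rw [ht]; exact k.2
  have h1 := h k hk
  by_cases h2 : (k : ℕ) ∈ a
  · rw [if_pos h2]
    have h3 : at' t k ≠ 0 := (ha k k.2).1 h2
    have h4 := (h6 K Λ L S i hi).1 k _ 0 h3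
    rw [Sys.crl]
    refine h1.trans ?_
    rw [le_compl_iff_disjoint_right, disjoint_iff]
    exact h4
  · rw [if_neg h2]
    have h3 : at' t k = 0 := by
      by_contra h4
      exact h2 ((ha k k.2).2 h4)
    rw [Sys.crl, compl_compl, ← h3]
    exact h1

end

end A4

open A4

theorem a4Stm (h1 : ThinStm.{u}) (h2 : CohStm.{u}) (h3 : Lim4Stm.{u}) (h4 : EvBotStm.{u})
    (h5 : CccStm.{u}) (h6 : GenStm.{u}) : A4Stm.{u} := by
  intro l th m hc
  let _ := m.iK
  let _ := m.iL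
  let _ := m.wK
  intro F hF
  by_contra hJ
  rw [not_lt] at hJ
  set J : Set m.K := {i | m.S.kd i = .coh ∧ ⨆ n, (F n).mem (m.S.crl i) ≠ ⊥} with hJdef
  have hisS : ∀ i : m.K, m.S.kd i = .coh → (m.S.kd i).isS := fun i hi => Or.inl hi
  -- conditions
  have hex : ∀ i : m.K, ∃ (n : ℕ) (p : PF m.K m.Λ), i ∈ J →
      i ∈ p.dom ∧ ee m.S.D p ≤ (F n).mem (m.S.crl i) := by
    intro i
    by_cases hi : i ∈ J
    · have hn : ∃ n, (F n).mem (m.S.crl i) ≠ ⊥ := by
        by_contra h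
        push Not at h
        apply hi.2
        simp [h]
      obtain ⟨n, hn⟩ := hn
      obtain ⟨p, hp⟩ := exists_cond m.S h6 (hisS i hi.1) hn
      exact ⟨n, p, fun _ => hp⟩
    · exact ⟨0, PF.nil, fun h => absurd h hi⟩
  choose n p hp using hex
  -- cardinals
  have hth4 : ℵ₀ ≤ th 4 := by
    have e1 : l 3 ≤ th 4 := hc.le 3 4 (by decide) (by decide)
    have e2 : l 0 < l 3 := hc.lt 0 3 (by decide)
    rw [hc.zero] at e2
    exact (aleph0_lt_aleph_one.le.trans e2.le).trans e1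
  have hl4 : l 4 = Order.succ (th 4) := hc.succ 4 (by decide) (by decide)
  have hreg : (l 4).IsRegular := by rw [hl4]; exact isRegular_succ hth4
  have hlt4 : th 4 < l 4 := by rw [hl4]; exact Order.lt_succ _
  have hal : ℵ₀ < l 4 := lt_of_le_of_lt hth4 hlt4
  have hth : ∀ j : Fin 8, 1 ≤ j → j ≤ 4 → th j < l 4 := by
    intro j hj1 hj4
    have e1 : l j = Order.succ (th j) := hc.succ j hj1 (hj4.trans (by decide))
    have e2 : th j < l j := by rw [e1]; exact Order.lt_succ _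
    rcases hj4.lt_or_eq with hj | hj
    · exact e2.trans (hc.lt j 4 hj)
    · rw [hj]; exact hlt4
  obtain ⟨J', R, s, n₀, hJJ, hJc, hiR, hRd, hdd, hst, hn0, hroot⟩ :=
    h1 m.K m.Λ m.L m.S (l 4) hreg hal J p n hJ fun i hi => ⟨hi.1, (hp i hi).1⟩
  -- distinct coordinates
  have hinf : J'.Infinite := by
    rw [← Set.infinite_coe_iff, ← Cardinal.aleph0_le_mk_iff, hJc]
    exact hal.le
  set e : ℕ → m.K := fun k => (hinf.natEmbedding J' k : m.K) with he
  have heJ : ∀ k, e k ∈ J' := fun k => (hinf.natEmbedding J' k).2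
  have heinj : ∀ k k', e k = e k' → k = k' := fun k k' h =>
    (hinf.natEmbedding J').injective (Subtype.ext h)
  -- conditions with long stems
  have hlong : ∀ l' x : ℕ, ∃ q : PF m.K m.Λ, q.dom = (p (e (Nat.pair l' x))).dom ∧
      (∀ b, b ≠ e (Nat.pair l' x) → q.f b = (p (e (Nat.pair l' x))).f b) ∧
      ee m.S.D q ≤ ee m.S.D (p (e (Nat.pair l' x))) ∧
      ∀ k, k < (stm s l' x).length →
        ee m.S.D q ≤ m.S.gen (e (Nat.pair l' x)) k (at' (stm s l' x) k) := by
    intro l' x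
    have hi := heJ (Nat.pair l' x)
    exact exists_long m.S h2 (hJJ hi).1 (hp _ (hJJ hi)).1 (hst _ hi) _ (List.prefix_append _ _)
  choose q hqd hqf hqe hqs using hlong
  -- the limit is not zero
  have hne := h3 m.K m.Λ m.L m.Θ m.S m.rd m.rt m.φ m.good (h5 m.K m.Λ m.L m.S) m.gus m.cld
    (XX s) q R
    (fun l' x _ => by rw [hqd]; exact hRd _ (heJ _))
    (fun l' x l'' x' _ _ hne => by
      rw [hqd, hqd]
      refine hdd _ (heJ _) _ (heJ _) fun h => hne ?_
      have h' := heinj _ _ h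
      rw [Nat.pair_eq_pair] at h'
      exact Prod.ext h'.1 h'.2)
    (fun b hb l' x l'' x' c c' _ _ hc1 hc2 => by
      have hbi : ∀ k, b ≠ e k := fun k h => hiR _ (heJ k) (h ▸ hb)
      rw [hqf _ _ _ (hbi _)] at hc1 hc2
      obtain ⟨r1, r2, r3, r4, r5⟩ := hroot b hb _ (heJ _) _ (heJ _) c c' hc1 hc2
      have hkd : m.S.kd b = .tr ∨ m.S.kd b = .coh ∨ m.S.kd b = .loc ∨ m.S.kd b = .hech ∨
          m.S.kd b = .rnd ∨ m.S.kd b = .ev ∨ m.S.kd b = .et := by
        cases m.S.kd b <;> simp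
      rcases hkd with hk | hk | hk | hk | hk | hk | hk
      · exact Or.inl (r1 hk)
      · exact Or.inl (r4 (by rw [hk]; simp [Kd.isS])
          (lt_of_le_of_lt (m.sz1 b (Or.inl hk)) (hth 1 (by decide) (by decide))))
      · exact Or.inl (r4 (by rw [hk]; simp [Kd.isS])
          (lt_of_le_of_lt (m.sz1 b (Or.inr hk)) (hth 1 (by decide) (by decide))))
      · exact Or.inl (r4 (by rw [hk]; simp [Kd.isS])
          (lt_of_le_of_lt (m.sz2 b hk) (hth 2 (by decide) (by decide))))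
      · exact Or.inl (r5 hk
          (lt_of_le_of_lt (m.sz3 b hk) (hth 3 (by decide) (by decide))))
      · exact Or.inl (r4 (by rw [hk]; simp [Kd.isS])
          (lt_of_le_of_lt (m.sz4 b hk) (hth 4 (by decide) (by decide))))
      · exact Or.inr ⟨hk, r2 (by rw [hk]; simp [Kd.isS])⟩)
  -- but it is zero
  refine hne ((h4 m.K m.Λ m.L m.Θ m.S m.rd m.rt m.φ m.good).1 _
    (fun k => uu (F n₀).T (s.length + 2) k) (uu_top (F n₀) (hF n₀) _) fun k => ?_)
  refine ⟨max k (s.length + 1), fun l' hl' => ?_⟩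
  have hkl : k ≤ l' := (le_max_left _ _).trans hl'
  have hsl : s.length < l' := (le_max_right _ _).trans hl'
  rw [eq_bot_iff]
  refine (inf_le_inf_left _ (uu_mono (F n₀) _ hkl)).trans ?_
  rw [cntGe, iSup_inf_eq]
  refine iSup_le fun C => ?_
  rw [iSup_inf_eq]
  refine iSup_le fun hC => ?_
  obtain ⟨hC1, hC2⟩ := hC
  classical
  set A : Finset (Finset ℕ) := C.image (nod s l') with hA
  have hA1 : ∀ a ∈ A, a ⊆ Finset.range l' := by
    intro a ha
    obtain ⟨x, _, rfl⟩ := Finset.mem_image.1 ha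
    exact nod_sub _ _ _
  have hA2 : A.card = C.card := by
    refine Finset.card_image_of_injOn fun x hx y hy hxy => ?_
    exact nod_inj (Finset.mem_range.1 (hC1 hx)) (Finset.mem_range.1 (hC1 hy)) hxy
  have hA3 : 2 ^ l' < 2 ^ (s.length + 2) * A.card := by
    rw [XX, if_pos hsl] at hC2
    have e1 : 2 ^ (s.length + 2) * 2 ^ (l' - s.length) ≤ 2 ^ (s.length + 2) * (C.card * 2) :=
      Nat.mul_le_mul_left _ hC2
    have e2 : 2 ^ (s.length + 2) * 2 ^ (l' - s.length) = 4 * 2 ^ l' := by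
      rw [← pow_add, show s.length + 2 + (l' - s.length) = 2 + l' by omega, pow_add]
      norm_num
    have e3 : 0 < 2 ^ l' := by positivity
    rw [e2, ← mul_assoc] at e1
    rw [hA2]
    omega
  have hA4 : (C.inf fun x => ee m.S.D (q l' x)) ≤ ⨅ a ∈ A, (F n₀).T l' a := by
    refine le_iInf₂ fun a ha => ?_
    obtain ⟨x, hx, rfl⟩ := Finset.mem_image.1 ha
    refine (Finset.inf_le hx).trans ?_
    have hi := heJ (Nat.pair l' x)
    refine le_T (x := m.S.crl (e (Nat.pair l' x))) (nod_sub _ _ _) ?_ ?_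
    · have := (hp _ (hJJ hi)).2
      rw [hn0 _ hi] at this
      exact (hqe l' x).trans this
    · refine le_cutV m.S h6 (hisS _ (hJJ hi).1) (length_stm hsl.le x) (hqs l' x) fun k' hk' => ?_
      rw [nod, Finset.mem_filter, Finset.mem_range]
      exact ⟨fun h => h.2, fun h => ⟨hk', h⟩⟩
  exact (inf_le_inf hA4 (uu_le hA1 hA3)).trans (inf_compl_eq_bot).le

end CI
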