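import Pool.Agent.CI.C.ItrStm

/-!
# Project CI, core: the chain condition of the poset of guesses
-/

set_option autoImplicit false

open Set Cardinal Pool.Agent.CL

namespace CI

universe u

theorem aFccStm (h : DelCtbStm.{u}) : AFccStm.{u} := by
  classical
  intro K Θ θ h0 h1 h2 s hs
  by_contra hlt
  have h3 : θ < #s := not_le.1 hlt
  have hO : #(Option Θ) ≤ θ := by
    rw [mk_option]
    exact add_le_of_le h0 h2 (one_le_aleph0.trans h0)
  obtain ⟨i, j, hij, hag⟩ := h K s (Option Θ) θ h0 h1 hO h3
    (fun i => {b | i.1.f b ≠ none}) (fun i => i.1.f) (fun i => i.1.ctb)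
  have hne : (i : AF K Θ) ≠ j := fun e => hij (Subtype.ext e)
  refine hs i.1 i.2 j.1 j.2 hne ⟨⟨fun b => if i.1.f b = none then j.1.f b else i.1.f b, ?_⟩,
    ?_, ?_⟩
  · refine (i.1.ctb.union j.1.ctb).mono fun b hb => ?_
    by_cases h4 : i.1.f b = none
    · right
      have h5 : (if i.1.f b = none then j.1.f b else i.1.f b) ≠ none := hb
      rw [if_pos h4] at h5
      exact h5
    · left
      exact h4
  · intro b x hx
    show (if i.1.f b = none then j.1.f b else i.1.f b) = some x
    rw [if_neg (by rw [hx]; exact Option.some_ne_none x)]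
    exact hx
  · intro b x hx
    show (if i.1.f b = none then j.1.f b else i.1.f b) = some x
    by_cases h4 : i.1.f b = none
    · rw [if_pos h4]
      exact hx
    · rw [if_neg h4]
      have h5 := hag b ⟨h4, by
        show j.1.f b ≠ none
        rw [hx]
        exact Option.some_ne_none x⟩
      exact h5.trans hx

end CI
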