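import Pool.Agent.CI.C.Itr

/-!
# Project CI, core: transport of regular sets between two preorders which agree below a retraction
-/

set_option autoImplicit false

open Set Cardinal Pool.Agent.CL

namespace CI

universe u

/-- two preorders with retractions which agree on the ranges -/
structure Cmp (Q Q' : Type u) [Preorder Q] [Preorder Q'] (e : Q ≃ Q') (r : Q → Q) (r' : Q' → Q') :
    Prop where
  idem : ∀ p, r (r p) = r p
  comm : ∀ p, e (r p) = r' (e p)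
  le : ∀ p, p ≤ r p
  le' : ∀ p, p ≤ r' p
  mono : ∀ p q, q ≤ p → r q ≤ r p
  mono' : ∀ p q, q ≤ p → r' q ≤ r' p
  lift : ∀ p q, q ≤ r p → ∃ q', q' ≤ p ∧ r q' = r q
  lift' : ∀ p q, q ≤ r' p → ∃ q', q' ≤ p ∧ r' q' = r' q
  iff : ∀ p q, r q ≤ r p ↔ r' (e q) ≤ r' (e p)

/-- sets which do not depend on more than the retraction -/
def Inv {Q : Type u} [Preorder Q] (r : Q → Q) : Set (RO Q) := {U | ∀ p, p ∈ U.S ↔ r p ∈ U.S}

/-- transport -/
def trG {Q Q' : Type u} [Preorder Q] [Preorder Q'] (e : Q ≃ Q') (U : RO Q) : RO Q' :=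
  ⟨reg {q | e.symm q ∈ U.S}, isReg_reg _⟩

namespace Cmp

variable {Q Q' : Type u} [Preorder Q] [Preorder Q'] {e : Q ≃ Q'} {r : Q → Q} {r' : Q' → Q'}

theorem symm (h : Cmp Q Q' e r r') : Cmp Q' Q e.symm r' r where
  idem p := by
    obtain ⟨q, rfl⟩ := e.surjective p
    rw [← h.comm, ← h.comm, h.idem]
  comm p := by
    obtain ⟨q, rfl⟩ := e.surjective p
    rw [← h.comm, e.symm_apply_apply, e.symm_apply_apply]
  le := h.le'
  le' := h.le
  mono := h.mono'
  mono' := h.mono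
  lift := h.lift'
  lift' := h.lift
  iff p q := by
    obtain ⟨p, rfl⟩ := e.surjective p
    obtain ⟨q, rfl⟩ := e.surjective q
    rw [e.symm_apply_apply, e.symm_apply_apply, ← h.iff]

/-- from an extension on one side to an extension on the other side -/
theorem ext' (h : Cmp Q Q' e r r') {p : Q} {q : Q'} (hq : q ≤ e p) :
    ∃ q', q' ≤ p ∧ r q' = r (e.symm q) := by
  have h1 := h.mono' _ _ hq
  have h2 : r (e.symm q) ≤ r p := by
    rw [h.iff, e.apply_symm_apply]; exact h1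
  obtain ⟨q', hq', hr⟩ := h.lift p _ h2
  exact ⟨q', hq', by rw [hr, h.idem]⟩

theorem mem_of_eq {U : RO Q} (hU : U ∈ Inv r) {p q : Q} (h : r p = r q) (hp : p ∈ U.S) :
    q ∈ U.S := by
  rw [hU q, ← h, ← hU p]; exact hp

theorem mem_trG (h : Cmp Q Q' e r r') {U : RO Q} (hU : U ∈ Inv r) (p : Q') :
    p ∈ (trG e U).S ↔ e.symm p ∈ U.S := by
  constructor
  · intro hp
    rw [U.isReg]
    intro q hq
    obtain ⟨q', hq', hr⟩ := h.symm.ext' (p := p) hq
    obtain ⟨s, hs, hsU⟩ := hp q' hq'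
    have hsU' : e.symm s ∈ U.S := hsU
    have : s ≤ e (e.symm q') := by rw [e.apply_symm_apply]; exact hs
    obtain ⟨s', hs', hr'⟩ := h.ext' this
    -- `s' ≤ e.symm q'`, `r s' = r (e.symm s)`
    have e1 : r (e.symm q') = r q := by
      have := hr
      rw [e.symm_symm] at this
      have h2 := h.comm (e.symm q')
      rw [e.apply_symm_apply, this, ← h.comm] at h2
      exact e.injective h2
    have h3 : r s' ≤ r q := by
      rw [← e1]; exact h.mono _ _ hs'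
    obtain ⟨t, ht, htr⟩ := h.lift q _ h3
    refine ⟨t, ht, mem_of_eq hU ?_ hsU'⟩
    rw [htr, h.idem, hr']
  · intro hp q hq
    refine ⟨q, le_rfl, ?_⟩
    have h1 := h.mono' _ _ hq
    have h2 : r (e.symm q) ≤ r (e.symm p) := by
      rw [h.iff, e.apply_symm_apply, e.apply_symm_apply]; exact h1
    have h3 : r (e.symm p) ∈ U.S := (hU _).1 hp
    have h4 := U.isReg.down h3 h2
    exact (hU _).2 h4

theorem trG_inv (h : Cmp Q Q' e r r') {U : RO Q} (hU : U ∈ Inv r) : trG e U ∈ Inv r' := by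
  intro p
  rw [h.mem_trG hU, h.mem_trG hU, hU, ← h.symm.comm]

theorem trG_trG (h : Cmp Q Q' e r r') {U : RO Q} (hU : U ∈ Inv r) : trG e.symm (trG e U) = U := by
  ext p
  rw [h.symm.mem_trG (h.trG_inv hU), e.symm_symm, h.mem_trG hU, e.symm_apply_apply]

theorem trG_inj (h : Cmp Q Q' e r r') {U V : RO Q} (hU : U ∈ Inv r) (hV : V ∈ Inv r)
    (he : trG e U = trG e V) : U = V := by
  rw [← h.trG_trG hU, ← h.trG_trG hV, he]

theorem trG_le (h : Cmp Q Q' e r r') {U V : RO Q} (hU : U ∈ Inv r) (hV : V ∈ Inv r) :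
    trG e U ≤ trG e V ↔ U ≤ V := by
  constructor
  · intro h' p hp
    have := h' (a := e p) ((h.mem_trG hU _).2 (by rw [e.symm_apply_apply]; exact hp))
    rw [h.mem_trG hV, e.symm_apply_apply] at this
    exact this
  · intro h' p hp
    rw [h.mem_trG hV]
    exact h' ((h.mem_trG hU _).1 hp)

theorem inv_compl (h : Cmp Q Q' e r r') {U : RO Q} (hU : U ∈ Inv r) : Uᶜ ∈ Inv r := by
  intro p
  constructor
  · intro hp q hq hqU
    obtain ⟨q', hq', hr⟩ := h.lift p q hq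
    exact hp q' hq' (mem_of_eq hU hr.symm hqU)
  · intro hp q hq hqU
    exact hp (r q) (h.mono _ _ hq) ((hU q).1 hqU)

theorem inv_iInf {ι : Sort*} {U : ι → RO Q} (hU : ∀ i, U i ∈ Inv r) : ⨅ i, U i ∈ Inv r := by
  intro p
  rw [RO.mem_iInf, RO.mem_iInf]
  exact forall_congr' fun i => hU i p

theorem inv_inf {U V : RO Q} (hU : U ∈ Inv r) (hV : V ∈ Inv r) : U ⊓ V ∈ Inv r := by
  intro p
  rw [RO.mem_inf, RO.mem_inf, hU p, hV p]

theorem inv_top : (⊤ : RO Q) ∈ Inv r := fun _ => ⟨fun _ => trivial, fun _ => trivial⟩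

theorem inv_bot : (⊥ : RO Q) ∈ Inv r := fun _ => ⟨fun h => h.elim, fun h => h.elim⟩

theorem inv_iSup (h : Cmp Q Q' e r r') {ι : Sort*} {U : ι → RO Q} (hU : ∀ i, U i ∈ Inv r) :
    ⨆ i, U i ∈ Inv r := by
  have : ⨆ i, U i = (⨅ i, (U i)ᶜ)ᶜ := by rw [compl_iInf]; simp
  rw [this]
  exact h.inv_compl (inv_iInf fun i => h.inv_compl (hU i))

theorem inv_himp (h : Cmp Q Q' e r r') {U V : RO Q} (hU : U ∈ Inv r) (hV : V ∈ Inv r) :
    U ⇨ V ∈ Inv r := by
  have : U ⇨ V = (U ⊓ Vᶜ)ᶜ := by rw [compl_inf, compl_compl, himp_eq, sup_comm]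
  rw [this]
  exact h.inv_compl (inv_inf hU (h.inv_compl hV))

theorem trG_compl (h : Cmp Q Q' e r r') {U : RO Q} (hU : U ∈ Inv r) :
    trG e Uᶜ = (trG e U)ᶜ := by
  ext p
  rw [h.mem_trG (h.inv_compl hU)]
  constructor
  · intro hp q hq hqU
    rw [h.mem_trG hU] at hqU
    have : q ≤ e (e.symm p) := by rw [e.apply_symm_apply]; exact hq
    obtain ⟨q', hq', hr⟩ := h.ext' this
    exact hp q' hq' (mem_of_eq hU hr.symm hqU)
  · intro hp q hq hqU
    obtain ⟨q', hq', hr⟩ := h.symm.ext' (p := p) hq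
    refine hp q' hq' ?_
    rw [h.mem_trG hU]
    refine mem_of_eq hU ?_ hqU
    rw [e.symm_symm] at hr
    have h2 := h.comm (e.symm q')
    rw [e.apply_symm_apply, hr, ← h.comm] at h2
    exact (e.injective h2).symm

theorem trG_iInf (h : Cmp Q Q' e r r') {ι : Sort*} {U : ι → RO Q} (hU : ∀ i, U i ∈ Inv r) :
    trG e (⨅ i, U i) = ⨅ i, trG e (U i) := by
  ext p
  rw [h.mem_trG (inv_iInf hU), RO.mem_iInf, RO.mem_iInf]
  exact forall_congr' fun i => (h.mem_trG (hU i) p).symm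

theorem trG_inf (h : Cmp Q Q' e r r') {U V : RO Q} (hU : U ∈ Inv r) (hV : V ∈ Inv r) :
    trG e (U ⊓ V) = trG e U ⊓ trG e V := by
  ext p
  rw [h.mem_trG (inv_inf hU hV), RO.mem_inf, RO.mem_inf, h.mem_trG hU, h.mem_trG hV]

theorem trG_top (h : Cmp Q Q' e r r') : trG e (⊤ : RO Q) = ⊤ := by
  ext p
  rw [h.mem_trG inv_top]
  exact ⟨fun _ => trivial, fun _ => trivial⟩

theorem trG_bot (h : Cmp Q Q' e r r') : trG e (⊥ : RO Q) = ⊥ := by
  ext p
  rw [h.mem_trG inv_bot]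
  exact ⟨fun h => h.elim, fun h => h.elim⟩

theorem trG_iSup (h : Cmp Q Q' e r r') {ι : Sort*} {U : ι → RO Q} (hU : ∀ i, U i ∈ Inv r) :
    trG e (⨆ i, U i) = ⨆ i, trG e (U i) := by
  have : ⨆ i, U i = (⨅ i, (U i)ᶜ)ᶜ := by rw [compl_iInf]; simp
  rw [this, h.trG_compl (inv_iInf fun i => h.inv_compl (hU i)),
    h.trG_iInf fun i => h.inv_compl (hU i), compl_iInf]
  refine iSup_congr fun i => ?_
  rw [h.trG_compl (hU i), compl_compl]

theorem trG_himp (h : Cmp Q Q' e r r') {U V : RO Q} (hU : U ∈ Inv r) (hV : V ∈ Inv r) :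
    trG e (U ⇨ V) = trG e U ⇨ trG e V := by
  have e1 : U ⇨ V = (U ⊓ Vᶜ)ᶜ := by rw [compl_inf, compl_compl, himp_eq, sup_comm]
  have e2 : trG e U ⇨ trG e V = (trG e U ⊓ (trG e V)ᶜ)ᶜ := by
    rw [compl_inf, compl_compl, himp_eq, sup_comm]
  rw [e1, e2, h.trG_compl (inv_inf hU (h.inv_compl hV)), h.trG_inf hU (h.inv_compl hV),
    h.trG_compl hV]

theorem inv_pt (h : Cmp Q Q' e r r') {p : Q} (hp : r p = p) : RO.pt p ∈ Inv r := by
  intro q
  rw [RO.mem_pt, RO.mem_pt]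
  constructor
  · intro hq s hs
    obtain ⟨s', hs', hr⟩ := h.lift q s hs
    obtain ⟨t, ht, htp⟩ := hq s' hs'
    have h1 : r t ≤ r s := by rw [← hr]; exact h.mono _ _ ht
    obtain ⟨t', ht', hr'⟩ := h.lift s _ h1
    refine ⟨t', ht', ?_⟩
    calc t' ≤ r t' := h.le t'
      _ = r t := by rw [hr', h.idem]
      _ ≤ r p := h.mono _ _ htp
      _ = p := hp
  · intro hq s hs
    obtain ⟨t, ht, htp⟩ := hq (r s) (h.mono _ _ hs)
    obtain ⟨t', ht', hr'⟩ := h.lift s t ht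
    refine ⟨t', ht', ?_⟩
    calc t' ≤ r t' := h.le t'
      _ = r t := hr'
      _ ≤ r p := h.mono _ _ htp
      _ = p := hp

theorem trG_pt (h : Cmp Q Q' e r r') {p : Q} (hp : r p = p) : trG e (RO.pt p) = RO.pt (e p) := by
  have hp' : r' (e p) = e p := by rw [← h.comm, hp]
  ext q
  rw [h.mem_trG (h.inv_pt hp), RO.mem_pt, RO.mem_pt]
  have key : ∀ (Q Q' : Type u) [Preorder Q] [Preorder Q'] (e : Q ≃ Q') (r : Q → Q)
      (r' : Q' → Q') (h : Cmp Q Q' e r r') (p : Q) (hp : r p = p) (q : Q'),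
      (∀ s, s ≤ e.symm q → ∃ t, t ≤ s ∧ t ≤ p) → ∀ s, s ≤ q → ∃ t, t ≤ s ∧ t ≤ e p := by
    intro Q Q' _ _ e r r' h p hp q hq s hs
    have : s ≤ e (e.symm q) := by rw [e.apply_symm_apply]; exact hs
    obtain ⟨s', hs', hr⟩ := h.ext' this
    obtain ⟨t, ht, htp⟩ := hq s' hs'
    have h1 : r t ≤ r (e.symm s) := by rw [← hr]; exact h.mono _ _ ht
    have h2 : r' (e t) ≤ r' s := by
      rw [h.iff, e.apply_symm_apply] at h1; exact h1
    obtain ⟨t', ht', hr'⟩ := h.lift' s _ h2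
    refine ⟨t', ht', ?_⟩
    have h3 : r' (e t) ≤ r' (e p) := (h.iff p t).1 (h.mono _ _ htp)
    calc t' ≤ r' t' := h.le' t'
      _ = r' (r' (e t)) := hr'
      _ = r' (e t) := h.symm.idem _
      _ ≤ r' (e p) := h3
      _ = e p := by rw [← h.comm, hp]
  constructor
  · exact key Q Q' e r r' h p hp q
  · intro hq
    have := key Q' Q e.symm r' r h.symm (e p) hp' (e.symm q) (by
      rw [e.symm_symm, e.apply_symm_apply]; exact hq)
    rw [e.symm_apply_apply] at this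
    exact this

end Cmp

end CI
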