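import Pool.Agent.CI.C.Sys
import Pool.Agent.CI.C.TrG

/-!
# Project CI, core: transport between data which agree on a lower set
-/

set_option autoImplicit false
set_option linter.unusedSectionVars false
set_option linter.unusedVariables false

open Set Cardinal Pool.Agent.CL

namespace CI

namespace Agr

universe u

variable {K Λ : Type u} [LinearOrder K]

theorem res_f (p : PF K Λ) (Z : Set K) (b : K) [Decidable (b ∈ Z)] :
    (p.res Z).f b = if b ∈ Z then p.f b else none := by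
  simp only [PF.res]
  congr

theorem res_on {p : PF K Λ} {Z : Set K} {b : K} (h : b ∈ Z) : (p.res Z).f b = p.f b := by
  classical
  rw [res_f, if_pos h]

theorem res_off {p : PF K Λ} {Z : Set K} {b : K} (h : b ∉ Z) : (p.res Z).f b = none := by
  classical
  rw [res_f, if_neg h]

theorem res_some {p : PF K Λ} {Z : Set K} {b : K} {c : Λ} (h : (p.res Z).f b = some c) :
    b ∈ Z ∧ p.f b = some c := by
  by_cases hb : b ∈ Z
  · rw [res_on hb] at h; exact ⟨hb, h⟩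
  · rw [res_off hb] at h; exact absurd h (by simp)

theorem res_congr {p q : PF K Λ} {Z : Set K} (h : ∀ b ∈ Z, p.f b = q.f b) : p.res Z = q.res Z := by
  ext b : 2
  by_cases hb : b ∈ Z
  · rw [res_on hb, res_on hb, h b hb]
  · rw [res_off hb, res_off hb]

theorem res_res (p : PF K Λ) (Z Y : Set K) : (p.res Z).res Y = p.res (Z ∩ Y) := by
  ext b : 2
  by_cases hb : b ∈ Y
  · rw [res_on hb]
    by_cases hz : b ∈ Z
    · rw [res_on hz, res_on (show b ∈ Z ∩ Y from ⟨hz, hb⟩)]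
    · rw [res_off hz, res_off (fun h => hz h.1)]
  · rw [res_off hb, res_off (fun h => hb h.2)]

theorem res_res_self (p : PF K Λ) (Z : Set K) : (p.res Z).res Z = p.res Z := by
  rw [res_res, inter_self]

theorem res_res_sub (p : PF K Λ) {Z Y : Set K} (h : Y ⊆ Z) : (p.res Z).res Y = p.res Y := by
  rw [res_res, inter_eq_right.2 h]

/-- `q` on `J`, `p` elsewhere -/
noncomputable def glue (J : Set K) (q p : PF K Λ) : PF K Λ := (q.res J).ov (p.res Jᶜ)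

theorem glue_on {J : Set K} {q p : PF K Λ} {b : K} (h : b ∈ J) : (glue J q p).f b = q.f b := by
  simp only [glue, PF.ov]
  rw [res_on h, res_off (Z := Jᶜ) (fun h' => h' h)]
  cases q.f b <;> rfl

theorem glue_off {J : Set K} {q p : PF K Λ} {b : K} (h : b ∉ J) : (glue J q p).f b = p.f b := by
  simp only [glue, PF.ov]
  rw [res_off h, res_on (show b ∈ Jᶜ from h)]
  rfl

theorem leD_res (D : Dat K Λ) (p : PF K Λ) (J : Set K) : leD D.D p (p.res J) := by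
  intro b c h
  obtain ⟨_, h⟩ := res_some h
  exact ⟨c, h, D.refl _ _ _⟩

theorem leD_mono (D : Dat K Λ) {J : Set K} (hJ : IsLowerSet J) {p q : PF K Λ}
    (h : leD D.D q p) : leD D.D (q.res J) (p.res J) := by
  intro b c hb
  obtain ⟨hbJ, hb⟩ := res_some hb
  obtain ⟨c', hc', hm⟩ := h b c hb
  refine ⟨c', by rw [res_on hbJ]; exact hc', ?_⟩
  rw [res_res_sub _ (show Iio b ⊆ J from fun x hx => hJ (le_of_lt hx) hbJ)]
  exact hm

theorem leD_lift (D : Dat K Λ) {J : Set K} (hJ : IsLowerSet J) {p q : PF K Λ}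
    (h : leD D.D q (p.res J)) : leD D.D (glue J q p) p := by
  intro b c hb
  by_cases hbJ : b ∈ J
  · obtain ⟨c', hc', hm⟩ := h b c (by rw [res_on hbJ]; exact hb)
    refine ⟨c', by rw [glue_on hbJ]; exact hc', ?_⟩
    rw [res_congr (Z := Iio b) (q := q) fun x hx => glue_on (hJ (le_of_lt hx) hbJ)]
    exact hm
  · exact ⟨c, by rw [glue_off hbJ]; exact hb, D.refl _ _ _⟩

theorem leD_iff {D D' : Dat K Λ} {J : Set K} (hJ : IsLowerSet J)
    (hD : ∀ b ∈ J, D.D b = D'.D b) (p q : PF K Λ) :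
    leD D.D (q.res J) (p.res J) ↔ leD D'.D (q.res J) (p.res J) := by
  constructor
  · intro h b c hb
    obtain ⟨c', hc', hm⟩ := h b c hb
    refine ⟨c', hc', ?_⟩
    rw [← hD b (res_some hb).1]; exact hm
  · intro h b c hb
    obtain ⟨c', hc', hm⟩ := h b c hb
    refine ⟨c', hc', ?_⟩
    rw [hD b (res_some hb).1]; exact hm

/-- the identity between the two forcings -/
def eqB (D D' : Dat K Λ) : PD D ≃ PD D' := Equiv.refl (PF K Λ)

/-- the restriction -/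
noncomputable def rB (D : Dat K Λ) (J : Set K) : PD D → PD D := fun p => PF.res p J

theorem cmpB {D D' : Dat K Λ} {J : Set K} (hJ : IsLowerSet J)
    (hD : ∀ b ∈ J, D.D b = D'.D b) : Cmp (PD D) (PD D') (eqB D D') (rB D J) (rB D' J) where
  idem p := res_res_self p J
  comm p := rfl
  le p := leD_res D p J
  le' p := leD_res D' p J
  mono p q h := leD_mono D hJ h
  mono' p q h := leD_mono D' hJ h
  lift p q h := ⟨glue J q p, leD_lift D hJ h, res_congr fun _ hb => glue_on hb⟩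
  lift' p q h := ⟨glue J q p, leD_lift D' hJ h, res_congr fun _ hb => glue_on hb⟩
  iff p q := leD_iff hJ hD p q

variable {Θ : Type u}

/-- the identity between the two targets -/
def eqT (Θ : Type u) (D D' : Dat K Λ) : AF K Θ × PD D ≃ AF K Θ × PD D' :=
  Equiv.refl (AF K Θ × PF K Λ)

/-- the restriction -/
noncomputable def rT (Θ : Type u) (D : Dat K Λ) (J : Set K) : AF K Θ × PD D → AF K Θ × PD D :=
  fun p => (p.1, PF.res p.2 J)

theorem cmpT {D D' : Dat K Λ} {J : Set K} (hJ : IsLowerSet J)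
    (hD : ∀ b ∈ J, D.D b = D'.D b) :
    Cmp (AF K Θ × PD D) (AF K Θ × PD D') (eqT Θ D D') (rT Θ D J) (rT Θ D' J) where
  idem p := Prod.ext rfl (res_res_self p.2 J)
  comm p := rfl
  le p := ⟨le_rfl, leD_res D p.2 J⟩
  le' p := ⟨le_rfl, leD_res D' p.2 J⟩
  mono p q h := ⟨h.1, leD_mono D hJ h.2⟩
  mono' p q h := ⟨h.1, leD_mono D' hJ h.2⟩
  lift p q h := ⟨(q.1, glue J q.2 p.2), ⟨h.1, leD_lift D hJ h.2⟩,
    Prod.ext rfl (res_congr fun _ hb => glue_on hb)⟩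
  lift' p q h := ⟨(q.1, glue J q.2 p.2), ⟨h.1, leD_lift D' hJ h.2⟩,
    Prod.ext rfl (res_congr fun _ hb => glue_on hb)⟩
  iff p q := by
    constructor
    · intro h; exact ⟨h.1, (leD_iff hJ hD p.2 q.2).1 h.2⟩
    · intro h; exact ⟨h.1, (leD_iff hJ hD p.2 q.2).2 h.2⟩

/-- transport of elements -/
noncomputable def tB (D D' : Dat K Λ) : BB D → BB D' := trG (eqB D D')

/-- transport of elements of the target -/
noncomputable def tT (Θ : Type u) (D D' : Dat K Λ) : TT D Θ → TT D' Θ := trG (eqT Θ D D')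

theorem SZ_eq (D : Dat K Λ) (J : Set K) : SZ D J = Inv (rB D J) := rfl

theorem mem_TZ {D : Dat K Λ} {J : Set K} {U : TT D Θ} : U ∈ TZ D Θ J ↔ U ∈ Inv (rT Θ D J) := by
  constructor
  · intro h p; exact h p.1 p.2
  · intro h a p; exact h (a, p)

theorem SZ_mono {D : Dat K Λ} {Z J : Set K} (h : Z ⊆ J) : SZ D Z ⊆ SZ D J := by
  intro U hU p
  rw [hU p, hU (p.res J), res_res_sub _ h]

theorem TZ_mono {D : Dat K Λ} {Z J : Set K} (h : Z ⊆ J) : TZ D Θ Z ⊆ TZ D Θ J := by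
  intro U hU a p
  rw [hU a p, hU a (p.res J), res_res_sub _ h]

section

variable {D D' : Dat K Λ} {J : Set K} (hJ : IsLowerSet J) (hD : ∀ b ∈ J, D.D b = D'.D b)

include hJ hD

theorem mem_tB {U : BB D} (hU : U ∈ SZ D J) (p : PF K Λ) :
    (show PD D' from p) ∈ (tB D D' U).S ↔ (show PD D from p) ∈ U.S :=
  (cmpB hJ hD).mem_trG hU p

theorem mem_tT {U : TT D Θ} (hU : U ∈ TZ D Θ J) (p : AF K Θ × PF K Λ) :
    (show AF K Θ × PD D' from p) ∈ (tT Θ D D' U).S ↔ (show AF K Θ × PD D from p) ∈ U.S :=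
  (cmpT hJ hD).mem_trG (mem_TZ.1 hU) p

theorem tB_S {U : BB D} (hU : U ∈ SZ D J) : ((tB D D' U).S : Set (PF K Λ)) = U.S :=
  Set.ext fun p => mem_tB hJ hD hU p

theorem tT_S {U : TT D Θ} (hU : U ∈ TZ D Θ J) :
    ((tT Θ D D' U).S : Set (AF K Θ × PF K Λ)) = U.S :=
  Set.ext fun p => mem_tT hJ hD hU p

theorem tB_SZ {Z : Set K} (hZ : Z ⊆ J) {U : BB D} (hU : U ∈ SZ D Z) : tB D D' U ∈ SZ D' Z := by
  intro p
  have h1 := SZ_mono hZ hU
  rw [show p ∈ (tB D D' U).S ↔ _ from mem_tB hJ hD h1 p,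
    show p.res Z ∈ (tB D D' U).S ↔ _ from mem_tB hJ hD h1 (p.res Z)]
  exact hU p

theorem tT_TZ {Z : Set K} (hZ : Z ⊆ J) {U : TT D Θ} (hU : U ∈ TZ D Θ Z) :
    tT Θ D D' U ∈ TZ D' Θ Z := by
  intro a p
  have h1 := TZ_mono hZ hU
  rw [show (a, p) ∈ (tT Θ D D' U).S ↔ _ from mem_tT hJ hD h1 (a, p),
    show (a, p.res Z) ∈ (tT Θ D D' U).S ↔ _ from mem_tT hJ hD h1 (a, p.res Z)]
  exact hU a p

theorem tB_tB {U : BB D} (hU : U ∈ SZ D J) : tB D' D (tB D D' U) = U :=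
  (cmpB hJ hD).trG_trG hU

theorem tT_tT {U : TT D Θ} (hU : U ∈ TZ D Θ J) : tT Θ D' D (tT Θ D D' U) = U :=
  (cmpT hJ hD).trG_trG (mem_TZ.1 hU)

theorem tB_le {U V : BB D} (hU : U ∈ SZ D J) (hV : V ∈ SZ D J) :
    tB D D' U ≤ tB D D' V ↔ U ≤ V := (cmpB hJ hD).trG_le hU hV

theorem tT_le {U V : TT D Θ} (hU : U ∈ TZ D Θ J) (hV : V ∈ TZ D Θ J) :
    tT Θ D D' U ≤ tT Θ D D' V ↔ U ≤ V := (cmpT hJ hD).trG_le (mem_TZ.1 hU) (mem_TZ.1 hV)

theorem tB_inj {U V : BB D} (hU : U ∈ SZ D J) (hV : V ∈ SZ D J) (h : tB D D' U = tB D D' V) :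
    U = V := (cmpB hJ hD).trG_inj hU hV h

theorem tB_top : tB D D' ⊤ = ⊤ := (cmpB hJ hD).trG_top
theorem tB_bot : tB D D' ⊥ = ⊥ := (cmpB hJ hD).trG_bot
theorem tT_top : tT Θ D D' ⊤ = ⊤ := (cmpT hJ hD).trG_top
theorem tT_bot : tT Θ D D' ⊥ = ⊥ := (cmpT hJ hD).trG_bot

theorem tB_compl {U : BB D} (hU : U ∈ SZ D J) : tB D D' Uᶜ = (tB D D' U)ᶜ :=
  (cmpB hJ hD).trG_compl hU

theorem tT_compl {U : TT D Θ} (hU : U ∈ TZ D Θ J) : tT Θ D D' Uᶜ = (tT Θ D D' U)ᶜ :=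
  (cmpT hJ hD).trG_compl (mem_TZ.1 hU)

theorem tB_inf {U V : BB D} (hU : U ∈ SZ D J) (hV : V ∈ SZ D J) :
    tB D D' (U ⊓ V) = tB D D' U ⊓ tB D D' V := (cmpB hJ hD).trG_inf hU hV

theorem tT_inf {U V : TT D Θ} (hU : U ∈ TZ D Θ J) (hV : V ∈ TZ D Θ J) :
    tT Θ D D' (U ⊓ V) = tT Θ D D' U ⊓ tT Θ D D' V :=
  (cmpT hJ hD).trG_inf (mem_TZ.1 hU) (mem_TZ.1 hV)

theorem tB_iInf {ι : Sort*} {U : ι → BB D} (hU : ∀ i, U i ∈ SZ D J) :
    tB D D' (⨅ i, U i) = ⨅ i, tB D D' (U i) := (cmpB hJ hD).trG_iInf hU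

theorem tT_iInf {ι : Sort*} {U : ι → TT D Θ} (hU : ∀ i, U i ∈ TZ D Θ J) :
    tT Θ D D' (⨅ i, U i) = ⨅ i, tT Θ D D' (U i) :=
  (cmpT hJ hD).trG_iInf fun i => mem_TZ.1 (hU i)

theorem tB_iSup {ι : Sort*} {U : ι → BB D} (hU : ∀ i, U i ∈ SZ D J) :
    tB D D' (⨆ i, U i) = ⨆ i, tB D D' (U i) := (cmpB hJ hD).trG_iSup hU

theorem tT_iSup {ι : Sort*} {U : ι → TT D Θ} (hU : ∀ i, U i ∈ TZ D Θ J) :
    tT Θ D D' (⨆ i, U i) = ⨆ i, tT Θ D D' (U i) :=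
  (cmpT hJ hD).trG_iSup fun i => mem_TZ.1 (hU i)

theorem tB_himp {U V : BB D} (hU : U ∈ SZ D J) (hV : V ∈ SZ D J) :
    tB D D' (U ⇨ V) = tB D D' U ⇨ tB D D' V := (cmpB hJ hD).trG_himp hU hV

end

section

variable {D : Dat K Λ} {J : Set K} (hJ : IsLowerSet J)

theorem SZ_top : (⊤ : BB D) ∈ SZ D J := Cmp.inv_top (r := rB D J)
theorem SZ_bot : (⊥ : BB D) ∈ SZ D J := Cmp.inv_bot (r := rB D J)
theorem TZ_top : (⊤ : TT D Θ) ∈ TZ D Θ J := mem_TZ.2 Cmp.inv_top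
theorem TZ_bot : (⊥ : TT D Θ) ∈ TZ D Θ J := mem_TZ.2 Cmp.inv_bot

theorem SZ_inf {U V : BB D} (hU : U ∈ SZ D J) (hV : V ∈ SZ D J) : U ⊓ V ∈ SZ D J :=
  Cmp.inv_inf (r := rB D J) hU hV
theorem SZ_iInf {ι : Sort*} {U : ι → BB D} (hU : ∀ i, U i ∈ SZ D J) : ⨅ i, U i ∈ SZ D J :=
  Cmp.inv_iInf (r := rB D J) hU
theorem TZ_inf {U V : TT D Θ} (hU : U ∈ TZ D Θ J) (hV : V ∈ TZ D Θ J) : U ⊓ V ∈ TZ D Θ J :=
  mem_TZ.2 (Cmp.inv_inf (mem_TZ.1 hU) (mem_TZ.1 hV))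
theorem TZ_iInf {ι : Sort*} {U : ι → TT D Θ} (hU : ∀ i, U i ∈ TZ D Θ J) : ⨅ i, U i ∈ TZ D Θ J :=
  mem_TZ.2 (Cmp.inv_iInf fun i => mem_TZ.1 (hU i))

include hJ

theorem SZ_compl {U : BB D} (hU : U ∈ SZ D J) : Uᶜ ∈ SZ D J :=
  (cmpB (D := D) (D' := D) hJ fun _ _ => rfl).inv_compl hU
theorem SZ_iSup {ι : Sort*} {U : ι → BB D} (hU : ∀ i, U i ∈ SZ D J) : ⨆ i, U i ∈ SZ D J :=
  (cmpB (D := D) (D' := D) hJ fun _ _ => rfl).inv_iSup hU
theorem SZ_himp {U V : BB D} (hU : U ∈ SZ D J) (hV : V ∈ SZ D J) : U ⇨ V ∈ SZ D J :=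
  (cmpB (D := D) (D' := D) hJ fun _ _ => rfl).inv_himp hU hV
theorem TZ_compl {U : TT D Θ} (hU : U ∈ TZ D Θ J) : Uᶜ ∈ TZ D Θ J :=
  mem_TZ.2 ((cmpT (D := D) (D' := D) hJ fun _ _ => rfl).inv_compl (mem_TZ.1 hU))
theorem TZ_iSup {ι : Sort*} {U : ι → TT D Θ} (hU : ∀ i, U i ∈ TZ D Θ J) : ⨆ i, U i ∈ TZ D Θ J :=
  mem_TZ.2 ((cmpT (D := D) (D' := D) hJ fun _ _ => rfl).inv_iSup fun i => mem_TZ.1 (hU i))

theorem ee_mem {p : PF K Λ} (hp : p.res J = p) : ee D p ∈ SZ D J :=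
  (cmpB (D := D) (D' := D) hJ fun _ _ => rfl).inv_pt (p := p) hp

end

section

variable {D D' : Dat K Λ} {J : Set K} (hJ : IsLowerSet J) (hD : ∀ b ∈ J, D.D b = D'.D b)

include hJ hD

theorem tB_ee {p : PF K Λ} (hp : p.res J = p) : tB D D' (ee D p) = ee D' p :=
  (cmpB hJ hD).trG_pt (p := p) hp

omit hJ hD in
theorem sng_res {b : K} (hb : b ∈ J) (c : Λ) : (PF.sng b c).res J = PF.sng b c := by
  ext x : 2
  by_cases hx : x ∈ J
  · rw [res_on hx]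
  · rw [res_off hx]
    have : x ≠ b := fun h => hx (h ▸ hb)
    simp [PF.sng, PF.upd, this, PF.nil]

theorem tB_eb {b : K} (hb : b ∈ J) (c : Λ) : tB D D' (eb D b c) = eb D' b c :=
  tB_ee hJ hD (sng_res hb c)

omit hD in
theorem eb_mem {b : K} (hb : b ∈ J) (c : Λ) : eb D b c ∈ SZ D J := ee_mem hJ (sng_res hb c)

omit hD in
theorem dv_mem {b : K} (hb : b ∈ J) (c' c : Λ) : dv D b c' c ∈ SZ D J := by
  intro p
  change p ∈ D.D b c' c ↔ p.res J ∈ D.D b c' c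
  rw [D.cyl b c' c p, D.cyl b c' c (p.res J),
    res_res_sub _ (show Iio b ⊆ J from fun x hx => hJ (le_of_lt hx) hb)]

theorem tB_dv {b : K} (hb : b ∈ J) (c' c : Λ) : tB D D' (dv D b c' c) = dv D' b c' c := by
  ext p
  rw [mem_tB hJ hD (dv_mem hJ hb c' c) p]
  change p ∈ D.D b c' c ↔ p ∈ D'.D b c' c
  rw [hD b hb]

omit hJ hD in
theorem iB_mem {Z : Set K} {U : BB D} (hU : U ∈ SZ D Z) : iB D Θ U ∈ TZ D Θ Z := by
  intro a p
  exact hU p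

theorem tT_iB {U : BB D} (hU : U ∈ SZ D J) : tT Θ D D' (iB D Θ U) = iB D' Θ (tB D D' U) := by
  ext p
  rw [mem_tT hJ hD (iB_mem hU) p]
  exact (mem_tB hJ hD hU p.2).symm

omit hJ hD in
theorem nil_res (J : Set K) : (PF.nil : PF K Λ).res J = PF.nil := by
  ext x : 2
  by_cases hx : x ∈ J
  · rw [res_on hx]
  · rw [res_off hx]; rfl

omit hD in
theorem iA_mem (a : AF K Θ) : iA D a ∈ TZ D Θ J :=
  mem_TZ.2 ((cmpT (D := D) (D' := D) hJ fun _ _ => rfl).inv_pt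
    (p := (a, PF.nil)) (Prod.ext rfl (nil_res J)))

theorem tT_iA (a : AF K Θ) : tT Θ D D' (iA D a) = iA D' a :=
  (cmpT hJ hD).trG_pt (p := (a, PF.nil)) (Prod.ext rfl (nil_res J))

end

end Agr

end CI
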