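import Pool.Agent.CI.C.AgrD

/-!
# Project CI, core: transport between systems which agree on a lower set
-/

set_option autoImplicit false
set_option linter.unusedSectionVars false
set_option linter.unusedVariables false

open Set Cardinal Pool.Agent.CL

namespace CI

namespace Agr

universe u

variable {K Λ L : Type u} [LinearOrder K] [LinearOrder L]

/-- two systems agree on the lower set `J` -/
structure AgrOn (S S' : Sys K Λ L) (J : Set K) : Prop where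
  low : IsLowerSet J
  D : ∀ b ∈ J, S.D.D b = S'.D.D b
  kd : ∀ b ∈ J, S.kd b = S'.kd b
  lay : ∀ b ∈ J, S.lay b = S'.lay b
  W : ∀ b ∈ J, ∀ U ∈ SZ S.D J, U ∈ S.W b ↔ tB S.D S'.D U ∈ S'.W b
  cSt : ∀ b ∈ J, ∀ c, (S.cS b c).t = (S'.cS b c).t
  cSN : ∀ b ∈ J, ∀ c, (S.cS b c).N = (S'.cS b c).N
  cSf : ∀ b ∈ J, ∀ c k j, tB S.D S'.D ((S.cS b c).f k j) = (S'.cS b c).f k j
  cRt : ∀ b ∈ J, ∀ c n a, tB S.D S'.D ((S.cR b c).τ n a) = (S'.cR b c).τ n a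
  cRq : ∀ b ∈ J, ∀ c, (S.cR b c).q = (S'.cR b c).q

variable {S S' : Sys K Λ L} {J : Set K}

/-- memories are cylinders -/
theorem W_SZ (S : Sys K Λ L) {J : Set K} (hJ : IsLowerSet J) {b : K} (hb : b ∈ J) :
    S.W b ⊆ SZ S.D J := by
  intro U hU
  exact SZ_mono (fun x hx => hJ (le_of_lt hx.1) hb) (S.sub b hU)

namespace AgrOn

theorem symm (A : AgrOn S S' J) : AgrOn S' S J where
  low := A.low
  D b hb := (A.D b hb).symm
  kd b hb := (A.kd b hb).symm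
  lay b hb := (A.lay b hb).symm
  W b hb U hU := by
    have h1 : tB S'.D S.D U ∈ SZ S.D J :=
      tB_SZ A.low (fun b hb => (A.D b hb).symm) subset_rfl hU
    rw [A.W b hb _ h1, tB_tB A.low (fun b hb => (A.D b hb).symm) hU]
  cSt b hb c := (A.cSt b hb c).symm
  cSN b hb c := (A.cSN b hb c).symm
  cSf b hb c k j := by
    rw [← A.cSf b hb c k j, tB_tB A.low A.D (W_SZ S A.low hb ((S.cS b c).mem k j))]
  cRt b hb c n a := by
    rw [← A.cRt b hb c n a, tB_tB A.low A.D (W_SZ S A.low hb ((S.cR b c).mem n a))]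
  cRq b hb c := (A.cRq b hb c).symm

theorem mono {I : Set K} (A : AgrOn S S' J) (hI : I ⊆ J) (hl : IsLowerSet I) :
    AgrOn S S' I where
  low := hl
  D b hb := A.D b (hI hb)
  kd b hb := A.kd b (hI hb)
  lay b hb := A.lay b (hI hb)
  W b hb U hU := A.W b (hI hb) U (SZ_mono hI hU)
  cSt b hb c := A.cSt b (hI hb) c
  cSN b hb c := A.cSN b (hI hb) c
  cSf b hb c k j := A.cSf b (hI hb) c k j
  cRt b hb c n a := A.cRt b (hI hb) c n a
  cRq b hb c := A.cRq b (hI hb) c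

theorem Zl (A : AgrOn S S' J) {I : Set K} (hI : I ⊆ J) (x : L) : I ∩ S.Zl x = I ∩ S'.Zl x := by
  ext b
  simp only [mem_inter_iff, Sys.Zl, mem_ofPred_eq]
  constructor
  · rintro ⟨h1, h2⟩; exact ⟨h1, by rw [← A.lay b (hI h1)]; exact h2⟩
  · rintro ⟨h1, h2⟩; exact ⟨h1, by rw [A.lay b (hI h1)]; exact h2⟩

theorem st (A : AgrOn S S' J) {b : K} (hb : b ∈ J) (c : Λ) : S.st b c = S'.st b c :=
  A.cSt b hb c

/-! ### counting -/

theorem fin_inf {D D' : Dat K Λ} (hJ : IsLowerSet J) (hD : ∀ b ∈ J, D.D b = D'.D b)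
    {α : Type} (C : Finset α) (x : α → BB D) (hx : ∀ a ∈ C, x a ∈ SZ D J) :
    C.inf x ∈ SZ D J ∧ tB D D' (C.inf x) = C.inf (fun a => tB D D' (x a)) := by
  classical
  induction C using Finset.induction_on with
  | empty => exact ⟨SZ_top, by simp [tB_top hJ hD]⟩
  | insert a s ha ih =>
    obtain ⟨h1, h2⟩ := ih fun b hb => hx b (Finset.mem_insert_of_mem hb)
    have h3 := hx a (Finset.mem_insert_self _ _)
    rw [Finset.inf_insert, Finset.inf_insert]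
    exact ⟨SZ_inf h3 h1, by rw [tB_inf hJ hD h3 h1, h2]⟩

theorem cntGe_tr {D D' : Dat K Λ} (hJ : IsLowerSet J) (hD : ∀ b ∈ J, D.D b = D'.D b)
    {α : Type} (A : Finset α) (x : α → BB D) (hx : ∀ a ∈ A, x a ∈ SZ D J) (s r : ℕ) :
    cntGe A x s r ∈ SZ D J ∧
      tB D D' (cntGe A x s r) = cntGe A (fun a => tB D D' (x a)) s r := by
  have h : ∀ (C : Finset α) (hC : C ⊆ A ∧ r ≤ C.card * s), C.inf x ∈ SZ D J :=
    fun C hC => (fin_inf hJ hD C x fun a ha => hx a (hC.1 ha)).1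
  refine ⟨SZ_iSup hJ fun C => SZ_iSup hJ fun hC => h C hC, ?_⟩
  rw [cntGe, tB_iSup hJ hD fun C => SZ_iSup hJ fun hC => h C hC, cntGe]
  refine iSup_congr fun C => ?_
  rw [tB_iSup hJ hD fun hC => h C hC]
  refine iSup_congr fun hC => ?_
  exact (fin_inf hJ hD C x fun a ha => hx a (hC.1 ha)).2

theorem mGe_tr {D D' : Dat K Λ} (hJ : IsLowerSet J) (hD : ∀ b ∈ J, D.D b = D'.D b)
    (U : ℕ → Finset ℕ → BB D) (hU : ∀ n a, U n a ∈ SZ D J) (s r : ℕ) :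
    mGe U s r ∈ SZ D J ∧ tB D D' (mGe U s r) = mGe (fun n a => tB D D' (U n a)) s r := by
  have h := fun n => cntGe_tr hJ hD (Finset.range n).powerset (U n) (fun a _ => hU n a) s
    (r * 2 ^ n)
  refine ⟨SZ_iInf fun n => (h n).1, ?_⟩
  rw [mGe, tB_iInf hJ hD fun n => (h n).1, mGe]
  exact iInf_congr fun n => (h n).2

theorem mGt_tr {D D' : Dat K Λ} (hJ : IsLowerSet J) (hD : ∀ b ∈ J, D.D b = D'.D b)
    (U : ℕ → Finset ℕ → BB D) (hU : ∀ n a, U n a ∈ SZ D J) (k : ℕ) :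
    mGt U k ∈ SZ D J ∧ tB D D' (mGt U k) = mGt (fun n a => tB D D' (U n a)) k := by
  have h := fun j => mGe_tr hJ hD U hU ((k + 1) * (j + 1)) (k * (j + 1) + 1)
  refine ⟨SZ_iSup hJ fun n => (h n).1, ?_⟩
  rw [mGt, tB_iSup hJ hD fun n => (h n).1, mGt]
  exact iSup_congr fun n => (h n).2

theorem nul_tr (A : AgrOn S S' J) {b : K} (hb : b ∈ J) (ρ σ : Λ) :
    (S.cR b ρ).nul (S.cR b σ) ∈ SZ S.D J ∧
      tB S.D S'.D ((S.cR b ρ).nul (S.cR b σ)) = (S'.cR b ρ).nul (S'.cR b σ) := by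
  have h1 : ∀ c n a, (S.cR b c).τ n a ∈ SZ S.D J := fun c n a =>
    W_SZ S A.low hb ((S.cR b c).mem n a)
  have h2 := mGt_tr A.low A.D (fun n a => (S.cR b ρ).τ n a ⊓ (S.cR b σ).τ n a)
    (fun n a => SZ_inf (h1 ρ n a) (h1 σ n a)) 0
  refine ⟨SZ_compl A.low h2.1, ?_⟩
  rw [CndR.nul, tB_compl A.low A.D h2.1, h2.2, CndR.nul]
  congr 2
  funext n a
  rw [tB_inf A.low A.D (h1 ρ n a) (h1 σ n a), A.cRt b hb, A.cRt b hb]

/-! ### generic objects -/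

theorem gen_tr (A : AgrOn S S' J) {b : K} (hb : b ∈ J) (k v : ℕ) :
    S.gen b k v ∈ SZ S.D J ∧ tB S.D S'.D (S.gen b k v) = S'.gen b k v := by
  have h : ∀ c, eb S.D b c ∈ SZ S.D J := fun c => eb_mem A.low hb c
  refine ⟨SZ_iSup A.low fun c => SZ_iSup A.low fun _ => h c, ?_⟩
  rw [Sys.gen, tB_iSup A.low A.D fun c => SZ_iSup A.low fun _ => h c, Sys.gen]
  refine iSup_congr fun c => ?_
  rw [tB_iSup A.low A.D fun _ => h c, A.st hb c]
  exact iSup_congr fun _ => tB_eb A.low A.D hb c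

theorem est_tr (A : AgrOn S S' J) {b : K} (hb : b ∈ J) (t : List ℕ) :
    S.est b t ∈ SZ S.D J ∧ tB S.D S'.D (S.est b t) = S'.est b t := by
  have h := fun k v => A.gen_tr hb k v
  refine ⟨SZ_iInf fun k => SZ_iInf fun _ => (h _ _).1, ?_⟩
  rw [Sys.est, tB_iInf A.low A.D fun k => SZ_iInf fun _ => (h _ _).1, Sys.est]
  refine iInf_congr fun k => ?_
  rw [tB_iInf A.low A.D fun _ => (h _ _).1]
  exact iInf_congr fun _ => (h _ _).2

theorem eqv (A : AgrOn S S' J) {b : K} (hb : b ∈ J) (c c' : Λ) :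
    S.Eqv b c c' ↔ S'.Eqv b c c' := by
  have key : ∀ c c' : Λ, dv S.D b c c' = ⊤ ↔ dv S'.D b c c' = ⊤ := by
    intro c c'
    rw [← tB_dv A.low A.D hb c c']
    constructor
    · intro h; rw [h, tB_top A.low A.D]
    · intro h
      exact tB_inj A.low A.D (dv_mem A.low hb c c') SZ_top (by rw [h, tB_top A.low A.D])
  simp only [Sys.Eqv, key]

variable {Θ : Type u}

theorem fol (A : AgrOn S S' J) (rd : Θ → ℕ → Λ) (rt : Θ → List ℕ) (d : ℕ → PF K Λ)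
    (hd : ∀ l, (d l).dom ⊆ J) (a : AF K Θ) (h : S'.Fol rd rt d a) : S.Fol rd rt d a := by
  intro l b c hb
  have hbJ : b ∈ J := hd l (show (d l).f b ≠ none by rw [hb]; simp)
  obtain ⟨θ, h1, h2, h3⟩ := h l b c hb
  refine ⟨θ, h1, ?_, ?_⟩
  · intro hk
    rw [A.eqv hbJ]
    exact h2 (by rw [← A.kd b hbJ]; exact hk)
  · intro hk
    rw [A.st hbJ]
    exact h3 (by rw [← A.kd b hbJ]; exact hk)

/-- the transported homomorphism -/
noncomputable def tφ (Θ : Type u) (S S' : Sys K Λ L) (φ : (ℕ → BB S.D) → TT S.D Θ) :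
    (ℕ → BB S'.D) → TT S'.D Θ :=
  fun z => tT Θ S.D S'.D (φ fun l => tB S'.D S.D (z l))

theorem tφ_tB (A : AgrOn S S' J) (φ : (ℕ → BB S.D) → TT S.D Θ) (z : ℕ → BB S.D)
    (hz : ∀ l, z l ∈ SZ S.D J) :
    tφ Θ S S' φ (fun l => tB S.D S'.D (z l)) = tT Θ S.D S'.D (φ z) := by
  simp only [tφ]
  congr 2
  funext l
  exact tB_tB A.low A.D (hz l)

theorem pe (A : AgrOn S S' J) {b : K} (hb : b ∈ J) (t : List ℕ) (g : ℕ → ℕ → ℕ → BB S'.D)
    (y : ℕ → BB S'.D) (hg : ∀ l k v, g l k v ∈ SZ S'.D J) (hy : ∀ l, y l ∈ SZ S'.D J)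
    (h : S'.PE b t g y) :
    S.PE b t (fun l k v => tB S'.D S.D (g l k v)) (fun l => tB S'.D S.D (y l)) := by
  have hDs : ∀ b ∈ J, S'.D.D b = S.D.D b := fun b hb => (A.D b hb).symm
  have hsub : Iio b ⊆ J := fun x hx => A.low (le_of_lt hx) hb
  intro l v hv hv0 c hc hle
  have hvJ : v ∈ SZ S.D J := SZ_mono hsub hv
  have h1 : tB S.D S'.D v ∈ SZ S'.D (Iio b) := tB_SZ A.low A.D hsub hv
  have h1J := SZ_mono hsub h1
  have h2 : tB S.D S'.D v ≠ ⊥ := by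
    intro h0
    apply hv0
    refine tB_inj A.low A.D hvJ SZ_bot ?_
    rw [h0, tB_bot A.low A.D]
  obtain ⟨v', hv', hv'0, hv'v, c', hc', hc1, hc2⟩ := h l _ h1 h2 c (by rw [← A.st hb]; exact hc) (by
    intro k hk1 hk2
    rw [← A.st hb] at hk2 ⊢
    have h3 := hle k hk1 hk2
    have h4 : tB S'.D S.D (g l k (at' (S.st b c) k)) ∈ SZ S.D J :=
      tB_SZ A.low hDs subset_rfl (hg _ _ _)
    rw [← tB_le A.low A.D hvJ h4, tB_tB A.low hDs (hg _ _ _)] at h3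
    exact h3)
  have hv'J : v' ∈ SZ S'.D J := SZ_mono hsub hv'
  refine ⟨tB S'.D S.D v', tB_SZ A.low hDs hsub hv', ?_, ?_, c', ?_, ?_, ?_⟩
  · intro h0
    apply hv'0
    refine tB_inj A.low hDs hv'J SZ_bot ?_
    rw [h0, tB_bot A.low hDs]
  · have := (tB_le A.low hDs hv'J h1J).2 hv'v
    rwa [tB_tB A.low A.D hvJ] at this
  · rw [A.st hb, A.st hb]; exact hc'
  · have := (tB_le A.low hDs hv'J (dv_mem A.low hb c' c)).2 hc1
    rwa [tB_dv A.low hDs hb] at this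
  · have h5 := eb_mem (D := S'.D) A.low hb c'
    have := (tB_le A.low hDs (SZ_inf hv'J h5) (hy l)).2 hc2
    rwa [tB_inf A.low hDs hv'J h5, tB_eb A.low hDs hb] at this

theorem qq_tr (A : AgrOn S S' J) {b : K} (hb : b ∈ J) (t : List ℕ) (g : ℕ → ℕ → ℕ → BB S'.D)
    (φ : (ℕ → BB S.D) → TT S.D Θ)
    (hφ : ∀ k v, (φ fun l => tB S'.D S.D (g l k v)) ∈ TZ S.D Θ J) :
    S.qq b t (fun l k v => tB S'.D S.D (g l k v)) φ ∈ TZ S.D Θ J ∧
    tT Θ S.D S'.D (S.qq b t (fun l k v => tB S'.D S.D (g l k v)) φ) =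
      S'.qq b t g (tφ Θ S S' φ) := by
  have h1 := fun k v => A.gen_tr hb k v
  have h2 := A.est_tr hb t
  have h3 : ∀ k v, iB S.D Θ (S.gen b k v) ⊓ (φ fun l => tB S'.D S.D (g l k v)) ∈ TZ S.D Θ J :=
    fun k v => TZ_inf (iB_mem (h1 k v).1) (hφ k v)
  have h4 : ∀ k, (⨆ v : ℕ, iB S.D Θ (S.gen b k v) ⊓ φ fun l => tB S'.D S.D (g l k v)) ∈
      TZ S.D Θ J := fun k => TZ_iSup A.low fun v => h3 k v
  have h5 : (⨅ k : ℕ, ⨅ _ : t.length ≤ k,
      ⨆ v : ℕ, iB S.D Θ (S.gen b k v) ⊓ φ fun l => tB S'.D S.D (g l k v)) ∈ TZ S.D Θ J :=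
    TZ_iInf fun k => TZ_iInf fun _ => h4 k
  refine ⟨TZ_inf (iB_mem h2.1) h5, ?_⟩
  rw [Sys.qq, tT_inf A.low A.D (iB_mem h2.1) h5, tT_iB A.low A.D h2.1, h2.2,
    tT_iInf A.low A.D fun k => TZ_iInf fun _ => h4 k, Sys.qq]
  congr 1
  refine iInf_congr fun k => ?_
  rw [tT_iInf A.low A.D fun _ => h4 k]
  refine iInf_congr fun _ => ?_
  rw [tT_iSup A.low A.D fun v => h3 k v]
  refine iSup_congr fun v => ?_
  rw [tT_inf A.low A.D (iB_mem (h1 k v).1) (hφ k v), tT_iB A.low A.D (h1 k v).1, (h1 k v).2]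
  rfl

theorem qr_tr (A : AgrOn S S' J) {b : K} (hb : b ∈ J) (σ : ℕ → Λ)
    (φ : (ℕ → BB S.D) → TT S.D Θ)
    (hφ : ∀ ρ, (φ fun l => (S.cR b ρ).nul (S.cR b (σ l))) ∈ TZ S.D Θ J) :
    S.qr b σ φ ∈ TZ S.D Θ J ∧
    tT Θ S.D S'.D (S.qr b σ φ) = S'.qr b σ (tφ Θ S S' φ) := by
  have h1 : ∀ ρ, iB S.D Θ (eb S.D b ρ) ∈ TZ S.D Θ J := fun ρ => iB_mem (eb_mem A.low hb ρ)
  have h3 : ∀ ρ, (φ fun l => (S.cR b ρ).nul (S.cR b (σ l))) ⊓ iB S.D Θ (eb S.D b ρ) ∈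
      TZ S.D Θ J := fun ρ => TZ_inf (hφ ρ) (h1 ρ)
  refine ⟨TZ_compl A.low (TZ_iSup A.low h3), ?_⟩
  rw [Sys.qr, tT_compl A.low A.D (TZ_iSup A.low h3), tT_iSup A.low A.D h3, Sys.qr]
  congr 1
  refine iSup_congr fun ρ => ?_
  rw [tT_inf A.low A.D (hφ ρ) (h1 ρ), tT_iB A.low A.D (eb_mem A.low hb ρ),
    tB_eb A.low A.D hb]
  congr 1
  rw [← A.tφ_tB φ _ fun l => (A.nul_tr hb ρ (σ l)).1]
  congr 1
  funext l
  exact (A.nul_tr hb ρ (σ l)).2

/-- transport of good homomorphisms -/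
theorem good (A : AgrOn S S' J) {rd : Θ → ℕ → Λ} {rt : Θ → List ℕ}
    {φ : (ℕ → BB S.D) → TT S.D Θ} (hφ : ∀ z : ℕ → BB S.D, (∀ l, z l ∈ SZ S.D J) →
      φ z ∈ TZ S.D Θ J) (h : S.Good rd rt J φ) :
    S'.Good rd rt J (tφ Θ S S' φ) := by
  have hDs : ∀ b ∈ J, S'.D.D b = S.D.D b := fun b hb => (A.D b hb).symm
  have hin : ∀ z : ℕ → BB S'.D, (∀ l, z l ∈ SZ S'.D J) → ∀ l, tB S'.D S.D (z l) ∈ SZ S.D J :=
    fun z hz l => tB_SZ A.low hDs subset_rfl (hz l)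
  refine ⟨⟨?_, ?_⟩, ?_, ?_, ?_, ?_, ?_, ?_⟩
  · intro z hz w hw
    simp only [tφ]
    have e : (fun l => tB S'.D S.D ((z ⊓ w) l)) =
        (fun l => tB S'.D S.D (z l)) ⊓ fun l => tB S'.D S.D (w l) := by
      funext l
      exact tB_inf A.low hDs (hz l) (hw l)
    rw [e, h.hom.inf _ (hin z hz) _ (hin w hw),
      tT_inf A.low A.D (hφ _ (hin z hz)) (hφ _ (hin w hw))]
  · intro z hz
    simp only [tφ]
    have e : (fun l => tB S'.D S.D (zᶜ l)) = (fun l => tB S'.D S.D (z l))ᶜ := by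
      funext l
      exact tB_compl A.low hDs (hz l)
    rw [e, h.hom.compl _ (hin z hz), tT_compl A.low A.D (hφ _ (hin z hz))]
  · intro J' hJ' hl x z hz
    have e := A.Zl hJ' x
    have h1 : ∀ l, tB S'.D S.D (z l) ∈ SZ S.D (J' ∩ S.Zl x) := by
      intro l
      rw [e]
      exact tB_SZ A.low hDs (inter_subset_left.trans hJ') (hz l)
    have h2 := h.layer J' hJ' hl x _ h1
    have h3 := tT_TZ (Θ := Θ) A.low A.D (inter_subset_left.trans hJ') h2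
    rw [e] at h3
    exact h3
  · intro U hU
    have h1 : tB S'.D S.D U ∈ SZ S.D J := tB_SZ A.low hDs subset_rfl hU
    simp only [tφ]
    rw [h.const _ h1, tT_iB A.low A.D h1, tB_tB A.low hDs hU]
  · intro n
    simp only [tφ]
    have e : (fun l => tB S'.D S.D (if l < n then ⊥ else ⊤)) = fun l => if l < n then ⊥ else ⊤ := by
      funext l
      split_ifs
      · exact tB_bot A.low hDs
      · exact tB_top A.low hDs
    rw [e, h.fin n, tT_top A.low A.D]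
  · intro b hb hk a θ k haθ hq
    have hsub : Iio b ∩ S.Zl (S.lay b) ⊆ J := fun x hx => A.low (le_of_lt hx.1) hb
    have h1 := A.qr_tr (Θ := Θ) hb (rd θ) φ fun ρ => hφ _ fun l => (A.nul_tr hb ρ (rd θ l)).1
    have h2 := h.r3 b hb (by rw [A.kd b hb]; exact hk) a θ k haθ (by
      intro l; rw [A.cRq b hb]; exact hq l)
    have h3 : ∀ l, eb S.D b (rd θ l) ∈ SZ S.D J := fun l => eb_mem A.low hb _
    have h4 := (tT_le A.low A.D (TZ_inf (iA_mem A.low a) h1.1) (hφ _ h3)).2 h2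
    rw [tT_inf A.low A.D (iA_mem A.low a) h1.1, tT_iA A.low A.D, h1.2, ← A.tφ_tB φ _ h3] at h4
    refine h4.trans (le_of_eq ?_)
    congr 1
    funext l
    exact tB_eb A.low A.D hb _
  · intro b hb hk t g y hg hy hpe
    have hgJ : ∀ l k v, g l k v ∈ SZ S'.D J := fun l k v => W_SZ S' A.low hb (hg l k v)
    have hsub : Iic b ∩ S'.Zl (S'.lay b) ⊆ J := fun x hx => A.low hx.1 hb
    have hyJ : ∀ l, y l ∈ SZ S'.D J := fun l => SZ_mono hsub (hy l)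
    have e : Iic b ∩ S.Zl (S.lay b) = Iic b ∩ S'.Zl (S'.lay b) := by
      rw [A.lay b hb]
      exact A.Zl (fun x hx => A.low hx hb) _
    have h1 := h.rq b hb (by rw [A.kd b hb]; exact hk) t (fun l k v => tB S'.D S.D (g l k v))
      (fun l => tB S'.D S.D (y l)) (by
        intro l k v
        have := (A.symm.W b hb _ (hgJ l k v)).1 (hg l k v)
        exact this) (by
        intro l
        rw [e]
        exact tB_SZ A.low hDs hsub (hy l)) (A.pe hb t g y hgJ hyJ hpe)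
    have h2 := A.qq_tr (Θ := Θ) hb t g φ fun k v => hφ _ fun l =>
      tB_SZ A.low hDs subset_rfl (hgJ l k v)
    have h3 := (tT_le A.low A.D h2.1 (hφ _ (hin y hyJ))).2 h1
    rw [h2.2] at h3
    exact h3
  · intro d a hd hdis hf
    have h1 := h.rt d a hd hdis (A.fol rd rt d hd a hf)
    have h2 : ∀ l, (d l).res J = d l := by
      intro l
      ext x : 2
      by_cases hx : x ∈ J
      · rw [res_on hx]
      · rw [res_off hx]
        by_contra hne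
        exact hx (hd l (show (d l).f x ≠ none from fun h0 => hne h0.symm))
    have h3 : ∀ l, ee S.D (d l) ∈ SZ S.D J := fun l => ee_mem A.low (h2 l)
    have h4 := (tT_le A.low A.D (iA_mem A.low a) (hφ _ h3)).2 h1
    rw [tT_iA A.low A.D, ← A.tφ_tB φ _ h3] at h4
    refine h4.trans (le_of_eq ?_)
    congr 1
    funext l
    exact tB_ee A.low A.D (h2 l)

/-- transport of closedness -/
theorem cld (A : AgrOn S S' J) {φ : (ℕ → BB S.D) → TT S.D Θ}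
    (hφ : ∀ z : ℕ → BB S.D, (∀ l, z l ∈ SZ S.D J) → φ z ∈ TZ S.D Θ J)
    {W : Set (BB S.D)} {W' : Set (BB S'.D)} (hW : W ⊆ SZ S.D J) (hW' : W' ⊆ SZ S'.D J)
    (hWW : ∀ U ∈ SZ S.D J, U ∈ W ↔ tB S.D S'.D U ∈ W') (h : S.Cld W φ) :
    S'.Cld W' (tφ Θ S S' φ) := by
  have hDs : ∀ b ∈ J, S'.D.D b = S.D.D b := fun b hb => (A.D b hb).symm
  intro z hz a
  have h0 : ∀ l, tB S'.D S.D (z l) ∈ SZ S.D J :=
    fun l => tB_SZ A.low hDs subset_rfl (hW' (hz l))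
  have h1 : ∀ l, tB S'.D S.D (z l) ∈ W := by
    intro l
    rw [hWW _ (h0 l), tB_tB A.low hDs (hW' (hz l))]
    exact hz l
  obtain ⟨a', ha', U, hU, he⟩ := h _ h1 a
  refine ⟨a', ha', tB S.D S'.D U, (hWW U (hW hU)).1 hU, ?_⟩
  have h2 : (φ fun l => tB S'.D S.D (z l)) ∈ TZ S.D Θ J := hφ _ h0
  have h3 := congrArg (tT Θ S.D S'.D) he
  rw [tT_inf A.low A.D (iA_mem A.low a') h2, tT_inf A.low A.D (iA_mem A.low a') (iB_mem (hW hU)),
    tT_iA A.low A.D, tT_iB A.low A.D (hW hU)] at h3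
  exact h3

theorem tφ_mem (A : AgrOn S S' J) {φ : (ℕ → BB S.D) → TT S.D Θ}
    (hφ : ∀ z : ℕ → BB S.D, (∀ l, z l ∈ SZ S.D J) → φ z ∈ TZ S.D Θ J)
    (z : ℕ → BB S'.D) (hz : ∀ l, z l ∈ SZ S'.D J) : tφ Θ S S' φ z ∈ TZ S'.D Θ J := by
  have hDs : ∀ b ∈ J, S'.D.D b = S.D.D b := fun b hb => (A.D b hb).symm
  exact tT_TZ A.low A.D subset_rfl (hφ _ fun l => tB_SZ A.low hDs subset_rfl (hz l))

end AgrOn

end Agr

end CI
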