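import Pool.Agent.CI.Core

/-!
# Project CI, core: subalgebras, homomorphisms on subalgebras, projections (definitions)
-/

set_option autoImplicit false

open Set Cardinal

namespace CI

universe u v

/-- `Y` is a subalgebra of the Boolean algebra `X` -/
structure IsSA {X : Type u} [BooleanAlgebra X] (Y : Set X) : Prop where
  top : ⊤ ∈ Y
  inf : ∀ a ∈ Y, ∀ b ∈ Y, a ⊓ b ∈ Y
  compl : ∀ a ∈ Y, aᶜ ∈ Y

/-- `φ` is a homomorphism on the subalgebra `Y` -/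
structure HomOn {X : Type u} {T : Type v} [BooleanAlgebra X] [BooleanAlgebra T]
    (Y : Set X) (φ : X → T) : Prop where
  inf : ∀ a ∈ Y, ∀ b ∈ Y, φ (a ⊓ b) = φ a ⊓ φ b
  compl : ∀ a ∈ Y, φ aᶜ = (φ a)ᶜ

/-- `Y` is a complete subalgebra -/
structure IsCS {B : Type u} [CompleteBooleanAlgebra B] (Y : Set B) : Prop where
  compl : ∀ a ∈ Y, aᶜ ∈ Y
  sSup : ∀ s : Set B, s ⊆ Y → sSup s ∈ Y

/-- `Y` is a `σ`-subalgebra -/
structure IsSS {B : Type u} [CompleteBooleanAlgebra B] (Y : Set B) : Prop where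
  compl : ∀ a ∈ Y, aᶜ ∈ Y
  iSup : ∀ f : ℕ → B, (∀ n, f n ∈ Y) → ⨆ n, f n ∈ Y
  bot : ⊥ ∈ Y

/-- `ρ` is the upper projection to `Y` -/
structure IsUP {X : Type u} [BooleanAlgebra X] (Y : Set X) (ρ : X → X) : Prop where
  mem : ∀ x, ρ x ∈ Y
  le : ∀ x, x ≤ ρ x
  least : ∀ x, ∀ y ∈ Y, x ≤ y → ρ x ≤ y

/-! ### Sikorski extension with lower bounds -/

/-- existence of homomorphisms with lower bounds; note that `(x, t)` and `(xᶜ, tᶜ)` in `R` force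
`ψ x = t`, so this contains the extension theorem of Sikorski -/
def SikStm : Prop :=
  ∀ (X : Type u) (T : Type u) [BooleanAlgebra X] [CompleteBooleanAlgebra T]
    (X1 : Set X) (T1 : Set T) (R : Set (X × T)),
    IsSA X1 → IsCS T1 → (∀ r ∈ R, r.1 ∈ X1 ∧ r.2 ∈ T1) →
    (∀ s : Finset (X × T), (s : Set (X × T)) ⊆ R → s.inf Prod.fst = ⊥ → s.inf Prod.snd = ⊥) →
    ∃ ψ : X → T, HomOn X1 ψ ∧ (∀ x ∈ X1, ψ x ∈ T1) ∧ ∀ r ∈ R, r.2 ≤ ψ r.1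

/-- what has been built below the layer `x` in the coherent extension -/
structure BelowOK {X : Type u} {T : Type u} [BooleanAlgebra X] [CompleteBooleanAlgebra T]
    {Λ : Type u} [LinearOrder Λ] (Xs : Λ → Set X) (Ts : Λ → Set T) (X0 : Set X) (φ : X → T)
    (R : Λ → Set (X × T)) (x : Λ) (ψ : X → T) : Prop where
  hom : ∀ y, y < x → HomOn (Xs y) ψ
  maps : ∀ y, y < x → ∀ u ∈ Xs y, ψ u ∈ Ts y
  agree : ∀ y, y < x → ∀ u ∈ X0 ∩ Xs y, ψ u = φ u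
  req : ∀ y, y < x → ∀ r ∈ R y, r.2 ≤ ψ r.1

/-- coherent Sikorski extension along a well-ordered chain of subalgebras -/
def CsrStm : Prop :=
  ∀ (X : Type u) (T : Type u) [BooleanAlgebra X] [CompleteBooleanAlgebra T]
    (Λ : Type u) [LinearOrder Λ] [WellFoundedLT Λ]
    (Xs : Λ → Set X) (Ts : Λ → Set T) (X0 : Set X) (φ : X → T) (R : Λ → Set (X × T)),
    (∀ x, IsSA (Xs x)) → Monotone Xs → (∀ x, IsCS (Ts x)) → Monotone Ts → IsSA X0 →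
    HomOn X0 φ → (∀ x, ∀ z ∈ X0 ∩ Xs x, φ z ∈ Ts x) →
    (∀ x, ∀ r ∈ R x, r.1 ∈ Xs x ∧ r.2 ∈ Ts x) →
    (∀ x (ψ : X → T), BelowOK Xs Ts X0 φ R x ψ →
      (∀ z ∈ X0 ∩ Xs x, ∀ s : Finset (X × T), (s : Set (X × T)) ⊆ R x →
        z ⊓ s.inf Prod.fst = ⊥ → φ z ⊓ s.inf Prod.snd = ⊥) ∧
      (∀ z ∈ X0 ∩ Xs x, ∀ y, y < x → ∀ u ∈ Xs y, ∀ s : Finset (X × T),
        (s : Set (X × T)) ⊆ R x →
        z ⊓ u ⊓ s.inf Prod.fst = ⊥ → φ z ⊓ ψ u ⊓ s.inf Prod.snd = ⊥)) →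
    ∃ ψ : X → T, (∀ x, HomOn (Xs x) ψ) ∧ (∀ x, ∀ u ∈ Xs x, ψ u ∈ Ts x) ∧
      (∀ x, ∀ u ∈ X0 ∩ Xs x, ψ u = φ u) ∧ ∀ x, ∀ r ∈ R x, r.2 ≤ ψ r.1

/-! ### Rasiowa-Sikorski -/

/-- an ultrafilter on `B` containing `b` and respecting the countably many suprema -/
def RSStm : Prop :=
  ∀ (B : Type u) [CompleteBooleanAlgebra B] (b : B) (x : ℕ → ℕ → B), b ≠ ⊥ →
    ∃ U : B → Prop, U b ∧ ¬ U ⊥ ∧ (∀ a c, U (a ⊓ c) ↔ U a ∧ U c) ∧ (∀ a, U aᶜ ↔ ¬ U a) ∧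
      ∀ k, U (⨆ n, x k n) ↔ ∃ n, U (x k n)

/-! ### Delta systems, cardinal arithmetic, closing off -/

/-- Delta-system lemma for finite sets -/
def DelFinStm : Prop :=
  ∀ (K I : Type u) (κ : Cardinal.{u}), κ.IsRegular → ℵ₀ < κ → κ ≤ #I →
    ∀ d : I → Finset K, ∃ (J : Set I) (R : Finset K), #J = κ ∧
      ∀ i ∈ J, ∀ j ∈ J, i ≠ j → (d i : Set K) ∩ d j = R

/-- two members of a large family of countable sets with functions which agree on their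
intersection: the form needed for the chain condition of `A` -/
def DelCtbStm : Prop :=
  ∀ (K I Θ : Type u) (θ : Cardinal.{u}), ℵ₀ ≤ θ → θ ^ ℵ₀ = θ → #Θ ≤ θ → θ < #I →
    ∀ (d : I → Set K) (a : I → K → Θ), (∀ i, (d i).Countable) →
      ∃ i j, i ≠ j ∧ ∀ x ∈ d i ∩ d j, a i x = a j x

/-- closing off under operations on sequences -/
def CloStm : Prop :=
  ∀ (B : Type u) (θ : Cardinal.{u}) (F : (ℕ → B) → Set B) (S X : Set B),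
    2 ≤ θ → θ ^ ℵ₀ = θ → (∀ z, #(F z) ≤ θ) → (∀ z, (∀ n, z n ∈ S) → F z ⊆ S) → X ⊆ S → #X ≤ θ →
    X.Nonempty →
    ∃ W : Set B, X ⊆ W ∧ W ⊆ S ∧ #W ≤ θ ∧ ∀ z : ℕ → B, (∀ n, z n ∈ W) → F z ⊆ W

/-- the cardinals: `l 0 = ℵ₁`, `l j = (th j)⁺` for `1 ≤ j ≤ 6` -/
structure Crd (l : Fin 8 → Cardinal.{u}) (th : Fin 8 → Cardinal.{u}) : Prop where
  zero : l 0 = ℵ₁
  lt : ∀ i j, i < j → l i < l j
  succ : ∀ j, 1 ≤ j → j ≤ 6 → l j = Order.succ (th j)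
  ct : ∀ j, 1 ≤ j → th j ^ ℵ₀ = th j
  cnt : 𝔠 ≤ th 1
  le : ∀ i j, 1 ≤ i → i < j → l i ≤ th j
  seven : th 7 = l 7
  pow : l 7 ^ (l 6) = l 7

def CrdStm : Prop := ∃ l th : Fin 8 → Cardinal.{u}, Crd l th

end CI
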