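import Pool.Agent.CI.C.StepStm

/-!
# Project CI, core: finite amalgamation (row K2)
-/

set_option autoImplicit false

open Set Cardinal Pool.Agent.CL

namespace CI

universe u

section

variable {B : Type u} [CompleteBooleanAlgebra B] {W : Set B}

/-! ### countable operations -/

theorem am_iInf (h : IsSS W) {f : ℕ → B} (hf : ∀ n, f n ∈ W) : ⨅ n, f n ∈ W := by
  have h1 := h.compl _ (h.iSup (fun n => (f n)ᶜ) fun n => h.compl _ (hf n))
  rwa [compl_iSup, iInf_congr fun n => compl_compl (f n)] at h1

theorem am_top (h : IsSS W) : (⊤ : B) ∈ W := by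
  have h1 := h.compl _ h.bot
  rwa [compl_bot] at h1

theorem am_sup (h : IsSS W) {a b : B} (ha : a ∈ W) (hb : b ∈ W) : a ⊔ b ∈ W := by
  have h1 := h.iSup (fun n => if n = 0 then a else b) (fun n => by
    by_cases hn : n = 0
    · simpa [hn] using ha
    · simpa [hn] using hb)
  have h2 : (⨆ n : ℕ, if n = 0 then a else b) = a ⊔ b := by
    refine le_antisymm (iSup_le fun n => ?_) (sup_le ?_ ?_)
    · by_cases hn : n = 0
      · simp [hn]
      · simp [hn]
    · exact le_iSup_of_le 0 (by simp)
    · exact le_iSup_of_le 1 (by simp)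
  rwa [h2] at h1

theorem am_inf (h : IsSS W) {a b : B} (ha : a ∈ W) (hb : b ∈ W) : a ⊓ b ∈ W := by
  have h1 := h.compl _ (am_sup h (h.compl _ ha) (h.compl _ hb))
  rwa [compl_sup, compl_compl, compl_compl] at h1

theorem am_iSupC (h : IsSS W) {ι : Type} [Countable ι] [Nonempty ι] {f : ι → B}
    (hf : ∀ i, f i ∈ W) : ⨆ i, f i ∈ W := by
  obtain ⟨e, he⟩ := exists_surjective_nat ι
  rw [← he.iSup_comp]
  exact h.iSup _ fun n => hf (e n)

theorem am_iSupP (h : IsSS W) {p : Prop} {f : p → B} (hf : ∀ hp, f hp ∈ W) : ⨆ hp, f hp ∈ W := by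
  by_cases hp : p
  · rw [iSup_pos hp]
    exact hf hp
  · rw [iSup_neg hp]
    exact h.bot

theorem am_finf (h : IsSS W) {α : Type} (s : Finset α) {f : α → B} (hf : ∀ i, f i ∈ W) :
    s.inf f ∈ W := by
  classical
  induction s using Finset.induction_on with
  | empty =>
    rw [Finset.inf_empty]
    exact am_top h
  | insert a s _ ih =>
    rw [Finset.inf_insert]
    exact am_inf h (hf a) ih

theorem am_mGe (h : IsSS W) {U : ℕ → Finset ℕ → B} (hU : ∀ n a, U n a ∈ W) (s r : ℕ) :
    mGe U s r ∈ W := by
  unfold mGe cntGe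
  exact am_iInf h fun n => am_iSupC h fun C => am_iSupP h fun _ => am_finf h C (hU n)

theorem am_mono {U V : ℕ → Finset ℕ → B} (h : ∀ n a, U n a ≤ V n a) (s r : ℕ) :
    mGe U s r ≤ mGe V s r := by
  unfold mGe cntGe
  refine iInf_mono fun n => iSup_mono fun C => iSup_mono fun _ => ?_
  exact Finset.inf_mono_fun fun a _ => h n a

theorem am_const (v : B) (j : ℕ) : v ≤ mGe (fun _ _ => v) (j + 1) 1 := by
  unfold mGe cntGe
  refine le_iInf fun n => ?_
  refine le_iSup_of_le (Finset.range n).powerset (le_iSup_of_le ⟨Finset.Subset.refl _, ?_⟩ ?_)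
  · rw [Finset.card_powerset, Finset.card_range, one_mul]
    exact Nat.le_mul_of_pos_right _ (Nat.succ_pos j)
  · exact Finset.le_inf fun _ _ => le_rfl

/-- the intersection of labels on the value where it has positive measure -/
theorem am_cut (h : IsSS W) {m : ℕ} (c : Fin m → CndR W) (J : Finset (Fin m)) (j : ℕ) :
    ∃ κ : CndR W, ∀ i ∈ J, mGe (fun n a => J.inf fun i => (c i).τ n a) (j + 1) 1 ≤
      κ.cmp (c i) := by
  have hU : ∀ n a, (J.inf fun i => (c i).τ n a) ∈ W := fun n a =>
    am_finf h J fun i => (c i).mem n a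
  have hw := am_mGe h hU (j + 1) 1
  refine ⟨⟨fun n a => (mGe (fun n a => J.inf fun i => (c i).τ n a) (j + 1) 1)ᶜ ⊔
    J.inf fun i => (c i).τ n a, j, fun n a => am_sup h (h.compl _ hw) (hU n a), ?_, ?_⟩, ?_⟩
  · intro n a
    exact sup_le_sup_left (Finset.inf_mono_fun fun i _ => (c i).dec n a) _
  · have h1 : mGe (fun n a => J.inf fun i => (c i).τ n a) (j + 1) 1 ≤
        mGe (fun n a => (mGe (fun n a => J.inf fun i => (c i).τ n a) (j + 1) 1)ᶜ ⊔
          J.inf fun i => (c i).τ n a) (j + 1) 1 := am_mono (fun n a => le_sup_right) _ _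
    have h2 : (mGe (fun n a => J.inf fun i => (c i).τ n a) (j + 1) 1)ᶜ ≤
        mGe (fun n a => (mGe (fun n a => J.inf fun i => (c i).τ n a) (j + 1) 1)ᶜ ⊔
          J.inf fun i => (c i).τ n a) (j + 1) 1 :=
      (am_const _ j).trans (am_mono (fun n a => le_sup_left) _ _)
    have h3 := sup_le h1 h2
    rw [sup_compl_eq_top] at h3
    exact top_le_iff.1 h3
  · intro i hi
    unfold CndR.cmp
    refine le_iInf fun n => le_iInf fun a => le_iInf fun _ => ?_
    rw [le_himp_iff]
    show _ ⊓ (_ ⊔ _) ≤ _
    rw [inf_sup_left, inf_compl_self, bot_sup_eq]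
    exact inf_le_right.trans (Finset.inf_le hi)

theorem am_cs (h : IsCS W) {a b : B} (ha : a ∈ W) (hb : b ∈ W) : a ⊓ b ∈ W := by
  have h1 := h.sSup {aᶜ, bᶜ} (by
    intro x hx
    rcases hx with rfl | hx
    · exact h.compl _ ha
    · rw [mem_singleton_iff.1 hx]
      exact h.compl _ hb)
  rw [sSup_pair] at h1
  have h2 := h.compl _ h1
  rwa [compl_sup, compl_compl, compl_compl] at h2

end

theorem am_nt {K Λ : Type u} [LinearOrder K] (D : Dat K Λ) : (⊤ : BB D) ≠ ⊥ := by
  rw [← ee_nil]
  exact ee_ne_bot _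

theorem am_tr {K Λ : Type u} [LinearOrder K] (D : Dat K Λ) (b : K) (c₁ c₂ c₃ : Λ)
    (h : dv D b c₁ c₂ = ⊤) (h' : dv D b c₂ c₃ = ⊤) : dv D b c₁ c₃ = ⊤ := by
  refine RO.eq_top_iff'.2 fun p => ?_
  exact D.trans b c₁ c₂ c₃ p (RO.eq_top_iff'.1 h p) (RO.eq_top_iff'.1 h' p)

theorem am_rf {K Λ : Type u} [LinearOrder K] (D : Dat K Λ) (b : K) (c : Λ) :
    dv D b c c = ⊤ := RO.eq_top_iff'.2 fun p => D.refl b c p

section

variable {K Λ L : Type u} [LinearOrder K] [LinearOrder L] (S : Sys K Λ L)

theorem am_isS {κ : Kd} (h : κ.isC) : κ.isS := by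
  rcases h with h | h | h | h
  · exact Or.inl h
  · exact Or.inr (Or.inr (Or.inl h))
  · exact Or.inr (Or.inr (Or.inr (Or.inl h)))
  · exact Or.inr (Or.inr (Or.inr (Or.inr h)))

theorem am_len {κ : Kd} (h : κ.isC) (N : ℕ) : κ.len N = 0 := by
  rcases h with h | h | h | h <;> subst h <;> rfl

/-- equivalent labels have the same stem -/
theorem am_st {g : K} (hC : (S.kd g).isC) {c c' : Λ} (h : S.Eqv g c c') :
    S.st g c = S.st g c' := by
  obtain ⟨h1, h2⟩ := h
  have hv := (S.vS g (am_isS hC)).1
  rw [hv] at h1 h2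
  have key : ∀ a b : CndS (S.kd g) (S.W g), a.cmp b = ⊤ → b.t <+: a.t := by
    intro a b hab
    by_contra hn
    unfold CndS.cmp at hab
    rw [if_neg hn] at hab
    exact am_nt S.D hab.symm
  have k1 := key _ _ h1
  have k2 := key _ _ h2
  exact k2.eq_of_length (le_antisymm k2.length_le k1.length_le)

/-- one label below finitely many compatible labels -/
theorem am_lab (h4 : SMrgStm.{u}) {M : ℕ} (g : K) (f : Fin M → Option Λ)
    (hp : ∀ i j c c', f i = some c → f j = some c' →
      S.Eqv g c c' ∨ ((S.kd g).isC ∧ S.st g c = S.st g c')) (i₀ : Fin M) (c₀ : Λ)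
    (h0 : f i₀ = some c₀) : ∃ e, ∀ i c, f i = some c → dv S.D g e c = ⊤ := by
  classical
  by_cases hC : (S.kd g).isC
  · have hst : ∀ i c, f i = some c → S.st g c = S.st g c₀ := by
      intro i c hi
      rcases hp i i₀ c c₀ hi h0 with h | h
      · exact am_st S hC h
      · exact h.2
    obtain ⟨hv, hsur⟩ := S.vS g (am_isS hC)
    have key : ∀ s : Finset (Fin M), ∃ e, S.st g e = S.st g c₀ ∧
        ∀ i ∈ s, ∀ c, f i = some c → dv S.D g e c = ⊤ := by
      intro s
      induction s using Finset.induction_on with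
      | empty => exact ⟨c₀, rfl, fun i hi => absurd hi (Finset.notMem_empty i)⟩
      | insert i s _ ih =>
        obtain ⟨e, he, hs⟩ := ih
        rcases hfi : f i with _ | c
        · refine ⟨e, he, fun j hj d hd => ?_⟩
          rcases Finset.mem_insert.1 hj with rfl | hj
          · rw [hfi] at hd
            exact absurd hd (by simp)
          · exact hs j hj d hd
        · have hst' : (S.cS g e).t = (S.cS g c).t := by
            have := hst i c hfi
            exact he.trans this.symm
          obtain ⟨e', q1, _, _, q4, q5⟩ := h4 (BB S.D) (S.W g) (S.kd g) (S.ss g) (S.cS g e)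
            (S.cS g c) hst' (by rw [am_len hC]; exact Nat.zero_le _)
          obtain ⟨e'', rfl⟩ := hsur e'
          rw [← hv] at q4 q5
          refine ⟨e'', (show S.st g e'' = S.st g e from q1).trans he, fun j hj d hd => ?_⟩
          rcases Finset.mem_insert.1 hj with rfl | hj
          · rw [hfi, Option.some.injEq] at hd
            rw [← hd]
            exact q5
          · exact am_tr S.D g e'' e d q4 (hs j hj d hd)
    obtain ⟨e, _, he⟩ := key Finset.univ
    exact ⟨e, fun i c hi => he i (Finset.mem_univ i) c hi⟩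
  · refine ⟨c₀, fun i c hi => ?_⟩
    rcases hp i₀ i c₀ c h0 hi with h | h
    · exact h.1
    · exact absurd h.1 hC

/-- the step at a random coordinate -/
theorem am_Q (h2 : SZStm.{u}) (h3 : EeStm.{u}) (h7 : RAmalgStm.{u}) {M : ℕ} (g : K)
    (hk : S.kd g = .rnd) (k : ℕ) (J₀ : Finset (Fin M)) (c : Fin M → Λ)
    (hq : ∀ i ∈ J₀, (S.cR g (c i)).q ≤ k) (X : BB S.D) (hX : X ∈ SZ S.D (Iio g)) (hX0 : X ≠ ⊥) :
    ∃ (J' : Finset (Fin M)) (r : PF K Λ) (e : Λ), J' ⊆ J₀ ∧
      J₀.card ≤ J'.card * (2 * (k + 1)) ∧ r.dom ⊆ Iio g ∧ ee S.D r ≤ X ∧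
      ∀ i ∈ J', ee S.D r ⊓ eb S.D g e ≤ eb S.D g (c i) := by
  classical
  obtain ⟨z1, _, _, z4, _, _⟩ := h2 K Λ S.D (Iio g) (Tr_of_lower (isLowerSet_Iio g))
  obtain ⟨_, e2, _, _, _, _⟩ := h3 K Λ S.D
  obtain ⟨hv, hsur⟩ := S.vR g hk
  have hA := h7 (BB S.D) (S.W g) (S.ss g) k J₀.card
    (fun x => S.cR g (c (J₀.equivFin.symm x).1)) (fun x => hq _ (J₀.equivFin.symm x).2)
  have hex : ∃ (J : Finset (Fin J₀.card)) (_ : J₀.card ≤ J.card * (2 * (k + 1))) (j : ℕ),
      X ⊓ mGe (fun n a => J.inf fun i => (S.cR g (c (J₀.equivFin.symm i).1)).τ n a) (j + 1) 1 ≠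
        ⊥ := by
    by_contra hn
    push Not at hn
    apply hX0
    rw [← inf_top_eq X, ← hA, inf_iSup_eq]
    refine iSup_eq_bot.2 fun J => ?_
    rw [inf_iSup_eq]
    refine iSup_eq_bot.2 fun hJ => ?_
    rw [inf_iSup_eq]
    exact iSup_eq_bot.2 fun j => hn J hJ j
  obtain ⟨J, hJ, j, hne⟩ := hex
  obtain ⟨κ, hκ⟩ := am_cut (S.ss g) (fun x => S.cR g (c (J₀.equivFin.symm x).1)) J j
  obtain ⟨e, rfl⟩ := hsur κ
  have hw : mGe (fun n a => J.inf fun i => (S.cR g (c (J₀.equivFin.symm i).1)).τ n a) (j + 1) 1 ∈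
      SZ S.D (Iio g) := by
    refine SZ_mono inter_subset_left (S.sub g ?_)
    exact am_mGe (S.ss g) (fun n a => am_finf (S.ss g) J fun i => (S.cR g _).mem n a) _ _
  obtain ⟨r, hr, hre⟩ := z4 _ (am_cs z1 hX hw) hne
  refine ⟨J.map ⟨fun x => (J₀.equivFin.symm x).1, fun x y hxy =>
    J₀.equivFin.symm.injective (Subtype.ext hxy)⟩, r, e, ?_, ?_, hr, hre.trans inf_le_left, ?_⟩
  · intro i hi
    obtain ⟨x, _, rfl⟩ := Finset.mem_map.1 hi
    exact (J₀.equivFin.symm x).2
  · rw [Finset.card_map]
    exact hJ
  · intro i hi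
    obtain ⟨x, hx, rfl⟩ := Finset.mem_map.1 hi
    refine le_trans ?_ (e2 g e _)
    refine inf_le_inf_right _ ?_
    rw [hv]
    exact (hre.trans inf_le_right).trans (hκ x hx)

theorem am_resN {p : PF K Λ} {g : K} (F : Finset K) [DecidableEq K] (h : p.f g = none) :
    p.res (↑(insert g F) : Set K) = p.res (↑F : Set K) := by
  ext b c
  rw [PF.res_f_eq_some, PF.res_f_eq_some, Finset.mem_coe, Finset.mem_coe, Finset.mem_insert]
  constructor
  · rintro ⟨h1 | h1, h2⟩
    · rw [h1, h] at h2
      exact absurd h2 (by simp)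
    · exact ⟨h1, h2⟩
  · rintro ⟨h1, h2⟩
    exact ⟨Or.inr h1, h2⟩

theorem am_resS {p : PF K Λ} {g : K} (F : Finset K) [DecidableEq K] {c : Λ}
    (h : p.f g = some c) : p.res (↑(insert g F) : Set K) = (p.res (↑F : Set K)).upd g c := by
  ext b d
  rw [PF.res_f_eq_some, Finset.mem_coe, Finset.mem_insert]
  by_cases hb : b = g
  · rw [hb, PF.upd_f_same, h]
    exact ⟨fun h1 => h1.2, fun h1 => ⟨Or.inl rfl, h1⟩⟩
  · rw [PF.upd_f_ne hb, PF.res_f_eq_some, Finset.mem_coe]
    constructor
    · rintro ⟨h1 | h1, h2⟩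
      · exact absurd h1 hb
      · exact ⟨h1, h2⟩
    · rintro ⟨h1, h2⟩
      exact ⟨Or.inr h1, h2⟩

end

/-- finite amalgamation -/
theorem amStm (_h1 : TrStm.{u}) (h2 : SZStm.{u}) (h3 : EeStm.{u}) (h4 : SMrgStm.{u})
    (_h5 : SCmpStm.{u}) (_h6 : RCmpStm.{u}) (h7 : RAmalgStm.{u}) (_h8 : ZlStm.{u}) :
    AmStm.{u} := by
  classical
  intro K Λ L _ _ _ S M k p R Q _ hdis hlab hQ
  obtain ⟨_, e2, e3, _, _, _⟩ := h3 K Λ S.D
  have claim : ∀ F : Finset K, ∃ (J : Finset (Fin M)) (q : PF K Λ),
      (∀ x ∈ q.dom, ∃ y ∈ F, x ≤ y) ∧ M ≤ J.card * (2 * (k + 1)) ^ (F ∩ Q).card ∧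
      ∀ i ∈ J, ee S.D q ≤ ee S.D ((p i).res (↑F : Set K)) := by
    intro F
    induction F using Finset.induction_on_max with
    | empty =>
      refine ⟨Finset.univ, PF.nil, ?_, ?_, ?_⟩
      · intro x hx
        rw [PF.dom_nil] at hx
        exact absurd hx (notMem_empty x)
      · simp
      · intro i _
        rw [Finset.coe_empty, PF.res_empty]
    | insert g F hF ih =>
      obtain ⟨J, q, hq, hM, hJ⟩ := ih
      have hgF : g ∉ F := fun h => lt_irrefl g (hF g h)
      have hqg : ∀ x ∈ q.dom, x < g := fun x hx => by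
        obtain ⟨y, hy, hxy⟩ := hq x hx
        exact lt_of_le_of_lt hxy (hF y hy)
      have hqn : q.f g = none := PF.notMem_dom.1 fun h => lt_irrefl g (hqg g h)
      have hresS : ∀ i c, (p i).f g = some c → ee S.D ((p i).res (↑(insert g F) : Set K)) =
          ee S.D ((p i).res (↑F : Set K)) ⊓ eb S.D g c := by
        intro i c hi
        rw [am_resS F hi]
        exact e3 _ g c (PF.res_f_of_notMem (by exact_mod_cast hgF))
      have hpow : 1 ≤ 2 * (k + 1) := by omega
      by_cases hgQ : g ∈ Q
      · -- random coordinate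
        obtain ⟨hk, hqk⟩ := hQ g hgQ
        have hcard : (insert g F ∩ Q).card = (F ∩ Q).card + 1 := by
          rw [Finset.insert_inter_of_mem hgQ, Finset.card_insert_of_notMem]
          exact fun h => hgF (Finset.mem_inter.1 h).1
        by_cases hne : ∃ i c, (p i).f g = some c
        · obtain ⟨i₀, c₀, _⟩ := hne
          have hXZ : ee S.D q ∈ SZ S.D (Iio g) :=
            (h2 K Λ S.D (Iio g) (Tr_of_lower (isLowerSet_Iio g))).2.1 q hqg
          obtain ⟨J', r, e, g1, g2, g3, g4, g5⟩ := am_Q S h2 h3 h7 g hk k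
            (J.filter fun i => (p i).f g ≠ none) (fun i => ((p i).f g).getD c₀)
            (fun i hi => by
              obtain ⟨c, hc⟩ := Option.ne_none_iff_exists'.1 (Finset.mem_filter.1 hi).2
              rw [hc]
              exact hqk i c hc) (ee S.D q) hXZ (ee_ne_bot q)
          have hrn : r.f g = none := PF.notMem_dom.1 fun h => lt_irrefl g (g3 h)
          refine ⟨J' ∪ J.filter fun i => (p i).f g = none, r.upd g e, ?_, ?_, ?_⟩
          · intro x hx
            rw [PF.dom_upd] at hx
            refine ⟨g, Finset.mem_insert_self _ _, ?_⟩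
            rcases hx with rfl | hx
            · exact le_rfl
            · exact le_of_lt (g3 hx)
          · have d1 : (J' ∪ J.filter fun i => (p i).f g = none).card =
                J'.card + (J.filter fun i => (p i).f g = none).card := by
              refine Finset.card_union_of_disjoint (Finset.disjoint_left.2 fun i hi hi' => ?_)
              exact (Finset.mem_filter.1 (g1 hi)).2 (Finset.mem_filter.1 hi').2
            have d2 : (J.filter fun i => (p i).f g = none).card +
                (J.filter fun i => (p i).f g ≠ none).card = J.card :=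
              Finset.card_filter_add_card_filter_not _
            have d3 : J.card ≤ (J' ∪ J.filter fun i => (p i).f g = none).card *
                (2 * (k + 1)) := by
              rw [d1, add_mul]
              have := Nat.le_mul_of_pos_right (J.filter fun i => (p i).f g = none).card hpow
              omega
            rw [hcard, pow_succ, mul_comm ((2 * (k + 1)) ^ _), ← mul_assoc]
            exact hM.trans (Nat.mul_le_mul_right _ d3)
          · intro i hi
            rw [e3 r g e hrn]
            rcases Finset.mem_union.1 hi with hi | hi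
            · obtain ⟨hiJ, hin⟩ := Finset.mem_filter.1 (g1 hi)
              obtain ⟨c, hc⟩ := Option.ne_none_iff_exists'.1 hin
              have h5 := g5 i hi
              beta_reduce at h5
              rw [hc] at h5
              rw [hresS i c hc]
              exact le_inf (inf_le_left.trans (g4.trans (hJ i hiJ))) h5
            · obtain ⟨hiJ, hin⟩ := Finset.mem_filter.1 hi
              rw [am_resN F hin]
              exact inf_le_left.trans (g4.trans (hJ i hiJ))
        · push Not at hne
          refine ⟨J, q, ?_, ?_, ?_⟩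
          · intro x hx
            obtain ⟨y, hy, hxy⟩ := hq x hx
            exact ⟨y, Finset.mem_insert_of_mem hy, hxy⟩
          · rw [hcard, pow_succ, ← mul_assoc]
            exact hM.trans (Nat.le_mul_of_pos_right _ hpow)
          · intro i hi
            have hin : (p i).f g = none := by
              rcases h : (p i).f g with _ | c
              · rfl
              · exact absurd h (hne i c)
            rw [am_resN F hin]
            exact hJ i hi
      · -- other coordinates
        have hcard : (insert g F ∩ Q).card = (F ∩ Q).card := by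
          rw [Finset.insert_inter_of_notMem hgQ]
        by_cases hne : ∃ i c, (p i).f g = some c
        · obtain ⟨i₀, c₀, h0⟩ := hne
          obtain ⟨e, he⟩ := am_lab S h4 g (fun i => (p i).f g) (by
            intro i j c c' hi hj
            by_cases hgR : g ∈ R
            · exact hlab g hgR hgQ i j c c' hi hj
            · by_cases hij : i = j
              · subst hij
                have hcc : c = c' := by
                  have := hi.symm.trans hj
                  exact Option.some.inj this
                rw [hcc]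
                exact Or.inl ⟨am_rf S.D g c', am_rf S.D g c'⟩
              · exact absurd (hdis i j hij ⟨PF.mem_dom.2 ⟨c, hi⟩, PF.mem_dom.2 ⟨c', hj⟩⟩)
                  hgR) i₀ c₀ h0
          refine ⟨J, q.upd g e, ?_, ?_, ?_⟩
          · intro x hx
            rw [PF.dom_upd] at hx
            refine ⟨g, Finset.mem_insert_self _ _, ?_⟩
            rcases hx with rfl | hx
            · exact le_rfl
            · exact le_of_lt (hqg x hx)
          · rw [hcard]
            exact hM
          · intro i hi
            rw [e3 q g e hqn]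
            rcases hc : (p i).f g with _ | c
            · rw [am_resN F hc]
              exact inf_le_left.trans (hJ i hi)
            · rw [hresS i c hc]
              refine le_inf (inf_le_left.trans (hJ i hi)) ?_
              have h6 := e2 g e c
              rw [he i c hc, top_inf_eq] at h6
              exact inf_le_right.trans h6
        · push Not at hne
          refine ⟨J, q, ?_, ?_, ?_⟩
          · intro x hx
            obtain ⟨y, hy, hxy⟩ := hq x hx
            exact ⟨y, Finset.mem_insert_of_mem hy, hxy⟩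
          · rw [hcard]
            exact hM
          · intro i hi
            have hin : (p i).f g = none := by
              rcases h : (p i).f g with _ | c
              · rfl
              · exact absurd h (hne i c)
            rw [am_resN F hin]
            exact hJ i hi
  have hfin : (⋃ i, (p i).dom).Finite := Set.finite_iUnion fun i => (p i).dom_finite
  obtain ⟨J, q, _, hM, hJ⟩ := claim hfin.toFinset
  refine ⟨J, q, hM.trans ?_, fun i hi => ?_⟩
  · exact Nat.mul_le_mul_left _ (Nat.pow_le_pow_right (by omega)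
      (Finset.card_le_card Finset.inter_subset_right))
  · have h5 := hJ i hi
    rwa [PF.res_eq_self] at h5
    intro x hx
    rw [Set.Finite.coe_toFinset]
    exact mem_iUnion.2 ⟨i, hx⟩

end CI
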