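import Pool.Agent.CI.C.MdlStm

/-!
# Project CI, core: averaged limits
-/

set_option autoImplicit false

open Set Cardinal Pool.Agent.CL

namespace CI

universe u

/-! ### deciding, counting -/

section

variable {B : Type u} [CompleteBooleanAlgebra B]

private theorem avg_dec (Y : Set B) (hi : ∀ a ∈ Y, ∀ b ∈ Y, a ⊓ b ∈ Y) (_hc : ∀ a ∈ Y, aᶜ ∈ Y)
    {ι : Type} (f : ι → B) (s : Finset ι) : (∀ i ∈ s, f i ∈ Y) → ∀ x ∈ Y, x ≠ ⊥ →
    ∃ y ∈ Y, y ≠ ⊥ ∧ y ≤ x ∧ ∀ i ∈ s, y ≤ f i ∨ y ≤ (f i)ᶜ := by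
  classical
  induction s using Finset.induction_on with
  | empty =>
    intro _ x hxY hx
    exact ⟨x, hxY, hx, le_rfl, fun j hj => absurd hj (Finset.notMem_empty j)⟩
  | insert i s _ ih =>
    intro hf x hxY hx
    obtain ⟨y, hyY, hy, hyx, hys⟩ := ih (fun j hj => hf j (Finset.mem_insert_of_mem hj)) x hxY hx
    have hfi := hf i (Finset.mem_insert_self i s)
    by_cases h3 : y ⊓ f i = ⊥
    · refine ⟨y, hyY, hy, hyx, fun j hj => ?_⟩
      rcases Finset.mem_insert.1 hj with rfl | hj
      · exact Or.inr (le_compl_iff_disjoint_right.2 (disjoint_iff.2 h3))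
      · exact hys j hj
    · refine ⟨y ⊓ f i, hi y hyY _ hfi, h3, inf_le_left.trans hyx, fun j hj => ?_⟩
      rcases Finset.mem_insert.1 hj with rfl | hj
      · exact Or.inl inf_le_right
      · exact (hys j hj).imp inf_le_left.trans inf_le_left.trans

private theorem avg_ge {A : Finset ℕ} {f : ℕ → B} {s r : ℕ} {y : B} {C : Finset ℕ}
    (hC : C ⊆ A) (hr : r ≤ C.card * s) (hy : ∀ x ∈ C, y ≤ f x) : y ≤ cntGe A f s r := by
  unfold cntGe
  exact le_iSup_of_le C (le_iSup_of_le ⟨hC, hr⟩ (Finset.le_inf hy))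

open Classical in
private theorem avg_le {A : Finset ℕ} {f : ℕ → B} {s r : ℕ} {y : B} (hy : y ≠ ⊥)
    (hd : ∀ x ∈ A, y ≤ f x ∨ y ≤ (f x)ᶜ) (h : y ≤ cntGe A f s r) :
    r ≤ (A.filter fun x => y ≤ f x).card * s := by
  by_contra hcon
  have h1 : y ⊓ cntGe A f s r = ⊥ := by
    unfold cntGe
    rw [inf_iSup_eq, eq_bot_iff]
    refine iSup_le fun C => ?_
    rw [inf_iSup_eq]
    refine iSup_le fun hC => ?_
    by_cases hsub : C ⊆ A.filter fun x => y ≤ f x
    · exact absurd (hC.2.trans (Nat.mul_le_mul_right s (Finset.card_le_card hsub))) hcon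
    · obtain ⟨x, hx, hx'⟩ := Finset.not_subset.1 hsub
      have h2 : ¬ y ≤ f x := fun h3 => hx' (Finset.mem_filter.2 ⟨hC.1 hx, h3⟩)
      have h3 := (hd x (hC.1 hx)).resolve_left h2
      exact (inf_le_inf h3 (Finset.inf_le hx)).trans (by rw [compl_inf_eq_bot])
  rw [inf_eq_left.2 h] at h1
  exact hy h1

private theorem avg_small {f : ℕ → B} {n : ℕ} (h : ∀ s : Finset ℕ, s.card = n + 1 → s.inf f = ⊥)
    {y : B} (hy : y ≠ ⊥) (u : Finset ℕ) (hu : ∀ j ∈ u, y ≤ f j) : u.card ≤ n := by
  by_contra hc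
  push Not at hc
  obtain ⟨s, hs, hs'⟩ := Finset.exists_subset_card_eq (Nat.succ_le_of_lt hc)
  have h1 : y ≤ s.inf f := Finset.le_inf fun j hj => hu j (hs hj)
  rw [h s hs', le_bot_iff] at h1
  exact hy h1

private theorem avg_mem {Y : Set B} (ht : ⊤ ∈ Y) (hi : ∀ a ∈ Y, ∀ b ∈ Y, a ⊓ b ∈ Y)
    (hc : ∀ a ∈ Y, aᶜ ∈ Y) (A : Finset ℕ) (f : ℕ → B) (s r : ℕ) (hf : ∀ x ∈ A, f x ∈ Y) :
    cntGe A f s r ∈ Y := by
  classical
  have h1 : cntGe A f s r = (((A.powerset.filter fun C => r ≤ C.card * s).inf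
      fun C => (C.inf f)ᶜ))ᶜ := by
    rw [Finset.compl_inf]
    apply le_antisymm
    · unfold cntGe
      refine iSup_le fun C => iSup_le fun hC => ?_
      have h2 : C ∈ A.powerset.filter fun C => r ≤ C.card * s :=
        Finset.mem_filter.2 ⟨Finset.mem_powerset.2 hC.1, hC.2⟩
      refine le_trans ?_ (Finset.le_sup (f := fun i => ((i.inf f)ᶜ)ᶜ) h2)
      show C.inf f ≤ ((C.inf f)ᶜ)ᶜ
      rw [compl_compl]
    · refine Finset.sup_le fun C hC => ?_
      rw [Finset.mem_filter, Finset.mem_powerset] at hC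
      show ((C.inf f)ᶜ)ᶜ ≤ _
      rw [compl_compl]
      exact avg_ge hC.1 hC.2 fun x hx => Finset.inf_le hx
  have h2 : ∀ (C : Finset ℕ), C ⊆ A → C.inf f ∈ Y := by
    intro C
    induction C using Finset.induction_on with
    | empty =>
      intro _
      rw [Finset.inf_empty]
      exact ht
    | insert i C _ ih =>
      intro hC
      rw [Finset.inf_insert]
      exact hi _ (hf i (hC (Finset.mem_insert_self i C))) _
        (ih fun x hx => hC (Finset.mem_insert_of_mem hx))
  have h3 : ∀ (T : Finset (Finset ℕ)), (∀ C ∈ T, C ⊆ A) →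
      T.inf (fun C => (C.inf f)ᶜ) ∈ Y := by
    intro T
    induction T using Finset.induction_on with
    | empty =>
      intro _
      rw [Finset.inf_empty]
      exact ht
    | insert C T _ ih =>
      intro hT
      rw [Finset.inf_insert]
      exact hi _ (hc _ (h2 C (hT C (Finset.mem_insert_self C T)))) _
        (ih fun D hD => hT D (Finset.mem_insert_of_mem hD))
  rw [h1]
  exact hc _ (h3 _ fun C hC => Finset.mem_powerset.1 (Finset.mem_filter.1 hC).1)

private theorem avg_ss_sup {W : Set B} (hW : IsSS W) {a b : B} (ha : a ∈ W) (hb : b ∈ W) :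
    a ⊔ b ∈ W := by
  have h1 : a ⊔ b = ⨆ n : ℕ, (if n = 0 then a else b) := by
    apply le_antisymm
    · refine sup_le ?_ ?_
      · exact le_iSup_of_le 0 (by rw [if_pos rfl])
      · exact le_iSup_of_le 1 (by rw [if_neg one_ne_zero])
    · refine iSup_le fun n => ?_
      split_ifs
      · exact le_sup_left
      · exact le_sup_right
  rw [h1]
  refine hW.iSup _ fun n => ?_
  split_ifs
  · exact ha
  · exact hb

private theorem avg_ss_inf {W : Set B} (hW : IsSS W) {a b : B} (ha : a ∈ W) (hb : b ∈ W) :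
    a ⊓ b ∈ W := by
  have h1 : a ⊓ b = (aᶜ ⊔ bᶜ)ᶜ := by rw [compl_sup, compl_compl, compl_compl]
  rw [h1]
  exact hW.compl _ (avg_ss_sup hW (hW.compl a ha) (hW.compl b hb))

private theorem avg_ss_top {W : Set B} (hW : IsSS W) : (⊤ : B) ∈ W := by
  rw [← compl_bot]
  exact hW.compl _ hW.bot

/-- the double counting -/
private theorem avg_width {X w w' σ : ℕ} (hσ : w * σ ≤ w') (F : ℕ → ℕ → B)
    (hw : ∀ x < X, ∀ s : Finset ℕ, s.card = w + 1 → s.inf (F x) = ⊥) (s : Finset ℕ)
    (hs : s.card = w' + 1) :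
    (s.inf fun v => cntGe (Finset.range X) (fun x => F x v) σ (X + 1)) = ⊥ := by
  classical
  by_contra hne
  obtain ⟨y, -, hy, hyx, hyd⟩ := avg_dec (univ : Set B) (fun _ _ _ _ => mem_univ _)
    (fun _ _ => mem_univ _) (fun p : ℕ × ℕ => F p.1 p.2) (Finset.range X ×ˢ s)
    (fun _ _ => mem_univ _) _ (mem_univ _) hne
  have h1 : ∀ v ∈ s, X + 1 ≤ ((Finset.range X).filter fun x => y ≤ F x v).card * σ := by
    intro v hv
    refine avg_le hy (fun x hx => hyd (x, v) (Finset.mem_product.2 ⟨hx, hv⟩)) ?_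
    exact hyx.trans (Finset.inf_le hv)
  have h2 : ∀ x ∈ Finset.range X, (s.filter fun v => y ≤ F x v).card ≤ w := by
    intro x hx
    exact avg_small (hw x (Finset.mem_range.1 hx)) hy _ fun j hj => (Finset.mem_filter.1 hj).2
  have h3 : ∑ v ∈ s, ((Finset.range X).filter fun x => y ≤ F x v).card =
      ∑ x ∈ Finset.range X, (s.filter fun v => y ≤ F x v).card := by
    simp only [Finset.card_filter]
    exact Finset.sum_comm
  have h4 : s.card * (X + 1) ≤ (∑ v ∈ s, ((Finset.range X).filter fun x => y ≤ F x v).card) * σ := by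
    rw [Finset.sum_mul]
    calc s.card * (X + 1) = ∑ _v ∈ s, (X + 1) := by rw [Finset.sum_const, smul_eq_mul]
      _ ≤ _ := Finset.sum_le_sum h1
  have h5 : (∑ x ∈ Finset.range X, (s.filter fun v => y ≤ F x v).card) ≤ X * w := by
    calc (∑ x ∈ Finset.range X, (s.filter fun v => y ≤ F x v).card)
        ≤ ∑ _x ∈ Finset.range X, w := Finset.sum_le_sum h2
      _ = X * w := by rw [Finset.sum_const, smul_eq_mul, Finset.card_range]
  rw [h3, hs] at h4
  have h6 : (w' + 1) * (X + 1) ≤ X * w' := by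
    calc (w' + 1) * (X + 1) ≤ (∑ x ∈ Finset.range X, (s.filter fun v => y ≤ F x v).card) * σ := h4
      _ ≤ X * w * σ := Nat.mul_le_mul_right σ h5
      _ = X * (w * σ) := by ring
      _ ≤ X * w' := Nat.mul_le_mul_left X hσ
  nlinarith

end

private theorem avg_sum (X : ℕ) (a : ℕ → ℕ) (K : ℕ) (h : ∀ k < K, a k * ((k + 1) * (k + 2)) ≤ X) :
    (∑ k ∈ Finset.range K, a k) * (K + 1) ≤ X * K := by
  induction K with
  | zero => simp
  | succ K ih =>
    have h1 := ih fun k hk => h k (hk.trans (Nat.lt_succ_self K))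
    have h2 := h K (Nat.lt_succ_self K)
    rw [Finset.sum_range_succ]
    have h3 : (K + 1) * ((∑ k ∈ Finset.range K, a k + a K) * (K + 1 + 1)) ≤
        (K + 1) * (X * (K + 1)) := by
      calc (K + 1) * ((∑ k ∈ Finset.range K, a k + a K) * (K + 1 + 1))
          = (∑ k ∈ Finset.range K, a k) * (K + 1) * (K + 2) + a K * ((K + 1) * (K + 2)) := by ring
        _ ≤ X * K * (K + 2) + X := Nat.add_le_add (Nat.mul_le_mul_right _ h1) h2
        _ = (K + 1) * (X * (K + 1)) := by ring
    exact Nat.le_of_mul_le_mul_left h3 (Nat.succ_pos K)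

private theorem avg_w (N M k : ℕ) : N * (k + 1) ^ N * ((M + 1) * (k + 1) * (k + 2)) ≤
    max (2 * N * (M + 1)) (N + 2) * (k + 1) ^ max (2 * N * (M + 1)) (N + 2) := by
  have h1 : k + 2 ≤ 2 * (k + 1) := by omega
  calc N * (k + 1) ^ N * ((M + 1) * (k + 1) * (k + 2))
      ≤ N * (k + 1) ^ N * ((M + 1) * (k + 1) * (2 * (k + 1))) := by gcongr
    _ = 2 * N * (M + 1) * (k + 1) ^ (N + 2) := by ring
    _ ≤ max (2 * N * (M + 1)) (N + 2) * (k + 1) ^ max (2 * N * (M + 1)) (N + 2) :=
      Nat.mul_le_mul (le_max_left _ _) (Nat.pow_le_pow_right (Nat.succ_pos k) (le_max_right _ _))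

private theorem avg_len {κ : Kd} (hκ : κ = .et) (N : ℕ) : κ.len N = 0 := by
  rw [hκ]
  rfl

private theorem avg_bad {κ : Kd} (hκ : κ = .et) (k v : ℕ) : κ.Bad k v = {v} := by
  rw [hκ]
  rfl

/-! ### iterated lower bounds -/

section

variable {B : Type u} [CompleteBooleanAlgebra B] {W : Set B}

private theorem avg_merge (h1 : SCmpStm.{u}) (h2 : SMrgStm.{u}) (hW : IsSS W) {κ : Kd}
    (hκ : κ = .et) (c : CndS κ W) (d : ℕ → CndS κ W) (G : Finset ℕ)
    (hd : ∀ x ∈ G, (d x).t = c.t) :
    ∃ e : CndS κ W, e.t = c.t ∧ e.cmp c = ⊤ ∧ ∀ x ∈ G, e.cmp (d x) = ⊤ := by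
  classical
  induction G using Finset.induction_on with
  | empty =>
    exact ⟨c, rfl, (h1 B W κ hW c c c).1, fun x hx => absurd hx (Finset.notMem_empty x)⟩
  | insert i G _ ih =>
    obtain ⟨e, he, hec, heG⟩ := ih fun x hx => hd x (Finset.mem_insert_of_mem hx)
    obtain ⟨e', he', -, -, hee, hei⟩ := h2 B W κ hW e (d i)
      (by rw [he, hd i (Finset.mem_insert_self i G)]) (by
        rw [avg_len hκ]
        exact Nat.zero_le _)
    have htr : ∀ z : CndS κ W, e.cmp z = ⊤ → e'.cmp z = ⊤ := by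
      intro z hz
      have h3 := (h1 B W κ hW z e e').2.1
      rw [hee, hz, top_inf_eq] at h3
      exact top_le_iff.1 h3
    refine ⟨e', he'.trans he, htr c hec, fun x hx => ?_⟩
    rcases Finset.mem_insert.1 hx with rfl | hx
    · exact hei
    · exact htr _ (heG x hx)

private theorem avg_cmp {κ : Kd} (hκ : κ = .et) (d c : CndS κ W) (ht : c.t <+: d.t)
    (hf : d.f = c.f) (y : B)
    (hy : ∀ k, c.t.length ≤ k → k < d.t.length → y ≤ (c.f k (at' d.t k))ᶜ) : y ≤ d.cmp c := by
  unfold CndS.cmp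
  rw [if_pos ht]
  refine le_inf ?_ ?_
  · refine le_iInf fun k => le_iInf fun j => ?_
    rw [hf, himp_self]
    exact le_top
  · refine le_iInf fun k => le_iInf fun hk => le_iInf fun j => le_iInf fun hj => ?_
    rw [avg_bad hκ] at hj
    have hj' : j = at' d.t k := hj
    rw [hj']
    exact hy k hk.1 hk.2

end

private theorem avg_SZ_inf {K Λ : Type u} [LinearOrder K] {D : Dat K Λ} {Z : Set K} {U V : BB D}
    (hU : U ∈ SZ D Z) (hV : V ∈ SZ D Z) : U ⊓ V ∈ SZ D Z := by
  intro p
  constructor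
  · intro h
    exact ⟨(hU p).1 h.1, (hV p).1 h.2⟩
  · intro h
    exact ⟨(hU p).2 h.1, (hV p).2 h.2⟩

/-- averaged limits at a coordinate of the last kind -/
theorem avgStm (h1 : SCmpStm.{u}) (h2 : SMrgStm.{u}) (h3 : GenStm.{u}) (h4 : EeStm.{u})
    (h5 : SZStm.{u}) (h6 : ZlStm.{u}) : AvgStm.{u} := by
  classical
  intro K Λ L _ _ S b hb t N M X c hc
  have hS : (S.kd b).isS := by
    rw [hb]
    simp [Kd.isS]
  have hfW : ∀ l x k v, (S.cS b (c l x)).f k v ∈ S.W b := fun l x k v => (S.cS b (c l x)).mem k v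
  have hwN : ∀ N' k, (S.kd b).w N' k = N' * (k + 1) ^ N' := by
    intro N' k
    rw [hb]
    rfl
  have hwd : ∀ l, ∀ x < X l, ∀ k (s : Finset ℕ), s.card = N * (k + 1) ^ N + 1 →
      s.inf ((S.cS b (c l x)).f k) = ⊥ := by
    intro l x hx k s hs
    refine (S.cS b (c l x)).wd k s ?_
    rw [(hc l x hx).2, hwN]
    exact hs
  refine ⟨?_, ?_, ?_, ?_⟩
  · -- pure extensions
    intro l v0 hv0 hv0ne cs hts hle
    have hTr : Tr S.D (Iio b) := Tr_of_lower (isLowerSet_Iio b)
    have hcs := (h5 K Λ S.D (Iio b) hTr).1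
    obtain ⟨v', hv'Z, hv'ne, hv'le, hdec⟩ := avg_dec (SZ S.D (Iio b))
      (fun U hU V hV => avg_SZ_inf hU hV) hcs.compl
      (fun p : ℕ × ℕ => (S.cS b (c l p.1)).f p.2 (at' (S.st b cs) p.2))
      (Finset.range (X l) ×ˢ Finset.range (S.st b cs).length)
      (fun p _ => SZ_mono inter_subset_left (S.sub b (hfW l p.1 p.2 _))) v0 hv0 hv0ne
    obtain ⟨n, hn⟩ : ∃ n : ℕ → Finset ℕ, n = fun k => (Finset.range (X l)).filter fun x =>
      v' ≤ (S.cS b (c l x)).f k (at' (S.st b cs) k) := ⟨_, rfl⟩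
    have hcnt : ∀ k, t.length ≤ k → k < (S.st b cs).length →
        (n k).card * ((M + 1) * (k + 1) * (k + 2)) ≤ X l := by
      intro k hk1 hk2
      by_contra hcon
      have hcon' : X l + 1 ≤ (n k).card * ((M + 1) * (k + 1) * (k + 2)) := by omega
      have h7 : v' ≤ cntGe (Finset.range (X l))
          (fun x => (S.cS b (c l x)).f k (at' (S.st b cs) k)) ((M + 1) * (k + 1) * (k + 2))
          (X l + 1) := by
        refine avg_ge ?_ hcon' ?_
        · rw [hn]
          exact Finset.filter_subset _ _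
        · intro x hx
          rw [hn] at hx
          exact (Finset.mem_filter.1 hx).2
      have h8 : v' ≤ (cntGe (Finset.range (X l))
          (fun x => (S.cS b (c l x)).f k (at' (S.st b cs) k)) ((M + 1) * (k + 1) * (k + 2))
          (X l + 1))ᶜ := hv'le.trans (hle k hk1 hk2)
      have h9 := le_inf h7 h8
      rw [inf_compl_eq_bot, le_bot_iff] at h9
      exact hv'ne h9
    obtain ⟨bad, hbad⟩ : ∃ bad : Finset ℕ, bad = (Finset.range (X l)).filter fun x =>
      ∃ k, t.length ≤ k ∧ k < (S.st b cs).length ∧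
        v' ≤ (S.cS b (c l x)).f k (at' (S.st b cs) k) := ⟨_, rfl⟩
    obtain ⟨good, hgood⟩ : ∃ good : Finset ℕ, good = (Finset.range (X l)).filter fun x =>
      ¬ ∃ k, t.length ≤ k ∧ k < (S.st b cs).length ∧
        v' ≤ (S.cS b (c l x)).f k (at' (S.st b cs) k) := ⟨_, rfl⟩
    have hgb : bad.card + good.card = X l := by
      rw [hbad, hgood, Finset.card_filter_add_card_filter_not, Finset.card_range]
    have hbadcard : (M + 1) * bad.card ≤ X l := by
      have e1 : bad ⊆ (Finset.range (S.st b cs).length).biUnion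
          (fun k => if t.length ≤ k then n k else ∅) := by
        intro x hx
        rw [hbad, Finset.mem_filter] at hx
        obtain ⟨hx1, k, hk1, hk2, hk3⟩ := hx
        refine Finset.mem_biUnion.2 ⟨k, Finset.mem_range.2 hk2, ?_⟩
        rw [if_pos hk1, hn]
        exact Finset.mem_filter.2 ⟨hx1, hk3⟩
      have e2 : bad.card ≤ ∑ k ∈ Finset.range (S.st b cs).length,
          (if t.length ≤ k then n k else ∅).card :=
        (Finset.card_le_card e1).trans Finset.card_biUnion_le
      have e3 := avg_sum (X l) (fun k => (M + 1) * (if t.length ≤ k then n k else ∅).card)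
        (S.st b cs).length (by
          intro k hk
          show (M + 1) * (if t.length ≤ k then n k else ∅).card * ((k + 1) * (k + 2)) ≤ X l
          split_ifs with hk1
          · have := hcnt k hk1 hk
            calc (M + 1) * (n k).card * ((k + 1) * (k + 2))
                = (n k).card * ((M + 1) * (k + 1) * (k + 2)) := by ring
              _ ≤ X l := this
          · simp)
      rw [← Finset.mul_sum] at e3
      have e4 : (M + 1) * bad.card * ((S.st b cs).length + 1) ≤
          X l * ((S.st b cs).length + 1) := by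
        calc (M + 1) * bad.card * ((S.st b cs).length + 1)
            ≤ ((M + 1) * ∑ k ∈ Finset.range (S.st b cs).length,
                (if t.length ≤ k then n k else ∅).card) * ((S.st b cs).length + 1) := by
              gcongr
          _ ≤ X l * (S.st b cs).length := e3
          _ ≤ X l * ((S.st b cs).length + 1) := by gcongr; omega
      exact Nat.le_of_mul_le_mul_right e4 (Nat.succ_pos _)
    have hgoodcard : M * X l ≤ good.card * (M + 1) := by
      have e1 : (M + 1) * bad.card + (M + 1) * good.card = (M + 1) * X l := by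
        rw [← mul_add, hgb]
      have e2 : (M + 1) * X l = M * X l + X l := by ring
      have e3 : good.card * (M + 1) = (M + 1) * good.card := mul_comm _ _
      omega
    have hgx : ∀ x ∈ good, x < X l := by
      intro x hx
      rw [hgood, Finset.mem_filter, Finset.mem_range] at hx
      exact hx.1
    have hgc : ∀ x ∈ good, ∀ k, t.length ≤ k → k < (S.st b cs).length →
        v' ≤ ((S.cS b (c l x)).f k (at' (S.st b cs) k))ᶜ := by
      intro x hx k hk1 hk2
      rw [hgood, Finset.mem_filter] at hx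
      refine (hdec (x, k) (Finset.mem_product.2 ⟨hx.1, Finset.mem_range.2 hk2⟩)).resolve_left ?_
      intro h7
      exact hx.2 ⟨k, hk1, hk2, h7⟩
    -- the conditions with the long stem
    obtain ⟨d, hd⟩ : ∃ d : ℕ → CndS (S.kd b) (S.W b), ∀ x, (d x).t = S.st b cs ∧
        (d x).f = (S.cS b (c l x)).f := by
      refine ⟨fun x => ⟨S.st b cs, (S.cS b (c l x)).N, (S.cS b (c l x)).f,
        (S.cS b (c l x)).mem, (S.cS b (c l x)).wd, ?_⟩, fun x => ⟨rfl, rfl⟩⟩
      rw [avg_len hb]
      exact Nat.zero_le _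
    obtain ⟨e, het, hec, heG⟩ := avg_merge h1 h2 (S.ss b) hb (S.cS b cs) d good
      (fun x _ => (hd x).1)
    obtain ⟨c', hc'⟩ := (S.vS b hS).2 e
    refine ⟨v', hv'Z, hv'ne, hv'le, c', ?_, ?_, ?_⟩
    · show (S.cS b c').t = _
      rw [hc', het]
      rfl
    · rw [(S.vS b hS).1, hc', hec]
      exact le_top
    · refine avg_ge (C := good) (fun x hx => Finset.mem_range.2 (hgx x hx)) hgoodcard ?_
      intro x hx
      have e1 : v' ≤ (d x).cmp (S.cS b (c l x)) := by
        have e2 : (S.cS b (c l x)).t = t := (hc l x (hgx x hx)).1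
        refine avg_cmp hb (d x) (S.cS b (c l x)) ?_ (hd x).2 v' ?_
        · rw [e2, (hd x).1]
          exact hts
        · intro k hk1 hk2
          rw [e2] at hk1
          rw [(hd x).1] at hk2 ⊢
          exact hgc x hx k hk1 hk2
      have e3 : v' ≤ dv S.D b c' (c l x) := by
        rw [(S.vS b hS).1, hc']
        refine le_trans ?_ (h1 _ _ _ (S.ss b) (S.cS b (c l x)) (d x) e).2.1
        rw [heG x hx, top_inf_eq]
        exact e1
      exact (inf_le_inf_right _ e3).trans ((h4 K Λ S.D).2.1 b c' (c l x))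
  · -- in `W b`
    intro l k v
    exact (S.ss b).compl _ (avg_mem (avg_ss_top (S.ss b))
      (fun U hU V hV => avg_ss_inf (S.ss b) hU hV) (S.ss b).compl _ _ _ _
      fun x _ => hfW l x k v)
  · -- cylinder
    intro l
    have hTr : Tr S.D (Iic b ∩ S.Zl (S.lay b)) :=
      (Tr_of_lower (isLowerSet_Iic b)).inter (h6 K Λ L S (S.lay b))
    have hcs := (h5 K Λ S.D _ hTr).1
    refine avg_mem ?_ (fun U hU V hV => avg_SZ_inf hU hV) hcs.compl _ _ _ _
      fun x _ => (h3 K Λ L S b hS).2.2.2.2.2.2 (c l x)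
    intro p
    exact ⟨fun _ => trivial, fun _ => trivial⟩
  · -- widths
    refine ⟨max (2 * N * (M + 1)) (N + 2), fun l k s hs => ?_⟩
    rw [hwN] at hs
    have h7 := avg_width (avg_w N M k) (fun x v => (S.cS b (c l x)).f k v)
      (fun x hx s hs => hwd l x hx k s hs) s hs
    unfold Sys.avg
    simp only [compl_compl]
    exact h7

end CI
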