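import Pool.Agent.CI.C.MdlStm

/-!
# Project CI, core: Baire argument for names (row M2)
-/

set_option autoImplicit false

open Set

namespace CI

universe u

section

variable {B : Type u} [CompleteBooleanAlgebra B]

/-- a family can be made disjoint without changing the supremum -/
private theorem bair_dis {ι : Type} [Countable ι] (g : ι → B) :
    ∃ h : ι → B, (∀ i, h i ≤ g i) ∧ (∀ i j, i ≠ j → h i ⊓ h j = ⊥) ∧ ⨆ i, g i ≤ ⨆ i, h i := by
  obtain ⟨e, he⟩ := exists_injective_nat ι
  have key : ∀ i j, e i < e j →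
      (g i ⊓ (⨆ k, ⨆ _ : e k < e i, g k)ᶜ) ⊓ (g j ⊓ (⨆ k, ⨆ _ : e k < e j, g k)ᶜ) = ⊥ := by
    intro i j hij
    have h1 : (⨆ k, ⨆ _ : e k < e j, g k)ᶜ ≤ (g i)ᶜ :=
      compl_le_compl (le_iSup₂ (f := fun k (_ : e k < e j) => g k) i hij)
    refine le_bot_iff.1 ?_
    calc _ ≤ g i ⊓ (g i)ᶜ := inf_le_inf inf_le_left (inf_le_right.trans h1)
      _ = ⊥ := inf_compl_self _
  refine ⟨fun i => g i ⊓ (⨆ k, ⨆ _ : e k < e i, g k)ᶜ, fun i => inf_le_left, ?_, ?_⟩
  · intro i j hij
    rcases lt_trichotomy (e i) (e j) with h | h | h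
    · exact key i j h
    · exact absurd (he h) hij
    · rw [inf_comm]
      exact key j i h
  · refine iSup_le ?_
    suffices H : ∀ n i, e i = n → g i ≤ ⨆ i, g i ⊓ (⨆ k, ⨆ _ : e k < e i, g k)ᶜ from
      fun i => H _ i rfl
    intro n
    induction n using Nat.strong_induction_on with
    | _ n ih =>
      intro i hi
      have h2 : g i ≤ (g i ⊓ (⨆ k, ⨆ _ : e k < e i, g k)ᶜ) ⊔ (⨆ k, ⨆ _ : e k < e i, g k) := by
        rw [sup_inf_right, compl_sup_eq_top, inf_top_eq]
        exact le_sup_left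
      refine h2.trans (sup_le (le_iSup (fun i => g i ⊓ (⨆ k, ⨆ _ : e k < e i, g k)ᶜ) i) ?_)
      exact iSup₂_le fun k hk => ih (e k) (hi ▸ hk) k rfl

/-- names of paths -/
private theorem bair_path {ι : Type} [Countable ι] (u : B) (V : ι → B) (r : ι)
    (st : ℕ → ι → ι → B) (h0 : u ≤ V r) (h1 : ∀ i s s', st i s s' ≤ V s')
    (h2 : ∀ i s, u ⊓ V s ≤ ⨆ s', st i s s') :
    ∃ sg : ℕ → ι → B, (∀ i, ⨆ s, sg i s = u) ∧ (∀ i s t, s ≠ t → sg i s ⊓ sg i t = ⊥) ∧
      (∀ i s, sg i s ≤ V s) ∧ ∀ i s', sg (i + 1) s' ≤ ⨆ s, sg i s ⊓ st i s s' := by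
  classical
  choose h hh1 hh2 hh3 using fun (i : ℕ) (s : ι) => bair_dis (st i s)
  let sg : ℕ → ι → B := fun n => Nat.rec (fun s => if s = r then u else ⊥)
    (fun i g s' => ⨆ s, g s ⊓ h i s s') n
  have hz : ∀ s, sg 0 s = if s = r then u else ⊥ := fun s => rfl
  have hs : ∀ i s', sg (i + 1) s' = ⨆ s, sg i s ⊓ h i s s' := fun i s' => rfl
  have hV : ∀ i s, sg i s ≤ V s := by
    intro i s
    cases i with
    | zero =>
      rw [hz]
      split_ifs with h'
      · rw [h']; exact h0
      · exact bot_le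
    | succ i =>
      rw [hs]
      exact iSup_le fun t => inf_le_right.trans ((hh1 i t s).trans (h1 i t s))
  refine ⟨sg, ?_, ?_, hV, ?_⟩
  · intro i
    induction i with
    | zero =>
      refine le_antisymm (iSup_le fun s => ?_) ?_
      · rw [hz]
        split_ifs
        · exact le_rfl
        · exact bot_le
      · refine le_trans ?_ (le_iSup (sg 0) r)
        rw [hz, if_pos rfl]
    | succ i ih =>
      refine le_antisymm (iSup_le fun s' => ?_) ?_
      · rw [hs]
        refine iSup_le fun s => inf_le_left.trans ?_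
        rw [← ih]
        exact le_iSup (sg i) s
      · rw [← ih]
        refine iSup_le fun s => ?_
        have h3 : sg i s ≤ ⨆ s', h i s s' := by
          refine le_trans ?_ ((h2 i s).trans (hh3 i s))
          refine le_inf ?_ (hV i s)
          rw [← ih]
          exact le_iSup (sg i) s
        calc sg i s = sg i s ⊓ ⨆ s', h i s s' := (inf_eq_left.2 h3).symm
          _ = ⨆ s', sg i s ⊓ h i s s' := inf_iSup_eq _ _
          _ ≤ ⨆ s', sg (i + 1) s' := by
            refine iSup_mono fun s' => ?_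
            rw [hs]
            exact le_iSup (fun s => sg i s ⊓ h i s s') s
  · intro i
    induction i with
    | zero =>
      intro s t hst
      rw [hz, hz]
      by_cases h' : s = r
      · have h'' : ¬ t = r := fun h'' => hst (h'.trans h''.symm)
        rw [if_neg h'']
        exact inf_bot_eq _
      · rw [if_neg h']
        exact bot_inf_eq _
    | succ i ih =>
      intro s t hst
      rw [hs, hs, iSup_inf_eq]
      refine le_bot_iff.1 (iSup_le fun p => ?_)
      rw [inf_iSup_eq]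
      refine iSup_le fun q => ?_
      by_cases hpq : p = q
      · subst hpq
        rw [← hh2 i p s t hst]
        exact inf_le_inf inf_le_right inf_le_right
      · rw [← ih p q hpq]
        exact inf_le_inf inf_le_left inf_le_left
  · intro i s'
    rw [hs]
    exact iSup_mono fun s => inf_le_inf_left _ (hh1 i s s')

/-- nodes of the full tree -/
private abbrev BNd : Type := {s : ℕ × Finset ℕ // s.2 ⊆ Finset.range s.1}

/-- `t` extends `s` -/
private def BExt (s t : BNd) : Prop := s.1.1 ≤ t.1.1 ∧ t.1.2 ∩ Finset.range s.1.1 = s.1.2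

private theorem BExt.rfl' (s : BNd) : BExt s s :=
  ⟨le_rfl, Finset.inter_eq_left.2 s.2⟩

private theorem BExt.trans' {s t r : BNd} (h1 : BExt s t) (h2 : BExt t r) : BExt s r := by
  refine ⟨h1.1.trans h2.1, ?_⟩
  have h3 := h1.2
  rw [← h2.2, Finset.inter_assoc] at h3
  rw [← h3]
  congr 1
  exact (Finset.inter_eq_right.2 (Finset.range_subset_range.2 h1.1)).symm

/-- restriction of a node of a decreasing tree -/
private theorem bair_dec {T : ℕ → Finset ℕ → B} (hT : DecT T) (n : ℕ) :
    ∀ m, n ≤ m → ∀ b : Finset ℕ, b ⊆ Finset.range m → T m b ≤ T n (b ∩ Finset.range n) := by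
  intro m hm
  induction m, hm using Nat.le_induction with
  | base =>
    intro b hb
    rw [Finset.inter_eq_left.2 hb]
  | succ m hm ih =>
    intro b hb
    refine (hT m b).trans ?_
    have h1 : b.erase m ⊆ Finset.range m := by
      intro r hr
      rw [Finset.mem_erase] at hr
      have h2 := Finset.mem_range.1 (hb hr.2)
      rw [Finset.mem_range]
      omega
    have h2 : b.erase m ∩ Finset.range n = b ∩ Finset.range n := by
      ext r
      simp only [Finset.mem_inter, Finset.mem_erase, Finset.mem_range]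
      constructor
      · rintro ⟨⟨-, h3⟩, h4⟩
        exact ⟨h3, h4⟩
      · rintro ⟨h3, h4⟩
        exact ⟨⟨by omega, h3⟩, h4⟩
    rw [← h2]
    exact ih _ h1

/-- a cut is below the value -/
private theorem bair_cut_pos (x : Rl B) (n : ℕ) (a : Finset ℕ) (r : ℕ) (hr : r < n) (h : r ∈ a) :
    cutV x n a ≤ x r := by
  unfold cutV
  refine (iInf_le _ (⟨r, hr⟩ : Fin n)).trans ?_
  simp only
  rw [if_pos h]

private theorem bair_cut_neg (x : Rl B) (n : ℕ) (a : Finset ℕ) (r : ℕ) (hr : r < n) (h : r ∉ a) :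
    cutV x n a ≤ (x r)ᶜ := by
  unfold cutV
  refine (iInf_le _ (⟨r, hr⟩ : Fin n)).trans ?_
  simp only
  rw [if_neg h]

/-- two compatible cuts -/
private theorem bair_cut (x : Rl B) (n m : ℕ) (a b : Finset ℕ) (hnm : n ≤ m)
    (ha : a ⊆ Finset.range n) (h : b ∩ Finset.range n ≠ a) : cutV x m b ⊓ cutV x n a = ⊥ := by
  have h1 : ∃ r, r < n ∧ ¬ (r ∈ a ↔ r ∈ b) := by
    by_contra hcon
    push Not at hcon
    apply h
    ext r
    simp only [Finset.mem_inter, Finset.mem_range]
    constructor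
    · rintro ⟨h2, h3⟩
      exact (hcon r h3).2 h2
    · intro h2
      have h3 := Finset.mem_range.1 (ha h2)
      exact ⟨(hcon r h3).1 h2, h3⟩
  obtain ⟨r, hr, hne⟩ := h1
  refine le_bot_iff.1 ?_
  by_cases h2 : r ∈ a
  · have h3 : r ∉ b := fun h3 => hne ⟨fun _ => h3, fun _ => h2⟩
    calc _ ≤ (x r)ᶜ ⊓ x r := inf_le_inf (bair_cut_neg x m b r (by omega) h3)
          (bair_cut_pos x n a r hr h2)
      _ = ⊥ := compl_inf_self _
  · have h3 : r ∈ b := by
      by_contra h3
      exact hne ⟨fun h4 => absurd h4 h2, fun h4 => absurd h4 h3⟩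
    calc _ ≤ x r ⊓ (x r)ᶜ := inf_le_inf (bair_cut_pos x m b r (by omega) h3)
          (bair_cut_neg x n a r hr h2)
      _ = ⊥ := inf_compl_self _

/-- the bits are beyond `n` -/
private theorem bair_bits (n j m : ℕ) (hn : 1 ≤ n) (h : bits n j ⊆ Finset.range m) : n < m := by
  have h1 : Nat.pair n (Nat.pair j 0) ∈ bits n j := by
    unfold bits
    exact Finset.mem_image.2 ⟨0, Finset.mem_range.2 (by omega), rfl⟩
  have h2 := Finset.mem_range.1 (h h1)
  exact lt_of_le_of_lt (Nat.left_le_pair _ _) h2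

/-- the complement of `missV` -/
private theorem bair_miss (T : ℕ → Finset ℕ → B) (c : Fu B) (n : ℕ) (a : Finset ℕ) (m : ℕ) :
    (missV T c n a m)ᶜ = ⨆ n' : ℕ, ⨆ _ : m ≤ n', ⨆ j : ℕ, ⨆ m' : ℕ, ⨆ b : Finset ℕ,
      ⨆ _ : n ≤ m' ∧ b ⊆ Finset.range m' ∧ b ∩ Finset.range n = a ∧ bits n' j ⊆ Finset.range m' ∧
        Disjoint b (bits n' j), c.f n' j ⊓ T m' b := by
  unfold missV
  simp only [compl_iInf, compl_himp, compl_compl]
  refine iSup_congr fun n' => iSup_congr fun _ => iSup_congr fun j => iSup_congr fun m' =>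
    iSup_congr fun b => iSup_congr fun _ => ?_
  rw [_root_.sdiff_eq, compl_compl]

end

/-- Baire argument for names -/
theorem bairStm : BairStm.{u} := by
  intro B _ c N d T hN hT hT0 hTd
  set R : B := ⨆ n : ℕ, ⨆ a : Finset ℕ, ⨆ _ : a ⊆ Finset.range n, ⨆ m : ℕ,
      T n a ⊓ missV T c n a m with hR
  set u : B := (⨅ x, N.mem x ⇨ d.mem x) ⊓ Rᶜ with hu
  suffices H : u = ⊥ by
    rw [hu] at H
    rw [← compl_compl R, le_compl_iff_disjoint_right, disjoint_iff]
    exact H
  -- the steps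
  let st : ℕ → BNd → BNd → B := fun i s s' => ⨆ n' : ℕ, ⨆ j : ℕ,
    ⨆ _ : i + 1 ≤ n' ∧ BExt s s' ∧ bits n' j ⊆ Finset.range s'.1.1 ∧ Disjoint s'.1.2 (bits n' j),
      c.f n' j ⊓ T s'.1.1 s'.1.2
  obtain ⟨sg, hs1, hs2, hs3, hs4⟩ := bair_path u (fun s : BNd => T s.1.1 s.1.2)
    ⟨(0, ∅), by simp⟩ st (by
      show u ≤ T 0 ∅
      rw [hT0]
      exact le_top) (by
      intro i s s'
      exact iSup_le fun n' => iSup_le fun j => iSup_le fun _ => inf_le_right) (by
      rintro i ⟨⟨n, a⟩, ha⟩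
      have h1 : u ⊓ T n a ≤ (missV T c n a (i + 1))ᶜ := by
        have h2 : T n a ⊓ missV T c n a (i + 1) ≤ R := by
          rw [hR]
          exact le_iSup_of_le n (le_iSup_of_le a (le_iSup_of_le ha
            (le_iSup_of_le (i + 1) le_rfl)))
        rw [le_compl_iff_disjoint_right, disjoint_iff]
        refine le_bot_iff.1 ?_
        calc u ⊓ T n a ⊓ missV T c n a (i + 1)
            = u ⊓ (T n a ⊓ missV T c n a (i + 1)) := inf_assoc _ _ _
          _ ≤ Rᶜ ⊓ R := inf_le_inf inf_le_right h2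
          _ = ⊥ := compl_inf_self _
      refine h1.trans ?_
      rw [bair_miss]
      refine iSup_le fun n' => iSup_le fun hn' => iSup_le fun j => iSup_le fun m' =>
        iSup_le fun b => iSup_le fun h => ?_
      obtain ⟨h2, h3, h4, h5, h6⟩ := h
      refine le_iSup_of_le (⟨(m', b), h3⟩ : BNd) ?_
      exact le_iSup_of_le n' (le_iSup_of_le j (le_iSup_of_le ⟨hn', ⟨h2, h4⟩, h5, h6⟩ le_rfl)))
  -- the predecessors
  have hst : ∀ i s s', ¬ BExt s s' → st i s s' = ⊥ := by
    intro i s s' h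
    refine le_bot_iff.1 (iSup_le fun n' => iSup_le fun j => iSup_le fun h' => ?_)
    exact absurd h'.2.1 h
  have hlev : ∀ i s, sg i s ≤ ⨆ _ : i ≤ s.1.1, (⊤ : B) := by
    intro i s'
    cases i with
    | zero => exact le_iSup_of_le (Nat.zero_le _) le_top
    | succ i =>
      refine (hs4 i s').trans (iSup_le fun s => inf_le_right.trans ?_)
      refine iSup_le fun n' => iSup_le fun j => iSup_le fun h' => ?_
      have h1 := bair_bits n' j _ (by omega) h'.2.2.1
      exact le_iSup_of_le (by omega) le_top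
  have hpre : ∀ i i', i ≤ i' → ∀ s', sg i' s' ≤ ⨆ s, ⨆ _ : BExt s s', sg i s := by
    intro i i' h
    induction i', h using Nat.le_induction with
    | base =>
      intro s'
      exact le_iSup_of_le s' (le_iSup_of_le (BExt.rfl' s') le_rfl)
    | succ i' h ih =>
      intro s'
      refine (hs4 i' s').trans (iSup_le fun t => ?_)
      by_cases ht : BExt t s'
      · refine inf_le_left.trans ((ih t).trans (iSup_le fun s => iSup_le fun hs => ?_))
        exact le_iSup_of_le s (le_iSup_of_le (hs.trans' ht) le_rfl)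
      · rw [hst _ _ _ ht, inf_bot_eq]
        exact bot_le
  -- incompatible nodes
  have hinc : ∀ i i', i ≤ i' → ∀ s s', ¬ BExt s s' → sg i s ⊓ sg i' s' = ⊥ := by
    intro i i' h s s' hss
    refine le_bot_iff.1 ((inf_le_inf_left _ (hpre i i' h s')).trans ?_)
    rw [inf_iSup_eq]
    refine iSup_le fun t => ?_
    rw [inf_iSup_eq]
    refine iSup_le fun ht => ?_
    have hne : s ≠ t := by
      rintro rfl
      exact hss ht
    exact (hs2 i s t hne).le
  let x : Rl B := fun r => ⨆ i : ℕ, ⨆ s : BNd, ⨆ _ : r ∈ s.1.2, sg i s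
  have hcut : ∀ i s, sg i s ≤ cutV x s.1.1 s.1.2 := by
    intro i s
    refine le_iInf fun r => ?_
    by_cases hr : (r : ℕ) ∈ s.1.2
    · rw [if_pos hr]
      exact le_iSup_of_le i (le_iSup_of_le s (le_iSup_of_le hr le_rfl))
    · rw [if_neg hr, le_compl_iff_disjoint_right, disjoint_iff]
      refine le_bot_iff.1 ?_
      show sg i s ⊓ (⨆ i : ℕ, ⨆ s : BNd, ⨆ _ : (r : ℕ) ∈ s.1.2, sg i s) ≤ ⊥
      rw [inf_iSup_eq]
      refine iSup_le fun i' => ?_
      rw [inf_iSup_eq]
      refine iSup_le fun s' => ?_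
      rw [inf_iSup_eq]
      refine iSup_le fun hr' => ?_
      rcases le_total i i' with h | h
      · refine (hinc i i' h s s' ?_).le
        rintro ⟨-, h2⟩
        apply hr
        rw [← h2]
        exact Finset.mem_inter.2 ⟨hr', Finset.mem_range.2 r.2⟩
      · rw [inf_comm]
        refine (hinc i' i h s' s ?_).le
        rintro ⟨-, h2⟩
        apply hr
        rw [← h2] at hr'
        exact (Finset.mem_inter.1 hr').1
  -- the real is in `N`
  have hA : u ≤ N.mem x := by
    refine le_iInf fun k => ?_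
    rw [← hs1 (k + 1)]
    refine iSup_le fun s' => ?_
    refine le_iSup_of_le s'.1.1 (le_iSup_of_le s'.1.2 (le_iSup_of_le s'.2 (le_inf ?_ (hcut _ _))))
    rw [hN k _ _ s'.2]
    refine (hs4 k s').trans (iSup_le fun s => inf_le_right.trans ?_)
    refine iSup_le fun n' => iSup_le fun j => iSup_le fun h' => inf_le_left.trans ?_
    exact le_iSup_of_le n' (le_iSup_of_le j (le_iSup_of_le
      ⟨by omega, h'.2.2.1, h'.2.2.2⟩ le_rfl))
  -- the real is not in the first open set of `d`
  have hB : u ⊓ (d.U 1).mem x = ⊥ := by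
    refine le_bot_iff.1 ?_
    unfold OpnC.mem
    rw [inf_iSup_eq]
    refine iSup_le fun n => ?_
    rw [inf_iSup_eq]
    refine iSup_le fun a => ?_
    rw [inf_iSup_eq]
    refine iSup_le fun ha => ?_
    rw [← hs1 n, iSup_inf_eq]
    refine iSup_le fun s' => ?_
    by_cases hl : n ≤ s'.1.1
    · by_cases hb : s'.1.2 ∩ Finset.range n = a
      · have h1 : sg n s' ≤ ((d.U 1).O n a)ᶜ := by
          refine (hs3 n s').trans ((bair_dec hT n _ hl _ s'.2).trans ?_)
          rw [hb]
          exact hTd n a ha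
        calc _ ≤ ((d.U 1).O n a)ᶜ ⊓ (d.U 1).O n a := inf_le_inf h1 inf_le_left
          _ = ⊥ := compl_inf_self _
      · calc _ ≤ cutV x s'.1.1 s'.1.2 ⊓ cutV x n a := inf_le_inf (hcut n s') inf_le_right
          _ = ⊥ := bair_cut x n _ a _ hl ha hb
    · refine inf_le_left.trans ((hlev n s').trans ?_)
      exact iSup_le fun h => absurd h hl
  have hC : u ≤ d.mem x := by
    have h1 : u ≤ N.mem x ⇨ d.mem x := inf_le_left.trans (iInf_le _ x)
    calc u ≤ (N.mem x ⇨ d.mem x) ⊓ N.mem x := le_inf h1 hA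
      _ ≤ d.mem x := himp_inf_le
  have hD : u ≤ (d.U 1).mem x := hC.trans (iInf_le _ 1)
  rw [← hB]
  exact le_antisymm (le_inf le_rfl hD) inf_le_left

end CI
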