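import Pool.Agent.CI.C.Alg
import Mathlib.Data.W.Cardinal

/-!
# Project CI: closing off under operations on sequences

The closure is the set of values of a W-type of terms (a leaf for every point of `X`, and for
every label in a set of size `θ` a node with countably many children).
-/

set_option autoImplicit false

open Set Cardinal

namespace CI

namespace Clo

universe u

/-- arities of the terms -/
def Ar {B : Type u} (X : Set B) (Θ : Type u) : X ⊕ Θ → Type u
  | Sum.inl _ => PEmpty.{u + 1}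
  | Sum.inr _ => ULift.{u} ℕ

/-- value of a term -/
noncomputable def ev {B : Type u} (X : Set B) (Θ : Type u) (e : (ℕ → B) → Θ → B) :
    WType (Ar X Θ) → B
  | WType.mk (Sum.inl x) _ => (x : B)
  | WType.mk (Sum.inr i) f => e (fun n => ev X Θ e (f ⟨n⟩)) i

theorem mk_W {B : Type u} (X : Set B) (Θ : Type u) (θ : Cardinal.{u}) (hΘ : #Θ = θ)
    (h2 : 2 ≤ θ) (hω : θ ^ ℵ₀ = θ) (hX : #X ≤ θ) : #(WType (Ar X Θ)) ≤ θ := by
  have hinf : ℵ₀ ≤ θ := by
    rw [← hω]
    exact (Cardinal.cantor ℵ₀).le.trans (Cardinal.power_le_power_right h2)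
  apply WType.cardinalMk_le_of_le
  have h1 : ∀ a : X ⊕ Θ, θ ^ #(Ar X Θ a) ≤ θ := by
    rintro (x | i)
    · have h0 : #(Ar X Θ (Sum.inl x)) = 0 := by
        change #(PEmpty.{u + 1}) = 0
        simp
      rw [h0, Cardinal.power_zero]
      exact Cardinal.one_le_aleph0.trans hinf
    · have h0 : #(Ar X Θ (Sum.inr i)) = ℵ₀ := by
        change #(ULift.{u} ℕ) = ℵ₀
        simp
      rw [h0, hω]
  calc (sum fun a : X ⊕ Θ => θ ^ #(Ar X Θ a)) ≤ sum fun _ : X ⊕ Θ => θ :=
        Cardinal.sum_le_sum _ _ h1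
    _ = #(X ⊕ Θ) * θ := by simp
    _ ≤ θ * θ := by
        apply mul_le_mul' _ le_rfl
        rw [Cardinal.mk_sum, Cardinal.lift_id, Cardinal.lift_id, hΘ]
        exact (add_le_add hX le_rfl).trans (Cardinal.add_eq_self hinf).le
    _ = θ := Cardinal.mul_eq_self hinf

end Clo

universe u

theorem cloStm : CloStm.{u} := by
  intro B θ F S X h2 hω hF hFS hXS hX hne
  obtain ⟨x₀, hx₀⟩ := hne
  have hΘ : #(θ.out) = θ := Cardinal.mk_out θ
  -- enumerations of the sets `F z`
  have hen : ∀ z : ℕ → B, ∃ g : θ.out → B,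
      (∀ y ∈ F z, ∃ i, g i = y) ∧ ∀ i, g i ∈ F z ∨ g i = x₀ := by
    intro z
    by_cases hz : (F z).Nonempty
    · have : Nonempty (F z) := hz.to_subtype
      have hle : #(F z) ≤ #(θ.out) := by rw [hΘ]; exact hF z
      obtain ⟨j⟩ := Cardinal.le_def _ _ |>.1 hle
      refine ⟨fun i => (Function.invFun j i : F z), ?_, ?_⟩
      · intro y hy
        refine ⟨j ⟨y, hy⟩, ?_⟩
        exact congrArg Subtype.val (Function.leftInverse_invFun j.injective ⟨y, hy⟩)
      · intro i
        exact Or.inl (Function.invFun j i).2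
    · refine ⟨fun _ => x₀, ?_, fun _ => Or.inr rfl⟩
      intro y hy
      exact absurd ⟨y, hy⟩ hz
  choose e he1 he2 using hen
  refine ⟨range (Clo.ev X θ.out e), ?_, ?_, ?_, ?_⟩
  · intro x hx
    exact ⟨WType.mk (Sum.inl ⟨x, hx⟩) fun a => a.elim, rfl⟩
  · rintro _ ⟨t, rfl⟩
    induction t with
    | mk a f ih =>
      rcases a with x | i
      · exact hXS x.2
      · change e (fun n => Clo.ev X θ.out e (f ⟨n⟩)) i ∈ S
        rcases he2 (fun n => Clo.ev X θ.out e (f ⟨n⟩)) i with h | h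
        · exact hFS _ (fun n => ih ⟨n⟩) h
        · rw [h]
          exact hXS hx₀
  · exact Cardinal.mk_range_le.trans (Clo.mk_W X θ.out θ hΘ h2 hω hX)
  · intro z hz y hy
    choose t ht using hz
    obtain ⟨i, hi⟩ := he1 z y hy
    refine ⟨WType.mk (Sum.inr i) fun n => t n.down, ?_⟩
    change e (fun n => Clo.ev X θ.out e (t n)) i = y
    have h0 : (fun n => Clo.ev X θ.out e (t n)) = z := funext ht
    rw [h0, hi]

end CI
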