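import Pool.Agent.CI.C.CndStm

/-!
# Project CI, core: widths and order values
-/

set_option autoImplicit false

open Set

namespace CI

universe u

theorem kwStm : KwStm := by
  intro κ
  refine ⟨?_, ?_, ?_⟩
  · intro N M k
    cases κ
    case et =>
      show N * (k + 1) ^ N + M * (k + 1) ^ M ≤ (N + M) * (k + 1) ^ (N + M)
      have h1 : (k + 1) ^ N ≤ (k + 1) ^ (N + M) := Nat.pow_le_pow_right (by omega) (by omega)
      have h2 : (k + 1) ^ M ≤ (k + 1) ^ (N + M) := Nat.pow_le_pow_right (by omega) (by omega)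
      rw [add_mul]
      exact add_le_add (Nat.mul_le_mul_left _ h1) (Nat.mul_le_mul_left _ h2)
    all_goals exact le_rfl
  · intro k
    cases κ
    case et => exact Nat.zero_mul _
    all_goals rfl
  · intro N k s hN hs
    cases κ
    case loc =>
      obtain ⟨v, h1⟩ : ∃ v, fs v = s :=
        ⟨@Encodable.encode _ Denumerable.toEncodable s, Denumerable.ofNat_encode s⟩
      refine ⟨v, fun j hj => ?_⟩
      show j ∉ (if (fs v).card ≤ k then {j | j ∉ fs v} else univ : Set ℕ)
      rw [h1]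
      have h2 : s.card ≤ N := hs
      have h3 : 2 * N ≤ k := hN
      rw [if_pos (by omega)]
      exact fun h => h hj
    case hech =>
      refine ⟨s.sup id, fun j hj => ?_⟩
      show ¬ s.sup id < j
      exact not_lt.2 (Finset.le_sup (f := id) hj)
    case ev =>
      obtain ⟨v, hv⟩ := Infinite.exists_notMem_finset s
      refine ⟨v, fun j hj => ?_⟩
      show ¬ j = v
      rintro rfl
      exact hv hj
    case et =>
      obtain ⟨v, hv⟩ := Infinite.exists_notMem_finset s
      refine ⟨v, fun j hj => ?_⟩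
      show ¬ j = v
      rintro rfl
      exact hv hj
    all_goals exact ⟨0, fun j _ h => h⟩

/-! ### closure properties of `σ`-subalgebras -/

section

variable {B : Type u} [CompleteBooleanAlgebra B] {W : Set B}

private theorem cmpss_top (h : IsSS W) : (⊤ : B) ∈ W := by
  rw [← compl_bot]
  exact h.compl _ h.bot

private theorem cmpss_iInf (h : IsSS W) {f : ℕ → B} (hf : ∀ n, f n ∈ W) : ⨅ n, f n ∈ W := by
  have h1 : ⨅ n, f n = (⨆ n, (f n)ᶜ)ᶜ := by
    rw [compl_iSup]
    simp only [compl_compl]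
  rw [h1]
  exact h.compl _ (h.iSup _ fun n => h.compl _ (hf n))

private theorem cmpss_inf (h : IsSS W) {a b : B} (ha : a ∈ W) (hb : b ∈ W) : a ⊓ b ∈ W := by
  have h1 : a ⊓ b = ⨅ n : ℕ, if n = 0 then a else b := by
    apply le_antisymm
    · refine le_iInf fun n => ?_
      split_ifs
      · exact inf_le_left
      · exact inf_le_right
    · refine le_inf ?_ ?_
      · exact (iInf_le _ 0).trans (by rw [if_pos rfl])
      · exact (iInf_le _ 1).trans (by rw [if_neg one_ne_zero])
  rw [h1]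
  refine cmpss_iInf h fun n => ?_
  split_ifs
  · exact ha
  · exact hb

private theorem cmpss_sup (h : IsSS W) {a b : B} (ha : a ∈ W) (hb : b ∈ W) : a ⊔ b ∈ W := by
  rw [← compl_compl (a ⊔ b), compl_sup]
  exact h.compl _ (cmpss_inf h (h.compl _ ha) (h.compl _ hb))

private theorem cmpss_himp (h : IsSS W) {a b : B} (ha : a ∈ W) (hb : b ∈ W) : a ⇨ b ∈ W := by
  rw [himp_eq]
  exact cmpss_sup h hb (h.compl _ ha)

private theorem cmpss_iInfP (h : IsSS W) {p : Prop} {f : p → B} (hf : ∀ hp, f hp ∈ W) :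
    ⨅ hp, f hp ∈ W := by
  by_cases hp : p
  · rw [iInf_pos hp]
    exact hf hp
  · rw [iInf_neg hp]
    exact cmpss_top h

private theorem cmpss_iInfD (h : IsSS W) {α : Type} [Denumerable α] {f : α → B} (hf : ∀ n, f n ∈ W) :
    ⨅ n, f n ∈ W := by
  rw [← (Denumerable.eqv α).symm.surjective.iInf_comp]
  exact cmpss_iInf h fun n => hf _

end

private theorem cmp_at_pre {t t' : List ℕ} (h : t <+: t') {k : ℕ} (hk : k < t.length) :
    at' t' k = at' t k := by
  obtain ⟨r, rfl⟩ := h
  unfold at'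
  rw [List.getD_append _ _ _ _ hk]

theorem sCmpStm : SCmpStm.{u} := by
  intro B _ W κ hW c d e
  refine ⟨?_, ?_, ?_⟩
  · unfold CndS.cmp
    rw [if_pos (List.prefix_refl _)]
    refine le_antisymm le_top (le_inf ?_ ?_)
    · refine le_iInf fun k => le_iInf fun j => ?_
      rw [himp_self]
    · refine le_iInf fun k => le_iInf fun hk => ?_
      exact absurd hk.2 (not_lt.2 hk.1)
  · by_cases h1 : d.t <+: e.t
    · by_cases h2 : c.t <+: d.t
      · have h3 : c.t <+: e.t := h2.trans h1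
        unfold CndS.cmp
        rw [if_pos h1, if_pos h2, if_pos h3]
        have i1 : ∀ k j, ((⨅ k, ⨅ j, d.f k j ⇨ e.f k j) ⊓
            ⨅ k : ℕ, ⨅ _ : d.t.length ≤ k ∧ k < e.t.length, ⨅ j : ℕ,
              ⨅ _ : j ∈ κ.Bad k (at' e.t k), (d.f k j)ᶜ) ⊓
            ((⨅ k, ⨅ j, c.f k j ⇨ d.f k j) ⊓
            ⨅ k : ℕ, ⨅ _ : c.t.length ≤ k ∧ k < d.t.length, ⨅ j : ℕ,
              ⨅ _ : j ∈ κ.Bad k (at' d.t k), (c.f k j)ᶜ) ≤
            (c.f k j ⇨ d.f k j) := fun k j =>
          inf_le_right.trans (inf_le_left.trans ((iInf_le _ k).trans (iInf_le _ j)))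
        have i2 : ∀ k j, ((⨅ k, ⨅ j, d.f k j ⇨ e.f k j) ⊓
            ⨅ k : ℕ, ⨅ _ : d.t.length ≤ k ∧ k < e.t.length, ⨅ j : ℕ,
              ⨅ _ : j ∈ κ.Bad k (at' e.t k), (d.f k j)ᶜ) ⊓
            ((⨅ k, ⨅ j, c.f k j ⇨ d.f k j) ⊓
            ⨅ k : ℕ, ⨅ _ : c.t.length ≤ k ∧ k < d.t.length, ⨅ j : ℕ,
              ⨅ _ : j ∈ κ.Bad k (at' d.t k), (c.f k j)ᶜ) ≤
            (d.f k j ⇨ e.f k j) := fun k j =>
          inf_le_left.trans (inf_le_left.trans ((iInf_le _ k).trans (iInf_le _ j)))
        refine le_inf ?_ ?_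
        · refine le_iInf fun k => le_iInf fun j => ?_
          exact (le_inf (i1 k j) (i2 k j)).trans (himp_triangle _ _ _)
        · refine le_iInf fun k => le_iInf fun hk => le_iInf fun j => le_iInf fun hj => ?_
          by_cases hkd : k < d.t.length
          · have hj' : j ∈ κ.Bad k (at' d.t k) := by
              rw [← cmp_at_pre h1 hkd]
              exact hj
            exact inf_le_right.trans (inf_le_right.trans ((iInf_le _ k).trans
              ((iInf_le _ ⟨hk.1, hkd⟩).trans ((iInf_le _ j).trans (iInf_le _ hj')))))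
          · have i3 : ((⨅ k, ⨅ j, d.f k j ⇨ e.f k j) ⊓
                ⨅ k : ℕ, ⨅ _ : d.t.length ≤ k ∧ k < e.t.length, ⨅ j : ℕ,
                  ⨅ _ : j ∈ κ.Bad k (at' e.t k), (d.f k j)ᶜ) ⊓
                ((⨅ k, ⨅ j, c.f k j ⇨ d.f k j) ⊓
                ⨅ k : ℕ, ⨅ _ : c.t.length ≤ k ∧ k < d.t.length, ⨅ j : ℕ,
                  ⨅ _ : j ∈ κ.Bad k (at' d.t k), (c.f k j)ᶜ) ≤ (d.f k j)ᶜ :=
              inf_le_left.trans (inf_le_right.trans ((iInf_le _ k).trans
                ((iInf_le _ ⟨not_lt.1 hkd, hk.2⟩).trans ((iInf_le _ j).trans (iInf_le _ hj)))))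
            have i4 := le_inf (i1 k j) i3
            refine i4.trans ?_
            rw [← himp_bot, ← himp_bot]
            exact himp_triangle _ _ _
      · have : d.cmp c = ⊥ := if_neg h2
        rw [this, inf_bot_eq]
        exact bot_le
    · have : e.cmp d = ⊥ := if_neg h1
      rw [this, bot_inf_eq]
      exact bot_le
  · unfold CndS.cmp
    split_ifs
    · refine cmpss_inf hW ?_ ?_
      · exact cmpss_iInf hW fun k => cmpss_iInf hW fun j => cmpss_himp hW (d.mem k j) (c.mem k j)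
      · exact cmpss_iInf hW fun k => cmpss_iInfP hW fun _ => cmpss_iInf hW fun j => cmpss_iInfP hW fun _ =>
          hW.compl _ (d.mem k j)
    · exact hW.bot

theorem rCmpStm : RCmpStm.{u} := by
  intro B _ W hW c d e
  refine ⟨?_, ?_, ?_⟩
  · unfold CndR.cmp
    refine le_antisymm le_top (le_iInf fun n => le_iInf fun a => le_iInf fun _ => ?_)
    rw [himp_self]
  · unfold CndR.cmp
    refine le_iInf fun n => le_iInf fun a => le_iInf fun ha => ?_
    refine le_trans (le_inf ?_ ?_) (himp_triangle (e.τ n a) (d.τ n a) (c.τ n a))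
    · exact inf_le_left.trans ((iInf_le _ n).trans ((iInf_le _ a).trans (iInf_le _ ha)))
    · exact inf_le_right.trans ((iInf_le _ n).trans ((iInf_le _ a).trans (iInf_le _ ha)))
  · unfold CndR.cmp
    exact cmpss_iInf hW fun n => cmpss_iInfD hW fun a => cmpss_iInfP hW fun _ => cmpss_himp hW (c.mem n a) (d.mem n a)

end CI
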