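import Pool.Agent.CI.C.LowStm

/-!
# Project CI, core: the core statement from its parts
-/

set_option autoImplicit false

open Set Cardinal Pool.Agent.CL

namespace CI

theorem core_of (h1 : CrdStm.{0}) (h2 : MdlStm.{0}) (h3 : LowStm.{0}) (h4 : UppStm.{0})
    (h5 : CccStm.{0}) : CoreStatement := by
  obtain ⟨l, th, hc⟩ := h1
  obtain ⟨m⟩ := h2 l th hc
  let _ := m.iK
  let _ := m.iL
  let _ := m.wK
  have hL := h3 l th m hc
  have hU := h4 l th m hc
  refine ⟨BB m.S.D, inferInstance, l, ?_⟩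
  refine
    { nontriv := ?_
      ccc := h5 m.K m.Λ m.L m.S
      aleph := hc.zero
      lt := hc.lt
      addN_ge := hL.addN_ge
      addN_le := hU.addN_le
      b_ge := hL.b_ge
      b_le := hU.b_le
      covN_ge := hL.covN_ge
      covN_le := hU.covN_le
      nonE_ge := hL.nonE_ge
      nonE_le := hU.nonE_le
      nonM_ge := hL.nonM_ge
      nonM_le := hL.nonM_le
      covM_ge := hL.covM_ge
      covM_le := hL.covM_le
      covE_ge := hU.covE_ge
      nonN_ge := hU.nonN_ge
      d_ge := hU.d_ge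
      c_le := ?_ }
  · intro h
    exact ee_ne_bot (D := m.S.D) PF.nil (le_bot_iff.1 (h ▸ le_top))
  · have h7 : #(BB m.S.D) ^ ℵ₀ ≤ l 7 := by
      have h6 : ℵ₀ ≤ l 6 := by
        have h0 : ℵ₁ < l 6 := hc.zero ▸ hc.lt 0 6 (by decide)
        exact (Cardinal.aleph0_le_aleph 1).trans h0.le
      have h70 : l 7 ≠ 0 := by
        have := hc.lt 0 7 (by decide)
        intro h
        rw [h] at this
        exact not_lt_bot this
      calc #(BB m.S.D) ^ ℵ₀ ≤ l 7 ^ ℵ₀ := Cardinal.power_le_power_right m.sz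
        _ ≤ l 7 ^ l 6 := Cardinal.power_le_power_left h70 h6
        _ = l 7 := hc.pow
    have : #(ℕ → BB m.S.D) = #(BB m.S.D) ^ ℵ₀ := by
      simp
    rw [this]
    exact h7

end CI
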