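import Pool.Agent.CI.C.LowStm

/-!
# Project CI, core: the Cohen reals avoid the nowhere dense sets of smaller memory
-/

set_option autoImplicit false

open Set Cardinal Pool.Agent.CL

namespace CI

universe u

section

variable {B : Type u} [CompleteBooleanAlgebra B]

private theorem cov_cutV_disj (x : Rl B) (m : ℕ) {a b : Finset ℕ} (ha : a ⊆ Finset.range m)
    (hb : b ⊆ Finset.range m) (h : a ≠ b) : cutV x m a ⊓ cutV x m b = ⊥ := by
  obtain ⟨k, hk⟩ : ∃ k, ¬(k ∈ a ↔ k ∈ b) := by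
    by_contra hc
    push Not at hc
    exact h (Finset.ext hc)
  have key : ∀ c d : Finset ℕ, c ⊆ Finset.range m → k ∈ c → k ∉ d →
      cutV x m c ⊓ cutV x m d = ⊥ := by
    intro c d hc hkc hkd
    have hkm : k < m := Finset.mem_range.1 (hc hkc)
    have h1 : cutV x m c ≤ x k := by
      refine (iInf_le _ (⟨k, hkm⟩ : Fin m)).trans ?_
      rw [if_pos hkc]
    have h2 : cutV x m d ≤ (x k)ᶜ := by
      refine (iInf_le _ (⟨k, hkm⟩ : Fin m)).trans ?_
      rw [if_neg hkd]
    exact le_bot_iff.1 ((inf_le_inf h1 h2).trans (inf_compl_self _).le)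
  by_cases h1 : k ∈ a
  · exact key a b ha h1 fun h2 => hk ⟨fun _ => h2, fun _ => h1⟩
  · have h2 : k ∈ b := by
      by_contra h2
      exact hk ⟨fun h3 => absurd h3 h1, fun h3 => absurd h3 h2⟩
    rw [inf_comm]
    exact key b a hb h2 h1

private theorem cov_mem (F : CloC B) (x : Rl B) {m : ℕ} {b : Finset ℕ}
    (hb : b ⊆ Finset.range m) : F.mem x ⊓ cutV x m b ≤ F.T m b := by
  have h0 : F.mem x ≤ ⨆ a : Finset ℕ, ⨆ _ : a ⊆ Finset.range m, F.T m a ⊓ cutV x m a :=
    iInf_le _ m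
  refine (inf_le_inf_right _ h0).trans ?_
  rw [iSup_inf_eq]
  refine iSup_le fun a => ?_
  rw [iSup_inf_eq]
  refine iSup_le fun ha => ?_
  by_cases hab : a = b
  · subst hab
    exact inf_le_left.trans inf_le_left
  · rw [inf_assoc, cov_cutV_disj x m ha hb hab, inf_bot_eq]
    exact bot_le

end

private theorem cov_at_lt {s r : List ℕ} {k : ℕ} (h : k < s.length) : at' (s ++ r) k = at' s k := by
  unfold at'
  exact List.getD_append _ _ _ _ h

private theorem cov_at_ge {s : List ℕ} {m k : ℕ} (f : ℕ → ℕ) (h : s.length ≤ k) (hm : k < m) :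
    at' (s ++ (List.range' s.length (m - s.length)).map f) k = f k := by
  unfold at'
  rw [List.getD_append_right _ _ _ _ h]
  have h1 : k - s.length < m - s.length := by omega
  rw [List.getD_eq_getElem _ _ (by simpa using h1)]
  rw [List.getElem_map, List.getElem_range']
  congr 1
  omega

/-- the Cohen reals avoid the nowhere dense sets of smaller memory -/
theorem covStm (h1 : TrStm.{u}) (h2 : SZStm.{u}) (h3 : CohStm.{u}) (h4 : EeStm.{u})
    (h5 : GenStm.{u}) : CovStm.{u} := by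
  classical
  intro K Λ L _ _ S i Z hkd hZ hi F hF hN
  have hS : (S.kd i).isS := Or.inl hkd
  obtain ⟨g1, -, -, -, -, -, -⟩ := h5 K Λ L S i hS
  obtain ⟨t1, t2⟩ := h1 K Λ S.D Z hZ
  obtain ⟨z1, z2, -, z4, -, z6⟩ := h2 K Λ S.D Z hZ
  by_contra hne
  -- a condition with a label at `i`
  obtain ⟨p, c, hpc, hp⟩ : ∃ (p : PF K Λ) (c : Λ), p.f i = some c ∧
      ee S.D p ≤ F.mem (S.crl i) := by
    obtain ⟨p, hp⟩ := exists_ee_le hne
    rcases h : p.f i with _ | c
    · obtain ⟨c, -⟩ := (S.vS i hS).2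
        ⟨[], 0, fun _ _ => ⊥, fun _ _ => (S.ss i).bot, fun k s hs => by
          have h0 : s.Nonempty := Finset.card_pos.1 (by omega)
          exact Finset.inf_const h0 _, by rw [hkd]; exact le_rfl⟩
      refine ⟨p.upd i c, c, PF.upd_f_same _ _ _, ?_⟩
      rw [(h4 K Λ S.D).2.2.1 p i c h]
      exact inf_le_left.trans hp
    · exact ⟨p, c, h, hp⟩
  set s : List ℕ := S.st i c with hs
  set a : Finset ℕ := (Finset.range s.length).filter fun k => at' s k ≠ 0 with ha
  have ha' : a ⊆ Finset.range s.length := Finset.filter_subset _ _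
  -- a subcylinder
  obtain ⟨m, b, hb1, hb2, hb3, hV⟩ : ∃ (m : ℕ) (b : Finset ℕ), b ⊆ Finset.range m ∧
      s.length ≤ m ∧ b ∩ Finset.range s.length = a ∧
      ee S.D (p.res Z) ⊓ (F.T m b)ᶜ ≠ ⊥ := by
    by_contra hc
    push Not at hc
    have h6 : ee S.D (p.res Z) ⊓ (⨆ m : ℕ, ⨆ b : Finset ℕ, ⨆ _ : b ⊆ Finset.range m ∧
        s.length ≤ m ∧ b ∩ Finset.range s.length = a, (F.T m b)ᶜ) ≤ ⊥ := by
      rw [inf_iSup_eq]
      refine iSup_le fun m => ?_
      rw [inf_iSup_eq]
      refine iSup_le fun b => ?_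
      rw [inf_iSup_eq]
      refine iSup_le fun hb => ?_
      exact (hc m b hb.1 hb.2.1 hb.2.2).le
    rw [hN s.length a ha', inf_top_eq] at h6
    exact ee_ne_bot _ (le_bot_iff.1 h6)
  have hT : (F.T m b)ᶜ ∈ SZ S.D Z := z1.compl _ (hF m b)
  have hinf : ee S.D (p.res Z) ⊓ (F.T m b)ᶜ ∈ SZ S.D Z := by
    have e1 : ee S.D (p.res Z) ∈ SZ S.D Z := z2 _ (PF.dom_res_subset _ _)
    have e2 : ee S.D (p.res Z) ⊓ (F.T m b)ᶜ =
        (sSup {(ee S.D (p.res Z))ᶜ, F.T m b})ᶜ := by
      rw [sSup_pair, compl_sup, compl_compl]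
    rw [e2]
    refine z1.compl _ (z1.sSup _ ?_)
    rintro x (rfl | rfl)
    · exact z1.compl _ e1
    · exact hF m b
  obtain ⟨q, hq1, hq2⟩ := z4 _ hinf hV
  -- make `q` smaller than `p` on `Z`
  obtain ⟨r, hr1, hr2⟩ := ee_mem_iff.1 (ee_le_iff.1 (hq2.trans inf_le_left)) q
    (@le_rfl (PD S.D) _ q)
  have hq3 : @LE.le (PD S.D) _ (r.res Z) q := by
    have := t2 r q hr1
    rwa [PF.res_eq_self hq1] at this
  have hq4 : @LE.le (PD S.D) _ (r.res Z) (p.res Z) := by
    have := t2 r (p.res Z) hr2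
    rwa [PF.res_eq_self (PF.dom_res_subset _ _)] at this
  have hq5 : ee S.D (r.res Z) ≤ (F.T m b)ᶜ := (ee_mono hq3).trans (hq2.trans inf_le_right)
  have h7 := z6 _ hT p (r.res Z) (PF.dom_res_subset _ _) hq5 hq4
  set p1 : PF K Λ := (r.res Z).ov p with hp1
  have hp1i : p1.f i = some c := by
    rw [hp1, PF.ov_f_none (PF.res_f_of_notMem hi)]
    exact hpc
  -- a longer stem
  set t : List ℕ := s ++ (List.range' s.length (m - s.length)).map
    (fun k => if k ∈ b then 1 else 0) with ht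
  have htl : t.length = m := by
    rw [ht, List.length_append, List.length_map, List.length_range']
    omega
  obtain ⟨c', -, hc2, hc3⟩ := h3 K Λ L S i hkd p1 c t hp1i (List.prefix_append _ _)
  have hat : ∀ k, k < m → (at' t k ≠ 0 ↔ k ∈ b) := by
    intro k hk
    by_cases h8 : k < s.length
    · rw [ht, cov_at_lt h8]
      constructor
      · intro h9
        have h10 : k ∈ a := Finset.mem_filter.2 ⟨Finset.mem_range.2 h8, h9⟩
        rw [← hb3] at h10
        exact (Finset.mem_inter.1 h10).1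
      · intro h9
        have h10 : k ∈ a := by
          rw [← hb3]
          exact Finset.mem_inter.2 ⟨h9, Finset.mem_range.2 h8⟩
        exact (Finset.mem_filter.1 h10).2
    · rw [ht, cov_at_ge _ (not_lt.1 h8) hk]
      by_cases h9 : k ∈ b <;> simp [h9]
  have hcut : ee S.D (p1.upd i c') ≤ cutV (S.crl i) m b := by
    refine le_iInf fun k => ?_
    have h8 := hc3 k (by rw [htl]; exact k.2)
    by_cases h9 : (k : ℕ) ∈ b
    · rw [if_pos h9]
      show ee S.D (p1.upd i c') ≤ (S.gen i k 0)ᶜ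
      rw [le_compl_iff_disjoint_right, disjoint_iff]
      refine le_bot_iff.1 ((inf_le_inf_right _ h8).trans ?_)
      rw [g1 k _ 0 ((hat k k.2).2 h9)]
    · rw [if_neg h9]
      show ee S.D (p1.upd i c') ≤ ((S.gen i k 0)ᶜ)ᶜ
      rw [compl_compl]
      have h10 : at' t k = 0 := by
        by_contra h10
        exact h9 ((hat k k.2).1 h10)
      rwa [h10] at h8
  have hF1 : ee S.D (p1.upd i c') ≤ F.mem (S.crl i) :=
    hc2.trans ((h7.trans inf_le_right).trans hp)
  have hF2 : ee S.D (p1.upd i c') ≤ F.T m b := (le_inf hF1 hcut).trans (cov_mem F _ hb1)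
  have hF3 : ee S.D (p1.upd i c') ≤ (F.T m b)ᶜ := hc2.trans (h7.trans inf_le_left)
  exact ee_ne_bot _ (le_bot_iff.1 ((le_inf hF2 hF3).trans (inf_compl_self _).le))

end CI
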