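import Pool.Agent.CI.C.Alg

/-!
# Project CI, core: the cardinals
-/

set_option autoImplicit false

open Set Cardinal

namespace CI

universe u

/-- the thresholds: `𝔠`, then `2 ^ (previous)⁺` -/
noncomputable def crdT : ℕ → Cardinal.{u}
  | 0 => 𝔠
  | n + 1 => 2 ^ Order.succ (crdT n)

theorem crdT_lt (n : ℕ) : Order.succ (crdT.{u} n) < crdT.{u} (n + 1) := cantor _

theorem crdT_inf (n : ℕ) : ℵ₀ ≤ crdT.{u} n := by
  induction n with
  | zero => exact aleph0_le_continuum
  | succ n ih => exact ih.trans ((Order.le_succ _).trans (crdT_lt n).le)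

theorem crdT_mono : Monotone crdT.{u} :=
  monotone_nat_of_le_succ fun n => (Order.le_succ _).trans (crdT_lt n).le

theorem crdT_ct (n : ℕ) : crdT.{u} n ^ ℵ₀ = crdT.{u} n := by
  cases n with
  | zero => exact continuum_power_aleph0
  | succ n =>
    show (2 ^ Order.succ (crdT.{u} n)) ^ ℵ₀ = 2 ^ Order.succ (crdT.{u} n)
    rw [← power_mul, mul_aleph0_eq ((crdT_inf n).trans (Order.le_succ _))]

/-- the values -/
noncomputable def crdL (n : ℕ) : Cardinal.{u} :=
  if n = 0 then ℵ₁ else if n = 7 then crdT 6 else Order.succ (crdT (n - 1))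

theorem crdL_mid {n : ℕ} (h : n ≠ 0) (h' : n ≠ 7) :
    crdL.{u} n = Order.succ (crdT.{u} (n - 1)) := by
  unfold crdL
  rw [if_neg h, if_neg h']

theorem crdL_le {i j : ℕ} (h1 : 1 ≤ i) (h : i < j) (h7 : j ≤ 7) :
    crdL.{u} i ≤ crdT.{u} (j - 1) := by
  rw [crdL_mid (by omega) (by omega)]
  have h2 := crdT_lt.{u} (i - 1)
  exact h2.le.trans (crdT_mono (by omega))

theorem crdL_lt {i j : ℕ} (h : i < j) (h7 : j ≤ 7) : crdL.{u} i < crdL.{u} j := by
  have key : ∀ n, 1 ≤ n → n ≤ 7 → crdT.{u} (n - 1) ≤ crdL.{u} n := by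
    intro n hn hn7
    by_cases h8 : n = 7
    · subst h8
      unfold crdL
      rw [if_neg (by omega), if_pos rfl]
    · rw [crdL_mid (by omega) h8]
      exact Order.le_succ _
  by_cases h0 : i = 0
  · subst h0
    have h1 : crdL.{u} 0 = ℵ₁ := by
      unfold crdL
      rw [if_pos rfl]
    have h2 : crdL.{u} 0 < crdL.{u} 1 := by
      rw [h1, crdL_mid (by omega) (by omega)]
      exact lt_of_le_of_lt aleph_one_le_continuum (Order.lt_succ _)
    rcases Nat.lt_or_ge 1 j with h3 | h3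
    · exact lt_of_lt_of_le h2 ((crdL_le le_rfl h3 h7).trans (key j (by omega) h7))
    · have h4 : j = 1 := by omega
      rw [h4]
      exact h2
  · by_cases h8 : j = 7
    · subst h8
      have h1 : crdL.{u} 7 = crdT.{u} 6 := by
        unfold crdL
        rw [if_neg (by omega), if_pos rfl]
      rw [h1, crdL_mid h0 (by omega)]
      exact (crdT_lt.{u} (i - 1)).trans_le (crdT_mono (by omega))
    · have h1 := crdL_le.{u} (Nat.one_le_iff_ne_zero.2 h0) h h7
      rw [crdL_mid (n := j) (by omega) h8]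
      exact lt_of_le_of_lt h1 (Order.lt_succ _)

theorem crdStm : CrdStm.{u} := by
  refine ⟨fun j => crdL j.val, fun j => crdT (j.val - 1), ?_⟩
  refine ⟨?_, ?_, ?_, ?_, ?_, ?_, ?_, ?_⟩
  · show crdL 0 = ℵ₁
    unfold crdL
    rw [if_pos rfl]
  · intro i j h
    exact crdL_lt h (by omega)
  · intro j h1 h6
    have h2 : 1 ≤ j.val := h1
    have h3 : j.val ≤ 6 := h6
    exact crdL_mid (by omega) (by omega)
  · intro j _
    exact crdT_ct _
  · show 𝔠 ≤ crdT.{u} 0
    exact le_rfl
  · intro i j h1 h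
    have h2 : 1 ≤ i.val := h1
    exact crdL_le h2 h (by omega)
  · show crdT.{u} 6 = crdL.{u} 7
    unfold crdL
    rw [if_neg (by omega), if_pos rfl]
  · show crdL.{u} 7 ^ crdL.{u} 6 = crdL.{u} 7
    have h1 : crdL.{u} 7 = crdT.{u} 6 := by
      unfold crdL
      rw [if_neg (by omega), if_pos rfl]
    have h2 : crdL.{u} 6 = Order.succ (crdT.{u} 5) := crdL_mid (by omega) (by omega)
    have h3 : crdT.{u} 6 = 2 ^ Order.succ (crdT.{u} 5) := rfl
    rw [h1, h2, h3, ← power_mul, mul_eq_self ((crdT_inf 5).trans (Order.le_succ _))]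

end CI
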