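import Pool.Agent.CI.C.Alg

/-!
# Project CI, row B2: coherent Sikorski extension along a well-ordered chain of subalgebras
-/

set_option autoImplicit false

open Set Cardinal

namespace CI

universe u v

theorem HomOn.csr_top {X : Type u} {T : Type v} [BooleanAlgebra X] [BooleanAlgebra T]
    {Y : Set X} {φ : X → T} (hY : IsSA Y) (h : HomOn Y φ) : φ ⊤ = ⊤ := by
  have h1 := h.compl ⊤ hY.top
  have h2 := h.inf ⊤ hY.top ⊤ᶜ (hY.compl _ hY.top)
  rw [inf_compl_eq_bot, h1, inf_compl_eq_bot, ← compl_top, h1] at h2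
  rw [← compl_compl (φ ⊤), h2, compl_bot]

/-- two-sided bounds force equality -/
theorem HomOn.csr_eq {X : Type u} {T : Type v} [BooleanAlgebra X] [BooleanAlgebra T]
    {Y Z : Set X} {φ ψ : X → T} (h : HomOn Y φ) (h' : HomOn Z ψ) {x : X} (hx : x ∈ Y)
    (hx' : x ∈ Z) (h1 : φ x ≤ ψ x) (h2 : φ xᶜ ≤ ψ xᶜ) : ψ x = φ x := by
  rw [h.compl x hx, h'.compl x hx'] at h2
  exact le_antisymm (compl_le_compl_iff_le.1 h2) h1

section

variable {X : Type u} {T : Type u} [BooleanAlgebra X] [CompleteBooleanAlgebra T]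
  {Λ : Type u} (Xs : Λ → Set X) (Ts : Λ → Set T) (X0 : Set X) (φ : X → T)
  (R : Λ → Set (X × T))

/-- the conditions at one layer -/
structure CsrL (y : Λ) (ψ : X → T) : Prop where
  hom : HomOn (Xs y) ψ
  maps : ∀ u ∈ Xs y, ψ u ∈ Ts y
  agree : ∀ u ∈ X0 ∩ Xs y, ψ u = φ u
  req : ∀ r ∈ R y, r.2 ≤ ψ r.1

variable {Xs Ts X0 φ R}

theorem CsrL.congr {y : Λ} {ψ ψ' : X → T} (hS : IsSA (Xs y))
    (hR : ∀ r ∈ R y, r.1 ∈ Xs y) (h : CsrL Xs Ts X0 φ R y ψ) (e : ∀ u ∈ Xs y, ψ' u = ψ u) :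
    CsrL Xs Ts X0 φ R y ψ' where
  hom := {
    inf := fun a ha b hb => by rw [e _ (hS.inf a ha b hb), e a ha, e b hb, h.hom.inf a ha b hb]
    compl := fun a ha => by rw [e _ (hS.compl a ha), e a ha, h.hom.compl a ha] }
  maps := fun w hw => by rw [e w hw]; exact h.maps w hw
  agree := fun w hw => by rw [e w hw.2]; exact h.agree w hw
  req := fun r hr => by rw [e _ (hR r hr)]; exact h.req r hr

end

/-- B2: coherent Sikorski extension -/
theorem csrStm (h : SikStm.{u}) : CsrStm.{u} := by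
  classical
  intro X T _ _ Λ _ _ Xs Ts X0 φ R hXs hXm hTs hTm hX0 hφ hφT hR hcon
  let Good : Set Λ × (X → T) → Prop := fun p =>
    IsLowerSet p.1 ∧ ∀ y ∈ p.1, CsrL Xs Ts X0 φ R y p.2
  let r : {p : Set Λ × (X → T) // Good p} → {p : Set Λ × (X → T) // Good p} → Prop :=
    fun p q => p.1.1 ⊆ q.1.1 ∧ ∀ y ∈ p.1.1, ∀ w ∈ Xs y, q.1.2 w = p.1.2 w
  have hchain : ∀ c : Set {p : Set Λ × (X → T) // Good p}, IsChain r c →
      ∃ ub, ∀ a ∈ c, r a ub := by
    intro c hc
    let D : Set Λ := {y | ∃ p ∈ c, y ∈ p.1.1}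
    let ψ : X → T := fun w =>
      if hw : ∃ p : {p : Set Λ × (X → T) // Good p}, p ∈ c ∧ ∃ y ∈ p.1.1, w ∈ Xs y then
        hw.choose.1.2 w else φ w
    have hψ : ∀ p ∈ c, ∀ y ∈ p.1.1, ∀ w ∈ Xs y, ψ w = p.1.2 w := by
      intro p hp y hy w hw
      have hex : ∃ p : {p : Set Λ × (X → T) // Good p}, p ∈ c ∧ ∃ y ∈ p.1.1, w ∈ Xs y :=
        ⟨p, hp, y, hy, hw⟩
      have e1 : ψ w = hex.choose.1.2 w := dif_pos hex
      obtain ⟨hq, y', hy', hw'⟩ := hex.choose_spec
      rw [e1]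
      by_cases hpq : p = hex.choose
      · rw [← hpq]
      · rcases hc hp hq hpq with h1 | h1
        · exact h1.2 y hy w hw
        · exact (h1.2 y' hy' w hw').symm
    refine ⟨⟨(D, ψ), ?_, ?_⟩, ?_⟩
    · rintro y z hzy ⟨p, hp, hy⟩
      exact ⟨p, hp, p.2.1 hzy hy⟩
    · rintro y ⟨p, hp, hy⟩
      exact (p.2.2 y hy).congr (hXs y) (fun r hr => (hR y r hr).1) (hψ p hp y hy)
    · intro p hp
      exact ⟨fun y hy => ⟨p, hp, hy⟩, fun y hy w hw => hψ p hp y hy w hw⟩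
  obtain ⟨m, hm⟩ := exists_maximal_of_chains_bounded hchain (by
    intro a b c hab hbc
    exact ⟨hab.1.trans hbc.1, fun y hy w hw =>
      (hbc.2 y (hab.1 hy) w hw).trans (hab.2 y hy w hw)⟩)
  have hall : ∀ x, x ∈ m.1.1 := by
    intro x0
    by_contra hx0
    -- a minimal element outside
    obtain ⟨x, hx, hmin⟩ := WellFounded.has_min (wellFounded_lt (α := Λ))
      {x | x ∉ m.1.1} ⟨x0, hx0⟩
    have hlt : ∀ y, y < x → y ∈ m.1.1 := by
      intro y hy
      by_contra h1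
      exact hmin y h1 hy
    have hltx : ∀ y ∈ m.1.1, y < x := by
      intro y hy
      by_contra h1
      exact hx (m.2.1 (not_lt.1 h1) hy)
    set ψ : X → T := m.1.2 with hψ
    have hL : ∀ y, y < x → CsrL Xs Ts X0 φ R y ψ := fun y hy => m.2.2 y (hlt y hy)
    have hB : BelowOK Xs Ts X0 φ R x ψ :=
      { hom := fun y hy => (hL y hy).hom
        maps := fun y hy => (hL y hy).maps
        agree := fun y hy => (hL y hy).agree
        req := fun y hy => (hL y hy).req }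
    obtain ⟨hc1, hc2⟩ := hcon x ψ hB
    let Q : Set (X × T) := {q | (∃ z ∈ X0 ∩ Xs x, q = (z, φ z)) ∨
      (∃ y, y < x ∧ ∃ w ∈ Xs y, q = (w, ψ w)) ∨ q ∈ R x}
    have hQ : ∀ q ∈ Q, q.1 ∈ Xs x ∧ q.2 ∈ Ts x := by
      rintro q (⟨z, hz, rfl⟩ | ⟨y, hy, w, hw, rfl⟩ | hq)
      · exact ⟨hz.2, hφT x z hz⟩
      · exact ⟨hXm hy.le hw, hTm hy.le ((hL y hy).maps w hw)⟩
      · exact hR x q hq
    have hdec : ∀ s : Finset (X × T), (s : Set (X × T)) ⊆ Q →
        ∃ z ∈ X0 ∩ Xs x, ∃ t : Finset (X × T), (t : Set (X × T)) ⊆ R x ∧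
          ((s.inf Prod.fst = z ⊓ t.inf Prod.fst ∧ s.inf Prod.snd = φ z ⊓ t.inf Prod.snd) ∨
          ∃ y, y < x ∧ ∃ w ∈ Xs y, s.inf Prod.fst = z ⊓ w ⊓ t.inf Prod.fst ∧
            s.inf Prod.snd = φ z ⊓ ψ w ⊓ t.inf Prod.snd) := by
      intro s
      induction s using Finset.induction_on with
      | empty =>
        intro _
        refine ⟨⊤, ⟨hX0.top, (hXs x).top⟩, ∅, by simp, Or.inl ⟨by simp, ?_⟩⟩
        simp [hφ.csr_top hX0]
      | insert q s hq ih =>
        intro hs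
        have hs1 : (s : Set (X × T)) ⊆ Q := fun a ha => hs (by simp [Finset.mem_coe.1 ha])
        have hqQ : q ∈ Q := hs (by simp)
        obtain ⟨z, hz, t, ht, hcase⟩ := ih hs1
        rw [Finset.inf_insert, Finset.inf_insert]
        rcases hqQ with ⟨z', hz', rfl⟩ | ⟨y', hy', w', hw', rfl⟩ | hqR
        · refine ⟨z' ⊓ z, ⟨hX0.inf _ hz'.1 _ hz.1, (hXs x).inf _ hz'.2 _ hz.2⟩, t, ht, ?_⟩
          have e1 : φ (z' ⊓ z) = φ z' ⊓ φ z := hφ.inf _ hz'.1 _ hz.1
          rcases hcase with ⟨h1, h2⟩ | ⟨y, hy, w, hw, h1, h2⟩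
          · left
            rw [h1, h2, e1]
            exact ⟨(inf_assoc _ _ _).symm, (inf_assoc _ _ _).symm⟩
          · right
            refine ⟨y, hy, w, hw, ?_, ?_⟩
            · show z' ⊓ s.inf Prod.fst = _
              rw [h1]; ac_rfl
            · show φ z' ⊓ s.inf Prod.snd = _
              rw [h2, e1]; ac_rfl
        · refine ⟨z, hz, t, ht, Or.inr ?_⟩
          rcases hcase with ⟨h1, h2⟩ | ⟨y, hy, w, hw, h1, h2⟩
          · refine ⟨y', hy', w', hw', ?_, ?_⟩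
            · show w' ⊓ s.inf Prod.fst = _
              rw [h1]; ac_rfl
            · show ψ w' ⊓ s.inf Prod.snd = _
              rw [h2]; ac_rfl
          · have hyy : max y y' < x := max_lt hy hy'
            have hw1 : w ∈ Xs (max y y') := hXm (le_max_left _ _) hw
            have hw2 : w' ∈ Xs (max y y') := hXm (le_max_right _ _) hw'
            refine ⟨max y y', hyy, w' ⊓ w, (hXs _).inf _ hw2 _ hw1, ?_, ?_⟩
            · show w' ⊓ s.inf Prod.fst = _
              rw [h1]; ac_rfl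
            · show ψ w' ⊓ s.inf Prod.snd = _
              rw [h2, (hL _ hyy).hom.inf _ hw2 _ hw1]; ac_rfl
        · refine ⟨z, hz, insert q t, ?_, ?_⟩
          · intro a ha
            rw [Finset.coe_insert] at ha
            rcases ha with rfl | ha
            · exact hqR
            · exact ht ha
          · rw [Finset.inf_insert, Finset.inf_insert]
            rcases hcase with ⟨h1, h2⟩ | ⟨y, hy, w, hw, h1, h2⟩
            · left
              rw [h1, h2]
              exact ⟨by ac_rfl, by ac_rfl⟩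
            · right
              refine ⟨y, hy, w, hw, ?_, ?_⟩
              · rw [h1]; ac_rfl
              · rw [h2]; ac_rfl
    have hcons : ∀ s : Finset (X × T), (s : Set (X × T)) ⊆ Q → s.inf Prod.fst = ⊥ →
        s.inf Prod.snd = ⊥ := by
      intro s hs hbot
      obtain ⟨z, hz, t, ht, ⟨h1, h2⟩ | ⟨y, hy, w, hw, h1, h2⟩⟩ := hdec s hs
      · rw [h2]
        exact hc1 z hz t ht (h1 ▸ hbot)
      · rw [h2]
        exact hc2 z hz y hy w hw t ht (h1 ▸ hbot)
    obtain ⟨ψ', hh, hmaps, hreq⟩ := h X T (Xs x) (Ts x) Q (hXs x) (hTs x) hQ hcons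
    have e0 : ∀ z ∈ X0 ∩ Xs x, ψ' z = φ z := by
      intro z hz
      exact hφ.csr_eq hh hz.1 hz.2 (hreq (z, φ z) (Or.inl ⟨z, hz, rfl⟩))
        (hreq (zᶜ, φ zᶜ) (Or.inl ⟨zᶜ, ⟨hX0.compl _ hz.1, (hXs x).compl _ hz.2⟩, rfl⟩))
    have e1 : ∀ y, y < x → ∀ w ∈ Xs y, ψ' w = ψ w := by
      intro y hy w hw
      exact (hL y hy).hom.csr_eq hh hw (hXm hy.le hw)
        (hreq (w, ψ w) (Or.inr (Or.inl ⟨y, hy, w, hw, rfl⟩)))
        (hreq (wᶜ, ψ wᶜ) (Or.inr (Or.inl ⟨y, hy, wᶜ, (hXs y).compl _ hw, rfl⟩)))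
    have hnew : Good (m.1.1 ∪ {x}, ψ') := by
      constructor
      · rintro a b hba (ha | ha)
        · exact Or.inl (m.2.1 hba ha)
        · rw [Set.mem_singleton_iff] at ha
          subst ha
          rcases hba.lt_or_eq with h1 | h1
          · exact Or.inl (hlt b h1)
          · exact Or.inr h1
      · rintro y (hy | hy)
        · exact (m.2.2 y hy).congr (hXs y) (fun r hr => (hR y r hr).1) (e1 y (hltx y hy))
        · rw [Set.mem_singleton_iff] at hy
          subst hy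
          exact
            { hom := hh
              maps := hmaps
              agree := e0
              req := fun q hq => hreq q (Or.inr (Or.inr hq)) }
    have hmr : r m ⟨(m.1.1 ∪ {x}, ψ'), hnew⟩ :=
      ⟨Set.subset_union_left, fun y hy w hw => e1 y (hltx y hy) w hw⟩
    exact hx ((hm _ hmr).1 (Or.inr rfl))
  refine ⟨m.1.2, fun x => (m.2.2 x (hall x)).hom, fun x => (m.2.2 x (hall x)).maps,
    fun x => (m.2.2 x (hall x)).agree, fun x => (m.2.2 x (hall x)).req⟩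

end CI
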