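import Pool.Agent.CI.C.ItrStm

/-!
# Project CI, core: deciding elements of the target
-/

set_option autoImplicit false

open Set Cardinal Pool.Agent.CL

namespace CI

universe u

section

variable {K Λ : Type u} [LinearOrder K] (D : Dat K Λ)

/-- an antichain of conditions below `p` and a guess below `a` which decide -/
private structure DcP {A : Type u} [Preorder A] (a : A) (p : PF K Λ)
    (E : A → PF K Λ → Prop) where
  s : Set (PF K Λ)
  x : A
  le : x ≤ a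
  mem : ∀ q ∈ s, @LE.le (PD D) _ q p ∧ E x q
  dj : ∀ q ∈ s, ∀ q' ∈ s, q ≠ q' → ee D q ⊓ ee D q' = ⊥

variable {D} {A : Type u} [Preorder A] {a : A} {p : PF K Λ} {E : A → PF K Λ → Prop}

private def DcP.r (x y : DcP D a p E) : Prop := x = y ∨ (x.s ⊂ y.s ∧ y.x ≤ x.x)

private theorem DcP.r_s {x y : DcP D a p E} (h : x.r y) : x.s ⊆ y.s := by
  rcases h with rfl | h
  · exact subset_rfl
  · exact h.1.subset

private theorem DcP.r_x {x y : DcP D a p E} (h : x.r y) : y.x ≤ x.x := by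
  rcases h with rfl | h
  · exact le_rfl
  · exact h.2

private theorem DcP.r_trans {x y z : DcP D a p E} (h : x.r y) (h' : y.r z) : x.r z := by
  rcases h with rfl | h
  · exact h'
  · right
    exact ⟨h.1.trans_subset (DcP.r_s h'), (DcP.r_x h').trans h.2⟩

private theorem dcp_ctb (hc : Ccc (BB D)) {s : Set (PF K Λ)}
    (hs : ∀ q ∈ s, ∀ q' ∈ s, q ≠ q' → ee D q ⊓ ee D q' = ⊥) : s.Countable := by
  refine Set.countable_of_injective_of_countable_image (f := ee D) ?_ (hc _ ?_ ?_)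
  · intro q hq q' hq' h
    by_contra hne
    have h1 := hs q hq q' hq' hne
    rw [← h, inf_idem] at h1
    exact ee_ne_bot q h1
  · rintro _ ⟨q, _, rfl⟩
    exact ee_ne_bot q
  · rintro _ ⟨q, hq, rfl⟩ _ ⟨q', hq', rfl⟩ hne
    exact hs q hq q' hq' fun h => hne (by rw [h])

private theorem dcp_chain (hA : ∀ f : ℕ → A, (∀ n, f (n + 1) ≤ f n) → ∃ a', ∀ n, a' ≤ f n)
    (hc : Ccc (BB D)) (hE : ∀ x q y, E x q → y ≤ x → E y q) (C : Set (DcP D a p E))
    (hC : IsChain DcP.r C) : ∃ ub : DcP D a p E, ∀ x ∈ C, DcP.r x ub := by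
  by_cases hm : ∃ m ∈ C, ∀ x ∈ C, DcP.r x m
  · obtain ⟨m, _, h⟩ := hm
    exact ⟨m, h⟩
  push Not at hm
  by_cases hCe : C = ∅
  · subst hCe
    exact ⟨⟨∅, a, le_rfl, fun q hq => absurd hq (notMem_empty q),
      fun q hq => absurd hq (notMem_empty q)⟩, fun x hx => absurd hx (notMem_empty x)⟩
  obtain ⟨c0, hc0⟩ := nonempty_iff_ne_empty.2 hCe
  -- no member is maximal
  have hup : ∀ m ∈ C, ∃ y ∈ C, m.s ⊂ y.s := by
    intro m hmC
    obtain ⟨y, hy, hny⟩ := hm m hmC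
    have hne : m ≠ y := by
      rintro rfl
      exact hny (Or.inl rfl)
    rcases hC hmC hy hne with h | h
    · rcases h with h | h
      · exact absurd h hne
      · exact ⟨y, hy, h.1⟩
    · exact absurd h hny
  have hcmp : ∀ x ∈ C, ∀ y ∈ C, DcP.r x y ∨ DcP.r y x := by
    intro x hx y hy
    by_cases h : x = y
    · exact Or.inl (Or.inl h)
    · exact hC hx hy h
  set U : Set (PF K Λ) := ⋃ x ∈ C, x.s with hU
  have hmemU : ∀ q, q ∈ U ↔ ∃ x ∈ C, q ∈ x.s := by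
    intro q
    rw [hU, mem_iUnion₂]
    simp only [exists_prop]
  have hdj : ∀ q ∈ U, ∀ q' ∈ U, q ≠ q' → ee D q ⊓ ee D q' = ⊥ := by
    intro q hq q' hq' hne
    obtain ⟨x, hx, hqx⟩ := (hmemU q).1 hq
    obtain ⟨y, hy, hqy⟩ := (hmemU q').1 hq'
    rcases hcmp x hx y hy with h | h
    · exact y.dj q (DcP.r_s h hqx) q' hqy hne
    · exact x.dj q hqx q' (DcP.r_s h hqy) hne
  have hUc := dcp_ctb hc hdj
  have hUn : U.Nonempty := by
    obtain ⟨y, hy, h⟩ := hup c0 hc0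
    obtain ⟨q, hq, _⟩ := Set.exists_of_ssubset h
    exact ⟨q, (hmemU q).2 ⟨y, hy, hq⟩⟩
  obtain ⟨f, hf⟩ := hUc.exists_eq_range hUn
  have hg : ∀ n, ∃ c : C, f n ∈ c.1.s := by
    intro n
    have : f n ∈ U := by
      rw [hf]
      exact mem_range_self n
    obtain ⟨x, hx, hq⟩ := (hmemU _).1 this
    exact ⟨⟨x, hx⟩, hq⟩
  choose g hg using hg
  have hM : ∀ x y : C, ∃ z : C, DcP.r x.1 z.1 ∧ DcP.r y.1 z.1 := by
    intro x y
    rcases hcmp x.1 x.2 y.1 y.2 with h | h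
    · exact ⟨y, h, Or.inl rfl⟩
    · exact ⟨x, Or.inl rfl, h⟩
  choose M hM1 hM2 using hM
  let h : ℕ → C := fun n => Nat.rec (g 0) (fun n z => M z (g (n + 1))) n
  have hs : ∀ n, DcP.r (h n).1 (h (n + 1)).1 := fun n => hM1 _ _
  have hgh : ∀ n, DcP.r (g n).1 (h n).1 := by
    intro n
    cases n with
    | zero => exact Or.inl rfl
    | succ n => exact hM2 _ _
  obtain ⟨a', ha'⟩ := hA (fun n => (h n).1.x) fun n => DcP.r_x (hs n)
  have hga : ∀ n, a' ≤ (g n).1.x := fun n => (ha' n).trans (DcP.r_x (hgh n))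
  refine ⟨⟨U, a', (ha' 0).trans (h 0).1.le, ?_, hdj⟩, ?_⟩
  · intro q hq
    rw [hf] at hq
    obtain ⟨n, rfl⟩ := hq
    obtain ⟨h1, h2⟩ := (g n).1.mem _ (hg n)
    exact ⟨h1, hE _ _ _ h2 (hga n)⟩
  · intro x hx
    right
    obtain ⟨y, hy, hxy⟩ := hup x hx
    obtain ⟨q, hq, hqx⟩ := Set.exists_of_ssubset hxy
    have hqU : q ∈ U := (hmemU q).2 ⟨y, hy, hq⟩
    refine ⟨⟨fun q' hq' => (hmemU q').2 ⟨x, hx, hq'⟩, fun hsub => hqx (hsub hqU)⟩, ?_⟩
    have hq2 := hqU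
    rw [hf] at hq2
    obtain ⟨n, rfl⟩ := hq2
    rcases hcmp x hx (g n).1 (g n).2 with h3 | h3
    · exact (hga n).trans (DcP.r_x h3)
    · exact absurd (DcP.r_s h3 (hg n)) hqx

/-- the general principle -/
private theorem dcp_main (hA : ∀ f : ℕ → A, (∀ n, f (n + 1) ≤ f n) → ∃ a', ∀ n, a' ≤ f n)
    (hc : Ccc (BB D)) (hE : ∀ x q y, E x q → y ≤ x → E y q)
    (hd : ∀ x ≤ a, ∀ q : PF K Λ, @LE.le (PD D) _ q p →
      ∃ y ≤ x, ∃ q' : PF K Λ, @LE.le (PD D) _ q' q ∧ E y q') :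
    ∃ x ≤ a, ∃ q : ℕ → PF K Λ, (∀ n, @LE.le (PD D) _ (q n) p ∧ E x (q n)) ∧
      ee D p ≤ ⨆ n, ee D (q n) := by
  obtain ⟨m, hm⟩ := exists_maximal_of_chains_bounded (r := DcP.r (D := D) (a := a) (p := p)
    (E := E)) (fun C hC => dcp_chain hA hc hE C hC) (fun h h' => DcP.r_trans h h')
  have key : ee D p ≤ ⨆ q ∈ m.s, ee D q := by
    by_contra hlt
    have h1 : ee D p ⊓ (⨆ q ∈ m.s, ee D q)ᶜ ≠ ⊥ := by
      intro h
      exact hlt (by rw [← disjoint_compl_right_iff]; exact disjoint_iff.2 h)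
    obtain ⟨q, hq⟩ := exists_ee_le h1
    have hq1 : q ∈ (ee D p).S := ee_le_iff.1 (hq.trans inf_le_left)
    obtain ⟨s, hsq, hsp⟩ := ee_mem_iff.1 hq1 q (@le_rfl (PD D) _ q)
    obtain ⟨y, hy, q', hq', hEq⟩ := hd m.x m.le s hsp
    have h2 : ee D q' ≤ (⨆ q ∈ m.s, ee D q)ᶜ :=
      (ee_mono (@le_trans (PD D) _ _ _ _ hq' hsq)).trans (hq.trans inf_le_right)
    have h3 : ∀ t ∈ m.s, ee D q' ⊓ ee D t = ⊥ := by
      intro t ht
      have h4 : ee D t ≤ ⨆ q ∈ m.s, ee D q := le_iSup₂_of_le t ht le_rfl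
      exact disjoint_iff.1 ((disjoint_compl_left.mono_left h2).mono_right h4)
    have h5 : q' ∉ m.s := by
      intro h
      have := h3 q' h
      rw [inf_idem] at this
      exact ee_ne_bot q' this
    have hnew := hm ⟨insert q' m.s, y, hy.trans m.le, by
      intro t ht
      rcases mem_insert_iff.1 ht with rfl | ht
      · exact ⟨@le_trans (PD D) _ _ _ _ hq' hsp, hEq⟩
      · exact ⟨(m.mem t ht).1, hE _ _ _ (m.mem t ht).2 hy⟩, by
      intro t ht t' ht' hne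
      rcases mem_insert_iff.1 ht with h6 | ht
      · rcases mem_insert_iff.1 ht' with h7 | ht'
        · exact absurd (h6.trans h7.symm) hne
        · rw [h6]
          exact h3 t' ht'
      · rcases mem_insert_iff.1 ht' with h7 | ht'
        · rw [h7, inf_comm]
          exact h3 t ht
        · exact m.dj t ht t' ht' hne⟩
      (Or.inr ⟨⟨subset_insert _ _, fun h => h5 (h (mem_insert _ _))⟩, hy⟩)
    exact h5 (DcP.r_s hnew (mem_insert _ _))
  have hne : m.s.Nonempty := by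
    by_contra hemp
    rw [not_nonempty_iff_eq_empty] at hemp
    rw [hemp] at key
    simp only [mem_empty_iff_false, iSup_false, iSup_bot, le_bot_iff] at key
    exact ee_ne_bot p key
  obtain ⟨f, hf⟩ := (dcp_ctb hc m.dj).exists_eq_range hne
  refine ⟨m.x, m.le, f, fun n => m.mem _ (by rw [hf]; exact mem_range_self n), key.trans ?_⟩
  refine iSup₂_le fun q hq => ?_
  rw [hf] at hq
  obtain ⟨n, rfl⟩ := hq
  exact le_iSup (fun n => ee D (f n)) n

end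

theorem dec2Stm (_h3 : IBStm.{u}) (_h4 : IAStm.{u}) (h6 : AFStm.{u}) : Dec2Stm.{u} := by
  intro K Λ Θ _ D hc ι t a p hp
  have hE : ∀ (x : AF K Θ) (q : PF K Λ) (y : AF K Θ), (∃ i, iAP D x q ≤ t i) → y ≤ x →
      ∃ i, iAP D y q ≤ t i := by
    rintro x q y ⟨i, hi⟩ hy
    refine ⟨i, le_trans ?_ hi⟩
    exact RO.pt_mono (Q := AF K Θ × PD D) ⟨hy, @le_rfl (PD D) _ q⟩
  have hd : ∀ x ≤ a, ∀ q : PF K Λ, @LE.le (PD D) _ q p →
      ∃ y ≤ x, ∃ q' : PF K Λ, @LE.le (PD D) _ q' q ∧ ∃ i, iAP D y q' ≤ t i := by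
    intro x hx q hq
    have h1 : ((a, p) : AF K Θ × PD D) ∈ (⨆ i, t i).S := RO.pt_le_iff.1 hp
    obtain ⟨⟨y, q'⟩, hr, i, hi⟩ := RO.mem_iSup.1 h1 ((x, q) : AF K Θ × PD D) ⟨hx, hq⟩
    exact ⟨y, hr.1, q', hr.2, i, RO.pt_le_iff.2 hi⟩
  obtain ⟨x, hx, q, hq, hs⟩ := dcp_main (D := D) (A := AF K Θ) (a := a) (p := p)
    (E := fun x q => ∃ i, iAP D x q ≤ t i) (h6 K Θ) hc hE hd
  choose i hi using fun n => (hq n).2
  exact ⟨x, hx, q, i, fun n => (hq n).1, hi, hs⟩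

theorem decStm (_h1 : TrStm.{u}) (h2 : SZStm.{u}) (h3 : IBStm.{u}) (h4 : IAStm.{u})
    (h5 : TZStm.{u}) (h6 : AFStm.{u}) : DecStm.{u} := by
  classical
  intro K Λ Θ _ D Z hZ hc t ht a
  obtain ⟨hTc, -, hTr, -⟩ := h5 K Λ Θ D Z hZ
  obtain ⟨hcs, heS, -⟩ := h2 K Λ D Z hZ
  obtain ⟨hle, hinf, -, hcomp, hbot, htop, -, -, hsupN, -⟩ := h3 K Λ Θ D
  obtain ⟨hAP, -⟩ := h4 K Λ Θ D
  have hE : ∀ (x : AF K Θ) (q : PF K Λ) (y : AF K Θ), (iAP D x q ≤ t ∨ iAP D x q ≤ tᶜ) → y ≤ x →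
      (iAP D y q ≤ t ∨ iAP D y q ≤ tᶜ) := by
    intro x q y h hy
    have h7 : iAP D y q ≤ iAP D x q :=
      RO.pt_mono (Q := AF K Θ × PD D) ⟨hy, @le_rfl (PD D) _ q⟩
    rcases h with h | h
    · exact Or.inl (h7.trans h)
    · exact Or.inr (h7.trans h)
  have hd : ∀ x ≤ a, ∀ q : PF K Λ, @LE.le (PD D) _ q (PF.nil : PF K Λ) →
      ∃ y ≤ x, ∃ q' : PF K Λ, @LE.le (PD D) _ q' q ∧ (iAP D y q' ≤ t ∨ iAP D y q' ≤ tᶜ) := by
    intro x _ q _
    by_cases h : ∃ r : AF K Θ × PD D, r ≤ ((x, q) : AF K Θ × PD D) ∧ r ∈ t.S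
    · obtain ⟨⟨y, q'⟩, hr, hm⟩ := h
      exact ⟨y, hr.1, q', hr.2, Or.inl (RO.pt_le_iff.2 hm)⟩
    · refine ⟨x, le_rfl, q, @le_rfl (PD D) _ q, Or.inr (RO.pt_le_iff.2 ?_)⟩
      rw [RO.mem_compl]
      intro r hr hrt
      exact h ⟨r, hr, hrt⟩
  obtain ⟨x, hx, q, hq, hs⟩ := dcp_main (D := D) (A := AF K Θ) (a := a) (p := PF.nil)
    (E := fun x q => iAP D x q ≤ t ∨ iAP D x q ≤ tᶜ) (h6 K Θ) hc hE hd
  set q' : ℕ → PF K Λ := fun n => (q n).res Z with hq'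
  have hq2 : ∀ n, iAP D x (q' n) ≤ t ∨ iAP D x (q' n) ≤ tᶜ := by
    intro n
    rcases (hq n).2 with h | h
    · exact Or.inl ((hTr t ht x (q n)).1 h)
    · exact Or.inr ((hTr tᶜ (hTc.compl t ht) x (q n)).1 h)
  have hdom : ∀ n, (q' n).dom ⊆ Z := fun n => PF.dom_res_subset _ _
  set V : ℕ → BB D := fun n => if iAP D x (q' n) ≤ t then ee D (q' n) else ⊥ with hV
  have hVm : ∀ n, V n ∈ SZ D Z := by
    intro n
    simp only [hV]
    split_ifs
    · exact heS _ (hdom n)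
    · have := hcs.sSup ∅ (empty_subset _)
      rwa [sSup_empty] at this
  refine ⟨x, hx, ⨆ n, V n, hcs.sSup _ ?_, ?_⟩
  · rintro _ ⟨n, rfl⟩
    exact hVm n
  · have htop2 : (⨆ n, iB D Θ (ee D (q' n))) = ⊤ := by
      rw [← hsupN]
      rw [← htop]
      congr 1
      refine top_unique ?_
      rw [← ee_nil (D := D)]
      refine hs.trans (iSup_mono fun n => ?_)
      exact ee_mono (le_res _ _)
    rw [hsupN]
    apply le_antisymm
    · refine le_inf inf_le_left ?_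
      have h7 : iA D x ⊓ t ≤ ⨆ n, (iA D x ⊓ t) ⊓ iB D Θ (ee D (q' n)) := by
        rw [← inf_iSup_eq, htop2, inf_top_eq]
      refine h7.trans (iSup_mono fun n => ?_)
      simp only [hV]
      split_ifs with hn
      · exact inf_le_right
      · have h8 := (hq2 n).resolve_left hn
        rw [hAP] at h8
        rw [hbot]
        have h9 : iA D x ⊓ t ⊓ iB D Θ (ee D (q' n)) ≤ t ⊓ tᶜ := by
          refine le_inf (inf_le_left.trans inf_le_right) (le_trans ?_ h8)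
          exact le_inf (inf_le_left.trans inf_le_left) inf_le_right
        rwa [inf_compl_eq_bot] at h9
    · refine le_inf inf_le_left ?_
      rw [inf_iSup_eq]
      refine iSup_le fun n => ?_
      simp only [hV]
      split_ifs with hn
      · rw [← hAP]
        exact hn
      · rw [hbot, inf_bot_eq]
        exact bot_le

end CI
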