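import Pool.Agent.CI.C.Alg
import Mathlib.Data.W.Cardinal

/-!
# Project CI, core: two members of a large family of countable sets with functions which agree on
their intersection
-/

set_option autoImplicit false

open Set Cardinal

namespace CI

universe u

section

/-- the labels of the terms -/
private abbrev dcL (Θ : Type u) : Type u := Option (ℕ → Option (ℕ × Θ))

/-- the arities -/
private def dcB {Θ : Type u} : dcL Θ → Type u
  | none => PEmpty
  | some _ => ULift ℕ

private theorem dc_card {Θ : Type u} {θ : Cardinal.{u}} (h0 : ℵ₀ ≤ θ) (h1 : θ ^ ℵ₀ = θ)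
    (h2 : #Θ ≤ θ) : #(WType (dcB (Θ := Θ))) ≤ θ := by
  have hN : #(ℕ × Θ) ≤ θ := by
    rw [mk_prod, mk_nat, lift_aleph0, lift_uzero]
    exact mul_le_of_le h0 h0 h2
  have hO : #(Option (ℕ × Θ)) ≤ θ := by
    rw [mk_option]
    exact add_le_of_le h0 hN (one_le_aleph0.trans h0)
  have hF : #(ℕ → Option (ℕ × Θ)) ≤ θ := by
    rw [mk_arrow, lift_uzero, mk_nat, lift_aleph0]
    exact (power_le_power_right hO).trans h1.le
  have hL : #(dcL Θ) ≤ θ := by
    rw [mk_option]
    exact add_le_of_le h0 hF (one_le_aleph0.trans h0)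
  refine WType.cardinalMk_le_of_le' ?_
  have hs : ∀ a : dcL Θ, θ ^ lift.{u} #(dcB a) ≤ θ := by
    intro a
    rcases a with _ | t
    · have : #(dcB (none : dcL Θ)) = 0 := mk_pempty
      rw [this, lift_zero, power_zero]
      exact one_le_aleph0.trans h0
    · have : #(dcB (some t : dcL Θ)) = ℵ₀ := by
        show #(ULift ℕ) = ℵ₀
        rw [mk_uLift, mk_nat, lift_aleph0]
      rw [this, lift_aleph0, h1]
  refine (sum_le_sum _ _ hs).trans ?_
  rw [sum_const, lift_id, lift_id]
  exact mul_le_of_le h0 hL le_rfl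

end

theorem delCtbStm : DelCtbStm.{u} := by
  classical
  intro K I Θ θ h0 h1 h2 h3 d a hd
  have hI : 1 < #I := (one_lt_aleph0.trans_le h0).trans h3
  rcases isEmpty_or_nonempty K with hK | hK
  · have : Nontrivial I := one_lt_iff_nontrivial.1 hI
    obtain ⟨i, j, hij⟩ := exists_pair_ne I
    exact ⟨i, j, hij, fun x => isEmptyElim x⟩
  obtain ⟨i0⟩ : Nonempty I := mk_ne_zero_iff.1 (zero_lt_one.trans hI).ne'
  have hε : ∀ i, ∃ f : ℕ → K, d i ⊆ range f := fun i =>
    countable_iff_exists_subset_range.1 (hd i)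
  choose ε hε using hε
  let P : (ℕ → I) → (ℕ → Option (ℕ × Θ)) → I → Prop := fun z t i =>
    ∀ k n b, t k = some (n, b) → ε (z k) n ∈ d i ∧ a i (ε (z k) n) = b
  let G : (ℕ → I) → (ℕ → Option (ℕ × Θ)) → I := fun z t =>
    if h : ∃ i, P z t i then h.choose else i0
  have hG : ∀ z t i, P z t i → P z t (G z t) := by
    intro z t i hi
    have h : ∃ i, P z t i := ⟨i, hi⟩
    show P z t (if h : ∃ i, P z t i then h.choose else i0)
    rw [dif_pos h]
    exact h.choose_spec
  let st : (Σ c : dcL Θ, dcB c → I) → I := fun c =>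
    match c with
    | ⟨none, _⟩ => i0
    | ⟨some t, f⟩ => G (fun k => f (ULift.up k)) t
  let ev : WType (dcB (Θ := Θ)) → I := WType.elim I st
  have hM : #(range ev) ≤ θ := mk_range_le.trans (dc_card h0 h1 h2)
  obtain ⟨j, hj⟩ : ∃ j, j ∉ range ev := by
    by_contra hcon
    push Not at hcon
    have h4 : range ev = Set.univ := eq_univ_of_forall hcon
    rw [h4, mk_univ] at hM
    exact absurd hM (not_le.2 h3)
  have h0M : i0 ∈ range ev := ⟨WType.mk none PEmpty.elim, rfl⟩
  rcases ({x | x ∈ d j ∧ ∃ m ∈ range ev, x ∈ d m} : Set K).eq_empty_or_nonempty with he | hne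
  · refine ⟨i0, j, fun h => hj (h ▸ h0M), fun x hx => ?_⟩
    have h5 : x ∈ ({x | x ∈ d j ∧ ∃ m ∈ range ev, x ∈ d m} : Set K) := ⟨hx.2, i0, h0M, hx.1⟩
    rw [he] at h5
    exact absurd h5 (notMem_empty x)
  · have hc : ({x | x ∈ d j ∧ ∃ m ∈ range ev, x ∈ d m} : Set K).Countable :=
      (hd j).mono fun x hx => hx.1
    obtain ⟨x, hx⟩ := hc.exists_eq_range hne
    have hxk : ∀ k, x k ∈ d j ∧ ∃ w : WType (dcB (Θ := Θ)), x k ∈ d (ev w) := by
      intro k
      have h6 : x k ∈ ({x | x ∈ d j ∧ ∃ m ∈ range ev, x ∈ d m} : Set K) := by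
        rw [hx]
        exact mem_range_self k
      obtain ⟨h7, m, ⟨w, rfl⟩, h8⟩ := h6
      exact ⟨h7, w, h8⟩
    choose hxj w hw using hxk
    have hn : ∀ k, ∃ n, ε (ev (w k)) n = x k := fun k => hε _ (hw k)
    choose n hn using hn
    let t : ℕ → Option (ℕ × Θ) := fun k => some (n k, a j (x k))
    let z : ℕ → I := fun k => ev (w k)
    have hj' : P z t j := by
      intro k m b hb
      have h9 : (n k, a j (x k)) = (m, b) := Option.some.inj hb
      have h10 : n k = m := congrArg Prod.fst h9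
      have h11 : a j (x k) = b := congrArg Prod.snd h9
      subst h10 h11
      show ε (ev (w k)) (n k) ∈ d j ∧ a j (ε (ev (w k)) (n k)) = a j (x k)
      rw [hn k]
      exact ⟨hxj k, rfl⟩
    have hi := hG z t j hj'
    have hiM : G z t ∈ range ev :=
      ⟨WType.mk (some t) fun k => w k.down, rfl⟩
    refine ⟨G z t, j, fun h => hj (h ▸ hiM), fun y hy => ?_⟩
    have h12 : y ∈ ({x | x ∈ d j ∧ ∃ m ∈ range ev, x ∈ d m} : Set K) := ⟨hy.2, _, hiM, hy.1⟩
    rw [hx] at h12
    obtain ⟨k, rfl⟩ := h12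
    have h13 := hi k (n k) (a j (x k)) rfl
    have h14 : ε (z k) (n k) = x k := hn k
    rw [h14] at h13
    exact h13.2

end CI
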