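import Pool.Agent.CI.C.Alg
import Mathlib.SetTheory.Cardinal.Regular

/-!
# Project CI, core: the Delta-system lemma for finite sets
-/

set_option autoImplicit false

open Set Cardinal

namespace CI

universe u

section

variable {K I : Type u} {κ : Cardinal.{u}}

/-- the case in which every element belongs to few members of the family -/
theorem delFin_dj (hκ : κ.IsRegular) (hκ0 : ℵ₀ < κ) (d : I → Finset K) (A : Set I)
    (hA : #A = κ) (hne : ∀ i ∈ A, (d i).Nonempty)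
    (hx : ∀ x : K, #{i : I | i ∈ A ∧ x ∈ d i} < κ) :
    ∃ J ⊆ A, #J = κ ∧ ∀ i ∈ J, ∀ j ∈ J, i ≠ j → (d i : Set K) ∩ d j = ∅ := by
  obtain ⟨J, hJ⟩ := zorn_subset {J : Set I | J ⊆ A ∧
      ∀ i ∈ J, ∀ j ∈ J, i ≠ j → (d i : Set K) ∩ d j = ∅} (by
    intro c hc hch
    refine ⟨⋃₀ c, ⟨sUnion_subset fun s hs => (hc hs).1, ?_⟩, fun s hs => subset_sUnion_of_mem hs⟩
    rintro i ⟨s, hs, hi⟩ j ⟨t, ht, hj⟩ hij
    rcases hch.total hs ht with h | h
    · exact (hc ht).2 i (h hi) j hj hij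
    · exact (hc hs).2 i hi j (h hj) hij)
  obtain ⟨hJA, hJd⟩ := hJ.prop
  refine ⟨J, hJA, ?_, hJd⟩
  refine le_antisymm ((mk_le_mk_of_subset hJA).trans hA.le) ?_
  by_contra hlt
  rw [not_le] at hlt
  -- the union of the members of `J`
  have hU : #(⋃ i ∈ J, (d i : Set K) : Set K) < κ := by
    rw [card_biUnion_lt_iff_forall_of_isRegular hκ hlt]
    intro i _
    exact (lt_of_lt_of_le (Cardinal.lt_aleph0_of_finite _) hκ0.le)
  have hV : #(⋃ x ∈ (⋃ i ∈ J, (d i : Set K) : Set K), {i : I | i ∈ A ∧ x ∈ d i} : Set I) < κ := by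
    rw [card_biUnion_lt_iff_forall_of_isRegular hκ hU]
    intro x _
    exact hx x
  have hnot : ¬ A ⊆ (⋃ x ∈ (⋃ i ∈ J, (d i : Set K) : Set K), {i : I | i ∈ A ∧ x ∈ d i}) := by
    intro h
    exact absurd ((mk_le_mk_of_subset h).trans_lt hV) (by rw [hA]; exact lt_irrefl _)
  obtain ⟨i, hiA, hi⟩ := not_subset.1 hnot
  have hi' : ∀ j ∈ J, (d i : Set K) ∩ d j = ∅ := by
    intro j hj
    rw [← disjoint_iff_inter_eq_empty, Set.disjoint_left]
    intro x hxi hxj
    exact hi (mem_biUnion (mem_biUnion hj hxj) ⟨hiA, by exact_mod_cast hxi⟩)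
  have hiJ : i ∉ J := by
    intro h
    obtain ⟨x, hx⟩ := hne i hiA
    have h1 := hi' i h
    have h2 : x ∈ (d i : Set K) ∩ d i := ⟨by exact_mod_cast hx, by exact_mod_cast hx⟩
    rw [h1] at h2
    exact h2
  have hins : insert i J ∈ {J : Set I | J ⊆ A ∧
      ∀ i ∈ J, ∀ j ∈ J, i ≠ j → (d i : Set K) ∩ d j = ∅} := by
    refine ⟨insert_subset hiA hJA, ?_⟩
    rintro a (rfl | ha) b (rfl | hb) hab
    · exact absurd rfl hab
    · exact hi' b hb
    · rw [inter_comm]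
      exact hi' a ha
    · exact hJd a ha b hb hab
  exact hiJ (hJ.le_of_ge hins (subset_insert i J) (mem_insert i J))

open Classical in
/-- families of sets with the same number of elements -/
theorem delFin_card (hκ : κ.IsRegular) (hκ0 : ℵ₀ < κ) : ∀ (n : ℕ) (d : I → Finset K)
    (A : Set I), #A = κ → (∀ i ∈ A, (d i).card = n) → ∃ J ⊆ A, ∃ R : Finset K, #J = κ ∧
      ∀ i ∈ J, ∀ j ∈ J, i ≠ j → (d i : Set K) ∩ d j = R := by
  intro n
  induction n with
  | zero =>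
    intro d A hA hd
    refine ⟨A, Subset.rfl, ∅, hA, fun i hi j hj _ => ?_⟩
    rw [Finset.card_eq_zero.1 (hd i hi)]
    simp
  | succ n ih =>
    intro d A hA hd
    by_cases hx : ∀ x : K, #{i : I | i ∈ A ∧ x ∈ d i} < κ
    · obtain ⟨J, hJA, hJ, hJd⟩ := delFin_dj hκ hκ0 d A hA
        (fun i hi => Finset.card_pos.1 (by rw [hd i hi]; omega)) hx
      exact ⟨J, hJA, ∅, hJ, fun i hi j hj hij => by rw [hJd i hi j hj hij]; simp⟩
    · push Not at hx
      obtain ⟨x, hx⟩ := hx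
      have hx' : #{i : I | i ∈ A ∧ x ∈ d i} = κ :=
        le_antisymm ((mk_le_mk_of_subset fun i hi => hi.1).trans hA.le) hx
      obtain ⟨J, hJA, R, hJ, hJd⟩ := ih (fun i => (d i).erase x) {i : I | i ∈ A ∧ x ∈ d i} hx'
        (fun i hi => by rw [Finset.card_erase_of_mem hi.2, hd i hi.1]; rfl)
      refine ⟨J, fun i hi => (hJA hi).1, insert x R, hJ, fun i hi j hj hij => ?_⟩
      have h1 := hJd i hi j hj hij
      have hxi : x ∈ d i := (hJA hi).2
      have hxj : x ∈ d j := (hJA hj).2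
      ext y
      have h2 : (y ∈ (((d i).erase x : Finset K) : Set K) ∩ ((d j).erase x : Finset K)) ↔
          y ∈ (R : Set K) := by rw [h1]
      simp only [mem_inter_iff, Finset.mem_coe, Finset.mem_erase, Finset.mem_insert] at h2 ⊢
      by_cases hy : y = x
      · subst hy
        exact ⟨fun _ => Or.inl rfl, fun _ => ⟨hxi, hxj⟩⟩
      · constructor
        · rintro ⟨h3, h4⟩
          exact Or.inr (h2.1 ⟨⟨hy, h3⟩, hy, h4⟩)
        · rintro (h3 | h3)
          · exact absurd h3 hy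
          · exact ⟨(h2.2 h3).1.2, (h2.2 h3).2.2⟩

end

/-- Delta-system lemma for finite sets -/
theorem delFinStm : DelFinStm.{u} := by
  intro K I κ hκ hκ0 hI d
  obtain ⟨A, hA⟩ := le_mk_iff_exists_set.1 hI
  have h1 : ∃ n : ℕ, κ ≤ #{i : I | i ∈ A ∧ (d i).card = n} := by
    by_contra hcon
    push Not at hcon
    have h2 : #(⋃ n : ULift.{u} ℕ, {i : I | i ∈ A ∧ (d i).card = n.down} : Set I) < κ := by
      rw [card_iUnion_lt_iff_forall_of_isRegular hκ]
      · exact fun n => hcon n.down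
      · rw [mk_uLift, mk_nat, lift_aleph0]
        exact hκ0
    have h3 : A ⊆ ⋃ n : ULift.{u} ℕ, {i : I | i ∈ A ∧ (d i).card = n.down} := fun i hi =>
      mem_iUnion.2 ⟨⟨(d i).card⟩, hi, rfl⟩
    exact absurd ((mk_le_mk_of_subset h3).trans_lt h2) (by rw [hA]; exact lt_irrefl _)
  obtain ⟨n, hn⟩ := h1
  have hn' : #{i : I | i ∈ A ∧ (d i).card = n} = κ :=
    le_antisymm ((mk_le_mk_of_subset fun i hi => hi.1).trans hA.le) hn
  obtain ⟨J, -, R, hJ, hR⟩ := delFin_card hκ hκ0 n d _ hn' (fun i hi => hi.2)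
  exact ⟨J, R, hJ, hR⟩

end CI
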