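import Pool.Agent.CI.C.ItrStm

/-!
# Project CI, core: the element of a condition is the infimum of its coordinates
-/

set_option autoImplicit false

open Set Cardinal Pool.Agent.CL

namespace CI

universe u

section

variable {K Λ : Type u} [LinearOrder K] {D : Dat K Λ}

lemma eea_sng_le {p : PF K Λ} {b : K} {c : Λ} (h : p.f b = some c) :
    @LE.le (PD D) _ p (PF.sng b c) := by
  intro x d hx
  obtain ⟨rfl, rfl⟩ := PF.sng_f_eq_some.1 hx
  exact ⟨c, h, D.refl _ _ _⟩

lemma eea_le {q p : PF K Λ}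
    (h : ∀ b c, p.f b = some c → @LE.le (PD D) _ q (PF.sng b c : PF K Λ)) :
    @LE.le (PD D) _ q p := by
  intro b c hb
  exact h b c hb b c (PF.sng_f_same b c)

lemma eea_ref (p : PF K Λ) (F : Finset K) (hF : (F : Set K) ⊆ p.dom) (q : PF K Λ)
    (h : ∀ b c, p.f b = some c → q ∈ (eb D b c).S) :
    ∃ r : PF K Λ, @LE.le (PD D) _ r q ∧ ∀ b ∈ F, ∀ c, p.f b = some c →
      @LE.le (PD D) _ r (PF.sng b c : PF K Λ) := by
  classical
  induction F using Finset.induction_on with
  | empty => exact ⟨q, @le_rfl (PD D) _ q, by simp⟩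
  | insert b F hb ih =>
    obtain ⟨r, hr, hr'⟩ := ih fun x hx => hF (by simp [Finset.mem_coe.1 hx])
    obtain ⟨c, hc⟩ := PF.mem_dom.1 (hF (show b ∈ ((insert b F : Finset K) : Set K) by simp))
    obtain ⟨s, hs, hs'⟩ := ee_mem_iff.1 (h b c hc) r hr
    refine ⟨s, @le_trans (PD D) _ _ _ _ hs hr, ?_⟩
    intro x hx d hd
    rcases Finset.mem_insert.1 hx with rfl | hx
    · rw [hc] at hd
      cases hd
      exact hs'
    · exact @le_trans (PD D) _ _ _ _ hs (hr' x hx d hd)

lemma eea_mem {p q : PF K Λ} : q ∈ (ee D p).S ↔ ∀ b c, p.f b = some c → q ∈ (eb D b c).S := by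
  constructor
  · intro h b c hb
    exact ee_le_iff.1 ((ee_le_iff.2 h).trans (ee_mono (eea_sng_le hb)))
  · intro h
    rw [ee_mem_iff]
    intro r hr
    obtain ⟨s, hs, hs'⟩ := eea_ref (D := D) p p.dom_finite.toFinset (by simp) r fun b c hb =>
      ((eb D b c).isReg.down (h b c hb) hr)
    exact ⟨s, hs, eea_le fun b c hb => hs' b (by simpa using PF.mem_dom.2 ⟨c, hb⟩) c hb⟩

lemma eea_inf {p q r : PF K Λ} (h : ∀ b c, p.f b = some c ↔ q.f b = some c ∨ r.f b = some c) :
    ee D p = ee D q ⊓ ee D r := by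
  refine RO.ext' fun x => ?_
  rw [RO.mem_inf]
  refine (eea_mem (D := D) (p := p) (q := x)).trans (Iff.trans ?_
    (and_congr (eea_mem (D := D) (p := q) (q := x)) (eea_mem (D := D) (p := r) (q := x))).symm)
  constructor
  · intro h'
    exact ⟨fun b c hb => h' b c ((h b c).2 (Or.inl hb)), fun b c hb => h' b c ((h b c).2 (Or.inr hb))⟩
  · rintro ⟨h1, h2⟩ b c hb
    rcases (h b c).1 hb with hb | hb
    · exact h1 b c hb
    · exact h2 b c hb

end

theorem eeStm : EeStm.{u} := by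
  intro K Λ _ D
  refine ⟨?_, ?_, ?_, ?_, ?_, ?_⟩
  · intro p
    refine RO.ext' fun x => ?_
    refine (eea_mem (D := D) (p := p) (q := x)).trans ?_
    simp only [RO.mem_iInf]
    rfl
  · intro b c' c
    refine RO.le_of_dense fun q hq => ?_
    rw [RO.mem_inf] at hq
    obtain ⟨r, hr, hr'⟩ := ee_mem_iff.1 hq.2 q (@le_rfl (PD D) _ q)
    refine ⟨r, hr, ee_le_iff.1 (ee_mono ?_)⟩
    obtain ⟨c'', hc'', hm⟩ := hr' b c' (PF.sng_f_same b c')
    have h1 : r ∈ (dv D b c' c).S := (dv D b c' c).isReg.down hq.1 hr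
    have h2 : r.res (Iio b) ∈ D.D b c' c := mem_dv_res.2 h1
    intro x d hx
    obtain ⟨rfl, rfl⟩ := PF.sng_f_eq_some.1 hx
    exact ⟨c'', hc'', D.trans _ _ _ _ _ hm h2⟩
  · intro p b c hb
    refine eea_inf fun x d => ?_
    by_cases hx : x = b
    · subst hx
      rw [PF.upd_f_same, PF.sng_f_same, hb]
      simp
    · rw [PF.upd_f_ne hx, PF.sng_f_ne hx]
      simp
  · intro p b c hb
    exact ee_mono (eea_sng_le hb)
  · intro p Z
    refine eea_inf fun x d => ?_
    rw [PF.res_f_eq_some, PF.res_f_eq_some]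
    by_cases hx : x ∈ Z
    · simp [hx]
    · simp [hx]
  · intro p q h
    refine eea_inf fun x d => ?_
    by_cases hx : x ∈ p.dom
    · obtain ⟨c, hc⟩ := PF.mem_dom.1 hx
      rw [PF.ov_f_some hc, hc]
      have : q.f x = none := PF.notMem_dom.1 fun h' => h x h' hx
      rw [this]
      simp
    · have := PF.notMem_dom.1 hx
      rw [PF.ov_f_none this, this]
      simp

theorem iicStm (_h1 : TrStm.{u}) (h2 : SZStm.{u}) (_h3 : EeStm.{u}) : IicStm.{u} := by
  intro K Λ _ D Z b hZ hZb hb hΛ U hU hU0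
  obtain ⟨hcs, hee, hres, hex, hdis, hov⟩ := h2 K Λ D Z hZ
  obtain ⟨p, hp, hpU⟩ := hex U hU hU0
  obtain ⟨c₀⟩ := hΛ
  by_cases hbp : b ∈ p.dom
  · obtain ⟨c, hc⟩ := PF.mem_dom.1 hbp
    refine ⟨p.res (Iio b), c, ?_, ?_⟩
    · rw [PF.dom_res]
      exact fun x hx => ⟨hp hx.1, hx.2⟩
    · refine le_trans (le_of_eq ?_) hpU
      refine (eea_inf fun x d => ?_).symm
      rw [PF.res_f_eq_some, PF.sng_f_eq_some]
      constructor
      · intro hx
        rcases (hZb (hp (PF.mem_dom.2 ⟨d, hx⟩)) : x ≤ b).lt_or_eq with h | h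
        · exact Or.inl ⟨h, hx⟩
        · subst h
          rw [hc] at hx
          cases hx
          exact Or.inr ⟨rfl, rfl⟩
      · rintro (⟨_, hx⟩ | ⟨rfl, rfl⟩)
        · exact hx
        · exact hc
  · refine ⟨p.res (Iio b), c₀, ?_, ?_⟩
    · rw [PF.dom_res]
      exact fun x hx => ⟨hp hx.1, hx.2⟩
    · refine le_trans inf_le_left (le_trans (le_of_eq ?_) hpU)
      rw [PF.res_eq_self]
      intro x hx
      rcases (hZb (hp hx) : x ≤ b).lt_or_eq with h | h
      · exact h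
      · subst h
        exact absurd hx hbp

end CI
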