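import Pool.Agent.CI.C.CndStm

/-!
# Project CI, core: the stem can be made longer
-/

set_option autoImplicit false

open Set

namespace CI

universe u

section

variable {B : Type u} [CompleteBooleanAlgebra B] {W : Set B} {κ : Kd}

theorem ext_step (h1 : KwStm) (c : CndS κ W) :
    (⨆ v : ℕ, ⨅ j : ℕ, ⨅ _ : j ∈ κ.Bad c.t.length v, (c.f c.t.length j)ᶜ) = ⊤ := by
  classical
  by_contra hne
  set k := c.t.length with hk
  set b := (⨆ v : ℕ, ⨅ j : ℕ, ⨅ _ : j ∈ κ.Bad k v, (c.f k j)ᶜ)ᶜ with hb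
  have hb0 : b ≠ ⊥ := by
    rw [hb]
    intro h
    exact hne (compl_eq_bot.1 h)
  have hbv : ∀ v : ℕ, b ⊓ ⨅ j : ℕ, ⨅ _ : j ∈ κ.Bad k v, (c.f k j)ᶜ = ⊥ := by
    intro v
    rw [← le_bot_iff]
    calc b ⊓ ⨅ j : ℕ, ⨅ _ : j ∈ κ.Bad k v, (c.f k j)ᶜ
        ≤ b ⊓ ⨆ v : ℕ, ⨅ j : ℕ, ⨅ _ : j ∈ κ.Bad k v, (c.f k j)ᶜ :=
          inf_le_inf_left _ (le_iSup (fun v : ℕ => ⨅ j : ℕ, ⨅ _ : j ∈ κ.Bad k v, (c.f k j)ᶜ) v)
      _ = ⊥ := by rw [hb]; exact compl_inf_self _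
  have hsz : ∀ s : Finset ℕ, b ⊓ s.inf (c.f k) ≠ ⊥ → s.card ≤ κ.w c.N k := by
    intro s hs
    by_contra hc
    obtain ⟨s', hs', hc'⟩ := Finset.exists_subset_card_eq (Nat.succ_le_of_lt (not_le.1 hc))
    apply hs
    rw [← le_bot_iff, ← c.wd k s' hc']
    exact inf_le_right.trans (Finset.inf_mono hs')
  have hex : ∃ n : ℕ, n ≤ κ.w c.N k ∧ ∃ s : Finset ℕ, s.card = n ∧ b ⊓ s.inf (c.f k) ≠ ⊥ :=
    ⟨0, Nat.zero_le _, ∅, rfl, by rw [Finset.inf_empty, inf_top_eq]; exact hb0⟩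
  obtain ⟨s, hs, hmax⟩ : ∃ s : Finset ℕ, b ⊓ s.inf (c.f k) ≠ ⊥ ∧
      ∀ s' : Finset ℕ, b ⊓ s'.inf (c.f k) ≠ ⊥ → s'.card ≤ s.card := by
    obtain ⟨n0, hn0, s0, hs0, hs0'⟩ := hex
    let P : ℕ → Prop := fun n => ∃ s : Finset ℕ, s.card = n ∧ b ⊓ s.inf (c.f k) ≠ ⊥
    have hP : P (Nat.findGreatest P (κ.w c.N k)) :=
      Nat.findGreatest_spec (P := P) hn0 ⟨s0, hs0, hs0'⟩
    obtain ⟨s, hs, hs'⟩ := hP
    refine ⟨s, hs', fun s' h' => ?_⟩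
    rw [hs]
    exact Nat.le_findGreatest (P := P) (hsz s' h') ⟨s', rfl, h'⟩
  obtain ⟨v, hv⟩ := (h1 κ).2.2 c.N k s c.ln (hsz s hs)
  apply hs
  rw [← le_bot_iff, ← hbv v]
  refine le_inf inf_le_left (le_iInf fun j => le_iInf fun hj => ?_)
  have hjs : j ∉ s := fun h => hv j h hj
  rw [le_compl_iff_disjoint_right, disjoint_iff]
  by_contra hne2
  have h3 : b ⊓ (insert j s).inf (c.f k) ≠ ⊥ := by
    rw [Finset.inf_insert]
    rwa [inf_comm (c.f k j), ← inf_assoc]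
  have h4 := hmax _ h3
  rw [Finset.card_insert_of_notMem hjs] at h4
  omega

end

theorem ext_ind {B : Type u} [CompleteBooleanAlgebra B] {W : Set B} {κ : Kd} (hW : IsSS W)
    (h1 : KwStm) (h2 : SOneStm.{u}) (h3 : SCmpStm.{u}) (m : ℕ) : ∀ c : CndS κ W,
    (⨆ d : CndS κ W, ⨆ _ : d.t.length = c.t.length + m ∧ c.t <+: d.t ∧ d.N = c.N ∧ d.f = c.f,
      d.cmp c) = ⊤ := by
  induction m with
  | zero =>
    intro c
    rw [← top_le_iff]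
    refine le_iSup_of_le c (le_iSup_of_le ⟨rfl, List.prefix_rfl, rfl, rfl⟩ ?_)
    rw [(h3 B W κ hW c c c).1]
  | succ m ih =>
    intro c
    rw [← top_le_iff, ← ext_step h1 c]
    refine iSup_le fun v => ?_
    obtain ⟨d, hdt, hdN, hdf, hdc⟩ := h2 B W κ hW c v
    rw [← hdc, ← inf_top_eq (d.cmp c), ← ih d, inf_iSup_eq]
    refine iSup_le fun e => ?_
    rw [inf_iSup_eq]
    refine iSup_le fun he => ?_
    refine le_iSup_of_le e (le_iSup_of_le ⟨?_, ?_, ?_, ?_⟩ ?_)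
    · rw [he.1, hdt, List.length_append]
      simp only [List.length_cons, List.length_nil]
      omega
    · refine List.IsPrefix.trans ?_ he.2.1
      rw [hdt]
      exact List.prefix_append _ _
    · rw [he.2.2.1, hdN]
    · rw [he.2.2.2, hdf]
    · rw [inf_comm]
      exact (h3 B W κ hW c d e).2.1

theorem sExtStm (h1 : KwStm) (h2 : SOneStm.{u}) (h3 : SCmpStm.{u}) : SExtStm.{u} := by
  intro B _ W κ hW c n hn
  have h := ext_ind hW h1 h2 h3 (n - c.t.length) c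
  rwa [Nat.add_sub_cancel' hn] at h

end CI
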