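import Pool.Agent.CI.C.StepStm

/-!
# Project CI, core: generic objects
-/

set_option autoImplicit false

open Set Cardinal Pool.Agent.CL

namespace CI

universe u

section

variable {K Λ : Type u} [LinearOrder K] {D : Dat K Λ}

private theorem gn_eb {b : K} {c : Λ} {p : PF K Λ} (h : p ∈ (eb D b c).S) :
    ∃ t : PF K Λ, @LE.le (PD D) _ t p ∧ ∃ c'', t.f b = some c'' ∧
      t.res (Iio b) ∈ (dv D b c'' c).S := by
  have h0 : p ∈ (ee D (PF.sng b c)).S := h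
  obtain ⟨t, ht, ht'⟩ := (ee_mem_iff.1 h0) p (@le_rfl (PD D) _ p)
  obtain ⟨c'', h1, h2⟩ := ht' b c (PF.sng_f_same b c)
  exact ⟨t, ht, c'', h1, h2⟩

private theorem gn_step {b : K} {c c'' : Λ} {t t' : PF K Λ} (h : @LE.le (PD D) _ t' t)
    (h1 : t.f b = some c'') (h2 : t.res (Iio b) ∈ (dv D b c'' c).S) :
    ∃ c3, t'.f b = some c3 ∧ t'.res (Iio b) ∈ (dv D b c3 c).S := by
  obtain ⟨c3, h3, h4⟩ := h b c'' h1
  refine ⟨c3, h3, ?_⟩
  have h5 : @LE.le (PD D) _ (t'.res (Iio b)) (t.res (Iio b)) :=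
    res_mono_lower (isLowerSet_Iio b) h
  exact D.trans b c3 c'' c _ h4 (D.down b c'' c _ _ h5 h2)

private theorem gn_two {b : K} {c c1 : Λ} {p : PF K Λ} (h : p ∈ (eb D b c).S)
    (h1 : p ∈ (eb D b c1).S) : ∃ t : PF K Λ, @LE.le (PD D) _ t p ∧ ∃ c3, t.f b = some c3 ∧
      t.res (Iio b) ∈ (dv D b c3 c).S ∧ t.res (Iio b) ∈ (dv D b c3 c1).S := by
  obtain ⟨t, ht, c2, h2, h3⟩ := gn_eb h
  obtain ⟨t', ht', c3, h4, h5⟩ := gn_eb ((eb D b c1).isReg.down h1 ht)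
  obtain ⟨c4, h6, h7⟩ := gn_step ht' h2 h3
  rw [h4] at h6
  cases h6
  exact ⟨t', @le_trans (PD D) _ _ _ _ ht' ht, c3, h4, h7, h5⟩

private theorem gn_upd {b : K} {c c' : Λ} {r : PF K Λ} (h : r.f b = some c)
    (h1 : r ∈ (dv D b c' c).S) : @LE.le (PD D) _ (r.upd b c') r := by
  intro x d hx
  by_cases hxb : x = b
  · subst hxb
    rw [h] at hx
    cases hx
    refine ⟨c', PF.upd_f_same _ _ _, ?_⟩
    have h2 : (r.upd x c').res (Iio x) = r.res (Iio x) := by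
      ext y e
      simp only [PF.res_f_eq_some]
      constructor
      · rintro ⟨h3, h4⟩
        rw [PF.upd_f_ne (ne_of_lt h3)] at h4
        exact ⟨h3, h4⟩
      · rintro ⟨h3, h4⟩
        rw [PF.upd_f_ne (ne_of_lt h3)]
        exact ⟨h3, h4⟩
    rw [h2]
    exact mem_dv_res.2 h1
  · exact ⟨d, by rw [PF.upd_f_ne hxb]; exact hx, D.refl _ _ _⟩

private theorem gn_new {b : K} {c : Λ} {r : PF K Λ} (h : r.f b = none) :
    @LE.le (PD D) _ (r.upd b c) r := by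
  intro x d hx
  have hxb : x ≠ b := by
    rintro rfl
    rw [h] at hx
    cases hx
  exact ⟨d, by rw [PF.upd_f_ne hxb]; exact hx, D.refl _ _ _⟩

private theorem gn_cong {U V : BB D} (h : U = V) {p : PF K Λ} (hp : p ∈ U.S) : p ∈ V.S := by
  subst h
  exact hp

private theorem gn_cs {B : Type u} [CompleteBooleanAlgebra B] {Y : Set B} (hY : IsCS Y)
    {ι : Sort*} (f : ι → B) (hf : ∀ i, f i ∈ Y) : ⨆ i, f i ∈ Y := by
  refine hY.sSup (Set.range f) ?_
  rintro _ ⟨i, rfl⟩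
  exact hf i

private theorem gn_at {t t' : List ℕ} (h : t <+: t') {k : ℕ} (hk : k < t.length) :
    at' t' k = at' t k := by
  obtain ⟨s, rfl⟩ := h
  exact List.getD_append _ _ _ _ hk

end

section

variable {K Λ L : Type u} [LinearOrder K] [LinearOrder L] (S : Sys K Λ L)

private theorem gn_pre {b : K} (hb : (S.kd b).isS) {c'' c : Λ} {p : PF K Λ}
    (h : p ∈ (dv S.D b c'' c).S) : S.st b c <+: S.st b c'' := by
  by_contra hn
  have e : (S.cS b c'').cmp (S.cS b c) = ⊥ := if_neg hn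
  exact RO.not_mem_bot (Q := PD S.D) p (gn_cong (((S.vS b hb).1 c'' c).trans e) h)

private theorem gn_bad {b : K} (hb : (S.kd b).isS) {c'' c : Λ} {p : PF K Λ}
    (h : p ∈ (dv S.D b c'' c).S) {k j : ℕ} (h1 : (S.st b c).length ≤ k)
    (h2 : k < (S.st b c'').length) (h3 : j ∈ (S.kd b).Bad k (at' (S.st b c'') k)) :
    p ∈ (((S.cS b c).f k j)ᶜ).S := by
  have hp : (S.cS b c).t <+: (S.cS b c'').t := gn_pre S hb h
  have e : (S.cS b c'').cmp (S.cS b c) = _ := if_pos hp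
  have h4 := (RO.mem_inf (Q := PD S.D)).1 (gn_cong (((S.vS b hb).1 c'' c).trans e) h)
  have h5 := (RO.mem_iInf (Q := PD S.D)).1 h4.2 k
  have h6 := (RO.mem_iInf (Q := PD S.D)).1 h5 ⟨h1, h2⟩
  have h7 := (RO.mem_iInf (Q := PD S.D)).1 h6 j
  exact (RO.mem_iInf (Q := PD S.D)).1 h7 h3

private theorem gn_ne (b : K) (hb : (S.kd b).isS) : Nonempty Λ := by
  have c0 : CndS (S.kd b) (S.W b) :=
    { t := []
      N := 0
      f := fun _ _ => ⊥
      mem := fun _ _ => (S.ss b).bot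
      wd := by
        intro k s hs
        have h1 : 0 < s.card := by omega
        obtain ⟨x, hx⟩ := Finset.card_pos.1 h1
        exact le_bot_iff.1 (Finset.inf_le (f := fun _ : ℕ => (⊥ : BB S.D)) hx)
      ln := by
        cases S.kd b <;> simp [Kd.len] }
  obtain ⟨c, _⟩ := (S.vS b hb).2 c0
  exact ⟨c⟩

end

/-- every condition can be extended to one with a long stem -/
theorem longStm (h : SExtStm.{u}) : LongStm.{u} := by
  intro K Λ L _ _ S b hb U c n hU hU0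
  have h1 := h (BB S.D) (S.W b) (S.kd b) (S.ss b) (S.cS b c) (max n (S.st b c).length)
    (le_max_right _ _)
  have h2 : U ⊓ (⨆ d : CndS (S.kd b) (S.W b), ⨆ _ : d.t.length = max n (S.st b c).length ∧
      (S.cS b c).t <+: d.t ∧ d.N = (S.cS b c).N ∧ d.f = (S.cS b c).f, d.cmp (S.cS b c)) ≠ ⊥ := by
    rw [h1, inf_top_eq]
    exact hU0
  rw [inf_iSup₂_eq] at h2
  have h3 : ∃ d : CndS (S.kd b) (S.W b), (d.t.length = max n (S.st b c).length ∧
      (S.cS b c).t <+: d.t ∧ d.N = (S.cS b c).N ∧ d.f = (S.cS b c).f) ∧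
      U ⊓ d.cmp (S.cS b c) ≠ ⊥ := by
    by_contra hcon
    push Not at hcon
    exact h2 (le_bot_iff.1 (iSup₂_le fun d hd => (hcon d hd).le))
  obtain ⟨d, ⟨hd1, hd2, hd3, hd4⟩, hd5⟩ := h3
  obtain ⟨c', rfl⟩ := (S.vS b hb).2 d
  rw [← (S.vS b hb).1 c' c] at hd5
  refine ⟨U ⊓ dv S.D b c' c, ?_, hd5, inf_le_left, c', hd2, hd1, inf_le_right, hd3, hd4⟩
  intro p
  have e1 := hU p
  have e2 := dv_mem_Iio (D := S.D) b c' c p
  constructor
  · intro hp
    have hp' := (RO.mem_inf (Q := PD S.D)).1 hp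
    exact (RO.mem_inf (Q := PD S.D)).2 ⟨e1.1 hp'.1, e2.1 hp'.2⟩
  · intro hp
    have hp' := (RO.mem_inf (Q := PD S.D)).1 hp
    exact (RO.mem_inf (Q := PD S.D)).2 ⟨e1.2 hp'.1, e2.2 hp'.2⟩

/-- the generic object -/
theorem genStm (_h1 : SCmpStm.{u}) (h2 : LongStm.{u}) (h3 : SZStm.{u}) (h4 : ZlStm.{u})
    (h5 : EeStm.{u}) (h6 : TrStm.{u}) : GenStm.{u} := by
  intro K Λ L _ _ S b hb
  have gmem : ∀ (k v : ℕ) (p : PF K Λ), p ∈ (S.gen b k v).S →
      ∃ r : PF K Λ, @LE.le (PD S.D) _ r p ∧ ∃ c, k < (S.st b c).length ∧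
        at' (S.st b c) k = v ∧ r ∈ (eb S.D b c).S := by
    intro k v p hp
    obtain ⟨r, hr, c, hc⟩ := (RO.mem_iSup (Q := PD S.D)).1 hp p (@le_rfl (PD S.D) _ p)
    obtain ⟨r', hr', hx, hc'⟩ := (RO.mem_iSup (Q := PD S.D)).1 hc r (@le_rfl (PD S.D) _ r)
    exact ⟨r', @le_trans (PD S.D) _ _ _ _ hr' hr, c, hx.1, hx.2, hc'⟩
  have H1 : ∀ k v v', v ≠ v' → S.gen b k v ⊓ S.gen b k v' = ⊥ := by
    intro k v v' hv
    refine (RO.eq_bot_iff' (Q := PD S.D)).2 fun p hp => ?_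
    obtain ⟨hp1, hp2⟩ := (RO.mem_inf (Q := PD S.D)).1 hp
    obtain ⟨r, hr, c, hc1, hc2, hc3⟩ := gmem k v p hp1
    obtain ⟨r', hr', c', hc1', hc2', hc3'⟩ :=
      gmem k v' r ((S.gen b k v').isReg.down hp2 hr)
    obtain ⟨t, ht, c3, ht1, ht2, ht3⟩ := gn_two ((eb S.D b c).isReg.down hc3 hr') hc3'
    have e1 := gn_at (gn_pre S hb ht2) hc1
    have e2 := gn_at (gn_pre S hb ht3) hc1'
    exact hv (by rw [← hc2, ← hc2', ← e1, ← e2])
  have H3 : ∀ c k, k < (S.st b c).length → eb S.D b c ≤ S.gen b k (at' (S.st b c) k) := by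
    intro c k hk
    unfold Sys.gen
    exact le_iSup₂_of_le c ⟨hk, rfl⟩ le_rfl
  have hTr : Tr S.D (Iic b ∩ S.Zl (S.lay b)) :=
    (Tr_of_lower (isLowerSet_Iic b)).inter (h4 K Λ L S (S.lay b))
  have hIio : Tr S.D (Iio b) := Tr_of_lower (isLowerSet_Iio b)
  have H7 : ∀ c, eb S.D b c ∈ SZ S.D (Iic b ∩ S.Zl (S.lay b)) := by
    intro c
    refine (h3 K Λ S.D _ hTr).2.1 (PF.sng b c) ?_
    rw [PF.dom_sng]
    rintro x rfl
    exact ⟨le_refl x, le_refl (S.lay x)⟩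
  refine ⟨H1, ?_, H3, ?_, ?_, ?_, H7⟩
  · intro k
    -- labels
    have key : ∀ (q : PF K Λ) (c : Λ), q.f b = some c → ∃ r : PF K Λ,
        @LE.le (PD S.D) _ r q ∧ ∃ v, r ∈ (S.gen b k v).S := by
      intro q c hq
      have hU : ee S.D (q.res (Iio b)) ∈ SZ S.D (Iio b) :=
        (h3 K Λ S.D _ hIio).2.1 _ (PF.dom_res_subset q _)
      obtain ⟨V, hV, hV0, hVU, c', hpre, hlen, hVd, _, _⟩ :=
        h2 K Λ L S b hb _ c (k + 1) hU (ee_ne_bot _)
      obtain ⟨s, hs, hsV⟩ := (h3 K Λ S.D _ hIio).2.2.2.1 V hV hV0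
      have hsq : s ∈ (ee S.D (q.res (Iio b))).S := ee_le_iff.1 (hsV.trans hVU)
      obtain ⟨s', hs1, hs2⟩ := (ee_mem_iff.1 hsq) s (@le_rfl (PD S.D) _ s)
      have hs3 : @LE.le (PD S.D) _ (s'.res (Iio b)) (q.res (Iio b)) := by
        have h7 := res_mono_lower (D := S.D) (isLowerSet_Iio b) hs2
        rw [PF.res_res, inter_self] at h7
        exact h7
      have hs4 : @LE.le (PD S.D) _ (s'.res (Iio b)) s := by
        have h7 := res_mono_lower (D := S.D) (isLowerSet_Iio b) hs1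
        rw [PF.res_eq_self hs] at h7
        exact h7
      obtain ⟨ha1, ha2⟩ := (h6 K Λ S.D _ hIio).1 (s'.res (Iio b)) q (PF.dom_res_subset s' _) hs3
      have hnone : (s'.res (Iio b)).f b = none := PF.res_f_of_notMem (lt_irrefl b)
      have hr1 : ((s'.res (Iio b)).ov q).f b = some c := (PF.ov_f_none hnone).trans hq
      have hr2 : (s'.res (Iio b)).ov q ∈ (dv S.D b c' c).S := by
        refine ee_le_iff.1 ?_
        exact (ee_mono ha1).trans ((ee_mono hs4).trans (hsV.trans hVd))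
      have hr3 := gn_upd hr1 hr2
      refine ⟨((s'.res (Iio b)).ov q).upd b c', @le_trans (PD S.D) _ _ _ _ hr3 ha2,
        at' (S.st b c') k, ?_⟩
      have hk : k < (S.st b c').length := by
        rw [hlen]
        exact lt_of_lt_of_le (Nat.lt_succ_self k) (le_max_left _ _)
      refine ee_le_iff.1 ?_
      exact ((h5 K Λ S.D).2.2.2.1 _ b c' (PF.upd_f_same _ _ _)).trans (H3 c' k hk)
    refine (RO.eq_top_iff' (Q := PD S.D)).2 fun p => ?_
    refine (RO.mem_iSup (Q := PD S.D)).2 fun q _ => ?_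
    rcases hqb : PF.f (q : PF K Λ) b with _ | c
    · obtain ⟨c⟩ := gn_ne S b hb
      obtain ⟨r, hr, v, hv⟩ := key (PF.upd q b c) c (PF.upd_f_same _ _ _)
      exact ⟨r, @le_trans (PD S.D) _ _ _ _ hr (gn_new hqb), v, hv⟩
    · obtain ⟨r, hr, v, hv⟩ := key q c hqb
      exact ⟨r, hr, v, hv⟩
  · intro c k v j hk hj
    refine (RO.eq_bot_iff' (Q := PD S.D)).2 fun p hp => ?_
    obtain ⟨hp0, hp3⟩ := (RO.mem_inf (Q := PD S.D)).1 hp
    obtain ⟨hp1, hp2⟩ := (RO.mem_inf (Q := PD S.D)).1 hp0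
    obtain ⟨r, hr, c1, hc1, hc2, hc3⟩ := gmem k v p hp2
    obtain ⟨t, ht, c3, ht1, ht2, ht3⟩ := gn_two ((eb S.D b c).isReg.down hp1 hr) hc3
    have hp4 := gn_pre S hb ht3
    have e1 := gn_at hp4 hc1
    have hk3 : k < (S.st b c3).length := lt_of_lt_of_le hc1 hp4.length_le
    have hb1 := gn_bad S hb ht2 hk hk3 (by rw [e1, hc2]; exact hj)
    have hfW : (S.cS b c).f k j ∈ SZ S.D (Iio b) :=
      SZ_mono inter_subset_left (S.sub b ((S.cS b c).mem k j))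
    have ht4 : t ∈ ((S.cS b c).f k j).S :=
      ((S.cS b c).f k j).isReg.down (((S.cS b c).f k j).isReg.down hp3 hr) ht
    have ht5 := (hfW t).1 ht4
    exact (RO.mem_compl (Q := PD S.D)).1 hb1 _ (@le_rfl (PD S.D) _ _) ht5
  · intro c k v hk hv
    refine le_bot_iff.1 ((inf_le_inf_right _ (H3 c k hk)).trans ?_)
    rw [H1 _ _ _ hv]
  · intro k v
    have hcs := (h3 K Λ S.D _ hTr).1
    unfold Sys.gen
    exact gn_cs hcs _ fun c => gn_cs hcs _ fun _ => H7 c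

end CI
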