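import Pool.Agent.CI.C.LowStm

/-!
# Project CI, row L3: dominating functions, closed sets of the eventually different reals
-/

set_option autoImplicit false

open Set Cardinal Pool.Agent.CL

namespace CI

universe u

namespace Hech

section

variable {B : Type u} [CompleteBooleanAlgebra B]

lemma ss_iSup {W : Set B} (hW : IsSS W) {α : Type} [Countable α] (f : α → B)
    (h : ∀ a, f a ∈ W) : ⨆ a, f a ∈ W := by
  rcases isEmpty_or_nonempty α with hα | hα
  · rw [iSup_of_empty]; exact hW.bot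
  · obtain ⟨e, he⟩ := exists_surjective_nat α
    have := hW.iSup (fun n => f (e n)) fun n => h _
    rwa [he.iSup_comp f] at this

lemma ss_iInf {W : Set B} (hW : IsSS W) {α : Type} [Countable α] (f : α → B)
    (h : ∀ a, f a ∈ W) : ⨅ a, f a ∈ W := by
  have := hW.compl _ (ss_iSup hW (fun a => (f a)ᶜ) fun a => hW.compl _ (h a))
  rw [compl_iSup] at this
  simpa using this

lemma ss_prop {W : Set B} (hW : IsSS W) (P : Prop) (a : B) (h : P → a ∈ W) :
    (⨆ _ : P, a) ∈ W := by
  by_cases hP : P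
  · rw [iSup_pos hP]; exact h hP
  · rw [iSup_neg hP]; exact hW.bot

lemma inf_two {s : Finset ℕ} (hs : 1 < s.card) {g : ℕ → B}
    (hg : ∀ v v', v ≠ v' → g v ⊓ g v' = ⊥) : s.inf g = ⊥ := by
  obtain ⟨a, ha, b, hb, hab⟩ := Finset.one_lt_card.1 hs
  exact le_bot_iff.1 ((le_inf (Finset.inf_le ha) (Finset.inf_le hb)).trans (hg a b hab).le)

/-! ### cylinders -/

lemma cut_le (x : Rl B) {n : ℕ} (a : Finset ℕ) {i : ℕ} (hi : i < n) :
    cutV x n a ≤ if i ∈ a then x i else (x i)ᶜ :=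
  iInf_le (fun i : Fin n => if (i : ℕ) ∈ a then x i else (x i)ᶜ) ⟨i, hi⟩

lemma le_cut (x : Rl B) {n : ℕ} (a : Finset ℕ) {b : B}
    (h : ∀ i < n, b ≤ if i ∈ a then x i else (x i)ᶜ) : b ≤ cutV x n a :=
  le_iInf fun i => h i i.2

lemma cut_mono (x : Rl B) {m m' : ℕ} {a a' : Finset ℕ} (hm : m' ≤ m)
    (h : ∀ i < m', i ∈ a' ↔ i ∈ a) : cutV x m a ≤ cutV x m' a' :=
  le_cut x a' fun i hi => by
    have := cut_le x a (lt_of_lt_of_le hi hm)
    simp only [h i hi]
    exact this

lemma cut_disj (x : Rl B) {m : ℕ} {a a' : Finset ℕ} (ha : a ⊆ Finset.range m)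
    (ha' : a' ⊆ Finset.range m) (h : a ≠ a') : Disjoint (cutV x m a) (cutV x m a') := by
  obtain ⟨i, hi⟩ : ∃ i, ¬ (i ∈ a ↔ i ∈ a') := by
    by_contra hc
    push Not at hc
    exact h (Finset.ext hc)
  rw [disjoint_iff_inf_le]
  have key : ∀ b b' : Finset ℕ, b ⊆ Finset.range m → i ∈ b → i ∉ b' →
      cutV x m b ⊓ cutV x m b' ≤ ⊥ := by
    intro b b' hb h1 h2
    have him : i < m := Finset.mem_range.1 (hb h1)
    have e1 := cut_le x b him
    have e2 := cut_le x b' him
    rw [if_pos h1] at e1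
    rw [if_neg h2] at e2
    exact (inf_le_inf e1 e2).trans (inf_compl_eq_bot (a := x i)).le
  by_cases h1 : i ∈ a
  · by_cases h2 : i ∈ a'
    · exact absurd (iff_of_true h1 h2) hi
    · exact key a a' ha h1 h2
  · by_cases h2 : i ∈ a'
    · rw [inf_comm]; exact key a' a ha' h2 h1
    · exact absurd (iff_of_false h1 h2) hi

lemma cut_top (x : Rl B) (m : ℕ) :
    ⨆ a : Finset ℕ, ⨆ _ : a ⊆ Finset.range m, cutV x m a = ⊤ := by
  induction m with
  | zero =>
    refine top_le_iff.1 (le_iSup₂_of_le (∅ : Finset ℕ) (by simp) ?_)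
    exact le_cut x _ fun i hi => absurd hi (Nat.not_lt_zero i)
  | succ m ih =>
    rw [eq_top_iff, ← ih]
    refine iSup₂_le fun a ha => ?_
    have hma : m ∉ a := fun h => by simpa using ha h
    have h1 : cutV x m a ⊓ x m ≤ cutV x (m + 1) (insert m a) := le_cut x _ fun i hi => by
      rcases Nat.lt_succ_iff_lt_or_eq.1 hi with h | h
      · have h2 : (i ∈ insert m a) ↔ i ∈ a := by simp [h.ne]
        simp only [h2]
        exact inf_le_left.trans (cut_le x a h)
      · subst h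
        rw [if_pos (Finset.mem_insert_self _ _)]
        exact inf_le_right
    have h2 : cutV x m a ⊓ (x m)ᶜ ≤ cutV x (m + 1) a := le_cut x _ fun i hi => by
      rcases Nat.lt_succ_iff_lt_or_eq.1 hi with h | h
      · exact inf_le_left.trans (cut_le x a h)
      · subst h
        rw [if_neg hma]
        exact inf_le_right
    have h3 : cutV x m a ≤ cutV x (m + 1) (insert m a) ⊔ cutV x (m + 1) a := by
      calc cutV x m a = cutV x m a ⊓ x m ⊔ cutV x m a ⊓ (x m)ᶜ := by
            rw [← inf_sup_left, sup_compl_eq_top, inf_top_eq]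
        _ ≤ _ := sup_le_sup h1 h2
    have hs : a ⊆ Finset.range (m + 1) := ha.trans (Finset.range_mono (Nat.le_succ m))
    have hs' : insert m a ⊆ Finset.range (m + 1) :=
      Finset.insert_subset (Finset.mem_range.2 (Nat.lt_succ_self m)) hs
    exact h3.trans (sup_le (le_iSup₂_of_le (insert m a) hs' le_rfl) (le_iSup₂_of_le a hs le_rfl))

lemma cut_mem {W : Set B} (hW : IsSS W) (x : Rl B) (hx : ∀ n, x n ∈ W) (n : ℕ) (a : Finset ℕ) :
    cutV x n a ∈ W := by
  refine ss_iInf hW _ fun i => ?_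
  split_ifs
  · exact hx _
  · exact hW.compl _ (hx _)

/-! ### codes of blocks -/

lemma blk_congr {s l : ℕ} {a a' : Finset ℕ} (h : ∀ i < l, s + i ∈ a ↔ s + i ∈ a') :
    blk s l a = blk s l a' :=
  Finset.sum_congr rfl fun i hi => by simp only [h i (Finset.mem_range.1 hi)]

lemma blk_ne {s l i : ℕ} {a a' : Finset ℕ} (hi : i < l) (h1 : s + i ∉ a) (h2 : s + i ∈ a')
    (h : a ⊆ a') : blk s l a ≠ blk s l a' := by
  refine ne_of_lt (Finset.sum_lt_sum (fun j _ => ?_) ⟨i, Finset.mem_range.2 hi, ?_⟩)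
  · by_cases hj : s + j ∈ a
    · rw [if_pos hj, if_pos (h hj)]
    · rw [if_neg hj]; exact Nat.zero_le _
  · rw [if_neg h1, if_pos h2]
    exact pow_pos two_pos i

end

/-! ### merging a condition -/

section

variable {K Λ : Type u} [LinearOrder K] {D : Dat K Λ}

lemma upd_le {p : PF K Λ} {b : K} {c c' : Λ} (hp : p.f b = some c) (h : dv D b c' c = ⊤) :
    @LE.le (PD D) _ (p.upd b c') p := by
  intro x d hx
  by_cases hxb : x = b
  · subst hxb
    have hcd : c = d := Option.some.inj (hp.symm.trans hx)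
    subst hcd
    refine ⟨c', PF.upd_f_same _ _ _, ?_⟩
    have h2 : ee D ((p.upd x c').res (Iio x)) ≤ dv D x c' c := by rw [h]; exact le_top
    exact mem_dv.1 (ee_le_iff.1 h2)
  · exact ⟨d, by rw [PF.upd_f_ne hxb]; exact hx, D.refl _ _ _⟩

lemma upd_le' {p : PF K Λ} {b : K} {c : Λ} (hp : p.f b = none) :
    @LE.le (PD D) _ (p.upd b c) p := by
  intro x d hx
  have hxb : x ≠ b := by
    rintro rfl
    rw [hp] at hx
    exact absurd hx (by simp)
  exact ⟨d, by rw [PF.upd_f_ne hxb]; exact hx, D.refl _ _ _⟩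

end

lemma main {K Λ L : Type u} [LinearOrder K] [LinearOrder L] (S : Sys K Λ L) (b : K)
    (h2 : SMrgStm.{u}) (h3 : GenStm.{u}) (h4 : EeStm.{u})
    (hb : (S.kd b).isS) (hlen : ∀ N, (S.kd b).len N = 0)
    (f' : ℕ → ℕ → BB S.D) (hf : ∀ k j, f' k j ∈ S.W b)
    (hw : ∀ k (s : Finset ℕ), s.card = (S.kd b).w 1 k + 1 → s.inf (f' k) = ⊥)
    (p : PF K Λ) :
    ∃ (q : PF K Λ) (c' : Λ) (n : ℕ), ee S.D q ≤ ee S.D p ∧ ee S.D q ≤ eb S.D b c' ∧
      ∀ k v j, n ≤ k → j ∈ (S.kd b).Bad k v → eb S.D b c' ⊓ S.gen b k v ⊓ f' k j = ⊥ := by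
  obtain ⟨hv, hs⟩ := S.vS b hb
  obtain ⟨p', c, hpc, hp'⟩ : ∃ (p' : PF K Λ) (c : Λ), p'.f b = some c ∧
      ee S.D p' ≤ ee S.D p := by
    rcases h : p.f b with _ | c
    · obtain ⟨c0, -⟩ := hs
        { t := [], N := 0, f := fun _ _ => ⊥, mem := fun _ _ => (S.ss b).bot,
          wd := fun k s hs => by
            obtain ⟨j, hj⟩ := Finset.card_pos.1 (by rw [hs]; exact Nat.succ_pos _)
            exact le_bot_iff.1 (Finset.inf_le hj)
          ln := by rw [hlen]; exact Nat.zero_le _ }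
      exact ⟨p.upd b c0, c0, PF.upd_f_same _ _ _, ee_mono (upd_le' h)⟩
    · exact ⟨p, c, h, le_rfl⟩
  obtain ⟨e, het, heN, hef, hec, hed⟩ := h2 (BB S.D) (S.W b) (S.kd b) (S.ss b) (S.cS b c)
    { t := (S.cS b c).t, N := 1, f := f', mem := hf, wd := hw,
      ln := by rw [hlen]; exact Nat.zero_le _ } rfl (by rw [hlen]; exact Nat.zero_le _)
  obtain ⟨c', hc'⟩ := hs e
  have hdv : dv S.D b c' c = ⊤ := by rw [hv, hc', hec]
  refine ⟨p'.upd b c', c', (S.st b c').length, (ee_mono (upd_le hpc hdv)).trans hp',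
    (h4 K Λ S.D).2.2.2.1 _ b c' (PF.upd_f_same _ _ _), fun k v j hk hj => ?_⟩
  have hg := (h3 K Λ L S b hb).2.2.2.1 c' k v j hk hj
  refine le_bot_iff.1 (le_trans (inf_le_inf_left _ ?_) hg.le)
  rw [hc', hef]
  exact le_sup_right

end Hech

open Hech

theorem hechStm (h1 : SCmpStm.{u}) (h2 : SMrgStm.{u}) (h3 : GenStm.{u}) (h4 : EeStm.{u})
    (h5 : SZStm.{u}) : HechStm.{u} := by
  intro K Λ L _ _ S b hb
  have hS : (S.kd b).isS := by rw [hb]; simp [Kd.isS]
  obtain ⟨g1, g2, g3, g4, -⟩ := h3 K Λ L S b hS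
  refine ⟨⟨S.gen b, g1, g2⟩, fun f hf => ?_⟩
  by_contra hne
  have hc : (f.le ⟨S.gen b, g1, g2⟩)ᶜ ≠ ⊥ := fun h => hne (compl_eq_bot.1 h)
  obtain ⟨p, hp⟩ := exists_ee_le hc
  obtain ⟨q, c', n, hq1, hq2, hq3⟩ := main S b h2 h3 h4 hS (fun N => by rw [hb]; rfl) f.f hf
    (fun k s hs => inf_two (by rw [hs, hb]; exact Nat.lt_succ_self 1) (f.disj k)) p
  have key : eb S.D b c' ≤ f.le ⟨S.gen b, g1, g2⟩ := by
    refine le_iSup_of_le n (le_iInf₂ fun m hm => ?_)
    calc eb S.D b c' = eb S.D b c' ⊓ ((⨆ i, f.f m i) ⊓ ⨆ j, S.gen b m j) := by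
          rw [f.top, g2, inf_top_eq, inf_top_eq]
      _ ≤ _ := by
          rw [iSup_inf_iSup, inf_iSup_eq]
          refine iSup_le fun ⟨i, j⟩ => ?_
          by_cases hij : i ≤ j
          · exact le_iSup_of_le i (le_iSup_of_le j (le_iSup_of_le hij inf_le_right))
          · have hbad : i ∈ (S.kd b).Bad m j := by
              rw [hb]
              exact not_le.1 hij
            have := hq3 m j i hm hbad
            refine le_trans ?_ bot_le
            refine le_trans (le_inf (le_inf inf_le_left ?_) ?_) this.le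
            · exact inf_le_right.trans inf_le_right
            · exact inf_le_right.trans inf_le_left
  exact ee_ne_bot (D := S.D) q (le_bot_iff.1 ((le_inf (hq2.trans key) (hq1.trans hp)).trans
    (inf_compl_eq_bot (a := f.le ⟨S.gen b, g1, g2⟩)).le))

theorem cloExStm : CloExStm.{u} := by
  intro B _ pos c hpos hc n
  set T : ℕ → Finset ℕ → B := fun m a => ⨅ k : ℕ, ⨅ _ : n ≤ k ∧ pos (k + 1) ≤ m,
    (c k (blk (pos k) (pos (k + 1) - pos k) a))ᶜ with hT
  have zero : ∀ m a, a ⊆ Finset.range m → T m a = T (m + 1) a ⊔ T (m + 1) (insert m a) := by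
    intro m a ha
    have hma : m ∉ a := fun h => by simpa using ha h
    have hins : ∀ k, pos (k + 1) ≤ m →
        blk (pos k) (pos (k + 1) - pos k) (insert m a) = blk (pos k) (pos (k + 1) - pos k) a := by
      intro k hk
      refine blk_congr fun i hi => ?_
      have : pos k + i ≠ m := by omega
      simp [this]
    have hle1 : T (m + 1) a ≤ T m a :=
      le_iInf₂ fun k hk => iInf₂_le_of_le k ⟨hk.1, hk.2.trans (Nat.le_succ m)⟩ le_rfl
    have hle2 : T (m + 1) (insert m a) ≤ T m a :=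
      le_iInf₂ fun k hk => iInf₂_le_of_le k ⟨hk.1, hk.2.trans (Nat.le_succ m)⟩ (by
        rw [hins k hk.2])
    refine le_antisymm ?_ (sup_le hle1 hle2)
    by_cases hk0 : ∃ k, n ≤ k ∧ pos (k + 1) = m + 1
    · obtain ⟨k0, hnk, hk0⟩ := hk0
      set v := blk (pos k0) (pos (k0 + 1) - pos k0) a with hv
      set v' := blk (pos k0) (pos (k0 + 1) - pos k0) (insert m a) with hv'
      have hlt : pos k0 < pos (k0 + 1) := hpos (Nat.lt_succ_self k0)
      have hvv : v ≠ v' := by
        refine blk_ne (i := m - pos k0) (by omega) ?_ ?_ (Finset.subset_insert _ _)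
        · rwa [show pos k0 + (m - pos k0) = m by omega]
        · rw [show pos k0 + (m - pos k0) = m by omega]
          exact Finset.mem_insert_self _ _
      have hinj : ∀ k, pos (k + 1) ≤ m + 1 → k ≠ k0 → pos (k + 1) ≤ m := by
        intro k hk hne
        rcases Nat.lt_or_ge (pos (k + 1)) (m + 1) with h | h
        · omega
        · exact absurd (Nat.succ_injective (hpos.injective ((le_antisymm hk h).trans hk0.symm))) hne
      have e1 : T m a ⊓ (c k0 v)ᶜ ≤ T (m + 1) a := le_iInf₂ fun k hk => by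
        by_cases hkk : k = k0
        · subst hkk; exact inf_le_right
        · exact inf_le_left.trans (iInf₂_le k ⟨hk.1, hinj k hk.2 hkk⟩)
      have e2 : T m a ⊓ (c k0 v')ᶜ ≤ T (m + 1) (insert m a) := le_iInf₂ fun k hk => by
        by_cases hkk : k = k0
        · subst hkk; exact inf_le_right
        · have := hinj k hk.2 hkk
          rw [hins k this]
          exact inf_le_left.trans (iInf₂_le k ⟨hk.1, this⟩)
      calc T m a = T m a ⊓ ((c k0 v)ᶜ ⊔ (c k0 v')ᶜ) := by
            rw [← compl_inf, hc k0 v v' hvv, compl_bot, inf_top_eq]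
        _ = T m a ⊓ (c k0 v)ᶜ ⊔ T m a ⊓ (c k0 v')ᶜ := inf_sup_left _ _ _
        _ ≤ _ := sup_le_sup e1 e2
    · refine le_sup_of_le_left (le_iInf₂ fun k hk => iInf₂_le_of_le k ⟨hk.1, ?_⟩ le_rfl)
      rcases Nat.lt_or_ge (pos (k + 1)) (m + 1) with h | h
      · omega
      · exact absurd ⟨k, hk.1, le_antisymm hk.2 h⟩ hk0
  exact ⟨⟨T, zero⟩, fun m a _ => rfl⟩

theorem edInStm (h1 : SCmpStm.{u}) (h2 : SMrgStm.{u}) (h3 : GenStm.{u}) (h4 : EeStm.{u})
    (h5 : SZStm.{u}) : EdInStm.{u} := by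
  intro K Λ L _ _ S b hb pos hpos F hF x hx
  have hS : (S.kd b).isS := by
    rcases hb with h | h
    · rw [h]; simp [Kd.isS]
    · rw [h]; simp [Kd.isS]
  have hlen : ∀ N, (S.kd b).len N = 0 := by
    intro N
    rcases hb with h | h
    · rw [h]; rfl
    · rw [h]; rfl
  have hw1 : ∀ k, 1 ≤ (S.kd b).w 1 k := by
    intro k
    rcases hb with h | h
    · rw [h]; exact le_rfl
    · rw [h]
      show 1 ≤ 1 * (k + 1) ^ 1
      rw [one_mul, pow_one]
      exact Nat.succ_le_succ (Nat.zero_le k)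
  have hbad : ∀ k v, v ∈ (S.kd b).Bad k v := by
    intro k v
    rcases hb with h | h
    · rw [h]; exact mem_singleton v
    · rw [h]; exact mem_singleton v
  set f' : ℕ → ℕ → BB S.D := fun k v => ⨆ a : Finset ℕ, ⨆ _ : a ⊆ Finset.range (pos (k + 1)) ∧
    blk (pos k) (pos (k + 1) - pos k) a = v, cutV x (pos (k + 1)) a with hf'
  have hfW : ∀ k v, f' k v ∈ S.W b := fun k v =>
    ss_iSup (S.ss b) _ fun a => ss_prop (S.ss b) _ _ fun _ => cut_mem (S.ss b) x hx _ _
  have hfd : ∀ k v v', v ≠ v' → f' k v ⊓ f' k v' = ⊥ := by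
    intro k v v' hvv
    rw [← disjoint_iff]
    simp only [hf', iSup_disjoint_iff, disjoint_iSup_iff]
    rintro a ⟨ha, hav⟩ a' ⟨ha', hav'⟩
    refine cut_disj x ha' ha ?_
    rintro rfl
    exact hvv (hav'.symm.trans hav)
  by_contra hne
  have hc : (⨆ n, (F n).mem x)ᶜ ≠ ⊥ := fun h => hne (compl_eq_bot.1 h)
  obtain ⟨p, hp⟩ := exists_ee_le hc
  obtain ⟨q, c', n, hq1, hq2, hq3⟩ := main S b h2 h3 h4 hS hlen f' hfW
    (fun k s hs => inf_two (by have := hw1 k; omega) (hfd k)) p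
  have key : eb S.D b c' ≤ (F n).mem x := by
    refine le_iInf fun m => ?_
    calc eb S.D b c' = eb S.D b c' ⊓ ⨆ a : Finset ℕ, ⨆ _ : a ⊆ Finset.range m, cutV x m a := by
          rw [cut_top, inf_top_eq]
      _ ≤ _ := by
          rw [inf_iSup₂_eq]
          refine iSup₂_mono fun a ha => le_inf ?_ inf_le_right
          rw [hF n m a ha]
          refine le_iInf₂ fun k hk => ?_
          rw [le_compl_iff_disjoint_right, disjoint_iff]
          refine le_bot_iff.1 (le_trans ?_ (hq3 k _ _ hk.1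
            (hbad k (blk (pos k) (pos (k + 1) - pos k) a))).le)
          refine le_inf (inf_le_inf_right _ inf_le_left) ?_
          refine le_trans (inf_le_left.trans inf_le_right) ?_
          have hlt : pos k < pos (k + 1) := hpos (Nat.lt_succ_self k)
          refine le_iSup₂_of_le (a ∩ Finset.range (pos (k + 1)))
            ⟨Finset.inter_subset_right, blk_congr fun i hi => ?_⟩
            (cut_mono x hk.2 fun i hi => ?_)
          · have : pos k + i < pos (k + 1) := by omega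
            simp [this]
          · simp [hi]
  exact ee_ne_bot (D := S.D) q (le_bot_iff.1 ((le_inf (hq2.trans (key.trans
    (le_iSup (fun n => (F n).mem x) n))) (hq1.trans hp)).trans
    (inf_compl_eq_bot (a := ⨆ n, (F n).mem x)).le))

end CI
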