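import Pool.Agent.CI.C.ItrStm

/-!
# Project CI, core: guesses inside the target
-/

set_option autoImplicit false

open Set Cardinal Pool.Agent.CL

namespace CI

universe u

section

variable {K Λ Θ : Type u} [LinearOrder K] (D : Dat K Λ)

private lemma iaa_mem {a b : AF K Θ} {p q : PF K Λ} :
    (b, q) ∈ (iAP D a p).S ↔ ∀ (c : AF K Θ) (r : PF K Λ), c ≤ b → @LE.le (PD D) _ r q →
      ∃ (e : AF K Θ) (s : PF K Λ), (e ≤ c ∧ @LE.le (PD D) _ s r) ∧
        (e ≤ a ∧ @LE.le (PD D) _ s p) := by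
  constructor
  · intro h c r hc hr
    obtain ⟨⟨e, s⟩, h1, h2⟩ := h (c, r) ⟨hc, hr⟩
    exact ⟨e, s, h1, h2⟩
  · rintro h ⟨c, r⟩ hcr
    obtain ⟨e, s, h1, h2⟩ := h c r hcr.1 hcr.2
    exact ⟨(e, s), h1, h2⟩

private lemma iaa_refl (p : PF K Λ) : @LE.le (PD D) _ p p := @le_refl (PD D) _ p

private lemma iaa_trans {p q r : PF K Λ} (h1 : @LE.le (PD D) _ p q) (h2 : @LE.le (PD D) _ q r) :
    @LE.le (PD D) _ p r := @le_trans (PD D) _ p q r h1 h2

private lemma iaa_eq (a : AF K Θ) (p : PF K Λ) : iAP D a p = iA D a ⊓ iB D Θ (ee D p) := by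
  refine RO.ext' ?_
  rintro ⟨b, q⟩
  constructor
  · intro h0
    have h := (iaa_mem D).1 h0
    refine ⟨(iaa_mem D).2 fun c r hc hr => ?_, fun r hr => ?_⟩
    · obtain ⟨e, s, h1, h2⟩ := h c r hc hr
      exact ⟨e, s, h1, h2.1, le_nil s⟩
    · obtain ⟨e, s, h1, h2⟩ := h b r le_rfl hr
      exact ⟨s, h1.2, h2.2⟩
  · rintro ⟨h0, h'⟩
    have h := (iaa_mem D (a := a) (p := PF.nil) (b := b) (q := q)).1 h0
    refine (iaa_mem D).2 fun c r hc hr => ?_
    obtain ⟨e, s, h1, h2⟩ := h c r hc hr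
    obtain ⟨s', h3, h4⟩ := h' s (iaa_trans D h1.2 hr)
    exact ⟨e, s', ⟨h1.1, iaa_trans D h3 h1.2⟩, h2.1, h4⟩

private lemma iaa_fin (s : Finset (AF K Θ)) : ∀ (a : AF K Θ) (p : PF K Λ),
    (∀ a' ∈ s, iAP D a p ≤ iA D a') →
      ∃ (a₁ : AF K Θ) (p₁ : PF K Λ), a₁ ≤ a ∧ @LE.le (PD D) _ p₁ p ∧ ∀ a' ∈ s, a₁ ≤ a' := by
  classical
  induction s using Finset.induction_on with
  | empty =>
    intro a p _
    exact ⟨a, p, le_rfl, iaa_refl D p, fun a' h => absurd h (Finset.notMem_empty a')⟩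
  | insert x s _ ih =>
    intro a p h
    have h1 : (a, p) ∈ (iAP D x PF.nil).S :=
      (RO.pt_le_iff (Q := AF K Θ × PD D)).1 (h x (Finset.mem_insert_self x s))
    obtain ⟨a2, p2, h2, h3⟩ := (iaa_mem D).1 h1 a p le_rfl (iaa_refl D p)
    have h4 : iAP D a2 p2 ≤ iAP D a p := RO.pt_mono (Q := AF K Θ × PD D) ⟨h2.1, h2.2⟩
    obtain ⟨a₁, p₁, h5, h6, h7⟩ := ih a2 p2 fun a' ha' =>
      h4.trans (h a' (Finset.mem_insert_of_mem ha'))
    refine ⟨a₁, p₁, h5.trans h2.1, iaa_trans D h6 h2.2, fun a' ha' => ?_⟩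
    rcases Finset.mem_insert.1 ha' with rfl | ha'
    · exact h5.trans h3.1
    · exact h7 a' ha'

end

/-- guesses and conditions in the target -/
theorem iAStm : IAStm := by
  intro K Λ Θ _ D
  refine ⟨iaa_eq D, fun a p => RO.pt_ne_bot (Q := AF K Θ × PD D) _,
    fun a p t => (RO.pt_le_iff (Q := AF K Θ × PD D)).symm, ?_, ?_, ?_, ?_, iaa_fin D⟩
  · intro a a' h
    exact RO.pt_mono (Q := AF K Θ × PD D) ⟨h, iaa_refl D _⟩
  · intro a U hU h
    obtain ⟨p, hp⟩ := exists_ee_le hU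
    have h1 : (a, p) ∈ (iA D a ⊓ iB D Θ U).S :=
      ⟨(iaa_mem D).2 fun c r hc _ => ⟨c, r, ⟨le_rfl, iaa_refl D r⟩, hc, le_nil r⟩,
        ee_le_iff.1 hp⟩
    rw [h] at h1
    exact h1
  · intro a Z b q
    have h0 : ∀ q q' : PF K Λ, (b, q) ∈ (iAP D a PF.nil).S → (b, q') ∈ (iAP D a PF.nil).S := by
      intro q q' h
      rw [iaa_mem] at h ⊢
      intro c r hc hr
      obtain ⟨e, s, h1, h2⟩ := h c q hc (iaa_refl D q)
      exact ⟨e, r, ⟨h1.1, iaa_refl D r⟩, h2.1, le_nil r⟩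
    exact ⟨h0 _ _, h0 _ _⟩
  · intro t ht
    obtain ⟨⟨a, p⟩, h⟩ := RO.exists_pt_le ht
    exact ⟨a, p, h⟩

/-- decreasing sequences of guesses have lower bounds -/
theorem aFStm : AFStm := by
  classical
  intro K Θ a ha
  have hanti : ∀ m n, m ≤ n → a n ≤ a m := fun m n h =>
    antitone_nat_of_succ_le (f := a) ha h
  have key : ∀ (b : K) (m n : ℕ) (x y : Θ), (a m).f b = some x → (a n).f b = some y → x = y := by
    intro b m n x y hx hy
    have h1 := hanti m (max m n) (le_max_left _ _) b x hx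
    have h2 := hanti n (max m n) (le_max_right _ _) b y hy
    rw [h1] at h2
    exact Option.some.inj h2
  refine ⟨⟨fun b => if h : ∃ θ : Θ, ∃ n, (a n).f b = some θ then some h.choose else none, ?_⟩, ?_⟩
  · refine (countable_iUnion fun n => (a n).ctb).mono fun b hb => ?_
    simp only [mem_ofPred_eq] at hb
    by_cases h : ∃ θ : Θ, ∃ n, (a n).f b = some θ
    · obtain ⟨θ, n, hn⟩ := h
      refine mem_iUnion.2 ⟨n, ?_⟩
      simp only [mem_ofPred_eq]
      rw [hn]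
      exact Option.some_ne_none θ
    · exact absurd (dif_neg h) hb
  · intro n b x hx
    have h : ∃ θ : Θ, ∃ n, (a n).f b = some θ := ⟨x, n, hx⟩
    obtain ⟨m, hm⟩ := h.choose_spec
    show (if h : ∃ θ : Θ, ∃ n, (a n).f b = some θ then some h.choose else none) = some x
    rw [dif_pos h, key b m n _ _ hm hx]

end CI
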