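import Pool.Agent.CI.C.ItrStm

/-!
# Project CI, core: the algebra of the iteration inside the target
-/

set_option autoImplicit false

open Set Cardinal Pool.Agent.CL

namespace CI

universe u

section

variable {K Λ Θ : Type u} [LinearOrder K] {D : Dat K Λ}

lemma iba_mem {U : BB D} {a : AF K Θ} {p : PF K Λ} :
    ((a, p) : AF K Θ × PD D) ∈ (iB D Θ U).S ↔ p ∈ U.S := Iff.rfl

/-- the empty guess -/
def ibaNil (K Θ : Type u) : AF K Θ := ⟨fun _ => none, by simp⟩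

lemma iba_le {U V : BB D} : iB D Θ U ≤ iB D Θ V ↔ U ≤ V := by
  constructor
  · intro h p hp
    exact h (a := ((ibaNil K Θ, p) : AF K Θ × PD D)) hp
  · intro h x hx
    exact h hx

lemma iba_inf (U V : BB D) : iB D Θ (U ⊓ V) = iB D Θ U ⊓ iB D Θ V := by
  apply RO.ext'
  intro x
  exact Iff.rfl

lemma iba_compl (U : BB D) : iB D Θ Uᶜ = (iB D Θ U)ᶜ := by
  apply RO.ext'
  intro x
  constructor
  · intro h
    refine RO.mem_compl.2 fun y hy hyU => ?_
    exact RO.mem_compl.1 h y.2 hy.2 hyU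
  · intro h
    have h' := RO.mem_compl.1 h
    refine RO.mem_compl.2 fun q hq hqU => ?_
    exact h' (x.1, q) ⟨le_rfl, hq⟩ hqU

lemma iba_sup (U V : BB D) : iB D Θ (U ⊔ V) = iB D Θ U ⊔ iB D Θ V := by
  have h1 : ∀ {B : Type u} [BooleanAlgebra B] (a b : B), a ⊔ b = (aᶜ ⊓ bᶜ)ᶜ := by
    intro B _ a b
    rw [compl_inf, compl_compl, compl_compl]
  rw [h1 U V, iba_compl, iba_inf, iba_compl, iba_compl, ← h1]

lemma iba_bot : iB D Θ ⊥ = ⊥ := RO.ext' fun _ => Iff.rfl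

lemma iba_top : iB D Θ ⊤ = ⊤ := RO.ext' fun _ => Iff.rfl

lemma iba_iSup {ι : Sort*} (U : ι → BB D) : iB D Θ (⨆ i, U i) = ⨆ i, iB D Θ (U i) := by
  apply RO.ext'
  intro x
  constructor
  · intro h
    have h' := RO.mem_iSup.1 (show x.2 ∈ (⨆ i, U i).S from h)
    refine RO.mem_iSup.2 fun y hy => ?_
    obtain ⟨r, hr, i, hi⟩ := h' y.2 hy.2
    exact ⟨(y.1, r), ⟨le_rfl, hr⟩, i, hi⟩
  · intro h
    have h' := RO.mem_iSup.1 h
    show x.2 ∈ (⨆ i, U i).S
    refine RO.mem_iSup.2 fun q hq => ?_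
    obtain ⟨z, hz, i, hi⟩ := h' (x.1, q) ⟨le_rfl, hq⟩
    exact ⟨z.2, hz.2, i, hi⟩

lemma iba_iInf {ι : Sort*} (U : ι → BB D) : iB D Θ (⨅ i, U i) = ⨅ i, iB D Θ (U i) := by
  apply RO.ext'
  intro x
  constructor
  · intro h
    have h' := RO.mem_iInf.1 (show x.2 ∈ (⨅ i, U i).S from h)
    exact RO.mem_iInf.2 fun i => h' i
  · intro h
    have h' := RO.mem_iInf.1 h
    show x.2 ∈ (⨅ i, U i).S
    exact RO.mem_iInf.2 fun i => h' i

end

/-- the embedding of the algebra in the target -/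
theorem iBStm : IBStm := fun _ _ _ _ _ =>
  ⟨fun _ _ => iba_le, iba_inf, iba_sup, iba_compl, iba_bot, iba_top,
    fun _ U => iba_iSup U, fun _ U => iba_iInf U, fun U => iba_iSup U, fun U => iba_iInf U,
    fun _ _ hU _ p => hU p⟩

end CI
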