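import Pool.Agent.CI.C.StepStm

/-!
# Project CI, core, row T10: layers of sequences, the beginning of the construction
-/

set_option autoImplicit false

open Set Cardinal Pool.Agent.CL

namespace CI

universe u

/-! ### elements as countable suprema -/

/-- every element of the algebra of `Z` is the supremum of countably many conditions in `Z` -/
theorem layA_cover (h2 : SZStm.{u}) {K Λ : Type u} [LinearOrder K] (D : Dat K Λ)
    (hc : Ccc (BB D)) {Z : Set K} (hZ : Tr D Z) {U : BB D} (hU : U ∈ SZ D Z) :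
    ∃ A : Set (PF K Λ), A.Countable ∧ (∀ p ∈ A, p.dom ⊆ Z) ∧ U = sSup (ee D '' A) := by
  obtain ⟨hcs, hee, -, hex, -, -⟩ := h2 K Λ D Z hZ
  -- a maximal family of disjoint conditions below `U`
  obtain ⟨M, hM⟩ := zorn_subset {s : Set (BB D) | (∀ a ∈ s, ∃ p : PF K Λ, p.dom ⊆ Z ∧ ee D p = a ∧
      a ≤ U) ∧ ∀ a ∈ s, ∀ b ∈ s, a ≠ b → a ⊓ b = ⊥} (by
    intro c hc1 hc2
    refine ⟨⋃₀ c, ⟨?_, ?_⟩, fun s hs => subset_sUnion_of_mem hs⟩
    · rintro a ⟨s, hs, ha⟩
      exact (hc1 hs).1 a ha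
    · rintro a ⟨s, hs, ha⟩ b ⟨t, ht, hb⟩ hab
      rcases hc2.total hs ht with h | h
      · exact (hc1 ht).2 a (h ha) b hb hab
      · exact (hc1 hs).2 a ha b (h hb) hab)
  have hM1 := hM.prop.1
  have hM2 := hM.prop.2
  have hMc : M.Countable := by
    refine hc M ?_ hM2
    intro a ha
    obtain ⟨p, -, rfl, -⟩ := hM1 a ha
    exact ee_ne_bot p
  -- its supremum is `U`
  have hMS : M ⊆ SZ D Z := by
    intro a ha
    obtain ⟨p, hp, rfl, -⟩ := hM1 a ha
    exact hee p hp
  have hsup : U = sSup M := by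
    refine le_antisymm ?_ (sSup_le fun a ha => ?_)
    · by_contra hn
      have hcompl : (sSup M)ᶜ ∈ SZ D Z := hcs.compl _ (hcs.sSup M hMS)
      have hV : U ⊓ (sSup M)ᶜ ∈ SZ D Z := by
        intro p
        show (p ∈ U.S ∧ p ∈ ((sSup M)ᶜ).S) ↔ (p.res Z ∈ U.S ∧ p.res Z ∈ ((sSup M)ᶜ).S)
        exact and_congr (hU p) (hcompl p)
      have hV0 : U ⊓ (sSup M)ᶜ ≠ ⊥ := by
        intro h0
        apply hn
        have h3 : Disjoint U (sSup M)ᶜ := disjoint_iff.2 h0
        exact disjoint_compl_right_iff.1 h3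
      obtain ⟨p, hp, hpV⟩ := hex _ hV hV0
      have hpM : ∀ b ∈ M, ee D p ⊓ b = ⊥ := by
        intro b hb
        have h3 : ee D p ≤ bᶜ := (hpV.trans inf_le_right).trans (compl_le_compl (le_sSup hb))
        exact (disjoint_iff.1 (le_compl_iff_disjoint_right.1 h3))
      have hin : insert (ee D p) M ⊆ M := by
        refine hM.le_of_ge ⟨?_, ?_⟩ (subset_insert _ _)
        · intro a ha
          rcases mem_insert_iff.1 ha with rfl | ha
          · exact ⟨p, hp, rfl, hpV.trans inf_le_left⟩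
          · exact hM1 a ha
        · intro a ha b hb hab
          rcases mem_insert_iff.1 ha with rfl | ha <;> rcases mem_insert_iff.1 hb with rfl | hb
          · exact absurd rfl hab
          · exact hpM b hb
          · rw [inf_comm]
            exact hpM a ha
          · exact hM2 a ha b hb hab
      have h4 := hpM _ (hin (mem_insert _ _))
      rw [inf_idem] at h4
      exact ee_ne_bot p h4
    · obtain ⟨p, -, -, h⟩ := hM1 a ha
      exact h
  -- choose the conditions
  choose f hf using fun a : M => hM1 a.1 a.2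
  have : Countable M := hMc
  refine ⟨range f, countable_range f, ?_, ?_⟩
  · rintro p ⟨a, rfl⟩
    exact (hf a).1
  · rw [hsup]
    congr 1
    ext b
    constructor
    · intro hb
      exact ⟨f ⟨b, hb⟩, ⟨⟨b, hb⟩, rfl⟩, (hf ⟨b, hb⟩).2.1⟩
    · rintro ⟨p, ⟨a, rfl⟩, rfl⟩
      rw [(hf a).2.1]
      exact a.2

/-- a sequence of elements of the algebra of `Z` has a countable support in `Z` -/
theorem layA_supp (h2 : SZStm.{u}) {K Λ : Type u} [LinearOrder K] (D : Dat K Λ)
    (hc : Ccc (BB D)) {Z : Set K} (hZ : Tr D Z) (z : ℕ → BB D) (hz : ∀ l, z l ∈ SZ D Z) :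
    ∃ C : Set K, C.Countable ∧ C ⊆ Z ∧ ∀ Z' : Set K, C ⊆ Z' → Tr D Z' → ∀ l, z l ∈ SZ D Z' := by
  choose A hA1 hA2 hA3 using fun l => layA_cover h2 D hc hZ (hz l)
  refine ⟨⋃ l, ⋃ p ∈ A l, p.dom, ?_, ?_, ?_⟩
  · exact countable_iUnion fun l => (hA1 l).biUnion fun p _ => p.dom_finite.countable
  · exact iUnion_subset fun l => iUnion₂_subset fun p hp => hA2 l p hp
  · intro Z' hCZ hZ' l
    obtain ⟨hcs, hee, -, -, -, -⟩ := h2 K Λ D Z' hZ'
    rw [hA3 l]
    refine hcs.sSup _ ?_
    rintro a ⟨p, hp, rfl⟩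
    refine hee p fun b hb => hCZ ?_
    exact mem_iUnion.2 ⟨l, mem_iUnion₂.2 ⟨p, hp, hb⟩⟩

/-- layers of sequences -/
theorem layerStm (_h1 : TrStm.{u}) (h2 : SZStm.{u}) (h3 : ZlStm.{u}) : LayerStm.{u} := by
  intro K Λ L _ _ S hL hc
  constructor
  · intro I hI z hz
    obtain ⟨C, hC1, hC2, hC3⟩ := layA_supp h2 S.D hc (Tr_of_lower hI) z hz
    obtain ⟨⟨x₀⟩, hb⟩ := hL
    have : Nonempty L := ⟨x₀⟩
    obtain ⟨s, hs⟩ := countable_iff_exists_subset_range.1 (hC1.image S.lay)
    obtain ⟨x, hx⟩ := hb s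
    refine ⟨x, hC3 _ ?_ ((Tr_of_lower hI).inter (h3 K Λ L S x))⟩
    intro b hb'
    refine ⟨hC2 hb', ?_⟩
    obtain ⟨n, hn⟩ := hs (mem_image_of_mem S.lay hb')
    show S.lay b ≤ x
    rw [← hn]
    exact hx n
  · intro z
    obtain ⟨C, hC1, -, hC3⟩ := layA_supp h2 S.D hc (Tr_of_lower isLowerSet_univ) z
      fun l => SZ_univ (z l)
    exact ⟨C, hC1, hC3⟩

/-! ### the beginning -/

/-- the algebra over the empty set -/
theorem layA_empty {K Λ : Type u} [LinearOrder K] {D : Dat K Λ} {U : BB D} (h : U ∈ SZ D ∅) :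
    U = ⊥ ∨ U = ⊤ := by
  by_cases h0 : U = ⊥
  · exact Or.inl h0
  right
  obtain ⟨p, hp⟩ := exists_ee_le h0
  have h1 : p ∈ U.S := ee_le_iff.1 hp
  rw [mem_SZ.1 h p, PF.res_empty] at h1
  have h2 := ee_le_iff.2 h1
  rw [ee_nil] at h2
  exact top_le_iff.1 h2

theorem layA_nontriv {K Λ : Type u} [LinearOrder K] (D : Dat K Λ) : (⊥ : BB D) ≠ ⊤ := by
  rw [← ee_nil (D := D)]
  exact (ee_ne_bot _).symm

theorem baseStm (h : IBStm.{u}) : BaseStm.{u} := by
  classical
  intro K Λ L Θ _ _ S rd rt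
  obtain ⟨-, -, -, -, hbot, htop, -⟩ := h K Λ Θ S.D
  have hnt := layA_nontriv S.D
  let F : Ultrafilter ℕ := Filter.hyperfilter ℕ
  let φ : (ℕ → BB S.D) → TT S.D Θ := fun z => if {l | z l = ⊤} ∈ F then ⊤ else ⊥
  have hT : ∀ z : ℕ → BB S.D, {l | z l = ⊤} ∈ F → φ z = ⊤ := fun z hz => if_pos hz
  have hB : ∀ z : ℕ → BB S.D, {l | z l = ⊤} ∉ F → φ z = ⊥ := fun z hz => if_neg hz
  refine ⟨φ, ?_⟩
  constructor
  · constructor
    · intro a _ b _
      by_cases h1 : {l | a l = ⊤} ∈ F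
      · by_cases h2 : {l | b l = ⊤} ∈ F
        · rw [hT a h1, hT b h2, inf_top_eq]
          refine hT _ (Filter.mem_of_superset (Filter.inter_mem h1 h2) ?_)
          rintro l ⟨h3, h4⟩
          show a l ⊓ b l = ⊤
          rw [show a l = ⊤ from h3, show b l = ⊤ from h4, inf_top_eq]
        · rw [hB b h2, inf_bot_eq]
          refine hB _ fun h3 => h2 (Filter.mem_of_superset h3 ?_)
          intro l hl
          exact (inf_eq_top_iff.1 (show a l ⊓ b l = ⊤ from hl)).2
      · rw [hB a h1, bot_inf_eq]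
        refine hB _ fun h3 => h1 (Filter.mem_of_superset h3 ?_)
        intro l hl
        exact (inf_eq_top_iff.1 (show a l ⊓ b l = ⊤ from hl)).1
    · intro a ha
      have e : {l | (aᶜ) l = ⊤} = {l | a l = ⊤}ᶜ := by
        ext l
        show (a l)ᶜ = ⊤ ↔ ¬ a l = ⊤
        rw [compl_eq_top]
        rcases layA_empty (ha l) with h1 | h1
        · rw [h1]
          exact ⟨fun _ => hnt, fun _ => rfl⟩
        · rw [h1]
          exact ⟨fun h2 => absurd h2.symm hnt, fun h2 => absurd rfl h2⟩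
      by_cases h1 : {l | a l = ⊤} ∈ F
      · rw [hT a h1, compl_top]
        refine hB _ ?_
        rw [e]
        exact fun h2 => (Ultrafilter.compl_mem_iff_notMem.1 h2) h1
      · rw [hB a h1, compl_bot]
        refine hT _ ?_
        rw [e]
        exact Ultrafilter.compl_mem_iff_notMem.2 h1
  · intro J _ _ x z _ a p
    by_cases h1 : {l | z l = ⊤} ∈ F
    · rw [hT z h1]
      exact Iff.rfl
    · rw [hB z h1]
      exact Iff.rfl
  · intro U hU
    rcases layA_empty hU with rfl | rfl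
    · rw [hbot]
      refine hB _ ?_
      have e : {l : ℕ | (⊥ : BB S.D) = ⊤} = ∅ := by
        ext l
        exact ⟨fun h1 => absurd h1 hnt, fun h1 => absurd h1 (notMem_empty l)⟩
      rw [e]
      exact F.empty_notMem
    · rw [htop]
      refine hT _ ?_
      have e : {l : ℕ | (⊤ : BB S.D) = ⊤} = Set.univ := by
        ext l
        exact ⟨fun _ => mem_univ l, fun _ => rfl⟩
      rw [e]
      exact Filter.univ_mem
  · intro n
    refine hT _ ?_
    apply Filter.mem_hyperfilter_of_finite_compl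
    refine (Set.finite_lt_nat n).subset ?_
    intro l hl
    by_contra h1
    apply hl
    show (if l < n then (⊥ : BB S.D) else ⊤) = ⊤
    exact if_neg h1
  · intro b hb
    exact absurd hb (notMem_empty b)
  · intro b hb
    exact absurd hb (notMem_empty b)
  · intro d a hd _ _
    have e : ∀ l, ee S.D (d l) = ⊤ := by
      intro l
      have h1 : (d l).res ∅ = d l := PF.res_eq_self (hd l)
      rw [← h1, PF.res_empty, ee_nil]
    have h1 : φ (fun l => ee S.D (d l)) = ⊤ := by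
      refine hT _ ?_
      have e2 : {l : ℕ | ee S.D (d l) = ⊤} = Set.univ := by
        ext l
        exact ⟨fun _ => mem_univ l, fun _ => e l⟩
      rw [e2]
      exact Filter.univ_mem
    rw [h1]
    exact le_top

end CI
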