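import Pool.Agent.CI.C.StepStm
import Mathlib.SetTheory.Cardinal.Regular

/-!
# Project CI, row K1: the chain condition of the whole iteration
-/

set_option autoImplicit false

open Set Cardinal Pool.Agent.CL

namespace CI

universe u

namespace Lf

section

variable {B : Type u} [CompleteBooleanAlgebra B]

/-! ### closure of `σ`-subalgebras -/

lemma ss_top {W : Set B} (hW : IsSS W) : (⊤ : B) ∈ W := by
  have := hW.compl ⊥ hW.bot
  rwa [compl_bot] at this

lemma ss_iSup {W : Set B} (hW : IsSS W) {α : Type} [Countable α] (f : α → B)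
    (h : ∀ a, f a ∈ W) : ⨆ a, f a ∈ W := by
  rcases isEmpty_or_nonempty α with hα | hα
  · rw [iSup_of_empty]; exact hW.bot
  · obtain ⟨e, he⟩ := exists_surjective_nat α
    have := hW.iSup (fun n => f (e n)) fun n => h _
    rwa [he.iSup_comp f] at this

lemma ss_iInf {W : Set B} (hW : IsSS W) {α : Type} [Countable α] (f : α → B)
    (h : ∀ a, f a ∈ W) : ⨅ a, f a ∈ W := by
  have := hW.compl _ (ss_iSup hW (fun a => (f a)ᶜ) fun a => hW.compl _ (h a))
  rw [compl_iSup] at this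
  simpa using this

lemma ss_sup {W : Set B} (hW : IsSS W) {a b : B} (ha : a ∈ W) (hb : b ∈ W) : a ⊔ b ∈ W := by
  have := ss_iSup hW (fun i : Bool => if i then a else b) (by
    intro i; cases i <;> simp [ha, hb])
  rwa [iSup_bool_eq] at this

lemma ss_inf {W : Set B} (hW : IsSS W) {a b : B} (ha : a ∈ W) (hb : b ∈ W) : a ⊓ b ∈ W := by
  have := ss_iInf hW (fun i : Bool => if i then a else b) (by
    intro i; cases i <;> simp [ha, hb])
  rwa [iInf_bool_eq] at this

lemma ss_finf {W : Set B} (hW : IsSS W) {α : Type*} (s : Finset α) (f : α → B)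
    (h : ∀ a, f a ∈ W) : s.inf f ∈ W := by
  classical
  induction s using Finset.induction_on with
  | empty => rw [Finset.inf_empty]; exact ss_top hW
  | insert a s _ ih => rw [Finset.inf_insert]; exact ss_inf hW (h a) ih

lemma ss_prop {W : Set B} (hW : IsSS W) (P : Prop) (a : B) (h : P → a ∈ W) :
    (⨆ _ : P, a) ∈ W := by
  by_cases hP : P
  · rw [iSup_pos hP]; exact h hP
  · rw [iSup_neg hP]; exact hW.bot

lemma ss_cntGe {W : Set B} (hW : IsSS W) {α : Type} [Countable α] (A : Finset α) (x : α → B)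
    (s r : ℕ) (h : ∀ a, x a ∈ W) : cntGe A x s r ∈ W :=
  ss_iSup hW _ fun C => ss_prop hW _ _ fun _ => ss_finf hW C x h

lemma ss_mGe {W : Set B} (hW : IsSS W) (U : ℕ → Finset ℕ → B) (s r : ℕ)
    (h : ∀ n a, U n a ∈ W) : mGe U s r ∈ W :=
  ss_iInf hW _ fun n => ss_cntGe hW _ _ _ _ (h n)

/-! ### monotonicity of the measures -/

lemma cntGe_mono {α : Type} {A : Finset α} {x y : α → B} {s r : ℕ} (h : ∀ a ∈ A, x a ≤ y a) :
    cntGe A x s r ≤ cntGe A y s r := by
  refine iSup₂_le fun C hC => le_iSup₂_of_le C hC ?_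
  exact Finset.inf_mono_fun fun a ha => h a (hC.1 ha)

lemma mGe_mono {U V : ℕ → Finset ℕ → B} {s r : ℕ} (h : ∀ n a, U n a ≤ V n a) :
    mGe U s r ≤ mGe V s r :=
  iInf_mono fun n => cntGe_mono fun a _ => h n a

/-- the number of subsets of `n` with a given intersection with `m` -/
lemma card_cyl (m n : ℕ) (hmn : m ≤ n) (bb : Finset ℕ) (hb : bb ⊆ Finset.range m) :
    2 ^ (n - m) ≤ ((Finset.range n).powerset.filter fun a => bb = a ∩ Finset.range m).card := by
  have h1 : (Finset.Ico m n).powerset.card = 2 ^ (n - m) := by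
    rw [Finset.card_powerset, Nat.card_Ico]
  rw [← h1]
  refine Finset.card_le_card_of_injOn (fun s => bb ∪ s) ?_ ?_
  · intro s hs
    have hs' : s ⊆ Finset.Ico m n := Finset.mem_powerset.1 (Finset.mem_coe.1 hs)
    simp only [Finset.coe_filter, Finset.mem_powerset, mem_ofPred_eq]
    constructor
    · refine Finset.union_subset (hb.trans (Finset.range_subset_range.2 hmn)) ?_
      intro x hx
      have := Finset.mem_Ico.1 (hs' hx)
      exact Finset.mem_range.2 this.2
    · ext x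
      simp only [Finset.mem_inter, Finset.mem_union, Finset.mem_range]
      constructor
      · intro hx
        exact ⟨Or.inl hx, Finset.mem_range.1 (hb hx)⟩
      · rintro ⟨hx | hx, hxm⟩
        · exact hx
        · have := Finset.mem_Ico.1 (hs' hx)
          omega
  · intro s hs t ht hst
    have hs' : s ⊆ Finset.Ico m n := Finset.mem_powerset.1 (Finset.mem_coe.1 hs)
    have ht' : t ⊆ Finset.Ico m n := Finset.mem_powerset.1 (Finset.mem_coe.1 ht)
    have hst' : bb ∪ s = bb ∪ t := hst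
    ext x
    constructor
    · intro hx
      have h2 : x ∈ bb ∪ t := hst' ▸ Finset.mem_union_right _ hx
      rcases Finset.mem_union.1 h2 with h3 | h3
      · have := Finset.mem_range.1 (hb h3)
        have := Finset.mem_Ico.1 (hs' hx)
        omega
      · exact h3
    · intro hx
      have h2 : x ∈ bb ∪ s := hst' ▸ Finset.mem_union_right _ hx
      rcases Finset.mem_union.1 h2 with h3 | h3
      · have := Finset.mem_range.1 (hb h3)
        have := Finset.mem_Ico.1 (ht' hx)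
        omega
      · exact h3

/-- the full tree in a basic clopen set -/
lemma le_mGe_cyl (m : ℕ) (bb : Finset ℕ) (hb : bb ⊆ Finset.range m) (v : B)
    (U : ℕ → Finset ℕ → B) (h : ∀ n a, v ≤ U n a) :
    v ≤ mGe (fun n a => open Classical in if bb = a ∩ Finset.range m ∨ n ≤ m then U n a else ⊥)
        (4 * 2 ^ m) 3 := by
  classical
  refine le_iInf fun n => ?_
  have key : ∃ C : Finset (Finset ℕ), (C ⊆ (Finset.range n).powerset ∧
      3 * 2 ^ n ≤ C.card * (4 * 2 ^ m)) ∧ ∀ a ∈ C, bb = a ∩ Finset.range m ∨ n ≤ m := by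
    rcases le_or_gt n m with hnm | hnm
    · refine ⟨(Finset.range n).powerset, ⟨subset_rfl, ?_⟩, fun a _ => Or.inr hnm⟩
      rw [Finset.card_powerset, Finset.card_range]
      have : 1 ≤ 2 ^ m := Nat.one_le_two_pow
      nlinarith [Nat.zero_le (2 ^ n)]
    · refine ⟨(Finset.range n).powerset.filter fun a => bb = a ∩ Finset.range m,
        ⟨Finset.filter_subset _ _, ?_⟩, fun a ha => Or.inl (Finset.mem_filter.1 ha).2⟩
      have h1 := card_cyl m n hnm.le bb hb
      have h2 : 2 ^ (n - m) * 2 ^ m = 2 ^ n := by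
        rw [← pow_add]; congr 1; omega
      calc 3 * 2 ^ n ≤ 4 * 2 ^ n := by omega
        _ = 2 ^ (n - m) * (4 * 2 ^ m) := by rw [← h2]; ring
        _ ≤ _ := Nat.mul_le_mul_right _ h1
  obtain ⟨C, hC, hC'⟩ := key
  refine le_iSup₂_of_le C hC ?_
  refine Finset.le_inf fun a ha => ?_
  beta_reduce
  rw [if_pos (hC' a ha)]
  exact h n a

lemma exists_of_iSup_top {ι : Sort*} (f : ι → B) (h : ⨆ i, f i = ⊤) {U : B} (hU : U ≠ ⊥) :
    ∃ i, U ⊓ f i ≠ ⊥ := by
  by_contra hcon
  push Not at hcon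
  apply hU
  rw [← inf_top_eq U, ← h, inf_iSup_eq]
  simp [hcon]

end

section

variable {K Λ L : Type u} [LinearOrder K] [LinearOrder L] (S : Sys K Λ L)

/-- pieces -/
abbrev Pc : Type := List ℕ × ℕ × ℕ × Finset ℕ

/-- the linked form of a label, with its piece -/
def Lk (b : K) (c : Λ) (π : Pc) : Prop :=
  ((S.kd b).isS → (S.cS b c).t = π.1 ∧ (S.cS b c).N = π.2.1 ∧
    (S.kd b).len (π.2.1 + π.2.1) ≤ π.1.length) ∧
  (S.kd b = .rnd → π.2.2.2 ⊆ Finset.range π.2.2.1 ∧
    mGe (fun n a => open Classical in if π.2.2.2 = a ∩ Finset.range π.2.2.1 ∨ n ≤ π.2.2.1 then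
      (S.cR b c).τ n a else ⊥) (4 * 2 ^ π.2.2.1) 3 = ⊤)

lemma kd_cases (κ : Kd) : κ = .tr ∨ κ.isS ∨ κ = .rnd := by
  cases κ <;> simp [Kd.isS]

lemma not_isS_tr : ¬ (Kd.tr).isS := by simp [Kd.isS]

lemma not_isS_rnd : ¬ (Kd.rnd).isS := by simp [Kd.isS]

/-- the intersection of two trees is a label, if it has a part of the measure -/
def interR {B : Type u} [CompleteBooleanAlgebra B] {W : Set B} (hW : IsSS W) (c d : CndR W) (m : ℕ)
    (h : mGe (fun n a => c.τ n a ⊓ d.τ n a) (2 * 2 ^ m) 1 = ⊤) : CndR W where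
  τ n a := c.τ n a ⊓ d.τ n a
  q := 2 * 2 ^ m - 1
  mem n a := ss_inf hW (c.mem n a) (d.mem n a)
  dec n a := inf_le_inf (c.dec n a) (d.dec n a)
  big := by
    have : 2 * 2 ^ m - 1 + 1 = 2 * 2 ^ m := by
      have : 1 ≤ 2 ^ m := Nat.one_le_two_pow
      omega
    rw [this]
    exact h

/-- two linked labels with the same piece have a common lower bound -/
lemma comb (hm : SMrgStm.{u}) (h2 : RTwoStm.{u}) {b : K} {c d : Λ} {π : Pc} (hc : Lk S b c π)
    (hd : Lk S b d π) : ∃ e, dv S.D b e c = ⊤ ∧ dv S.D b e d = ⊤ := by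
  rcases kd_cases (S.kd b) with h | h | h
  · exact ⟨c, S.vT b h _ _, S.vT b h _ _⟩
  · obtain ⟨hv, hs⟩ := S.vS b h
    obtain ⟨hct, hcN, hcl⟩ := hc.1 h
    obtain ⟨hdt, hdN, _⟩ := hd.1 h
    obtain ⟨e, _, _, _, he1, he2⟩ := hm (BB S.D) (S.W b) (S.kd b) (S.ss b) (S.cS b c) (S.cS b d)
      (by rw [hct, hdt]) (by rw [hct, hcN, hdN]; exact hcl)
    obtain ⟨e', rfl⟩ := hs e
    exact ⟨e', by rw [hv]; exact he1, by rw [hv]; exact he2⟩
  · obtain ⟨hv, hs⟩ := S.vR b h
    obtain ⟨hcb, hcm⟩ := hc.2 h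
    obtain ⟨_, hdm⟩ := hd.2 h
    have := h2 (BB S.D) π.2.2.1 π.2.2.2 _ _ hcb (S.cR b c).dec (S.cR b d).dec hcm hdm
    obtain ⟨e', he'⟩ := hs (interR (S.ss b) _ _ _ this)
    have key : ∀ f : Λ, (∀ n a, (S.cR b e').τ n a ≤ (S.cR b f).τ n a) → dv S.D b e' f = ⊤ := by
      intro f hf
      rw [hv, CndR.cmp]
      simp only [himp_eq_top_iff.2 (hf _ _), iInf_top]
    refine ⟨e', key c fun n a => ?_, key d fun n a => ?_⟩
    · rw [he']; exact inf_le_left
    · rw [he']; exact inf_le_right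

/-- the tree `c` on the value `w`, the full tree off `w` -/
def widR {B : Type u} [CompleteBooleanAlgebra B] {W : Set B} (hW : IsSS W) (c : CndR W) (w : B)
    (hw : w ∈ W) : CndR W where
  τ n a := wᶜ ⊔ c.τ n a
  q := c.q
  mem n a := ss_sup hW (hW.compl _ hw) (c.mem n a)
  dec n a := sup_le_sup_left (c.dec n a) _
  big := top_le_iff.1 (c.big.symm.le.trans (mGe_mono fun _ _ => le_sup_right))

/-- restriction of conditions to `Iio b` -/
lemma res_le (h2 : SZStm.{u}) {b : K} {U : BB S.D} {r : PF K Λ} (hr : r.dom ⊆ Iio b)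
    (hU : U ∈ SZ S.D (Iio b)) (hne : ee S.D r ⊓ U ≠ ⊥) :
    ∃ r' : PF K Λ, r'.dom ⊆ Iio b ∧ ee S.D r' ≤ ee S.D r ∧ ee S.D r' ≤ U := by
  obtain ⟨hcs, h2a, h2b, -, -, -⟩ := h2 K Λ S.D (Iio b) (Tr_of_lower (isLowerSet_Iio b))
  obtain ⟨p, hp⟩ := exists_ee_le hne
  refine ⟨p.res (Iio b), PF.dom_res_subset _ _, ?_, ?_⟩
  · exact (h2b _ (h2a r hr) p).1 (hp.trans inf_le_left)
  · exact (h2b _ hU p).1 (hp.trans inf_le_right)

/-- density of linked labels -/
lemma lk_dens (h2 : SZStm.{u}) (hx : SExtStm.{u}) (hrd : RDensStm.{u})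
    (b : K) (c : Λ) (r : PF K Λ) (hr : r.dom ⊆ Iio b) :
    ∃ (r' : PF K Λ) (c' : Λ) (π : Pc), r'.dom ⊆ Iio b ∧ ee S.D r' ≤ ee S.D r ∧
      ee S.D r' ≤ dv S.D b c' c ∧ Lk S b c' π := by
  rcases kd_cases (S.kd b) with h | h | h
  · refine ⟨r, c, ([], 0, 0, ∅), hr, le_rfl, ?_, ?_, ?_⟩
    · rw [S.vT b h]; exact le_top
    · intro h'; rw [h] at h'; exact absurd h' not_isS_tr
    · intro h'; rw [h] at h'; cases h'
  · obtain ⟨hv, hs⟩ := S.vS b h
    have h3 := hx (BB S.D) (S.W b) (S.kd b) (S.ss b) (S.cS b c)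
      (max ((S.kd b).len ((S.cS b c).N + (S.cS b c).N)) (S.cS b c).t.length) (le_max_right _ _)
    obtain ⟨d, hd⟩ := exists_of_iSup_top _ h3 (ee_ne_bot (D := S.D) r)
    have hdp : d.t.length = (max ((S.kd b).len ((S.cS b c).N + (S.cS b c).N))
        (S.cS b c).t.length) ∧ (S.cS b c).t <+: d.t ∧ d.N = (S.cS b c).N ∧
        d.f = (S.cS b c).f := by
      by_contra hcon
      apply hd
      rw [iSup_neg hcon, inf_bot_eq]
    rw [iSup_pos hdp] at hd
    obtain ⟨c', rfl⟩ := hs d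
    rw [← hv] at hd
    obtain ⟨r', hr1, hr2, hr3⟩ := res_le S h2 hr (dv_mem_Iio b c' c) hd
    refine ⟨r', c', ((S.cS b c').t, (S.cS b c').N, 0, ∅), hr1, hr2, hr3, ?_, ?_⟩
    · intro _
      refine ⟨rfl, rfl, ?_⟩
      simp only
      rw [hdp.1, hdp.2.2.1]
      exact le_max_left _ _
    · intro h'; rw [h'] at h; exact absurd h not_isS_rnd
  · obtain ⟨hv, hs⟩ := S.vR b h
    have h3 := hrd (BB S.D) (S.W b) (S.ss b) (S.cR b c)
    obtain ⟨m, hm⟩ := exists_of_iSup_top _ h3 (ee_ne_bot (D := S.D) r)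
    rw [inf_iSup_eq] at hm
    have hm' : ∃ bb : Finset ℕ, ee S.D r ⊓ (⨆ _ : bb ⊆ Finset.range m,
        mGe (fun n a => open Classical in if bb = a ∩ Finset.range m ∨ n ≤ m then
          (S.cR b c).τ n a else ⊥) (4 * 2 ^ m) 3) ≠ ⊥ := by
      by_contra hcon
      push Not at hcon
      apply hm
      simp only [hcon, iSup_bot]
    obtain ⟨bb, hbb⟩ := hm'
    have hbb1 : bb ⊆ Finset.range m := by
      by_contra hcon
      apply hbb
      rw [iSup_neg hcon, inf_bot_eq]
    rw [iSup_pos hbb1] at hbb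
    set w : BB S.D := mGe (fun n a => open Classical in if bb = a ∩ Finset.range m ∨ n ≤ m then
          (S.cR b c).τ n a else ⊥) (4 * 2 ^ m) 3 with hw
    have hwW : w ∈ S.W b := by
      refine ss_mGe (S.ss b) _ _ _ fun n a => ?_
      split_ifs
      · exact (S.cR b c).mem n a
      · exact (S.ss b).bot
    have hwI : w ∈ SZ S.D (Iio b) := SZ_mono inter_subset_left (S.sub b hwW)
    obtain ⟨r', hr1, hr2, hr3⟩ := res_le S h2 hr hwI hbb
    obtain ⟨c', hc'⟩ := hs (widR (S.ss b) (S.cR b c) w hwW)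
    refine ⟨r', c', ([], 0, m, bb), hr1, hr2, hr3.trans ?_, ?_, ?_⟩
    · rw [hv, hc', CndR.cmp]
      refine le_iInf fun n => le_iInf fun a => le_iInf fun _ => ?_
      rw [le_himp_iff]
      change w ⊓ (wᶜ ⊔ (S.cR b c).τ n a) ≤ _
      rw [inf_sup_left, inf_compl_eq_bot, bot_sup_eq]
      exact inf_le_right
    · intro h'; rw [h] at h'; exact absurd h' not_isS_rnd
    · intro _
      refine ⟨hbb1, ?_⟩
      simp only
      rw [← top_le_iff, ← sup_compl_eq_top (x := w)]
      refine sup_le ?_ ?_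
      · rw [hw]
        refine mGe_mono fun n a => ?_
        split_ifs
        · rw [hc']; exact le_sup_right
        · exact le_rfl
      · refine le_mGe_cyl m bb hbb1 _ _ fun n a => ?_
        rw [hc']; exact le_sup_left

/-- all labels are linked -/
def LkP (q : PF K Λ) (π : K → Pc) : Prop := ∀ x c, q.f x = some c → Lk S x c (π x)

lemma lkP_nil : LkP S (PF.nil : PF K Λ) (fun _ => ([], 0, 0, ∅)) := by
  intro x c h; simp [PF.nil_f] at h

lemma dens_le [WellFoundedLT K] (h2 : SZStm.{u}) (h3 : EeStm.{u}) (hx : SExtStm.{u})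
    (hrd : RDensStm.{u}) (g : K) : ∀ p : PF K Λ, p.dom ⊆ Iic g →
      ∃ (q : PF K Λ) (π : K → Pc), q.dom ⊆ Iic g ∧ ee S.D q ≤ ee S.D p ∧ LkP S q π := by
  classical
  induction g using WellFoundedLT.induction with
  | ind g ih =>
  obtain ⟨h3a, h3b, h3c, h3d, -, -⟩ := h3 K Λ S.D
  -- conditions below `g`
  have hlt : ∀ p : PF K Λ, p.dom ⊆ Iio g →
      ∃ (q : PF K Λ) (π : K → Pc), q.dom ⊆ Iio g ∧ ee S.D q ≤ ee S.D p ∧ LkP S q π := by
    intro p hp
    rcases p.dom.eq_empty_or_nonempty with he | hne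
    · refine ⟨PF.nil, _, by rw [PF.dom_nil]; exact empty_subset _, ?_, lkP_nil S⟩
      have : p = PF.nil := by
        ext x c
        have : x ∉ p.dom := by rw [he]; exact notMem_empty _
        rw [PF.notMem_dom.1 this, PF.nil_f]
      rw [this]
    · obtain ⟨m, hm, hmax⟩ := p.dom.exists_max_image id p.dom_finite hne
      have hmg : m < g := hp hm
      obtain ⟨q, π, hq1, hq2, hq3⟩ := ih m hmg p fun x hx => hmax x hx
      exact ⟨q, π, fun x hx => lt_of_le_of_lt (hq1 hx) hmg, hq2, hq3⟩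
  intro p hp
  by_cases hg : g ∈ p.dom
  · obtain ⟨c, hc⟩ := PF.mem_dom.1 hg
    obtain ⟨r', c', π', hr1, hr2, hr3, hr4⟩ := lk_dens S h2 hx hrd g c (p.res (Iio g))
      (PF.dom_res_subset _ _)
    obtain ⟨q, π, hq1, hq2, hq3⟩ := hlt r' hr1
    have hqg : q.f g = none := PF.notMem_dom.1 fun h => lt_irrefl g (hq1 h)
    refine ⟨q.upd g c', Function.update π g π', ?_, ?_, ?_⟩
    · rw [PF.dom_upd]
      refine insert_subset (mem_Iic.2 le_rfl) fun x hx => le_of_lt (hq1 hx)
    · have e1 : p = (p.res (Iio g)).upd g c := by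
        ext x d
        by_cases hx : x = g
        · subst hx; rw [hc, PF.upd_f_same]
        · rw [PF.upd_f_ne hx]
          by_cases hx' : x < g
          · rw [PF.res_f_of_mem (mem_Iio.2 hx')]
          · have : x ∉ p.dom := fun h => by
              have := hp h
              exact hx' (lt_of_le_of_ne this hx)
            rw [PF.notMem_dom.1 this, PF.res_f_of_notMem (fun h => hx' (mem_Iio.1 h))]
      have hpg : (p.res (Iio g)).f g = none := PF.res_f_of_notMem (lt_irrefl g)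
      rw [h3c q g c' hqg, e1, h3c _ g c hpg]
      refine le_inf (inf_le_left.trans (hq2.trans hr2)) ?_
      exact (inf_le_inf_right _ (hq2.trans hr3)).trans (h3b g c' c)
    · intro x d hd
      by_cases hx : x = g
      · subst hx
        rw [PF.upd_f_same] at hd
        rw [Function.update_self]
        cases hd
        exact hr4
      · rw [PF.upd_f_ne hx] at hd
        rw [Function.update_of_ne hx]
        exact hq3 x d hd
  · obtain ⟨q, π, hq1, hq2, hq3⟩ := hlt p fun x hx =>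
      lt_of_le_of_ne (hp hx) fun h => hg (h ▸ hx)
    exact ⟨q, π, fun x hx => le_of_lt (hq1 hx), hq2, hq3⟩

lemma dens [WellFoundedLT K] (h2 : SZStm.{u}) (h3 : EeStm.{u}) (hx : SExtStm.{u})
    (hrd : RDensStm.{u}) (p : PF K Λ) :
      ∃ (q : PF K Λ) (π : K → Pc), ee S.D q ≤ ee S.D p ∧ LkP S q π := by
  rcases p.dom.eq_empty_or_nonempty with he | hne
  · refine ⟨PF.nil, _, ?_, lkP_nil S⟩
    have : p = PF.nil := by
      ext x c
      have : x ∉ p.dom := by rw [he]; exact notMem_empty _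
      rw [PF.notMem_dom.1 this, PF.nil_f]
    rw [this]
  · obtain ⟨m, hm, hmax⟩ := p.dom.exists_max_image id p.dom_finite hne
    obtain ⟨q, π, _, hq2, hq3⟩ := dens_le S h2 h3 hx hrd m p fun x hx => hmax x hx
    exact ⟨q, π, hq2, hq3⟩

/-- two linked conditions with the same pieces on the intersection of the domains are
compatible -/
lemma compat (h3 : EeStm.{u}) (hm : SMrgStm.{u}) (h2 : RTwoStm.{u}) {p q : PF K Λ}
    {π ρ : K → Pc} (hp : LkP S p π) (hq : LkP S q ρ)
    (h : ∀ x ∈ p.dom ∩ q.dom, π x = ρ x) : ee S.D p ⊓ ee S.D q ≠ ⊥ := by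
  classical
  obtain ⟨h3a, h3b, -, h3d, -, -⟩ := h3 K Λ S.D
  have key : ∀ x, ∃ o : Option Λ, (o ≠ none → x ∈ p.dom ∪ q.dom) ∧
      (∀ c, p.f x = some c → ∃ e, o = some e ∧ dv S.D x e c = ⊤) ∧
      (∀ c, q.f x = some c → ∃ e, o = some e ∧ dv S.D x e c = ⊤) := by
    intro x
    have hrefl : ∀ c, dv S.D x c c = ⊤ := fun c => by
      refine RO.eq_top_iff'.2 fun r => S.D.refl x c r
    by_cases h1 : x ∈ p.dom
    · obtain ⟨c, hc⟩ := PF.mem_dom.1 h1
      by_cases h2' : x ∈ q.dom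
      · obtain ⟨d, hd⟩ := PF.mem_dom.1 h2'
        obtain ⟨e, he1, he2⟩ := comb S hm h2 (hp x c hc)
          (by rw [h x ⟨h1, h2'⟩]; exact hq x d hd)
        refine ⟨some e, fun _ => Or.inl h1, fun c' hc' => ⟨e, rfl, ?_⟩,
          fun c' hc' => ⟨e, rfl, ?_⟩⟩
        · rw [hc] at hc'; cases hc'; exact he1
        · rw [hd] at hc'; cases hc'; exact he2
      · refine ⟨some c, fun _ => Or.inl h1, fun c' hc' => ⟨c, rfl, ?_⟩, fun c' hc' => ?_⟩
        · rw [hc] at hc'; cases hc'; exact hrefl c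
        · rw [PF.notMem_dom.1 h2'] at hc'; cases hc'
    · by_cases h2' : x ∈ q.dom
      · obtain ⟨d, hd⟩ := PF.mem_dom.1 h2'
        refine ⟨some d, fun _ => Or.inr h2', fun c' hc' => ?_, fun c' hc' => ⟨d, rfl, ?_⟩⟩
        · rw [PF.notMem_dom.1 h1] at hc'; cases hc'
        · rw [hd] at hc'; cases hc'; exact hrefl d
      · refine ⟨none, fun h => absurd rfl h, fun c' hc' => ?_, fun c' hc' => ?_⟩
        · rw [PF.notMem_dom.1 h1] at hc'; cases hc'
        · rw [PF.notMem_dom.1 h2'] at hc'; cases hc'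
  choose f hf1 hf2 hf3 using key
  let e : PF K Λ := ⟨f, (p.dom_finite.union q.dom_finite).subset fun x hx => hf1 x hx⟩
  have hle : ∀ (x : K) (d c : Λ), f x = some d → dv S.D x d c = ⊤ → ee S.D e ≤ eb S.D x c := by
    intro x d c hd hdv
    have h4 := h3d e x d hd
    have h5 := h3b x d c
    rw [hdv, top_inf_eq] at h5
    exact h4.trans h5
  have he1 : ee S.D e ≤ ee S.D p := by
    rw [h3a p]
    refine le_iInf fun x => le_iInf fun c => le_iInf fun hc => ?_
    obtain ⟨d, hd, hdv⟩ := hf2 x c hc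
    exact hle x d c hd hdv
  have he2 : ee S.D e ≤ ee S.D q := by
    rw [h3a q]
    refine le_iInf fun x => le_iInf fun c => le_iInf fun hc => ?_
    obtain ⟨d, hd, hdv⟩ := hf3 x c hc
    exact hle x d c hd hdv
  intro hbot
  exact ee_ne_bot (D := S.D) e (le_bot_iff.1 (hbot ▸ le_inf he1 he2))

end

end Lf

open Lf in
/-- K1: the chain condition -/
theorem cccStm (h1 : TrStm.{u}) (h2 : SZStm.{u}) (h3 : EeStm.{u}) (h4 : SExtStm.{u})
    (h5 : SMrgStm.{u}) (h6 : SCmpStm.{u}) (h7 : RCmpStm.{u}) (h8 : RDensStm.{u})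
    (h9 : RTwoStm.{u}) (h10 : DelFinStm.{u}) (h11 : ZlStm.{u}) : CccStm.{u} := by
  classical
  intro K Λ L _ _ _ S s hne hdj
  by_contra hcon
  have hcard : ℵ₁ ≤ #s := by
    rw [← succ_aleph0, Order.succ_le_iff, ← not_le, le_aleph0_iff_set_countable]
    exact hcon
  have hq : ∀ a : s, ∃ (q : PF K Λ) (π : K → Pc), ee S.D q ≤ a.1 ∧ LkP S q π := by
    intro a
    obtain ⟨p, hp⟩ := exists_ee_le (hne a.1 a.2)
    obtain ⟨q, π, hq1, hq2⟩ := dens S h2 h3 h4 h8 p
    exact ⟨q, π, hq1.trans hp, hq2⟩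
  choose q π hq1 hq2 using hq
  obtain ⟨J, R, hJ, hR⟩ := h10 K s ℵ₁ isRegular_aleph_one aleph0_lt_aleph_one hcard
    fun a => (q a).fin.toFinset
  -- the pieces on the root
  have hinj : ∃ i ∈ J, ∃ j ∈ J, i ≠ j ∧ ∀ x : R, π i x = π j x := by
    by_contra hno
    push Not at hno
    have hcount : #J ≤ ℵ₀ := by
      rw [le_aleph0_iff_set_countable]
      have : Function.Injective fun i : J => fun x : R => π i.1 x := by
        intro i j hij
        by_contra hne'
        obtain ⟨x, hx⟩ := hno i.1 i.2 j.1 j.2 fun h => hne' (Subtype.ext h)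
        exact hx (congrFun hij x)
      exact this.countable
    rw [hJ] at hcount
    exact absurd hcount (not_le.2 aleph0_lt_aleph_one)
  obtain ⟨i, hi, j, hj, hij, hπ⟩ := hinj
  refine compat S h3 h5 h9 (hq2 i) (hq2 j) ?_ ?_
  · intro x hx
    have hxR : x ∈ (R : Set K) := by
      rw [← hR i hi j hj hij]
      simpa [PF.dom] using hx
    exact hπ ⟨x, hxR⟩
  · refine le_bot_iff.1 ((inf_le_inf (hq1 i) (hq1 j)).trans ?_)
    rw [hdj i.1 i.2 j.1 j.2 fun h => hij (Subtype.ext h)]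

end CI
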