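import Pool.Agent.CI.C.StepStm

/-!
# Project CI, row S7: the limit step
-/

set_option autoImplicit false

open Set Cardinal Pool.Agent.CL

namespace CI

universe u

/-! ### elementary facts -/

theorem lim_iInf_succ {B : Type u} [CompleteLattice B] {n : ℕ} (f : Fin (n + 1) → B) :
    ⨅ i, f i = f 0 ⊓ ⨅ i : Fin n, f i.succ :=
  le_antisymm (le_inf (iInf_le _ 0) (le_iInf fun i => iInf_le _ i.succ))
    (le_iInf (Fin.cases inf_le_left fun i => inf_le_right.trans (iInf_le _ i)))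

section

variable {K Λ L Θ : Type u} [LinearOrder K] [LinearOrder L]

theorem lim_top_mem {D : Dat K Λ} (Z : Set K) : (⊤ : BB D) ∈ SZ D Z := fun _ => Iff.rfl

theorem lim_bot_mem {D : Dat K Λ} (Z : Set K) : (⊥ : BB D) ∈ SZ D Z := fun _ => Iff.rfl

theorem lim_inf_mem {D : Dat K Λ} {Z : Set K} {U V : BB D} (hU : U ∈ SZ D Z)
    (hV : V ∈ SZ D Z) : U ⊓ V ∈ SZ D Z := fun p => and_congr (hU p) (hV p)

theorem lim_mono (S : Sys K Λ L) {I : Set K} {x y : L} (h : x ≤ y) :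
    I ∩ S.Zl x ⊆ I ∩ S.Zl y :=
  inter_subset_inter_right _ fun _ hg => le_trans hg h

/-- the requirements of the limit step -/
def limR (S : Sys K Λ L) (rd : Θ → ℕ → Λ) (rt : Θ → List ℕ) (I : Set K) (x : L) :
    Set ((ℕ → BB S.D) × TT S.D Θ) :=
  {r | (∃ U ∈ SZ S.D (I ∩ S.Zl x), r = (fun _ => U, iB S.D Θ U)) ∨
    ∃ (d : ℕ → PF K Λ) (a : AF K Θ), (∀ l, (d l).dom ⊆ I ∩ S.Zl x) ∧
      (∀ l m, l ≠ m → Disjoint (d l).dom (d m).dom) ∧ S.Fol rd rt d a ∧
      r = (fun l => ee S.D (d l), iA S.D a)}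

/-- finitely many requirements -/
theorem lim_dec (h5 : IBStm.{u}) (S : Sys K Λ L) (rd : Θ → ℕ → Λ) (rt : Θ → List ℕ)
    (I : Set K) (x : L) (s : Finset ((ℕ → BB S.D) × TT S.D Θ))
    (hs : (s : Set ((ℕ → BB S.D) × TT S.D Θ)) ⊆ limR S rd rt I x) :
    ∃ U ∈ SZ S.D (I ∩ S.Zl x), ∃ (m : ℕ) (d : Fin m → ℕ → PF K Λ) (a : Fin m → AF K Θ),
      (∀ i l, (d i l).dom ⊆ I ∩ S.Zl x) ∧
      (∀ i l m, l ≠ m → Disjoint (d i l).dom (d i m).dom) ∧
      (∀ i, S.Fol rd rt (d i) (a i)) ∧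
      s.inf Prod.fst = (fun l => U ⊓ ⨅ i, ee S.D (d i l)) ∧
      s.inf Prod.snd = iB S.D Θ U ⊓ ⨅ i, iA S.D (a i) := by
  classical
  obtain ⟨-, hBi, -, -, -, hBt, -⟩ := h5 K Λ Θ S.D
  induction s using Finset.induction_on with
  | empty =>
    refine ⟨⊤, lim_top_mem _, 0, fun i => i.elim0, fun i => i.elim0, fun i => i.elim0,
      fun i => i.elim0, fun i => i.elim0, ?_, ?_⟩
    · rw [Finset.inf_empty]
      funext l
      rw [iInf_of_empty, inf_top_eq]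
      rfl
    · rw [Finset.inf_empty, hBt, iInf_of_empty, inf_top_eq]
  | insert r s hr ih =>
    rw [Finset.coe_insert, insert_subset_iff] at hs
    obtain ⟨U, hU, m, d, a, e1, e2, e3, e4, e5⟩ := ih hs.2
    rw [Finset.inf_insert, Finset.inf_insert, e4, e5]
    rcases hs.1 with ⟨V, hV, rfl⟩ | ⟨d', a', f1, f2, f3, rfl⟩
    · refine ⟨V ⊓ U, lim_inf_mem hV hU, m, d, a, e1, e2, e3, ?_, ?_⟩
      · funext l
        exact (inf_assoc _ _ _).symm
      · rw [hBi]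
        exact (inf_assoc _ _ _).symm
    · refine ⟨U, hU, m + 1, Fin.cons d' d, Fin.cons a' a, ?_, ?_, ?_, ?_, ?_⟩
      · intro i
        refine Fin.cases ?_ (fun i => ?_) i
        · exact f1
        · exact e1 i
      · intro i
        refine Fin.cases ?_ (fun i => ?_) i
        · exact f2
        · exact e2 i
      · intro i
        refine Fin.cases ?_ (fun i => ?_) i
        · exact f3
        · exact e3 i
      · funext l
        rw [lim_iInf_succ]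
        exact inf_left_comm _ _ _
      · rw [lim_iInf_succ]
        exact inf_left_comm _ _ _

/-- countably many coordinates lie in one layer -/
theorem lim_layer (S : Sys K Λ L) (hL : CtbBdd L) (C : Set K) (hC : C.Countable) :
    ∃ x, C ⊆ S.Zl x := by
  rcases C.eq_empty_or_nonempty with rfl | hne
  · obtain ⟨⟨x⟩, -⟩ := hL
    exact ⟨x, empty_subset _⟩
  · obtain ⟨f, hf⟩ := hC.exists_eq_range hne
    obtain ⟨x, hx⟩ := hL.2 fun n => S.lay (f n)
    refine ⟨x, ?_⟩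
    rw [hf]
    rintro _ ⟨n, rfl⟩
    exact hx n

end

/-- S7: the limit step -/
theorem limStm (h1 : CsrStm.{u}) (h2 : LimHStm.{u}) (_h3 : TrStm.{u}) (h4 : SZStm.{u})
    (h5 : IBStm.{u}) (h6 : IAStm.{u}) (h7 : TZStm.{u}) (h8 : ZlStm.{u}) (h9 : LayerStm.{u})
    (_h10 : EeStm.{u}) (h11 : RNulStm.{u}) : LimStm.{u} := by
  classical
  intro K Λ L Θ _ _ _ S rd rt I φ hL hccc hI hIne hmax hG
  have hTrI : ∀ x, Tr S.D (I ∩ S.Zl x) := fun x => (Tr_of_lower hI).inter (h8 K Λ L S x)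
  have hIio : ∀ b ∈ I, Iio b ⊆ I := fun b hb g hg => hI (le_of_lt hg) hb
  have hlt : ∀ b ∈ I, ∃ b' ∈ I, Iic b ⊆ Iio b' := by
    intro b hb
    obtain ⟨b', hb', hbb⟩ := hmax b hb
    exact ⟨b', hb', fun g hg => lt_of_le_of_lt hg hbb⟩
  obtain ⟨-, hBi, -, hBc, -, hBt, -, -, -, -, hBZ⟩ := h5 K Λ Θ S.D
  obtain ⟨-, -, -, -, -, hAZ, -, -⟩ := h6 K Λ Θ S.D
  obtain ⟨hLay, -⟩ := h9 K Λ L S hL hccc
  obtain ⟨b0, hb0⟩ := hIne
  -- the subalgebras
  have hXs : ∀ Z : Set K, Tr S.D Z → IsSA {z : ℕ → BB S.D | ∀ l, z l ∈ SZ S.D Z} := by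
    intro Z hZ
    refine ⟨fun l => lim_top_mem _, fun a ha b hb l => lim_inf_mem (ha l) (hb l),
      fun a ha l => (h4 K Λ S.D Z hZ).1.compl _ (ha l)⟩
  let X0 : Set (ℕ → BB S.D) := {z | ∃ b ∈ I, ∀ l, z l ∈ SZ S.D (Iio b)}
  have hX02 : ∀ a ∈ X0, ∀ b ∈ X0, ∃ g ∈ I, (∀ l, a l ∈ SZ S.D (Iio g)) ∧
      ∀ l, b l ∈ SZ S.D (Iio g) := by
    rintro a ⟨g, hg, ha⟩ b ⟨g', hg', hb⟩
    rcases le_total g g' with h | h
    · exact ⟨g', hg', fun l => SZ_mono (Iio_subset_Iio h) (ha l), hb⟩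
    · exact ⟨g, hg, ha, fun l => SZ_mono (Iio_subset_Iio h) (hb l)⟩
  have hX0 : IsSA X0 := by
    refine ⟨⟨b0, hb0, fun l => lim_top_mem _⟩, ?_, ?_⟩
    · intro a ha b hb
      obtain ⟨g, hg, h, h'⟩ := hX02 a ha b hb
      exact ⟨g, hg, fun l => lim_inf_mem (h l) (h' l)⟩
    · rintro a ⟨g, hg, ha⟩
      exact ⟨g, hg, fun l => (h4 K Λ S.D (Iio g) (Tr_of_lower (isLowerSet_Iio g))).1.compl _ (ha l)⟩
  have hφ : HomOn X0 φ := by
    refine ⟨?_, ?_⟩
    · intro a ha b hb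
      obtain ⟨g, hg, h, h'⟩ := hX02 a ha b hb
      exact (hG g hg).hom.inf a h b h'
    · rintro a ⟨g, hg, ha⟩
      exact (hG g hg).hom.compl a ha
  have hX0x : ∀ x, ∀ z ∈ X0 ∩ {z : ℕ → BB S.D | ∀ l, z l ∈ SZ S.D (I ∩ S.Zl x)},
      ∃ b ∈ I, ∀ l, z l ∈ SZ S.D (Iio b ∩ S.Zl x) := by
    rintro x z ⟨⟨b, hb, hz⟩, hz'⟩
    refine ⟨b, hb, fun l => ?_⟩
    have h := SZ_inter (hz l) (hz' l)
    rwa [← inter_assoc, inter_eq_self_of_subset_left (hIio b hb)] at h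
  have hφT : ∀ x, ∀ z ∈ X0 ∩ {z : ℕ → BB S.D | ∀ l, z l ∈ SZ S.D (I ∩ S.Zl x)},
      φ z ∈ TZ S.D Θ (I ∩ S.Zl x) := by
    intro x z hz
    obtain ⟨b, hb, hz'⟩ := hX0x x z hz
    have h := (hG b hb).layer (Iio b) subset_rfl (isLowerSet_Iio b) x z hz'
    exact (h7 K Λ Θ S.D (Iio b ∩ S.Zl x) ((Tr_of_lower (isLowerSet_Iio b)).inter
      (h8 K Λ L S x))).2.1 _ (inter_subset_inter_left _ (hIio b hb)) h
  have hR : ∀ x, ∀ r ∈ limR S rd rt I x,
      r.1 ∈ {z : ℕ → BB S.D | ∀ l, z l ∈ SZ S.D (I ∩ S.Zl x)} ∧ r.2 ∈ TZ S.D Θ (I ∩ S.Zl x) := by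
    rintro x r (⟨U, hU, rfl⟩ | ⟨d, a, f1, f2, f3, rfl⟩)
    · exact ⟨fun _ => hU, hBZ _ U hU⟩
    · exact ⟨fun l => (h4 K Λ S.D _ (hTrI x)).2.1 _ (f1 l), hAZ a _⟩
  obtain ⟨ψ, hψh, hψm, hψa, hψr⟩ := h1 (ℕ → BB S.D) (TT S.D Θ) L
    (fun x => {z : ℕ → BB S.D | ∀ l, z l ∈ SZ S.D (I ∩ S.Zl x)})
    (fun x => TZ S.D Θ (I ∩ S.Zl x)) X0 φ (limR S rd rt I)
    (fun x => hXs _ (hTrI x)) (fun x y hxy z hz l => SZ_mono (lim_mono S hxy) (hz l))
    (fun x => (h7 K Λ Θ S.D _ (hTrI x)).1)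
    (fun x y hxy => (h7 K Λ Θ S.D _ (hTrI x)).2.1 _ (lim_mono S hxy)) hX0 hφ hφT hR (by
      intro x ψ hB
      constructor
      · intro z hz s hs h0
        obtain ⟨U, hU, m, d, a, e1, e2, e3, e4, e5⟩ := lim_dec h5 S rd rt I x s hs
        obtain ⟨b, hb, hz'⟩ := hX0x x z hz
        rw [e4] at h0
        rw [e5]
        have hφt : φ (fun _ => ⊤) = ⊤ := by
          rw [(hG b hb).const ⊤ (lim_top_mem _), hBt]
        have key := h2 K Λ L Θ S rd rt I ∅ x b φ φ hI hb hmax (fun b' hb' _ => hG b' hb')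
          (Or.inl rfl) ?_ ?_ (fun _ _ _ _ => rfl) ?_ z (fun _ => ⊤) U hz'
          (fun _ => lim_top_mem _) hU m d a e1 e2 e3 ?_
        · rw [hφt, inf_top_eq, inf_assoc] at key
          exact key
        · refine ⟨?_, ?_⟩
          · intro a ha b' hb'
            exact (hG b hb).hom.inf a (fun l => SZ_mono (empty_subset _) (ha l)) b'
              (fun l => SZ_mono (empty_subset _) (hb' l))
          · intro a ha
            exact (hG b hb).hom.compl a (fun l => SZ_mono (empty_subset _) (ha l))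
        · intro w hw
          have h := (hG b hb).layer ∅ (empty_subset _) isLowerSet_empty x w (by
            intro l
            rw [empty_inter]
            exact hw l)
          rwa [empty_inter] at h
        · intro d' a' f1 f2 f3
          exact (hG b hb).rt d' a' (fun l => (f1 l).trans (empty_subset _)) f2 f3
        · intro l
          have h := congrFun h0 l
          have h' : z l ⊓ (U ⊓ ⨅ i, ee S.D (d i l)) = ⊥ := h
          rw [inf_top_eq, inf_assoc]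
          exact h'
      · intro z hz y hy u hu s hs h0
        obtain ⟨U, hU, m, d, a, e1, e2, e3, e4, e5⟩ := lim_dec h5 S rd rt I x s hs
        obtain ⟨b, hb, hz'⟩ := hX0x x z hz
        rw [e4] at h0
        rw [e5]
        have key := h2 K Λ L Θ S rd rt I (I ∩ S.Zl y) x b φ ψ hI hb hmax
          (fun b' hb' _ => hG b' hb') (Or.inr ⟨y, hy, rfl⟩) (hB.hom y hy) (hB.maps y hy) ?_ ?_
          z u U hz' hu hU m d a e1 e2 e3 ?_
        · rw [inf_assoc (φ z ⊓ ψ u)] at key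
          exact key
        · intro b' hb' w hw
          exact hB.agree y hy w ⟨⟨b', hb', fun l => SZ_mono inter_subset_left (hw l)⟩,
            fun l => SZ_mono inter_subset_right (hw l)⟩
        · intro d' a' f1 f2 f3
          exact hB.req y hy (fun l => ee S.D (d' l), iA S.D a') (Or.inr ⟨d', a', f1, f2, f3, rfl⟩)
        · intro l
          have h := congrFun h0 l
          have h' : z l ⊓ u l ⊓ (U ⊓ ⨅ i, ee S.D (d i l)) = ⊥ := h
          rw [inf_assoc (z l ⊓ u l)]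
          exact h')
  have hext : ∀ b ∈ I, ∀ z : ℕ → BB S.D, (∀ l, z l ∈ SZ S.D (Iio b)) → ψ z = φ z := by
    intro b hb z hz
    obtain ⟨x, hx⟩ := hLay I hI z fun l => SZ_mono (hIio b hb) (hz l)
    exact hψa x z ⟨⟨b, hb, hz⟩, hx⟩
  refine ⟨ψ, ?_, hext⟩
  have hlow : ∀ b ∈ I, ∀ c, eb S.D b c ∈ SZ S.D (Iic b) := by
    intro b hb c
    refine (h4 K Λ S.D (Iic b) (Tr_of_lower (isLowerSet_Iic b))).2.1 _ ?_
    rw [PF.dom_sng]
    rintro g rfl
    exact le_rfl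
  have hWb : ∀ b, ∀ U ∈ S.W b, U ∈ SZ S.D (Iio b) := fun b U hU =>
    SZ_mono inter_subset_left (S.sub b hU)
  constructor
  · -- hom
    refine ⟨?_, ?_⟩
    · intro a ha b hb
      obtain ⟨x, hx⟩ := hLay I hI a ha
      obtain ⟨y, hy⟩ := hLay I hI b hb
      exact (hψh (max x y)).inf a (fun l => SZ_mono (lim_mono S (le_max_left _ _)) (hx l)) b
        (fun l => SZ_mono (lim_mono S (le_max_right _ _)) (hy l))
    · intro a ha
      obtain ⟨x, hx⟩ := hLay I hI a ha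
      exact (hψh x).compl a hx
  · -- layer
    intro J hJ hJl x z hz
    by_cases hJI : J = I
    · subst hJI
      exact hψm x z hz
    · obtain ⟨g, hgI, hgJ⟩ : ∃ g ∈ I, g ∉ J := by
        by_contra hcon
        push Not at hcon
        exact hJI (Subset.antisymm hJ hcon)
      have hJg : J ⊆ Iio g := by
        intro h hh
        by_contra hc
        exact hgJ (hJl (not_lt.1 hc) hh)
      rw [hext g hgI z fun l => SZ_mono (inter_subset_left.trans hJg) (hz l)]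
      exact (hG g hgI).layer J hJg hJl x z hz
  · -- const
    intro U hU
    obtain ⟨x, hx⟩ := hLay I hI (fun _ => U) (fun _ => hU)
    have hUx : U ∈ SZ S.D (I ∩ S.Zl x) := hx 0
    have hUc : Uᶜ ∈ SZ S.D (I ∩ S.Zl x) := (h4 K Λ S.D _ (hTrI x)).1.compl _ hUx
    have g1 := hψr x (fun _ => U, iB S.D Θ U) (Or.inl ⟨U, hUx, rfl⟩)
    have g2 := hψr x (fun _ => Uᶜ, iB S.D Θ Uᶜ) (Or.inl ⟨Uᶜ, hUc, rfl⟩)
    have g3 := (hψh x).compl (fun _ => U) (fun _ => hUx)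
    have g4 : ψ (fun _ => Uᶜ) = (ψ (fun _ => U))ᶜ := g3
    have g2' : iB S.D Θ Uᶜ ≤ ψ (fun _ => Uᶜ) := g2
    rw [g4, hBc] at g2'
    exact le_antisymm (compl_le_compl_iff_le.1 g2') g1
  · -- fin
    intro n
    rw [hext b0 hb0 _ (fun l => by
      show (if l < n then (⊥ : BB S.D) else ⊤) ∈ SZ S.D (Iio b0)
      split_ifs
      · exact lim_bot_mem _
      · exact lim_top_mem _)]
    exact (hG b0 hb0).fin n
  · -- r3
    intro b hb hk a θ k haθ hq
    obtain ⟨b', hb', hbb⟩ := hlt b hb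
    have hsub : Iio b ⊆ Iio b' := Iio_subset_Iic_self.trans hbb
    have g := (hG b' hb').r3 b (hbb le_rfl) hk a θ k haθ hq
    have e1 : ψ (fun l => eb S.D b (rd θ l)) = φ fun l => eb S.D b (rd θ l) :=
      hext b' hb' _ fun l => SZ_mono hbb (hlow b hb _)
    have e2 : ∀ ρ : Λ, ψ (fun l => (S.cR b ρ).nul (S.cR b (rd θ l))) =
        φ fun l => (S.cR b ρ).nul (S.cR b (rd θ l)) := fun ρ =>
      hext b' hb' _ fun l => SZ_mono hsub (hWb b _
        (h11 (BB S.D) (S.W b) (S.ss b) (S.cR b ρ) (S.cR b (rd θ l)) (S.cR b ρ)).1)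
    unfold Sys.qr at g ⊢
    rw [e1]
    simp only [e2]
    exact g
  · -- rq
    intro b hb hk t g y hg hy hPE
    obtain ⟨b', hb', hbb⟩ := hlt b hb
    have hsub : Iio b ⊆ Iio b' := Iio_subset_Iic_self.trans hbb
    have h := (hG b' hb').rq b (hbb le_rfl) hk t g y hg hy hPE
    have e1 : ψ y = φ y := hext b' hb' _ fun l => SZ_mono (inter_subset_left.trans hbb) (hy l)
    have e2 : ∀ k v : ℕ, ψ (fun l => g l k v) = φ fun l => g l k v := fun k v =>
      hext b' hb' _ fun l => SZ_mono hsub (hWb b _ (hg l k v))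
    unfold Sys.qq at h ⊢
    rw [e1]
    simp only [e2]
    exact h
  · -- rt
    intro d a hd hdis hF
    obtain ⟨x, hx⟩ := lim_layer S hL (⋃ l, (d l).dom)
      (countable_iUnion fun l => (d l).dom_finite.countable)
    exact hψr x (fun l => ee S.D (d l), iA S.D a) (Or.inr ⟨d, a,
      fun l => subset_inter (hd l) ((subset_iUnion (fun l => (d l).dom) l).trans hx),
      hdis, hF, rfl⟩)

end CI
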