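import Pool.Agent.CI.C.MdlStm

/-!
# Project CI, core: limit of a sequence of conditions with a root
-/

set_option autoImplicit false

open Set Cardinal Pool.Agent.CL

namespace CI

universe u

/-! ### the guess of the tails -/

theorem tailStm : TailStm.{u} := by
  classical
  intro K Λ L Θ _ _ S rd rt hgs d R a₀ hdR hdd
  have h1 : ∀ (b : K) (c : Λ), ∃ θ : Θ, ((S.kd b).isX → ∀ l, S.Eqv b c (rd θ l)) ∧
      ((S.kd b).isE → S.st b c = rt θ) := by
    intro b c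
    by_cases hx : (S.kd b).isX
    · obtain ⟨θ, hθ⟩ := hgs.ex b hx fun _ => c
      refine ⟨θ, fun _ l => (hθ l).1, fun he => ?_⟩
      exfalso
      rcases he with he | he <;> rcases hx with hx | hx | hx | hx <;> rw [he] at hx <;> cases hx
    · obtain ⟨θ, hθ⟩ := hgs.st (S.st b c)
      exact ⟨θ, fun h => absurd h hx, fun _ => hθ.symm⟩
  choose g hg using h1
  have h2 : ∀ b : K, (∃ l, b ∈ (d l).dom) → ∃ c : Λ, ∃ l, (d l).f b = some c := by
    rintro b ⟨l, hl⟩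
    obtain ⟨c, hc⟩ := PF.mem_dom.1 hl
    exact ⟨c, l, hc⟩
  let f : K → Option Θ := fun b => if b ∈ R then some (a₀ b) else
    if h : ∃ l, b ∈ (d l).dom then some (g b (h2 b h).choose) else none
  have hf : {b | f b ≠ none} ⊆ (R : Set K) ∪ ⋃ l, (d l).dom := by
    intro b hb
    rw [mem_ofPred_eq] at hb
    by_cases h : b ∈ R
    · exact Or.inl h
    · right
      by_cases h' : ∃ l, b ∈ (d l).dom
      · exact mem_iUnion.2 h'
      · exact absurd (show f b = none by simp only [f]; rw [if_neg h, dif_neg h']) hb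
  refine ⟨⟨f, ((R.countable_toSet).union (countable_iUnion fun l =>
    (d l).dom_finite.countable)).mono hf⟩, ?_, ?_⟩
  · intro l b c hc
    have hb : b ∈ (d l).dom := PF.mem_dom.2 ⟨c, hc⟩
    have hbR : b ∉ R := fun h => (Set.disjoint_left.1 (hdR l)) hb h
    have hex : ∃ l, b ∈ (d l).dom := ⟨l, hb⟩
    have hc' := (h2 b hex).choose_spec
    obtain ⟨l', hl'⟩ := hc'
    have hll : l' = l := by
      by_contra hne
      exact (Set.disjoint_left.1 (hdd l' l hne)) (PF.mem_dom.2 ⟨_, hl'⟩) hb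
    rw [hll, hc, Option.some_inj] at hl'
    refine ⟨g b (h2 b hex).choose, ?_, ?_, ?_⟩
    · show f b = _
      simp only [f]
      rw [if_neg hbR, dif_pos hex]
    · intro hx
      rw [← hl']
      exact (hg b c).1 hx l
    · intro he
      rw [← hl']
      exact (hg b c).2 he
  · intro b hb
    show f b = _
    simp only [f]
    rw [if_pos hb]

/-! ### sequences which are bottom from some point on -/

theorem evBotStm (h1 : IBStm.{u}) : EvBotStm.{u} := by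
  classical
  intro K Λ L Θ _ _ S rd rt φ hG
  obtain ⟨-, hinf, -, -, hbot, htop, -, -, hsup, -, -⟩ := h1 K Λ Θ S.D
  have hI : ∀ y z : ℕ → BB S.D, φ (fun l => y l ⊓ z l) = φ y ⊓ φ z := fun y z =>
    hG.hom.inf y (fun l => SZ_univ _) z (fun l => SZ_univ _)
  have hM : ∀ y z : ℕ → BB S.D, (∀ l, y l ≤ z l) → φ y ≤ φ z := by
    intro y z hyz
    have e : (fun l => y l ⊓ z l) = y := funext fun l => inf_eq_left.2 (hyz l)
    have h := hI y z
    rw [e] at h
    rw [h]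
    exact inf_le_right
  have hC : ∀ U : BB S.D, φ (fun _ => U) = iB S.D Θ U := fun U => hG.const U (SZ_univ U)
  refine ⟨?_, hM, hI, ?_⟩
  · intro z w hw hz
    have h2 : ∀ n, φ z ⊓ iB S.D Θ (w n) = ⊥ := by
      intro n
      obtain ⟨l₀, hl₀⟩ := hz n
      rw [← hC, ← hI]
      have h3 : φ (fun l => z l ⊓ w n) ≤ φ (fun _ => (⊥ : BB S.D)) := by
        have h4 : φ (fun l => z l ⊓ w n) = φ (fun l => z l ⊓ w n) ⊓
            φ (fun l => if l < l₀ then ⊥ else ⊤) := by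
          rw [hG.fin l₀, inf_top_eq]
        rw [h4, ← hI]
        refine hM _ _ fun l => ?_
        by_cases hl : l < l₀
        · rw [if_pos hl, inf_bot_eq]
        · rw [hl₀ l (not_lt.1 hl), bot_inf_eq]
      rw [hC, hbot] at h3
      exact le_bot_iff.1 h3
    have h5 : φ z = φ z ⊓ iB S.D Θ (⨆ n, w n) := by rw [hw, htop, inf_top_eq]
    rw [h5, hsup, inf_iSup_eq]
    simp only [h2]
    exact iSup_const
  · intro R y
    induction R using Finset.induction_on with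
    | empty =>
      have e : (fun l : ℕ => ⨅ b : K, ⨅ _ : b ∈ (∅ : Finset K), y b l) = fun _ => (⊤ : BB S.D) := by
        funext l
        simp
      rw [e, hC, htop]
      simp
    | insert b R hb ih =>
      have e : (fun l : ℕ => ⨅ x : K, ⨅ _ : x ∈ insert b R, y x l) =
          fun l => y b l ⊓ ⨅ x : K, ⨅ _ : x ∈ R, y x l := by
        funext l
        rw [Finset.iInf_insert]
      rw [e, hI, ih, Finset.iInf_insert]

/-! ### the limit -/

section

variable {K Λ L Θ : Type u} [LinearOrder K] [LinearOrder L] (S : Sys K Λ L)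

lemma lim2_eqv_trans {b : K} {c₁ c₂ c₃ : Λ} (h : S.Eqv b c₁ c₂) (h' : S.Eqv b c₂ c₃) :
    S.Eqv b c₁ c₃ := by
  have key : ∀ x y z : Λ, dv S.D b x y = ⊤ → dv S.D b y z = ⊤ → dv S.D b x z = ⊤ := by
    intro x y z hxy hyz
    refine RO.eq_top_iff'.2 fun r => ?_
    have h1 : r ∈ (dv S.D b x y).S := by rw [hxy]; trivial
    have h2 : r ∈ (dv S.D b y z).S := by rw [hyz]; trivial
    exact S.D.trans b x y z r h1 h2
  exact ⟨key _ _ _ h.1 h'.1, key _ _ _ h'.2 h.2⟩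

lemma lim2_eqv_symm {b : K} {c₁ c₂ : Λ} (h : S.Eqv b c₁ c₂) : S.Eqv b c₂ c₁ := ⟨h.2, h.1⟩

lemma lim2_eb_le (h7 : EeStm.{u}) {b : K} {c₁ c₂ : Λ} (h : S.Eqv b c₁ c₂) :
    eb S.D b c₁ ≤ eb S.D b c₂ := by
  have h1 := (h7 K Λ S.D).2.1 b c₁ c₂
  rwa [h.1, top_inf_eq] at h1

lemma lim2_upd_le {b : K} {p : PF K Λ} (c : Λ) (hp : p.dom ⊆ Iio b) :
    @LE.le (PD S.D) _ (p.upd b c) p := by
  intro x c' hx
  have hne : x ≠ b := fun e => by
    have h := hp (PF.mem_dom.2 ⟨c', hx⟩)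
    rw [e] at h
    exact lt_irrefl b h
  exact ⟨c', by rw [PF.upd_f_ne hne]; exact hx, S.D.refl _ _ _⟩

lemma lim2_upd_dom {b : K} {p : PF K Λ} (c : Λ) (hp : p.dom ⊆ Iio b) :
    (p.upd b c).dom ⊆ Iic b := by
  rw [PF.dom_upd]
  rintro x (rfl | hx)
  · exact le_rfl
  · exact le_of_lt (hp hx)

end

/-- the elements of the root -/
lemma lim2_coord (h2 : EvBotStm.{u}) (h4 : PosEStm.{u}) (h5 : PosRStm.{u}) (h6 : PlainStm.{u})
    (h7 : EeStm.{u}) (h8 : IAStm.{u}) (h9 : IBStm.{u})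
    {K Λ L Θ : Type u} [LinearOrder K] [LinearOrder L] (S : Sys K Λ L) (rd : Θ → ℕ → Λ)
    (rt : Θ → List ℕ) (φ : (ℕ → BB S.D) → TT S.D Θ) (hG : S.Good rd rt univ φ)
    (hccc : Ccc (BB S.D)) (hgs : S.Gs rd rt)
    (hcld : ∀ b, S.kd b = .rnd ∨ (S.kd b).isE → S.Cld (S.W b) φ)
    (k : ℕ) (b : K) (c : ℕ → Λ)
    (hlab : ∀ l m, S.Eqv b (c l) (c m) ∨
      (S.kd b = .rnd ∧ (S.cR b (c l)).q ≤ k ∧ (S.cR b (c m)).q ≤ k) ∨
      ((S.kd b).isE ∧ S.st b (c l) = S.st b (c m) ∧ (S.cS b (c l)).N = (S.cS b (c m)).N)) :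
    ∃ (q : TT S.D Θ) (θ : Θ),
      (∀ (a : AF K Θ) (p : PF K Λ), p.dom ⊆ Iio b → ∃ a' ≤ a, ∃ p' : PF K Λ,
        @LE.le (PD S.D) _ p' p ∧ p'.dom ⊆ Iic b ∧ iAP S.D a' p' ≤ q) ∧
      ∀ a : AF K Θ, a.f b = some θ → iA S.D a ⊓ q ≤ φ fun l => eb S.D b (c l) := by
  obtain ⟨-, hM, hI, -⟩ := h2 K Λ L Θ S rd rt φ hG
  obtain ⟨hAP, -⟩ := h8 K Λ Θ S.D
  have hle := (h9 K Λ Θ S.D).1
  by_cases h : ∀ l, S.Eqv b (c l) (c 0)
  · -- type 1
    obtain ⟨θ, -⟩ := hgs.st []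
    refine ⟨iB S.D Θ (eb S.D b (c 0)), θ, ?_, ?_⟩
    · intro a p hp
      refine ⟨a, le_rfl, p.upd b (c 0), lim2_upd_le S _ hp, lim2_upd_dom _ hp, ?_⟩
      rw [hAP]
      exact inf_le_right.trans ((hle _ _).2
        ((h7 K Λ S.D).2.2.2.1 _ b (c 0) (PF.upd_f_same _ _ _)))
    · intro a _
      refine inf_le_right.trans ?_
      rw [← hG.const (eb S.D b (c 0)) (SZ_univ _)]
      exact hM _ _ fun l => lim2_eb_le S h7 (lim2_eqv_symm S (h l))
  · rw [not_forall] at h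
    obtain ⟨l₁, hl₁⟩ := h
    -- every label is not equivalent to one of `c 0`, `c l₁`
    have hoth : ∀ n, ¬ S.Eqv b (c n) (c 0) ∨ ¬ S.Eqv b (c n) (c l₁) := by
      intro n
      by_contra hc
      rw [not_or, not_not, not_not] at hc
      exact hl₁ (lim2_eqv_trans S (lim2_eqv_symm S hc.2) hc.1)
    rcases hlab l₁ 0 with h | ⟨hr, hq1, hq0⟩ | ⟨he, hs1, hN1⟩
    · exact absurd h hl₁
    · -- type 2
      have hrE : ¬ (S.kd b).isE := by
        rw [hr]
        rintro (h | h) <;> cases h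
      have hq : ∀ n, (S.cR b (c n)).q ≤ k := by
        intro n
        rcases hoth n with hn | hn
        · rcases hlab n 0 with h | ⟨-, h, -⟩ | ⟨h, -⟩
          · exact absurd h hn
          · exact h
          · exact absurd h hrE
        · rcases hlab n l₁ with h | ⟨-, h, -⟩ | ⟨h, -⟩
          · exact absurd h hn
          · exact h
          · exact absurd h hrE
      obtain ⟨θ, hθ⟩ := hgs.ex b (Or.inr (Or.inr (Or.inr hr))) c
      have hqθ : ∀ l, (S.cR b (rd θ l)).q ≤ k := fun l => by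
        rw [(hθ l).2 hr]
        exact hq l
      refine ⟨S.qr b (rd θ) φ, θ, ?_, ?_⟩
      · exact h5 K Λ L Θ S rd rt φ hG hccc b hr (hcld b (Or.inl hr)) (rd θ) k hqθ
      · intro a ha
        refine (hG.r3 b (mem_univ b) hr a θ k ha hqθ).trans ?_
        exact hM _ _ fun l => lim2_eb_le S h7 (lim2_eqv_symm S (hθ l).1)
    · -- type 3
      have hrr : S.kd b ≠ .rnd := by
        intro hr
        rw [hr] at he
        rcases he with h | h <;> cases h
      have hall : ∀ n, S.st b (c n) = S.st b (c 0) ∧ (S.cS b (c n)).N = (S.cS b (c 0)).N := by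
        intro n
        rcases hoth n with hn | hn
        · rcases hlab n 0 with h | ⟨h, -⟩ | ⟨-, h, h'⟩
          · exact absurd h hn
          · exact absurd h hrr
          · exact ⟨h, h'⟩
        · rcases hlab n l₁ with h | ⟨h, -⟩ | ⟨-, h, h'⟩
          · exact absurd h hn
          · exact absurd h hrr
          · exact ⟨h.trans hs1, h'.trans hN1⟩
      obtain ⟨θ, -⟩ := hgs.st []
      obtain ⟨hPE, hW, hSZ, hcard⟩ := h6 K Λ L S b he (S.st b (c 0)) (S.cS b (c 0)).N c hall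
      refine ⟨S.qq b (S.st b (c 0)) (fun l k v => ((S.cS b (c l)).f k v)ᶜ) φ, θ, ?_, ?_⟩
      · intro a p hp
        obtain ⟨a', ha', x, hx⟩ := h4 K Λ L Θ S rd rt φ hG hccc b he (hcld b (Or.inr he))
          (S.st b (c 0)) (fun l k v => ((S.cS b (c l)).f k v)ᶜ) (S.cS b (c 0)).N hW hcard a p hp
        exact ⟨a', ha', p.upd b x, lim2_upd_le S _ hp, lim2_upd_dom _ hp, hx⟩
      · intro a _
        exact inf_le_right.trans (hG.rq b (mem_univ b) he _ _ _ hW hSZ hPE)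

theorem lim2Stm (h1 : TailStm.{u}) (h2 : EvBotStm.{u}) (h3 : RootStm.{u}) (h4 : PosEStm.{u})
    (h5 : PosRStm.{u}) (h6 : PlainStm.{u}) (h7 : EeStm.{u}) (h8 : IAStm.{u}) (h9 : IBStm.{u})
    (_h10 : TZStm.{u}) : Lim2Stm.{u} := by
  classical
  intro K Λ L Θ _ _ S rd rt φ hG hccc hgs hcld p R k hR hdis hlab
  have h2' := h2
  obtain ⟨-, hM, hI, hF⟩ := h2' K Λ L Θ S rd rt φ hG
  have hc : ∀ b, ∃ (q : TT S.D Θ) (θ : Θ) (y : ℕ → BB S.D), b ∈ R →
      (∀ (a : AF K Θ) (p : PF K Λ), p.dom ⊆ Iio b → ∃ a' ≤ a, ∃ p' : PF K Λ,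
        @LE.le (PD S.D) _ p' p ∧ p'.dom ⊆ Iic b ∧ iAP S.D a' p' ≤ q) ∧
      (∀ a : AF K Θ, a.f b = some θ → iA S.D a ⊓ q ≤ φ y) ∧
      ∀ l c, (p l).f b = some c → y l ≤ eb S.D b c := by
    intro b
    by_cases hb : b ∈ R
    · have hex : ∀ l, ∃ c, (p l).f b = some c := fun l => PF.mem_dom.1 (hR l hb)
      choose c hc using hex
      obtain ⟨q, θ, hq1, hq2⟩ := lim2_coord h2 h4 h5 h6 h7 h8 h9 S rd rt φ hG hccc hgs hcld k b c
        fun l m => hlab b hb l m (c l) (c m) (hc l) (hc m)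
      refine ⟨q, θ, fun l => eb S.D b (c l), fun _ => ⟨hq1, hq2, ?_⟩⟩
      intro l c' hc'
      rw [hc l, Option.some_inj] at hc'
      show eb S.D b (c l) ≤ eb S.D b c'
      rw [hc']
    · obtain ⟨θ, -⟩ := hgs.st []
      exact ⟨⊤, θ, fun _ => ⊤, fun h => absurd h hb⟩
  choose q a₀ y hq using hc
  have hdom : ∀ l, ((p l).res (R : Set K)ᶜ).dom = (p l).dom ∩ (R : Set K)ᶜ := fun l =>
    PF.dom_res _ _
  have hdd : ∀ l m, l ≠ m →
      Disjoint ((p l).res (R : Set K)ᶜ).dom ((p m).res (R : Set K)ᶜ).dom := by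
    intro l m hlm
    rw [hdom, hdom, Set.disjoint_left]
    rintro x ⟨hx1, hx2⟩ ⟨hx3, -⟩
    exact hx2 (hdis l m hlm ⟨hx1, hx3⟩)
  obtain ⟨a, hFol, ha⟩ := h1 K Λ L Θ S rd rt hgs (fun l => (p l).res (R : Set K)ᶜ) R a₀
    (fun l => by
      rw [hdom, Set.disjoint_left]
      rintro x ⟨-, hx⟩ hx'
      exact hx hx') hdd
  have hrt := hG.rt (fun l => (p l).res (R : Set K)ᶜ) a (fun l => subset_univ _) hdd hFol
  obtain ⟨a', ha', p', hp'⟩ := h3 K Λ Θ S.D R q (fun b hb => (hq b hb).1) a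
  obtain ⟨hAP, hne, -, hmono, -⟩ := h8 K Λ Θ S.D
  have hA : iAP S.D a' p' ≤ iA S.D a := by
    rw [hAP]
    exact inf_le_left.trans (hmono _ _ ha')
  have hB : iAP S.D a' p' ≤ ⨅ b : K, ⨅ _ : b ∈ R, φ (y b) := by
    refine le_iInf fun b => le_iInf fun hb => ?_
    refine le_trans (le_inf hA ?_) ((hq b hb).2.1 a (ha b hb))
    exact hp'.trans (iInf_le_of_le b (iInf_le _ hb))
  have hE : iAP S.D a' p' ≤ φ fun l => ee S.D (p l) := by
    refine (le_inf (hA.trans hrt) hB).trans ?_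
    rw [← hF, ← hI]
    refine hM _ _ fun l => ?_
    rw [(h7 K Λ S.D).1 (p l)]
    refine le_iInf fun b => le_iInf fun c => le_iInf fun hbc => ?_
    by_cases hb : b ∈ R
    · exact inf_le_right.trans ((iInf_le_of_le b (iInf_le _ hb)).trans ((hq b hb).2.2 l c hbc))
    · refine inf_le_left.trans ((h7 K Λ S.D).2.2.2.1 _ b c ?_)
      exact PF.res_f_eq_some.2 ⟨hb, hbc⟩
  intro h0
  rw [h0] at hE
  exact hne a' p' (le_bot_iff.1 hE)

end CI
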