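import Pool.Agent.CI.C.MdlStm

/-!
# Project CI, core: averaged limits of arrays of conditions
-/

set_option autoImplicit false

open Set Cardinal Pool.Agent.CL

namespace CI

universe u

section

variable {B : Type u} [CompleteBooleanAlgebra B]

/-- distributivity over finitely many coordinates -/
private theorem l4_dist {K : Type u} (P : K → Finset ℕ → Prop) (z : K → Finset ℕ → B) (t : B)
    (R : Finset K) : ∀ w : B,
    (∀ Cf : K → Finset ℕ, (∀ b ∈ R, P b (Cf b)) → w ⊓ R.inf (fun b => z b (Cf b)) ≤ t) →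
      w ⊓ R.inf (fun b => ⨆ C : Finset ℕ, ⨆ _ : P b C, z b C) ≤ t := by
  classical
  induction R using Finset.induction_on with
  | empty =>
    intro w h
    have h1 := h (fun _ => ∅) (fun b hb => absurd hb (Finset.notMem_empty b))
    rw [Finset.inf_empty] at h1 ⊢
    exact h1
  | insert i R hi ih =>
    intro w h
    rw [Finset.inf_insert, ← inf_assoc, inf_iSup₂_eq, iSup₂_inf_eq]
    refine iSup₂_le fun C hC => ?_
    refine ih (w ⊓ z i C) fun Cf hCf => ?_
    have h1 := h (Function.update Cf i C) (by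
      intro b hb
      by_cases hbi : b = i
      · subst hbi
        rw [Function.update_self]
        exact hC
      · rw [Function.update_of_ne hbi]
        exact hCf b ((Finset.mem_insert.1 hb).resolve_left hbi))
    rw [Finset.inf_insert, Function.update_self, ← inf_assoc] at h1
    refine le_trans (le_of_eq ?_) h1
    refine congrArg (fun y => w ⊓ z i C ⊓ y) (Finset.inf_congr rfl fun b hb => ?_)
    have hbi : b ≠ i := by
      rintro rfl
      exact hi hb
    rw [Function.update_of_ne hbi]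

/-- counting -/
private theorem l4_card {K : Type u} (X : ℕ) (R : Finset K) (Cf : K → Finset ℕ)
    (h : ∀ b ∈ R, Cf b ⊆ Finset.range X ∧ 2 * R.card * X ≤ (Cf b).card * (2 * R.card + 1)) :
    ∃ C ⊆ Finset.range X, X ≤ C.card * 2 ∧ ∀ x ∈ C, ∀ b ∈ R, x ∈ Cf b := by
  classical
  set C := (Finset.range X).filter fun x => ∀ b ∈ R, x ∈ Cf b with hC
  refine ⟨C, Finset.filter_subset _ _, ?_, fun x hx => (Finset.mem_filter.1 hx).2⟩
  have h1 : Finset.range X \ C ⊆ R.biUnion fun b => Finset.range X \ Cf b := by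
    intro x hx
    obtain ⟨hx1, hx2⟩ := Finset.mem_sdiff.1 hx
    rw [hC, Finset.mem_filter] at hx2
    push Not at hx2
    obtain ⟨b, hb, hxb⟩ := hx2 hx1
    exact Finset.mem_biUnion.2 ⟨b, hb, Finset.mem_sdiff.2 ⟨hx1, hxb⟩⟩
  have h2 : (Finset.range X \ C).card ≤ ∑ b ∈ R, (Finset.range X \ Cf b).card :=
    (Finset.card_le_card h1).trans Finset.card_biUnion_le
  have h3 : (Finset.range X \ C).card + C.card = X := by
    rw [Finset.card_sdiff_add_card_eq_card (Finset.filter_subset _ _), Finset.card_range]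
  have h4 : ∀ b ∈ R, (Finset.range X \ Cf b).card * (2 * R.card + 1) ≤ X := by
    intro b hb
    have h5 : (Finset.range X \ Cf b).card + (Cf b).card = X := by
      rw [Finset.card_sdiff_add_card_eq_card (h b hb).1, Finset.card_range]
    have h6 := (h b hb).2
    have h7 : (Finset.range X \ Cf b).card * (2 * R.card + 1) +
        (Cf b).card * (2 * R.card + 1) = X * (2 * R.card + 1) := by
      rw [← add_mul, h5]
    nlinarith
  have h5 : (Finset.range X \ C).card * (2 * R.card + 1) ≤ R.card * X := by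
    calc (Finset.range X \ C).card * (2 * R.card + 1)
        ≤ (∑ b ∈ R, (Finset.range X \ Cf b).card) * (2 * R.card + 1) :=
          Nat.mul_le_mul_right _ h2
      _ = ∑ b ∈ R, (Finset.range X \ Cf b).card * (2 * R.card + 1) := Finset.sum_mul _ _ _
      _ ≤ ∑ _b ∈ R, X := Finset.sum_le_sum h4
      _ = R.card * X := by rw [Finset.sum_const, smul_eq_mul]
  have h6 : (Finset.range X \ C).card * (2 * R.card + 1) + C.card * (2 * R.card + 1) =
      X * (2 * R.card + 1) := by
    rw [← add_mul, h3]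
  have h7 : (R.card + 1) * X ≤ (R.card + 1) * (C.card * 2) := by nlinarith
  exact Nat.le_of_mul_le_mul_left h7 (Nat.succ_pos _)

end

section

variable {K Λ : Type u} [LinearOrder K]

/-- the union of the tails -/
private noncomputable def l4_d (p : ℕ → PF K Λ) (R : Finset K) : ℕ → PF K Λ
  | 0 => PF.nil
  | n + 1 => ((p n).res ((R : Set K)ᶜ)).ov (l4_d p R n)

omit [LinearOrder K] in
private theorem l4_dom (p : ℕ → PF K Λ) (R : Finset K) (n : ℕ) (b : K)
    (hb : b ∈ (l4_d p R n).dom) : b ∉ R ∧ ∃ x < n, b ∈ (p x).dom := by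
  induction n with
  | zero =>
    rw [l4_d, PF.dom_nil] at hb
    exact absurd hb (Set.notMem_empty b)
  | succ n ih =>
    rw [l4_d, PF.dom_ov, PF.dom_res] at hb
    rcases hb with ⟨h1, h2⟩ | h1
    · exact ⟨h2, n, Nat.lt_succ_self n, h1⟩
    · obtain ⟨h2, x, h3, h4⟩ := ih h1
      exact ⟨h2, x, Nat.lt_succ_of_lt h3, h4⟩

private theorem l4_ee (h6 : EeStm.{u}) (D : Dat K Λ) (p : ℕ → PF K Λ) (R : Finset K) (n : ℕ)
    (hp : ∀ x < n, ∀ x' < n, x ≠ x' → (p x).dom ∩ (p x').dom ⊆ (R : Set K)) :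
    ∀ x < n, ee D (l4_d p R n) ≤ ee D ((p x).res ((R : Set K)ᶜ)) := by
  induction n with
  | zero =>
    intro x hx
    exact absurd hx (Nat.not_lt_zero x)
  | succ n ih =>
    intro x hx
    have h1 : ee D (l4_d p R (n + 1)) =
        ee D ((p n).res ((R : Set K)ᶜ)) ⊓ ee D (l4_d p R n) := by
      refine (h6 K Λ D).2.2.2.2.2 ((p n).res ((R : Set K)ᶜ)) (l4_d p R n) ?_
      intro b hb hb'
      obtain ⟨h2, y, h3, h4⟩ := l4_dom p R n b hb
      rw [PF.dom_res] at hb'
      have h5 := hp n (Nat.lt_succ_self n) y (Nat.lt_succ_of_lt h3) (ne_of_gt h3) ⟨hb'.1, h4⟩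
      exact h2 h5
    rw [h1]
    rcases Nat.lt_succ_iff_lt_or_eq.1 hx with h2 | h2
    · refine inf_le_right.trans (ih ?_ x h2)
      intro y hy y' hy' hne
      exact hp y (Nat.lt_succ_of_lt hy) y' (Nat.lt_succ_of_lt hy') hne
    · subst h2
      exact inf_le_left

end

/-- averaged limits of arrays of conditions -/
theorem lim4Stm (h1 : TailStm.{u}) (h2 : EvBotStm.{u}) (h3 : RootStm.{u}) (h4 : PosEStm.{u})
    (h5 : AvgStm.{u}) (h6 : EeStm.{u}) (h7 : IAStm.{u}) (h8 : IBStm.{u}) (_h9 : TZStm.{u}) :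
    Lim4Stm.{u} := by
  classical
  intro K Λ L Θ _ _ S rd rt φ hgood hccc hgs hcld X p R hR hdisj hlab
  obtain ⟨_, hmono, hinf, hfinf⟩ := h2 K Λ L Θ S rd rt φ hgood
  obtain ⟨_, heq, _, hcoord, hsplit, _⟩ := h6 K Λ S.D
  obtain ⟨hA1, hA2, _, hA4, _⟩ := h7 K Λ Θ S.D
  obtain ⟨_, _, _, _, _, hBtop, _⟩ := h8 K Λ Θ S.D
  obtain ⟨θ0, _⟩ := hgs.st []
  by_cases hex : ∃ (l x : ℕ) (b : K) (c : Λ), x < X l ∧ (p l x).f b = some c
  swap
  · -- all conditions are empty
    push Not at hex
    have hnil : ∀ l x, x < X l → p l x = PF.nil := by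
      intro l x hx
      ext b c
      constructor
      · intro h
        exact absurd h (hex l x b c hx)
      · intro h
        rw [PF.nil_f] at h
        cases h
    have htop : (fun l => cntGe (Finset.range (X l)) (fun x => ee S.D (p l x)) 2 (X l)) =
        fun _ => ⊤ := by
      funext l
      rw [eq_top_iff]
      unfold cntGe
      refine le_iSup₂_of_le (Finset.range (X l)) ⟨Finset.Subset.refl _, ?_⟩ ?_
      · rw [Finset.card_range]
        omega
      · refine Finset.le_inf fun x hx => ?_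
        rw [hnil l x (Finset.mem_range.1 hx), ee_nil]
    rw [htop, hgood.const ⊤ (SZ_univ _), hBtop]
    intro h
    exact hA2 ⟨fun _ => none, by simp⟩ PF.nil (le_bot_iff.1 (h ▸ le_top))
  obtain ⟨l0, x0, _, cdef, hx0, _⟩ := hex
  set c0 : K → Λ := fun b => ((p l0 x0).f b).getD cdef with hc0
  set lab : K → ℕ → ℕ → Λ := fun b l x => ((p l x).f b).getD cdef with hlabd
  have hlf : ∀ b ∈ R, ∀ l x, x < X l → (p l x).f b = some (lab b l x) := by
    intro b hb l x hx
    obtain ⟨c, hc⟩ := PF.mem_dom.1 (hR l x hx hb)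
    have h10 : lab b l x = c := by
      show ((p l x).f b).getD cdef = c
      rw [hc]
      rfl
    rw [h10, hc]
  have hc0l : ∀ b, c0 b = lab b l0 x0 := fun _ => rfl
  -- the two types
  have htyp : ∀ b ∈ R, (∀ l x, x < X l → S.Eqv b (c0 b) (lab b l x)) ∨
      (S.kd b = .et ∧ ∀ l x, x < X l → S.st b (lab b l x) = S.st b (c0 b) ∧
        (S.cS b (lab b l x)).N = (S.cS b (c0 b)).N) := by
    intro b hb
    by_cases hall : ∀ l x, x < X l → S.Eqv b (c0 b) (lab b l x)
    · exact Or.inl hall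
    right
    push Not at hall
    obtain ⟨l1, x1, hx1, hn⟩ := hall
    have ha := hlab b hb l0 x0 l1 x1 (c0 b) (lab b l1 x1) hx0 hx1 (hlf b hb l0 x0 hx0)
      (hlf b hb l1 x1 hx1)
    obtain ⟨ha1, ha2, ha3⟩ := ha.resolve_left hn
    refine ⟨ha1, fun l x hx => ?_⟩
    have hb1 := hlab b hb l x l0 x0 (lab b l x) (c0 b) hx hx0 (hlf b hb l x hx)
      (hlf b hb l0 x0 hx0)
    rcases hb1 with hb1 | ⟨_, hb2, hb3⟩
    · have hb4 := hlab b hb l x l1 x1 (lab b l x) (lab b l1 x1) hx hx1 (hlf b hb l x hx)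
        (hlf b hb l1 x1 hx1)
      rcases hb4 with hb4 | ⟨_, hb5, hb6⟩
      · exfalso
        apply hn
        constructor
        · refine (RO.eq_top_iff' (Q := PD S.D)).2 fun r => ?_
          exact S.D.trans b _ _ _ r ((RO.eq_top_iff' (Q := PD S.D)).1 hb1.2 r)
            ((RO.eq_top_iff' (Q := PD S.D)).1 hb4.1 r)
        · refine (RO.eq_top_iff' (Q := PD S.D)).2 fun r => ?_
          exact S.D.trans b _ _ _ r ((RO.eq_top_iff' (Q := PD S.D)).1 hb4.2 r)
            ((RO.eq_top_iff' (Q := PD S.D)).1 hb1.1 r)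
      · exact ⟨hb5.trans ha2.symm, hb6.trans ha3.symm⟩
    · exact ⟨hb2, hb3⟩
  -- the root elements
  have hroot : ∀ b : K, ∃ (qb : TT S.D Θ) (yb : ℕ → BB S.D), b ∈ R →
      (∀ (a : AF K Θ) (r : PF K Λ), r.dom ⊆ Iio b → ∃ a' ≤ a, ∃ r' : PF K Λ,
        @LE.le (PD S.D) _ r' r ∧ r'.dom ⊆ Iic b ∧ iAP S.D a' r' ≤ qb) ∧ qb ≤ φ yb ∧
      ∀ l, yb l ≤ cntGe (Finset.range (X l)) (fun x => eb S.D b (lab b l x))
        (2 * R.card + 1) (2 * R.card * X l) := by
    intro b
    by_cases hb : b ∈ R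
    swap
    · exact ⟨⊥, fun _ => ⊥, fun h => absurd h hb⟩
    have hnone : ∀ r : PF K Λ, r.dom ⊆ Iio b → r.f b = none := by
      intro r hr
      exact PF.notMem_dom.1 fun h => lt_irrefl b (hr h)
    have hupd : ∀ (r : PF K Λ) (c : Λ), r.dom ⊆ Iio b →
        @LE.le (PD S.D) _ (r.upd b c) r ∧ (r.upd b c).dom ⊆ Iic b := by
      intro r c hr
      constructor
      · intro x d hx
        have hxb : x ≠ b := by
          rintro rfl
          rw [hnone r hr] at hx
          cases hx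
        exact ⟨d, by rw [PF.upd_f_ne hxb]; exact hx, S.D.refl _ _ _⟩
      · rw [PF.dom_upd]
        rintro x (rfl | hx)
        · exact le_refl x
        · exact le_of_lt (hr hx)
    rcases htyp b hb with ht | ⟨hkd, ht⟩
    · refine ⟨iB S.D Θ (eb S.D b (c0 b)), fun _ => eb S.D b (c0 b), fun _ => ⟨?_, ?_, ?_⟩⟩
      · intro a r hr
        refine ⟨a, le_refl a, r.upd b (c0 b), (hupd r (c0 b) hr).1, (hupd r (c0 b) hr).2, ?_⟩
        rw [hA1]
        refine inf_le_right.trans ?_
        exact ((h8 K Λ Θ S.D).1 _ _).2 (hcoord _ b (c0 b) (PF.upd_f_same _ _ _))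
      · rw [hgood.const _ (SZ_univ _)]
      · intro l
        unfold cntGe
        refine le_iSup₂_of_le (Finset.range (X l)) ⟨Finset.Subset.refl _, ?_⟩ ?_
        · rw [Finset.card_range]
          nlinarith
        · refine Finset.le_inf fun x hx => ?_
          have h10 := heq b (c0 b) (lab b l x)
          rw [(ht l x (Finset.mem_range.1 hx)).1, top_inf_eq] at h10
          exact h10
    · obtain ⟨hpe, hW, hSZ, N', hwd⟩ := h5 K Λ L S b hkd (S.st b (c0 b)) (S.cS b (c0 b)).N
        (2 * R.card) X (lab b) ht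
      have hE : (S.kd b).isE := Or.inr hkd
      refine ⟨S.qq b (S.st b (c0 b)) (S.avg b (2 * R.card) X (lab b)) φ,
        fun l => cntGe (Finset.range (X l)) (fun x => eb S.D b (lab b l x))
          (2 * R.card + 1) (2 * R.card * X l), fun _ => ⟨?_, ?_, fun _ => le_rfl⟩⟩
      · intro a r hr
        obtain ⟨a', ha', c, hc⟩ := h4 K Λ L Θ S rd rt φ hgood hccc b hE (hcld b (Or.inr hE))
          _ _ N' hW hwd a r hr
        exact ⟨a', ha', r.upd b c, (hupd r c hr).1, (hupd r c hr).2, hc⟩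
      · exact hgood.rq b (mem_univ b) hE _ _ _ hW hSZ hpe
  choose q y hqy using hroot
  -- the tails
  have hd1 : ∀ l, Disjoint (l4_d (p l) R (X l)).dom (R : Set K) := by
    intro l
    rw [Set.disjoint_left]
    intro b hb hbR
    exact (l4_dom _ _ _ b hb).1 hbR
  have hd2 : ∀ l m, l ≠ m → Disjoint (l4_d (p l) R (X l)).dom (l4_d (p m) R (X m)).dom := by
    intro l m hlm
    rw [Set.disjoint_left]
    intro b hb hb'
    obtain ⟨e1, x, e2, e3⟩ := l4_dom _ _ _ b hb
    obtain ⟨_, x', e4, e5⟩ := l4_dom _ _ _ b hb'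
    refine e1 (hdisj l x m x' e2 e4 ?_ ⟨e3, e5⟩)
    intro h
    exact hlm (congrArg Prod.fst h)
  obtain ⟨a, hfol, _⟩ := h1 K Λ L Θ S rd rt hgs (fun l => l4_d (p l) R (X l)) R (fun _ => θ0)
    hd1 hd2
  have hrt := hgood.rt (fun l => l4_d (p l) R (X l)) a (fun _ => subset_univ _) hd2 hfol
  obtain ⟨a', ha', p', hp'⟩ := h3 K Λ Θ S.D R q (fun b hb => (hqy b hb).1) a
  -- the pointwise inequality
  have hpt : ∀ l, (⨅ b : K, ⨅ _ : b ∈ R, y b l) ⊓ ee S.D (l4_d (p l) R (X l)) ≤
      cntGe (Finset.range (X l)) (fun x => ee S.D (p l x)) 2 (X l) := by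
    intro l
    have e1 : (⨅ b : K, ⨅ _ : b ∈ R, y b l) ≤ R.inf (fun b => ⨆ C : Finset ℕ,
        ⨆ _ : C ⊆ Finset.range (X l) ∧ 2 * R.card * X l ≤ C.card * (2 * R.card + 1),
          C.inf (fun x => eb S.D b (lab b l x))) := by
      refine Finset.le_inf fun b hb => ?_
      refine (iInf₂_le b hb).trans ?_
      exact (hqy b hb).2.2 l
    rw [inf_comm]
    refine (inf_le_inf_left _ e1).trans ?_
    refine l4_dist (fun _ C => C ⊆ Finset.range (X l) ∧
      2 * R.card * X l ≤ C.card * (2 * R.card + 1))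
      (fun b C => C.inf (fun x => eb S.D b (lab b l x))) _ R _ fun Cf hCf => ?_
    obtain ⟨C, hC1, hC2, hC3⟩ := l4_card (X l) R Cf hCf
    unfold cntGe
    refine le_iSup₂_of_le C ⟨hC1, hC2⟩ ?_
    refine Finset.le_inf fun x hx => ?_
    have hxl : x < X l := Finset.mem_range.1 (hC1 hx)
    rw [hsplit (p l x) (R : Set K)]
    refine le_inf ?_ ?_
    · rw [(h6 K Λ S.D).1 ((p l x).res (R : Set K))]
      refine le_iInf fun b => le_iInf fun c => le_iInf fun hc => ?_
      obtain ⟨hbR, hc'⟩ := PF.res_f_eq_some.1 hc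
      have hbR' : b ∈ R := hbR
      rw [hlf b hbR' l x hxl] at hc'
      cases hc'
      refine inf_le_right.trans ?_
      exact (Finset.inf_le (f := fun b => (Cf b).inf (fun x => eb S.D b (lab b l x))) hbR').trans
        (Finset.inf_le (f := fun x => eb S.D b (lab b l x)) (hC3 x hx b hbR'))
    · refine inf_le_left.trans ?_
      refine l4_ee h6 S.D (p l) R (X l) ?_ x hxl
      intro z hz z' hz' hne
      refine hdisj l z l z' hz hz' ?_
      intro h
      exact hne (congrArg Prod.snd h)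
  intro hbot
  have e2 : iAP S.D a' p' ≤ φ (fun l => (⨅ b : K, ⨅ _ : b ∈ R, y b l) ⊓
      ee S.D (l4_d (p l) R (X l))) := by
    rw [hinf, hfinf R y]
    refine le_inf ?_ ?_
    · refine hp'.trans ?_
      refine le_iInf₂ fun b hb => ?_
      exact (iInf₂_le b hb).trans (hqy b hb).2.1
    · rw [hA1]
      exact inf_le_left.trans ((hA4 a a' ha').trans hrt)
  have e3 := e2.trans (hmono _ _ hpt)
  rw [hbot] at e3
  exact hA2 a' p' (le_bot_iff.1 e3)

end CI
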