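import Pool.Agent.CI.C.StepStm

/-!
# Project CI, core: the hypothesis of the limit step
-/

set_option autoImplicit false

open Set Cardinal Pool.Agent.CL

namespace CI

universe u

section

variable {B : Type u} [CompleteBooleanAlgebra B] {Y : Set B}

private lemma lh_inf (h : IsCS Y) {a b : B} (ha : a ∈ Y) (hb : b ∈ Y) : a ⊓ b ∈ Y := by
  have h1 : aᶜ ⊔ bᶜ ∈ Y := by
    rw [← sSup_pair]
    refine h.sSup _ ?_
    rintro x (rfl | rfl)
    · exact h.compl _ ha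
    · exact h.compl _ hb
  have h2 := h.compl _ h1
  rwa [compl_sup, compl_compl, compl_compl] at h2

private lemma lh_top (h : IsCS Y) : (⊤ : B) ∈ Y := by
  have h1 : (⊥ : B) ∈ Y := by
    rw [← sSup_empty]
    exact h.sSup _ (empty_subset _)
  have h2 := h.compl _ h1
  rwa [compl_bot] at h2

private lemma lh_iInf {ι : Type*} (h : IsCS Y) {f : ι → B} (hf : ∀ i, f i ∈ Y) :
    ⨅ i, f i ∈ Y := by
  have h1 : (⨆ i, (f i)ᶜ) ∈ Y := by
    refine h.sSup _ ?_
    rintro x ⟨i, rfl⟩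
    exact h.compl _ (hf i)
  have h2 := h.compl _ h1
  rw [compl_iSup] at h2
  simpa only [compl_compl] using h2

private lemma lh_seqSA (h : IsCS Y) : IsSA {z : ℕ → B | ∀ l, z l ∈ Y} where
  top _ := lh_top h
  inf _ ha _ hb l := lh_inf h (ha l) (hb l)
  compl _ ha l := h.compl _ (ha l)

end

section

variable {X T : Type u} [BooleanAlgebra X] [BooleanAlgebra T] {Y : Set X} {φ : X → T}

private lemma lh_homTop (hY : IsSA Y) (h : HomOn Y φ) : φ ⊤ = ⊤ ∧ φ ⊥ = ⊥ := by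
  have hb : (⊥ : X) ∈ Y := by
    rw [← compl_top]
    exact hY.compl _ hY.top
  have h1 : φ ⊥ = ⊥ := by
    have h2 := h.inf ⊤ hY.top (⊤ᶜ) (hY.compl _ hY.top)
    rw [h.compl _ hY.top, inf_compl_self, inf_compl_self] at h2
    exact h2
  refine ⟨?_, h1⟩
  have h3 := h.compl _ hb
  rwa [compl_bot, h1, compl_bot] at h3

private lemma lh_mono (h : HomOn Y φ) {a b : X} (ha : a ∈ Y) (hb : b ∈ Y) (hab : a ≤ b) :
    φ a ≤ φ b := by
  have h1 := h.inf a ha b hb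
  rw [inf_eq_left.2 hab] at h1
  rw [h1]
  exact inf_le_right

private lemma lh_homInf (hY : IsSA Y) (h : HomOn Y φ) {ι : Type} (s : Finset ι) (f : ι → X)
    (hf : ∀ i, f i ∈ Y) (t : T) (ht : ∀ i, t ≤ φ (f i)) : s.inf f ∈ Y ∧ t ≤ φ (s.inf f) := by
  classical
  induction s using Finset.induction_on with
  | empty =>
    rw [Finset.inf_empty]
    exact ⟨hY.top, by rw [(lh_homTop hY h).1]; exact le_top⟩
  | insert i s _ ih =>
    rw [Finset.inf_insert]
    exact ⟨hY.inf _ (hf i) _ ih.1, by rw [h.inf _ (hf i) _ ih.1]; exact le_inf (ht i) ih.2⟩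

end

section

variable {K Λ L Θ : Type u} [LinearOrder K] [LinearOrder L] (S : Sys K Λ L)

private lemma lh_dvTrans {b : K} {c0 c1 c2 : Λ} (h : dv S.D b c0 c1 = ⊤)
    (h' : dv S.D b c1 c2 = ⊤) : dv S.D b c0 c2 = ⊤ := by
  refine RO.eq_top_iff'.2 fun p => ?_
  exact S.D.trans b c0 c1 c2 p (RO.eq_top_iff'.1 h p) (RO.eq_top_iff'.1 h' p)

private lemma lh_dvRefl (b : K) (c : Λ) : dv S.D b c c = ⊤ :=
  RO.eq_top_iff'.2 fun p => S.D.refl b c p

private lemma lh_len {κ : Kd} (h : κ.isE) (N : ℕ) : κ.len N = 0 := by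
  rcases h with rfl | rfl <;> rfl

/-- finitely many labels of a centred kind with the same stem have a lower bound -/
private lemma lh_low (h9 : SMrgStm.{u}) (b : K) (hE : (S.kd b).isE) (t : List ℕ) (c1 : Λ)
    (h1 : S.st b c1 = t) (C : Finset Λ) (hC : ∀ c ∈ C, S.st b c = t) :
    ∃ c0, S.st b c0 = t ∧ dv S.D b c0 c1 = ⊤ ∧ ∀ c ∈ C, dv S.D b c0 c = ⊤ := by
  classical
  have hS : (S.kd b).isS := by
    rcases hE with h | h
    · exact Or.inr (Or.inr (Or.inr (Or.inl h)))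
    · exact Or.inr (Or.inr (Or.inr (Or.inr h)))
  obtain ⟨hdv, hsur⟩ := S.vS b hS
  induction C using Finset.induction_on with
  | empty => exact ⟨c1, h1, lh_dvRefl S b c1, fun c hc => absurd hc (Finset.notMem_empty c)⟩
  | insert c C _ ih =>
    obtain ⟨c0, h2, h3, h4⟩ := ih fun c hc => hC c (Finset.mem_insert_of_mem hc)
    have h5 : S.st b c = t := hC c (Finset.mem_insert_self _ _)
    obtain ⟨e, he1, -, -, he2, he3⟩ := h9 (BB S.D) (S.W b) (S.kd b) (S.ss b) (S.cS b c0)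
      (S.cS b c) (h2.trans h5.symm) ((le_of_eq (lh_len hE _)).trans (Nat.zero_le _))
    obtain ⟨c', hc'⟩ := hsur e
    have h6 : dv S.D b c' c0 = ⊤ := by rw [hdv, hc']; exact he2
    have h7 : dv S.D b c' c = ⊤ := by rw [hdv, hc']; exact he3
    refine ⟨c', ?_, lh_dvTrans S h6 h3, ?_⟩
    · show (S.cS b c').t = t
      rw [hc', he1]
      exact h2
    · intro c'' hc''
      rcases Finset.mem_insert.1 hc'' with rfl | h8
      · exact h7
      · exact lh_dvTrans S h6 (h4 c'' h8)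

/-- a bound for a finite subset of a set without maximum -/
private lemma lh_bound {I : Set K} {b : K} (hb : b ∈ I) (hI : ∀ g ∈ I, ∃ g' ∈ I, g < g')
    {s : Set K} (hs : s.Finite) (hsI : s ⊆ I) : ∃ b' ∈ I, b ≤ b' ∧ s ⊆ Iio b' := by
  induction s, hs using Set.Finite.induction_on with
  | empty => exact ⟨b, hb, le_rfl, empty_subset _⟩
  | insert _ _ ih =>
    rename_i g s _ _
    obtain ⟨b', h1, h2, h3⟩ := ih fun x hx => hsI (mem_insert_of_mem _ hx)
    obtain ⟨g', hg', hgg⟩ := hI g (hsI (mem_insert _ _))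
    refine ⟨max b' g', ?_, h2.trans (le_max_left _ _), ?_⟩
    · rcases max_choice b' g' with h | h
      · rw [h]; exact h1
      · rw [h]; exact hg'
    · intro x hx
      rcases mem_insert_iff.1 hx with rfl | hx
      · exact lt_of_lt_of_le hgg (le_max_right _ _)
      · exact lt_of_lt_of_le (h3 hx) (le_max_left _ _)

end

/-- the hypothesis of the limit step -/
theorem limHStm (h1 : TrStm.{u}) (h2 : SZStm.{u}) (h3 : EeStm.{u}) (h4 : UPStm.{u})
    (h5 : IBStm.{u}) (h6 : IAStm.{u}) (h7 : TZStm.{u}) (h8 : ZlStm.{u}) (h9 : SMrgStm.{u}) :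
    LimHStm.{u} := by
  intro K Λ L Θ _ _ S rd rt I Z₂ x b φ ψ hI hbI hmax hgood hZ₂ hψ hψT hψφ hψR z u U hz hu hU
    m d a hd hdis hfol hbot
  classical
  by_contra hcon
  obtain ⟨ib1, ib2, ib3, ib4, ib5, ib6, ib7, ib8, ib9, ib10, ib11⟩ := h5 K Λ Θ S.D
  obtain ⟨ia1, ia2, ia3, ia4, ia5, ia6, ia7, ia8⟩ := h6 K Λ Θ S.D
  obtain ⟨ee1, ee2, ee3, ee4, ee5, ee6⟩ := h3 K Λ S.D
  have hTrI : Tr S.D I := Tr_of_lower hI
  have hTrx : Tr S.D (I ∩ S.Zl x) := hTrI.inter (h8 K Λ L S x)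
  have hTr2 : Tr S.D Z₂ := by
    rcases hZ₂ with rfl | ⟨y, -, rfl⟩
    · intro g hg
      exact absurd hg (notMem_empty g)
    · exact hTrI.inter (h8 K Λ L S y)
  have hZ₂x : Z₂ ⊆ I ∩ S.Zl x := by
    rcases hZ₂ with rfl | ⟨y, hy, rfl⟩
    · exact empty_subset _
    · exact fun g hg => ⟨hg.1, le_trans hg.2 hy.le⟩
  obtain ⟨tz1, -, -, tz4⟩ := h7 K Λ Θ S.D (I ∩ S.Zl x) hTrx
  -- a condition below everything
  have hmem : φ z ⊓ ψ u ⊓ iB S.D Θ U ⊓ (⨅ i, iA S.D (a i)) ∈ TZ S.D Θ (I ∩ S.Zl x) := by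
    refine lh_inf tz1 (lh_inf tz1 (lh_inf tz1 ?_ ?_) ?_) (lh_iInf tz1 fun i => ia6 _ _)
    · have h10 := (hgood b hbI le_rfl).layer (Iio b) Subset.rfl (isLowerSet_Iio b) x z hz
      have hsub : Iio b ∩ S.Zl x ⊆ I ∩ S.Zl x := fun g hg => ⟨hI (le_of_lt hg.1) hbI, hg.2⟩
      exact (h7 K Λ Θ S.D (Iio b ∩ S.Zl x)
        ((Tr_of_lower (isLowerSet_Iio b)).inter (h8 K Λ L S x))).2.1 _ hsub h10
    · exact (h7 K Λ Θ S.D Z₂ hTr2).2.1 _ hZ₂x (hψT u hu)
    · exact ib11 _ U hU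
  obtain ⟨a0, p, hp, hle⟩ := tz4 _ hmem hcon
  obtain ⟨a1, -, ha10, -, ha1⟩ := ia8 (Finset.univ.image a) a0 p (by
    intro a' ha'
    obtain ⟨i, -, rfl⟩ := Finset.mem_image.1 ha'
    exact hle.trans (inf_le_right.trans (iInf_le _ i)))
  have ha1' : ∀ i, a1 ≤ a i := fun i => ha1 _ (Finset.mem_image_of_mem a (Finset.mem_univ i))
  have hle1 : iAP S.D a1 p ≤ φ z ⊓ ψ u ⊓ iB S.D Θ U ⊓ (⨅ i, iA S.D (a i)) := by
    refine le_trans ?_ hle
    rw [ia1, ia1]
    exact inf_le_inf_right _ (ia4 _ _ ha10)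
  have hpA : iAP S.D a1 p ≤ iA S.D a1 := by rw [ia1]; exact inf_le_left
  have hpB : iAP S.D a1 p ≤ iB S.D Θ (ee S.D p) := by rw [ia1]; exact inf_le_right
  have hpU : ee S.D p ≤ U := by
    rw [← disjoint_compl_right_iff, disjoint_iff]
    by_contra hne
    refine ia5 a1 _ hne ?_
    rw [ib2, ← inf_assoc, ← ia1, ib4, ← le_bot_iff]
    have h10 : iAP S.D a1 p ≤ iB S.D Θ U := hle1.trans (inf_le_left.trans inf_le_right)
    exact (inf_le_inf_right _ h10).trans (le_of_eq (inf_compl_self _))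
  -- the initial segment
  obtain ⟨b', hb'I, hbb', hpb⟩ := lh_bound hbI hmax p.dom_finite (fun g hg => (hp hg).1)
  have hG := hgood b' hb'I hbb'
  have hTrJ : Tr S.D (Iio b') := Tr_of_lower (isLowerSet_Iio b')
  have hTrJx : Tr S.D (Iio b' ∩ S.Zl x) := hTrJ.inter (h8 K Λ L S x)
  obtain ⟨szJ1, szJ2, -⟩ := h2 K Λ S.D (Iio b') hTrJ
  obtain ⟨szx1, szx2, -⟩ := h2 K Λ S.D (Iio b' ∩ S.Zl x) hTrJx
  obtain ⟨sz21, sz22, -⟩ := h2 K Λ S.D Z₂ hTr2
  have hfol' : ∀ i (Z : Set K), S.Fol rd rt (fun l => (d i l).res Z) a1 := by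
    intro i Z l g c hc
    obtain ⟨θ, h10, h11, h12⟩ := hfol i l g c (PF.res_f_eq_some.1 hc).2
    exact ⟨θ, ha1' i g θ h10, h11, h12⟩
  have hdis' : ∀ i (Z : Set K) l m, l ≠ m → Disjoint ((d i l).res Z).dom ((d i m).res Z).dom := by
    intro i Z l m hlm
    rw [PF.dom_res, PF.dom_res]
    exact (hdis i l m hlm).mono inter_subset_left inter_subset_left
  have hφd : ∀ i, iAP S.D a1 p ≤ φ fun l => ee S.D ((d i l).res (Iio b')) := fun i =>
    hpA.trans (hG.rt _ a1 (fun l => PF.dom_res_subset _ _) (hdis' i _) (hfol' i _))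
  have hψd : ∀ i, iAP S.D a1 p ≤ ψ fun l => ee S.D ((d i l).res Z₂) := fun i =>
    hpA.trans (hψR _ a1 (fun l => PF.dom_res_subset _ _) (hdis' i _) (hfol' i _))
  set z' : ℕ → BB S.D := z ⊓ (fun _ => ee S.D p) ⊓
    Finset.univ.inf fun i l => ee S.D ((d i l).res (Iio b')) with hz'
  set u' : ℕ → BB S.D := u ⊓ Finset.univ.inf fun i l => ee S.D ((d i l).res Z₂) with hu'
  have hSAJ := lh_seqSA szJ1
  have hSA2 := lh_seqSA sz21
  have hSAx := lh_seqSA szx1
  have hJx : SZ S.D (Iio b' ∩ S.Zl x) ⊆ SZ S.D (Iio b') := SZ_mono inter_subset_left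
  have hzx : z ∈ {z : ℕ → BB S.D | ∀ l, z l ∈ SZ S.D (Iio b' ∩ S.Zl x)} := fun l =>
    SZ_mono (inter_subset_inter_left _ (Iio_subset_Iio hbb')) (hz l)
  have hpx : (fun _ => ee S.D p) ∈ {z : ℕ → BB S.D | ∀ l, z l ∈ SZ S.D (Iio b' ∩ S.Zl x)} :=
    fun _ => szx2 p fun g hg => ⟨hpb hg, (hp hg).2⟩
  have hdx : ∀ i, (fun l => ee S.D ((d i l).res (Iio b'))) ∈
      {z : ℕ → BB S.D | ∀ l, z l ∈ SZ S.D (Iio b' ∩ S.Zl x)} := by
    intro i l
    refine szx2 _ ?_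
    rw [PF.dom_res]
    exact fun g hg => ⟨hg.2, (hd i l hg.1).2⟩
  have hd2 : ∀ i, (fun l => ee S.D ((d i l).res Z₂)) ∈
      {z : ℕ → BB S.D | ∀ l, z l ∈ SZ S.D Z₂} := fun i l => sz22 _ (PF.dom_res_subset _ _)
  have hup : ∀ {w : ℕ → BB S.D}, w ∈ {z : ℕ → BB S.D | ∀ l, z l ∈ SZ S.D (Iio b' ∩ S.Zl x)} →
      w ∈ {z : ℕ → BB S.D | ∀ l, z l ∈ SZ S.D (Iio b')} := fun hw l => hJx (hw l)
  have hinfJ := lh_homInf hSAJ hG.hom Finset.univ (fun i l => ee S.D ((d i l).res (Iio b')))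
    (fun i => hup (hdx i)) _ hφd
  have hinf2 := lh_homInf hSA2 hψ Finset.univ (fun i l => ee S.D ((d i l).res Z₂)) hd2 _ hψd
  have hinfx : (Finset.univ.inf fun i l => ee S.D ((d i l).res (Iio b'))) ∈
      {z : ℕ → BB S.D | ∀ l, z l ∈ SZ S.D (Iio b' ∩ S.Zl x)} := by
    have h10 : ∀ s : Finset (Fin m), (s.inf fun i l => ee S.D ((d i l).res (Iio b'))) ∈
        {z : ℕ → BB S.D | ∀ l, z l ∈ SZ S.D (Iio b' ∩ S.Zl x)} := by
      intro s
      induction s using Finset.induction_on with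
      | empty => rw [Finset.inf_empty]; exact hSAx.top
      | insert i s _ ih => rw [Finset.inf_insert]; exact hSAx.inf _ (hdx i) _ ih
    exact h10 _
  have hz'x : z' ∈ {z : ℕ → BB S.D | ∀ l, z l ∈ SZ S.D (Iio b' ∩ S.Zl x)} :=
    hSAx.inf _ (hSAx.inf _ hzx _ hpx) _ hinfx
  have hu'2 : u' ∈ {z : ℕ → BB S.D | ∀ l, z l ∈ SZ S.D Z₂} := hSA2.inf _ hu _ hinf2.1
  have hφz' : iAP S.D a1 p ≤ φ z' := by
    rw [hz', hG.hom.inf _ (hSAJ.inf _ (hup hzx) _ (hup hpx)) _ (hup hinfx),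
      hG.hom.inf _ (hup hzx) _ (hup hpx), hG.const _ (hup hpx 0)]
    exact le_inf (le_inf (hle1.trans (inf_le_left.trans (inf_le_left.trans inf_le_left))) hpB)
      hinfJ.2
  have hψu' : iAP S.D a1 p ≤ ψ u' := by
    rw [hu', hψ.inf _ hu _ hinf2.1]
    exact le_inf (hle1.trans (inf_le_left.trans (inf_le_left.trans inf_le_right))) hinf2.2
  -- the elements meet
  obtain ⟨l, hl⟩ : ∃ l, z' l ⊓ u' l ≠ ⊥ := by
    by_contra hno
    push Not at hno
    obtain ⟨ρ, hρ, hρZ⟩ := h4 K Λ S.D Z₂ hTr2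
    have h10 : ∀ l, ρ (z' l) ∈ SZ S.D (Iio b' ∩ Z₂) := by
      intro l
      refine SZ_mono ?_ (hρZ _ hTrJx (z' l) (hz'x l))
      exact fun g hg => ⟨hg.2.1, hg.1⟩
    have h11 : ψ (fun l => ρ (z' l)) = φ (fun l => ρ (z' l)) := hψφ b' hb'I _ h10
    have h12 : φ z' ≤ φ (fun l => ρ (z' l)) :=
      lh_mono hG.hom (hup hz'x) (fun l => SZ_mono inter_subset_left (h10 l))
        (fun l => hρ.le (z' l))
    have h13 : ψ (fun l => ρ (z' l)) ⊓ ψ u' = ⊥ := by
      rw [← hψ.inf _ (fun l => hρ.mem _) _ hu'2]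
      have h14 : (fun l => ρ (z' l)) ⊓ u' = ⊥ := by
        funext l
        show ρ (z' l) ⊓ u' l = ⊥
        rw [← disjoint_iff, ← le_compl_iff_disjoint_right]
        refine hρ.least _ _ (sz21.compl _ (hu'2 l)) ?_
        rw [le_compl_iff_disjoint_right, disjoint_iff]
        exact hno l
      rw [h14]
      exact (lh_homTop hSA2 hψ).2
    refine ia2 a1 p (le_bot_iff.1 ?_)
    rw [← h13, h11]
    exact le_inf (hφz'.trans h12) hψu'
  -- a condition over the union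
  have hTr' : Tr S.D ((Iio b' ∩ S.Zl x) ∪ Z₂) := hTrJx.union hTr2
  obtain ⟨sz'1, -, -, sz'4, -⟩ := h2 K Λ S.D _ hTr'
  obtain ⟨q, hq, hqv⟩ := sz'4 (z' l ⊓ u' l)
    (lh_inf sz'1 (SZ_mono subset_union_left (hz'x l)) (SZ_mono subset_union_right (hu'2 l))) hl
  have e1 : z' l = z l ⊓ ee S.D p ⊓ ⨅ i, ee S.D ((d i l).res (Iio b')) := by
    rw [← Finset.inf_univ_eq_iInf, hz']
    simp only [Pi.inf_apply, Finset.inf_apply]
  have e2 : u' l = u l ⊓ ⨅ i, ee S.D ((d i l).res Z₂) := by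
    rw [← Finset.inf_univ_eq_iInf, hu']
    simp only [Pi.inf_apply, Finset.inf_apply]
  -- the remaining labels
  set G : Set K := {g | g ∉ (Iio b' ∩ S.Zl x) ∪ Z₂ ∧ ∃ i, g ∈ (d i l).dom} with hG'
  have hGfin : G.Finite := by
    refine (Set.finite_iUnion fun i : Fin m => (d i l).dom_finite).subset ?_
    rintro g ⟨-, i, hi⟩
    exact mem_iUnion.2 ⟨i, hi⟩
  have hex : ∀ g ∈ G, ∃ c0, ∀ i c, (d i l).f g = some c → dv S.D g c0 c = ⊤ := by
    rintro g ⟨-, i0, hi0⟩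
    obtain ⟨c1, hc1⟩ := PF.mem_dom.1 hi0
    obtain ⟨θ, hθ, hX, hE⟩ := hfol i0 l g c1 hc1
    have hθ1 := ha1' i0 g θ hθ
    have hall : ∀ i c, (d i l).f g = some c → ((S.kd g).isX → S.Eqv g c (rd θ l)) ∧
        ((S.kd g).isE → S.st g c = rt θ) := by
      intro i c hc
      obtain ⟨θ', hθ', hX', hE'⟩ := hfol i l g c hc
      have h10 := ha1' i g θ' hθ'
      rw [hθ1] at h10
      obtain rfl := Option.some.inj h10
      exact ⟨hX', hE'⟩
    by_cases hx : (S.kd g).isX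
    · exact ⟨rd θ l, fun i c hc => ((hall i c hc).1 hx).2⟩
    by_cases he : (S.kd g).isE
    · obtain ⟨c0, -, hc0, hC⟩ := lh_low S h9 g he (rt θ) c1 (hE he)
        (Finset.univ.biUnion fun i : Fin m => ((d i l).f g).toFinset) (by
          intro c hc
          obtain ⟨i, -, hi⟩ := Finset.mem_biUnion.1 hc
          exact (hall i c (Option.mem_toFinset.1 hi)).2 he)
      refine ⟨c0, fun i c hc => hC c (Finset.mem_biUnion.2 ⟨i, Finset.mem_univ _, ?_⟩)⟩
      exact Option.mem_toFinset.2 hc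
    · have ht : S.kd g = .tr := by
        rcases h : S.kd g with _ | _ | _ | _ | _ | _ | _
        · rfl
        · exact absurd (Or.inl h) hx
        · exact absurd (Or.inr (Or.inl h)) hx
        · exact absurd (Or.inr (Or.inr (Or.inl h))) hx
        · exact absurd (Or.inr (Or.inr (Or.inr h))) hx
        · exact absurd (Or.inl h) he
        · exact absurd (Or.inr h) he
      exact ⟨c1, fun i c _ => S.vT g ht c1 c⟩
  choose cc hcc using hex
  set p' : PF K Λ := ⟨fun g => if h : g ∈ G then some (cc g h) else none,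
    hGfin.subset fun g hg => by
      by_contra h
      simp only [mem_ofPred_eq] at hg
      exact hg (dif_neg h)⟩ with hp'
  have hp'G : ∀ g (h : g ∈ G), p'.f g = some (cc g h) := fun g h => dif_pos h
  have hp'n : ∀ g, g ∉ G → p'.f g = none := fun g h => dif_neg h
  have hov : ee S.D (q.ov p') = ee S.D q ⊓ ee S.D p' := by
    refine ee6 q p' fun g hg hgq => ?_
    have hgG : g ∈ G := by
      by_contra h
      exact (PF.notMem_dom.2 (hp'n g h)) hg
    exact hgG.1 (hq hgq)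
  have hfin : ee S.D (q.ov p') ≤ z l ⊓ u l ⊓ U ⊓ (⨅ i, ee S.D (d i l)) := by
    have hv1 : ee S.D (q.ov p') ≤ z' l := by
      rw [hov]
      exact inf_le_left.trans (hqv.trans inf_le_left)
    have hv2 : ee S.D (q.ov p') ≤ u' l := by
      rw [hov]
      exact inf_le_left.trans (hqv.trans inf_le_right)
    rw [e1] at hv1
    rw [e2] at hv2
    refine le_inf (le_inf (le_inf (hv1.trans (inf_le_left.trans inf_le_left))
      (hv2.trans inf_le_left)) ((hv1.trans (inf_le_left.trans inf_le_right)).trans hpU)) ?_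
    refine le_iInf fun i => ?_
    rw [ee1 (d i l)]
    refine le_iInf fun g => le_iInf fun c => le_iInf fun hc => ?_
    by_cases hgG : g ∈ G
    · have h10 : ee S.D (q.ov p') ≤ eb S.D g (cc g hgG) := by
        rw [hov]
        exact inf_le_right.trans (ee4 p' g _ (hp'G g hgG))
      have h11 := ee2 g (cc g hgG) c
      rw [hcc g hgG i c hc, top_inf_eq] at h11
      exact h10.trans h11
    · have h12 : g ∈ (Iio b' ∩ S.Zl x) ∪ Z₂ := by
        by_contra h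
        exact hgG ⟨h, i, PF.mem_dom.2 ⟨c, hc⟩⟩
      rcases h12 with h12 | h12
      · exact (hv1.trans (inf_le_right.trans (iInf_le _ i))).trans
          (ee4 _ g c (PF.res_f_eq_some.2 ⟨h12.1, hc⟩))
      · exact (hv2.trans (inf_le_right.trans (iInf_le _ i))).trans
          (ee4 _ g c (PF.res_f_eq_some.2 ⟨h12, hc⟩))
  rw [hbot l] at hfin
  exact ee_ne_bot (D := S.D) (q.ov p') (le_bot_iff.1 hfin)

end CI
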