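import Pool.Agent.CI.C.RndStm

/-!
# Project CI: closed sets avoiding countably many closed sets, the two-valued part
-/

set_option autoImplicit false

open Set

namespace CI

/-- the lift of a level to a higher level -/
def ravLift (S : Finset (Finset ℕ)) (l n : ℕ) : Finset (Finset ℕ) :=
  (Finset.range n).powerset.filter fun a => a ∩ Finset.range l ∈ S

theorem mem_ravLift {S : Finset (Finset ℕ)} {l n : ℕ} {a : Finset ℕ} :
    a ∈ ravLift S l n ↔ a ⊆ Finset.range n ∧ a ∩ Finset.range l ∈ S := by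
  unfold ravLift
  rw [Finset.mem_filter, Finset.mem_powerset]

theorem ravLift_card {S : Finset (Finset ℕ)} {l : ℕ} (hS : S ⊆ (Finset.range l).powerset)
    (d : ℕ) : (ravLift S l (l + d)).card = S.card * 2 ^ d := by
  induction d with
  | zero =>
    rw [add_zero, pow_zero, mul_one]
    congr 1
    ext a
    unfold ravLift
    rw [Finset.mem_filter, Finset.mem_powerset]
    constructor
    · rintro ⟨h1, h2⟩
      rwa [Finset.inter_eq_left.2 h1] at h2
    · intro h
      have h1 := Finset.mem_powerset.1 (hS h)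
      rw [Finset.inter_eq_left.2 h1]
      exact ⟨h1, h⟩
  | succ d ih =>
    have h0 : ∀ a : Finset ℕ, insert (l + d) a ∩ Finset.range l = a ∩ Finset.range l := by
      intro a
      rw [Finset.insert_inter_of_notMem]
      rw [Finset.mem_range]
      omega
    have h1 : ravLift S l (l + (d + 1)) =
        ravLift S l (l + d) ∪ (ravLift S l (l + d)).image (insert (l + d)) := by
      unfold ravLift
      rw [← add_assoc, Finset.range_add_one, Finset.powerset_insert, Finset.filter_union,
        Finset.filter_image]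
      congr 2
      refine Finset.filter_congr fun a _ => ?_
      rw [h0]
    have h2 : Disjoint (ravLift S l (l + d)) ((ravLift S l (l + d)).image (insert (l + d))) := by
      rw [Finset.disjoint_left]
      intro a ha ha'
      obtain ⟨b, -, rfl⟩ := Finset.mem_image.1 ha'
      have h3 := Finset.mem_powerset.1 (Finset.mem_filter.1 ha).1
      have h4 := h3 (Finset.mem_insert_self (l + d) b)
      rw [Finset.mem_range] at h4
      omega
    have h3 : ((ravLift S l (l + d)).image (insert (l + d))).card =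
        (ravLift S l (l + d)).card := by
      apply Finset.card_image_of_injOn
      intro a ha b hb hab
      have hn : ∀ c ∈ ravLift S l (l + d), l + d ∉ c := by
        intro c hc hm
        have h4 := (Finset.mem_powerset.1 (Finset.mem_filter.1 hc).1) hm
        rw [Finset.mem_range] at h4
        omega
      have h5 := congrArg (fun s => Finset.erase s (l + d)) hab
      simp only [Finset.erase_insert (hn a ha), Finset.erase_insert (hn b hb)] at h5
      exact h5
    rw [h1, Finset.card_union_of_disjoint h2, h3, ih, pow_succ]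
    ring

/-- decreasing trees -/
structure RavT (R : ℕ → Finset (Finset ℕ)) : Prop where
  sub : ∀ n, R n ⊆ (Finset.range n).powerset
  dec : ∀ n, ∀ a ∈ R (n + 1), a.erase n ∈ R n

theorem RavT.down {R : ℕ → Finset (Finset ℕ)} (h : RavT R) (l d : ℕ) :
    ∀ a ∈ R (l + d), a ∩ Finset.range l ∈ R l := by
  induction d with
  | zero =>
    intro a ha
    have h1 := Finset.mem_powerset.1 (h.sub _ ha)
    rw [add_zero] at h1 ha
    rw [Finset.inter_eq_left.2 h1]
    exact ha
  | succ d ih =>
    intro a ha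
    have h1 := ih _ (h.dec (l + d) a ha)
    have h2 : a.erase (l + d) ∩ Finset.range l = a ∩ Finset.range l := by
      ext x
      simp only [Finset.mem_inter, Finset.mem_erase, Finset.mem_range]
      constructor
      · rintro ⟨⟨-, h3⟩, h4⟩
        exact ⟨h3, h4⟩
      · rintro ⟨h3, h4⟩
        exact ⟨⟨by omega, h3⟩, h4⟩
    rwa [h2] at h1

/-- the part of a level -/
noncomputable def ravD (R : ℕ → Finset (Finset ℕ)) (n : ℕ) : ℝ := (R n).card / 2 ^ n

theorem ravD_nonneg (R : ℕ → Finset (Finset ℕ)) (n : ℕ) : 0 ≤ ravD R n := by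
  unfold ravD
  positivity

theorem RavT.sub_lift {R : ℕ → Finset (Finset ℕ)} (h : RavT R) (l d : ℕ) :
    R (l + d) ⊆ ravLift (R l) l (l + d) := by
  intro a ha
  exact Finset.mem_filter.2 ⟨h.sub _ ha, h.down l d a ha⟩

theorem RavT.anti {R : ℕ → Finset (Finset ℕ)} (h : RavT R) : Antitone (ravD R) := by
  intro l n hln
  obtain ⟨d, rfl⟩ := Nat.exists_eq_add_of_le hln
  have h1 := Finset.card_le_card (h.sub_lift l d)
  rw [ravLift_card (h.sub l)] at h1
  unfold ravD
  rw [div_le_div_iff₀ (by positivity) (by positivity), pow_add]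
  have h2 : ((R (l + d)).card : ℝ) ≤ (R l).card * 2 ^ d := by exact_mod_cast h1
  have h3 : (0 : ℝ) ≤ 2 ^ l := by positivity
  calc ((R (l + d)).card : ℝ) * 2 ^ l ≤ ((R l).card * 2 ^ d) * 2 ^ l :=
        mul_le_mul_of_nonneg_right h2 h3
    _ = (R l).card * (2 ^ l * 2 ^ d) := by ring

/-- existence of good levels -/
theorem RavT.good {R : ℕ → Finset (Finset ℕ)} (h : RavT R) (m : ℕ) {ε : ℝ} (hε : 0 < ε) :
    ∃ l, m ≤ l ∧ ∀ l', l ≤ l' → ravD R l ≤ ravD R l' + ε := by
  have hb : BddBelow (Set.range (ravD R)) := ⟨0, by rintro _ ⟨n, rfl⟩; exact ravD_nonneg R n⟩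
  obtain ⟨l, hl⟩ := exists_lt_of_ciInf_lt (f := ravD R) (a := (⨅ n, ravD R n) + ε) (by linarith)
  refine ⟨max m l, le_max_left _ _, fun l' _ => ?_⟩
  have h1 : ravD R (max m l) ≤ ravD R l := h.anti (le_max_right _ _)
  have h2 : (⨅ n, ravD R n) ≤ ravD R l' := ciInf_le hb l'
  linarith

theorem rav_sum (k n : ℕ) : ∑ m ∈ Finset.range (n + 1), (1 : ℝ) / ((k + 1) * 2 ^ (m + 3)) ≤
    1 / (4 * (k + 1)) := by
  have h1 : ∀ N : ℕ, ∑ m ∈ Finset.range N, (1 : ℝ) / ((k + 1) * 2 ^ (m + 3)) =
      1 / (4 * (k + 1)) - 1 / (4 * (k + 1) * 2 ^ N) := by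
    intro N
    induction N with
    | zero => simp
    | succ N ih =>
      rw [Finset.sum_range_succ, ih]
      field_simp
      ring
  rw [h1]
  have h2 : (0 : ℝ) ≤ 1 / (4 * (k + 1) * 2 ^ (n + 1)) := by positivity
  linarith

open Classical in
/-- the avoiding set -/
noncomputable def ravK (R : ℕ → ℕ → Finset (Finset ℕ)) (g : ℕ → ℕ → Prop) (n : ℕ) :
    Finset (Finset ℕ) :=
  (Finset.range n).powerset.filter fun a => ∀ m l, m ≤ l → l ≤ n → g m l →
    a ∩ Finset.range l ∉ R m l

open Classical in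
/-- the avoiding set is large -/
theorem ravK_big (R : ℕ → ℕ → Finset (Finset ℕ)) (g : ℕ → ℕ → Prop) (k : ℕ)
    (hR : ∀ m, RavT (R m)) (hm : ∀ m n, R m n ⊆ R (m + 1) n)
    (hg : ∀ m l, g m l → ∀ l', l ≤ l' →
      ravD (R m) l ≤ ravD (R m) l' + 1 / ((k + 1) * 2 ^ (m + 3)))
    (hk : ∀ m, ∃ n, ravD (R m) n < (4 * k + 1) / (4 * (k + 1))) (n : ℕ) :
    2 ^ n ≤ (ravK R g n).card * (2 * (k + 1)) := by
  -- least good levels
  set M : Finset ℕ := (Finset.range (n + 1)).filter fun m => ∃ l, m ≤ l ∧ l ≤ n ∧ g m l with hM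
  have hex : ∀ m ∈ M, ∃ l, (m ≤ l ∧ l ≤ n ∧ g m l) ∧
      ∀ l', m ≤ l' → l' ≤ n → g m l' → l ≤ l' := by
    intro m hmM
    have h1 := (Finset.mem_filter.1 hmM).2
    exact ⟨Nat.find h1, Nat.find_spec h1, fun l' h2 h3 h4 => Nat.find_min' h1 ⟨h2, h3, h4⟩⟩
  choose! lv hlv hlv' using hex
  obtain ⟨n0, hn0⟩ := hk n
  obtain ⟨d, hd⟩ : ∃ d, n + d = max n n0 := ⟨max n n0 - n, by omega⟩
  have hthr : ravD (R n) (n + d) < (4 * k + 1) / (4 * (k + 1)) := by
    rw [hd]
    exact ((hR n).anti (le_max_right n n0)).trans_lt hn0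
  have hmono : ∀ m, m ≤ n → ∀ n', R m n' ⊆ R n n' := by
    intro m hmn n'
    have h1 : Monotone fun m => R m n' := monotone_nat_of_le_succ fun m => hm m n'
    exact h1 hmn
  -- the removed part
  set D : Finset (Finset ℕ) := M.biUnion fun m => ravLift (R m (lv m)) (lv m) n with hD
  have hDs : D ⊆ (Finset.range n).powerset := by
    intro a ha
    obtain ⟨m, -, ha'⟩ := Finset.mem_biUnion.1 ha
    exact (Finset.mem_filter.1 ha').1
  have hcov : (Finset.range n).powerset \ D ⊆ ravK R g n := by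
    intro a ha
    rw [Finset.mem_sdiff] at ha
    refine Finset.mem_filter.2 ⟨ha.1, fun m l h1 h2 h3 h4 => ha.2 ?_⟩
    have hmM : m ∈ M := Finset.mem_filter.2 ⟨Finset.mem_range.2 (by omega), l, h1, h2, h3⟩
    refine Finset.mem_biUnion.2 ⟨m, hmM, Finset.mem_filter.2 ⟨ha.1, ?_⟩⟩
    have h5 : lv m ≤ l := hlv' m hmM l h1 h2 h3
    obtain ⟨e, he⟩ := Nat.exists_eq_add_of_le h5
    have h6 := (hR m).down (lv m) e (a ∩ Finset.range l) (by rw [← he]; exact h4)
    have h7 : a ∩ Finset.range l ∩ Finset.range (lv m) = a ∩ Finset.range (lv m) := by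
      rw [Finset.inter_assoc, Finset.inter_eq_right.2 (Finset.range_mono h5)]
    rwa [h7] at h6
  -- the removed part at a high level
  have hDl : ravLift D n (n + d) =
      M.biUnion fun m => ravLift (R m (lv m)) (lv m) (n + d) := by
    ext a
    rw [mem_ravLift, hD, Finset.mem_biUnion, Finset.mem_biUnion]
    constructor
    · rintro ⟨h1, m, hmM, h2⟩
      refine ⟨m, hmM, mem_ravLift.2 ⟨h1, ?_⟩⟩
      have h3 := (mem_ravLift.1 h2).2
      have h7 : a ∩ Finset.range n ∩ Finset.range (lv m) = a ∩ Finset.range (lv m) := by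
        rw [Finset.inter_assoc, Finset.inter_eq_right.2 (Finset.range_mono (hlv m hmM).2.1)]
      rwa [h7] at h3
    · rintro ⟨m, hmM, h2⟩
      have h3 := mem_ravLift.1 h2
      refine ⟨h3.1, m, hmM, mem_ravLift.2 ⟨Finset.inter_subset_right, ?_⟩⟩
      have h7 : a ∩ Finset.range n ∩ Finset.range (lv m) = a ∩ Finset.range (lv m) := by
        rw [Finset.inter_assoc, Finset.inter_eq_right.2 (Finset.range_mono (hlv m hmM).2.1)]
      rw [h7]
      exact h3.2
  have hDc := ravLift_card hDs d
  -- the bound at the high level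
  have hb : ((ravLift D n (n + d)).card : ℝ) ≤ (R n (n + d)).card +
      ∑ m ∈ M, (2 : ℝ) ^ (n + d) * (1 / ((k + 1) * 2 ^ (m + 3))) := by
    have h1 : ravLift D n (n + d) ⊆ R n (n + d) ∪
        M.biUnion fun m => ravLift (R m (lv m)) (lv m) (n + d) \ R m (n + d) := by
      rw [hDl]
      intro a ha
      obtain ⟨m, hmM, ha'⟩ := Finset.mem_biUnion.1 ha
      by_cases h2 : a ∈ R m (n + d)
      · have h3 : m ≤ n := by
          have := Finset.mem_range.1 (Finset.mem_filter.1 hmM).1
          omega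
        exact Finset.mem_union_left _ (hmono m h3 _ h2)
      · exact Finset.mem_union_right _ (Finset.mem_biUnion.2
          ⟨m, hmM, Finset.mem_sdiff.2 ⟨ha', h2⟩⟩)
    have h2 := (Finset.card_le_card h1).trans ((Finset.card_union_le _ _).trans
      (add_le_add_right Finset.card_biUnion_le _))
    have h3 : ((ravLift D n (n + d)).card : ℝ) ≤ (R n (n + d)).card +
        ∑ m ∈ M, ((ravLift (R m (lv m)) (lv m) (n + d) \ R m (n + d)).card : ℝ) := by
      exact_mod_cast h2
    refine h3.trans (add_le_add_right (Finset.sum_le_sum fun m hmM => ?_) _)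
    have h4 := (hlv m hmM)
    obtain ⟨e, he⟩ := Nat.exists_eq_add_of_le (h4.2.1.trans (Nat.le_add_right n d))
    have h5 : R m (n + d) ⊆ ravLift (R m (lv m)) (lv m) (n + d) := by
      rw [he]
      exact (hR m).sub_lift (lv m) e
    have h6 := hg m (lv m) h4.2.2 (n + d) (h4.2.1.trans (Nat.le_add_right n d))
    have h7 : ((ravLift (R m (lv m)) (lv m) (n + d)).card : ℝ) =
        ravD (R m) (lv m) * 2 ^ (n + d) := by
      rw [he, ravLift_card ((hR m).sub (lv m))]
      unfold ravD
      push_cast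
      rw [pow_add]
      field_simp
    have h8 : ((R m (n + d)).card : ℝ) = ravD (R m) (n + d) * 2 ^ (n + d) := by
      unfold ravD
      field_simp
    rw [Finset.card_sdiff_of_subset h5, Nat.cast_sub (Finset.card_le_card h5), h7, h8]
    have h9 : (0 : ℝ) ≤ 2 ^ (n + d) := by positivity
    nlinarith [mul_le_mul_of_nonneg_right h6 h9]
  have hs : ∑ m ∈ M, (2 : ℝ) ^ (n + d) * (1 / ((k + 1) * 2 ^ (m + 3))) ≤
      2 ^ (n + d) * (1 / (4 * (k + 1))) := by
    rw [← Finset.mul_sum]
    refine mul_le_mul_of_nonneg_left ?_ (by positivity)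
    refine (Finset.sum_le_sum_of_subset_of_nonneg (Finset.filter_subset _ _) fun i _ _ => ?_).trans
      (rav_sum k n)
    positivity
  have ht : ((R n (n + d)).card : ℝ) ≤ (4 * k + 1) / (4 * (k + 1)) * 2 ^ (n + d) := by
    have h8 : ((R n (n + d)).card : ℝ) = ravD (R n) (n + d) * 2 ^ (n + d) := by
      unfold ravD
      field_simp
    rw [h8]
    exact mul_le_mul_of_nonneg_right hthr.le (by positivity)
  have hDb : (D.card : ℝ) * (2 * (k + 1)) ≤ (2 * k + 1) * 2 ^ n := by
    have h1 : (D.card : ℝ) * 2 ^ d ≤ (4 * k + 1) / (4 * (k + 1)) * 2 ^ (n + d) +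
        2 ^ (n + d) * (1 / (4 * (k + 1))) := by
      have h2 : ((ravLift D n (n + d)).card : ℝ) = D.card * 2 ^ d := by exact_mod_cast hDc
      rw [← h2]
      linarith
    have h3 : (4 * (k : ℝ) + 1) / (4 * (k + 1)) * 2 ^ (n + d) +
        2 ^ (n + d) * (1 / (4 * (k + 1))) = (2 * k + 1) / (2 * (k + 1)) * 2 ^ n * 2 ^ d := by
      rw [pow_add]
      field_simp
      ring
    rw [h3] at h1
    have h4 := le_of_mul_le_mul_right h1 (by positivity)
    rw [div_mul_eq_mul_div, le_div_iff₀ (by positivity)] at h4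
    exact h4
  have hK : (2 : ℝ) ^ n - D.card ≤ (ravK R g n).card := by
    have h1 := Finset.card_le_card hcov
    rw [Finset.card_sdiff_of_subset hDs, Finset.card_powerset, Finset.card_range] at h1
    have h2 : D.card ≤ 2 ^ n := by
      have := Finset.card_le_card hDs
      rwa [Finset.card_powerset, Finset.card_range] at this
    have h3 : ((2 ^ n - D.card : ℕ) : ℝ) ≤ (ravK R g n).card := by exact_mod_cast h1
    rw [Nat.cast_sub h2] at h3
    push_cast at h3
    exact h3
  have hfin : (2 : ℝ) ^ n ≤ (ravK R g n).card * (2 * (k + 1)) := by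
    have h1 : (0 : ℝ) < 2 * ((k : ℝ) + 1) := by positivity
    nlinarith [mul_le_mul_of_nonneg_right hK h1.le]
  exact_mod_cast hfin

end CI
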