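import Pool.Agent.CI.C.LowStm
import Pool.Agent.CI.C.RAvoidA

/-!
# Project CI: the null set of a slalom, the generic slalom, lower bound for the additivity
-/

set_option autoImplicit false

open Set Cardinal Pool.Agent.CL

namespace CI

universe u

section

variable {B : Type u} [CompleteBooleanAlgebra B]

/-- choosing members of finitely many suprema -/
theorem lob_choice {α ι : Type} [Nonempty ι] (A : Finset α) (F : α → ι → B)
    (P : α → ι → Prop) (b : B) (hb : b ≠ ⊥) (h : ∀ a ∈ A, b ≤ ⨆ i, ⨆ _ : P a i, F a i) :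
    ∃ (c : α → ι) (b' : B), b' ≠ ⊥ ∧ b' ≤ b ∧ ∀ a ∈ A, P a (c a) ∧ b' ≤ F a (c a) := by
  classical
  induction A using Finset.induction_on with
  | empty => exact ⟨fun _ => Classical.arbitrary ι, b, hb, le_rfl, by simp⟩
  | insert a s has ih =>
    obtain ⟨c, b', h1, h2, h3⟩ := ih fun x hx => h x (Finset.mem_insert_of_mem hx)
    have h4 : b' ⊓ ⨆ i, ⨆ _ : P a i, F a i ≠ ⊥ := by
      rw [inf_eq_left.2 (h2.trans (h a (Finset.mem_insert_self a s)))]
      exact h1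
    have h5 : ∃ i, P a i ∧ b' ⊓ F a i ≠ ⊥ := by
      by_contra hc
      push Not at hc
      apply h4
      rw [inf_iSup_eq]
      refine iSup_eq_bot.2 fun i => ?_
      rw [inf_iSup_eq]
      exact iSup_eq_bot.2 fun hi => hc i hi
    obtain ⟨i, h6, h7⟩ := h5
    refine ⟨Function.update c a i, b' ⊓ F a i, h7, inf_le_left.trans h2, fun x hx => ?_⟩
    rcases Finset.mem_insert.1 hx with rfl | hx
    · rw [Function.update_self]
      exact ⟨h6, inf_le_right⟩
    · have hne : x ≠ a := fun h0 => has (h0 ▸ hx)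
      rw [Function.update_of_ne hne]
      exact ⟨(h3 x hx).1, inf_le_left.trans (h3 x hx).2⟩

/-- the places, slaloms and codes which are used for the cylinder `(m, a)` -/
def LobOK (k m : ℕ) (a : Finset ℕ) (i : ℕ × ℕ × ℕ) : Prop :=
  k + 6 ≤ i.1 ∧ (fs i.2.1).card ≤ i.1 ∧ i.2.2 ∈ fs i.2.1 ∧ ccOK i.1 i.2.2 ∧
    (cc i.2.2).1 ≤ m ∧ a ∩ Finset.range (cc i.2.2).1 ∈ (cc i.2.2).2

theorem lob_sum (k : ℕ) (N : Finset ℕ) (hN : ∀ n ∈ N, k + 1 ≤ n) :
    ∑ n ∈ N, (1 : ℝ) / 2 ^ n ≤ 1 / 2 ^ k := by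
  have h1 : ∀ M : ℕ, ∑ i ∈ Finset.range M, (1 : ℝ) / 2 ^ (k + 1 + i) =
      1 / 2 ^ k - 1 / 2 ^ (k + M) := by
    intro M
    induction M with
    | zero => simp
    | succ M ih =>
      rw [Finset.sum_range_succ, ih]
      have h2 : (2 : ℝ) ^ (k + 1 + M) = 2 * 2 ^ (k + M) := by ring
      have h3 : (2 : ℝ) ^ (k + (M + 1)) = 2 * 2 ^ (k + M) := by ring
      rw [h2, h3]
      field_simp
      ring
  obtain ⟨M, hM⟩ : ∃ M, ∀ n ∈ N, n < M :=
    ⟨N.sup id + 1, fun n hn => Nat.lt_succ_of_le (Finset.le_sup (f := id) hn)⟩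
  have h2 : N ⊆ Finset.Ico (k + 1) M := fun n hn => Finset.mem_Ico.2 ⟨hN n hn, hM n hn⟩
  refine (Finset.sum_le_sum_of_subset_of_nonneg h2 fun i _ _ => by positivity).trans ?_
  rw [Finset.sum_Ico_eq_sum_range, h1]
  have h3 : (0 : ℝ) ≤ 1 / 2 ^ (k + (M - (k + 1))) := by positivity
  linarith

theorem lob_pow (n : ℕ) (hn : 6 ≤ n) : n * (n + 2) ≤ 2 ^ n := by
  induction n, hn using Nat.le_induction with
  | base => norm_num
  | succ n hn ih =>
    rw [pow_succ]
    nlinarith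

/-- the open sets of the slalom -/
noncomputable def lobU (g : Fu B) (k : ℕ) : OpnC B where
  O m a := ⨆ i : ℕ × ℕ × ℕ, ⨆ _ : LobOK k m a i, g.f i.1 i.2.1
  mono m a ha := by
    refine le_inf ?_ ?_
    · refine iSup_mono fun i => iSup_mono' fun hi => ⟨?_, le_rfl⟩
      exact ⟨hi.1, hi.2.1, hi.2.2.1, hi.2.2.2.1, hi.2.2.2.2.1.trans (Nat.le_succ m),
        hi.2.2.2.2.2⟩
    · refine iSup_mono fun i => iSup_mono' fun hi => ⟨?_, le_rfl⟩
      refine ⟨hi.1, hi.2.1, hi.2.2.1, hi.2.2.2.1, hi.2.2.2.2.1.trans (Nat.le_succ m), ?_⟩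
      rw [Finset.insert_inter_of_notMem]
      · exact hi.2.2.2.2.2
      · rw [Finset.mem_range]
        have := hi.2.2.2.2.1
        omega

theorem lobU_le (g : Fu B) (k : ℕ) : (lobU g k).Le k := by
  classical
  intro m A hA hlt
  by_contra hne
  obtain ⟨c, b', h1, -, h3⟩ := lob_choice A (fun _ (i : ℕ × ℕ × ℕ) => g.f i.1 i.2.1)
    (fun a i => LobOK k m a i) _ hne fun a ha => iInf₂_le a ha
  have hcons : ∀ a ∈ A, ∀ a' ∈ A, (c a).1 = (c a').1 → (c a).2.1 = (c a').2.1 := by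
    intro a ha a' ha' he
    by_contra hv
    apply h1
    have h4 := le_inf (h3 a ha).2 (h3 a' ha').2
    rw [he, g.disj _ _ _ hv] at h4
    exact le_bot_iff.1 h4
  set N : Finset ℕ := A.image fun a => (c a).1 with hN
  have hex : ∀ n ∈ N, ∃ a, a ∈ A ∧ (c a).1 = n := by
    intro n hn
    obtain ⟨a, ha, hn'⟩ := Finset.mem_image.1 hn
    exact ⟨a, ha, hn'⟩
  choose! rep hrep hrep' using hex
  let piece : ℕ → Finset (Finset ℕ) := fun n =>
    ((fs (c (rep n)).2.1).filter fun j => ccOK n j ∧ (cc j).1 ≤ m).biUnion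
      fun j => ravLift (cc j).2 (cc j).1 m
  have hcov : A ⊆ N.biUnion piece := by
    intro a ha
    have hn : (c a).1 ∈ N := Finset.mem_image.2 ⟨a, ha, rfl⟩
    have hv := hcons _ (hrep _ hn) a ha (hrep' _ hn)
    have hok := (h3 a ha).1
    refine Finset.mem_biUnion.2 ⟨(c a).1, hn, Finset.mem_biUnion.2 ⟨(c a).2.2, ?_, ?_⟩⟩
    · rw [Finset.mem_filter, hv]
      exact ⟨hok.2.2.1, hok.2.2.2.1, hok.2.2.2.2.1⟩
    · exact mem_ravLift.2 ⟨hA a ha, hok.2.2.2.2.2⟩
  have hpc : ∀ n ∈ N, ((piece n).card : ℝ) ≤ 2 ^ m * (1 / 2 ^ n) := by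
    intro n hn
    have hok := (h3 _ (hrep n hn)).1
    have hn6 : k + 6 ≤ n := by
      have := hok.1
      rwa [hrep' n hn] at this
    have hcd : (fs (c (rep n)).2.1).card ≤ n := by
      have := hok.2.1
      rwa [hrep' n hn] at this
    have h5 : 4 ^ n * (piece n).card ≤ 2 ^ n * 2 ^ m := by
      calc 4 ^ n * (piece n).card
          ≤ 4 ^ n * ∑ j ∈ (fs (c (rep n)).2.1).filter (fun j => ccOK n j ∧ (cc j).1 ≤ m),
              (ravLift (cc j).2 (cc j).1 m).card :=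
            Nat.mul_le_mul_left _ Finset.card_biUnion_le
        _ = ∑ j ∈ (fs (c (rep n)).2.1).filter (fun j => ccOK n j ∧ (cc j).1 ≤ m),
              4 ^ n * (ravLift (cc j).2 (cc j).1 m).card := Finset.mul_sum _ _ _
        _ ≤ ∑ j ∈ (fs (c (rep n)).2.1).filter (fun j => ccOK n j ∧ (cc j).1 ≤ m),
              (n + 2) * 2 ^ m := by
            refine Finset.sum_le_sum fun j hj => ?_
            obtain ⟨-, hj1, hj2⟩ := Finset.mem_filter.1 hj
            obtain ⟨d, hd⟩ := Nat.exists_eq_add_of_le hj2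
            have h6 : (ravLift (cc j).2 (cc j).1 m).card = (cc j).2.card * 2 ^ d := by
              rw [hd]
              exact ravLift_card (fun a ha => Finset.mem_powerset.2 (hj1.1 a ha)) d
            rw [h6]
            calc 4 ^ n * ((cc j).2.card * 2 ^ d) = (4 ^ n * (cc j).2.card) * 2 ^ d := by ring
              _ ≤ ((n + 2) * 2 ^ (cc j).1) * 2 ^ d := Nat.mul_le_mul_right _ hj1.2
              _ = (n + 2) * 2 ^ m := by
                rw [mul_assoc, ← pow_add, ← hd]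
        _ ≤ n * ((n + 2) * 2 ^ m) := by
            rw [Finset.sum_const, smul_eq_mul]
            exact Nat.mul_le_mul_right _ ((Finset.card_filter_le _ _).trans hcd)
        _ = (n * (n + 2)) * 2 ^ m := by ring
        _ ≤ 2 ^ n * 2 ^ m := Nat.mul_le_mul_right _ (lob_pow n (by omega))
    have h6 : (4 : ℝ) ^ n * (piece n).card ≤ 2 ^ n * 2 ^ m := by exact_mod_cast h5
    have h7 : (4 : ℝ) ^ n = 2 ^ n * 2 ^ n := by
      rw [← mul_pow]
      norm_num
    rw [h7, mul_assoc] at h6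
    have h8 := le_of_mul_le_mul_left h6 (by positivity)
    rw [mul_one_div, le_div_iff₀ (by positivity)]
    linarith
  have h9 : (A.card : ℝ) ≤ 2 ^ m * (1 / 2 ^ k) := by
    calc (A.card : ℝ) ≤ ∑ n ∈ N, ((piece n).card : ℝ) := by
          exact_mod_cast (Finset.card_le_card hcov).trans Finset.card_biUnion_le
      _ ≤ ∑ n ∈ N, 2 ^ m * ((1 : ℝ) / 2 ^ n) := Finset.sum_le_sum hpc
      _ = 2 ^ m * ∑ n ∈ N, (1 : ℝ) / 2 ^ n := (Finset.mul_sum _ _ _).symm
      _ ≤ 2 ^ m * (1 / 2 ^ k) := by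
          refine mul_le_mul_of_nonneg_left (lob_sum k N fun n hn => ?_) (by positivity)
          obtain ⟨a, ha, rfl⟩ := Finset.mem_image.1 hn
          have := (h3 a ha).1.1
          omega
  have h10 : (2 : ℝ) ^ m < 2 ^ k * A.card := by exact_mod_cast hlt
  rw [mul_one_div, le_div_iff₀ (by positivity)] at h9
  linarith

end

theorem locNulStm : LocNulStm.{u} := by
  intro B _ g
  refine ⟨⟨lobU g, lobU_le g⟩, fun x => ?_⟩
  refine le_iInf fun k => (iInf_le _ (k + 6)).trans ?_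
  refine iSup_le fun n => iSup_le fun hn => iSup_le fun v => iSup_le fun hv =>
    iSup_le fun j => iSup_le fun hj => ?_
  unfold ccV
  rw [inf_iSup_eq]
  refine iSup_le fun a => ?_
  rw [inf_iSup_eq]
  refine iSup_le fun ha => ?_
  have ha' : a ⊆ Finset.range (cc j).1 := hj.2.1 a ha
  show g.f n v ⊓ cutV x (cc j).1 a ≤ ⨆ n : ℕ, ⨆ a : Finset ℕ, ⨆ _ : a ⊆ Finset.range n,
    (lobU g k).O n a ⊓ cutV x n a
  refine le_trans ?_ (le_iSup_of_le (cc j).1 (le_iSup_of_le a (le_iSup_of_le ha' le_rfl)))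
  refine inf_le_inf_right _ ?_
  refine le_trans ?_ (le_iSup_of_le (n, v, j) (le_iSup_of_le ?_ le_rfl))
  · exact le_rfl
  · refine ⟨hn, hv, hj.1, hj.2, le_rfl, ?_⟩
    rw [Finset.inter_eq_left.2 ha']
    exact ha

theorem locGenStm (h1 : SCmpStm.{u}) (h2 : SMrgStm.{u}) (h3 : GenStm.{u}) (h4 : LongStm.{u})
    (h5 : EeStm.{u}) (h6 : SZStm.{u}) (h7 : TrStm.{u}) : LocGenStm.{u} := by
  intro K Λ L _ _ S b hb f hf
  have hS : (S.kd b).isS := by rw [hb]; simp [Kd.isS]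
  obtain ⟨e1, e2, e3, e4, -, -⟩ := h5 K Λ S.D
  obtain ⟨g1, g2, g3, g4, g5, -, -⟩ := h3 K Λ L S b hS
  have hl : ∀ n, (S.kd b).len n = 2 * n := fun n => by rw [hb]; rfl
  have hsurj := (S.vS b hS).2
  have hcmp := (S.vS b hS).1
  -- there are labels
  obtain ⟨c₀, -⟩ := hsurj
    { t := [], N := 0, f := fun _ _ => ⊥, mem := fun _ _ => (S.ss b).bot,
      wd := fun k s hs => by
        have hne : s.Nonempty := by
          rw [← Finset.card_pos]
          omega
        exact le_bot_iff.1 (Finset.inf_le hne.choose_spec)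
      ln := by rw [hl]; simp }
  by_contra hX
  set X : BB S.D := ⨆ m : ℕ, ⨅ n : ℕ, ⨅ _ : m ≤ n, ⨆ v : ℕ, ⨆ _ : (fs v).card ≤ n, ⨆ j : ℕ,
    ⨆ _ : j ∈ fs v, f.f n j ⊓ S.gen b n v with hXd
  have hXc : Xᶜ ≠ ⊥ := fun h0 => hX (compl_eq_bot.1 h0)
  obtain ⟨p0, hp0⟩ := exists_ee_le (D := S.D) hXc
  -- a condition with a label at `b`
  obtain ⟨p, c, hp, hpX⟩ : ∃ (p : PF K Λ) (c : Λ), p.f b = some c ∧ ee S.D p ≤ Xᶜ := by
    by_cases hd : b ∈ p0.dom
    · obtain ⟨c, hc⟩ := PF.mem_dom.1 hd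
      exact ⟨p0, c, hc, hp0⟩
    · have hn := PF.notMem_dom.1 hd
      refine ⟨p0.upd b c₀, c₀, PF.upd_f_same _ _ _, ?_⟩
      rw [e3 p0 b c₀ hn]
      exact inf_le_left.trans hp0
  -- a long stem
  obtain ⟨z1, z2, -, -, z5, -⟩ := h6 K Λ S.D (Iio b) (Tr_of_lower (isLowerSet_Iio b))
  obtain ⟨V, hV, hV0, hVU, c', hc1, hc2, hc3, hc4, hc5⟩ := h4 K Λ L S b hS
    (ee S.D (p.res (Iio b))) c (2 * ((S.cS b c).N + 1)) (z2 _ (PF.dom_res_subset _ _))
    (ee_ne_bot _)
  have hlen : 2 * ((S.cS b c').N + 1) ≤ (S.cS b c').t.length := by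
    have h8 : (S.cS b c').t.length = max (2 * ((S.cS b c).N + 1)) (S.st b c).length := hc2
    rw [h8, hc4]
    exact le_max_left _ _
  -- the condition which captures `f`
  obtain ⟨e, he1, -, he3, he4, -⟩ := h2 (BB S.D) (S.W b) (S.kd b) (S.ss b) (S.cS b c')
    { t := (S.cS b c').t, N := 1, f := f.f, mem := hf,
      wd := fun k s hs => by
        rw [hb] at hs
        have hs2 : s.card = 2 := hs
        obtain ⟨x, y, hxy, rfl⟩ := Finset.card_eq_two.1 hs2
        rw [Finset.inf_insert, Finset.inf_singleton]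
        exact f.disj k x y hxy
      ln := by
        rw [hl]
        omega } rfl (by
      rw [hl]
      exact hlen)
  obtain ⟨c'', hc''⟩ := hsurj e
  have hdv : dv S.D b c'' c' = ⊤ := by
    rw [hcmp, hc'']
    exact he4
  -- the element
  have hnone : (p.res (Ioi b)).f b = none := PF.res_f_of_notMem (lt_irrefl b)
  have hY : V ⊓ ee S.D ((p.res (Ioi b)).upd b c'') ≠ ⊥ := by
    refine z5 V hV hV0 _ ?_
    rw [PF.dom_upd, Set.disjoint_left]
    rintro x (rfl | hx) hx'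
    · exact lt_irrefl _ hx'
    · exact lt_asymm hx' (PF.dom_res_subset _ _ hx)
  rw [e3 _ b c'' hnone] at hY
  apply hY
  set Y := V ⊓ (ee S.D (p.res (Ioi b)) ⊓ eb S.D b c'') with hYd
  have hY1 : Y ≤ V := inf_le_left
  have hY2 : Y ≤ ee S.D (p.res (Ioi b)) := inf_le_right.trans inf_le_left
  have hY3 : Y ≤ eb S.D b c'' := inf_le_right.trans inf_le_right
  have hYp : Y ≤ ee S.D p := by
    rw [e1 p]
    refine le_iInf fun x => le_iInf fun d => le_iInf fun hd => ?_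
    rcases lt_trichotomy x b with hx | hx | hx
    · exact hY1.trans (hVU.trans (e4 _ x d (PF.res_f_eq_some.2 ⟨hx, hd⟩)))
    · subst hx
      have hdc : c = d := Option.some.inj (hp.symm.trans hd)
      subst hdc
      have h9 : Y ≤ eb S.D x c' := by
        refine le_trans ?_ (e2 x c'' c')
        rw [hdv]
        exact le_inf le_top hY3
      exact (le_inf (hY1.trans hc3) h9).trans (e2 x c' c)
    · exact hY2.trans (e4 _ x d (PF.res_f_eq_some.2 ⟨hx, hd⟩))
  have hYX : Y ≤ X := by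
    refine le_trans ?_ (le_iSup _ (S.st b c'').length)
    refine le_iInf fun n => le_iInf fun hn => ?_
    have h10 : Y = ⨆ v, ⨆ j, Y ⊓ S.gen b n v ⊓ f.f n j := by
      calc Y = Y ⊓ (⨆ v, S.gen b n v) ⊓ (⨆ j, f.f n j) := by
            rw [g2, f.top, inf_top_eq, inf_top_eq]
        _ = (⨆ v, Y ⊓ S.gen b n v) ⊓ (⨆ j, f.f n j) := by
            rw [inf_iSup_eq Y (fun v => S.gen b n v)]
        _ = ⨆ v, (Y ⊓ S.gen b n v ⊓ ⨆ j, f.f n j) := iSup_inf_eq _ _
        _ = ⨆ v, ⨆ j, Y ⊓ S.gen b n v ⊓ f.f n j :=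
            iSup_congr fun v => inf_iSup_eq _ _
    rw [h10]
    refine iSup_le fun v => iSup_le fun j => ?_
    by_cases hgood : (fs v).card ≤ n ∧ j ∈ fs v
    · refine le_trans ?_ (le_iSup_of_le v (le_iSup_of_le hgood.1 (le_iSup_of_le j
        (le_iSup_of_le hgood.2 le_rfl))))
      exact le_inf inf_le_right (inf_le_left.trans inf_le_right)
    · have hbad : j ∈ (S.kd b).Bad n v := by
        rw [hb]
        show j ∈ (if (fs v).card ≤ n then {j | j ∉ fs v} else univ : Set ℕ)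
        split_ifs with hcd
        · exact fun hj => hgood ⟨hcd, hj⟩
        · exact mem_univ j
      have h12 := g4 c'' n v j hn hbad
      have h13 : f.f n j ≤ (S.cS b c'').f n j := by
        rw [hc'', he3]
        exact le_sup_right
      have h14 : Y ⊓ S.gen b n v ⊓ f.f n j ≤ ⊥ := by
        rw [← h12]
        exact inf_le_inf (inf_le_inf_right _ hY3) h13
      exact h14.trans bot_le
  have hfin := le_inf hYX (hYp.trans hpX)
  rw [inf_compl_self] at hfin
  exact le_bot_iff.1 hfin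

theorem locStm (h1 : LocCodeStm.{u}) (h2 : LocNulStm.{u}) (h3 : LocGenStm.{u})
    (h4 : GenStm.{u}) : LocStm.{u} := by
  intro K Λ L _ _ S b hb
  have hS : (S.kd b).isS := by rw [hb]; simp [Kd.isS]
  obtain ⟨g1, g2, -⟩ := h4 K Λ L S b hS
  obtain ⟨d, hd⟩ := h2 (BB S.D) ⟨S.gen b, g1, g2⟩
  refine ⟨d, fun c hc x => le_trans ?_ (hd x)⟩
  obtain ⟨f, hf1, hf2, hf3⟩ := h1 (BB S.D) (S.W b) (S.ss b) c hc
  have htop := h3 K Λ L S b hb f hf1
  refine le_iInf fun k => ?_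
  have h5 : c.mem x = c.mem x ⊓ ⨆ m : ℕ, ⨅ n : ℕ, ⨅ _ : m ≤ n, ⨆ v : ℕ, ⨆ _ : (fs v).card ≤ n,
      ⨆ j : ℕ, ⨆ _ : j ∈ fs v, f.f n j ⊓ S.gen b n v := by
    rw [htop, inf_top_eq]
  rw [h5, inf_iSup_eq]
  refine iSup_le fun m => ?_
  refine (inf_le_inf_right _ (hf3 x (max k m))).trans ?_
  rw [iSup_inf_eq]
  refine iSup_le fun n => ?_
  rw [iSup_inf_eq]
  refine iSup_le fun hn => ?_
  have hkn : k ≤ n := (le_max_left k m).trans hn
  have hmn : m ≤ n := (le_max_right k m).trans hn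
  refine le_trans ?_ (le_iSup_of_le n (le_iSup_of_le hkn le_rfl))
  refine (inf_le_inf_left _ ((iInf_le _ n).trans (iInf_le _ hmn))).trans ?_
  rw [inf_iSup_eq]
  refine iSup_le fun v => ?_
  rw [inf_iSup_eq]
  refine iSup_le fun hv => ?_
  rw [inf_iSup_eq]
  refine iSup_le fun j => ?_
  rw [inf_iSup_eq]
  refine iSup_le fun hj => ?_
  rw [iSup_inf_eq]
  refine iSup_le fun j' => ?_
  by_cases hjj : j' = j
  · subst hjj
    by_cases h0 : f.f n j' = ⊥
    · rw [h0, bot_inf_eq, bot_inf_eq]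
      exact bot_le
    · refine le_trans ?_ (le_iSup_of_le v (le_iSup_of_le hv (le_iSup_of_le j'
        (le_iSup_of_le ⟨hj, hf2 n j' h0⟩ le_rfl))))
      exact le_inf (inf_le_right.trans inf_le_right) (inf_le_left.trans inf_le_right)
  · have h6 : f.f n j' ⊓ ccV x j' ⊓ (f.f n j ⊓ S.gen b n v) ≤ ⊥ := by
      rw [← f.disj n j' j hjj]
      exact le_inf (inf_le_left.trans inf_le_left) (inf_le_right.trans inf_le_left)
    exact h6.trans bot_le

end CI
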