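import Pool.Agent.CI.C.LowStm
import Pool.Agent.CI.C.ItrLem

/-!
# Project CI, core: all lower bounds
-/

set_option autoImplicit false

open Set Cardinal Pool.Agent.CL

namespace CI

universe u

private theorem lowF_card {I B : Type u} {C : Type} [Countable C] (f : I → C → B)
    (κ : Cardinal.{u}) (h1 : #I ≤ κ) (h2 : ℵ₀ ≤ κ) :
    #(range fun p : I × C => f p.1 p.2) ≤ κ := by
  refine mk_range_le.trans ?_
  rw [mk_prod]
  refine Cardinal.mul_le_of_le h2 ?_ ?_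
  · rwa [Cardinal.lift_id']
  · exact (Cardinal.lift_le_aleph0.2 mk_le_aleph0).trans h2

private theorem lowF_th {l th : Fin 8 → Cardinal.{u}} (hC : Crd l th) (j : Fin 8) (hj : 1 ≤ j)
    (hj' : j ≤ 6) : ℵ₀ ≤ th j := by
  have h0 : ℵ₀ ≤ th 1 := aleph0_le_continuum.trans hC.cnt
  rcases hj.eq_or_lt with h | h
  · rwa [← h]
  · have h1 : th 1 ≤ l 1 := by
      rw [hC.succ 1 le_rfl (by decide)]
      exact Order.le_succ _
    exact h0.trans (h1.trans (hC.le 1 j le_rfl h))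

private theorem lowF_le {l th : Fin 8 → Cardinal.{u}} (hC : Crd l th) (j : Fin 8) (hj : 1 ≤ j)
    (hj' : j ≤ 6) {c : Cardinal.{u}} (h : c < l j) : c ≤ th j := by
  rw [hC.succ j hj hj'] at h
  exact Order.lt_succ_iff.1 h

private theorem lowF_lt {l th : Fin 8 → Cardinal.{u}} (hC : Crd l th) (j : Fin 8) (hj : 1 ≤ j)
    (hj' : j ≤ 6) {c : Cardinal.{u}} (h : c ≤ th j) : c < l j := by
  rw [hC.succ j hj hj']
  exact Order.lt_succ_iff.2 h

private theorem lowF_posv : StrictMono posv := by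
  refine strictMono_nat_of_lt_succ fun k => ?_
  show posv k < posv k + Nat.log 2 (k + 2)
  have : 0 < Nat.log 2 (k + 2) := Nat.log_pos (by norm_num) (by omega)
  omega

private theorem lowF_post : StrictMono post := by
  refine strictMono_nat_of_lt_succ fun k => ?_
  show post k < post k + (k + 1)
  omega

/-- all lower bounds of the core -/
theorem lowStm (h1 : LocStm.{u}) (h2 : HechStm.{u}) (h3 : RndStm.{u}) (h4 : CloExStm.{u})
    (h5 : EdInStm.{u}) (h6 : EvNulStm.{u}) (h7 : EtNwdStm.{u}) (h8 : CovStm.{u})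
    (h9 : GenStm.{u}) : LowStm.{u} := by
  intro l th m hC
  letI := m.iK
  letI := m.iL
  refine ⟨?_, ?_, ?_, ?_, ?_, ?_, ?_, ?_⟩
  · intro I hI c
    obtain ⟨b, hb, hX⟩ := m.f21 (range fun p : I × (ℕ × ℕ × Finset ℕ) =>
      ((c p.1).U p.2.1).O p.2.2.1 p.2.2.2)
      (lowF_card (fun i (q : ℕ × ℕ × Finset ℕ) => ((c i).U q.1).O q.2.1 q.2.2) _
        (lowF_le hC 1 le_rfl (by decide) hI) (lowF_th hC 1 le_rfl (by decide)))
    obtain ⟨d, hd⟩ := h1 m.K m.Λ m.L m.S b hb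
    exact ⟨d, fun i x => hd (c i) (fun k n a => hX ⟨(i, k, n, a), rfl⟩) x⟩
  · intro I hI f
    obtain ⟨b, hb, hX⟩ := m.f22 (range fun p : I × (ℕ × ℕ) => (f p.1).f p.2.1 p.2.2)
      (lowF_card (fun i (q : ℕ × ℕ) => (f i).f q.1 q.2) _
        (lowF_le hC 2 (by decide) (by decide) hI) (lowF_th hC 2 (by decide) (by decide)))
    obtain ⟨g, hg⟩ := h2 m.K m.Λ m.L m.S b hb
    exact ⟨g, fun i => hg (f i) fun n k => hX ⟨(i, n, k), rfl⟩⟩
  · intro I hI c
    obtain ⟨b, hb, hX⟩ := m.f23 (range fun p : I × (ℕ × ℕ × Finset ℕ) =>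
      ((c p.1).U p.2.1).O p.2.2.1 p.2.2.2)
      (lowF_card (fun i (q : ℕ × ℕ × Finset ℕ) => ((c i).U q.1).O q.2.1 q.2.2) _
        (lowF_le hC 3 (by decide) (by decide) hI) (lowF_th hC 3 (by decide) (by decide)))
    obtain ⟨x, hx⟩ := h3 m.K m.Λ m.L m.S b hb
    exact ⟨x, fun i => hx (c i) fun k n a => hX ⟨(i, k, n, a), rfl⟩⟩
  · intro I hI x
    obtain ⟨b, hb, hX⟩ := m.f24 (range fun p : I × ℕ => x p.1 p.2)
      (lowF_card (fun i (q : ℕ) => x i q) _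
        (lowF_le hC 4 (by decide) (by decide) hI) (lowF_th hC 4 (by decide) (by decide)))
    have hE : (m.S.kd b).isE := Or.inl hb
    have hS : (m.S.kd b).isS := Or.inr (Or.inr (Or.inr (Or.inl hb)))
    choose F hF using h4 (BB m.S.D) posv (m.S.gen b) lowF_posv (h9 m.K m.Λ m.L m.S b hS).1
    exact ⟨F, fun n => h6 m.K m.Λ m.L m.S b hb n (F n) (hF n), fun i =>
      h5 m.K m.Λ m.L m.S b hE posv lowF_posv F hF (x i) fun n => hX ⟨(i, n), rfl⟩⟩
  · intro I hI x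
    obtain ⟨b, hb, hX⟩ := m.f3 (range fun p : I × ℕ => x p.1 p.2)
      (lowF_lt hC 5 (by decide) (by decide) (lowF_card (fun i (q : ℕ) => x i q) _
        (lowF_le hC 5 (by decide) (by decide) hI) (lowF_th hC 5 (by decide) (by decide))))
    have hE : (m.S.kd b).isE := Or.inr hb
    have hS : (m.S.kd b).isS := Or.inr (Or.inr (Or.inr (Or.inr hb)))
    choose F hF using h4 (BB m.S.D) post (m.S.gen b) lowF_post (h9 m.K m.Λ m.L m.S b hS).1
    exact ⟨F, fun n => h7 m.K m.Λ m.L m.S b hb n (F n) (hF n), fun i =>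
      h5 m.K m.Λ m.L m.S b hE post lowF_post F hF (x i) fun n => hX ⟨(i, n), rfl⟩⟩
  · obtain ⟨E, hE, hk, hX⟩ := m.f4
    refine ⟨E, fun i => m.S.crl i.1, hE, fun F hF => ?_⟩
    obtain ⟨i, hi, Z, hZ, hiZ, hs⟩ := hX (range fun q : ℕ × ℕ × Finset ℕ =>
      (F q.1).T q.2.1 q.2.2) (countable_range _)
    refine le_bot_iff.1 ((iInf_le _ (⟨i, hi⟩ : E)).trans (iSup_le fun n => ?_))
    exact (h8 m.K m.Λ m.L m.S i Z (hk i hi) hZ hiZ (F n) (fun n' a => hs ⟨(n, n', a), rfl⟩)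
      (hF n)).le
  · intro I hI F hF
    obtain ⟨i, hi, hX⟩ := m.f1 (range fun p : I × (ℕ × ℕ × Finset ℕ) =>
      (F p.1 p.2.1).T p.2.2.1 p.2.2.2)
      (lowF_lt hC 6 (by decide) (by decide) (lowF_card
        (fun i (q : ℕ × ℕ × Finset ℕ) => (F i q.1).T q.2.1 q.2.2) _
        (lowF_le hC 6 (by decide) (by decide) hI) (lowF_th hC 6 (by decide) (by decide))))
    refine ⟨m.S.crl i, fun j n => ?_⟩
    exact h8 m.K m.Λ m.L m.S i (Iio i) hi (Tr_of_lower (isLowerSet_Iio i)) (by simp) (F j n)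
      (fun n' a => hX ⟨(j, n, n', a), rfl⟩) (hF j n)
  · obtain ⟨E, hE, hk, hX⟩ := m.f3'
    have hc : ∀ b : E, ∀ n, ∃ F : CloC (BB m.S.D), IsF post (m.S.gen b.1) n F := fun b n =>
      h4 (BB m.S.D) post (m.S.gen b.1) lowF_post
        (h9 m.K m.Λ m.L m.S b.1 (Or.inr (Or.inr (Or.inr (Or.inr (hk b.1 b.2)))))).1 n
    choose F hF using hc
    refine ⟨E, F, hE, fun b n => h7 m.K m.Λ m.L m.S b.1 (hk b.1 b.2) n (F b n) (hF b n),
      fun x => ?_⟩
    obtain ⟨b, hb, hs⟩ := hX (range fun n : ℕ => x n) (countable_range _)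
    refine top_le_iff.1 (le_trans (le_of_eq ?_) (le_iSup _ (⟨b, hb⟩ : E)))
    exact (h5 m.K m.Λ m.L m.S b (Or.inr (hk b hb)) post lowF_post (F ⟨b, hb⟩) (hF ⟨b, hb⟩) x
      fun n => hs ⟨n, rfl⟩).symm

end CI
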