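import Pool.Agent.CI.C.StepStm
import Pool.Agent.CI.Final

/-!
# Project CI, core: the final model, positivity, limits of systems of conditions, thinning,
upper bounds (statements)
-/

set_option autoImplicit false

open Set Cardinal Pool.Agent.CL

namespace CI

universe u

/-! ### names attached to the coordinates -/

/-- the position of the `n`-th block of length `n` -/
def tri (n : ℕ) : ℕ := n * (n - 1) / 2

/-- the code of the restriction of `a` to the interval of length `m` starting at `s` -/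
def blk (s m : ℕ) (a : Finset ℕ) : ℕ := ∑ i ∈ Finset.range m, if s + i ∈ a then 2 ^ i else 0

/-- the bits of the independent clopen set `G (n, j)`: all points without these bits -/
def bits (n j : ℕ) : Finset ℕ := (Finset.range n).image fun r => Nat.pair n (Nat.pair j r)

section

variable {B : Type u} [CompleteBooleanAlgebra B]

/-- the open set of all `x` such that for some `n > k` the code of `x` on the `n`-th block is
`c (n)` -/
def opn3 (c : Fu B) (k m : ℕ) (a : Finset ℕ) : B :=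
  ⨆ n : ℕ, ⨆ _ : k < n ∧ tri n + n ≤ m, c.f n (blk (tri n) n a)

/-- `U` is a name of the null set of all `x` such that the code of `x` on the `n`-th block is
`c (n)` for infinitely many `n` -/
def IsN3 (c : Fu B) (N : NulC B) : Prop :=
  ∀ k m a, a ⊆ Finset.range m → (N.U k).O m a = opn3 c k m a

/-- the open set of all `x` which are in `G (n, c (n))` for some `n > k` -/
def opn1 (c : Fu B) (k m : ℕ) (a : Finset ℕ) : B :=
  ⨆ n : ℕ, ⨆ j : ℕ, ⨆ _ : k < n ∧ bits n j ⊆ Finset.range m ∧ Disjoint a (bits n j), c.f n j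

/-- `N` is a name of the limes superior of `G (n, c (n))` -/
def IsN1 (c : Fu B) (N : NulC B) : Prop :=
  ∀ k m a, a ⊆ Finset.range m → (N.U k).O m a = opn1 c k m a

/-- names of these null sets exist -/
def NulExStm : Prop :=
  ∀ (B : Type u) [CompleteBooleanAlgebra B] (c : Fu B), (∃ N, IsN3 c N) ∧ ∃ N, IsN1 c N

/-- the part of the tree `U` below the node `(n, a)` -/
noncomputable def cone (U : ℕ → Finset ℕ → B) (n : ℕ) (a : Finset ℕ) (m : ℕ) (b : Finset ℕ) : B :=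
  open Classical in if b ∩ Finset.range n = a ∩ Finset.range m then U m b else ⊥

/-- a closed set which misses `d`, all of whose nonempty relatively open parts have positive
measure -/
def SuppStm : Prop :=
  ∀ (B : Type u) [CompleteBooleanAlgebra B] (d : NulC B), ∃ T : ℕ → Finset ℕ → B, DecT T ∧
    T 0 ∅ = ⊤ ∧ (∀ n a, a ⊆ Finset.range n → T n a ≤ ((d.U 1).O n a)ᶜ) ∧
    ∀ n a, a ⊆ Finset.range n → T n a ≤ ⨆ j : ℕ, mGe (cone T n a) (j + 1) 1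

/-- the truth value of: below the node `(n, a)` the closed set `T` misses the set `G (n', c (n'))`
for all `n' ≥ m` -/
def missV (T : ℕ → Finset ℕ → B) (c : Fu B) (n : ℕ) (a : Finset ℕ) (m : ℕ) : B :=
  ⨅ n' : ℕ, ⨅ _ : m ≤ n', ⨅ j : ℕ, ⨅ m' : ℕ, ⨅ b : Finset ℕ,
    ⨅ _ : n ≤ m' ∧ b ⊆ Finset.range m' ∧ b ∩ Finset.range n = a ∧ bits n' j ⊆ Finset.range m' ∧
      Disjoint b (bits n' j), c.f n' j ⇨ (T m' b)ᶜ

/-- Baire argument for names -/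
def BairStm : Prop :=
  ∀ (B : Type u) [CompleteBooleanAlgebra B] (c : Fu B) (N d : NulC B) (T : ℕ → Finset ℕ → B),
    IsN1 c N → DecT T → T 0 ∅ = ⊤ →
    (∀ n a, a ⊆ Finset.range n → T n a ≤ ((d.U 1).O n a)ᶜ) →
    (⨅ x, N.mem x ⇨ d.mem x) ≤ ⨆ n : ℕ, ⨆ a : Finset ℕ, ⨆ _ : a ⊆ Finset.range n, ⨆ m : ℕ,
      T n a ⊓ missV T c n a m

end

/-- counting the points of level `m` which meet all the sets `bits n j`, `j ∈ J` -/
def CntStm : Prop :=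
  ∀ (n m : ℕ) (J : Finset ℕ), (∀ j ∈ J, bits n j ⊆ Finset.range m) →
    ((Finset.range m).powerset.filter fun b => ∀ j ∈ J, ¬ Disjoint b (bits n j)).card *
      (2 ^ n) ^ J.card = 2 ^ m * (2 ^ n - 1) ^ J.card

namespace Sys

variable {K Λ L : Type u} [LinearOrder K] [LinearOrder L] (S : Sys K Λ L)

/-- `c` is the name of the generic function at `i` -/
def IsCf (i : K) (c : Fu (BB S.D)) : Prop := ∀ k v, c.f k v = S.gen i k v

/-- the name of the real given by the generic function at `i` -/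
noncomputable def crl (i : K) : Rl (BB S.D) := fun k => (S.gen i k 0)ᶜ

/-- every sequence of conditions (random and smaller kinds) and every stem is guessed -/
structure Gs {Θ : Type u} (rd : Θ → ℕ → Λ) (rt : Θ → List ℕ) : Prop where
  ex : ∀ b, (S.kd b).isX → ∀ s : ℕ → Λ, ∃ θ, ∀ l, S.Eqv b (s l) (rd θ l) ∧
    (S.kd b = .rnd → (S.cR b (rd θ l)).q = (S.cR b (s l)).q)
  st : Function.Surjective rt

end Sys

/-- the final model -/
structure Mdl (l th : Fin 8 → Cardinal.{u}) where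
  K : Type u
  Λ : Type u
  L : Type u
  Θ : Type u
  iK : LinearOrder K
  wK : WellFoundedLT K
  iL : LinearOrder L
  S : Sys K Λ L
  rd : Θ → ℕ → Λ
  rt : Θ → List ℕ
  φ : (ℕ → BB S.D) → TT S.D Θ
  good : S.Good rd rt univ φ
  gus : S.Gs rd rt
  cld : ∀ b, S.kd b = .rnd ∨ (S.kd b).isE → S.Cld (S.W b) φ
  sz1 : ∀ b, S.kd b = .coh ∨ S.kd b = .loc → #(CndS (S.kd b) (S.W b)) ≤ th 1
  sz2 : ∀ b, S.kd b = .hech → #(CndS (S.kd b) (S.W b)) ≤ th 2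
  sz3 : ∀ b, S.kd b = .rnd → #(CndR (S.W b)) ≤ th 3
  sz4 : ∀ b, S.kd b = .ev → #(CndS (S.kd b) (S.W b)) ≤ th 4
  sz : #(BB S.D) ≤ l 7
  f1 : ∀ X : Set (BB S.D), #X < l 6 → ∃ i, S.kd i = .coh ∧ X ⊆ SZ S.D (Iio i)
  f21 : ∀ X : Set (BB S.D), #X ≤ th 1 → ∃ b, S.kd b = .loc ∧ X ⊆ S.W b
  f22 : ∀ X : Set (BB S.D), #X ≤ th 2 → ∃ b, S.kd b = .hech ∧ X ⊆ S.W b
  f23 : ∀ X : Set (BB S.D), #X ≤ th 3 → ∃ b, S.kd b = .rnd ∧ X ⊆ S.W b
  f24 : ∀ X : Set (BB S.D), #X ≤ th 4 → ∃ b, S.kd b = .ev ∧ X ⊆ S.W b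
  f3 : ∀ X : Set (BB S.D), #X < l 5 → ∃ b, S.kd b = .et ∧ X ⊆ S.W b
  f3' : ∃ E : Set K, #E = l 6 ∧ (∀ b ∈ E, S.kd b = .et) ∧
    ∀ X : Set (BB S.D), X.Countable → ∃ b ∈ E, X ⊆ S.W b
  f4 : ∃ E : Set K, #E = l 5 ∧ (∀ i ∈ E, S.kd i = .coh) ∧
    ∀ X : Set (BB S.D), X.Countable → ∃ i ∈ E, ∃ Z : Set K, Tr S.D Z ∧ i ∉ Z ∧ X ⊆ SZ S.D Z
  f5 : l 7 ≤ #{i | S.kd i = .coh}

/-- existence of the final model -/
def MdlStm : Prop := ∀ l th : Fin 8 → Cardinal.{u}, Crd l th → Nonempty (Mdl l th)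

/-! ### positivity and limits of systems of conditions -/

/-- the root elements can be met simultaneously -/
def RootStm : Prop :=
  ∀ (K Λ Θ : Type u) [LinearOrder K] (D : Dat K Λ) (R : Finset K) (q : K → TT D Θ),
    (∀ b ∈ R, ∀ (a : AF K Θ) (p : PF K Λ), p.dom ⊆ Iio b → ∃ a' ≤ a, ∃ p' : PF K Λ,
      @LE.le (PD D) _ p' p ∧ p'.dom ⊆ Iic b ∧ iAP D a' p' ≤ q b) →
    ∀ a : AF K Θ, ∃ a' ≤ a, ∃ p' : PF K Λ, iAP D a' p' ≤ ⨅ b : K, ⨅ _ : b ∈ R, q b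

/-- positivity at a centred coordinate -/
def PosEStm : Prop :=
  ∀ (K Λ L Θ : Type u) [LinearOrder K] [LinearOrder L] (S : Sys K Λ L) (rd : Θ → ℕ → Λ)
    (rt : Θ → List ℕ) (φ : (ℕ → BB S.D) → TT S.D Θ), S.Good rd rt univ φ → Ccc (BB S.D) →
    ∀ b, (S.kd b).isE → S.Cld (S.W b) φ → ∀ (t : List ℕ) (g : ℕ → ℕ → ℕ → BB S.D) (N : ℕ),
      (∀ l k v, g l k v ∈ S.W b) →
      (∀ l k (s : Finset ℕ), s.card = (S.kd b).w N k + 1 → (s.inf fun v => (g l k v)ᶜ) = ⊥) →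
      ∀ (a : AF K Θ) (p : PF K Λ), p.dom ⊆ Iio b →
        ∃ a' ≤ a, ∃ c, iAP S.D a' (p.upd b c) ≤ S.qq b t g φ

/-- positivity at a random coordinate -/
def PosRStm : Prop :=
  ∀ (K Λ L Θ : Type u) [LinearOrder K] [LinearOrder L] (S : Sys K Λ L) (rd : Θ → ℕ → Λ)
    (rt : Θ → List ℕ) (φ : (ℕ → BB S.D) → TT S.D Θ), S.Good rd rt univ φ → Ccc (BB S.D) →
    ∀ b, S.kd b = .rnd → S.Cld (S.W b) φ → ∀ (σ : ℕ → Λ) (k : ℕ), (∀ l, (S.cR b (σ l)).q ≤ k) →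
      ∀ (a : AF K Θ) (p : PF K Λ), p.dom ⊆ Iio b →
        ∃ a' ≤ a, ∃ p' : PF K Λ, @LE.le (PD S.D) _ p' p ∧ p'.dom ⊆ Iic b ∧
          iAP S.D a' p' ≤ S.qr b σ φ

/-- plain limits at a centred coordinate -/
def PlainStm : Prop :=
  ∀ (K Λ L : Type u) [LinearOrder K] [LinearOrder L] (S : Sys K Λ L) (b : K), (S.kd b).isE →
    ∀ (t : List ℕ) (N : ℕ) (c : ℕ → Λ), (∀ l, S.st b (c l) = t ∧ (S.cS b (c l)).N = N) →
      S.PE b t (fun l k v => ((S.cS b (c l)).f k v)ᶜ) (fun l => eb S.D b (c l)) ∧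
      (∀ l k v, ((S.cS b (c l)).f k v)ᶜ ∈ S.W b) ∧
      (∀ l, eb S.D b (c l) ∈ SZ S.D (Iic b ∩ S.Zl (S.lay b))) ∧
      ∀ l k (s : Finset ℕ), s.card = (S.kd b).w N k + 1 →
        (s.inf fun v => (((S.cS b (c l)).f k v)ᶜ)ᶜ) = ⊥

/-- the averaged sequence of values of: `v` is allowed at `k` for most `x < X l` -/
noncomputable def Sys.avg {K Λ L : Type u} [LinearOrder K] [LinearOrder L] (S : Sys K Λ L)
    (b : K) (M : ℕ) (X : ℕ → ℕ) (c : ℕ → ℕ → Λ) (l k v : ℕ) : BB S.D :=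
  (cntGe (Finset.range (X l)) (fun x => (S.cS b (c l x)).f k v)
    ((M + 1) * (k + 1) * (k + 2)) (X l + 1))ᶜ

/-- averaged limits at a coordinate of the last kind -/
def AvgStm : Prop :=
  ∀ (K Λ L : Type u) [LinearOrder K] [LinearOrder L] (S : Sys K Λ L) (b : K), S.kd b = .et →
    ∀ (t : List ℕ) (N M : ℕ) (X : ℕ → ℕ) (c : ℕ → ℕ → Λ),
      (∀ l, ∀ x < X l, S.st b (c l x) = t ∧ (S.cS b (c l x)).N = N) →
      S.PE b t (S.avg b M X c)
        (fun l => cntGe (Finset.range (X l)) (fun x => eb S.D b (c l x)) (M + 1) (M * X l)) ∧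
      (∀ l k v, S.avg b M X c l k v ∈ S.W b) ∧
      (∀ l, cntGe (Finset.range (X l)) (fun x => eb S.D b (c l x)) (M + 1) (M * X l) ∈
        SZ S.D (Iic b ∩ S.Zl (S.lay b))) ∧
      ∃ N' : ℕ, ∀ l k (s : Finset ℕ), s.card = (S.kd b).w N' k + 1 →
        (s.inf fun v => (S.avg b M X c l k v)ᶜ) = ⊥

/-- the guess of the tails of a system of conditions, with given guesses on the root -/
def TailStm : Prop :=
  ∀ (K Λ L Θ : Type u) [LinearOrder K] [LinearOrder L] (S : Sys K Λ L) (rd : Θ → ℕ → Λ)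
    (rt : Θ → List ℕ), S.Gs rd rt → ∀ (d : ℕ → PF K Λ) (R : Finset K) (a₀ : K → Θ),
    (∀ l, Disjoint (d l).dom (R : Set K)) → (∀ l m, l ≠ m → Disjoint (d l).dom (d m).dom) →
    ∃ a : AF K Θ, S.Fol rd rt d a ∧ ∀ b ∈ R, a.f b = some (a₀ b)

/-- sequences which are `⊥` from some point on -/
def EvBotStm : Prop :=
  ∀ (K Λ L Θ : Type u) [LinearOrder K] [LinearOrder L] (S : Sys K Λ L) (rd : Θ → ℕ → Λ)
    (rt : Θ → List ℕ) (φ : (ℕ → BB S.D) → TT S.D Θ), S.Good rd rt univ φ →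
    (∀ (z : ℕ → BB S.D) (u : ℕ → BB S.D), (⨆ n, u n) = ⊤ →
      (∀ n, ∃ l₀, ∀ l, l₀ ≤ l → z l ⊓ u n = ⊥) → φ z = ⊥) ∧
    (∀ y z : ℕ → BB S.D, (∀ l, y l ≤ z l) → φ y ≤ φ z) ∧
    (∀ y z : ℕ → BB S.D, φ (fun l => y l ⊓ z l) = φ y ⊓ φ z) ∧
    ∀ (R : Finset K) (y : K → ℕ → BB S.D),
      φ (fun l => ⨅ b : K, ⨅ _ : b ∈ R, y b l) = ⨅ b : K, ⨅ _ : b ∈ R, φ (y b)

/-- limit of a sequence of conditions with a root -/
def Lim2Stm : Prop :=
  ∀ (K Λ L Θ : Type u) [LinearOrder K] [LinearOrder L] (S : Sys K Λ L) (rd : Θ → ℕ → Λ)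
    (rt : Θ → List ℕ) (φ : (ℕ → BB S.D) → TT S.D Θ), S.Good rd rt univ φ → Ccc (BB S.D) →
    S.Gs rd rt → (∀ b, S.kd b = .rnd ∨ (S.kd b).isE → S.Cld (S.W b) φ) →
    ∀ (p : ℕ → PF K Λ) (R : Finset K) (k : ℕ), (∀ l, (R : Set K) ⊆ (p l).dom) →
      (∀ l m, l ≠ m → (p l).dom ∩ (p m).dom ⊆ (R : Set K)) →
      (∀ b ∈ R, ∀ l m c c', (p l).f b = some c → (p m).f b = some c' →
        S.Eqv b c c' ∨ (S.kd b = .rnd ∧ (S.cR b c).q ≤ k ∧ (S.cR b c').q ≤ k) ∨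
        ((S.kd b).isE ∧ S.st b c = S.st b c' ∧ (S.cS b c).N = (S.cS b c').N)) →
      (φ fun l => ee S.D (p l)) ≠ ⊥

/-- averaged limit of an array of conditions with a root -/
def Lim4Stm : Prop :=
  ∀ (K Λ L Θ : Type u) [LinearOrder K] [LinearOrder L] (S : Sys K Λ L) (rd : Θ → ℕ → Λ)
    (rt : Θ → List ℕ) (φ : (ℕ → BB S.D) → TT S.D Θ), S.Good rd rt univ φ → Ccc (BB S.D) →
    S.Gs rd rt → (∀ b, S.kd b = .rnd ∨ (S.kd b).isE → S.Cld (S.W b) φ) →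
    ∀ (X : ℕ → ℕ) (p : ℕ → ℕ → PF K Λ) (R : Finset K),
      (∀ l x, x < X l → (R : Set K) ⊆ (p l x).dom) →
      (∀ l x l' x', x < X l → x' < X l' → (l, x) ≠ (l', x') →
        (p l x).dom ∩ (p l' x').dom ⊆ (R : Set K)) →
      (∀ b ∈ R, ∀ l x l' x' c c', x < X l → x' < X l' →
        (p l x).f b = some c → (p l' x').f b = some c' →
        S.Eqv b c c' ∨ (S.kd b = .et ∧ S.st b c = S.st b c' ∧ (S.cS b c).N = (S.cS b c').N)) →
      (φ fun l => cntGe (Finset.range (X l)) (fun x => ee S.D (p l x)) 2 (X l)) ≠ ⊥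

/-! ### thinning, changing Cohen stems -/

/-- thinning a large family of conditions -/
def ThinStm : Prop :=
  ∀ (K Λ L : Type u) [LinearOrder K] [LinearOrder L] (S : Sys K Λ L) (κ : Cardinal.{u}),
    κ.IsRegular → ℵ₀ < κ → ∀ (J : Set K) (p : K → PF K Λ) (n : K → ℕ), κ ≤ #J →
    (∀ i ∈ J, S.kd i = .coh ∧ i ∈ (p i).dom) →
    ∃ (J' : Set K) (R : Finset K) (s : List ℕ) (n₀ : ℕ), J' ⊆ J ∧ #J' = κ ∧
      (∀ i ∈ J', i ∉ R) ∧ (∀ i ∈ J', (R : Set K) ⊆ (p i).dom) ∧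
      (∀ i ∈ J', ∀ j ∈ J', i ≠ j → (p i).dom ∩ (p j).dom ⊆ (R : Set K)) ∧
      (∀ i ∈ J', ∀ c, (p i).f i = some c → S.st i c = s) ∧ (∀ i ∈ J', n i = n₀) ∧
      ∀ b ∈ R, ∀ i ∈ J', ∀ j ∈ J', ∀ c c', (p i).f b = some c → (p j).f b = some c' →
        (S.kd b = .tr → S.Eqv b c c') ∧
        ((S.kd b).isS → S.st b c = S.st b c' ∧ (S.cS b c).N = (S.cS b c').N) ∧
        (S.kd b = .rnd → (S.cR b c).q = (S.cR b c').q) ∧
        ((S.kd b).isS → #(CndS (S.kd b) (S.W b)) < κ → S.Eqv b c c') ∧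
        (S.kd b = .rnd → #(CndR (S.W b)) < κ → S.Eqv b c c')

/-- the stem at a Cohen coordinate can be made longer at will -/
def CohStm : Prop :=
  ∀ (K Λ L : Type u) [LinearOrder K] [LinearOrder L] (S : Sys K Λ L) (i : K), S.kd i = .coh →
    ∀ (p : PF K Λ) (c : Λ) (t : List ℕ), p.f i = some c → S.st i c <+: t →
      ∃ c', S.st i c' = t ∧ ee S.D (p.upd i c') ≤ ee S.D p ∧
        ∀ k, k < t.length → ee S.D (p.upd i c') ≤ S.gen i k (at' t k)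

/-! ### upper bounds -/

def A1Stm : Prop :=
  ∀ (l th : Fin 8 → Cardinal.{u}) (m : Mdl l th), Crd l th →
    letI := m.iK; letI := m.iL; letI := m.wK
    ∀ (cf : m.K → Fu (BB m.S.D)) (N : m.K → NulC (BB m.S.D)),
      (∀ i, m.S.kd i = .coh → m.S.IsCf i (cf i) ∧ IsN1 (cf i) (N i)) →
      ∀ d : NulC (BB m.S.D),
        #{i | m.S.kd i = .coh ∧ (⨅ x, (N i).mem x ⇨ d.mem x) ≠ ⊥} < l 1

def A2Stm : Prop :=
  ∀ (l th : Fin 8 → Cardinal.{u}) (m : Mdl l th), Crd l th →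
    letI := m.iK; letI := m.iL; letI := m.wK
    ∀ (cf : m.K → Fu (BB m.S.D)), (∀ i, m.S.kd i = .coh → m.S.IsCf i (cf i)) →
      ∀ g : Fu (BB m.S.D), #{i | m.S.kd i = .coh ∧ (cf i).le g ≠ ⊥} < l 2

def A3Stm : Prop :=
  ∀ (l th : Fin 8 → Cardinal.{u}) (m : Mdl l th), Crd l th →
    letI := m.iK; letI := m.iL; letI := m.wK
    ∀ (cf : m.K → Fu (BB m.S.D)) (N : m.K → NulC (BB m.S.D)),
      (∀ i, m.S.kd i = .coh → m.S.IsCf i (cf i) ∧ IsN3 (cf i) (N i)) →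
      ∀ x : Rl (BB m.S.D), #{i | m.S.kd i = .coh ∧ (N i).mem x ≠ ⊤} < l 3

def A4Stm : Prop :=
  ∀ (l th : Fin 8 → Cardinal.{u}) (m : Mdl l th), Crd l th →
    letI := m.iK; letI := m.iL; letI := m.wK
    ∀ F : ℕ → CloC (BB m.S.D), (∀ n, (F n).Nul) →
      #{i | m.S.kd i = .coh ∧ ⨆ n, (F n).mem (m.S.crl i) ≠ ⊥} < l 4

end CI
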