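import Pool.Agent.CI.C.RecE
import Pool.Agent.CI.C.MdlStm

/-!
# Project CI, core: the final model
-/

set_option autoImplicit false
set_option linter.unusedSectionVars false
set_option linter.unusedVariables false

open Set Cardinal Pool.Agent.CL

namespace CI

namespace Agr

universe u

/-- small subsets of a successor cardinal are bounded -/
theorem bdd_of {θ κ : Cardinal.{u}} (hθ : ℵ₀ ≤ θ) (hκ : κ = Order.succ θ) (X : Set κ.ord.ToType)
    (hX : #X < κ) : ∃ x, ∀ y ∈ X, y < x := by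
  subst hκ
  by_contra hcon
  push Not at hcon
  have h1 : (Set.univ : Set (Order.succ θ).ord.ToType) = ⋃ y : X, Iic (y : (Order.succ θ).ord.ToType) := by
    ext x
    simp only [mem_univ, mem_iUnion, true_iff]
    obtain ⟨y, hy, hxy⟩ := hcon x
    exact ⟨⟨y, hy⟩, hxy⟩
  have h2 : ∀ y : (Order.succ θ).ord.ToType, #(Iic y) ≤ θ := by
    intro y
    have h3 : #(Iio y) < Order.succ θ := Cardinal.mk_Iio_toType_ord_lt y
    rw [Order.lt_succ_iff] at h3
    have h4 : Iic y = insert y (Iio y) := by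
      ext z; simp [le_iff_eq_or_lt]
    rw [h4]
    refine mk_insert_le.trans ?_
    exact (add_le_add h3 (one_le_aleph0.trans hθ)).trans (Cardinal.add_eq_self hθ).le
  have h5 : #(Set.univ : Set (Order.succ θ).ord.ToType) ≤ θ := by
    rw [h1]
    refine (mk_iUnion_le _).trans ?_
    have hXθ : #X ≤ θ := by
      rw [Order.lt_succ_iff] at hX; exact hX
    calc #X * ⨆ y : X, #(Iic (y : (Order.succ θ).ord.ToType)) ≤ θ * θ := by
          refine mul_le_mul' hXθ ?_
          exact ciSup_le' fun y => h2 y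
      _ = θ := Cardinal.mul_eq_self hθ
  rw [mk_univ, mk_ord_toType] at h5
  exact absurd h5 (not_le.2 (Order.lt_succ θ))

section Facts

variable {K Λ : Type u} [LinearOrder K]

/-- codes of elements -/
theorem exists_code {D : Dat K Λ} (hc : Ccc (BB D)) :
    ∃ c : BB D → ℕ → PF K Λ, ∀ U, U = ⊥ ∨ U = ⨆ n, ee D (c U n) := by
  have : ∀ U : BB D, ∃ p : ℕ → PF K Λ, U = ⊥ ∨ U = ⨆ n, ee D (p n) := by
    intro U
    by_cases hU : U = ⊥
    · exact ⟨fun _ => PF.nil, Or.inl hU⟩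
    · obtain ⟨p, hp⟩ := exists_seq hc U hU
      exact ⟨p, Or.inr hp⟩
  choose c hc using this
  exact ⟨c, hc⟩

/-- the support of a set of elements -/
def suppX {D : Dat K Λ} (c : BB D → ℕ → PF K Λ) (X : Set (BB D)) : Set K :=
  ⋃ U : X, ⋃ n : ℕ, (c U n).dom

theorem suppX_card {D : Dat K Λ} (c : BB D → ℕ → PF K Λ) (X : Set (BB D)) {κ : Cardinal.{u}}
    (hκ : ℵ₀ < κ) (hX : #X < κ) : #(suppX c X) < κ := by
  have h1 : ∀ U : X, #(⋃ n : ℕ, (c U n).dom) ≤ ℵ₀ := by
    intro U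
    rw [le_aleph0_iff_set_countable]
    exact countable_iUnion fun n => (c U n).fin.countable
  have h2 : #(suppX c X) ≤ #X * ℵ₀ := by
    refine (mk_iUnion_le _).trans ?_
    exact mul_le_mul' le_rfl (ciSup_le' h1)
  refine h2.trans_lt ?_
  exact mul_lt_of_lt hκ.le hX hκ

theorem mem_SZ_of_supp (hSZ : SZStm.{u}) {D : Dat K Λ} {c : BB D → ℕ → PF K Λ}
    (hc : ∀ U, U = ⊥ ∨ U = ⨆ n, ee D (c U n)) {X : Set (BB D)} {Z : Set K} (hZ : Tr D Z)
    (h : suppX c X ⊆ Z) : X ⊆ SZ D Z := by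
  intro U hU
  obtain ⟨h1, h2, _⟩ := hSZ K Λ D Z hZ
  have h3 : ∀ n, (c U n).dom ⊆ Z := by
    intro n x hx
    exact h (mem_iUnion.2 ⟨⟨U, hU⟩, mem_iUnion.2 ⟨n, hx⟩⟩)
  rcases hc U with he | he
  · rw [he]; exact SZ_bot
  · rw [he]
    exact isCS_iSup h1 _ fun n => h2 _ (h3 n)

end Facts

/-- code of a kind -/
def kdN : Kd → ℕ
  | .tr => 0
  | .coh => 1
  | .loc => 2
  | .hech => 3
  | .rnd => 4
  | .ev => 5
  | .et => 6

instance : Countable Kd :=
  (show Function.Injective kdN from fun a b h => by cases a <;> cases b <;> simp_all [kdN]).countable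

end Agr

universe u

open Agr in
/-- the final model exists -/
theorem mdlStm (hS : SCmpStm.{u}) (hR : RCmpStm.{u}) (hSZ : SZStm.{u}) (hZl : ZlStm.{u})
    (hM : MemStm.{u}) (hLC : LayCldStm.{u}) (hccc : CccStm.{u})
    (hL : LayerStm.{u}) (hB : BaseStm.{u}) (hSu : SuccStm.{u}) (hLi : LimStm.{u}) :
    MdlStm.{u} := by
  intro l th hC
  classical
  -- cardinal facts
  have hthl : ∀ j : Fin 8, 1 ≤ j → j ≤ 6 → th j < l j := fun j h1 h2 => by
    rw [hC.succ j h1 h2]; exact Order.lt_succ _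
  have hth : ∀ i j : Fin 8, 1 ≤ i → i < j → j ≤ 6 → th i ≤ th j := fun i j h1 h2 h3 =>
    (hthl i h1 (h2.le.trans h3)).le.trans (hC.le i j h1 h2)
  have hth1 : ∀ j : Fin 8, 1 ≤ j → j ≤ 6 → th 1 ≤ th j := by
    intro j h1 h2
    rcases h1.lt_or_eq with h | h
    · exact hth 1 j le_rfl h h2
    · rw [← h]
  have hinf : ∀ j : Fin 8, 1 ≤ j → j ≤ 6 → ℵ₀ ≤ th j := fun j h1 h2 =>
    aleph0_le_continuum.trans (hC.cnt.trans (hth1 j h1 h2))
  have h7inf : ℵ₀ ≤ l 7 :=
    (hinf 6 (by decide) le_rfl).trans ((hthl 6 (by decide) le_rfl).le.trans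
      (hC.lt 6 7 (by decide)).le)
  have h7c : l 7 ^ ℵ₀ = l 7 := by
    apply le_antisymm
    · conv_rhs => rw [← hC.pow]
      exact Cardinal.power_le_power_left (by
        intro h; rw [h] at h7inf; exact absurd h7inf (not_le.2 Cardinal.aleph0_pos))
        ((hinf 6 (by decide) le_rfl).trans (hthl 6 (by decide) le_rfl).le)
    · exact Cardinal.self_le_power _ one_le_aleph0
  have hl5 : ℵ₀ < l 5 := (hinf 5 (by decide) (by decide)).trans_lt (hthl 5 (by decide) (by decide))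
  have hl6 : ℵ₀ < l 6 := (hinf 6 (by decide) (by decide)).trans_lt (hthl 6 (by decide) (by decide))
  -- the types
  let A := (l 6).ord.ToType
  let L := (l 5).ord.ToType
  let M := (l 7).ord.ToType
  let Λ : Type u := (l 7).out
  let K := A ×ₗ M
  have hΛ : #Λ = l 7 := mk_out _
  have hA : #A = l 6 := mk_ord_toType _
  have hLc : #L = l 5 := mk_ord_toType _
  have hMc : #M = l 7 := mk_ord_toType _
  have hKc : #K ≤ l 7 := by
    have : #K = #(A × M) := rfl
    rw [this, mk_prod, Cardinal.lift_id, Cardinal.lift_id, hA, hMc]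
    calc l 6 * l 7 ≤ l 7 * l 7 := mul_le_mul' (hC.lt 6 7 (by decide)).le le_rfl
      _ = l 7 := Cardinal.mul_eq_self h7inf
  have hbA : ∀ X : Set A, #X < l 6 → ∃ x, ∀ y ∈ X, y < x :=
    bdd_of (hinf 6 (by decide) (by decide)) (hC.succ 6 (by decide) (by decide))
  have hbL : ∀ X : Set L, #X < l 5 → ∃ x, ∀ y ∈ X, y < x :=
    bdd_of (hinf 5 (by decide) (by decide)) (hC.succ 5 (by decide) (by decide))
  obtain ⟨a₀, _⟩ := hbA ∅ (by rw [mk_emptyCollection]; exact Cardinal.aleph0_pos.trans hl6)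
  obtain ⟨x₀, _⟩ := hbL ∅ (by rw [mk_emptyCollection]; exact Cardinal.aleph0_pos.trans hl5)
  have hPF : #(PF K Λ) ≤ l 7 := by
    have := card_PF (K := K) (Λ := Λ) (by rw [hΛ]; exact h7inf) (by rw [hΛ]; exact hKc)
    rwa [hΛ] at this
  let T : Type u := (th 4).out
  have hT : #T = th 4 := mk_out _
  let Cd : Type u := T → ℕ → PF K Λ
  have hCd : #Cd ≤ l 7 := by
    have h1 : #(ℕ → PF K Λ) ≤ l 7 := card_seq h7c hPF ℕ
    have h2 : #Cd = #(ℕ → PF K Λ) ^ #T := by simp [Cd]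
    rw [h2, hT]
    calc #(ℕ → PF K Λ) ^ th 4 ≤ l 7 ^ th 4 := Cardinal.power_le_power_right h1
      _ ≤ l 7 ^ l 6 := Cardinal.power_le_power_left (by
        intro h; rw [h] at h7inf; exact absurd h7inf (not_le.2 Cardinal.aleph0_pos))
        ((hthl 4 (by decide) (by decide)).le.trans (hC.lt 4 6 (by decide)).le)
      _ = l 7 := hC.pow
  have h7ne : l 7 ≠ 0 := by intro h; rw [h] at h7inf; exact absurd h7inf (not_le.2 Cardinal.aleph0_pos)
  have hMne : Nonempty M := by
    rw [← mk_ne_zero_iff, hMc]; exact h7ne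
  have hTne : Nonempty T := by
    rw [← mk_ne_zero_iff, hT]
    intro h
    have := hinf 4 (by decide) (by decide)
    rw [h] at this; exact absurd this (not_le.2 Cardinal.aleph0_pos)
  have m₀ : M := Classical.arbitrary M
  have t₀ : T := Classical.arbitrary T
  let k₀ : K := toLex (a₀, m₀)
  have hCd7 : l 7 ≤ #Cd := by
    rw [← hΛ]
    refine mk_le_of_injective (f := fun c : Λ => (fun _ _ => PF.sng k₀ c : Cd)) ?_
    intro c c' h
    have h1 := congrArg (fun p : PF K Λ => p.f k₀) (congrFun (congrFun h t₀) 0)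
    simp only [PF.sng_f_same, Option.some.injEq] at h1
    exact h1
  -- tasks
  let Tk : Type u := Kd × L × Cd
  have hTk : #Tk ≤ #M := by
    have h1 : Cardinal.lift.{u} #Kd ≤ l 7 := by
      refine le_trans ?_ h7inf
      rw [lift_le_aleph0]
      exact mk_le_aleph0
    have h2 : #(L × Cd) ≤ l 7 := by
      rw [mk_prod, Cardinal.lift_id, Cardinal.lift_id, hLc]
      calc l 5 * #Cd ≤ l 7 * l 7 := mul_le_mul' (hC.lt 5 7 (by decide)).le hCd
        _ = l 7 := Cardinal.mul_eq_self h7inf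
    have h3 : #Tk = Cardinal.lift.{u} #Kd * Cardinal.lift.{0} #(L × Cd) := mk_prod _ _
    rw [h3, hMc, Cardinal.lift_id' #(L × Cd)]
    calc Cardinal.lift.{u} #Kd * #(L × Cd) ≤ l 7 * l 7 := mul_le_mul' h1 h2
      _ = l 7 := Cardinal.mul_eq_self h7inf
  have hTkne : Nonempty Tk := ⟨(.coh, x₀, fun _ _ => PF.nil)⟩
  obtain ⟨e, he⟩ : ∃ e : M → Tk, Function.Surjective e := by
    obtain ⟨g⟩ : Nonempty (Tk ↪ M) := hTk
    exact ⟨Function.invFun g, Function.invFun_surjective g.injective⟩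
  let kd : K → Kd := fun b => if (e (ofLex b).2).1 = .tr then .coh else (e (ofLex b).2).1
  let lay : K → L := fun b => (e (ofLex b).2).2.1
  let cod : K → Cd := fun b => (e (ofLex b).2).2.2
  have hkd : ∀ b, kd b ≠ .tr := by
    intro b
    simp only [kd]
    split_ifs with h
    · intro h'; exact Kd.noConfusion h'
    · exact h
  have hex : ∀ (i : A) (κ : Kd) (x : L) (c : Cd), κ ≠ .tr →
      ∃ b : K, (ofLex b).1 = i ∧ kd b = κ ∧ lay b = x ∧ cod b = c := by
    intro i κ x c hκ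
    obtain ⟨j, hj⟩ := he (κ, x, c)
    refine ⟨toLex (i, j), rfl, ?_, ?_, ?_⟩
    · simp only [kd, ofLex_toLex, hj, if_neg hκ]
    · simp only [lay, ofLex_toLex, hj]
    · simp only [cod, ofLex_toLex, hj]
  let θ : Kd → Cardinal.{u} := fun κ => match κ with
    | .tr => th 1
    | .coh => th 1
    | .loc => th 1
    | .hech => th 2
    | .rnd => th 3
    | .ev => th 4
    | .et => th 4
  have hθj : ∀ κ, ∃ j : Fin 8, 1 ≤ j ∧ j ≤ 4 ∧ θ κ = th j := by
    intro κ
    cases κ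
    · exact ⟨1, by decide, by decide, rfl⟩
    · exact ⟨1, by decide, by decide, rfl⟩
    · exact ⟨1, by decide, by decide, rfl⟩
    · exact ⟨2, by decide, by decide, rfl⟩
    · exact ⟨3, by decide, by decide, rfl⟩
    · exact ⟨4, by decide, by decide, rfl⟩
    · exact ⟨4, by decide, by decide, rfl⟩
  have hth4 : ∀ j : Fin 8, 1 ≤ j → j ≤ 4 → th j ≤ th 4 := by
    intro j h1 h2
    rcases h2.lt_or_eq with h | h
    · exact hth j 4 h1 h (by decide)
    · rw [h]
  have hθT : ∀ κ, θ κ ≤ #T := by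
    intro κ
    obtain ⟨j, h1, h2, h3⟩ := hθj κ
    rw [h3, hT]; exact hth4 j h1 h2
  have h46 : ∀ j : Fin 8, j ≤ 4 → j ≤ 6 := fun j h => h.trans (by decide)
  have hθinf : ∀ κ, ℵ₀ ≤ θ κ := by
    intro κ
    obtain ⟨j, h1, h2, h3⟩ := hθj κ
    rw [h3]; exact hinf j h1 (h46 j h2)
  have hth47 : th 4 ≤ l 7 := (hthl 4 (by decide) (by decide)).le.trans (hC.lt 4 7 (by decide)).le
  have hTex : ∀ κ, ∃ s : Set T, #s = θ κ := fun κ => le_mk_iff_exists_set.1 (hθT κ)
  choose Ts hTs using hTex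
  obtain ⟨sm, hsm⟩ : ∃ s : Set Λ, #s = th 3 := le_mk_iff_exists_set.1 (by
    rw [hΛ]; exact (hth4 3 (by decide) (by decide)).trans hth47)
  have hsmne : Nonempty sm := by
    rw [← mk_ne_zero_iff, hsm]
    intro h
    have := hinf 3 (by decide) (by decide)
    rw [h] at this; exact absurd this (not_le.2 Cardinal.aleph0_pos)
  let Θ : Type u := (ℕ → sm) × ULift.{u} (List ℕ)
  have hΘ : #Θ ≤ th 3 := by
    have h1 : #(ℕ → sm) ≤ th 3 := card_seq (hC.ct 3 (by decide)) hsm.le ℕ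
    have h2 : #(ULift.{u} (List ℕ)) ≤ th 3 :=
      mk_le_aleph0.trans (hinf 3 (by decide) (by decide))
    have h3 : #Θ = #(ℕ → sm) * #(ULift.{u} (List ℕ)) := by
      simp only [Θ, mk_prod, Cardinal.lift_id]
    rw [h3]
    calc #(ℕ → sm) * #(ULift.{u} (List ℕ)) ≤ th 3 * th 3 := mul_le_mul' h1 h2
      _ = th 3 := Cardinal.mul_eq_self (hinf 3 (by decide) (by decide))
  let P : Par K Λ L Θ :=
    { kd := kd
      lay := lay
      rd := fun θ l => (θ.1 l : Λ)
      rt := fun θ => θ.2.down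
      sm := sm
      θ := θ
      bk := fun b => cod b '' Ts (kd b) }
  have hP : ParOK P :=
    { kd := hkd
      two := fun κ => (by
        have h2 : (2 : Cardinal.{u}) ≤ ℵ₀ := (nat_lt_aleph0 2).le
        exact h2.trans (hθinf κ))
      ct := fun κ => by
        obtain ⟨j, h1, h2, h3⟩ := hθj κ
        change θ κ ^ ℵ₀ = θ κ
        rw [h3]; exact hC.ct j h1
      sm := fun κ hκ => by
        change θ κ ≤ #(sm)
        rw [hsm]
        rcases isX_cases.1 hκ with h | h | h | h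
        · rw [h]; exact hth 1 3 (by decide) (by decide) (by decide)
        · rw [h]; exact hth 1 3 (by decide) (by decide) (by decide)
        · rw [h]; exact hth 2 3 (by decide) (by decide) (by decide)
        · rw [h]
      lam := fun κ => by
        rw [hΛ]
        exact (hθT κ).trans (by rw [hT]; exact hth47)
      rnd := hΘ
      ev := hth 3 4 (by decide) (by decide) (by decide)
      bk := fun b _ => mk_image_le.trans (hTs (kd b)).le
      K := by rw [hΛ]; exact hKc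
      Λ2 := by
        rw [hΛ]
        have h2 : (2 : Cardinal.{u}) ≤ ℵ₀ := (nat_lt_aleph0 2).le
        exact h2.trans h7inf
      Λc := by rw [hΛ]; exact h7c }
  have hcb : CtbBdd L := ⟨⟨x₀⟩, fun s => by
    obtain ⟨x, hx⟩ := hbL (Set.range s) (lt_of_le_of_lt
      (le_aleph0_iff_set_countable.2 (countable_range s)) hl5)
    exact ⟨x, fun n => (hx _ (mem_range_self n)).le⟩⟩
  obtain ⟨S, hSkd, hSlay, φ, hφ, hfin⟩ := exists_final (K := K) (Λ := Λ) (L := L) (Θ := Θ)
    hS hR hSZ hZl hM hLC (fun S => hccc K Λ L S) hL hcb hB hSu hLi (P := P) hP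
  obtain ⟨c, hc⟩ := exists_code (hccc K Λ L S)
  have hTrZ : ∀ b, Tr S.D (P.Z b) := by
    intro b
    have hZ : P.Z b = Iio b ∩ S.Zl (P.lay b) := by
      ext x
      simp only [Par.Z, Sys.Zl, mem_inter_iff, mem_ofPred_eq, hSlay]
    rw [hZ]
    exact (Tr_of_lower (isLowerSet_Iio b)).inter (hZl K Λ L S _)
  -- bounds
  have hbdA : ∀ X : Set (BB S.D), #X < l 6 → ∃ i : A, ∀ b : K, (ofLex b).1 = i →
      suppX c X ⊆ Iio b := by
    intro X hX
    have h1 := suppX_card c X hl6 hX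
    obtain ⟨i, hi⟩ := hbA ((fun b : K => (ofLex b).1) '' suppX c X) (mk_image_le.trans_lt h1)
    refine ⟨i, fun b hb g hg => ?_⟩
    have h2 := hi _ ⟨g, hg, rfl⟩
    rw [mem_Iio, Prod.Lex.lt_iff]
    left
    rw [hb]; exact h2
  have hbdL : ∀ X : Set (BB S.D), #X < l 5 → ∃ x : L, ∀ g ∈ suppX c X, lay g < x := by
    intro X hX
    have h1 := suppX_card c X hl5 hX
    obtain ⟨x, hx⟩ := hbL (lay '' suppX c X) (mk_image_le.trans_lt h1)
    exact ⟨x, fun g hg => hx _ ⟨g, hg, rfl⟩⟩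
  have h56 : l 5 < l 6 := hC.lt 5 6 (by decide)
  have hsubZ : ∀ X : Set (BB S.D), #X < l 5 → ∃ (i : A) (x : L), ∀ b : K, (ofLex b).1 = i →
      lay b = x → suppX c X ⊆ P.Z b := by
    intro X hX
    obtain ⟨i, hi⟩ := hbdA X (hX.trans h56)
    obtain ⟨x, hx⟩ := hbdL X hX
    refine ⟨i, x, fun b hb hbx g hg => ⟨hi b hb hg, ?_⟩⟩
    change lay g ≤ lay b
    rw [hbx]
    exact (hx g hg).le
  have hf2 : ∀ κ : Kd, κ ≠ .tr → ∀ X : Set (BB S.D), #X ≤ θ κ →
      ∃ b, S.kd b = κ ∧ X ⊆ S.W b := by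
    intro κ hκ X hX
    have hX5 : #X < l 5 := by
      refine hX.trans_lt ((hθT κ).trans_lt ?_)
      rw [hT]
      exact (hthl 4 (by decide) (by decide)).trans (hC.lt 4 5 (by decide))
    obtain ⟨i, x, hix⟩ := hsubZ X hX5
    rcases isEmpty_or_nonempty X with hE | hE
    · obtain ⟨b, hb1, hb2, hb3, hb4⟩ := hex i κ x (fun _ _ => PF.nil) hκ
      refine ⟨b, by rw [hSkd]; exact hb2, fun U hU => ?_⟩
      exact absurd hE (not_isEmpty_iff.2 ⟨⟨U, hU⟩⟩)
    · obtain ⟨g, hg⟩ := exists_enum (Ts κ) (X := X) (by rw [hTs]; exact hX)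
      obtain ⟨b, hb1, hb2, hb3, hb4⟩ := hex i κ x (fun t => c (g t)) hκ
      refine ⟨b, by rw [hSkd]; exact hb2, fun U hU => ?_⟩
      have hsub := hix b hb1 hb3
      rcases hc U with h | h
      · rw [h]; exact (S.ss b).bot
      · obtain ⟨t, ht, hgt⟩ := hg ⟨U, hU⟩
        have hdom : ∀ n, (c U n).dom ⊆ P.Z b := fun n y hy =>
          hsub (mem_iUnion.2 ⟨⟨U, hU⟩, mem_iUnion.2 ⟨n, hy⟩⟩)
        have h1 := (hfin b).1 (c U) ⟨t, by
          change t ∈ Ts (kd b)
          rw [hb2]; exact ht, by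
          rw [hb4]
          simp only [hgt]⟩ (fun n => (hdom n).trans inter_subset_left) (by
          rw [← h]
          exact mem_SZ_of_supp hSZ hc (hTrZ b) hsub hU)
        rw [h]; exact h1
  have hf3 : ∀ X : Set (BB S.D), ∀ b, P.kd b = .et → suppX c X ⊆ P.Z b → X ⊆ S.W b := by
    intro X b hb hsub
    rw [(hfin b).2.2.1 hb]
    exact mem_SZ_of_supp hSZ hc (hTrZ b) hsub
  have hsz : ∀ b, kd b ≠ .et → #(CndS (S.kd b) (S.W b)) ≤ θ (kd b) ∧
      #(CndR (S.W b)) ≤ θ (kd b) := by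
    intro b hb
    have h1 := (hfin b).2.2.2.1 hb
    exact ⟨card_CndS (hP.two _) (hP.ct _) h1, card_CndR (hP.two _) (hP.ct _) h1⟩
  have hctb : ∀ X : Set (BB S.D), X.Countable → #X < l 5 := fun X hX =>
    lt_of_le_of_lt (le_aleph0_iff_set_countable.2 hX) hl5
  refine ⟨{ K := K, Λ := Λ, L := L, Θ := Θ, iK := inferInstance, wK := inferInstance,
            iL := inferInstance, S := S, rd := P.rd, rt := P.rt, φ := φ, good := hφ,
            gus := ?_, cld := ?_, sz1 := ?_, sz2 := ?_, sz3 := ?_, sz4 := ?_, sz := ?_,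
            f1 := ?_, f21 := ?_, f22 := ?_, f23 := ?_, f24 := ?_, f3 := ?_, f3' := ?_,
            f4 := ?_, f5 := ?_ }⟩
  · refine ⟨?_, ?_⟩
    · intro b hb s
      rw [hSkd] at hb
      have h1 := (hfin b).2.2.2.2 hb
      choose g hg1 hg2 using fun l => h1 (s l)
      refine ⟨(fun l => ⟨g l, hg1 l⟩, ⟨[]⟩), fun l => ⟨(hg2 l).1, fun hr => ?_⟩⟩
      rw [hSkd] at hr
      exact (hg2 l).2 hr
    · intro t
      exact ⟨(fun _ => Classical.arbitrary sm, ⟨t⟩), rfl⟩
  · intro b hb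
    rw [hSkd] at hb
    exact (hfin b).2.1 hb
  · intro b hb
    rw [hSkd] at hb
    have hb' : kd b = .coh ∨ kd b = .loc := hb
    have hne : kd b ≠ .et := by rcases hb' with h | h <;> rw [h] <;> intro h <;> exact Kd.noConfusion h
    have h1 := (hsz b hne).1
    have h2 : θ (kd b) = th 1 := by rcases hb' with h | h <;> rw [h]
    rwa [h2] at h1
  · intro b hb
    rw [hSkd] at hb
    have hb' : kd b = .hech := hb
    have h1 := (hsz b (by rw [hb']; intro h; exact Kd.noConfusion h)).1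
    have h2 : θ (kd b) = th 2 := by rw [hb']
    rwa [h2] at h1
  · intro b hb
    rw [hSkd] at hb
    have hb' : kd b = .rnd := hb
    have h1 := (hsz b (by rw [hb']; intro h; exact Kd.noConfusion h)).2
    have h2 : θ (kd b) = th 3 := by rw [hb']
    rwa [h2] at h1
  · intro b hb
    rw [hSkd] at hb
    have hb' : kd b = .ev := hb
    have h1 := (hsz b (by rw [hb']; intro h; exact Kd.noConfusion h)).1
    have h2 : θ (kd b) = th 4 := by rw [hb']
    rwa [h2] at h1
  · have := card_BB (hccc K Λ L S) hP.K hP.Λ2 hP.Λc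
    rwa [hΛ] at this
  · intro X hX
    obtain ⟨i, hi⟩ := hbdA X hX
    obtain ⟨b, hb1, hb2, _, _⟩ := hex i .coh x₀ (fun _ _ => PF.nil)
      (by intro h; exact Kd.noConfusion h)
    exact ⟨b, by rw [hSkd]; exact hb2,
      mem_SZ_of_supp hSZ hc (Tr_of_lower (isLowerSet_Iio b)) (hi b hb1)⟩
  · intro X hX
    exact hf2 .loc (by intro h; exact Kd.noConfusion h) X hX
  · intro X hX
    exact hf2 .hech (by intro h; exact Kd.noConfusion h) X hX
  · intro X hX
    exact hf2 .rnd (by intro h; exact Kd.noConfusion h) X hX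
  · intro X hX
    exact hf2 .ev (by intro h; exact Kd.noConfusion h) X hX
  · intro X hX
    obtain ⟨i, x, hix⟩ := hsubZ X hX
    obtain ⟨b, hb1, hb2, hb3, _⟩ := hex i .et x (fun _ _ => PF.nil)
      (by intro h; exact Kd.noConfusion h)
    exact ⟨b, by rw [hSkd]; exact hb2, hf3 X b hb2 (hix b hb1 hb3)⟩
  · have h1 : ∀ ix : A × L, ∃ b : K, (ofLex b).1 = ix.1 ∧ kd b = .et ∧ lay b = ix.2 := by
      intro ix
      obtain ⟨b, hb1, hb2, hb3, _⟩ := hex ix.1 .et ix.2 (fun _ _ => PF.nil)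
        (by intro h; exact Kd.noConfusion h)
      exact ⟨b, hb1, hb2, hb3⟩
    choose b hb1 hb2 hb3 using h1
    have hinj : Function.Injective b := by
      intro ix iy h
      exact Prod.ext (by rw [← hb1, ← hb1, h]) (by rw [← hb3, ← hb3, h])
    refine ⟨Set.range b, ?_, ?_, ?_⟩
    · rw [mk_range_eq b hinj, mk_prod, Cardinal.lift_id, Cardinal.lift_id, hA, hLc]
      exact Cardinal.mul_eq_left hl6.le h56.le (by
        intro h; rw [h] at hl5; exact absurd hl5 (by simp))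
    · rintro _ ⟨ix, rfl⟩
      rw [hSkd]; exact hb2 ix
    · intro X hX
      obtain ⟨i, x, hix⟩ := hsubZ X (hctb X hX)
      exact ⟨b (i, x), mem_range_self _, hf3 X _ (hb2 (i, x)) (hix _ (hb1 (i, x)) (hb3 (i, x)))⟩
  · have h1 : ∀ x : L, ∃ b : K, kd b = .coh ∧ lay b = x := by
      intro x
      obtain ⟨b, hb1, hb2, hb3, _⟩ := hex a₀ .coh x (fun _ _ => PF.nil)
        (by intro h; exact Kd.noConfusion h)
      exact ⟨b, hb2, hb3⟩
    choose b hb2 hb3 using h1
    have hinj : Function.Injective b := by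
      intro x y h
      rw [← hb3 x, ← hb3 y, h]
    refine ⟨Set.range b, ?_, ?_, ?_⟩
    · rw [mk_range_eq b hinj, hLc]
    · rintro _ ⟨x, rfl⟩
      rw [hSkd]; exact hb2 x
    · intro X hX
      obtain ⟨y, hy⟩ := hbdL X (hctb X hX)
      obtain ⟨x, hx⟩ := hbL {y} (by
        rw [mk_singleton]
        exact one_lt_aleph0.trans hl5)
      have hyx : y < x := hx y (mem_singleton y)
      refine ⟨b x, mem_range_self x, S.Zl y, hZl K Λ L S y, ?_, ?_⟩
      · intro h
        have h' : S.lay (b x) ≤ y := h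
        rw [hSlay] at h'
        change lay (b x) ≤ y at h'
        rw [hb3 x] at h'
        exact absurd h' (not_le.2 hyx)
      · refine mem_SZ_of_supp hSZ hc (hZl K Λ L S y) fun g hg => ?_
        change S.lay g ≤ y
        rw [hSlay]
        exact (hy g hg).le
  · refine hCd7.trans ?_
    have h1 : ∀ d : Cd, ∃ b : K, kd b = .coh ∧ cod b = d := by
      intro d
      obtain ⟨b, hb1, hb2, hb3, hb4⟩ := hex a₀ .coh x₀ d
        (by intro h; exact Kd.noConfusion h)
      exact ⟨b, hb2, hb4⟩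
    choose b hb2 hb3 using h1
    refine mk_le_of_injective (f := fun d => (⟨b d, by
      change S.kd (b d) = .coh
      rw [hSkd]; exact hb2 d⟩ : {i | S.kd i = .coh})) ?_
    intro d d' h
    have h2 := congrArg Subtype.val h
    simp only at h2
    rw [← hb3 d, ← hb3 d', h2]

end CI
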