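import Pool.Agent.CI.C.StepStm

/-!
# Project CI, core: layers are closed under memory, layers are closed, closed memories exist
(row T9)
-/

set_option autoImplicit false

open Set Cardinal Pool.Agent.CL

namespace CI

universe u

/-- the layers are closed under memory -/
theorem zlStm (h1 : SCmpStm.{u}) (h2 : RCmpStm.{u}) : ZlStm.{u} := by
  intro K Λ L _ _ S x b hb c' c
  rcases S.dv_mem_W b c' c (fun κ W hW c d => (h1 _ W κ hW c d c).2.2)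
    (fun W hW c d => (h2 _ W hW c d c).2.2) with h | h
  · refine SZ_mono ?_ (S.sub b h)
    rintro g ⟨-, hg⟩
    exact le_trans (b := S.lay b) hg hb
  · rw [h]
    intro p
    exact ⟨fun _ => RO.mem_top (Q := PD S.D) _, fun _ => RO.mem_top (Q := PD S.D) _⟩

/-- a complete subalgebra is a `σ`-subalgebra -/
private theorem mem_isSS {B : Type u} [CompleteBooleanAlgebra B] {Y : Set B} (h : IsCS Y) :
    IsSS Y where
  compl := h.compl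
  iSup f hf := h.sSup (range f) (by rintro _ ⟨n, rfl⟩; exact hf n)
  bot := by
    have := h.sSup ∅ (empty_subset _)
    rwa [sSup_empty] at this

/-- the cylinders over a layer are closed -/
theorem layCldStm (_h1 : TrStm.{u}) (h2 : SZStm.{u}) (h3 : ZlStm.{u}) (h4 : DecStm.{u}) :
    LayCldStm.{u} := by
  intro K Λ L Θ _ _ S rd rt I φ hI hG hC x
  have hT : Tr S.D (I ∩ S.Zl x) := (Tr_of_lower hI).inter (h3 K Λ L S x)
  refine ⟨?_, mem_isSS (h2 K Λ S.D _ hT).1⟩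
  intro z hz a
  exact h4 K Λ Θ S.D _ hT hC (φ z) (hG.layer I subset_rfl hI x z hz) a

/-- a small set of values is dense -/
private theorem mem_val {A V : Type u} [Preorder A] {κ : Cardinal.{u}} (P : A → V → Prop)
    (T : Set V) (hd : ∀ a, ∃ a' ≤ a, ∃ U ∈ T, P a' U) (hm : ∀ a a' U, a' ≤ a → P a U → P a' U)
    (hcc : ∀ s : Set A, (∀ a ∈ s, ∀ b ∈ s, a ≠ b → ¬ ∃ c, c ≤ a ∧ c ≤ b) → #s ≤ κ) :
    ∃ Y ⊆ T, #Y ≤ κ ∧ ∀ a, ∃ a' ≤ a, ∃ U ∈ Y, P a' U := by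
  obtain ⟨J, hJ⟩ := zorn_subset {J : Set A | J ⊆ {a | ∃ U ∈ T, P a U} ∧
      ∀ a ∈ J, ∀ b ∈ J, a ≠ b → ¬ ∃ c, c ≤ a ∧ c ≤ b} (by
    intro c hc hch
    refine ⟨⋃₀ c, ⟨sUnion_subset fun s hs => (hc hs).1, ?_⟩, fun s hs => subset_sUnion_of_mem hs⟩
    rintro i ⟨s, hs, hi⟩ j ⟨t, ht, hj⟩ hij
    rcases hch.total hs ht with h | h
    · exact (hc ht).2 i (h hi) j hj hij
    · exact (hc hs).2 i hi j (h hj) hij)
  obtain ⟨hJ1, hJ2⟩ := hJ.prop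
  choose U hU1 hU2 using fun a : J => hJ1 a.2
  refine ⟨range U, ?_, mk_range_le.trans (hcc J hJ2), ?_⟩
  · rintro _ ⟨a, rfl⟩
    exact hU1 a
  intro a
  obtain ⟨a1, ha1, V1, hV1, hP1⟩ := hd a
  have hcomp : ∃ a2 : J, ∃ c, c ≤ a1 ∧ c ≤ (a2 : A) := by
    by_contra hcon
    push Not at hcon
    have hins : insert a1 J ∈ {J : Set A | J ⊆ {a | ∃ U ∈ T, P a U} ∧
        ∀ a ∈ J, ∀ b ∈ J, a ≠ b → ¬ ∃ c, c ≤ a ∧ c ≤ b} := by
      refine ⟨insert_subset ⟨V1, hV1, hP1⟩ hJ1, ?_⟩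
      rintro i (rfl | hi) j (rfl | hj) hij
      · exact absurd rfl hij
      · rintro ⟨c, hc1, hc2⟩
        exact hcon ⟨j, hj⟩ c hc1 hc2
      · rintro ⟨c, hc1, hc2⟩
        exact hcon ⟨i, hi⟩ c hc2 hc1
      · exact hJ2 i hi j hj hij
    have hmem : a1 ∈ J := hJ.le_of_ge hins (subset_insert a1 J) (mem_insert a1 J)
    exact hcon ⟨a1, hmem⟩ a1 le_rfl le_rfl
  obtain ⟨a2, c, hc1, hc2⟩ := hcomp
  exact ⟨c, hc1.trans ha1, U a2, ⟨a2, rfl⟩, hm _ _ _ hc2 (hU2 a2)⟩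

/-- closed memories exist -/
theorem memStm (h1 : CloStm.{u}) (h2 : AFccStm.{u}) (h3 : LayCldStm.{u}) (h4 : IAStm.{u}) :
    MemStm.{u} := by
  classical
  intro K Λ L Θ _ _ S rd rt I φ θ₀ θ hI hG hC hθ2 hθ0 hθ0θ hθ hθ0' hΘ x X hX hXθ
  obtain ⟨hCld, hSS⟩ := h3 K Λ L Θ S rd rt I φ hI hG hC x
  have hθi : ℵ₀ ≤ θ := hθ0.trans hθ0θ
  set Z : Set (BB S.D) := SZ S.D (I ∩ S.Zl x) with hZ
  have hval : ∀ z : ℕ → BB S.D, ∃ Y : Set (BB S.D), Y ⊆ Z ∧ #Y ≤ θ ∧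
      ((∀ l, z l ∈ Z) → ∀ a : AF K Θ, ∃ a' ≤ a, ∃ U ∈ Y,
        iA S.D a' ⊓ φ z = iA S.D a' ⊓ iB S.D Θ U) := by
    intro z
    by_cases hz : ∀ l, z l ∈ Z
    · obtain ⟨Y, hY1, hY2, hY3⟩ := mem_val
        (P := fun (a : AF K Θ) (U : BB S.D) => iA S.D a ⊓ φ z = iA S.D a ⊓ iB S.D Θ U) Z
        (hCld z hz) (fun a a' U haa' h => by
          have hle : iA S.D a' ≤ iA S.D a := (h4 K Λ Θ S.D).2.2.2.1 a a' haa'
          calc iA S.D a' ⊓ φ z = iA S.D a' ⊓ (iA S.D a ⊓ φ z) := by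
                rw [← inf_assoc, inf_eq_left.2 hle]
            _ = iA S.D a' ⊓ (iA S.D a ⊓ iB S.D Θ U) := by rw [h]
            _ = iA S.D a' ⊓ iB S.D Θ U := by rw [← inf_assoc, inf_eq_left.2 hle])
        (h2 K Θ θ₀ hθ0 hθ0' hΘ)
      exact ⟨Y, hY1, hY2.trans hθ0θ, fun _ => hY3⟩
    · exact ⟨∅, empty_subset _, by simp, fun h => absurd h hz⟩
  choose Y hY1 hY2 hY3 using hval
  obtain ⟨W, hW1, hW2, hW3, hW4⟩ := h1 (BB S.D) θ
    (fun z => Y z ∪ {(z 0)ᶜ, ⨆ n, z n}) Z (X ∪ {⊥}) hθ2 hθ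
    (fun z => (mk_union_le _ _).trans (add_le_of_le hθi (hY2 z)
      ((Set.toFinite _).lt_aleph0.le.trans hθi)))
    (by
      intro z hz
      refine union_subset (hY1 z) ?_
      rintro U (rfl | rfl)
      · exact hSS.compl _ (hz 0)
      · exact hSS.iSup z hz)
    (union_subset hX (by rintro U rfl; exact hSS.bot))
    ((mk_union_le _ _).trans (add_le_of_le hθi hXθ
      ((Set.toFinite _).lt_aleph0.le.trans hθi)))
    ⟨⊥, Or.inr rfl⟩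
  refine ⟨W, subset_union_left.trans hW1, hW2, hW3, ⟨?_, ?_, hW1 (Or.inr rfl)⟩, ?_⟩
  · intro a ha
    exact hW4 (fun _ => a) (fun _ => ha) (Or.inr (Or.inl rfl))
  · intro f hf
    exact hW4 f hf (Or.inr (Or.inr rfl))
  · intro z hz a
    obtain ⟨a', ha', U, hU, h⟩ := hY3 z (fun l => hW2 (hz l)) a
    exact ⟨a', ha', U, hW4 z hz (Or.inl hU), h⟩

end CI
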