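import Pool.Agent.CI.C.CndStm

/-!
# Project CI, core: lower bounds with the same stem, one more value, trivial conditions
-/

set_option autoImplicit false

open Set

namespace CI

universe u

section

variable {B : Type u} [CompleteBooleanAlgebra B]

private theorem mrg_sup {W : Set B} (hW : IsSS W) {a b : B} (ha : a ∈ W) (hb : b ∈ W) :
    a ⊔ b ∈ W := by
  have h1 : a ⊔ b = ⨆ n : ℕ, (if n = 0 then a else b) := by
    apply le_antisymm
    · refine sup_le ?_ ?_
      · exact le_iSup_of_le 0 (by rw [if_pos rfl])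
      · exact le_iSup_of_le 1 (by rw [if_neg one_ne_zero])
    · refine iSup_le fun n => ?_
      split_ifs
      · exact le_sup_left
      · exact le_sup_right
  rw [h1]
  refine hW.iSup _ fun n => ?_
  split_ifs
  · exact ha
  · exact hb

private theorem mrg_dec (a b : ℕ → B) (s : Finset ℕ) : ∀ x : B, x ≠ ⊥ →
    x ≤ s.inf (fun j => a j ⊔ b j) → ∃ y : B, y ≠ ⊥ ∧ y ≤ x ∧ ∀ j ∈ s, y ≤ a j ∨ y ≤ b j := by
  classical
  induction s using Finset.induction_on with
  | empty =>
    intro x hx _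
    exact ⟨x, hx, le_rfl, fun j hj => absurd hj (Finset.notMem_empty j)⟩
  | insert i s _ ih =>
    intro x hx hxs
    rw [Finset.inf_insert] at hxs
    obtain ⟨y, hy, hyx, hys⟩ := ih x hx (hxs.trans inf_le_right)
    have h1 : y ≤ a i ⊔ b i := (hyx.trans hxs).trans inf_le_left
    have h2 : y = (y ⊓ a i) ⊔ (y ⊓ b i) := by
      rw [← inf_sup_left, inf_eq_left.2 h1]
    by_cases h3 : y ⊓ a i = ⊥
    · have h4 : y ⊓ b i ≠ ⊥ := by
        intro h4
        rw [h3, h4, bot_sup_eq] at h2
        exact hy h2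
      refine ⟨y ⊓ b i, h4, inf_le_left.trans hyx, fun j hj => ?_⟩
      rcases Finset.mem_insert.1 hj with rfl | hj
      · exact Or.inr inf_le_right
      · exact (hys j hj).imp inf_le_left.trans inf_le_left.trans
    · refine ⟨y ⊓ a i, h3, inf_le_left.trans hyx, fun j hj => ?_⟩
      rcases Finset.mem_insert.1 hj with rfl | hj
      · exact Or.inl inf_le_right
      · exact (hys j hj).imp inf_le_left.trans inf_le_left.trans

private theorem mrg_small {f : ℕ → B} {n : ℕ} (h : ∀ s : Finset ℕ, s.card = n + 1 → s.inf f = ⊥)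
    {y : B} (hy : y ≠ ⊥) (u : Finset ℕ) (hu : ∀ j ∈ u, y ≤ f j) : u.card ≤ n := by
  by_contra hc
  push Not at hc
  obtain ⟨s, hs, hs'⟩ := Finset.exists_subset_card_eq (Nat.succ_le_of_lt hc)
  have h1 : y ≤ s.inf f := Finset.le_inf fun j hj => hu j (hs hj)
  rw [h s hs', le_bot_iff] at h1
  exact hy h1

private theorem mrg_wd {a b : ℕ → B} {n m : ℕ}
    (ha : ∀ s : Finset ℕ, s.card = n + 1 → s.inf a = ⊥)
    (hb : ∀ s : Finset ℕ, s.card = m + 1 → s.inf b = ⊥) (s : Finset ℕ)
    (hs : n + m < s.card) : s.inf (fun j => a j ⊔ b j) = ⊥ := by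
  classical
  by_contra hne
  obtain ⟨y, hy, -, hys⟩ := mrg_dec a b s _ hne le_rfl
  have h1 := mrg_small ha hy (s.filter fun j => y ≤ a j) (fun j hj => (Finset.mem_filter.1 hj).2)
  have h2 := mrg_small hb hy (s.filter fun j => ¬ y ≤ a j) (fun j hj => by
    have h3 := Finset.mem_filter.1 hj
    exact (hys j h3.1).resolve_left h3.2)
  have h3 := Finset.card_filter_add_card_filter_not (s := s) (fun j => y ≤ a j)
  omega

private theorem mrg_cmp {κ : Kd} {W : Set B} (e c : CndS κ W) (ht : e.t = c.t)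
    (hf : ∀ k j, c.f k j ≤ e.f k j) : e.cmp c = ⊤ := by
  unfold CndS.cmp
  rw [if_pos (by rw [ht]), inf_eq_top_iff]
  constructor
  · rw [iInf_eq_top]
    intro k
    rw [iInf_eq_top]
    intro j
    exact himp_eq_top_iff.2 (hf k j)
  · rw [iInf_eq_top]
    intro k
    rw [iInf_eq_top]
    intro hk
    rw [ht] at hk
    exact absurd hk.2 (not_lt.2 hk.1)

end

theorem sMrgStm (h : KwStm) : SMrgStm.{u} := by
  intro B _ W κ hW c d ht hl
  refine ⟨⟨c.t, c.N + d.N, fun k j => c.f k j ⊔ d.f k j, fun k j => mrg_sup hW (c.mem k j)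
    (d.mem k j), fun k s hs => ?_, hl⟩, rfl, rfl, fun k j => rfl, ?_, ?_⟩
  · refine mrg_wd (c.wd k) (d.wd k) s ?_
    have h1 := (h κ).1 c.N d.N k
    omega
  · exact mrg_cmp _ c rfl fun k j => le_sup_left
  · exact mrg_cmp _ d ht fun k j => le_sup_right

theorem sOneStm : SOneStm.{u} := by
  intro B _ W κ _ c v
  have hlen : (c.t ++ [v]).length = c.t.length + 1 := by
    rw [List.length_append, List.length_singleton]
  refine ⟨⟨c.t ++ [v], c.N, c.f, c.mem, c.wd, c.ln.trans (by omega)⟩, rfl, rfl, rfl, ?_⟩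
  unfold CndS.cmp
  rw [if_pos (List.prefix_append c.t [v])]
  have h1 : (⨅ k, ⨅ j, c.f k j ⇨ c.f k j) = ⊤ := by
    rw [iInf_eq_top]
    intro k
    rw [iInf_eq_top]
    intro j
    exact himp_self
  have hat : at' (c.t ++ [v]) c.t.length = v := by
    unfold at'
    rw [List.getD_eq_getElem?_getD, List.getElem?_append_right le_rfl, Nat.sub_self]
    rfl
  show (⨅ k, ⨅ j, c.f k j ⇨ c.f k j) ⊓ _ = _
  rw [h1, top_inf_eq]
  apply le_antisymm
  · refine (iInf_le _ c.t.length).trans ((iInf_le _ ⟨le_rfl, by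
      show c.t.length < (c.t ++ [v]).length
      omega⟩).trans ?_)
    show (⨅ j : ℕ, ⨅ _ : j ∈ κ.Bad c.t.length (at' (c.t ++ [v]) c.t.length),
      (c.f c.t.length j)ᶜ) ≤ _
    rw [hat]
  · refine le_iInf fun k => le_iInf fun hk => ?_
    have hk2 : k < (c.t ++ [v]).length := hk.2
    have hk' : k = c.t.length := by
      have := hk.1
      omega
    subst hk'
    show _ ≤ (⨅ j : ℕ, ⨅ _ : j ∈ κ.Bad c.t.length (at' (c.t ++ [v]) c.t.length),
      (c.f c.t.length j)ᶜ)
    rw [hat]

theorem sTrivStm (h : KwStm) : STrivStm.{u} := by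
  intro B _ W κ hW t
  constructor
  · refine ⟨⟨t, 0, fun _ _ => ⊥, fun _ _ => hW.bot, fun k s hs => ?_, ?_⟩, rfl, rfl,
      fun _ _ => rfl⟩
    · rw [(h κ).2.1 k, zero_add] at hs
      obtain ⟨j, rfl⟩ := Finset.card_eq_one.1 hs
      rw [Finset.inf_singleton]
    · cases κ <;> exact Nat.zero_le _
  · intro c d ht hf
    unfold CndS.cmp
    rw [if_pos ht, inf_eq_top_iff]
    constructor
    · rw [iInf_eq_top]
      intro k
      rw [iInf_eq_top]
      intro j
      rw [hf, bot_himp]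
    · rw [iInf_eq_top]
      intro k
      rw [iInf_eq_top]
      intro _
      rw [iInf_eq_top]
      intro j
      rw [iInf_eq_top]
      intro _
      rw [hf, compl_bot]

end CI
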