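import Pool.Agent.CI.C.MdlStm

/-!
# Project CI: names of the null sets of a function (CI-M1)
-/

set_option autoImplicit false

open Set Cardinal

namespace CI

universe u

section

variable {B : Type u} [CompleteBooleanAlgebra B]

/-- finitely many values of a name of a function can be decided -/
theorem nulEx_dec (c : Fu B) (F : Finset ℕ) (u : B) (hu : u ≠ ⊥) :
    ∃ v : ℕ → ℕ, ∃ w : B, w ≠ ⊥ ∧ w ≤ u ∧ ∀ n ∈ F, w ≤ c.f n (v n) := by
  classical
  induction F using Finset.induction_on with
  | empty => exact ⟨fun _ => 0, u, hu, le_refl _, fun n hn => absurd hn (Finset.notMem_empty n)⟩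
  | insert n F hn ih =>
    obtain ⟨v, w, h1, h2, h3⟩ := ih
    have h4 : ∃ j, w ⊓ c.f n j ≠ ⊥ := by
      by_contra hc
      push Not at hc
      apply h1
      have h5 : w = ⨆ j, w ⊓ c.f n j := by
        rw [← inf_iSup_eq, c.top n, inf_top_eq]
      rw [h5, iSup_eq_bot]
      exact hc
    obtain ⟨j, hj⟩ := h4
    refine ⟨Function.update v n j, w ⊓ c.f n j, hj, inf_le_left.trans h2, fun i hi => ?_⟩
    by_cases hin : i = n
    · subst hin
      rw [Function.update_self]
      exact inf_le_right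
    · rw [Function.update_of_ne hin]
      exact inf_le_left.trans (h3 i ((Finset.mem_insert.1 hi).resolve_left hin))

/-- the sum of the measures of the blocks after `k` -/
theorem nulEx_sum (k m : ℕ) : 2 ^ k * ∑ n ∈ Finset.Ioc k m, 2 ^ (m - n) ≤ 2 ^ m := by
  rcases le_or_gt m k with h | h
  · rw [Finset.Ioc_eq_empty (by omega), Finset.sum_empty, mul_zero]
    exact Nat.zero_le _
  · obtain ⟨d, rfl⟩ := Nat.exists_eq_add_of_le h.le
    have h1 : ∀ d : ℕ, ∑ n ∈ Finset.Ioc k (k + d), 2 ^ (k + d - n) + 1 = 2 ^ d := by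
      intro d
      induction d with
      | zero => simp
      | succ d ih =>
        rw [← add_assoc, Finset.sum_Ioc_succ_top (by omega), Nat.sub_self, pow_zero]
        have h2 : ∑ n ∈ Finset.Ioc k (k + d), 2 ^ (k + d + 1 - n) =
            2 * ∑ n ∈ Finset.Ioc k (k + d), 2 ^ (k + d - n) := by
          rw [Finset.mul_sum]
          refine Finset.sum_congr rfl fun n hn => ?_
          have hn2 := (Finset.mem_Ioc.1 hn).2
          rw [← pow_succ', Nat.sub_add_comm hn2]
        rw [h2, pow_succ, ← ih]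
        ring
    rw [pow_add]
    exact Nat.mul_le_mul_left _ (by have := h1 d; omega)

open Classical in
theorem nulEx_le (c : Fu B) (k m : ℕ) (O : Finset ℕ → B) (P : ℕ → ℕ → Finset ℕ → Prop)
    (hO : ∀ a, a ⊆ Finset.range m →
      O a ≤ ⨆ n : ℕ, ⨆ v : ℕ, ⨆ _ : k < n ∧ n ≤ m ∧ P n v a, c.f n v)
    (hc : ∀ n v, k < n → n ≤ m → ∀ S : Finset (Finset ℕ),
      (∀ a ∈ S, a ⊆ Finset.range m ∧ P n v a) → S.card ≤ 2 ^ (m - n))
    (A : Finset (Finset ℕ)) (hA : ∀ a ∈ A, a ⊆ Finset.range m) (h2 : 2 ^ m < 2 ^ k * A.card) :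
    ⨅ a ∈ A, O a = ⊥ := by
  by_contra hu
  obtain ⟨v, w, h3, h4, h5⟩ := nulEx_dec c (Finset.Ioc k m) _ hu
  have h6 : A ⊆ (Finset.Ioc k m).biUnion fun n =>
      (Finset.range m).powerset.filter (P n (v n)) := by
    intro a ha
    rw [Finset.mem_biUnion]
    by_contra hcon
    push Not at hcon
    apply h3
    have h7 : w ≤ O a := h4.trans (iInf₂_le a ha)
    have h8 := h7.trans (hO a (hA a ha))
    have h9 : w = w ⊓ ⨆ n : ℕ, ⨆ v : ℕ, ⨆ _ : k < n ∧ n ≤ m ∧ P n v a, c.f n v :=
      (inf_eq_left.2 h8).symm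
    rw [h9, inf_iSup_eq, iSup_eq_bot]
    intro n
    rw [inf_iSup_eq, iSup_eq_bot]
    intro j
    rw [inf_iSup_eq, iSup_eq_bot]
    intro hn
    have hnm : n ∈ Finset.Ioc k m := Finset.mem_Ioc.2 ⟨hn.1, hn.2.1⟩
    have hne : v n ≠ j := by
      rintro rfl
      exact hcon n hnm (Finset.mem_filter.2 ⟨Finset.mem_powerset.2 (hA a ha), hn.2.2⟩)
    refine le_bot_iff.1 ((inf_le_inf_right _ (h5 n hnm)).trans ?_)
    rw [c.disj n _ _ hne]
  have h7 : A.card ≤ ∑ n ∈ Finset.Ioc k m, 2 ^ (m - n) := by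
    refine (Finset.card_le_card h6).trans (Finset.card_biUnion_le.trans ?_)
    refine Finset.sum_le_sum fun n hn => ?_
    have := Finset.mem_Ioc.1 hn
    refine hc n (v n) this.1 this.2 _ fun a ha => ?_
    exact ⟨Finset.mem_powerset.1 (Finset.mem_filter.1 ha).1, (Finset.mem_filter.1 ha).2⟩
  have h8 := Nat.mul_le_mul_left (2 ^ k) h7
  have h9 := nulEx_sum k m
  omega

/-! ### the first kind of names -/

theorem nulEx_blk (s m : ℕ) (a : Finset ℕ) :
    blk s m a = ∑ i ∈ (Finset.range m).filter (fun i => s + i ∈ a), 2 ^ i := by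
  unfold blk
  rw [Finset.sum_filter]

theorem nulEx_blk_inj {s m : ℕ} {a b : Finset ℕ} (h : blk s m a = blk s m b) {i : ℕ}
    (hi : i < m) : s + i ∈ a ↔ s + i ∈ b := by
  rw [nulEx_blk, nulEx_blk] at h
  have h1 := Finset.geomSum_injective (le_refl 2) h
  have h2 : i ∈ (Finset.range m).filter (fun i => s + i ∈ a) ↔
      i ∈ (Finset.range m).filter (fun i => s + i ∈ b) := by rw [h1]
  simpa [hi] using h2

open Classical in
theorem nulEx_card3 {s n m v : ℕ} (h : s + n ≤ m) :
    ((Finset.range m).powerset.filter fun a => blk s n a = v).card ≤ 2 ^ (m - n) := by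
  have h1 : ((Finset.range m) \ Finset.Ico s (s + n)).card = m - n := by
    rw [Finset.card_sdiff_of_subset, Finset.card_range, Nat.card_Ico]
    · omega
    · intro x hx
      have := Finset.mem_Ico.1 hx
      exact Finset.mem_range.2 (by omega)
  rw [← h1, ← Finset.card_powerset]
  refine Finset.card_le_card_of_injOn (fun a => a \ Finset.Ico s (s + n)) ?_ ?_
  · intro a ha
    have ha1 := Finset.mem_powerset.1 (Finset.mem_filter.1 ha).1
    exact Finset.mem_powerset.2 (Finset.sdiff_subset_sdiff ha1 (le_refl _))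
  · intro a ha b hb hab
    have ha1 := (Finset.mem_filter.1 ha).2
    have hb1 := (Finset.mem_filter.1 hb).2
    ext x
    by_cases hx : x ∈ Finset.Ico s (s + n)
    · have hx1 := Finset.mem_Ico.1 hx
      have h2 := nulEx_blk_inj (ha1.trans hb1.symm) (i := x - s) (by omega)
      rwa [Nat.add_sub_cancel' hx1.1] at h2
    · have h2 : x ∈ a \ Finset.Ico s (s + n) ↔ x ∈ b \ Finset.Ico s (s + n) := by
        rw [show a \ Finset.Ico s (s + n) = b \ Finset.Ico s (s + n) from hab]
      simpa [Finset.mem_sdiff, hx] using h2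

theorem nulEx_blk_ins {s n m : ℕ} (h : s + n ≤ m) (a : Finset ℕ) :
    blk s n (insert m a) = blk s n a := by
  unfold blk
  refine Finset.sum_congr rfl fun i hi => ?_
  have h1 := Finset.mem_range.1 hi
  have h2 : s + i ≠ m := by omega
  simp [h2]

/-- the names of the first kind -/
theorem nulEx3 (c : Fu B) : ∃ N, IsN3 c N := by
  classical
  refine ⟨⟨fun k => ⟨fun m a => opn3 c k m a, ?_⟩, ?_⟩, fun k m a _ => rfl⟩
  · intro m a _
    refine iSup_le fun n => iSup_le fun hn => le_inf ?_ ?_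
    · exact le_iSup_of_le n (le_iSup_of_le ⟨hn.1, hn.2.trans (Nat.le_succ m)⟩ (le_refl _))
    · refine le_iSup_of_le n (le_iSup_of_le ⟨hn.1, hn.2.trans (Nat.le_succ m)⟩ ?_)
      rw [nulEx_blk_ins hn.2]
  · intro k m A hA h2
    refine nulEx_le c k m (fun a => opn3 c k m a)
      (fun n v a => tri n + n ≤ m ∧ blk (tri n) n a = v) (fun a _ => ?_)
      (fun n v _ _ S hS => ?_) A hA h2
    · refine iSup_le fun n => iSup_le fun hn => ?_
      exact le_iSup_of_le n (le_iSup_of_le (blk (tri n) n a)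
        (le_iSup_of_le ⟨hn.1, (Nat.le_add_left _ _).trans hn.2, hn.2, rfl⟩ (le_refl _)))
    · by_cases h : tri n + n ≤ m
      · refine (Finset.card_le_card ?_).trans (nulEx_card3 (v := v) h)
        intro a ha
        have h3 := hS a ha
        exact Finset.mem_filter.2 ⟨Finset.mem_powerset.2 h3.1, h3.2.2⟩
      · have h3 : S = ∅ := Finset.eq_empty_of_forall_notMem fun a ha => h (hS a ha).2.1
        rw [h3, Finset.card_empty]
        exact Nat.zero_le _

/-! ### the second kind of names -/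

theorem nulEx_bits_card (n j : ℕ) : (bits n j).card = n := by
  unfold bits
  rw [Finset.card_image_of_injective, Finset.card_range]
  intro r r' h
  have h1 := (Nat.pair_eq_pair.1 h).2
  exact (Nat.pair_eq_pair.1 h1).2

theorem nulEx_bits_le {n j m : ℕ} (hn : 0 < n) (h : bits n j ⊆ Finset.range m) : n ≤ m := by
  have h1 : Nat.pair n (Nat.pair j 0) ∈ bits n j :=
    Finset.mem_image.2 ⟨0, Finset.mem_range.2 hn, rfl⟩
  have h2 := Finset.mem_range.1 (h h1)
  have h3 := Nat.left_le_pair n (Nat.pair j 0)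
  omega

/-- the names of the second kind -/
theorem nulEx1 (c : Fu B) : ∃ N, IsN1 c N := by
  classical
  refine ⟨⟨fun k => ⟨fun m a => opn1 c k m a, ?_⟩, ?_⟩, fun k m a _ => rfl⟩
  · intro m a _
    refine iSup_le fun n => iSup_le fun j => iSup_le fun hn => le_inf ?_ ?_
    · exact le_iSup_of_le n (le_iSup_of_le j (le_iSup_of_le
        ⟨hn.1, hn.2.1.trans (Finset.range_mono (Nat.le_succ m)), hn.2.2⟩ (le_refl _)))
    · refine le_iSup_of_le n (le_iSup_of_le j (le_iSup_of_le
        ⟨hn.1, hn.2.1.trans (Finset.range_mono (Nat.le_succ m)), ?_⟩ (le_refl _)))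
      rw [Finset.disjoint_insert_left]
      refine ⟨fun h => ?_, hn.2.2⟩
      exact absurd (Finset.mem_range.1 (hn.2.1 h)) (lt_irrefl m)
  · intro k m A hA h2
    refine nulEx_le c k m (fun a => opn1 c k m a)
      (fun n v a => bits n v ⊆ Finset.range m ∧ Disjoint a (bits n v)) (fun a _ => ?_)
      (fun n v _ _ S hS => ?_) A hA h2
    · refine iSup_le fun n => iSup_le fun j => iSup_le fun hn => ?_
      exact le_iSup_of_le n (le_iSup_of_le j (le_iSup_of_le
        ⟨hn.1, nulEx_bits_le (by omega) hn.2.1, hn.2.1, hn.2.2⟩ (le_refl _)))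
    · by_cases h : bits n v ⊆ Finset.range m
      · have h1 : ((Finset.range m) \ bits n v).card = m - n := by
          rw [Finset.card_sdiff_of_subset h, Finset.card_range, nulEx_bits_card]
        rw [← h1, ← Finset.card_powerset]
        refine Finset.card_le_card ?_
        intro a ha
        have h3 := hS a ha
        refine Finset.mem_powerset.2 fun x hx => Finset.mem_sdiff.2 ⟨h3.1 hx, fun hx2 => ?_⟩
        exact Finset.disjoint_left.1 h3.2.2 hx hx2
      · have h3 : S = ∅ := Finset.eq_empty_of_forall_notMem fun a ha => h (hS a ha).2.1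
        rw [h3, Finset.card_empty]
        exact Nat.zero_le _

end

/-- names of the null sets exist -/
theorem nulExStm : NulExStm.{u} := fun _ _ c => ⟨nulEx3 c, nulEx1 c⟩

end CI
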