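import Pool.Agent.CI.C.RndStm

/-!
# Project CI: cutting labels, null intersections
-/

set_option autoImplicit false

open Set

namespace CI

universe u

section

variable {B : Type u} [CompleteBooleanAlgebra B]

/-! ### Closure properties of `σ`-subalgebras -/

theorem IsSS.rcSup {W : Set B} (hW : IsSS W) {a b : B} (ha : a ∈ W) (hb : b ∈ W) : a ⊔ b ∈ W := by
  have h := hW.iSup (fun n => if n = 0 then a else b) fun n => by
    split_ifs
    · exact ha
    · exact hb
  have h2 : (⨆ n : ℕ, if n = 0 then a else b) = a ⊔ b := by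
    apply le_antisymm
    · refine iSup_le fun n => ?_
      split_ifs
      · exact le_sup_left
      · exact le_sup_right
    · refine sup_le ?_ ?_
      · have h3 := le_iSup (fun n : ℕ => if n = 0 then a else b) 0
        simpa using h3
      · have h3 := le_iSup (fun n : ℕ => if n = 0 then a else b) 1
        simpa using h3
  rwa [h2] at h

theorem IsSS.rcInf {W : Set B} (hW : IsSS W) {a b : B} (ha : a ∈ W) (hb : b ∈ W) : a ⊓ b ∈ W := by
  have h := hW.compl _ (hW.rcSup (hW.compl _ ha) (hW.compl _ hb))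
  rwa [compl_sup, compl_compl, compl_compl] at h

theorem IsSS.rcCSup {W : Set B} (hW : IsSS W) {ι : Type*} [Countable ι] {f : ι → B}
    (hf : ∀ i, f i ∈ W) : ⨆ i, f i ∈ W := by
  rcases isEmpty_or_nonempty ι with h | h
  · rw [iSup_of_empty]
    exact hW.bot
  · obtain ⟨g, hg⟩ := exists_surjective_nat ι
    rw [← hg.iSup_comp]
    exact hW.iSup _ fun n => hf _

theorem IsSS.rcCInf {W : Set B} (hW : IsSS W) {ι : Type*} [Countable ι] {f : ι → B}
    (hf : ∀ i, f i ∈ W) : ⨅ i, f i ∈ W := by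
  have h := hW.compl _ (hW.rcCSup (f := fun i => (f i)ᶜ) fun i => hW.compl _ (hf i))
  rw [compl_iSup] at h
  simpa using h

theorem IsSS.rcPSup {W : Set B} (hW : IsSS W) {p : Prop} {x : B} (hx : x ∈ W) :
    ⨆ _ : p, x ∈ W := by
  by_cases h : p
  · rwa [iSup_pos h]
  · rw [iSup_neg h]
    exact hW.bot

theorem IsSS.rcFinf {W : Set B} (hW : IsSS W) {α : Type*} (C : Finset α) {f : α → B}
    (hf : ∀ i, f i ∈ W) : C.inf f ∈ W := by
  classical
  induction C using Finset.induction_on with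
  | empty =>
    rw [Finset.inf_empty]
    have h := hW.compl _ hW.bot
    rwa [compl_bot] at h
  | insert a s _ ih =>
    rw [Finset.inf_insert]
    exact hW.rcInf (hf a) ih

theorem IsSS.rcCntGe {W : Set B} (hW : IsSS W) {α : Type} [Countable α] (A : Finset α) {x : α → B}
    (hx : ∀ i, x i ∈ W) (s r : ℕ) : cntGe A x s r ∈ W :=
  hW.rcCSup fun C => hW.rcPSup (hW.rcFinf C hx)

theorem IsSS.rcMGe {W : Set B} (hW : IsSS W) {U : ℕ → Finset ℕ → B} (hU : ∀ n a, U n a ∈ W)
    (s r : ℕ) : mGe U s r ∈ W :=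
  hW.rcCInf fun n => hW.rcCntGe _ (hU n) _ _

theorem IsSS.rcMGt {W : Set B} (hW : IsSS W) {U : ℕ → Finset ℕ → B} (hU : ∀ n a, U n a ∈ W)
    (k : ℕ) : mGt U k ∈ W :=
  hW.rcCSup fun _ => hW.rcMGe hU _ _

/-! ### Monotonicity -/

theorem rc_cntGe_le {α : Type} {A : Finset α} {x y : α → B} {s s' r : ℕ} {u : B} (hs : s ≤ s')
    (h : ∀ a ∈ A, u ⊓ x a ≤ y a) : u ⊓ cntGe A x s r ≤ cntGe A y s' r := by
  unfold cntGe
  rw [inf_iSup_eq]
  refine iSup_le fun C => ?_
  rw [inf_iSup_eq]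
  refine iSup_le fun hC => ?_
  refine le_iSup_of_le C (le_iSup_of_le ⟨hC.1, hC.2.trans (Nat.mul_le_mul_left _ hs)⟩ ?_)
  rw [Finset.le_inf_iff]
  exact fun a ha => (inf_le_inf_left u (Finset.inf_le ha)).trans (h a (hC.1 ha))

theorem rc_mGe_le {U V : ℕ → Finset ℕ → B} {s s' r : ℕ} {u : B} (hs : s ≤ s')
    (h : ∀ n a, a ⊆ Finset.range n → u ⊓ U n a ≤ V n a) : u ⊓ mGe U s r ≤ mGe V s' r := by
  refine le_iInf fun n => ?_
  refine (inf_le_inf_left u (iInf_le _ n)).trans ?_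
  exact rc_cntGe_le hs fun a ha => h n a (Finset.mem_powerset.1 ha)

theorem rc_mGt_le {U V : ℕ → Finset ℕ → B} {k : ℕ} {u : B}
    (h : ∀ n a, a ⊆ Finset.range n → u ⊓ U n a ≤ V n a) : u ⊓ mGt U k ≤ mGt V k := by
  unfold mGt
  rw [inf_iSup_eq]
  exact iSup_mono fun j => rc_mGe_le le_rfl h

theorem rc_mGe_mGt {U : ℕ → Finset ℕ → B} (q : ℕ) : mGe U (q + 1) 1 ≤ mGt U 0 := by
  refine le_trans (le_of_eq ?_) (le_iSup _ q)
  rw [zero_add, one_mul, zero_mul, zero_add]

theorem CndR.rc_cmp {W : Set B} (c' c : CndR W) {n : ℕ} {a : Finset ℕ}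
    (ha : a ⊆ Finset.range n) : c'.cmp c ⊓ c'.τ n a ≤ c.τ n a := by
  rw [← le_himp_iff]
  exact (iInf_le _ n).trans ((iInf_le _ a).trans (iInf_le _ ha))

theorem CndR.rc_top {W : Set B} (c : CndR W) : mGt c.τ 0 = ⊤ :=
  top_le_iff.1 (c.big ▸ rc_mGe_mGt c.q)

end

theorem rCutStm : RCutStm.{u} := by
  intro B _ W hW c U w j hw hU hdec hle
  refine ⟨⟨fun n a => c.τ n a ⊓ (wᶜ ⊔ U n a), max c.q j, fun n a => ?_, fun n a => ?_, ?_⟩,
    rfl, fun _ _ => rfl⟩
  · exact hW.rcInf (c.mem n a) (hW.rcSup (hW.compl _ hw) (hU n a))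
  · exact inf_le_inf (c.dec n a) (sup_le_sup_left (hdec n a) _)
  · rw [← top_le_iff, ← sup_compl_eq_top (x := w)]
    refine sup_le ?_ ?_
    · refine hle.trans ?_
      refine le_trans (le_inf le_top le_rfl) (rc_mGe_le (u := ⊤)
        (Nat.succ_le_succ (le_max_right _ _)) fun n a _ => ?_)
      rw [top_inf_eq]
      exact inf_le_inf_left _ le_sup_right
    · refine le_trans (le_inf le_rfl (le_top.trans c.big.ge)) (rc_mGe_le
        (Nat.succ_le_succ (le_max_left _ _)) fun n a _ => ?_)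
      exact le_inf inf_le_right (inf_le_left.trans le_sup_left)

theorem rNulStm : RNulStm.{u} := by
  intro B _ W hW c d e
  refine ⟨?_, ?_, ?_, ?_, ?_⟩
  · exact hW.compl _ (hW.rcMGt (fun n a => hW.rcInf (c.mem n a) (d.mem n a)) 0)
  · unfold CndR.nul
    simp_rw [inf_comm]
  · unfold CndR.nul
    rw [le_compl_iff_disjoint_right, disjoint_iff_inf_le, inf_right_comm]
    have h : e.cmp c ⊓ mGt (fun n a => e.τ n a ⊓ d.τ n a) 0 ≤
        mGt (fun n a => c.τ n a ⊓ d.τ n a) 0 := by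
      refine rc_mGt_le fun n a ha => ?_
      rw [← inf_assoc]
      exact inf_le_inf_right _ (e.rc_cmp c ha)
    exact (inf_le_inf_right _ h).trans (le_of_eq (inf_compl_self _))
  · unfold CndR.nul
    simp_rw [inf_idem]
    rw [c.rc_top, compl_top]
  · unfold CndR.nul
    rw [compl_compl]
    refine le_trans (le_inf le_rfl (le_top.trans e.rc_top.ge)) (rc_mGt_le fun n a ha => ?_)
    exact le_inf ((inf_le_inf_right _ inf_le_left).trans (e.rc_cmp c ha))
      ((inf_le_inf_right _ inf_le_right).trans (e.rc_cmp d ha))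

end CI
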