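import Pool.Agent.CI.C.MdlStm
import Pool.Agent.CI.C.RCut

/-!
# Project CI, core, row M5: positivity at a random coordinate
-/

set_option autoImplicit false

open Set Cardinal Pool.Agent.CL

namespace CI

universe u

section

variable {B : Type u} [CompleteBooleanAlgebra B]

theorem pr_mGe {U : ℕ → Finset ℕ → B} {s r s' r' : ℕ} (hs : 0 < s) (h : r' * s ≤ r * s') :
    mGe U s r ≤ mGe U s' r' := by
  refine iInf_mono fun n => iSup_le fun C => iSup_le fun hC => ?_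
  refine le_iSup_of_le C (le_iSup_of_le ⟨hC.1, ?_⟩ le_rfl)
  refine Nat.le_of_mul_le_mul_left ?_ hs
  calc s * (r' * 2 ^ n) = (r' * s) * 2 ^ n := by ring
    _ ≤ (r * s') * 2 ^ n := Nat.mul_le_mul_right _ h
    _ = (r * 2 ^ n) * s' := by ring
    _ ≤ (C.card * s) * s' := Nat.mul_le_mul_right _ hC.2
    _ = s * (C.card * s') := by ring

theorem pr_mGt {U : ℕ → Finset ℕ → B} {q k : ℕ} (h : q ≤ k) : mGt U k ≤ mGt U q := by
  refine iSup_le fun j => ?_
  refine le_trans ?_ (le_iSup _ (k * (j + 1) + j))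
  refine pr_mGe (by positivity) ?_
  have h1 : k * (j + 1) + j + 1 = (k + 1) * (j + 1) := by ring
  rw [h1]
  have h2 : q * ((k + 1) * (j + 1)) + 1 ≤ (k * (j + 1) + 1) * (q + 1) := by
    have h3 : q * (j + 1) ≤ k * (j + 1) := Nat.mul_le_mul_right _ h
    nlinarith
  calc (q * ((k + 1) * (j + 1)) + 1) * ((k + 1) * (j + 1))
      ≤ ((k * (j + 1) + 1) * (q + 1)) * ((k + 1) * (j + 1)) := Nat.mul_le_mul_right _ h2
    _ = (k * (j + 1) + 1) * ((q + 1) * ((k + 1) * (j + 1))) := by ring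

theorem pr_cs_inf {Y : Set B} (h : IsCS Y) {x y : B} (hx : x ∈ Y) (hy : y ∈ Y) : x ⊓ y ∈ Y := by
  have h1 := h.compl _ (h.sSup {xᶜ, yᶜ} (by
    rintro z (rfl | rfl)
    · exact h.compl _ hx
    · exact h.compl _ hy))
  rwa [sSup_pair, compl_sup, compl_compl, compl_compl] at h1

end

section

variable {K Λ : Type u} [LinearOrder K] {D : Dat K Λ} {Θ : Type u}

lemma pr_TZ_mono {Z Z' : Set K} (h : Z ⊆ Z') : TZ D Θ Z ⊆ TZ D Θ Z' := fun U hU a p => by
  rw [hU a p, hU a (p.res Z'), PF.res_res, inter_eq_self_of_subset_right h]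

end

theorem posRStm (h1 : TrStm.{u}) (h2 : SZStm.{u}) (h3 : EeStm.{u}) (h4 : IBStm.{u})
    (h5 : IAStm.{u}) (h6 : TZStm.{u}) (h7 : AFStm.{u}) (h8 : Dec2Stm.{u}) (h9 : RebStm.{u})
    (h10 : RNulStm.{u}) (h11 : RAvoidStm.{u}) (h12 : RAddStm.{u}) : PosRStm.{u} := by
  intro K Λ L Θ _ _ S rd rt φ hG hccc b hb hC σ k hk a p hp
  classical
  obtain ⟨-, hee, -, -, hdis, -⟩ := h2 K Λ S.D (Iio b) (Tr_of_lower (isLowerSet_Iio b))
  obtain ⟨-, hee', -⟩ := h2 K Λ S.D (Iic b) (Tr_of_lower (isLowerSet_Iic b))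
  obtain ⟨i1, -, -, i4, i5, -, -, -⟩ := h5 K Λ Θ S.D
  obtain ⟨-, b2, -, b4, b5, b6, -, -, -, -, b11⟩ := h4 K Λ Θ S.D
  obtain ⟨hT, -, hTr, -⟩ := h6 K Λ Θ S.D (Iic b) (Tr_of_lower (isLowerSet_Iic b))
  have hdom : ∀ c : Λ, (PF.sng b c : PF K Λ).dom = {b} := fun c => PF.dom_sng b c
  obtain ⟨z, hz⟩ : ∃ z : Λ → ℕ → BB S.D, z = fun ρ l => (S.cR b ρ).nul (S.cR b (σ l)) := ⟨_, rfl⟩
  have hzW : ∀ ρ l, z ρ l ∈ S.W b := fun ρ l => by
    rw [hz]
    exact (h10 _ _ (S.ss b) (S.cR b ρ) (S.cR b (σ l)) (S.cR b ρ)).1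
  have hqr : S.qr b σ φ = (⨆ ρ : Λ, φ (z ρ) ⊓ iB S.D Θ (eb S.D b ρ))ᶜ := by
    rw [hz]
    rfl
  -- the claim
  have hclaim : ¬ iAP S.D a p ≤ ⨆ ρ : Λ, φ (z ρ) ⊓ iB S.D Θ (eb S.D b ρ) := by
    intro hle
    obtain ⟨a1, ha1, q, ρ, hq, hqt, hcov⟩ := h8 K Λ Θ S.D hccc Λ
      (fun ρ => φ (z ρ) ⊓ iB S.D Θ (eb S.D b ρ)) a p hle
    have hstep : ∀ (n : ℕ) (x : AF K Θ), ∃ x' ≤ x, ∃ U ∈ S.W b,
        iA S.D x' ⊓ φ (z (ρ n)) = iA S.D x' ⊓ iB S.D Θ U :=
      fun n x => hC (z (ρ n)) (hzW _) x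
    choose g hg1 U hU hg2 using hstep
    obtain ⟨as, has0, has⟩ : ∃ as : ℕ → AF K Θ, as 0 = a1 ∧ ∀ n, as (n + 1) = g n (as n) :=
      ⟨fun n => Nat.rec a1 (fun n x => g n x) n, rfl, fun n => rfl⟩
    obtain ⟨a2, ha2⟩ := h7 K Θ as fun n => by
      rw [has n]
      exact hg1 n _
    have ha21 : a2 ≤ a1 := by
      have h := ha2 0
      rwa [has0] at h
    obtain ⟨w, hwd⟩ : ∃ w : ℕ → BB S.D, w = fun n => U n (as n) := ⟨_, rfl⟩
    have hw : ∀ n, w n ∈ S.W b := fun n => by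
      rw [hwd]
      exact hU n _
    have hwe : ∀ n, iA S.D a2 ⊓ φ (z (ρ n)) = iA S.D a2 ⊓ iB S.D Θ (w n) := by
      intro n
      have e1 : iA S.D a2 = iA S.D a2 ⊓ iA S.D (as (n + 1)) :=
        (inf_eq_left.2 (i4 _ _ (ha2 (n + 1)))).symm
      have e2 : iA S.D (as (n + 1)) ⊓ φ (z (ρ n)) = iA S.D (as (n + 1)) ⊓ iB S.D Θ (w n) := by
        rw [has n, hwd]
        exact hg2 n (as n)
      rw [e1, inf_assoc, e2, ← inf_assoc]
    have hkey : ∀ V V' : BB S.D, iA S.D a2 ⊓ iB S.D Θ V ≤ iB S.D Θ V' → V ≤ V' := by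
      intro V V' h
      by_contra hn
      have h0 : V ⊓ V'ᶜ ≠ ⊥ := fun h0 => hn (disjoint_compl_right_iff.1 (disjoint_iff.2 h0))
      refine i5 a2 _ h0 (le_bot_iff.1 ?_)
      have e1 : iB S.D Θ V' ⊓ iB S.D Θ V'ᶜ = ⊥ := by
        rw [b4, inf_compl_eq_bot]
      rw [← e1, b2, ← inf_assoc]
      exact inf_le_inf_right _ h
    have hqw : ∀ n, ee S.D (q n) ≤ w n ⊓ eb S.D b (ρ n) := by
      intro n
      have e1 : iA S.D a2 ⊓ iB S.D Θ (ee S.D (q n)) ≤
          φ (z (ρ n)) ⊓ iB S.D Θ (eb S.D b (ρ n)) := by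
        refine le_trans ?_ (hqt n)
        rw [i1 a1 (q n)]
        exact inf_le_inf_right _ (i4 _ _ ha21)
      refine le_inf (hkey _ _ ?_) (hkey _ _ (e1.trans inf_le_right))
      refine le_trans (le_inf inf_le_left (e1.trans inf_le_left)) ?_
      rw [hwe n]
      exact inf_le_right
    have hcov' : ee S.D p ≤ ⨆ n, w n ⊓ eb S.D b (ρ n) := hcov.trans (iSup_mono hqw)
    obtain ⟨G, hGd⟩ : ∃ G : ℕ → BB S.D, G = fun m : ℕ =>
      mGt (fun n a => ⨆ i : Fin m, w i ⊓ (S.cR b (ρ i)).τ n a) k := ⟨_, rfl⟩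
    have hGW : ∀ m, G m ∈ S.W b := by
      intro m
      rw [hGd]
      exact (S.ss b).rcMGt (fun n a => (S.ss b).rcCSup fun i : Fin m =>
        (S.ss b).rcInf (hw _) ((S.cR b (ρ i)).mem n a)) k
    by_cases hv : ∀ m, ee S.D p ≤ (G m)ᶜ
    · -- the closed sets do not cover
      obtain ⟨v, hvd⟩ : ∃ v : BB S.D, v = ⨅ m, (G m)ᶜ := ⟨_, rfl⟩
      have hvW : v ∈ S.W b := by
        rw [hvd]
        exact (S.ss b).rcCInf fun m => (S.ss b).compl _ (hGW m)
      obtain ⟨κ, hκ⟩ := h11 (BB S.D) (S.W b) (S.ss b) (fun i => S.cR b (ρ i)) w v k hw hvW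
        (fun m => by
          rw [hvd]
          refine (iInf_le _ m).trans (le_of_eq ?_)
          rw [hGd])
      obtain ⟨c, hc⟩ := (S.vR b hb).2 κ
      have hpv : ee S.D p ≤ v := by
        rw [hvd]
        exact le_iInf hv
      have hne : ee S.D p ⊓ eb S.D b c ≠ ⊥ := by
        refine hdis (ee S.D p) (hee p hp) (ee_ne_bot p) (PF.sng b c) ?_
        rw [hdom, Set.disjoint_singleton_left]
        exact fun h => lt_irrefl b h
      apply hne
      rw [← le_bot_iff]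
      have e1 : ee S.D p ⊓ eb S.D b c ≤ (⨆ n, w n ⊓ eb S.D b (ρ n)) ⊓ (v ⊓ eb S.D b c) :=
        le_inf (inf_le_left.trans hcov') (inf_le_inf_right _ hpv)
      refine e1.trans ?_
      rw [iSup_inf_eq]
      refine iSup_le fun n => ?_
      have e2 := (h9 K Λ L S b hb).1 c (ρ n)
      rw [← e2, hc]
      refine le_inf (le_inf ?_ ?_) ?_
      · refine le_trans ?_ (hκ n)
        exact le_inf (inf_le_right.trans inf_le_left) (inf_le_left.trans inf_le_left)
      · exact inf_le_right.trans inf_le_right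
      · exact inf_le_left.trans inf_le_right
    · -- they cover on a part
      push Not at hv
      obtain ⟨m, hm⟩ := hv
      have hu : ee S.D p ⊓ G m ≠ ⊥ := fun h0 => hm (by
        rw [← disjoint_iff] at h0
        exact le_compl_iff_disjoint_right.2 h0)
      have hmem : ∀ y : ℕ → BB S.D, y ∈ {z : ℕ → BB S.D | ∀ l, z l ∈ SZ S.D univ} :=
        fun y l => SZ_univ _
      have hinf : ∀ y y' : ℕ → BB S.D, φ (y ⊓ y') = φ y ⊓ φ y' :=
        fun y y' => hG.hom.inf y (hmem y) y' (hmem y')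
      have hcompl : ∀ y : ℕ → BB S.D, φ yᶜ = (φ y)ᶜ := fun y => hG.hom.compl y (hmem y)
      have hconst : ∀ V : BB S.D, φ (fun _ => V) = iB S.D Θ V := fun V => hG.const V (SZ_univ _)
      have himp : ∀ i, iA S.D a2 ≤ φ (fun l => w i ⇨ z (ρ i) l) := by
        intro i
        have e1 : (fun l => w i ⇨ z (ρ i) l) = ((z (ρ i))ᶜ ⊓ (fun _ => w i))ᶜ := by
          funext l
          show w i ⇨ z (ρ i) l = ((z (ρ i) l)ᶜ ⊓ w i)ᶜ
          rw [compl_inf, compl_compl, himp_eq]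
        rw [e1, hcompl, hinf, hcompl, hconst, le_compl_iff_disjoint_right, disjoint_iff,
          ← le_bot_iff]
        have e2 : iA S.D a2 ⊓ iB S.D Θ (w i) ≤ φ (z (ρ i)) := by
          rw [← hwe i]
          exact inf_le_right
        have e3 : φ (z (ρ i)) ⊓ (φ (z (ρ i)))ᶜ = ⊥ := inf_compl_eq_bot
        rw [← e3]
        refine le_inf ?_ (inf_le_right.trans inf_le_left)
        exact le_trans (le_inf inf_le_left (inf_le_right.trans inf_le_right)) e2
      have hfin : ∀ s : Finset ℕ, iA S.D a2 ≤ φ (fun l => s.inf fun i => w i ⇨ z (ρ i) l) := by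
        intro s
        induction s using Finset.induction_on with
        | empty =>
          have e1 : (fun l : ℕ => (∅ : Finset ℕ).inf fun i => w i ⇨ z (ρ i) l) =
              fun _ => (⊤ : BB S.D) := by
            funext l
            rw [Finset.inf_empty]
          rw [e1, hconst, b6]
          exact le_top
        | insert i s _ ih =>
          have e1 : (fun l : ℕ => (insert i s).inf fun i => w i ⇨ z (ρ i) l) =
              (fun l => w i ⇨ z (ρ i) l) ⊓ fun l => s.inf fun i => w i ⇨ z (ρ i) l := by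
            funext l
            rw [Finset.inf_insert]
            rfl
          rw [e1, hinf]
          exact le_inf (himp i) ih
      have hbot : ∀ l, (ee S.D p ⊓ G m) ⊓ ((Finset.range m).inf fun i => w i ⇨ z (ρ i) l) = ⊥ := by
        intro l
        rw [← le_bot_iff]
        have e1 := h12 (BB S.D) (S.W b) (S.ss b) (fun i => S.cR b (ρ i)) w (S.cR b (σ l)) m hw
        rw [← e1]
        refine inf_le_inf ?_ ?_
        · refine inf_le_right.trans ?_
          rw [hGd]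
          exact pr_mGt (hk l)
        · refine le_iInf fun i => ?_
          refine (Finset.inf_le (Finset.mem_range.2 i.2)).trans (le_of_eq ?_)
          rw [hz]
      have e1 : iA S.D a2 ⊓ iB S.D Θ (ee S.D p ⊓ G m) ≤ ⊥ := by
        have e2 : φ (fun l => (ee S.D p ⊓ G m) ⊓
            ((Finset.range m).inf fun i => w i ⇨ z (ρ i) l)) = ⊥ := by
          have e3 : (fun l => (ee S.D p ⊓ G m) ⊓
              ((Finset.range m).inf fun i => w i ⇨ z (ρ i) l)) = fun _ => (⊥ : BB S.D) :=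
            funext hbot
          rw [e3, hconst, b5]
        have e4 : φ (fun l => (ee S.D p ⊓ G m) ⊓
            ((Finset.range m).inf fun i => w i ⇨ z (ρ i) l)) =
            φ (fun _ => ee S.D p ⊓ G m) ⊓
              φ (fun l => (Finset.range m).inf fun i => w i ⇨ z (ρ i) l) := hinf _ _
        rw [← e2, e4, hconst]
        exact le_inf inf_le_right (inf_le_left.trans (hfin _))
      exact i5 a2 _ hu (le_bot_iff.1 e1)
  -- a condition below `qr`
  have hne : iAP S.D a p ⊓ S.qr b σ φ ≠ ⊥ := by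
    intro h0
    apply hclaim
    rw [hqr] at h0
    exact disjoint_compl_right_iff.1 (disjoint_iff.2 h0)
  obtain ⟨⟨a1, p1⟩, hx⟩ := RO.exists_pt_le hne
  have hx1 : (a1, p1) ∈ (RO.pt (Q := AF K Θ × PD S.D) (a, p)).S :=
    RO.pt_le_iff.1 (hx.trans inf_le_left)
  obtain ⟨⟨a2, p2⟩, hs1, hs2⟩ := hx1 (a1, p1) le_rfl
  have hqTZ : S.qr b σ φ ∈ TZ S.D Θ (Iic b) := by
    rw [hqr]
    refine hT.compl _ (hT.sSup _ ?_)
    rintro _ ⟨ρ, rfl⟩
    refine pr_cs_inf hT ?_ ?_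
    · refine pr_TZ_mono (Z := Iio b ∩ S.Zl (S.lay b)) ?_ (hG.layer (Iio b) (subset_univ _)
        (isLowerSet_Iio b) (S.lay b) (z ρ) fun l => S.sub b (hzW ρ l))
      exact fun x hx => le_of_lt hx.1
    · refine b11 (Iic b) _ (hee' _ ?_)
      rw [hdom]
      exact Set.singleton_subset_iff.2 le_rfl
  have hle2 : iAP S.D a2 p2 ≤ S.qr b σ φ :=
    (RO.pt_mono (Q := AF K Θ × PD S.D) hs1).trans (hx.trans inf_le_right)
  have hle3 := (hTr _ hqTZ a2 p2).1 hle2
  refine ⟨a2, hs2.1, PF.res p2 (Iic b), ?_, PF.dom_res_subset _ _, hle3⟩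
  have h := res_mono_lower (D := S.D) (isLowerSet_Iic b) (p := p2) (q := p) hs2.2
  have hp' : p.dom ⊆ Iic b := fun x hx => le_of_lt (hp hx)
  rwa [PF.res_eq_self hp'] at h

end CI
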