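import Pool.Agent.CI.C.RndStm

/-!
# Project CI, core: additivity (row R3)
-/

set_option autoImplicit false

open Set

namespace CI

universe u

section

variable {B : Type u} [CompleteBooleanAlgebra B]

/-- ultrafilters -/
private structure RaU (U : B → Prop) : Prop where
  bot : ¬ U ⊥
  inf : ∀ a c, U (a ⊓ c) ↔ U a ∧ U c
  compl : ∀ a, U aᶜ ↔ ¬ U a

private theorem RaU.mono {U : B → Prop} (h : RaU U) {a c : B} (hac : a ≤ c) (ha : U a) : U c := by
  rw [← inf_eq_left.2 hac, h.inf] at ha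
  exact ha.2

private theorem RaU.top {U : B → Prop} (h : RaU U) : U ⊤ := by
  rw [← compl_bot, h.compl]
  exact h.bot

private theorem RaU.sup {U : B → Prop} (h : RaU U) (a c : B) : U (a ⊔ c) ↔ U a ∨ U c := by
  have h1 : a ⊔ c = (aᶜ ⊓ cᶜ)ᶜ := by rw [compl_inf, compl_compl, compl_compl]
  rw [h1, h.compl, h.inf, h.compl, h.compl]
  tauto

private theorem RaU.finf {U : B → Prop} (h : RaU U) {α : Type} (C : Finset α) (x : α → B) :
    U (C.inf x) ↔ ∀ a ∈ C, U (x a) := by
  classical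
  induction C using Finset.induction_on with
  | empty => simp [h.top]
  | insert a C ha ih =>
    rw [Finset.inf_insert, h.inf, ih]
    simp

private theorem RaU.fsup {U : B → Prop} (h : RaU U) {α : Type} (C : Finset α) (x : α → B) :
    U (C.sup x) ↔ ∃ a ∈ C, U (x a) := by
  classical
  induction C using Finset.induction_on with
  | empty => simp [h.bot]
  | insert a C ha ih =>
    rw [Finset.sup_insert, h.sup, ih]
    simp

open Classical in
/-- the number of elements in a finite set with truth value in the ultrafilter -/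
private noncomputable def raN (U : B → Prop) {α : Type} (A : Finset α) (x : α → B) : ℕ :=
  (A.filter fun a => U (x a)).card

private theorem RaU.cnt {U : B → Prop} (h : RaU U) {α : Type} (A : Finset α) (x : α → B)
    (s r : ℕ) : U (cntGe A x s r) ↔ r ≤ raN U A x * s := by
  classical
  constructor
  · intro h1
    have h2 : cntGe A x s r ≤
        (A.powerset.filter fun C => r ≤ C.card * s).sup fun C => C.inf x := by
      refine iSup₂_le fun C hC => ?_
      have hm : C ∈ A.powerset.filter (fun C => r ≤ C.card * s) :=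
        Finset.mem_filter.2 ⟨Finset.mem_powerset.2 hC.1, hC.2⟩
      exact Finset.le_sup (f := fun C => C.inf x) hm
    obtain ⟨C, hC, h3⟩ := (h.fsup _ _).1 (h.mono h2 h1)
    rw [Finset.mem_filter, Finset.mem_powerset] at hC
    refine hC.2.trans (Nat.mul_le_mul_right _ (Finset.card_le_card ?_))
    intro a ha
    exact Finset.mem_filter.2 ⟨hC.1 ha, (h.finf C x).1 h3 a ha⟩
  · intro h1
    have h2 : (A.filter fun a => U (x a)).inf x ≤ cntGe A x s r :=
      le_iSup₂_of_le (f := fun (C : Finset α) (_ : C ⊆ A ∧ r ≤ C.card * s) => C.inf x)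
        (A.filter fun a => U (x a)) ⟨Finset.filter_subset _ _, h1⟩ le_rfl
    refine h.mono h2 ((h.finf _ _).2 fun a ha => ?_)
    exact (Finset.mem_filter.1 ha).2

/-- levels of a tree -/
private noncomputable def raL (U : B → Prop) (V : ℕ → Finset ℕ → B) (n : ℕ) : ℕ :=
  raN U (Finset.range n).powerset (V n)

private theorem RaU.dbl {U : B → Prop} (h : RaU U) {V : ℕ → Finset ℕ → B} (hV : DecT V) (n : ℕ) :
    raL U V (n + 1) ≤ 2 * raL U V n := by
  classical
  unfold raL raN
  refine Finset.card_le_mul_card_image_of_maps_to (f := fun a : Finset ℕ => a.erase n) ?_ 2 ?_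
  · intro a ha
    rw [Finset.mem_filter, Finset.mem_powerset] at ha ⊢
    refine ⟨?_, h.mono (hV n a) ha.2⟩
    intro x hx
    rw [Finset.mem_erase] at hx
    have h1 := ha.1 hx.2
    rw [Finset.mem_range] at h1 ⊢
    have h2 := hx.1
    omega
  · intro b _
    refine (Finset.card_le_card (t := {b, insert n b}) ?_).trans Finset.card_le_two
    intro a ha
    rw [Finset.mem_filter] at ha
    rw [Finset.mem_insert, Finset.mem_singleton]
    by_cases hn : n ∈ a
    · right
      rw [← ha.2, Finset.insert_erase hn]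
    · left
      rw [← ha.2, Finset.erase_eq_of_notMem hn]

private theorem RaU.small {U : B → Prop} (h : RaU U) {V : ℕ → Finset ℕ → B} (hV : DecT V)
    {n j : ℕ} (hn : raL U V n * (j + 1) < 2 ^ n) (d : ℕ) :
    raL U V (n + d) * (j + 1) < 2 ^ (n + d) := by
  induction d with
  | zero => exact hn
  | succ d ih =>
    have h1 := h.dbl hV (n + d)
    rw [← add_assoc, pow_succ]
    calc raL U V (n + d + 1) * (j + 1) ≤ 2 * raL U V (n + d) * (j + 1) :=
          Nat.mul_le_mul_right _ h1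
      _ = raL U V (n + d) * (j + 1) * 2 := by ring
      _ < 2 ^ (n + d) * 2 := Nat.mul_lt_mul_of_pos_right ih (by norm_num)

end

/-- additivity -/
theorem rAddStm (h : RSStm.{u}) : RAddStm.{u} := by
  intro B _ W _ ρ w σ m _
  classical
  by_contra hne
  set k := σ.q with hk
  obtain ⟨U, hUb, hU0, hUi, hUc, hUs⟩ := h B _ (fun t => Nat.casesOn t
    (fun j => mGe (fun n a => ⨆ i : Fin m, w i ⊓ (ρ i).τ n a) ((k + 1) * (j + 1))
      (k * (j + 1) + 1))
    (fun t n => (cntGe (Finset.range n).powerset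
      (fun a => (ρ t.unpair.1).τ n a ⊓ σ.τ n a) ((0 + 1) * (t.unpair.2 + 1))
      ((0 * (t.unpair.2 + 1) + 1) * 2 ^ n))ᶜ)) hne
  have hU : RaU U := ⟨hU0, hUi, hUc⟩
  obtain ⟨hb1, hb2⟩ := (hUi _ _).1 hUb
  -- the union
  obtain ⟨j0, hj0⟩ := (hUs 0).1 hb1
  have hN1 : ∀ n, (k * (j0 + 1) + 1) * 2 ^ n ≤
      raL U (fun n a => ⨆ i : Fin m, w i ⊓ (ρ i).τ n a) n * ((k + 1) * (j0 + 1)) := by
    intro n
    exact (hU.cnt _ _ _ _).1 (hU.mono (iInf_le _ n) hj0)
  -- the set `σ`
  have hN2 : ∀ n, 1 * 2 ^ n ≤ raL U σ.τ n * (k + 1) := by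
    intro n
    have h1 : U (mGe σ.τ (σ.q + 1) 1) := by
      rw [σ.big]
      exact hU.top
    exact (hU.cnt _ _ _ _).1 (hU.mono (iInf_le _ n) h1)
  -- the intersections
  have hdec : ∀ i : ℕ, DecT (fun n a => (ρ i).τ n a ⊓ σ.τ n a) := fun i n a =>
    inf_le_inf ((ρ i).dec n a) (σ.dec n a)
  have hN3 : ∀ i : Fin m, U (w i) → ∀ j : ℕ, ∃ n,
      raL U (fun n a => (ρ i).τ n a ⊓ σ.τ n a) n * (j + 1) < 2 ^ n := by
    intro i hi j
    have h1 : U ((ρ i).nul σ) := by
      have h2 : U (w i ⇨ (ρ i).nul σ) := hU.mono (iInf_le _ i) hb2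
      have h3 : w i ⊓ (w i ⇨ (ρ i).nul σ) ≤ (ρ i).nul σ := inf_himp_le
      exact hU.mono h3 ((hUi _ _).2 ⟨hi, h2⟩)
    unfold CndR.nul at h1
    rw [hUc] at h1
    have h4 : ¬ U (mGe (fun n a => (ρ i).τ n a ⊓ σ.τ n a) ((0 + 1) * (j + 1))
        (0 * (j + 1) + 1)) := fun h5 => h1 (hU.mono (le_iSup (fun j : ℕ =>
          mGe (fun n a => (ρ i).τ n a ⊓ σ.τ n a) ((0 + 1) * (j + 1)) (0 * (j + 1) + 1)) j) h5)
    rw [← hUc, mGe, compl_iInf] at h4
    have h5 := hUs (Nat.pair i j + 1)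
    simp only [Nat.unpair_pair] at h5
    obtain ⟨n, hn⟩ := h5.1 h4
    refine ⟨n, ?_⟩
    rw [hUc, hU.cnt, not_le] at hn
    have h6 : (0 * (j + 1) + 1) * 2 ^ n = 2 ^ n := by ring
    have h7 : (0 + 1) * (j + 1) = j + 1 := by ring
    rw [h6, h7] at hn
    exact hn
  -- a common level
  set s := (k + 1) * (j0 + 1) with hs
  have hex : ∃ n : ℕ, ∀ i : Fin m, U (w i) →
      raL U (fun n a => (ρ i).τ n a ⊓ σ.τ n a) n * (m * s + 1) < 2 ^ n := by
    have h1 : ∀ i : Fin m, ∃ n : ℕ, U (w i) →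
        raL U (fun n a => (ρ i).τ n a ⊓ σ.τ n a) n * (m * s + 1) < 2 ^ n := by
      intro i
      by_cases hi : U (w i)
      · obtain ⟨n, hn⟩ := hN3 i hi (m * s)
        exact ⟨n, fun _ => hn⟩
      · exact ⟨0, fun h => absurd h hi⟩
    choose f hf using h1
    refine ⟨Finset.univ.sup f, fun i hi => ?_⟩
    obtain ⟨d, hd⟩ := Nat.exists_eq_add_of_le (Finset.le_sup (f := f) (Finset.mem_univ i))
    rw [hd]
    exact hU.small (hdec i) (hf i hi) d
  obtain ⟨n, hn⟩ := hex
  -- counting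
  have hcount : raL U (fun n a => ⨆ i : Fin m, w i ⊓ (ρ i).τ n a) n + raL U σ.τ n ≤
      2 ^ n + ∑ i : Fin m, if U (w i) then
        raL U (fun n a => (ρ i).τ n a ⊓ σ.τ n a) n else 0 := by
    unfold raL raN
    rw [← Finset.card_union_add_card_inter]
    refine Nat.add_le_add ?_ ?_
    · have h1 : (2 : ℕ) ^ n = ((Finset.range n).powerset).card := by
        rw [Finset.card_powerset, Finset.card_range]
      rw [h1]
      exact Finset.card_le_card (Finset.union_subset (Finset.filter_subset _ _)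
        (Finset.filter_subset _ _))
    · have h1 : (Finset.filter (fun a => U (⨆ i : Fin m, w i ⊓ (ρ i).τ n a))
            (Finset.range n).powerset) ∩
          (Finset.filter (fun a => U (σ.τ n a)) (Finset.range n).powerset) ⊆
          Finset.univ.biUnion fun i : Fin m => if U (w i) then
            Finset.filter (fun a => U ((ρ i).τ n a ⊓ σ.τ n a)) (Finset.range n).powerset
            else ∅ := by
        intro a ha
        rw [Finset.mem_inter, Finset.mem_filter, Finset.mem_filter] at ha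
        obtain ⟨⟨ha1, ha2⟩, -, ha3⟩ := ha
        rw [← Finset.sup_univ_eq_iSup, hU.fsup] at ha2
        obtain ⟨i, -, hi⟩ := ha2
        obtain ⟨hi1, hi2⟩ := (hUi _ _).1 hi
        rw [Finset.mem_biUnion]
        refine ⟨i, Finset.mem_univ i, ?_⟩
        rw [if_pos hi1, Finset.mem_filter]
        exact ⟨ha1, (hUi _ _).2 ⟨hi2, ha3⟩⟩
      refine (Finset.card_le_card h1).trans (Finset.card_biUnion_le.trans ?_)
      refine Finset.sum_le_sum fun i _ => ?_
      split_ifs
      · exact le_rfl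
      · simp
  have hsum : (∑ i : Fin m, if U (w i) then
      raL U (fun n a => (ρ i).τ n a ⊓ σ.τ n a) n else 0) * (m * s + 1) ≤ m * 2 ^ n := by
    rw [Finset.sum_mul]
    refine (Finset.sum_le_card_nsmul Finset.univ _ (2 ^ n) fun i _ => ?_).trans ?_
    · split_ifs with hi
      · exact (hn i hi).le
      · simp
    · rw [Finset.card_univ, Fintype.card_fin, smul_eq_mul]
  have h1 := hN1 n
  have h2 := hN2 n
  set u := raL U (fun n a => ⨆ i : Fin m, w i ⊓ (ρ i).τ n a) n
  set v := raL U σ.τ n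
  set t := ∑ i : Fin m, if U (w i) then raL U (fun n a => (ρ i).τ n a ⊓ σ.τ n a) n else 0
  -- `u * s ≥ (k * (j0 + 1) + 1) * 2 ^ n`, `v * s ≥ (j0 + 1) * 2 ^ n`, so `t * s ≥ 2 ^ n`
  have h3 : (j0 + 1) * 2 ^ n ≤ v * s := by
    calc (j0 + 1) * 2 ^ n = (1 * 2 ^ n) * (j0 + 1) := by ring
      _ ≤ (v * (k + 1)) * (j0 + 1) := Nat.mul_le_mul_right _ h2
      _ = v * s := by rw [hs]; ring
  have h4 : (u + v) * s ≤ (2 ^ n + t) * s := Nat.mul_le_mul_right _ hcount
  have h5 : 2 ^ n ≤ t * s := by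
    have h6 : (k * (j0 + 1) + 1) * 2 ^ n + (j0 + 1) * 2 ^ n = s * 2 ^ n + 2 ^ n := by
      rw [hs]; ring
    have h7 : (u + v) * s = u * s + v * s := by ring
    have h8 : (2 ^ n + t) * s = s * 2 ^ n + t * s := by ring
    omega
  have h6 : 2 ^ n * (m * s + 1) ≤ m * 2 ^ n * s :=
    calc 2 ^ n * (m * s + 1) ≤ t * s * (m * s + 1) := Nat.mul_le_mul_right _ h5
      _ = t * (m * s + 1) * s := by ring
      _ ≤ m * 2 ^ n * s := Nat.mul_le_mul_right _ hsum
  have h7 : 2 ^ n * (m * s + 1) = m * 2 ^ n * s + 2 ^ n := by ring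
  have h8 : 0 < 2 ^ n := by positivity
  omega

end CI
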