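import Pool.Agent.CI.C.RndStm

/-!
# Project CI: averaging (R4)
-/

set_option autoImplicit false

open Set

namespace CI

universe u

/-! ### Ultrafilters and finite counting -/

/-- `U` is an ultrafilter on `B` -/
structure RaUf {B : Type u} [CompleteBooleanAlgebra B] (U : B → Prop) : Prop where
  bot : ¬ U ⊥
  inf : ∀ a c, U (a ⊓ c) ↔ U a ∧ U c
  compl : ∀ a, U aᶜ ↔ ¬ U a

namespace RaUf

variable {B : Type u} [CompleteBooleanAlgebra B] {U : B → Prop} (h : RaUf U)

include h

theorem top : U ⊤ := by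
  rw [← compl_bot, h.compl]
  exact h.bot

theorem mono {a b : B} (hab : a ≤ b) (ha : U a) : U b := by
  rw [← inf_eq_left.2 hab, h.inf] at ha
  exact ha.2

theorem sup (a b : B) : U (a ⊔ b) ↔ U a ∨ U b := by
  have h1 : a ⊔ b = (aᶜ ⊓ bᶜ)ᶜ := by rw [compl_inf, compl_compl, compl_compl]
  rw [h1, h.compl, h.inf, h.compl, h.compl]
  tauto

theorem finf {α : Type*} (s : Finset α) (f : α → B) : U (s.inf f) ↔ ∀ a ∈ s, U (f a) := by
  classical
  induction s using Finset.induction_on with
  | empty => simp [h.top]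
  | insert a s _ ih => rw [Finset.inf_insert, h.inf, ih]; simp

theorem fsup {α : Type*} (s : Finset α) (f : α → B) : U (s.sup f) ↔ ∃ a ∈ s, U (f a) := by
  classical
  induction s using Finset.induction_on with
  | empty => simp [h.bot]
  | insert a s _ ih => rw [Finset.sup_insert, h.sup, ih]; simp

open Classical in
theorem cnt {α : Type} (A : Finset α) (x : α → B) (s r : ℕ) :
    U (cntGe A x s r) ↔ r ≤ (A.filter fun a => U (x a)).card * s := by
  constructor
  · intro h1
    have h2 : cntGe A x s r ≤ (A.powerset.filter fun C => r ≤ C.card * s).sup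
        fun C => C.inf x := by
      refine iSup_le fun C => iSup_le fun hC => ?_
      have h3 : C ∈ A.powerset.filter fun C => r ≤ C.card * s :=
        Finset.mem_filter.2 ⟨Finset.mem_powerset.2 hC.1, hC.2⟩
      exact Finset.le_sup (f := fun C => C.inf x) h3
    obtain ⟨C, hC, h3⟩ := (h.fsup _ _).1 (h.mono h2 h1)
    rw [Finset.mem_filter, Finset.mem_powerset] at hC
    rw [h.finf] at h3
    refine hC.2.trans (Nat.mul_le_mul_right _ (Finset.card_le_card fun a ha => ?_))
    exact Finset.mem_filter.2 ⟨hC.1 ha, h3 a ha⟩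
  · intro h1
    have h2 : (A.filter fun a => U (x a)).inf x ≤ cntGe A x s r :=
      le_iSup_of_le _ (le_iSup_of_le ⟨Finset.filter_subset _ _, h1⟩ le_rfl)
    refine h.mono h2 ((h.finf _ _).2 fun a ha => (Finset.mem_filter.1 ha).2)

open Classical in
theorem mge (T : ℕ → Finset ℕ → B) (s r : ℕ)
    (hr : U (⨆ n, (cntGe (Finset.range n).powerset (T n) s (r * 2 ^ n))ᶜ) ↔
      ∃ n, U (cntGe (Finset.range n).powerset (T n) s (r * 2 ^ n))ᶜ) :
    U (mGe T s r) ↔
      ∀ n, r * 2 ^ n ≤ ((Finset.range n).powerset.filter fun a => U (T n a)).card * s := by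
  have h1 : mGe T s r = (⨆ n, (cntGe (Finset.range n).powerset (T n) s (r * 2 ^ n))ᶜ)ᶜ := by
    rw [compl_iSup, mGe]
    simp only [compl_compl]
  rw [h1, h.compl, hr]
  push Not
  refine forall_congr' fun n => ?_
  rw [h.compl, not_not, h.cnt]

open Classical in
theorem of_mge_top (T : ℕ → Finset ℕ → B) (s r : ℕ) (hT : mGe T s r = ⊤) (n : ℕ) :
    r * 2 ^ n ≤ ((Finset.range n).powerset.filter fun a => U (T n a)).card * s := by
  rw [← h.cnt]
  refine h.mono ?_ h.top
  rw [← hT]
  exact iInf_le _ n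

end RaUf

/-! ### Two-valued averaging -/

open Classical in
/-- the levels of a decreasing tree -/
theorem ra_dec (S : ℕ → Finset ℕ → Prop) (hS : ∀ n a, S (n + 1) a → S n (a.erase n)) (n : ℕ) :
    ((Finset.range (n + 1)).powerset.filter (S (n + 1))).card ≤
      2 * ((Finset.range n).powerset.filter (S n)).card := by
  refine Finset.card_le_mul_card_image_of_maps_to (f := fun a => a.erase n) ?_ 2 ?_
  · intro a ha
    rw [Finset.mem_filter, Finset.mem_powerset] at ha ⊢
    refine ⟨fun x hx => ?_, hS n a ha.2⟩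
    rw [Finset.mem_erase] at hx
    have h1 := ha.1 hx.2
    rw [Finset.mem_range] at h1 ⊢
    omega
  · intro b hb
    have h1 : (((Finset.range (n + 1)).powerset.filter (S (n + 1))).filter
        fun a => a.erase n = b) ⊆ {b, insert n b} := by
      intro a ha
      rw [Finset.mem_filter] at ha
      rw [Finset.mem_insert, Finset.mem_singleton]
      by_cases hn : n ∈ a
      · right
        rw [← ha.2, Finset.insert_erase hn]
      · left
        rw [← ha.2, Finset.erase_eq_of_notMem hn]
    exact (Finset.card_le_card h1).trans Finset.card_le_two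

open Classical in
theorem ra_down (S : ℕ → Finset ℕ → Prop) (hS : ∀ n a, S (n + 1) a → S n (a.erase n)) (K n m : ℕ)
    (hnm : n ≤ m) (hm : 2 ^ m ≤ ((Finset.range m).powerset.filter (S m)).card * K) :
    2 ^ n ≤ ((Finset.range n).powerset.filter (S n)).card * K := by
  induction m, hnm using Nat.le_induction with
  | base => exact hm
  | succ m _ ih =>
    refine ih ?_
    have h1 := Nat.mul_le_mul_right K (ra_dec S hS m)
    rw [pow_succ] at hm
    nlinarith

open Classical in
/-- averaging at one level -/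
theorem ra_fin (k M : ℕ) (A : Finset (Finset ℕ)) (P : Fin M → Finset ℕ → Prop) (hA : A.Nonempty)
    (hP : ∀ i, A.card ≤ (A.filter (P i)).card * (k + 1)) :
    ∃ J : Finset (Fin M), M ≤ J.card * (2 * (k + 1)) ∧
      A.card ≤ (A.filter fun a => ∀ i ∈ J, P i a).card * (2 * (k + 1) * 2 ^ M) := by
  rcases Nat.eq_zero_or_pos M with hM | hM
  · subst hM
    refine ⟨∅, by simp, ?_⟩
    have h1 : (A.filter fun a => ∀ i ∈ (∅ : Finset (Fin 0)), P i a) = A :=
      Finset.filter_true_of_mem fun a _ i hi => absurd hi (Finset.notMem_empty i)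
    rw [h1]
    nlinarith [A.card.zero_le]
  set I : Finset ℕ → Finset (Fin M) := fun a => Finset.univ.filter fun i => P i a with hI
  have hI1 : ∀ a, (I a).card ≤ M := fun a => (Finset.card_le_univ _).trans (by simp)
  have h1 : ∑ a ∈ A, (I a).card = ∑ i : Fin M, (A.filter (P i)).card := by
    simp only [hI, Finset.card_filter]
    exact Finset.sum_comm
  have h2 : M * A.card ≤ (∑ a ∈ A, (I a).card) * (k + 1) := by
    rw [h1, Finset.sum_mul]
    refine le_trans ?_ (Finset.sum_le_sum fun i _ => hP i)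
    rw [Finset.sum_const, Finset.card_univ, Fintype.card_fin, smul_eq_mul]
  set G := A.filter fun a => M ≤ (I a).card * (2 * (k + 1)) with hG
  have h3 : (∑ a ∈ A, (I a).card) * (2 * (k + 1)) ≤ G.card * (M * (2 * (k + 1))) + A.card * M := by
    have h4 : ∀ a ∈ A, (I a).card * (2 * (k + 1)) ≤
        (if M ≤ (I a).card * (2 * (k + 1)) then M * (2 * (k + 1)) else 0) + M := by
      intro a _
      split_ifs with h5
      · have := Nat.mul_le_mul_right (2 * (k + 1)) (hI1 a)
        omega
      · omega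
    have h5 := Finset.sum_le_sum h4
    rw [Finset.sum_add_distrib, ← Finset.sum_filter, Finset.sum_const, Finset.sum_const,
      smul_eq_mul, smul_eq_mul, ← Finset.sum_mul] at h5
    exact h5
  have h4 : A.card ≤ G.card * (2 * (k + 1)) := by
    have h5 : M * A.card ≤ M * (G.card * (2 * (k + 1))) := by nlinarith
    exact Nat.le_of_mul_le_mul_left h5 hM
  have h5 : ∃ J : Finset (Fin M), G.card ≤ 2 ^ M * (G.filter fun a => I a = J).card := by
    by_contra hcon
    push Not at hcon
    have h6 := Finset.sum_lt_sum_of_nonempty (s := (Finset.univ : Finset (Finset (Fin M))))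
      Finset.univ_nonempty fun J _ => hcon J
    rw [← Finset.mul_sum, Finset.sum_const, smul_eq_mul, Finset.card_univ, Fintype.card_finset,
      Fintype.card_fin] at h6
    have h7 := Finset.card_eq_sum_card_fiberwise (f := I) (s := G)
      (t := (Finset.univ : Finset (Finset (Fin M)))) (fun _ _ => Finset.mem_coe.2 (Finset.mem_univ _))
    rw [← h7] at h6
    exact lt_irrefl _ h6
  obtain ⟨J, hJ⟩ := h5
  have hA0 : 0 < A.card := Finset.card_pos.2 hA
  have hG0 : 0 < (G.filter fun a => I a = J).card := by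
    rcases Nat.eq_zero_or_pos (G.filter fun a => I a = J).card with h6 | h6
    · rw [h6, mul_zero] at hJ
      have h7 : G.card = 0 := by omega
      rw [h7, zero_mul] at h4
      omega
    · exact h6
  obtain ⟨a, ha⟩ := Finset.card_pos.1 hG0
  rw [Finset.mem_filter, hG, Finset.mem_filter] at ha
  refine ⟨J, ?_, ?_⟩
  · rw [← ha.2]
    exact ha.1.2
  · have h6 : (G.filter fun a => I a = J).card ≤ (A.filter fun a => ∀ i ∈ J, P i a).card := by
      refine Finset.card_le_card fun b hb => ?_
      rw [Finset.mem_filter, hG, Finset.mem_filter] at hb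
      rw [Finset.mem_filter]
      refine ⟨hb.1.1, fun i hi => ?_⟩
      rw [← hb.2] at hi
      exact (Finset.mem_filter.1 hi).2
    calc A.card ≤ G.card * (2 * (k + 1)) := h4
      _ ≤ (2 ^ M * (G.filter fun a => I a = J).card) * (2 * (k + 1)) := Nat.mul_le_mul_right _ hJ
      _ ≤ (2 ^ M * (A.filter fun a => ∀ i ∈ J, P i a).card) * (2 * (k + 1)) :=
        Nat.mul_le_mul_right _ (Nat.mul_le_mul_left _ h6)
      _ = _ := by ring

theorem rAmalgStm (h : RSStm.{u}) : RAmalgStm.{u} := by
  classical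
  intro B _ W hW k M c hc
  by_contra hcon
  set s : B := ⨆ J : Finset (Fin M), ⨆ _ : M ≤ J.card * (2 * (k + 1)), ⨆ j : ℕ,
    mGe (fun n a => J.inf fun i => (c i).τ n a) (j + 1) 1 with hs
  obtain ⟨e, he⟩ := exists_surjective_nat (Finset (Fin M))
  obtain ⟨j, hj⟩ : ∃ j, j + 1 = 2 * (k + 1) * 2 ^ M :=
    ⟨2 * (k + 1) * 2 ^ M - 1, Nat.sub_add_cancel
      (Nat.succ_le_of_lt (by positivity))⟩
  obtain ⟨U, hb, h0, h1, h2, h3⟩ := h B sᶜ (fun m n => (cntGe (Finset.range n).powerset
    (fun a => (e m).inf fun i => (c i).τ n a) (j + 1) (1 * 2 ^ n))ᶜ)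
    (fun h4 => hcon (by rwa [compl_eq_bot] at h4))
  have hU : RaUf U := ⟨h0, h1, h2⟩
  -- the real trees
  have hP : ∀ i n, 2 ^ n ≤ ((Finset.range n).powerset.filter fun a => U ((c i).τ n a)).card *
      (k + 1) := by
    intro i n
    have h4 := hU.of_mge_top _ _ _ (c i).big n
    rw [one_mul] at h4
    exact h4.trans (Nat.mul_le_mul_left _ (by have := hc i; omega))
  have hex : ∃ J : Finset (Fin M), M ≤ J.card * (2 * (k + 1)) ∧ ∀ n,
      2 ^ n ≤ ((Finset.range n).powerset.filter fun a => ∀ i ∈ J, U ((c i).τ n a)).card *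
        (2 * (k + 1) * 2 ^ M) := by
    by_contra hno
    push Not at hno
    have h4 : ∀ J : Finset (Fin M), ∃ n, M ≤ J.card * (2 * (k + 1)) →
        ((Finset.range n).powerset.filter fun a => ∀ i ∈ J, U ((c i).τ n a)).card *
        (2 * (k + 1) * 2 ^ M) < 2 ^ n := by
      intro J
      by_cases h5 : M ≤ J.card * (2 * (k + 1))
      · obtain ⟨n, hn⟩ := hno J h5
        exact ⟨n, fun _ => hn⟩
      · exact ⟨0, fun h6 => absurd h6 h5⟩
    choose f hf using h4
    set N := Finset.univ.sup f with hN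
    obtain ⟨J, hJ, hJ2⟩ := ra_fin k M (Finset.range N).powerset (fun i a => U ((c i).τ N a))
      ⟨∅, Finset.empty_mem_powerset _⟩ (fun i => by
        rw [Finset.card_powerset, Finset.card_range]
        exact hP i N)
    rw [Finset.card_powerset, Finset.card_range] at hJ2
    have h5 := hf J hJ
    have h6 := ra_down (fun n a => ∀ i ∈ J, U ((c i).τ n a))
      (fun n a ha i hi => hU.mono ((c i).dec n a) (ha i hi)) (2 * (k + 1) * 2 ^ M) (f J) N
      (Finset.le_sup (Finset.mem_univ J)) (by convert hJ2)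
    refine lt_irrefl (2 ^ f J) (lt_of_le_of_lt ?_ h5)
    refine h6.trans (le_of_eq ?_)
    congr!
  obtain ⟨J, hJ, hJ2⟩ := hex
  obtain ⟨m, rfl⟩ := he J
  have h4 : U (mGe (fun n a => (e m).inf fun i => (c i).τ n a) (j + 1) 1) := by
    rw [hU.mge _ _ _ (h3 m)]
    intro n
    rw [one_mul, hj]
    refine (hJ2 n).trans (Nat.mul_le_mul_right _ (Finset.card_le_card fun a ha => ?_))
    rw [Finset.mem_filter] at ha ⊢
    exact ⟨ha.1, (hU.finf _ _).2 ha.2⟩
  have h5 : U s := hU.mono (le_iSup_of_le (e m) (le_iSup_of_le hJ (le_iSup_of_le j le_rfl))) h4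
  exact (h2 s).1 hb h5

end CI
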