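import Pool.Agent.CI.C.RAvoidA

/-!
# Project CI: closed sets avoiding countably many closed sets
-/

set_option autoImplicit false

open Set

namespace CI

universe u

/-- ultrafilters as predicates -/
structure RavU {B : Type u} [CompleteBooleanAlgebra B] (U : B → Prop) : Prop where
  bot : ¬ U ⊥
  inf : ∀ a c, U (a ⊓ c) ↔ U a ∧ U c
  compl : ∀ a, U aᶜ ↔ ¬ U a

section

variable {B : Type u} [CompleteBooleanAlgebra B]

theorem RavU.top {U : B → Prop} (hU : RavU U) : U ⊤ := by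
  have h := (hU.compl ⊥).2 hU.bot
  rwa [compl_bot] at h

theorem RavU.mono {U : B → Prop} (hU : RavU U) {a c : B} (h : a ≤ c) (ha : U a) : U c := by
  rw [← inf_eq_left.2 h] at ha
  exact ((hU.inf a c).1 ha).2

theorem RavU.sup {U : B → Prop} (hU : RavU U) (a c : B) : U (a ⊔ c) ↔ U a ∨ U c := by
  have h : a ⊔ c = (aᶜ ⊓ cᶜ)ᶜ := by rw [compl_inf, compl_compl, compl_compl]
  rw [h, hU.compl, hU.inf, hU.compl, hU.compl]
  tauto

theorem RavU.himp {U : B → Prop} (hU : RavU U) (a c : B) : U (a ⇨ c) ↔ (U a → U c) := by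
  rw [himp_eq, hU.sup, hU.compl]
  tauto

theorem RavU.finf {U : B → Prop} (hU : RavU U) {α : Type} (C : Finset α) (x : α → B) :
    U (C.inf x) ↔ ∀ a ∈ C, U (x a) := by
  classical
  induction C using Finset.induction_on with
  | empty => simp [hU.top]
  | insert a s _ ih =>
    rw [Finset.inf_insert, hU.inf, ih]
    simp

theorem RavU.fsup {U : B → Prop} (hU : RavU U) {ι : Type} [Finite ι] (f : ι → B) :
    U (⨆ i, f i) ↔ ∃ i, U (f i) := by
  classical
  cases nonempty_fintype ι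
  have h : ∀ s : Finset ι, U (s.sup f) ↔ ∃ i ∈ s, U (f i) := by
    intro s
    induction s using Finset.induction_on with
    | empty => simp [hU.bot]
    | insert a s _ ih =>
      rw [Finset.sup_insert, hU.sup, ih]
      simp
  rw [← Finset.sup_univ_eq_iSup, h]
  simp

open Classical in
theorem RavU.cnt {U : B → Prop} (hU : RavU U) {α : Type} (A : Finset α) (x : α → B) (s r : ℕ) :
    U (cntGe A x s r) ↔ r ≤ (A.filter fun a => U (x a)).card * s := by
  unfold cntGe
  rw [iSup_subtype']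
  have : Finite {C : Finset α // C ⊆ A ∧ r ≤ C.card * s} :=
    Finite.of_injective (fun C => (⟨C.1, Finset.mem_powerset.2 C.2.1⟩ : {C // C ∈ A.powerset}))
      (fun C D h => Subtype.ext (Subtype.mk.inj h))
  rw [hU.fsup]
  constructor
  · rintro ⟨⟨C, hC1, hC2⟩, hC3⟩
    have h1 : C ⊆ A.filter fun a => U (x a) := fun a ha =>
      Finset.mem_filter.2 ⟨hC1 ha, (hU.finf C x).1 hC3 a ha⟩
    exact hC2.trans (Nat.mul_le_mul_right s (Finset.card_le_card h1))
  · intro h
    exact ⟨⟨A.filter fun a => U (x a), Finset.filter_subset _ _, h⟩,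
      (hU.finf _ x).2 fun a ha => (Finset.mem_filter.1 ha).2⟩

/-- ultrafilters respecting countably many infima -/
theorem rav_rs (h : RSStm.{u}) (b : B) (hb : b ≠ ⊥) (ι : Type) [Countable ι] [Nonempty ι]
    (x : ι → ℕ → B) :
    ∃ U : B → Prop, U b ∧ RavU U ∧ ∀ i, (∀ n, U (x i n)) → U (⨅ n, x i n) := by
  obtain ⟨e, he⟩ := exists_surjective_nat ι
  obtain ⟨U, h1, h2, h3, h4, h5⟩ := h B b (fun k n => (x (e k) n)ᶜ) hb
  refine ⟨U, h1, ⟨h2, h3, h4⟩, fun i hi => ?_⟩
  obtain ⟨k, rfl⟩ := he i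
  have h6 := h5 k
  rw [← compl_iInf, h4] at h6
  by_contra hc
  obtain ⟨n, hn⟩ := h6.1 hc
  exact (h4 _).1 hn (hi n)

/-! ### closure of `W` -/

theorem ravW_isup {W : Set B} (hW : IsSS W) {ι : Type} [Countable ι] (f : ι → B)
    (hf : ∀ i, f i ∈ W) : ⨆ i, f i ∈ W := by
  rcases isEmpty_or_nonempty ι with h | h
  · rw [iSup_of_empty]
    exact hW.bot
  · obtain ⟨e, he⟩ := exists_surjective_nat ι
    rw [← he.iSup_comp]
    exact hW.iSup _ fun n => hf (e n)

theorem ravW_top {W : Set B} (hW : IsSS W) : (⊤ : B) ∈ W := by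
  rw [← compl_bot]
  exact hW.compl _ hW.bot

theorem ravW_sup {W : Set B} (hW : IsSS W) {a c : B} (ha : a ∈ W) (hc : c ∈ W) : a ⊔ c ∈ W := by
  rw [sup_eq_iSup]
  exact ravW_isup hW _ fun b => by cases b <;> simpa

theorem ravW_inf {W : Set B} (hW : IsSS W) {a c : B} (ha : a ∈ W) (hc : c ∈ W) : a ⊓ c ∈ W := by
  have h : a ⊓ c = (aᶜ ⊔ cᶜ)ᶜ := by rw [compl_sup, compl_compl, compl_compl]
  rw [h]
  exact hW.compl _ (ravW_sup hW (hW.compl _ ha) (hW.compl _ hc))

theorem ravW_himp {W : Set B} (hW : IsSS W) {a c : B} (ha : a ∈ W) (hc : c ∈ W) :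
    a ⇨ c ∈ W := by
  rw [himp_eq]
  exact ravW_sup hW hc (hW.compl _ ha)

theorem ravW_iinf {W : Set B} (hW : IsSS W) {ι : Type} [Countable ι] (f : ι → B)
    (hf : ∀ i, f i ∈ W) : ⨅ i, f i ∈ W := by
  have h : ⨅ i, f i = (⨆ i, (f i)ᶜ)ᶜ := by rw [← compl_iInf, compl_compl]
  rw [h]
  exact hW.compl _ (ravW_isup hW _ fun i => hW.compl _ (hf i))

theorem ravW_finf {W : Set B} (hW : IsSS W) {α : Type} (C : Finset α) (x : α → B)
    (hx : ∀ a, x a ∈ W) : C.inf x ∈ W := by
  classical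
  induction C using Finset.induction_on with
  | empty => exact ravW_top hW
  | insert a s _ ih =>
    rw [Finset.inf_insert]
    exact ravW_inf hW (hx a) ih

theorem ravW_cnt {W : Set B} (hW : IsSS W) {α : Type} [Countable α] (A : Finset α) (x : α → B)
    (hx : ∀ a, x a ∈ W) (s r : ℕ) : cntGe A x s r ∈ W := by
  unfold cntGe
  refine ravW_isup hW _ fun C => ?_
  by_cases h : C ⊆ A ∧ r ≤ C.card * s
  · rw [iSup_pos h]
    exact ravW_finf hW C x hx
  · rw [iSup_neg h]
    exact hW.bot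

/-! ### the name -/

/-- the finite unions -/
noncomputable def ravV (w : ℕ → B) (t : ℕ → ℕ → Finset ℕ → B) (m n : ℕ) (a : Finset ℕ) : B :=
  ⨆ i : Fin m, w i ⊓ t i n a

/-- the value of: level `l'` is at least level `l` minus `1 / ((k + 1) * 2 ^ (m + 3))` -/
noncomputable def ravG (V : ℕ → ℕ → Finset ℕ → B) (k m l l' : ℕ) : B :=
  if l ≤ l' then (Finset.range (2 ^ l + 1)).inf fun c =>
    (cntGe (Finset.range l).powerset (V m l) 1 c ⇨
      cntGe (Finset.range l').powerset (V m l') (2 ^ l * ((k + 1) * 2 ^ (m + 3)))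
        (c * 2 ^ l' * ((k + 1) * 2 ^ (m + 3)) - 2 ^ (l + l')))
  else ⊤

/-- the value of: level `l` is good for `m` -/
noncomputable def ravP (V : ℕ → ℕ → Finset ℕ → B) (k m l : ℕ) : B := ⨅ l', ravG V k m l l'

/-- the name of the avoiding set -/
noncomputable def ravTau (V : ℕ → ℕ → Finset ℕ → B) (k : ℕ) (v : B) (n : ℕ) (a : Finset ℕ) : B :=
  if a ⊆ Finset.range n then
    vᶜ ⊔ (Finset.range (n + 1)).inf fun l => (Finset.range (l + 1)).inf fun m =>
      (ravP V k m l ⇨ (V m l (a ∩ Finset.range l))ᶜ)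
  else ⊥

open Classical in
/-- the trees given by an ultrafilter -/
noncomputable def ravR (U : B → Prop) (V : ℕ → ℕ → Finset ℕ → B) (m n : ℕ) :
    Finset (Finset ℕ) :=
  (Finset.range n).powerset.filter fun a => U (V m n a)

omit [CompleteBooleanAlgebra B] in
open Classical in
theorem mem_ravR {U : B → Prop} {V : ℕ → ℕ → Finset ℕ → B} {m n : ℕ} {a : Finset ℕ} :
    a ∈ ravR U V m n ↔ a ⊆ Finset.range n ∧ U (V m n a) := by
  unfold ravR
  rw [Finset.mem_filter, Finset.mem_powerset]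

theorem ravTau_mem {W : Set B} (hW : IsSS W) {V : ℕ → ℕ → Finset ℕ → B}
    (hV : ∀ m n a, V m n a ∈ W) (k : ℕ) {v : B} (hv : v ∈ W) (n : ℕ) (a : Finset ℕ) :
    ravTau V k v n a ∈ W := by
  unfold ravTau
  split_ifs
  · refine ravW_sup hW (hW.compl _ hv) (ravW_finf hW _ _ fun l => ravW_finf hW _ _ fun m =>
      ravW_himp hW ?_ (hW.compl _ (hV _ _ _)))
    refine ravW_iinf hW _ fun l' => ?_
    unfold ravG
    split_ifs
    · exact ravW_finf hW _ _ fun c => ravW_himp hW (ravW_cnt hW _ _ (hV m l) _ _)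
        (ravW_cnt hW _ _ (hV m l') _ _)
    · exact ravW_top hW
  · exact hW.bot

theorem ravTau_dec (V : ℕ → ℕ → Finset ℕ → B) (k : ℕ) (v : B) : DecT (ravTau V k v) := by
  intro n a
  unfold ravTau
  by_cases h : a ⊆ Finset.range (n + 1)
  · have h2 : a.erase n ⊆ Finset.range n := by
      intro x hx
      have h3 := Finset.mem_erase.1 hx
      have h4 := Finset.mem_range.1 (h h3.2)
      rw [Finset.mem_range]
      omega
    rw [if_pos h, if_pos h2]
    refine sup_le_sup_left ?_ _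
    refine Finset.le_inf fun l hl => ?_
    have hl' := Finset.mem_range.1 hl
    refine (Finset.inf_le (Finset.mem_range.2 (by omega : l < n + 1 + 1))).trans ?_
    have h5 : a.erase n ∩ Finset.range l = a ∩ Finset.range l := by
      ext x
      simp only [Finset.mem_inter, Finset.mem_erase, Finset.mem_range]
      constructor
      · rintro ⟨⟨-, h3⟩, h4⟩
        exact ⟨h3, h4⟩
      · rintro ⟨h3, h4⟩
        exact ⟨⟨by omega, h3⟩, h4⟩
    rw [h5]
  · rw [if_neg h]
    exact bot_le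

theorem ravR_tree {U : B → Prop} (hU : RavU U) {V : ℕ → ℕ → Finset ℕ → B} {m : ℕ}
    (hV : DecT (V m)) : RavT (ravR U V m) := by
  refine ⟨fun n a ha => Finset.mem_powerset.2 (mem_ravR.1 ha).1, fun n a ha => ?_⟩
  have h1 := mem_ravR.1 ha
  refine mem_ravR.2 ⟨?_, hU.mono (hV n a) h1.2⟩
  intro x hx
  have h3 := Finset.mem_erase.1 hx
  have h4 := Finset.mem_range.1 (h1.1 h3.2)
  rw [Finset.mem_range]
  omega

theorem ravG_iff {U : B → Prop} (hU : RavU U) (V : ℕ → ℕ → Finset ℕ → B) (k m l l' : ℕ)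
    (hl : l ≤ l') : U (ravG V k m l l') ↔
      ravD (ravR U V m) l ≤ ravD (ravR U V m) l' + 1 / ((k + 1) * 2 ^ (m + 3)) := by
  classical
  unfold ravG
  rw [if_pos hl, hU.finf]
  have h1 : ∀ c, U (cntGe (Finset.range l).powerset (V m l) 1 c ⇨
      cntGe (Finset.range l').powerset (V m l') (2 ^ l * ((k + 1) * 2 ^ (m + 3)))
        (c * 2 ^ l' * ((k + 1) * 2 ^ (m + 3)) - 2 ^ (l + l'))) ↔
      (c ≤ (ravR U V m l).card → c * 2 ^ l' * ((k + 1) * 2 ^ (m + 3)) ≤
        (ravR U V m l').card * (2 ^ l * ((k + 1) * 2 ^ (m + 3))) + 2 ^ (l + l')) := by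
    intro c
    rw [hU.himp, hU.cnt, hU.cnt, mul_one, Nat.sub_le_iff_le_add]
    unfold ravR
    rfl
  simp only [h1]
  have hc : (ravR U V m l).card ≤ 2 ^ l := by
    have h2 : ravR U V m l ⊆ (Finset.range l).powerset := fun a ha =>
      Finset.mem_powerset.2 (mem_ravR.1 ha).1
    have h3 := Finset.card_le_card h2
    rwa [Finset.card_powerset, Finset.card_range] at h3
  have h2 : ravD (ravR U V m) l ≤ ravD (ravR U V m) l' + 1 / ((k + 1) * 2 ^ (m + 3)) ↔
      (ravR U V m l).card * 2 ^ l' * ((k + 1) * 2 ^ (m + 3)) ≤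
        (ravR U V m l').card * (2 ^ l * ((k + 1) * 2 ^ (m + 3))) + 2 ^ (l + l') := by
    unfold ravD
    rw [← Nat.cast_le (α := ℝ)]
    push_cast
    have hp1 : (0 : ℝ) < 2 ^ l := by positivity
    have hp2 : (0 : ℝ) < 2 ^ l' := by positivity
    have hp3 : (0 : ℝ) < ((k : ℝ) + 1) * 2 ^ (m + 3) := by positivity
    rw [pow_add 2 l l']
    generalize ((k : ℝ) + 1) * 2 ^ (m + 3) = E at *
    generalize (2 : ℝ) ^ l = p at *
    generalize (2 : ℝ) ^ l' = p' at *
    rw [div_add_div _ _ hp2.ne' hp3.ne', div_le_div_iff₀ hp1 (by positivity)]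
    constructor
    · intro h
      linarith
    · intro h
      linarith
  rw [h2]
  constructor
  · intro h
    exact h _ (Finset.mem_range.2 (by omega)) le_rfl
  · intro h c _ hc'
    exact (Nat.mul_le_mul_right _ (Nat.mul_le_mul_right _ hc')).trans h

/-- the ultrafilters used below -/
theorem rav_ex (h : RSStm.{u}) (V : ℕ → ℕ → Finset ℕ → B) (k : ℕ) (b : B) (hb : b ≠ ⊥) :
    ∃ U : B → Prop, U b ∧ RavU U ∧
      (∀ m l, U (ravP V k m l) ↔ ∀ l', l ≤ l' →
        ravD (ravR U V m) l ≤ ravD (ravR U V m) l' + 1 / ((k + 1) * 2 ^ (m + 3))) ∧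
      (∀ m, (∀ n, U (cntGe (Finset.range n).powerset (V m n) ((k + 1) * (3 + 1))
        ((k * (3 + 1) + 1) * 2 ^ n))) → U (mGe (V m) ((k + 1) * (3 + 1)) (k * (3 + 1) + 1))) := by
  obtain ⟨U, h1, h2, h3⟩ := rav_rs h b hb ((ℕ × ℕ) ⊕ ℕ) (Sum.elim (fun p => ravG V k p.1 p.2)
    (fun m n => cntGe (Finset.range n).powerset (V m n) ((k + 1) * (3 + 1))
        ((k * (3 + 1) + 1) * 2 ^ n)))
  refine ⟨U, h1, h2, fun m l => ?_, fun m => h3 (Sum.inr m)⟩
  constructor
  · intro h4 l' hl'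
    exact (ravG_iff h2 V k m l l' hl').1 (h2.mono (iInf_le _ l') h4)
  · intro h4
    refine h3 (Sum.inl (m, l)) fun l' => ?_
    show U (ravG V k m l l')
    by_cases hl' : l ≤ l'
    · exact (ravG_iff h2 V k m l l' hl').2 (h4 l' hl')
    · unfold ravG
      rw [if_neg hl']
      exact h2.top

theorem ravTau_iff {U : B → Prop} (hU : RavU U) (V : ℕ → ℕ → Finset ℕ → B) (k : ℕ) {v : B}
    (hv : U v) (n : ℕ) (a : Finset ℕ) : U (ravTau V k v n a) ↔ a ⊆ Finset.range n ∧
      ∀ m l, m ≤ l → l ≤ n → U (ravP V k m l) → a ∩ Finset.range l ∉ ravR U V m l := by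
  unfold ravTau
  by_cases h : a ⊆ Finset.range n
  · rw [if_pos h, hU.sup, hU.compl, hU.finf]
    simp only [hU.finf, hU.himp, hU.compl, Finset.mem_range]
    constructor
    · intro h1
      refine ⟨h, fun m l h2 h3 h4 h5 => ?_⟩
      rcases h1 with h1 | h1
      · exact h1 hv
      · exact h1 l (by omega) m (by omega) h4 (mem_ravR.1 h5).2
    · rintro ⟨-, h1⟩
      refine Or.inr fun l h2 m h3 h4 h5 => h1 m l (by omega) (by omega) h4 ?_
      exact mem_ravR.2 ⟨Finset.inter_subset_right, h5⟩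
  · rw [if_neg h]
    exact ⟨fun h1 => absurd h1 hU.bot, fun h1 => absurd h1.1 h⟩

end

theorem rAvoidStm (h : RSStm.{u}) : RAvoidStm.{u} := by
  classical
  intro B _ W hW ρ w v k hw hv hm
  set V : ℕ → ℕ → Finset ℕ → B := ravV w (fun i => (ρ i).τ) with hV
  have hVm : ∀ m n a, V m n a ∈ W := fun m n a =>
    ravW_isup hW _ fun i => ravW_inf hW (hw i) ((ρ i).mem n a)
  have hVd : ∀ m, DecT (V m) := fun m n a =>
    iSup_mono fun i => inf_le_inf_left _ ((ρ i).dec n a)
  have hVs : ∀ m n a, V m n a ≤ V (m + 1) n a := fun m n a =>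
    iSup_le fun i => le_iSup (fun i : Fin (m + 1) => w i ⊓ (ρ i).τ n a) i.castSucc
  have hbig : mGe (ravTau V k v) (2 * k + 1 + 1) 1 = ⊤ := by
    unfold mGe
    rw [iInf_eq_top]
    intro n
    by_contra hne
    have hb : (cntGe (Finset.range n).powerset (ravTau V k v n) (2 * k + 1 + 1) (1 * 2 ^ n))ᶜ ≠ ⊥ :=
      fun h0 => hne (compl_eq_bot.1 h0)
    obtain ⟨U, h1, h2, h3, h4⟩ := rav_ex h V k _ hb
    rw [h2.compl, h2.cnt] at h1
    apply h1
    by_cases hUv : U v
    · have h5 : ((Finset.range n).powerset.filter fun a => U (ravTau V k v n a)) =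
          ravK (fun m => ravR U V m) (fun m l => U (ravP V k m l)) n := by
        unfold ravK
        refine Finset.filter_congr fun a ha => ?_
        rw [ravTau_iff h2 V k hUv]
        exact ⟨fun h => h.2, fun h => ⟨Finset.mem_powerset.1 ha, h⟩⟩
      rw [h5, one_mul]
      have h6 := ravK_big (fun m => ravR U V m) (fun m l => U (ravP V k m l)) k
        (fun m => ravR_tree h2 (hVd m))
        (fun m n a ha => mem_ravR.2 ⟨(mem_ravR.1 ha).1, h2.mono (hVs m n a) (mem_ravR.1 ha).2⟩)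
        (fun m l => (h3 m l).1) ?_ n
      · exact h6
      · intro m
        have h7 : ¬ U (mGt (V m) k) := by
          have h8 := h2.mono (hm m) hUv
          rw [h2.compl] at h8
          exact h8
        have h9 : ¬ U (mGe (V m) ((k + 1) * (3 + 1)) (k * (3 + 1) + 1)) := fun h10 =>
          h7 (h2.mono (le_iSup (fun j : ℕ => mGe (V m) ((k + 1) * (j + 1)) (k * (j + 1) + 1)) 3) h10)
        have h11 : ∃ n, ¬ U (cntGe (Finset.range n).powerset (V m n) ((k + 1) * (3 + 1))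
            ((k * (3 + 1) + 1) * 2 ^ n)) := by
          by_contra h12
          push Not at h12
          exact h9 (h4 m h12)
        obtain ⟨n', hn'⟩ := h11
        refine ⟨n', ?_⟩
        rw [h2.cnt, not_le] at hn'
        have h13 : ((ravR U V m n').card * ((k + 1) * (3 + 1)) : ℕ) < (k * (3 + 1) + 1) * 2 ^ n' := by
          unfold ravR
          exact hn'
        rw [← Nat.cast_lt (α := ℝ)] at h13
        push_cast at h13
        show ((ravR U V m n').card : ℝ) / 2 ^ n' < _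
        rw [div_lt_div_iff₀ (by positivity) (by positivity)]
        linarith
    · have h5 : ((Finset.range n).powerset.filter fun a => U (ravTau V k v n a)) =
          (Finset.range n).powerset := by
        refine Finset.filter_true_of_mem fun a ha => ?_
        unfold ravTau
        rw [if_pos (Finset.mem_powerset.1 ha), h2.sup, h2.compl]
        exact Or.inl hUv
      rw [h5, Finset.card_powerset, Finset.card_range, one_mul]
      exact Nat.le_mul_of_pos_right _ (by omega)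
  refine ⟨⟨ravTau V k v, 2 * k + 1, ravTau_mem hW hVm k hv, ravTau_dec V k v, hbig⟩, fun i => ?_⟩
  show v ⊓ w i ≤ (mGt (fun n a => ravTau V k v n a ⊓ (ρ i).τ n a) 0)ᶜ
  rw [le_compl_iff_disjoint_right, disjoint_iff]
  by_contra hne
  unfold mGt at hne
  rw [inf_iSup_eq] at hne
  have hj : ∃ j : ℕ, v ⊓ w i ⊓ mGe (fun n a => ravTau V k v n a ⊓ (ρ i).τ n a)
      ((0 + 1) * (j + 1)) (0 * (j + 1) + 1) ≠ ⊥ := by
    by_contra hc
    push Not at hc
    exact hne (iSup_eq_bot.2 hc)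
  obtain ⟨j, hj⟩ := hj
  obtain ⟨U, h1, h2, h3, -⟩ := rav_ex h V k _ hj
  rw [h2.inf, h2.inf] at h1
  obtain ⟨⟨hUv, hUw⟩, h4⟩ := h1
  obtain ⟨l, hl, hl'⟩ := (ravR_tree h2 (hVd (i + 1))).good (i + 1)
    (ε := 1 / (((k : ℝ) + 1) * 2 ^ (i + 1 + 3))) (by positivity)
  have hP : U (ravP V k (i + 1) l) := (h3 (i + 1) l).2 hl'
  have h5 := h2.mono (iInf_le _ l) h4
  rw [h2.cnt] at h5
  have h6 : ((Finset.range l).powerset.filter fun a =>
      U (ravTau V k v l a ⊓ (ρ i).τ l a)).Nonempty := by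
    rw [Finset.nonempty_iff_ne_empty]
    intro h0
    rw [h0, Finset.card_empty, zero_mul] at h5
    have h7 : 0 < (0 * (j + 1) + 1) * 2 ^ l := by positivity
    omega
  obtain ⟨a, ha⟩ := h6
  obtain ⟨ha1, ha2⟩ := Finset.mem_filter.1 ha
  rw [h2.inf] at ha2
  have h8 := ((ravTau_iff h2 V k hUv l a).1 ha2.1).2 (i + 1) l hl le_rfl hP
  apply h8
  rw [Finset.inter_eq_left.2 (Finset.mem_powerset.1 ha1)]
  refine mem_ravR.2 ⟨Finset.mem_powerset.1 ha1, ?_⟩
  have h9 : w i ⊓ (ρ i).τ l a ≤ V (i + 1) l a :=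
    le_iSup (fun i' : Fin (i + 1) => w i' ⊓ (ρ i').τ l a) ⟨i, Nat.lt_succ_self i⟩
  exact h2.mono h9 ((h2.inf _ _).2 ⟨hUw, ha2.2⟩)

end CI
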