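import Pool.Agent.CI.C.RndStm

/-!
# Project CI: density points of names of closed sets, two closed sets large in the same clopen set
-/

set_option autoImplicit false

open Set

namespace CI

universe u

namespace RDens

/-! ### two-valued homomorphisms -/

/-- an ultrafilter as a predicate -/
structure Ul {B : Type u} [CompleteBooleanAlgebra B] (U : B → Prop) : Prop where
  bot : ¬ U ⊥
  inf : ∀ a c, U (a ⊓ c) ↔ U a ∧ U c
  compl : ∀ a, U aᶜ ↔ ¬ U a

section ul

variable {B : Type u} [CompleteBooleanAlgebra B] {U : B → Prop} (h : Ul U)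

include h

theorem Ul.mono {a c : B} (hac : a ≤ c) (ha : U a) : U c := by
  have h1 : a ⊓ c = a := inf_eq_left.2 hac
  rw [← h1] at ha
  exact ((h.inf a c).1 ha).2

theorem Ul.top : U ⊤ := by
  rw [← compl_bot, h.compl]
  exact h.bot

theorem Ul.sup (a c : B) : U (a ⊔ c) ↔ U a ∨ U c := by
  have h1 : a ⊔ c = (aᶜ ⊓ cᶜ)ᶜ := by rw [compl_inf, compl_compl, compl_compl]
  rw [h1, h.compl, h.inf, h.compl, h.compl]
  tauto

theorem Ul.fsup {α : Type} (s : Finset α) (f : α → B) : U (s.sup f) ↔ ∃ i ∈ s, U (f i) := by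
  classical
  induction s using Finset.induction_on with
  | empty =>
    rw [Finset.sup_empty]
    exact ⟨fun h1 => absurd h1 h.bot, fun ⟨i, hi, _⟩ => absurd hi (Finset.notMem_empty i)⟩
  | insert a s _ ih =>
    rw [Finset.sup_insert, h.sup, ih]
    constructor
    · rintro (h1 | ⟨i, hi, h1⟩)
      · exact ⟨a, Finset.mem_insert_self a s, h1⟩
      · exact ⟨i, Finset.mem_insert_of_mem hi, h1⟩
    · rintro ⟨i, hi, h1⟩
      rcases Finset.mem_insert.1 hi with h2 | h2
      · exact Or.inl (h2 ▸ h1)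
      · exact Or.inr ⟨i, h2, h1⟩

theorem Ul.finf {α : Type} (s : Finset α) (f : α → B) : U (s.inf f) ↔ ∀ i ∈ s, U (f i) := by
  classical
  induction s using Finset.induction_on with
  | empty =>
    rw [Finset.inf_empty]
    exact ⟨fun _ i hi => absurd hi (Finset.notMem_empty i), fun _ => h.top⟩
  | insert a s _ ih =>
    rw [Finset.inf_insert, h.inf, ih, Finset.forall_mem_insert]

open Classical in
theorem Ul.cnt {α : Type} (A : Finset α) (x : α → B) (s r : ℕ) :
    U (cntGe A x s r) ↔ r ≤ (A.filter fun a => U (x a)).card * s := by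
  constructor
  · intro h1
    have h2 : cntGe A x s r ≤
        (A.powerset.filter fun C => r ≤ C.card * s).sup fun C => C.inf x := by
      unfold cntGe
      refine iSup_le fun C => iSup_le fun hC => ?_
      exact Finset.le_sup (f := fun C => Finset.inf C x)
        (Finset.mem_filter.2 ⟨Finset.mem_powerset.2 hC.1, hC.2⟩)
    obtain ⟨C, hC, h3⟩ := (h.fsup _ _).1 (h.mono h2 h1)
    rw [Finset.mem_filter, Finset.mem_powerset] at hC
    rw [h.finf] at h3
    have h4 : C ⊆ A.filter fun a => U (x a) := fun a ha =>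
      Finset.mem_filter.2 ⟨hC.1 ha, h3 a ha⟩
    exact hC.2.trans (Nat.mul_le_mul_right s (Finset.card_le_card h4))
  · intro h1
    have h2 : U ((A.filter fun a => U (x a)).inf x) := by
      rw [h.finf]
      exact fun a ha => (Finset.mem_filter.1 ha).2
    refine h.mono ?_ h2
    unfold cntGe
    exact le_iSup₂_of_le (A.filter fun a => U (x a)) ⟨Finset.filter_subset _ _, h1⟩ le_rfl

end ul

/-! ### trees of finite sets -/

/-- decreasing -/
def Dc (T : ℕ → Finset ℕ → Prop) : Prop := ∀ n a, T (n + 1) a → T n (a.erase n)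

theorem erase_eq {n : ℕ} {a : Finset ℕ} (ha : a ⊆ Finset.range (n + 1)) :
    a.erase n = a ∩ Finset.range n := by
  ext i
  rw [Finset.mem_erase, Finset.mem_inter, Finset.mem_range]
  constructor
  · rintro ⟨h1, h2⟩
    have h3 := Finset.mem_range.1 (ha h2)
    exact ⟨h2, by omega⟩
  · rintro ⟨h1, h2⟩
    exact ⟨by omega, h1⟩

theorem Dc.down {T : ℕ → Finset ℕ → Prop} (h : Dc T) {k n : ℕ} (hk : k ≤ n) {a : Finset ℕ}
    (ha : a ⊆ Finset.range n) (hT : T n a) : T k (a ∩ Finset.range k) := by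
  induction n, hk using Nat.le_induction generalizing a with
  | base => rwa [Finset.inter_eq_left.2 ha]
  | succ n hn ih =>
    have h1 := h n a hT
    rw [erase_eq ha] at h1
    have h2 := ih (Finset.inter_subset_right) h1
    rw [Finset.inter_assoc, Finset.inter_eq_right.2 (Finset.range_subset_range.2 hn)] at h2
    exact h2

open Classical in
/-- the part of a level above `b` -/
noncomputable def lv (T : ℕ → Finset ℕ → Prop) (m : ℕ) (b : Finset ℕ) (n : ℕ) :
    Finset (Finset ℕ) :=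
  (Finset.range n).powerset.filter fun a => a ∩ Finset.range m = b ∧ T n a

open Classical in
/-- a level -/
noncomputable def lw (T : ℕ → Finset ℕ → Prop) (n : ℕ) : Finset (Finset ℕ) :=
  (Finset.range n).powerset.filter fun a => T n a

theorem mem_lv {T : ℕ → Finset ℕ → Prop} {m : ℕ} {b : Finset ℕ} {n : ℕ} {a : Finset ℕ} :
    a ∈ lv T m b n ↔ a ⊆ Finset.range n ∧ a ∩ Finset.range m = b ∧ T n a := by
  classical
  unfold lv
  rw [Finset.mem_filter, Finset.mem_powerset]

theorem mem_lw {T : ℕ → Finset ℕ → Prop} {n : ℕ} {a : Finset ℕ} :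
    a ∈ lw T n ↔ a ⊆ Finset.range n ∧ T n a := by
  classical
  unfold lw
  rw [Finset.mem_filter, Finset.mem_powerset]

theorem lv_succ {T : ℕ → Finset ℕ → Prop} (h : Dc T) {m n : ℕ} (b : Finset ℕ) (hm : m ≤ n) :
    (lv T m b (n + 1)).card ≤ 2 * (lv T m b n).card := by
  classical
  have h1 : ∀ c ∈ lv T m b n, ((lv T m b (n + 1)).filter fun a => a.erase n = c).card ≤ 2 := by
    intro c _
    have h2 : ((lv T m b (n + 1)).filter fun a => a.erase n = c) ⊆ {c, insert n c} := by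
      intro a ha
      have ha2 := (Finset.mem_filter.1 ha).2
      rw [Finset.mem_insert, Finset.mem_singleton]
      by_cases hn : n ∈ a
      · right
        rw [← ha2, Finset.insert_erase hn]
      · left
        rw [← ha2, Finset.erase_eq_of_notMem hn]
    exact (Finset.card_le_card h2).trans Finset.card_le_two
  have h3 : ∀ a ∈ lv T m b (n + 1), a.erase n ∈ lv T m b n := by
    intro a ha
    rw [mem_lv] at ha ⊢
    rw [erase_eq ha.1]
    refine ⟨Finset.inter_subset_right, ?_, ?_⟩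
    · rw [Finset.inter_assoc, Finset.inter_eq_right.2 (Finset.range_subset_range.2 hm)]
      exact ha.2.1
    · rw [← erase_eq ha.1]
      exact h n a ha.2.2
  exact Finset.card_le_mul_card_image_of_maps_to h3 2 h1

theorem lv_le {T : ℕ → Finset ℕ → Prop} (h : Dc T) {m n k : ℕ} (b : Finset ℕ) (hm : m ≤ n)
    (hk : n ≤ k) : (lv T m b k).card * 2 ^ n ≤ (lv T m b n).card * 2 ^ k := by
  induction k, hk using Nat.le_induction with
  | base => exact le_rfl
  | succ k hk ih =>
    have h1 := lv_succ h b (hm.trans hk)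
    calc (lv T m b (k + 1)).card * 2 ^ n ≤ 2 * (lv T m b k).card * 2 ^ n :=
          Nat.mul_le_mul_right _ h1
      _ = 2 * ((lv T m b k).card * 2 ^ n) := by ring
      _ ≤ 2 * ((lv T m b n).card * 2 ^ k) := Nat.mul_le_mul_left _ ih
      _ = _ := by rw [pow_succ]; ring

theorem lw_sum {T : ℕ → Finset ℕ → Prop} (h : Dc T) {m n : ℕ} (hm : m ≤ n) :
    (lw T n).card = ∑ b ∈ lw T m, (lv T m b n).card := by
  classical
  have h1 : ∀ a ∈ lw T n, a ∩ Finset.range m ∈ lw T m := by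
    intro a ha
    rw [mem_lw] at ha ⊢
    exact ⟨Finset.inter_subset_right, h.down hm ha.1 ha.2⟩
  rw [Finset.card_eq_sum_card_fiberwise h1]
  refine Finset.sum_congr rfl fun b _ => ?_
  congr 1
  ext a
  rw [Finset.mem_filter, mem_lw, mem_lv]
  tauto

/-- if above all `b` the tree gets thin, then the measure decreases by the factor `3 / 4` -/
theorem thin {T : ℕ → Finset ℕ → Prop} (h : Dc T) (m : ℕ)
    (ht : ∀ b, b ⊆ Finset.range m → ∃ n, m < n ∧ (lv T m b n).card * (4 * 2 ^ m) < 3 * 2 ^ n) :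
    ∃ N, m < N ∧ (lw T N).card * (4 * 2 ^ m) ≤ (lw T m).card * (3 * 2 ^ N) := by
  classical
  have ht' : ∀ b, ∃ n, b ⊆ Finset.range m →
      m < n ∧ (lv T m b n).card * (4 * 2 ^ m) < 3 * 2 ^ n := by
    intro b
    by_cases hb : b ⊆ Finset.range m
    · obtain ⟨n, hn⟩ := ht b hb
      exact ⟨n, fun _ => hn⟩
    · exact ⟨0, fun h1 => absurd h1 hb⟩
  choose f hf using ht'
  refine ⟨(m + 1) ⊔ (Finset.range m).powerset.sup f, ?_, ?_⟩
  · exact lt_of_lt_of_le (Nat.lt_succ_self m) le_sup_left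
  · set N := (m + 1) ⊔ (Finset.range m).powerset.sup f with hN
    have hmN : m ≤ N := (Nat.le_succ m).trans le_sup_left
    rw [lw_sum h hmN, Finset.sum_mul, Finset.card_eq_sum_ones, Finset.sum_mul]
    refine Finset.sum_le_sum fun b hb => ?_
    have hb1 := (mem_lw.1 hb).1
    obtain ⟨h1, h2⟩ := hf b hb1
    have h3 : f b ≤ N := (Finset.le_sup (f := f) (Finset.mem_powerset.2 hb1)).trans le_sup_right
    have h4 := lv_le h b h1.le h3
    rw [one_mul]
    have h5 : 0 < 2 ^ f b := by positivity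
    refine Nat.le_of_mul_le_mul_right ?_ h5
    calc (lv T m b N).card * (4 * 2 ^ m) * 2 ^ f b
        = (lv T m b N).card * 2 ^ f b * (4 * 2 ^ m) := by ring
      _ ≤ (lv T m b (f b)).card * 2 ^ N * (4 * 2 ^ m) := Nat.mul_le_mul_right _ h4
      _ = (lv T m b (f b)).card * (4 * 2 ^ m) * 2 ^ N := by ring
      _ ≤ 3 * 2 ^ f b * 2 ^ N := Nat.mul_le_mul_right _ h2.le
      _ = 3 * 2 ^ N * 2 ^ f b := by ring

theorem thin_all {T : ℕ → Finset ℕ → Prop} (h : Dc T) (q : ℕ)
    (hq : ∀ n, 2 ^ n ≤ (lw T n).card * (q + 1))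
    (ht : ∀ m b, b ⊆ Finset.range m → ∃ n, m < n ∧
      (lv T m b n).card * (4 * 2 ^ m) < 3 * 2 ^ n) : False := by
  classical
  have h1 : ∀ k : ℕ, ∃ N, (lw T N).card * 4 ^ k ≤ 3 ^ k * 2 ^ N := by
    intro k
    induction k with
    | zero =>
      refine ⟨0, ?_⟩
      rw [pow_zero, pow_zero, mul_one, one_mul]
      refine (Finset.card_filter_le _ _).trans ?_
      rw [Finset.card_powerset, Finset.card_range]
    | succ k ih =>
      obtain ⟨m, hm⟩ := ih
      obtain ⟨N, -, hN⟩ := thin h m (ht m)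
      refine ⟨N, ?_⟩
      have h5 : 0 < 2 ^ m := by positivity
      refine Nat.le_of_mul_le_mul_right ?_ h5
      calc (lw T N).card * 4 ^ (k + 1) * 2 ^ m
          = (lw T N).card * (4 * 2 ^ m) * 4 ^ k := by rw [pow_succ]; ring
        _ ≤ (lw T m).card * (3 * 2 ^ N) * 4 ^ k := Nat.mul_le_mul_right _ hN
        _ = (lw T m).card * 4 ^ k * (3 * 2 ^ N) := by ring
        _ ≤ 3 ^ k * 2 ^ m * (3 * 2 ^ N) := Nat.mul_le_mul_right _ hm
        _ = 3 ^ (k + 1) * 2 ^ N * 2 ^ m := by rw [pow_succ]; ring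
  have h2 : ∀ k : ℕ, 4 ^ k ≤ 3 ^ k * (q + 1) := by
    intro k
    obtain ⟨N, hN⟩ := h1 k
    have h5 : 0 < 2 ^ N := by positivity
    refine Nat.le_of_mul_le_mul_right ?_ h5
    calc 4 ^ k * 2 ^ N ≤ 4 ^ k * ((lw T N).card * (q + 1)) := Nat.mul_le_mul_left _ (hq N)
      _ = (lw T N).card * 4 ^ k * (q + 1) := by ring
      _ ≤ 3 ^ k * 2 ^ N * (q + 1) := Nat.mul_le_mul_right _ hN
      _ = 3 ^ k * (q + 1) * 2 ^ N := by ring
  obtain ⟨k, hk⟩ := pow_unbounded_of_one_lt ((q : ℝ) + 1) (show (1 : ℝ) < 4 / 3 by norm_num)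
  have h3 : (4 : ℝ) ^ k ≤ 3 ^ k * (q + 1) := by exact_mod_cast h2 k
  rw [div_pow, lt_div_iff₀ (by positivity)] at hk
  linarith [mul_comm ((q : ℝ) + 1) (3 ^ k)]

/-- the number of sets above `b` -/
theorem card_top {m n : ℕ} (hm : m ≤ n) {b : Finset ℕ} (hb : b ⊆ Finset.range m) :
    (lv (fun _ _ => True) m b n).card * 2 ^ m ≤ 2 ^ n := by
  have h : Dc fun _ _ => True := fun _ _ _ => trivial
  have h1 := lv_le h b le_rfl hm
  have h2 : (lv (fun _ _ => True) m b m).card ≤ 1 := by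
    rw [Finset.card_le_one]
    intro a ha c hc
    rw [mem_lv] at ha hc
    have h3 := ha.2.1
    have h4 := hc.2.1
    rw [Finset.inter_eq_left.2 ha.1] at h3
    rw [Finset.inter_eq_left.2 hc.1] at h4
    rw [h3, h4]
  calc (lv (fun _ _ => True) m b n).card * 2 ^ m
      ≤ (lv (fun _ _ => True) m b m).card * 2 ^ n := h1
    _ ≤ 1 * 2 ^ n := Nat.mul_le_mul_right _ h2
    _ = 2 ^ n := one_mul _

/-- inclusion and exclusion -/
theorem two_big {T T' : ℕ → Finset ℕ → Prop} {m n : ℕ} (hm : m ≤ n) {b : Finset ℕ}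
    (hb : b ⊆ Finset.range m) (h1 : 3 * 2 ^ n ≤ (lv T m b n).card * (4 * 2 ^ m))
    (h2 : 3 * 2 ^ n ≤ (lv T' m b n).card * (4 * 2 ^ m)) :
    2 ^ n ≤ (lv (fun n a => T n a ∧ T' n a) m b n).card * (2 * 2 ^ m) := by
  classical
  have h3 := Finset.card_union_add_card_inter (lv T m b n) (lv T' m b n)
  have h4 : lv T m b n ∪ lv T' m b n ⊆ lv (fun _ _ => True) m b n := by
    intro a ha
    rw [Finset.mem_union, mem_lv, mem_lv] at ha
    rw [mem_lv]
    rcases ha with h | h
    · exact ⟨h.1, h.2.1, trivial⟩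
    · exact ⟨h.1, h.2.1, trivial⟩
  have h5 : lv T m b n ∩ lv T' m b n = lv (fun n a => T n a ∧ T' n a) m b n := by
    ext a
    rw [Finset.mem_inter, mem_lv, mem_lv, mem_lv]
    tauto
  rw [h5] at h3
  have h6 := Finset.card_le_card h4
  have h7 := card_top hm hb
  have h8 : (lv T m b n ∪ lv T' m b n).card * 2 ^ m ≤ 2 ^ n :=
    (Nat.mul_le_mul_right _ h6).trans h7
  have h9 : ((lv T m b n ∪ lv T' m b n).card +
      (lv (fun n a => T n a ∧ T' n a) m b n).card) * 2 ^ m =
      ((lv T m b n).card + (lv T' m b n).card) * 2 ^ m := by rw [h3]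
  nlinarith

end RDens

open RDens

theorem rDensStm (h : RSStm.{u}) : RDensStm.{u} := by
  classical
  intro B _ W _ c
  by_contra hne
  -- the trees
  set G : ℕ → Finset ℕ → ℕ → Finset ℕ → B := fun m b n a =>
    if b = a ∩ Finset.range m ∨ n ≤ m then c.τ n a else ⊥ with hG
  have hne' : (⨆ m : ℕ, ⨆ b : Finset ℕ, ⨆ _ : b ⊆ Finset.range m, mGe (G m b) (4 * 2 ^ m) 3) ≠
      (⊤ : B) := hne
  obtain ⟨e, he⟩ := exists_surjective_nat (ℕ × Finset ℕ)
  obtain ⟨U, u1, u2, u3, u4, u5⟩ := h B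
    (⨆ m : ℕ, ⨆ b : Finset ℕ, ⨆ _ : b ⊆ Finset.range m, mGe (G m b) (4 * 2 ^ m) 3)ᶜ
    (fun k n => (cntGe (Finset.range n).powerset (G (e k).1 (e k).2 n)
      (4 * 2 ^ (e k).1) (3 * 2 ^ n))ᶜ)
    (fun h1 => hne' (compl_eq_bot.1 h1))
  have hU : Ul U := ⟨u2, u3, u4⟩
  set T : ℕ → Finset ℕ → Prop := fun n a => U (c.τ n a) with hT
  have hD : Dc T := fun n a h1 => hU.mono (c.dec n a) h1
  have hq : ∀ n, 2 ^ n ≤ (lw T n).card * (c.q + 1) := by
    intro n
    have h1 : mGe c.τ (c.q + 1) 1 ≤ cntGe (Finset.range n).powerset (c.τ n) (c.q + 1)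
        (1 * 2 ^ n) := iInf_le _ n
    rw [c.big] at h1
    have h2 := (hU.cnt _ _ _ _).1 (hU.mono h1 hU.top)
    rw [one_mul] at h2
    exact h2
  refine thin_all hD c.q hq fun m b hb => ?_
  -- the ultrafilter respects the infimum
  have h1 : ¬ U (mGe (G m b) (4 * 2 ^ m) 3) := by
    intro h2
    have h3 : mGe (G m b) (4 * 2 ^ m) 3 ≤
        ⨆ m : ℕ, ⨆ b : Finset ℕ, ⨆ _ : b ⊆ Finset.range m, mGe (G m b) (4 * 2 ^ m) 3 :=
      le_iSup_of_le m (le_iSup_of_le b (le_iSup_of_le hb le_rfl))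
    exact (u4 _).1 u1 (hU.mono h3 h2)
  have h2 : U (mGe (G m b) (4 * 2 ^ m) 3)ᶜ := (u4 _).2 h1
  obtain ⟨k, hk⟩ := he (m, b)
  have h3 := u5 k
  rw [hk] at h3
  have h4 : (mGe (G m b) (4 * 2 ^ m) 3)ᶜ =
      ⨆ n, (cntGe (Finset.range n).powerset (G m b n) (4 * 2 ^ m) (3 * 2 ^ n))ᶜ := by
    unfold mGe
    rw [compl_iInf]
  rw [h4] at h2
  obtain ⟨n, hn⟩ := h3.1 h2
  have hn1 := (u4 _).1 hn
  rw [hU.cnt] at hn1
  push Not at hn1
  -- large levels
  have hmn : m < n := by
    by_contra hc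
    push Not at hc
    have h5 : ((Finset.range n).powerset.filter fun a => U (G m b n a)) = lw T n := by
      ext a
      rw [Finset.mem_filter, Finset.mem_powerset, mem_lw]
      have : G m b n a = c.τ n a := if_pos (Or.inr hc)
      rw [this]
    rw [h5] at hn1
    have h6 : 1 ≤ (lw T n).card := by
      have h7 := hq n
      by_contra h8
      have h9 : (lw T n).card = 0 := by omega
      rw [h9, zero_mul] at h7
      have : 0 < 2 ^ n := by positivity
      omega
    have h7 : 2 ^ n ≤ 2 ^ m := Nat.pow_le_pow_right (by norm_num) hc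
    have h8 : 1 * (4 * 2 ^ m) ≤ (lw T n).card * (4 * 2 ^ m) := Nat.mul_le_mul_right _ h6
    have h9 : (lw T n).card * (4 * 2 ^ m) < 3 * 2 ^ n := hn1
    omega
  refine ⟨n, hmn, ?_⟩
  have h5 : ((Finset.range n).powerset.filter fun a => U (G m b n a)) = lv T m b n := by
    ext a
    rw [Finset.mem_filter, Finset.mem_powerset, mem_lv]
    by_cases hb1 : b = a ∩ Finset.range m
    · have : G m b n a = c.τ n a := if_pos (Or.inl hb1)
      rw [this]
      exact ⟨fun h6 => ⟨h6.1, hb1.symm, h6.2⟩, fun h6 => ⟨h6.1, h6.2.2⟩⟩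
    · have : G m b n a = ⊥ := if_neg (by
        rintro (h6 | h6)
        · exact hb1 h6
        · omega)
      rw [this]
      exact ⟨fun h6 => absurd h6.2 hU.bot, fun h6 => absurd h6.2.1.symm hb1⟩
  rw [h5] at hn1
  exact hn1

theorem rTwoStm (h : RSStm.{u}) : RTwoStm.{u} := by
  classical
  intro B _ m b X Y hb hX hY h1 h2
  unfold mGe
  rw [iInf_eq_top]
  intro n
  by_contra hne
  obtain ⟨U, u1, u2, u3, u4, -⟩ := h B
    (cntGe (Finset.range n).powerset (fun a => X n a ⊓ Y n a) (2 * 2 ^ m) (1 * 2 ^ n))ᶜ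
    (fun _ _ => ⊥) (fun h3 => hne (compl_eq_bot.1 h3))
  have hU : Ul U := ⟨u2, u3, u4⟩
  have hn1 := (u4 _).1 u1
  rw [hU.cnt] at hn1
  apply hn1
  set T : ℕ → Finset ℕ → Prop := fun n a => U (X n a) with hT
  set T' : ℕ → Finset ℕ → Prop := fun n a => U (Y n a) with hT'
  have hD : Dc T := fun n a h1 => hU.mono (hX n a) h1
  have hD' : Dc T' := fun n a h1 => hU.mono (hY n a) h1
  -- the levels above `m`
  have key : ∀ (Z : ℕ → Finset ℕ → B),
      mGe (fun n a => if b = a ∩ Finset.range m ∨ n ≤ m then Z n a else ⊥) (4 * 2 ^ m) 3 = ⊤ →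
      ∀ n, m < n → 3 * 2 ^ n ≤ (lv (fun n a => U (Z n a)) m b n).card * (4 * 2 ^ m) := by
    intro Z hZ n hmn
    have h3 : mGe (fun n a => if b = a ∩ Finset.range m ∨ n ≤ m then Z n a else ⊥)
        (4 * 2 ^ m) 3 ≤ cntGe (Finset.range n).powerset
        (fun a => if b = a ∩ Finset.range m ∨ n ≤ m then Z n a else ⊥) (4 * 2 ^ m)
        (3 * 2 ^ n) := iInf_le _ n
    rw [hZ] at h3
    have h4 := (hU.cnt _ _ _ _).1 (hU.mono h3 hU.top)
    have h5 : ((Finset.range n).powerset.filter fun a =>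
        U (if b = a ∩ Finset.range m ∨ n ≤ m then Z n a else ⊥)) =
        lv (fun n a => U (Z n a)) m b n := by
      ext a
      rw [Finset.mem_filter, Finset.mem_powerset, mem_lv]
      by_cases hb1 : b = a ∩ Finset.range m
      · rw [if_pos (Or.inl hb1)]
        exact ⟨fun h6 => ⟨h6.1, hb1.symm, h6.2⟩, fun h6 => ⟨h6.1, h6.2.2⟩⟩
      · rw [if_neg (by
          rintro (h6 | h6)
          · exact hb1 h6
          · omega)]
        exact ⟨fun h6 => absurd h6.2 hU.bot, fun h6 => absurd h6.2.1.symm hb1⟩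
    rw [h5] at h4
    exact h4
  have key2 : ∀ n, m < n → 2 ^ n ≤ (lv (fun n a => T n a ∧ T' n a) m b n).card * (2 * 2 ^ m) :=
    fun n hmn => two_big hmn.le hb (key X h1 n hmn) (key Y h2 n hmn)
  rw [one_mul]
  by_cases hmn : m < n
  · refine (key2 n hmn).trans (Nat.mul_le_mul_right _ (Finset.card_le_card ?_))
    intro a ha
    rw [mem_lv] at ha
    rw [Finset.mem_filter, Finset.mem_powerset]
    exact ⟨ha.1, (u3 _ _).2 ha.2.2⟩
  · push Not at hmn
    have h3 := key2 (m + 1) (Nat.lt_succ_self m)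
    have h4 : (lv (fun n a => T n a ∧ T' n a) m b (m + 1)).Nonempty := by
      rw [← Finset.card_pos]
      by_contra hc
      have h5 : (lv (fun n a => T n a ∧ T' n a) m b (m + 1)).card = 0 := by omega
      rw [h5, zero_mul] at h3
      have : 0 < 2 ^ (m + 1) := by positivity
      omega
    obtain ⟨a, ha⟩ := h4
    rw [mem_lv] at ha
    have h5 : a ∩ Finset.range n ∈ (Finset.range n).powerset.filter
        fun a => U (X n a ⊓ Y n a) := by
      rw [Finset.mem_filter, Finset.mem_powerset]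
      refine ⟨Finset.inter_subset_right, (u3 _ _).2 ⟨?_, ?_⟩⟩
      · exact hD.down (by omega) ha.1 ha.2.2.1
      · exact hD'.down (by omega) ha.1 ha.2.2.2
    have h6 : 1 ≤ ((Finset.range n).powerset.filter fun a => U (X n a ⊓ Y n a)).card :=
      Finset.card_pos.2 ⟨_, h5⟩
    have h7 : 2 ^ n ≤ 2 ^ m := Nat.pow_le_pow_right (by norm_num) hmn
    calc 2 ^ n ≤ 1 * (2 * 2 ^ m) := by omega
      _ ≤ _ := Nat.mul_le_mul_right _ h6

end CI
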