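import Pool.Agent.CI.C.LowStm
import Pool.Agent.CI.C.RDens
import Pool.Agent.CI.C.RCut

/-!
# Project CI, core: the generic real of the random kind
-/

set_option autoImplicit false

open Set Cardinal Pool.Agent.CL

namespace CI

universe u

section

variable {B : Type u} [CompleteBooleanAlgebra B]

/-! ### cones -/

open Classical in
/-- the indicator of the cone of `(n, a)` -/
noncomputable def rgC (B : Type u) [CompleteBooleanAlgebra B] (n : ℕ) (a : Finset ℕ) (m : ℕ)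
    (b : Finset ℕ) : B :=
  if b ∩ Finset.range n = a ∩ Finset.range m then ⊤ else ⊥

theorem rgC_pos {n m : ℕ} {a b : Finset ℕ} (h : b ∩ Finset.range n = a ∩ Finset.range m) :
    rgC B n a m b = ⊤ := if_pos h

theorem rgC_neg {n m : ℕ} {a b : Finset ℕ} (h : b ∩ Finset.range n ≠ a ∩ Finset.range m) :
    rgC B n a m b = ⊥ := if_neg h

theorem rgC_dec (n : ℕ) (a : Finset ℕ) : DecT (rgC B n a) := by
  intro m b
  by_cases h : b ∩ Finset.range n = a ∩ Finset.range (m + 1)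
  · have h1 : b.erase m ∩ Finset.range n = a ∩ Finset.range m := by
      ext i
      have h2 := Finset.ext_iff.1 h i
      simp only [Finset.mem_inter, Finset.mem_range, Finset.mem_erase] at h2 ⊢
      constructor
      · rintro ⟨⟨h3, h4⟩, h5⟩
        obtain ⟨h6, h7⟩ := h2.1 ⟨h4, h5⟩
        exact ⟨h6, by omega⟩
      · rintro ⟨h3, h4⟩
        obtain ⟨h6, h7⟩ := h2.2 ⟨h3, by omega⟩
        exact ⟨⟨by omega, h6⟩, h7⟩
    rw [rgC_pos h1]
    exact le_top
  · rw [rgC_neg h]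
    exact bot_le

theorem rgC_mem {W : Set B} (hW : IsSS W) (n : ℕ) (a : Finset ℕ) (m : ℕ) (b : Finset ℕ) :
    rgC B n a m b ∈ W := by
  by_cases h : b ∩ Finset.range n = a ∩ Finset.range m
  · rw [rgC_pos h, ← compl_bot]
    exact hW.compl _ hW.bot
  · rw [rgC_neg h]
    exact hW.bot

open RDens in
/-- some part of a label has positive measure -/
theorem rg_split (h : RSStm.{u}) {W : Set B} (c : CndR W) (n : ℕ) :
    (⨆ a : Finset ℕ, ⨆ _ : a ⊆ Finset.range n,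
      mGe (fun m b => c.τ m b ⊓ rgC B n a m b) ((c.q + 1) * 2 ^ n) 1) = ⊤ := by
  classical
  by_contra hne
  obtain ⟨e, he⟩ := exists_surjective_nat (Finset ℕ)
  obtain ⟨U, u1, u2, u3, u4, u5⟩ := h B
    (⨆ a : Finset ℕ, ⨆ _ : a ⊆ Finset.range n,
      mGe (fun m b => c.τ m b ⊓ rgC B n a m b) ((c.q + 1) * 2 ^ n) 1)ᶜ
    (fun k m => (cntGe (Finset.range m).powerset (fun b => c.τ m b ⊓ rgC B n (e k) m b)
      ((c.q + 1) * 2 ^ n) (1 * 2 ^ m))ᶜ)
    (fun h1 => hne (compl_eq_bot.1 h1))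
  have hU : Ul U := ⟨u2, u3, u4⟩
  set T : ℕ → Finset ℕ → Prop := fun n a => U (c.τ n a) with hT
  have hD : Dc T := fun n a h1 => hU.mono (c.dec n a) h1
  have hq : ∀ m, 2 ^ m ≤ (lw T m).card * (c.q + 1) := by
    intro m
    have h1 : mGe c.τ (c.q + 1) 1 ≤ cntGe (Finset.range m).powerset (c.τ m) (c.q + 1)
        (1 * 2 ^ m) := iInf_le _ m
    rw [c.big] at h1
    have h2 := (hU.cnt _ _ _ _).1 (hU.mono h1 hU.top)
    rw [one_mul] at h2
    exact h2
  have hthin : ∀ a, ∃ N, a ⊆ Finset.range n →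
      n ≤ N ∧ (lv T n a N).card * ((c.q + 1) * 2 ^ n) < 2 ^ N := by
    intro a
    by_cases ha : a ⊆ Finset.range n
    swap
    · exact ⟨0, fun h1 => absurd h1 ha⟩
    have h1 : ¬ U (mGe (fun m b => c.τ m b ⊓ rgC B n a m b) ((c.q + 1) * 2 ^ n) 1) := by
      intro h2
      have h3 : mGe (fun m b => c.τ m b ⊓ rgC B n a m b) ((c.q + 1) * 2 ^ n) 1 ≤
          ⨆ a : Finset ℕ, ⨆ _ : a ⊆ Finset.range n,
            mGe (fun m b => c.τ m b ⊓ rgC B n a m b) ((c.q + 1) * 2 ^ n) 1 :=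
        le_iSup_of_le a (le_iSup_of_le ha le_rfl)
      exact (u4 _).1 u1 (hU.mono h3 h2)
    have h2 : U (mGe (fun m b => c.τ m b ⊓ rgC B n a m b) ((c.q + 1) * 2 ^ n) 1)ᶜ :=
      (u4 _).2 h1
    obtain ⟨k, hk⟩ := he a
    have h3 := u5 k
    rw [hk] at h3
    have h4 : (mGe (fun m b => c.τ m b ⊓ rgC B n a m b) ((c.q + 1) * 2 ^ n) 1)ᶜ =
        ⨆ m, (cntGe (Finset.range m).powerset (fun b => c.τ m b ⊓ rgC B n a m b)
          ((c.q + 1) * 2 ^ n) (1 * 2 ^ m))ᶜ := by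
      unfold mGe
      rw [compl_iInf]
    rw [h4] at h2
    obtain ⟨m, hm⟩ := h3.1 h2
    have hm1 := (u4 _).1 hm
    rw [hU.cnt] at hm1
    push Not at hm1
    rw [one_mul] at hm1
    by_cases hmn : n ≤ m
    · refine ⟨m, fun _ => ⟨hmn, ?_⟩⟩
      have h5 : ((Finset.range m).powerset.filter fun b => U (c.τ m b ⊓ rgC B n a m b)) =
          lv T n a m := by
        ext b
        rw [Finset.mem_filter, Finset.mem_powerset, mem_lv]
        have ha1 : a ∩ Finset.range m = a :=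
          Finset.inter_eq_left.2 (ha.trans (Finset.range_subset_range.2 hmn))
        by_cases hb : b ∩ Finset.range n = a
        · rw [rgC_pos (hb.trans ha1.symm), inf_top_eq]
          exact ⟨fun h6 => ⟨h6.1, hb, h6.2⟩, fun h6 => ⟨h6.1, h6.2.2⟩⟩
        · rw [rgC_neg (fun h6 => hb (h6.trans ha1)), inf_bot_eq]
          exact ⟨fun h6 => absurd h6.2 hU.bot, fun h6 => absurd h6.2.1 hb⟩
      rw [h5] at hm1
      exact hm1
    · push Not at hmn
      refine ⟨n, fun _ => ⟨le_rfl, ?_⟩⟩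
      have h5 : ¬ T m (a ∩ Finset.range m) := by
        intro h6
        have h7 : a ∩ Finset.range m ∈ ((Finset.range m).powerset.filter fun b =>
            U (c.τ m b ⊓ rgC B n a m b)) := by
          rw [Finset.mem_filter, Finset.mem_powerset]
          refine ⟨Finset.inter_subset_right, ?_⟩
          rw [rgC_pos, inf_top_eq]
          · exact h6
          · rw [Finset.inter_assoc, Finset.inter_eq_left.2 (Finset.range_subset_range.2 hmn.le)]
        have h8 : 1 ≤ ((Finset.range m).powerset.filter fun b =>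
            U (c.τ m b ⊓ rgC B n a m b)).card := Finset.card_pos.2 ⟨_, h7⟩
        have h9 : 2 ^ m ≤ 2 ^ n := Nat.pow_le_pow_right (by norm_num) hmn.le
        have h10 : 1 * 2 ^ n ≤ (c.q + 1) * 2 ^ n := Nat.mul_le_mul_right _ (by omega)
        have h11 : 1 * ((c.q + 1) * 2 ^ n) ≤ ((Finset.range m).powerset.filter fun b =>
            U (c.τ m b ⊓ rgC B n a m b)).card * ((c.q + 1) * 2 ^ n) := Nat.mul_le_mul_right _ h8
        omega
      have h6 : lv T n a n = ∅ := by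
        rw [Finset.eq_empty_iff_forall_notMem]
        intro b hb
        rw [mem_lv] at hb
        have h7 := hD.down hmn.le hb.1 hb.2.2
        have h8 : b = a := by rw [← hb.2.1, Finset.inter_eq_left.2 hb.1]
        rw [h8] at h7
        exact h5 h7
      rw [h6, Finset.card_empty, zero_mul]
      positivity
  choose f hf using hthin
  set M := n ⊔ (Finset.range n).powerset.sup f with hM
  have hnM : n ≤ M := le_sup_left
  have h1 : (lw T M).card * ((c.q + 1) * 2 ^ n) < (lw T n).card * 2 ^ M := by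
    rw [lw_sum hD hnM, Finset.sum_mul, Finset.card_eq_sum_ones, Finset.sum_mul]
    refine Finset.sum_lt_sum_of_nonempty ?_ fun a ha => ?_
    · rw [← Finset.card_pos]
      have h2 := hq n
      by_contra h3
      have h4 : (lw T n).card = 0 := by omega
      rw [h4, zero_mul] at h2
      have : 0 < 2 ^ n := by positivity
      omega
    · have ha1 := (mem_lw.1 ha).1
      obtain ⟨h2, h3⟩ := hf a ha1
      have h4 : f a ≤ M := (Finset.le_sup (f := f) (Finset.mem_powerset.2 ha1)).trans le_sup_right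
      have h5 := lv_le hD a h2 h4
      rw [one_mul]
      refine Nat.lt_of_mul_lt_mul_right (a := 2 ^ f a) ?_
      calc (lv T n a M).card * ((c.q + 1) * 2 ^ n) * 2 ^ f a
          = (lv T n a M).card * 2 ^ f a * ((c.q + 1) * 2 ^ n) := by ring
        _ ≤ (lv T n a (f a)).card * 2 ^ M * ((c.q + 1) * 2 ^ n) := Nat.mul_le_mul_right _ h5
        _ = (lv T n a (f a)).card * ((c.q + 1) * 2 ^ n) * 2 ^ M := by ring
        _ < 2 ^ f a * 2 ^ M := Nat.mul_lt_mul_of_pos_right h3 (by positivity)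
        _ = 2 ^ M * 2 ^ f a := by ring
  have h2 : (lw T n).card ≤ 2 ^ n := by
    refine (Finset.card_filter_le _ _).trans ?_
    rw [Finset.card_powerset, Finset.card_range]
  have h3 : (lw T M).card * ((c.q + 1) * 2 ^ n) < 2 ^ n * 2 ^ M :=
    lt_of_lt_of_le h1 (Nat.mul_le_mul_right _ h2)
  have h4 := hq M
  have h5 : 2 ^ M * 2 ^ n ≤ (lw T M).card * (c.q + 1) * 2 ^ n := Nat.mul_le_mul_right _ h4
  have h6 : (lw T M).card * (c.q + 1) * 2 ^ n = (lw T M).card * ((c.q + 1) * 2 ^ n) := by ring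
  have h7 : 2 ^ M * 2 ^ n = 2 ^ n * 2 ^ M := by ring
  omega

/-! ### null intersections -/

theorem rg_nul {W : Set B} (c d : CndR W) (v : B) (n : ℕ)
    (h : ∀ a, a ⊆ Finset.range n → v ⊓ (c.τ n a ⊓ d.τ n a) = ⊥) : v ≤ c.nul d := by
  unfold CndR.nul
  rw [le_compl_iff_disjoint_right, disjoint_iff_inf_le]
  unfold mGt
  rw [inf_iSup_eq]
  refine iSup_le fun j => ?_
  unfold mGe
  refine (inf_le_inf_left v (iInf_le _ n)).trans ?_
  unfold cntGe
  rw [inf_iSup_eq]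
  refine iSup_le fun C => ?_
  rw [inf_iSup_eq]
  refine iSup_le fun hC => ?_
  have h1 : 0 < C.card := by
    by_contra h2
    have h3 : C.card = 0 := by omega
    have h4 := hC.2
    rw [h3, zero_mul] at h4
    have h5 : 0 < (0 * (j + 1) + 1) * 2 ^ n := by positivity
    omega
  obtain ⟨a, ha⟩ := Finset.card_pos.1 h1
  rw [← h a (Finset.mem_powerset.1 (hC.1 ha))]
  exact inf_le_inf_left v (Finset.inf_le ha)

/-- all nodes of level `i + 1` contain `i` -/
def rgA {W : Set B} (c : CndR W) (i : ℕ) : B :=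
  ⨅ a : Finset ℕ, ⨅ _ : a ⊆ Finset.range (i + 1) ∧ i ∉ a, (c.τ (i + 1) a)ᶜ

/-- no node of level `i + 1` contains `i` -/
def rgB {W : Set B} (c : CndR W) (i : ℕ) : B :=
  ⨅ a : Finset ℕ, ⨅ _ : a ⊆ Finset.range (i + 1) ∧ i ∈ a, (c.τ (i + 1) a)ᶜ

theorem rgA_le {W : Set B} (c : CndR W) {i : ℕ} {a : Finset ℕ} (ha : a ⊆ Finset.range (i + 1))
    (hi : i ∉ a) : rgA c i ⊓ c.τ (i + 1) a = ⊥ := by
  have h1 : rgA c i ≤ (c.τ (i + 1) a)ᶜ := iInf_le_of_le a (iInf_le _ ⟨ha, hi⟩)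
  exact le_bot_iff.1 ((inf_le_inf_right _ h1).trans (le_of_eq (compl_inf_self _)))

theorem rgB_le {W : Set B} (c : CndR W) {i : ℕ} {a : Finset ℕ} (ha : a ⊆ Finset.range (i + 1))
    (hi : i ∈ a) : rgB c i ⊓ c.τ (i + 1) a = ⊥ := by
  have h1 : rgB c i ≤ (c.τ (i + 1) a)ᶜ := iInf_le_of_le a (iInf_le _ ⟨ha, hi⟩)
  exact le_bot_iff.1 ((inf_le_inf_right _ h1).trans (le_of_eq (compl_inf_self _)))

theorem rg_AB {W : Set B} (c d : CndR W) (i : ℕ) : rgA c i ⊓ rgB d i ≤ c.nul d := by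
  refine rg_nul c d _ (i + 1) fun a ha => ?_
  by_cases hi : i ∈ a
  · rw [inf_comm (c.τ (i + 1) a), inf_assoc, ← inf_assoc (rgB d i), rgB_le d ha hi, bot_inf_eq,
      inf_bot_eq]
  · rw [inf_comm (rgA c i), inf_assoc, ← inf_assoc (rgA c i), rgA_le c ha hi, bot_inf_eq,
      inf_bot_eq]

/-! ### complete subalgebras -/

theorem rgY_iSup {Y : Set B} (hY : IsCS Y) {ι : Sort*} {f : ι → B} (hf : ∀ i, f i ∈ Y) :
    ⨆ i, f i ∈ Y := hY.sSup _ (by rintro _ ⟨i, rfl⟩; exact hf i)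

theorem rgY_iInf {Y : Set B} (hY : IsCS Y) {ι : Sort*} {f : ι → B} (hf : ∀ i, f i ∈ Y) :
    ⨅ i, f i ∈ Y := by
  have h1 : ⨅ i, f i = (⨆ i, (f i)ᶜ)ᶜ := by
    rw [compl_iSup]
    simp
  rw [h1]
  exact hY.compl _ (rgY_iSup hY fun i => hY.compl _ (hf i))

theorem rgY_inf {Y : Set B} (hY : IsCS Y) {a b : B} (ha : a ∈ Y) (hb : b ∈ Y) : a ⊓ b ∈ Y := by
  have h1 : a ⊓ b = ⨅ t : Bool, (if t then a else b) := by
    rw [iInf_bool_eq]
    simp
  rw [h1]
  refine rgY_iInf hY fun t => ?_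
  cases t
  · exact hb
  · exact ha

end

/-! ### the generic real -/

section

variable {K Λ L : Type u} [LinearOrder K] [LinearOrder L] (S : Sys K Λ L) (b : K)

/-- the name of the generic real -/
noncomputable def rgX : Rl (BB S.D) := fun i => ⨆ s : Λ, eb S.D b s ⊓ rgA (S.cR b s) i

theorem rgX_ge (s : Λ) (i : ℕ) : eb S.D b s ⊓ rgA (S.cR b s) i ≤ rgX S b i :=
  le_iSup (fun s : Λ => eb S.D b s ⊓ rgA (S.cR b s) i) s

theorem rgX_bot (h3 : RebStm.{u}) (hb : S.kd b = .rnd) (s : Λ) (i : ℕ) :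
    rgX S b i ⊓ (eb S.D b s ⊓ rgB (S.cR b s) i) = ⊥ := by
  unfold rgX
  rw [iSup_inf_eq, iSup_eq_bot]
  intro s'
  rw [← le_bot_iff, ← ((h3 K Λ L S b hb).1 s' s)]
  refine le_inf (le_inf ?_ (inf_le_left.trans inf_le_left)) (inf_le_right.trans inf_le_left)
  exact (inf_le_inf inf_le_right inf_le_right).trans (rg_AB _ _ _)

theorem rgX_mem (h4 : SZStm.{u}) (i : ℕ) : rgX S b i ∈ SZ S.D (Iic b) := by
  have hT : Tr S.D (Iic b) := Tr_of_lower (isLowerSet_Iic b)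
  have hY := h4 K Λ S.D (Iic b) hT
  unfold rgX
  refine rgY_iSup hY.1 fun s => rgY_inf hY.1 ?_ ?_
  · refine hY.2.1 _ ?_
    rw [PF.dom_sng]
    exact singleton_subset_iff.2 (mem_Iic.2 le_rfl)
  · refine rgY_iInf hY.1 fun a => rgY_iInf hY.1 fun _ => hY.1.compl _ ?_
    exact SZ_mono (fun x hx => le_of_lt hx.1) (S.sub b ((S.cR b s).mem _ _))

theorem rgτ_mem (s : Λ) (n : ℕ) (a : Finset ℕ) : (S.cR b s).τ n a ∈ SZ S.D (Iic b) :=
  SZ_mono (fun _ hx => le_of_lt hx.1) (S.sub b ((S.cR b s).mem _ _))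

theorem rg_cut_mem (h4 : SZStm.{u}) (n : ℕ) (a : Finset ℕ) :
    cutV (rgX S b) n a ∈ SZ S.D (Iic b) := by
  have hT : Tr S.D (Iic b) := Tr_of_lower (isLowerSet_Iic b)
  have hY := h4 K Λ S.D (Iic b) hT
  unfold cutV
  refine rgY_iInf hY.1 fun i => ?_
  split_ifs
  · exact rgX_mem S b h4 i
  · exact hY.1.compl _ (rgX_mem S b h4 i)

/-- a condition below an element of the algebra of `Iic b` -/
theorem rg_cond (h4 : SZStm.{u}) (h5 : EeStm.{u}) (V : BB S.D) (hV : V ∈ SZ S.D (Iic b))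
    (hne : V ≠ ⊥) (s₀ : Λ) : ∃ (r : BB S.D) (s : Λ), r ∈ SZ S.D (Iio b) ∧ r ≠ ⊥ ∧
      r ⊓ eb S.D b s ≤ V := by
  have hT : Tr S.D (Iic b) := Tr_of_lower (isLowerSet_Iic b)
  have hT' : Tr S.D (Iio b) := Tr_of_lower (isLowerSet_Iio b)
  have hY := h4 K Λ S.D (Iic b) hT
  have hY' := h4 K Λ S.D (Iio b) hT'
  have hE := h5 K Λ S.D
  obtain ⟨p, hp⟩ := exists_ee_le hne
  obtain ⟨q, s, hqs, hq⟩ : ∃ (q : PF K Λ) (s : Λ), q.f b = some s ∧ ee S.D q ≤ V := by
    rcases hpb : p.f b with _ | s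
    · refine ⟨p.upd b s₀, s₀, PF.upd_f_same _ _ _, ?_⟩
      rw [hE.2.2.1 p b s₀ hpb]
      exact inf_le_left.trans hp
    · exact ⟨p, s, hpb, hp⟩
  refine ⟨ee S.D (q.res (Iio b)), s, hY'.2.1 _ (PF.dom_res_subset _ _), ee_ne_bot _, ?_⟩
  have h1 : q.res (Iic b) = (q.res (Iio b)).upd b s := by
    ext x c
    by_cases hx : x = b
    · subst hx
      rw [PF.upd_f_same, PF.res_f_of_mem (mem_Iic.2 le_rfl), hqs]
    · rw [PF.upd_f_ne hx]
      by_cases hx2 : x < b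
      · rw [PF.res_f_of_mem (mem_Iic.2 hx2.le), PF.res_f_of_mem (mem_Iio.2 hx2)]
      · rw [PF.res_f_of_notMem fun h2 => hx2 (lt_of_le_of_ne (mem_Iic.1 h2) hx),
          PF.res_f_of_notMem fun h2 => hx2 (mem_Iio.1 h2)]
  have h2 := (hY.2.2.1 V hV q).1 hq
  have h3 := hE.2.2.1 (q.res (Iio b)) b s
    (PF.res_f_of_notMem (fun h : b ∈ Iio b => lt_irrefl b h))
  rw [h1, h3] at h2
  exact h2

end

theorem rGenStm (h1 : RCutStm.{u}) (h2 : RNulStm.{u}) (h3 : RebStm.{u}) (h4 : SZStm.{u})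
    (h5 : EeStm.{u}) (h6 : TrStm.{u}) (h7 : RSStm.{u}) : RGenStm.{u} := by
  intro K Λ L _ _ S b hb
  refine ⟨rgX S b, fun ρ n a ha => ?_⟩
  have hT : Tr S.D (Iic b) := Tr_of_lower (isLowerSet_Iic b)
  have hT' : Tr S.D (Iio b) := Tr_of_lower (isLowerSet_Iio b)
  have hY := h4 K Λ S.D (Iic b) hT
  have hY' := h4 K Λ S.D (Iio b) hT'
  by_contra hcon
  set V : BB S.D := eb S.D b ρ ⊓ cutV (rgX S b) n a ⊓ ((S.cR b ρ).τ n a)ᶜ with hVdef
  have hV0 : V ≠ ⊥ := by
    intro h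
    apply hcon
    exact disjoint_compl_right_iff.1 (disjoint_iff.2 h)
  have hebρ : eb S.D b ρ ∈ SZ S.D (Iic b) := by
    refine hY.2.1 _ ?_
    rw [PF.dom_sng]
    exact singleton_subset_iff.2 (mem_Iic.2 le_rfl)
  have hV : V ∈ SZ S.D (Iic b) :=
    rgY_inf hY.1 (rgY_inf hY.1 hebρ (rg_cut_mem S b h4 n a)) (hY.1.compl _ (rgτ_mem S b ρ n a))
  obtain ⟨r, s, hr, hr0, hrV⟩ := rg_cond S b h4 h5 V hV hV0 ρ
  -- the part of positive measure
  have hsp := rg_split h7 (S.cR b s) n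
  obtain ⟨a', ha', hw0⟩ : ∃ a' : Finset ℕ, a' ⊆ Finset.range n ∧
      r ⊓ mGe (fun m c => (S.cR b s).τ m c ⊓ rgC (BB S.D) n a' m c)
        (((S.cR b s).q + 1) * 2 ^ n) 1 ≠ ⊥ := by
    by_contra hno
    push Not at hno
    apply hr0
    rw [← inf_top_eq r, ← hsp, inf_iSup_eq, iSup_eq_bot]
    intro a'
    rw [inf_iSup_eq, iSup_eq_bot]
    exact fun ha' => hno a' ha'
  set w : BB S.D := mGe (fun m c => (S.cR b s).τ m c ⊓ rgC (BB S.D) n a' m c)
    (((S.cR b s).q + 1) * 2 ^ n) 1 with hwdef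
  have hwW : w ∈ S.W b := (S.ss b).rcMGe
    (fun m c => (S.ss b).rcInf ((S.cR b s).mem m c) (rgC_mem (S.ss b) n a' m c)) _ _
  have hj : ((S.cR b s).q + 1) * 2 ^ n = (((S.cR b s).q + 1) * 2 ^ n - 1) + 1 := by
    have : 0 < ((S.cR b s).q + 1) * 2 ^ n := by positivity
    omega
  obtain ⟨κ, -, hκ⟩ := h1 (BB S.D) (S.W b) (S.ss b) (S.cR b s) (rgC (BB S.D) n a') w
    (((S.cR b s).q + 1) * 2 ^ n - 1) hwW (rgC_mem (S.ss b) n a') (rgC_dec n a')
    (by rw [← hj])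
  obtain ⟨t, ht⟩ := (S.vR b hb).2 κ
  -- the label `t` is stronger than `s`
  have hts : dv S.D b t s = ⊤ := by
    rw [(S.vR b hb).1, ht, ← top_le_iff]
    refine le_iInf fun m => le_iInf fun c => le_iInf fun _ => ?_
    rw [le_himp_iff, top_inf_eq, hκ]
    exact inf_le_left
  have hebts : eb S.D b t ≤ eb S.D b s := by
    have h := (h5 K Λ S.D).2.1 b t s
    rwa [hts, top_inf_eq] at h
  -- the element
  have hw' : w ∈ SZ S.D (Iio b) := SZ_mono (fun x hx => hx.1) (S.sub b hwW)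
  have hne : (r ⊓ w) ⊓ eb S.D b t ≠ ⊥ := by
    refine hY'.2.2.2.2.1 (r ⊓ w) (rgY_inf hY'.1 hr hw') hw0 (PF.sng b t) ?_
    rw [PF.dom_sng, disjoint_singleton_left]
    exact lt_irrefl b
  set v : BB S.D := (r ⊓ w) ⊓ eb S.D b t with hvdef
  have hvV : v ≤ V := (inf_le_inf (inf_le_left) hebts).trans hrV
  have hvw : v ≤ w := inf_le_left.trans inf_le_right
  have hvt : v ≤ eb S.D b t := inf_le_right
  have hvρ : v ≤ eb S.D b ρ := hvV.trans (inf_le_left.trans inf_le_left)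
  have hvc : v ≤ cutV (rgX S b) n a := hvV.trans (inf_le_left.trans inf_le_right)
  have hvτ : v ≤ ((S.cR b ρ).τ n a)ᶜ := hvV.trans inf_le_right
  -- nodes of `κ`
  have hnode : ∀ (m : ℕ) (c : Finset ℕ), c ∩ Finset.range n ≠ a' ∩ Finset.range m →
      v ⊓ (S.cR b t).τ m c = ⊥ := by
    intro m c hc
    rw [ht, hκ, rgC_neg hc, sup_bot_eq, ← le_bot_iff]
    calc v ⊓ ((S.cR b s).τ m c ⊓ wᶜ) ≤ w ⊓ wᶜ := inf_le_inf hvw inf_le_right
      _ = ⊥ := inf_compl_self w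
      _ ≤ ⊥ := le_rfl
  have hxin : ∀ i, i < n → i ∈ a' → v ≤ rgX S b i := by
    intro i hi hia
    refine le_trans (le_inf hvt ?_) (rgX_ge S b t i)
    refine le_iInf fun c => le_iInf fun hc => ?_
    rw [le_compl_iff_disjoint_right, disjoint_iff]
    refine hnode (i + 1) c fun h => ?_
    have h8 : i ∈ a' ∩ Finset.range (i + 1) :=
      Finset.mem_inter.2 ⟨hia, Finset.mem_range.2 (Nat.lt_succ_self i)⟩
    rw [← h] at h8
    exact hc.2 (Finset.mem_inter.1 h8).1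
  have hxout : ∀ i, i < n → i ∉ a' → v ≤ (rgX S b i)ᶜ := by
    intro i hi hia
    rw [le_compl_iff_disjoint_left, disjoint_iff]
    rw [← le_bot_iff, ← rgX_bot S b h3 hb t i]
    refine le_inf inf_le_left (inf_le_right.trans (le_inf hvt ?_))
    refine le_iInf fun c => le_iInf fun hc => ?_
    rw [le_compl_iff_disjoint_right, disjoint_iff]
    refine hnode (i + 1) c fun h => ?_
    have h8 : i ∈ c ∩ Finset.range n := Finset.mem_inter.2 ⟨hc.2, Finset.mem_range.2 hi⟩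
    rw [h] at h8
    exact hia (Finset.mem_inter.1 h8).1
  -- `a' = a`
  have hcut : ∀ i, i < n → v ≤ if i ∈ a then rgX S b i else (rgX S b i)ᶜ := fun i hi =>
    hvc.trans (iInf_le _ (⟨i, hi⟩ : Fin n))
  have haa : a' = a := by
    ext i
    constructor
    · intro hia
      have hi : i < n := Finset.mem_range.1 (ha' hia)
      by_contra hna
      have h8 := hcut i hi
      rw [if_neg hna] at h8
      apply hne
      rw [← le_bot_iff]
      exact (le_inf (hxin i hi hia) h8).trans (le_of_eq (inf_compl_self _))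
    · intro hia
      have hi : i < n := Finset.mem_range.1 (ha hia)
      by_contra hna
      have h8 := hcut i hi
      rw [if_pos hia] at h8
      apply hne
      rw [← le_bot_iff]
      exact (le_inf h8 (hxout i hi hna)).trans (le_of_eq (inf_compl_self _))
  -- the intersection of `κ` and `ρ`
  have hnul : v ≤ (S.cR b t).nul (S.cR b ρ) := by
    refine rg_nul _ _ v n fun c hc => ?_
    by_cases hca : c = a
    · rw [hca, ← le_bot_iff]
      calc v ⊓ ((S.cR b t).τ n a ⊓ (S.cR b ρ).τ n a)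
          ≤ ((S.cR b ρ).τ n a)ᶜ ⊓ (S.cR b ρ).τ n a := inf_le_inf hvτ inf_le_right
        _ = ⊥ := compl_inf_self _
        _ ≤ ⊥ := le_rfl
    · rw [← inf_assoc, hnode n c, bot_inf_eq]
      rw [Finset.inter_eq_left.2 hc, Finset.inter_eq_left.2 ha', haa]
      exact hca
  apply hne
  rw [← le_bot_iff, ← (h3 K Λ L S b hb).1 t ρ]
  exact le_inf (le_inf hnul hvt) hvρ

/-- the label without information -/
theorem rg_triv {B : Type u} [CompleteBooleanAlgebra B] {W : Set B} (hW : IsSS W) :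
    Nonempty (CndR W) := by
  have htop : (⊤ : B) ∈ W := by
    rw [← compl_bot]
    exact hW.compl _ hW.bot
  refine ⟨⟨fun _ _ => ⊤, 0, fun _ _ => htop, fun _ _ => le_rfl, ?_⟩⟩
  rw [← top_le_iff]
  refine le_iInf fun n => ?_
  refine le_iSup_of_le (Finset.range n).powerset (le_iSup_of_le ⟨Finset.Subset.refl _, ?_⟩ ?_)
  · rw [Finset.card_powerset, Finset.card_range]
    omega
  · rw [Finset.le_inf_iff]
    exact fun _ _ => le_rfl

theorem rndStm (h1 : RGenStm.{u}) (h2 : ROpnStm.{u}) (h3 : SZStm.{u}) (h4 : EeStm.{u}) :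
    RndStm.{u} := by
  intro K Λ L _ _ S b hb
  obtain ⟨x, hx⟩ := h1 K Λ L S b hb
  refine ⟨x, fun c hc => ?_⟩
  by_contra hne
  have hE := h4 K Λ S.D
  obtain ⟨p, hp⟩ := exists_ee_le hne
  obtain ⟨κ₀⟩ := rg_triv (S.ss b)
  obtain ⟨s₀, -⟩ := (S.vR b hb).2 κ₀
  obtain ⟨q, s, hqs, hq⟩ : ∃ (q : PF K Λ) (s : Λ), q.f b = some s ∧ ee S.D q ≤ c.mem x := by
    rcases hpb : p.f b with _ | s
    · refine ⟨p.upd b s₀, s₀, PF.upd_f_same _ _ _, ?_⟩
      rw [hE.2.2.1 p b s₀ hpb]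
      exact inf_le_left.trans hp
    · exact ⟨p, s, hpb, hp⟩
  obtain ⟨m, hm⟩ : ∃ m : ℕ, 2 * ((S.cR b s).q + 1) ≤ 2 ^ m :=
    ⟨2 * ((S.cR b s).q + 1), Nat.lt_two_pow_self.le⟩
  obtain ⟨κ, hκ, -⟩ := h2 (BB S.D) (S.W b) (S.ss b) (S.cR b s) (c.U m) m (fun n a => hc m n a)
    (c.le m) hm
  obtain ⟨t, ht⟩ := (S.vR b hb).2 κ
  have hts : dv S.D b t s = ⊤ := by
    rw [(S.vR b hb).1, ht, ← top_le_iff]
    refine le_iInf fun n => le_iInf fun a => le_iInf fun ha => ?_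
    rw [le_himp_iff, top_inf_eq, hκ n a ha]
    exact inf_le_left
  have hle : @LE.le (PD S.D) _ (q.upd b t) q := by
    rw [le_iff]
    intro b' c' hb'
    by_cases hbb : b' = b
    · subst hbb
      refine ⟨t, PF.upd_f_same _ _ _, ?_⟩
      rw [hqs, Option.some.injEq] at hb'
      subst hb'
      have h5 : (q.upd b' t).res (Iio b') ∈ (dv S.D b' t s).S := by
        rw [← ee_le_iff, hts]
        exact le_top
      exact h5
    · exact ⟨c', by rw [PF.upd_f_ne hbb, hb'], S.D.refl _ _ _⟩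
  have h5 : ee S.D (q.upd b t) ≤ eb S.D b t := hE.2.2.2.1 _ b t (PF.upd_f_same _ _ _)
  have h6 : ee S.D (q.upd b t) ≤ (c.U m).mem x := (ee_mono hle).trans (hq.trans (iInf_le _ m))
  apply ee_ne_bot (D := S.D) (q.upd b t)
  rw [← le_bot_iff]
  refine (le_inf h5 h6).trans ?_
  unfold OpnC.mem
  rw [inf_iSup_eq]
  refine iSup_le fun n => ?_
  rw [inf_iSup_eq]
  refine iSup_le fun a => ?_
  rw [inf_iSup_eq]
  refine iSup_le fun ha => ?_
  have h7 := hx t n a ha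
  rw [ht, hκ n a ha] at h7
  calc eb S.D b t ⊓ ((c.U m).O n a ⊓ cutV x n a)
      = (eb S.D b t ⊓ cutV x n a) ⊓ (c.U m).O n a := by
        rw [inf_comm ((c.U m).O n a), inf_assoc]
    _ ≤ ((c.U m).O n a)ᶜ ⊓ (c.U m).O n a := inf_le_inf_right _ (h7.trans inf_le_right)
    _ = ⊥ := compl_inf_self _
    _ ≤ ⊥ := le_rfl

end CI
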