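import Pool.Agent.CI.C.RndStm

/-!
# Project CI: a label minus a name of a small open set
-/

set_option autoImplicit false

open Set

namespace CI

universe u

section

variable {B : Type u} [CompleteBooleanAlgebra B]

/-- a finite partition -/
private theorem ropn_part (x : Finset ℕ → B) (t : B) (C : Finset (Finset ℕ)) :
    ∀ b : B, (∀ A : Finset (Finset ℕ), A ⊆ C →
      b ⊓ A.inf x ⊓ (C \ A).inf (fun a => (x a)ᶜ) ≤ t) → b ≤ t := by
  induction C using Finset.induction_on with
  | empty =>
    intro b h
    have h1 := h ∅ (Finset.Subset.refl _)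
    rw [Finset.sdiff_self, Finset.inf_empty, Finset.inf_empty, inf_top_eq, inf_top_eq] at h1
    exact h1
  | insert i s hi ih =>
    intro b h
    have h1 : b ⊓ x i ≤ t := by
      refine ih (b ⊓ x i) fun A hA => ?_
      have h2 := h (insert i A) (Finset.insert_subset_insert i hA)
      have h3 : insert i s \ insert i A = s \ A := by
        ext y
        simp only [Finset.mem_sdiff, Finset.mem_insert, not_or]
        constructor
        · rintro ⟨h4 | h4, h5, h6⟩
          · exact absurd h4 h5
          · exact ⟨h4, h6⟩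
        · rintro ⟨h4, h5⟩
          exact ⟨Or.inr h4, fun h6 => hi (h6 ▸ h4), h5⟩
      rw [h3, Finset.inf_insert, ← inf_assoc] at h2
      exact h2
    have h2 : b ⊓ (x i)ᶜ ≤ t := by
      refine ih (b ⊓ (x i)ᶜ) fun A hA => ?_
      have h2 := h A (hA.trans (Finset.subset_insert i s))
      have hiA : i ∉ A := fun h => hi (hA h)
      have h3 : insert i s \ A = insert i (s \ A) := Finset.insert_sdiff_of_notMem s hiA
      rw [h3, Finset.inf_insert] at h2
      refine le_trans (le_of_eq ?_) h2
      ac_rfl
    calc b = b ⊓ (x i ⊔ (x i)ᶜ) := by rw [sup_compl_eq_top, inf_top_eq]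
      _ = b ⊓ x i ⊔ b ⊓ (x i)ᶜ := inf_sup_left _ _ _
      _ ≤ t := sup_le h1 h2

private theorem ropn_sup {W : Set B} (hW : IsSS W) {a b : B} (ha : a ∈ W) (hb : b ∈ W) :
    a ⊔ b ∈ W := by
  have h1 := hW.iSup (fun n => if n = 0 then a else b) (fun n => by
    by_cases h : n = 0
    · rw [if_pos h]; exact ha
    · rw [if_neg h]; exact hb)
  have h2 : (⨆ n : ℕ, if n = 0 then a else b) = a ⊔ b := by
    apply le_antisymm
    · refine iSup_le fun n => ?_
      by_cases h : n = 0
      · rw [if_pos h]; exact le_sup_left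
      · rw [if_neg h]; exact le_sup_right
    · refine sup_le ?_ ?_
      · have h3 := le_iSup (fun n : ℕ => if n = 0 then a else b) 0
        rw [if_pos rfl] at h3
        exact h3
      · have h3 := le_iSup (fun n : ℕ => if n = 0 then a else b) 1
        rw [if_neg one_ne_zero] at h3
        exact h3
  rw [h2] at h1
  exact h1

private theorem ropn_inf {W : Set B} (hW : IsSS W) {a b : B} (ha : a ∈ W) (hb : b ∈ W) :
    a ⊓ b ∈ W := by
  have h1 := hW.compl _ (ropn_sup hW (hW.compl _ ha) (hW.compl _ hb))
  rw [compl_sup, compl_compl, compl_compl] at h1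
  exact h1

end

/-- a label minus a name of a small open set -/
theorem rOpnStm : ROpnStm := by
  intro B _ W hW c O m hO hle hm
  have hdec : DecT (fun n a => if a ⊆ Finset.range n then c.τ n a ⊓ (O.O n a)ᶜ else ⊥) := by
    intro n a
    by_cases h : a ⊆ Finset.range (n + 1)
    · have h1 : a.erase n ⊆ Finset.range n := by
        intro y hy
        have h2 := Finset.mem_range.1 (h (Finset.mem_of_mem_erase hy))
        have h3 := Finset.ne_of_mem_erase hy
        rw [Finset.mem_range]
        omega
      show (if a ⊆ Finset.range (n + 1) then c.τ (n + 1) a ⊓ (O.O (n + 1) a)ᶜ else ⊥) ≤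
        (if a.erase n ⊆ Finset.range n then c.τ n (a.erase n) ⊓ (O.O n (a.erase n))ᶜ else ⊥)
      rw [if_pos h, if_pos h1]
      refine inf_le_inf (c.dec n a) (compl_le_compl ?_)
      have h2 := O.mono n (a.erase n) h1
      by_cases hn : n ∈ a
      · have h3 := h2.trans inf_le_right
        rw [Finset.insert_erase hn] at h3
        exact h3
      · have h3 := h2.trans inf_le_left
        rw [Finset.erase_eq_of_notMem hn] at h3
        rw [Finset.erase_eq_of_notMem hn]
        exact h3
    · show (if a ⊆ Finset.range (n + 1) then c.τ (n + 1) a ⊓ (O.O (n + 1) a)ᶜ else ⊥) ≤ _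
      rw [if_neg h]
      exact bot_le
  have hmem : ∀ n a, (fun n a => if a ⊆ Finset.range n then c.τ n a ⊓ (O.O n a)ᶜ else ⊥ :
      ℕ → Finset ℕ → B) n a ∈ W := by
    intro n a
    show (if a ⊆ Finset.range n then c.τ n a ⊓ (O.O n a)ᶜ else ⊥) ∈ W
    by_cases h : a ⊆ Finset.range n
    · rw [if_pos h]
      exact ropn_inf hW (c.mem n a) (hW.compl _ (hO n a))
    · rw [if_neg h]
      exact hW.bot
  have hbig : mGe (fun n a => if a ⊆ Finset.range n then c.τ n a ⊓ (O.O n a)ᶜ else ⊥)
      (2 * c.q + 1 + 1) 1 = ⊤ := by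
    unfold mGe
    refine iInf_eq_top.2 fun n => ?_
    have h1 : cntGe (Finset.range n).powerset (c.τ n) (c.q + 1) (1 * 2 ^ n) = ⊤ :=
      iInf_eq_top.1 c.big n
    rw [eq_top_iff, ← h1]
    unfold cntGe
    refine iSup_le fun C => iSup_le fun hC => ?_
    refine ropn_part (O.O n) _ C _ fun A hA => ?_
    by_cases hA2 : 2 ^ n < 2 ^ m * A.card
    · have h2 := hle n A (fun a ha => Finset.mem_powerset.1 (hC.1 (hA ha))) hA2
      have h3 : A.inf (O.O n) = ⊥ := by rw [Finset.inf_eq_iInf]; exact h2
      rw [h3, inf_bot_eq, bot_inf_eq]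
      exact bot_le
    · rw [not_lt] at hA2
      have hcard : (C \ A).card + A.card = C.card := Finset.card_sdiff_add_card_eq_card hA
      have hbound : 1 * 2 ^ n ≤ (C \ A).card * (2 * c.q + 1 + 1) := by
        have h2 := hC.2
        have h3 : 2 * (c.q + 1) * A.card ≤ 2 ^ m * A.card := Nat.mul_le_mul_right _ hm
        rw [← hcard] at h2
        nlinarith
      refine le_iSup₂_of_le (C \ A) ⟨Finset.sdiff_subset.trans hC.1, hbound⟩ ?_
      refine Finset.le_inf fun a ha => ?_
      have haC : a ∈ C := (Finset.mem_sdiff.1 ha).1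
      beta_reduce
      rw [if_pos (Finset.mem_powerset.1 (hC.1 haC))]
      refine le_inf ?_ ?_
      · exact (inf_le_left.trans inf_le_left).trans (Finset.inf_le haC)
      · exact inf_le_right.trans (Finset.inf_le (f := fun a => (O.O n a)ᶜ) ha)
  refine ⟨⟨fun n a => if a ⊆ Finset.range n then c.τ n a ⊓ (O.O n a)ᶜ else ⊥, 2 * c.q + 1, hmem,
    hdec, hbig⟩, fun n a ha => if_pos ha, rfl⟩

end CI
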