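import Pool.Agent.CI.C.Alg

/-!
# Project CI: ultrafilters respecting countably many suprema
-/

set_option autoImplicit false

namespace CI

universe u

/-- proper filters of `B` as sets -/
structure RsFil {B : Type u} [CompleteBooleanAlgebra B] (F : Set B) : Prop where
  top : ⊤ ∈ F
  bot : ⊥ ∉ F
  inf : ∀ a ∈ F, ∀ c ∈ F, a ⊓ c ∈ F
  up : ∀ a ∈ F, ∀ c, a ≤ c → c ∈ F

section

variable {B : Type u} [CompleteBooleanAlgebra B]

theorem rs_step (x : ℕ → B) (a : B) (ha : a ≠ ⊥) :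
    ∃ c : B, c ≠ ⊥ ∧ c ≤ a ∧ (a ⊓ (⨆ n, x n) ≠ ⊥ → ∃ n, c ≤ x n) := by
  by_cases h : a ⊓ (⨆ n, x n) = ⊥
  · exact ⟨a, ha, le_refl _, fun h' => absurd h h'⟩
  · rw [inf_iSup_eq] at h
    have h2 : ∃ n, a ⊓ x n ≠ ⊥ := by
      by_contra hc
      push Not at hc
      exact h (by simp [hc])
    obtain ⟨n, hn⟩ := h2
    exact ⟨a ⊓ x n, hn, inf_le_left, fun _ => ⟨n, inf_le_right⟩⟩

theorem rs_seq (x : ℕ → ℕ → B) (b : B) (hb : b ≠ ⊥) :
    ∃ s : ℕ → B, s 0 = b ∧ (∀ k, s k ≠ ⊥) ∧ (∀ k, s (k + 1) ≤ s k) ∧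
      ∀ k, s k ⊓ (⨆ n, x k n) ≠ ⊥ → ∃ n, s (k + 1) ≤ x k n := by
  choose f hf1 hf2 hf3 using fun (k : ℕ) (a : {a : B // a ≠ ⊥}) => rs_step (x k) a.1 a.2
  let s : ℕ → {a : B // a ≠ ⊥} := fun n => Nat.rec ⟨b, hb⟩ (fun k a => ⟨f k a, hf1 k a⟩) n
  exact ⟨fun k => (s k).1, rfl, fun k => (s k).2, fun k => hf2 k (s k), fun k => hf3 k (s k)⟩

theorem rs_max (F : Set B) (hF : RsFil F) : ∃ M : Set B, F ⊆ M ∧ RsFil M ∧
    ∀ a, a ∈ M ∨ aᶜ ∈ M := by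
  have hz := zorn_subset_nonempty {F : Set B | RsFil F} (by
    intro c hc hch hne
    obtain ⟨t0, ht0⟩ := hne
    refine ⟨⋃₀ c, ⟨⟨t0, ht0, (hc ht0).top⟩, ?_, ?_, ?_⟩,
      fun t ht => Set.subset_sUnion_of_mem ht⟩
    · rintro ⟨t, ht, h⟩
      exact (hc ht).bot h
    · rintro a ⟨t, ht, hat⟩ d ⟨t', ht', hdt⟩
      rcases hch.total ht ht' with h | h
      · exact ⟨t', ht', (hc ht').inf a (h hat) d hdt⟩
      · exact ⟨t, ht, (hc ht).inf a hat d (h hdt)⟩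
    · rintro a ⟨t, ht, hat⟩ d had
      exact ⟨t, ht, (hc ht).up a hat d had⟩) F hF
  obtain ⟨M, hFM, hM⟩ := hz
  refine ⟨M, hFM, hM.prop, fun a => ?_⟩
  by_contra hcon
  push Not at hcon
  obtain ⟨ha, hac⟩ := hcon
  apply ha
  have hfil : RsFil {c : B | ∃ m ∈ M, m ⊓ a ≤ c} := by
    refine ⟨⟨⊤, hM.prop.top, le_top⟩, ?_, ?_, ?_⟩
    · rintro ⟨m, hm, hma⟩
      apply hac
      refine hM.prop.up m hm _ ?_
      rw [le_compl_iff_disjoint_right, disjoint_iff_inf_le]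
      exact hma
    · rintro c ⟨m, hm, hmc⟩ d ⟨m', hm', hmd⟩
      refine ⟨m ⊓ m', hM.prop.inf m hm m' hm', le_inf ?_ ?_⟩
      · exact (inf_le_inf_right a inf_le_left).trans hmc
      · exact (inf_le_inf_right a inf_le_right).trans hmd
    · rintro c ⟨m, hm, hmc⟩ d hcd
      exact ⟨m, hm, hmc.trans hcd⟩
  have hsub : M ⊆ {c : B | ∃ m ∈ M, m ⊓ a ≤ c} := fun m hm => ⟨m, hm, inf_le_left⟩
  exact hM.le_of_ge hfil hsub ⟨⊤, hM.prop.top, inf_le_right⟩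

end

theorem rsStm : RSStm := by
  intro B _ b x hb
  obtain ⟨s, hs0, hsb, hs1, hsx⟩ := rs_seq x b hb
  have hanti : Antitone s := antitone_nat_of_succ_le hs1
  have hF : RsFil {a : B | ∃ k, s k ≤ a} := by
    refine ⟨⟨0, le_top⟩, ?_, ?_, ?_⟩
    · rintro ⟨k, hk⟩
      exact hsb k (le_bot_iff.1 hk)
    · rintro a ⟨k, hk⟩ c ⟨l, hl⟩
      exact ⟨max k l, le_inf ((hanti (le_max_left k l)).trans hk)
        ((hanti (le_max_right k l)).trans hl)⟩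
    · rintro a ⟨k, hk⟩ c hac
      exact ⟨k, hk.trans hac⟩
  obtain ⟨M, hFM, hM, hult⟩ := rs_max _ hF
  have hs : ∀ k, s k ∈ M := fun k => hFM ⟨k, le_refl _⟩
  refine ⟨fun a => a ∈ M, ?_, hM.bot, ?_, ?_, ?_⟩
  · rw [← hs0]; exact hs 0
  · intro a c
    exact ⟨fun h => ⟨hM.up _ h _ inf_le_left, hM.up _ h _ inf_le_right⟩,
      fun h => hM.inf a h.1 c h.2⟩
  · intro a
    constructor
    · intro h h'
      apply hM.bot
      have h2 := hM.inf a h' _ h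
      rwa [inf_compl_self] at h2
    · intro h
      exact (hult a).resolve_left h
  · intro k
    constructor
    · intro h
      have h2 : s k ⊓ (⨆ n, x k n) ≠ ⊥ := fun h0 => hM.bot (h0 ▸ hM.inf _ (hs k) _ h)
      obtain ⟨n, hn⟩ := hsx k h2
      exact ⟨n, hM.up _ (hs (k + 1)) _ hn⟩
    · rintro ⟨n, hn⟩
      exact hM.up _ hn _ (le_iSup (x k) n)

end CI
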