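import Pool.Agent.CI.C.StepStm

/-!
# Project CI, core: random labels, disjointness and null intersections
-/

set_option autoImplicit false

open Set Cardinal Pool.Agent.CL

namespace CI

universe u

section

variable {B : Type u} [CompleteBooleanAlgebra B] {W : Set B}

private theorem reb_top (h : IsSS W) : (⊤ : B) ∈ W := by
  rw [← compl_bot]
  exact h.compl _ h.bot

private theorem reb_iInf (h : IsSS W) {f : ℕ → B} (hf : ∀ n, f n ∈ W) : ⨅ n, f n ∈ W := by
  have h1 : ⨅ n, f n = (⨆ n, (f n)ᶜ)ᶜ := by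
    rw [compl_iSup]
    simp
  rw [h1]
  exact h.compl _ (h.iSup _ fun n => h.compl _ (hf n))

private theorem reb_inf (h : IsSS W) {a b : B} (ha : a ∈ W) (hb : b ∈ W) : a ⊓ b ∈ W := by
  have h1 : a ⊓ b = ⨅ n : ℕ, if n = 0 then a else b := by
    apply le_antisymm
    · refine le_iInf fun n => ?_
      by_cases hn : n = 0
      · rw [if_pos hn]; exact inf_le_left
      · rw [if_neg hn]; exact inf_le_right
    · refine le_inf ((iInf_le _ 0).trans (by simp)) ((iInf_le _ 1).trans (by simp))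
  rw [h1]
  refine reb_iInf h fun n => ?_
  split_ifs
  · exact ha
  · exact hb

private theorem reb_finf (h : IsSS W) {α : Type} (s : Finset α) {f : α → B}
    (hf : ∀ a, f a ∈ W) : s.inf f ∈ W := by
  classical
  induction s using Finset.induction_on with
  | empty => rw [Finset.inf_empty]; exact reb_top h
  | insert a s ha ih => rw [Finset.inf_insert]; exact reb_inf h (hf a) ih

private theorem reb_iSup (h : IsSS W) {α : Type} [Countable α] [Nonempty α] {f : α → B}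
    (hf : ∀ a, f a ∈ W) : ⨆ a, f a ∈ W := by
  obtain ⟨g, hg⟩ := exists_surjective_nat α
  rw [← hg.iSup_comp]
  exact h.iSup _ fun n => hf _

private theorem reb_iSupP (h : IsSS W) {p : Prop} {f : p → B} (hf : ∀ hp, f hp ∈ W) :
    ⨆ hp, f hp ∈ W := by
  by_cases hp : p
  · rw [iSup_pos hp]; exact hf hp
  · rw [iSup_neg hp]; exact h.bot

private theorem reb_mGe (h : IsSS W) {U : ℕ → Finset ℕ → B} (hU : ∀ n a, U n a ∈ W) (s r : ℕ) :
    mGe U s r ∈ W := by
  unfold mGe cntGe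
  exact reb_iInf h fun n => reb_iSup h fun C => reb_iSupP h fun _ => reb_finf h C (hU n)

end

set_option linter.unusedVariables false in
/-- random labels -/
theorem rebStm (h1 : RCutStm.{u}) (h2 : RNulStm.{u}) (h3 : SZStm.{u}) (h4 : EeStm.{u})
    (h5 : TrStm.{u}) : RebStm.{u} := by
  intro K Λ L _ _ S b hb
  obtain ⟨hcmp, hsurj⟩ := S.vR b hb
  refine ⟨fun ρ σ => ?_, fun ρ σ U hU hdis => ?_⟩
  · by_contra hne
    obtain ⟨p, hp⟩ := exists_ee_le hne
    rw [ee_le_iff] at hp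
    have hp1 : p ∈ ((S.cR b ρ).nul (S.cR b σ)).S := hp.1.1
    have hp2 : p ∈ (eb S.D b ρ).S := hp.1.2
    have hp3 : p ∈ (eb S.D b σ).S := hp.2
    obtain ⟨s, hs1, hs2⟩ := (ee_mem_iff.1 hp2) p (@le_rfl (PD S.D) _ p)
    obtain ⟨s', hs1', hs2'⟩ := (ee_mem_iff.1 hp3) s hs1
    have hs3 : @LE.le (PD S.D) _ s' (PF.sng b ρ) := @le_trans (PD S.D) _ _ _ _ hs1' hs2
    have hs4 : @LE.le (PD S.D) _ s' p := @le_trans (PD S.D) _ _ _ _ hs1' hs1
    obtain ⟨κ, hκ1, hκ2⟩ := (le_iff.1 hs3) b ρ (PF.sng_f_same b ρ)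
    obtain ⟨κ', hκ1', hκ2'⟩ := (le_iff.1 hs2') b σ (PF.sng_f_same b σ)
    have hκκ : κ' = κ := by
      rw [hκ1] at hκ1'
      exact (Option.some.inj hκ1').symm
    subst hκκ
    have m1 : s' ∈ (dv S.D b κ' ρ).S := mem_dv_res.1 hκ2
    have m2 : s' ∈ (dv S.D b κ' σ).S := mem_dv_res.1 hκ2'
    rw [hcmp] at m1 m2
    obtain ⟨-, -, -, -, h5'⟩ := h2 (BB S.D) (S.W b) (S.ss b) (S.cR b ρ) (S.cR b σ) (S.cR b κ')
    have m3 : s' ∈ (((S.cR b ρ).nul (S.cR b σ))ᶜ).S := h5' ⟨m1, m2⟩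
    have m4 : s' ∈ ((S.cR b ρ).nul (S.cR b σ)).S :=
      ((S.cR b ρ).nul (S.cR b σ)).isReg.down hp1 hs4
    exact m3 s' (@le_rfl (PD S.D) _ s') m4
  · by_contra hle
    -- a value of the measure
    have hne : U ⊓ mGt (fun n a => (S.cR b ρ).τ n a ⊓ (S.cR b σ).τ n a) 0 ≠ ⊥ := by
      intro h0
      apply hle
      unfold CndR.nul
      rw [le_compl_iff_disjoint_right, disjoint_iff]
      exact h0
    unfold mGt at hne
    rw [inf_iSup_eq] at hne
    have hex : ∃ j : ℕ, U ⊓ mGe (fun n a => (S.cR b ρ).τ n a ⊓ (S.cR b σ).τ n a) (j + 1) 1 ≠ ⊥ := by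
      by_contra hc
      push Not at hc
      apply hne
      rw [iSup_eq_bot]
      intro j
      have h6 := hc j
      rw [show (0 + 1) * (j + 1) = j + 1 by ring, show 0 * (j + 1) + 1 = 1 by ring]
      exact h6
    obtain ⟨j, hj⟩ := hex
    set w := mGe (fun n a => (S.cR b ρ).τ n a ⊓ (S.cR b σ).τ n a) (j + 1) 1 with hw
    have hwW : w ∈ S.W b := reb_mGe (S.ss b)
      (fun n a => reb_inf (S.ss b) ((S.cR b ρ).mem n a) ((S.cR b σ).mem n a)) _ _
    obtain ⟨κ, -, hκ⟩ := h1 (BB S.D) (S.W b) (S.ss b) (S.cR b ρ) (S.cR b σ).τ w j hwW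
      (S.cR b σ).mem (S.cR b σ).dec hw.le
    obtain ⟨c, hc⟩ := hsurj κ
    have hd1 : dv S.D b c ρ = ⊤ := by
      rw [hcmp, hc]
      unfold CndR.cmp
      simp only [hκ]
      refine iInf_eq_top.2 fun n => iInf_eq_top.2 fun a => iInf_eq_top.2 fun _ => ?_
      rw [himp_eq_top_iff]
      exact inf_le_left
    have hd2 : w ≤ dv S.D b c σ := by
      rw [hcmp, hc]
      unfold CndR.cmp
      simp only [hκ]
      refine le_iInf fun n => le_iInf fun a => le_iInf fun _ => ?_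
      rw [le_himp_iff]
      calc w ⊓ ((S.cR b ρ).τ n a ⊓ (wᶜ ⊔ (S.cR b σ).τ n a))
          ≤ w ⊓ (wᶜ ⊔ (S.cR b σ).τ n a) := inf_le_inf_left _ inf_le_right
        _ = w ⊓ (S.cR b σ).τ n a := by rw [inf_sup_left, inf_compl_self, bot_sup_eq]
        _ ≤ (S.cR b σ).τ n a := inf_le_right
    have hTr : Tr S.D (Iio b) := Tr_of_lower (isLowerSet_Iio b)
    obtain ⟨-, -, -, -, h6, -⟩ := h3 K Λ S.D (Iio b) hTr
    have hwZ : w ∈ SZ S.D (Iio b) := SZ_mono inter_subset_left (S.sub b hwW)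
    have hV : U ⊓ w ∈ SZ S.D (Iio b) := fun p => and_congr (hU p) (hwZ p)
    have h7 := h6 (U ⊓ w) hV hj (PF.sng b c) (by
      rw [PF.dom_sng, Set.disjoint_singleton_left]
      exact lt_irrefl b)
    apply h7
    rw [eq_bot_iff, ← hdis]
    obtain ⟨-, h8, -⟩ := h4 K Λ S.D
    have k1 : U ⊓ w ⊓ ee S.D (PF.sng b c) ≤ eb S.D b ρ := by
      refine le_trans ?_ (h8 b c ρ)
      rw [hd1, top_inf_eq]
      exact inf_le_right
    have k2 : U ⊓ w ⊓ ee S.D (PF.sng b c) ≤ eb S.D b σ := by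
      refine le_trans ?_ (h8 b c σ)
      exact inf_le_inf_right _ (inf_le_right.trans hd2)
    exact le_inf (le_inf (inf_le_left.trans inf_le_left) k1) k2

end CI
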