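import Pool.Agent.CI.C.Alg

/-!
# Project CI, core: the extension theorem of Sikorski with lower bounds
-/

set_option autoImplicit false

open Set

namespace CI

universe u

section

variable {X : Type u} {T : Type u} [BooleanAlgebra X] [CompleteBooleanAlgebra T]

/-- consistent sets of requirements -/
private def sikCon (X1 : Set X) (T1 : Set T) (Q : Set (X × T)) : Prop :=
  (∀ r ∈ Q, r.1 ∈ X1 ∧ r.2 ∈ T1) ∧
    ∀ s : Finset (X × T), (s : Set (X × T)) ⊆ Q → s.inf Prod.fst = ⊥ → s.inf Prod.snd = ⊥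

private theorem sik_T1_inf {T1 : Set T} (h : IsCS T1) {a b : T} (ha : a ∈ T1) (hb : b ∈ T1) :
    a ⊓ b ∈ T1 := by
  have h1 := h.sSup {aᶜ, bᶜ} (by
    intro x hx
    rcases hx with rfl | hx
    · exact h.compl _ ha
    · rw [mem_singleton_iff.1 hx]
      exact h.compl _ hb)
  have h2 := h.compl _ h1
  rw [sSup_insert, sSup_singleton, compl_sup, compl_compl, compl_compl] at h2
  exact h2

private theorem sik_T1_top {T1 : Set T} (h : IsCS T1) : (⊤ : T) ∈ T1 := by
  have h1 := h.sSup ∅ (empty_subset _)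
  have h2 := h.compl _ h1
  rw [sSup_empty, compl_bot] at h2
  exact h2

private theorem sik_mem {X1 : Set X} {T1 : Set T} (h1 : IsSA X1) (h2 : IsCS T1)
    {Q : Set (X × T)} (hQ : ∀ r ∈ Q, r.1 ∈ X1 ∧ r.2 ∈ T1) (s : Finset (X × T))
    (hs : (s : Set (X × T)) ⊆ Q) : s.inf Prod.fst ∈ X1 ∧ s.inf Prod.snd ∈ T1 := by
  classical
  induction s using Finset.induction_on with
  | empty => exact ⟨h1.top, sik_T1_top h2⟩
  | insert p s hp ih =>
    rw [Finset.coe_insert, insert_subset_iff] at hs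
    obtain ⟨h3, h4⟩ := ih hs.2
    rw [Finset.inf_insert, Finset.inf_insert]
    exact ⟨h1.inf _ (hQ p hs.1).1 _ h3, sik_T1_inf h2 (hQ p hs.1).2 h4⟩

private theorem sik_max (X1 : Set X) (T1 : Set T) (R : Set (X × T)) (hR : sikCon X1 T1 R) :
    ∃ M, R ⊆ M ∧ sikCon X1 T1 M ∧ ∀ M', sikCon X1 T1 M' → M ⊆ M' → M' ⊆ M := by
  obtain ⟨M, h1, h2⟩ := zorn_subset_nonempty {Q | sikCon X1 T1 Q} (by
    intro c hc hch hne
    refine ⟨⋃₀ c, ⟨?_, ?_⟩, fun s hs => subset_sUnion_of_mem hs⟩
    · rintro r ⟨Q, hQ, hr⟩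
      exact (hc hQ).1 r hr
    · intro s hs
      have hs' : (s : Set (X × T)) ⊆ ⋃ Q ∈ c, id Q := by
        rw [sUnion_eq_biUnion] at hs
        exact hs
      obtain ⟨Q, hQ, hsQ⟩ :=
        DirectedOn.exists_mem_subset_of_finset_subset_biUnion hne hch.directedOn hs'
      exact (hc hQ).2 s hsQ) R hR
  exact ⟨M, h1, h2.prop, fun M' h3 h4 => h2.le_of_ge h3 h4⟩

private theorem sik_add {X1 : Set X} {T1 : Set T} {M : Set (X × T)} (hM : sikCon X1 T1 M)
    (hmax : ∀ M', sikCon X1 T1 M' → M ⊆ M' → M' ⊆ M) {p : X × T} (hp1 : p.1 ∈ X1)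
    (hp2 : p.2 ∈ T1) (h : ∀ s : Finset (X × T), (s : Set (X × T)) ⊆ M →
      s.inf Prod.fst ⊓ p.1 = ⊥ → s.inf Prod.snd ⊓ p.2 = ⊥) : p ∈ M := by
  classical
  refine hmax (insert p M) ⟨?_, ?_⟩ (subset_insert _ _) (mem_insert _ _)
  · intro r hr
    rcases hr with rfl | hr
    · exact ⟨hp1, hp2⟩
    · exact hM.1 r hr
  · intro s hs h0
    by_cases hps : p ∈ s
    · have h1 : ((s.erase p : Finset (X × T)) : Set (X × T)) ⊆ M := by
        intro r hr
        rw [Finset.coe_erase] at hr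
        rcases hs hr.1 with h2 | h2
        · exact absurd h2 hr.2
        · exact h2
      rw [← Finset.insert_erase hps, Finset.inf_insert, inf_comm] at h0
      rw [← Finset.insert_erase hps, Finset.inf_insert, inf_comm]
      exact h _ h1 h0
    · refine hM.2 s (fun r hr => ?_) h0
      rcases hs hr with h2 | h2
      · exact absurd (h2 ▸ hr) hps
      · exact h2

end

theorem sikStm : SikStm.{u} := by
  classical
  intro X T _ _ X1 T1 R hX hT hR hRc
  obtain ⟨M, hRM, hM, hmax⟩ := sik_max X1 T1 R ⟨hR, hRc⟩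
  -- closure properties of `M`
  have hins : ∀ {x : X} {q : T}, (x, q) ∈ M → ∀ s : Finset (X × T), (s : Set (X × T)) ⊆ M →
      s.inf Prod.fst ⊓ x = ⊥ → s.inf Prod.snd ⊓ q = ⊥ := by
    intro x q hxq s hs h0
    have h1 := hM.2 (insert (x, q) s) (by
      rw [Finset.coe_insert, insert_subset_iff]
      exact ⟨hxq, hs⟩) (by
      rw [Finset.inf_insert, inf_comm]
      exact h0)
    rw [Finset.inf_insert, inf_comm] at h1
    exact h1
  have hmono : ∀ {x : X} {q : T}, (x, q) ∈ M → ∀ y ∈ X1, x ≤ y → ∀ q' ∈ T1, q' ≤ q →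
      (y, q') ∈ M := by
    intro x q hxq y hy hxy q' hq' hqq
    refine sik_add hM hmax hy hq' fun s hs h0 => ?_
    have h1 := hins hxq s hs (le_bot_iff.1 ((inf_le_inf_left _ hxy).trans h0.le))
    exact le_bot_iff.1 ((inf_le_inf_left _ hqq).trans h1.le)
  have hfin : ∀ s : Finset (X × T), (s : Set (X × T)) ⊆ M →
      (s.inf Prod.fst, s.inf Prod.snd) ∈ M := by
    intro s hs
    obtain ⟨h1, h2⟩ := sik_mem hX hT hM.1 s hs
    refine sik_add hM hmax h1 h2 fun s' hs' h0 => ?_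
    have h3 := hM.2 (s' ∪ s) (by
      rw [Finset.coe_union]
      exact union_subset hs' hs) (by
      rw [Finset.inf_union]
      exact h0)
    rw [Finset.inf_union] at h3
    exact h3
  have hinf : ∀ {x y : X} {q r : T}, (x, q) ∈ M → (y, r) ∈ M → (x ⊓ y, q ⊓ r) ∈ M := by
    intro x y q r h1 h2
    have h3 := hfin {(x, q), (y, r)} (by
      rw [Finset.coe_insert, Finset.coe_singleton]
      exact insert_subset h1 (singleton_subset_iff.2 h2))
    rw [Finset.inf_insert, Finset.inf_singleton, Finset.inf_insert, Finset.inf_singleton] at h3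
    exact h3
  let ψ : X → T := fun x => sSup {q | (x, q) ∈ M}
  have hle : ∀ {x : X} {q : T}, (x, q) ∈ M → q ≤ ψ x := fun h => le_sSup h
  have hψT : ∀ x, ψ x ∈ T1 := fun x => hT.sSup _ fun q hq => (hM.1 _ hq).2
  have hψ : ∀ x ∈ X1, (x, ψ x) ∈ M := by
    intro x hx
    refine sik_add hM hmax hx (hψT x) fun s hs h0 => ?_
    show s.inf Prod.snd ⊓ sSup {q | (x, q) ∈ M} = ⊥
    rw [inf_sSup_eq]
    refine le_bot_iff.1 (iSup₂_le fun q hq => ?_)
    exact (hins hq s hs h0).le
  refine ⟨ψ, ⟨?_, ?_⟩, fun x _ => hψT x, fun r hr => hle (hRM hr)⟩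
  · intro a ha b hb
    have hab := hX.inf a ha b hb
    refine le_antisymm (le_inf ?_ ?_) ?_
    · exact hle (hmono (hψ _ hab) a ha inf_le_left _ (hψT _) le_rfl)
    · exact hle (hmono (hψ _ hab) b hb inf_le_right _ (hψT _) le_rfl)
    · exact hle (hinf (hψ a ha) (hψ b hb))
  · intro a ha
    have hac := hX.compl a ha
    refine le_antisymm ?_ ?_
    · rw [le_compl_iff_disjoint_left, disjoint_iff]
      have h1 := hinf (hψ a ha) (hψ _ hac)
      have h2 := hM.2 {(a ⊓ aᶜ, ψ a ⊓ ψ aᶜ)} (by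
        rw [Finset.coe_singleton]
        exact singleton_subset_iff.2 h1) (by
        rw [Finset.inf_singleton]
        exact inf_compl_self (a := a))
      rw [Finset.inf_singleton] at h2
      exact h2
    · refine hle (sik_add hM hmax hac (hT.compl _ (hψT a)) fun s hs h0 => ?_)
      have h1 : s.inf Prod.fst ≤ a := by
        rw [← disjoint_iff] at h0
        exact disjoint_compl_right_iff.1 h0
      have h2 := hle (hmono (hfin s hs) a ha h1 _ (sik_mem hX hT hM.1 s hs).2 le_rfl)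
      rw [← disjoint_iff, disjoint_compl_right_iff]
      exact h2

end CI
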