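import Pool.Agent.CI.C.StepStm

/-!
# Project CI, row S5: the successor step of the construction of the limit homomorphism
(helper30)
-/

set_option autoImplicit false

open Set Cardinal Pool.Agent.CL

namespace CI

universe u v

section

variable {B : Type u} [CompleteBooleanAlgebra B] {Y : Set B}

private theorem suc_bot (h : IsCS Y) : (⊥ : B) ∈ Y := by
  have h1 := h.sSup ∅ (empty_subset _)
  rwa [sSup_empty] at h1

private theorem suc_top (h : IsCS Y) : (⊤ : B) ∈ Y := by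
  have h1 := h.compl _ (suc_bot h)
  rwa [compl_bot] at h1

private theorem suc_iSup (h : IsCS Y) {ι : Sort v} (f : ι → B) (hf : ∀ i, f i ∈ Y) :
    ⨆ i, f i ∈ Y := h.sSup (range f) (range_subset_iff.2 hf)

private theorem suc_iInf (h : IsCS Y) {ι : Sort v} (f : ι → B) (hf : ∀ i, f i ∈ Y) :
    ⨅ i, f i ∈ Y := by
  have h1 := h.compl _ (suc_iSup h (fun i => (f i)ᶜ) fun i => h.compl _ (hf i))
  rw [compl_iSup] at h1
  simpa only [compl_compl] using h1

private theorem suc_inf (h : IsCS Y) {a b : B} (ha : a ∈ Y) (hb : b ∈ Y) : a ⊓ b ∈ Y := by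
  have h1 := h.compl _ (h.sSup {aᶜ, bᶜ} (by
    rintro x (rfl | rfl)
    · exact h.compl _ ha
    · exact h.compl _ hb))
  rwa [sSup_pair, compl_sup, compl_compl, compl_compl] at h1

private theorem suc_sa (h : IsCS Y) : IsSA {z : ℕ → B | ∀ l, z l ∈ Y} where
  top := fun _ => suc_top h
  inf := fun _ ha _ hb l => suc_inf h (ha l) (hb l)
  compl := fun _ ha l => h.compl _ (ha l)

end

section

variable {X : Type u} {T : Type v} [BooleanAlgebra X] [BooleanAlgebra T] {Y : Set X} {φ : X → T}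

private theorem suc_hbot (hY : IsSA Y) (h : HomOn Y φ) : φ ⊥ = ⊥ := by
  have h1 := h.compl ⊤ hY.top
  have h2 := h.inf ⊤ hY.top ⊤ᶜ (hY.compl _ hY.top)
  rw [inf_compl_eq_bot, h1, inf_compl_eq_bot] at h2
  exact h2

private theorem suc_mono (h : HomOn Y φ) {a b : X} (ha : a ∈ Y) (hb : b ∈ Y) (hab : a ≤ b) :
    φ a ≤ φ b := by
  have h1 := h.inf a ha b hb
  rw [inf_eq_left.2 hab] at h1
  rw [h1]
  exact inf_le_right

private theorem suc_eq (h : HomOn Y φ) {a : X} (ha : a ∈ Y) {t : T} (h1 : t ≤ φ a)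
    (h2 : tᶜ ≤ φ aᶜ) : φ a = t := by
  rw [h.compl a ha] at h2
  exact le_antisymm (compl_le_compl_iff_le.1 h2) h1

end

section

variable {K Λ L Θ : Type u} [LinearOrder K] [LinearOrder L] (S : Sys K Λ L)

/-- constants -/
private def sucC (Θ : Type u) (b : K) (x : L) : Set ((ℕ → BB S.D) × TT S.D Θ) :=
  {r | S.lay b ≤ x ∧ ∃ U ∈ SZ S.D (Iic b ∩ S.Zl x), r = (fun _ => U, iB S.D Θ U)}

/-- requirements of the centred kinds -/
private def sucE (b : K) (φ : (ℕ → BB S.D) → TT S.D Θ) (x : L) :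
    Set ((ℕ → BB S.D) × TT S.D Θ) :=
  {r | x = S.lay b ∧ (S.kd b).isE ∧ ∃ (t : List ℕ) (g : ℕ → ℕ → ℕ → BB S.D) (y : ℕ → BB S.D),
    (∀ l k v, g l k v ∈ S.W b) ∧ (∀ l, y l ∈ SZ S.D (Iic b ∩ S.Zl (S.lay b))) ∧
      S.PE b t g y ∧ r = (y, S.qq b t g φ)}

/-- requirements of the random kind -/
private def sucR (rd : Θ → ℕ → Λ) (b : K) (φ : (ℕ → BB S.D) → TT S.D Θ) (x : L) :
    Set ((ℕ → BB S.D) × TT S.D Θ) :=
  {r | x = S.lay b ∧ S.kd b = .rnd ∧ ∃ (a : AF K Θ) (θ : Θ) (k : ℕ), a.f b = some θ ∧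
    (∀ l, (S.cR b (rd θ l)).q ≤ k) ∧
      r = (fun l => eb S.D b (rd θ l), iA S.D a ⊓ S.qr b (rd θ) φ)}

variable {S}

private theorem suc_qq {b b' : K} (hb : b' ≤ b) {φ ψ : (ℕ → BB S.D) → TT S.D Θ}
    (ha : ∀ z : ℕ → BB S.D, (∀ l, z l ∈ SZ S.D (Iio b)) → ψ z = φ z) (t : List ℕ)
    (g : ℕ → ℕ → ℕ → BB S.D) (hg : ∀ l k v, g l k v ∈ S.W b') :
    S.qq b' t g ψ = S.qq b' t g φ := by
  have h1 : ∀ k v, ψ (fun l => g l k v) = φ (fun l => g l k v) := fun k v =>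
    ha _ fun l => SZ_mono (fun x hx => lt_of_lt_of_le hx.1 hb) (S.sub b' (hg l k v))
  unfold Sys.qq
  simp only [h1]

private theorem suc_qr (h14 : RNulStm.{u}) {b b' : K} (hb : b' ≤ b)
    {φ ψ : (ℕ → BB S.D) → TT S.D Θ}
    (ha : ∀ z : ℕ → BB S.D, (∀ l, z l ∈ SZ S.D (Iio b)) → ψ z = φ z) (σ : ℕ → Λ) :
    S.qr b' σ ψ = S.qr b' σ φ := by
  have h1 : ∀ ρ : Λ, ψ (fun l => (S.cR b' ρ).nul (S.cR b' (σ l))) =
      φ (fun l => (S.cR b' ρ).nul (S.cR b' (σ l))) := fun ρ =>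
    ha _ fun l => SZ_mono (fun x hx => lt_of_lt_of_le hx.1 hb)
      (S.sub b' (h14 (BB S.D) (S.W b') (S.ss b') (S.cR b' ρ) (S.cR b' (σ l)) (S.cR b' ρ)).1)
  unfold Sys.qr
  simp only [h1]

private theorem suc_consts (h7 : SZStm.{u}) (h8 : IBStm.{u}) (h11 : ZlStm.{u}) {b : K} {x : L}
    (s : Finset ((ℕ → BB S.D) × TT S.D Θ)) (hs : (s : Set _) ⊆ sucC S Θ b x) :
    ∃ U ∈ SZ S.D (Iic b ∩ S.Zl x), s.inf Prod.fst = (fun _ => U) ∧
      s.inf Prod.snd = iB S.D Θ U := by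
  classical
  have hcs : IsCS (SZ S.D (Iic b ∩ S.Zl x)) :=
    (h7 K Λ S.D _ ((Tr_of_lower (isLowerSet_Iic b)).inter (h11 K Λ L S x))).1
  obtain ⟨-, i2, -, -, -, i6, -⟩ := h8 K Λ Θ S.D
  induction s using Finset.induction_on with
  | empty => exact ⟨⊤, suc_top hcs, rfl, by rw [i6]; rfl⟩
  | insert r s hr ih =>
    obtain ⟨U, hU, e1, e2⟩ := ih fun a ha => hs (by simp [Finset.mem_coe.1 ha])
    obtain ⟨-, V, hV, rfl⟩ := hs (show r ∈ ((insert r s : Finset _) : Set _) by simp)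
    refine ⟨V ⊓ U, suc_inf hcs hV hU, ?_, ?_⟩
    · rw [Finset.inf_insert, e1]
      rfl
    · rw [Finset.inf_insert, e2, i2]

private theorem suc_fin {α ι : Type u} [CompleteLattice α] (s : Finset ι) (F : ι → α) :
    ⨅ i : Fin s.card, F (s.equivFin.symm i).1 = s.inf F := by
  rw [s.equivFin.symm.iInf_comp (g := fun r : s => F r.1), Finset.inf_eq_iInf, iInf_subtype]

/-- the requirements without `u` -/
private theorem suc_A (h2 : Succ0Stm.{u}) (h4 : SuccEStm.{u}) (h5 : SuccRStm.{u})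
    (h7 : SZStm.{u}) (h8 : IBStm.{u}) (h9 : IAStm.{u}) (h11 : ZlStm.{u})
    {rd : Θ → ℕ → Λ} {rt : Θ → List ℕ} {b : K} {φ : (ℕ → BB S.D) → TT S.D Θ}
    (hG : S.Good rd rt (Iio b) φ) (x : L) (z : ℕ → BB S.D)
    (hz : ∀ l, z l ∈ SZ S.D (Iio b ∩ S.Zl x)) (s : Finset ((ℕ → BB S.D) × TT S.D Θ))
    (hs : (s : Set _) ⊆ sucC S Θ b x ∪ (sucE S b φ x ∪ sucR S rd b φ x))
    (h : z ⊓ s.inf Prod.fst = ⊥) : φ z ⊓ s.inf Prod.snd = ⊥ := by
  classical
  have hX0 : IsSA {z : ℕ → BB S.D | ∀ l, z l ∈ SZ S.D (Iio b)} :=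
    suc_sa (h7 K Λ S.D _ (Tr_of_lower (isLowerSet_Iio b))).1
  obtain ⟨a1, a2, a3, a4, a5, a6, a7, a8⟩ := h9 K Λ Θ S.D
  rcases lt_or_ge x (S.lay b) with hx | hx
  · have hs0 : s = ∅ := by
      rw [Finset.eq_empty_iff_forall_notMem]
      intro r hr
      rcases hs hr with ⟨h1, -⟩ | ⟨h1, -⟩ | ⟨h1, -⟩
      · exact absurd h1 (not_le.2 hx)
      · exact absurd h1 hx.ne
      · exact absurd h1 hx.ne
    subst hs0
    rw [Finset.inf_empty, inf_top_eq] at h ⊢
    rw [h]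
    exact suc_hbot hX0 hG.hom
  -- constants and requirements
  set sc := s.filter (fun r => r ∈ sucC S Θ b x) with hsc
  set sr := s.filter (fun r => ¬ r ∈ sucC S Θ b x) with hsr
  have hsplit : s = sc ∪ sr := (Finset.filter_union_filter_not_eq _ s).symm
  obtain ⟨U, hU, e1, e2⟩ := suc_consts h7 h8 h11 sc (x := x) (b := b) (Θ := Θ) (by
    intro r hr
    exact (Finset.mem_filter.1 (Finset.mem_coe.1 hr)).2)
  have hsr' : ∀ r ∈ sr, r ∈ sucE S b φ x ∪ sucR S rd b φ x := by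
    intro r hr
    obtain ⟨h3, h3'⟩ := Finset.mem_filter.1 hr
    rcases hs h3 with h6 | h6
    · exact absurd h6 h3'
    · exact h6
  rw [hsplit, Finset.inf_union, e1] at h
  rw [hsplit, Finset.inf_union, e2]
  have hl : ∀ l, z l ⊓ U ⊓ (sr.inf Prod.fst) l = ⊥ := by
    intro l
    have h3 := congrFun h l
    rw [inf_assoc]
    exact h3
  rw [← inf_assoc]
  by_cases he : sr = ∅
  · rw [he, Finset.inf_empty, inf_top_eq]
    refine h2 K Λ L Θ S rd rt b φ x hG hx z U hz hU fun l => ?_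
    have h3 := hl l
    rw [he, Finset.inf_empty] at h3
    rwa [show (⊤ : ℕ → BB S.D) l = ⊤ from rfl, inf_top_eq] at h3
  obtain ⟨r0, hr0⟩ := Finset.nonempty_iff_ne_empty.2 he
  have hxe : x = S.lay b := by
    rcases hsr' r0 hr0 with ⟨h1, -⟩ | ⟨h1, -⟩
    · exact h1
    · exact h1
  subst hxe
  by_cases hE : (S.kd b).isE
  · have hd : ∀ r ∈ sr, ∃ (t : List ℕ) (g : ℕ → ℕ → ℕ → BB S.D),
        (∀ l k v, g l k v ∈ S.W b) ∧ (∀ l, r.1 l ∈ SZ S.D (Iic b ∩ S.Zl (S.lay b))) ∧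
          S.PE b t g r.1 ∧ r.2 = S.qq b t g φ := by
      intro r hr
      rcases hsr' r hr with ⟨-, -, t, g, y, h1, h3, h6, rfl⟩ | ⟨-, h1, -⟩
      · exact ⟨t, g, h1, h3, h6, rfl⟩
      · rw [h1] at hE
        rcases hE with hE | hE
        · exact absurd hE (by decide)
        · exact absurd hE (by decide)
    choose! t g d1 d2 d3 d4 using hd
    have hm : ∀ i : Fin sr.card, (sr.equivFin.symm i).1 ∈ sr := fun i => (sr.equivFin.symm i).2
    have h3 := h4 K Λ L Θ S rd rt b φ hG hE sr.card (fun i => t (sr.equivFin.symm i).1)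
      (fun i => g (sr.equivFin.symm i).1) (fun i => (sr.equivFin.symm i).1.1)
      (fun i => d1 _ (hm i)) (fun i => d2 _ (hm i)) (fun i => d3 _ (hm i)) z U hz hU
      (fun l => by
        have h6 := hl l
        rw [← suc_fin sr Prod.fst, iInf_apply] at h6
        exact h6)
    rw [← suc_fin sr Prod.snd]
    have h6 : (fun i : Fin sr.card => (sr.equivFin.symm i).1.2) =
        fun i : Fin sr.card => S.qq b (t (sr.equivFin.symm i).1) (g (sr.equivFin.symm i).1) φ :=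
      funext fun i => d4 _ (hm i)
    rw [h6]
    exact h3
  · have hd : ∀ r ∈ sr, S.kd b = .rnd ∧ ∃ (a : AF K Θ) (θ : Θ), a.f b = some θ ∧
        r = (fun l => eb S.D b (rd θ l), iA S.D a ⊓ S.qr b (rd θ) φ) := by
      intro r hr
      rcases hsr' r hr with ⟨-, h1, -⟩ | ⟨-, h1, a, θ, k, h3, -, h6⟩
      · exact absurd h1 hE
      · exact ⟨h1, a, θ, h3, h6⟩
    by_cases h0 : sr.inf Prod.snd = ⊥
    · rw [h0, inf_bot_eq]
    have hk := (hd r0 hr0).1
    have hd' : ∀ r ∈ sr, ∃ (a : AF K Θ) (θ : Θ), a.f b = some θ ∧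
        r = (fun l => eb S.D b (rd θ l), iA S.D a ⊓ S.qr b (rd θ) φ) := fun r hr => (hd r hr).2
    obtain ⟨aa0, θ0, hf0, he0⟩ := hd' r0 hr0
    obtain ⟨a0, p0, hap⟩ := a7 _ h0
    have hθ : ∀ r ∈ sr, r.1 = fun l => eb S.D b (rd θ0 l) := by
      intro r hr
      obtain ⟨aa, θ, hf, he1⟩ := hd' r hr
      have h10 : iAP S.D a0 p0 ≤ iA S.D aa0 := by
        refine hap.trans ((Finset.inf_le hr0).trans ?_)
        rw [he0]
        exact inf_le_left
      have h11' : iAP S.D a0 p0 ≤ iA S.D aa := by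
        refine hap.trans ((Finset.inf_le hr).trans ?_)
        rw [he1]
        exact inf_le_left
      obtain ⟨a₁, p₁, -, -, h12⟩ := a8 {aa0, aa} a0 p0 (by
        intro a' ha'
        rw [Finset.mem_insert, Finset.mem_singleton] at ha'
        rcases ha' with rfl | rfl
        · exact h10
        · exact h11')
      have h13 := h12 aa0 (by simp) b θ0 hf0
      have h14 := h12 aa (by simp) b θ hf
      rw [h13] at h14
      rw [he1, Option.some_injective _ h14]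
    have h15 : ∀ l, z l ⊓ U ⊓ eb S.D b (rd θ0 l) = ⊥ := by
      intro l
      have h16 : (fun l => eb S.D b (rd θ0 l)) ≤ sr.inf Prod.fst := by
        refine Finset.le_inf fun r hr => ?_
        rw [hθ r hr]
      exact eq_bot_iff.2 ((inf_le_inf_left _ (h16 l)).trans (hl l).le)
    have h17 := h5 K Λ L Θ S rd rt b φ hG hk (rd θ0) z U hz hU h15
    refine eq_bot_iff.2 ((inf_le_inf_left _ ?_).trans h17.le)
    refine (Finset.inf_le hr0).trans ?_
    rw [he0]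
    exact inf_le_right

end

/-- **Row S5**: the successor step. -/
theorem succStm (h1 : CsrStm.{u}) (h2 : Succ0Stm.{u}) (h3 : SuccHiStm.{u}) (h4 : SuccEStm.{u})
    (h5 : SuccRStm.{u}) (h6 : TrStm.{u}) (h7 : SZStm.{u}) (h8 : IBStm.{u}) (h9 : IAStm.{u})
    (h10 : TZStm.{u}) (h11 : ZlStm.{u}) (h12 : LayerStm.{u}) (h13 : EeStm.{u})
    (h14 : RNulStm.{u}) (h15 : GenStm.{u}) : SuccStm.{u} := by
  classical
  intro K Λ L Θ _ _ _ S rd rt b φ hL hccc hG
  obtain ⟨i1, i2, i3, i4, i5, i6, i7, i8, i9, i10, i11⟩ := h8 K Λ Θ S.D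
  obtain ⟨a1, a2, a3, a4, a5, a6, a7, a8⟩ := h9 K Λ Θ S.D
  have trI : ∀ x, Tr S.D (Iic b ∩ S.Zl x) := fun x =>
    (Tr_of_lower (isLowerSet_Iic b)).inter (h11 K Λ L S x)
  have trO : ∀ x, Tr S.D (Iio b ∩ S.Zl x) := fun x =>
    (Tr_of_lower (isLowerSet_Iio b)).inter (h11 K Λ L S x)
  have csI : ∀ x, IsCS (SZ S.D (Iic b ∩ S.Zl x)) := fun x => (h7 K Λ S.D _ (trI x)).1
  have tI : ∀ x, IsCS (TZ S.D Θ (Iic b ∩ S.Zl x)) := fun x => (h10 K Λ Θ S.D _ (trI x)).1
  have tOI : ∀ x, TZ S.D Θ (Iio b ∩ S.Zl x) ⊆ TZ S.D Θ (Iic b ∩ S.Zl x) := fun x =>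
    (h10 K Λ Θ S.D _ (trO x)).2.1 _ (inter_subset_inter_left _ Iio_subset_Iic_self)
  have sOI : ∀ x, SZ S.D (Iio b ∩ S.Zl x) ⊆ SZ S.D (Iic b ∩ S.Zl x) := fun x =>
    SZ_mono (inter_subset_inter_left _ Iio_subset_Iic_self)
  have sO : ∀ x, SZ S.D (Iio b ∩ S.Zl x) ⊆ SZ S.D (Iio b) := fun x => SZ_mono inter_subset_left
  have sOO : ∀ (x : L) (U : BB S.D), U ∈ SZ S.D (Iio b) → U ∈ SZ S.D (Iic b ∩ S.Zl x) →
      U ∈ SZ S.D (Iio b ∩ S.Zl x) := by
    intro x U hU hU'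
    have h := SZ_inter hU hU'
    rwa [← inter_assoc, inter_eq_self_of_subset_left Iio_subset_Iic_self] at h
  have zlm : ∀ {x y : L}, x ≤ y → S.Zl x ⊆ S.Zl y := fun h g hg => le_trans hg h
  have sIm : ∀ {x y : L}, x ≤ y → SZ S.D (Iic b ∩ S.Zl x) ⊆ SZ S.D (Iic b ∩ S.Zl y) :=
    fun h => SZ_mono (inter_subset_inter_right _ (zlm h))
  have hX0 : IsSA {z : ℕ → BB S.D | ∀ l, z l ∈ SZ S.D (Iio b)} :=
    suc_sa (h7 K Λ S.D _ (Tr_of_lower (isLowerSet_Iio b))).1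
  have hlow : ∀ x, x < S.lay b → Iic b ∩ S.Zl x ⊆ Iio b := by
    intro x hx g hg
    rcases (show g ≤ b from hg.1).lt_or_eq with h | h
    · exact h
    · subst h
      exact absurd (show S.lay g ≤ x from hg.2) (not_le.2 hx)
  have hφT : ∀ (x : L) (z : ℕ → BB S.D), (∀ l, z l ∈ SZ S.D (Iio b ∩ S.Zl x)) →
      φ z ∈ TZ S.D Θ (Iic b ∩ S.Zl x) := fun x z hz =>
    tOI x (hG.layer (Iio b) subset_rfl (isLowerSet_Iio b) x z hz)
  have hebI : ∀ c, eb S.D b c ∈ SZ S.D (Iic b ∩ S.Zl (S.lay b)) := by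
    intro c
    refine (h7 K Λ S.D _ (trI _)).2.1 (PF.sng b c) ?_
    rw [PF.dom_sng]
    rintro _ rfl
    exact ⟨le_rfl, le_rfl⟩
  obtain ⟨ψ, p1, p2, p3, p4⟩ := h1 (ℕ → BB S.D) (TT S.D Θ) L
    (fun x => {z | ∀ l, z l ∈ SZ S.D (Iic b ∩ S.Zl x)}) (fun x => TZ S.D Θ (Iic b ∩ S.Zl x))
    {z | ∀ l, z l ∈ SZ S.D (Iio b)} φ
    (fun x => sucC S Θ b x ∪ (sucE S b φ x ∪ sucR S rd b φ x))
    (fun x => suc_sa (csI x)) (fun x y hxy z hz l => sIm hxy (hz l)) tI
    (fun x y hxy => (h10 K Λ Θ S.D _ (trI x)).2.1 _ (inter_subset_inter_right _ (zlm hxy)))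
    hX0 hG.hom (fun x z hz => hφT x z fun l => sOO x _ (hz.1 l) (hz.2 l))
    (by
      rintro x r (⟨-, U, hU, rfl⟩ | ⟨rfl, hE, t, g, y, e1, e2, -, rfl⟩ |
        ⟨rfl, hk, a, θ, k, -, -, rfl⟩)
      · exact ⟨fun _ => hU, i11 _ U hU⟩
      · refine ⟨e2, ?_⟩
        have hS : (S.kd b).isS := by
          rcases hE with hE | hE
          · rw [hE]; simp [Kd.isS]
          · rw [hE]; simp [Kd.isS]
        obtain ⟨-, -, -, -, -, g6, -⟩ := h15 K Λ L S b hS
        refine suc_inf (tI _) (i11 _ _ ?_) ?_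
        · exact suc_iInf (csI _) _ fun k => suc_iInf (csI _) _ fun _ => g6 _ _
        · refine suc_iInf (tI _) _ fun k => suc_iInf (tI _) _ fun _ => suc_iSup (tI _) _ fun v => ?_
          exact suc_inf (tI _) (i11 _ _ (g6 _ _)) (hφT _ _ fun l => S.sub b (e1 l k v))
      · refine ⟨fun l => hebI _, suc_inf (tI _) (a6 _ _) ?_⟩
        refine (tI _).compl _ (suc_iSup (tI _) _ fun ρ => suc_inf (tI _) ?_ (i11 _ _ (hebI ρ)))
        exact hφT _ _ fun l => S.sub b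
          (h14 (BB S.D) (S.W b) (S.ss b) (S.cR b ρ) (S.cR b (rd θ l)) (S.cR b ρ)).1)
    (by
      intro x ψ hB
      have hA := suc_A h2 h4 h5 h7 h8 h9 h11 hG x
      refine ⟨fun z hz s hs h => hA z (fun l => sOO x _ (hz.1 l) (hz.2 l)) s hs h, ?_⟩
      intro z hz y hy w hw s hs h
      have hz' : ∀ l, z l ∈ SZ S.D (Iio b ∩ S.Zl x) := fun l => sOO x _ (hz.1 l) (hz.2 l)
      rcases lt_or_ge y (S.lay b) with hyb | hyb
      · have hw0 : ∀ l, w l ∈ SZ S.D (Iio b) := fun l => SZ_mono (hlow y hyb) (hw l)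
        have hw1 : ∀ l, w l ∈ SZ S.D (Iio b ∩ S.Zl x) := fun l =>
          sOO x _ (hw0 l) (sIm hy.le (hw l))
        have e1 : ψ w = φ w := hB.agree y hy w ⟨hw0, hw⟩
        have e2 : φ (z ⊓ w) = φ z ⊓ φ w := hG.hom.inf z hz.1 w hw0
        rw [e1, ← e2]
        exact hA (z ⊓ w) (fun l => suc_inf (h7 K Λ S.D _ (trO x)).1 (hz' l) (hw1 l)) s hs h
      · have hsC : (s : Set _) ⊆ sucC S Θ b x := by
          intro r hr
          rcases hs hr with h16 | ⟨h16, -⟩ | ⟨h16, -⟩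
          · exact h16
          · exact absurd h16 (lt_of_le_of_lt hyb hy).ne'
          · exact absurd h16 (lt_of_le_of_lt hyb hy).ne'
        obtain ⟨U, hU, e1, e2⟩ := suc_consts h7 h8 h11 s hsC
        rw [e1] at h
        rw [e2]
        have hhom := hB.hom y hy
        refine h3 K Λ L Θ S rd rt b φ ψ x y hG hyb hy hhom ?_ ?_ (hB.maps y hy) z w U hz' hw hU
          fun l => congrFun h l
        · intro z1 hz1
          exact hB.agree y hy z1 ⟨fun l => sO y (hz1 l), fun l => sOI y (hz1 l)⟩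
        · intro V hV
          refine suc_eq hhom (fun _ => hV) (hB.req y hy _ (Or.inl ⟨hyb, V, hV, rfl⟩)) ?_
          have h17 := hB.req y hy (fun _ => Vᶜ, iB S.D Θ Vᶜ)
            (Or.inl ⟨hyb, Vᶜ, (csI y).compl _ hV, rfl⟩)
          rw [← i4]
          exact h17)
  -- agreement
  have lay1 := (h12 K Λ L S hL hccc).1
  have hag : ∀ z : ℕ → BB S.D, (∀ l, z l ∈ SZ S.D (Iio b)) → ψ z = φ z := by
    intro z hz
    obtain ⟨x, hx⟩ := lay1 (Iio b) (isLowerSet_Iio b) z hz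
    exact p3 x z ⟨hz, fun l => sOI x (hx l)⟩
  have hhom : HomOn {z : ℕ → BB S.D | ∀ l, z l ∈ SZ S.D (Iic b)} ψ := by
    constructor
    · intro z hz z' hz'
      obtain ⟨x, hx⟩ := lay1 (Iic b) (isLowerSet_Iic b) z hz
      obtain ⟨x', hx'⟩ := lay1 (Iic b) (isLowerSet_Iic b) z' hz'
      exact (p1 (max x x')).inf z (fun l => sIm (le_max_left _ _) (hx l)) z'
        (fun l => sIm (le_max_right _ _) (hx' l))
    · intro z hz
      obtain ⟨x, hx⟩ := lay1 (Iic b) (isLowerSet_Iic b) z hz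
      exact (p1 x).compl z hx
  have hcb : IsCS (SZ S.D (Iic b)) := (h7 K Λ S.D _ (Tr_of_lower (isLowerSet_Iic b))).1
  have hco : IsCS (SZ S.D (Iio b)) := (h7 K Λ S.D _ (Tr_of_lower (isLowerSet_Iio b))).1
  have hfin : ∀ n : ℕ, ψ (fun l => if l < n then ⊥ else ⊤) = ⊤ := by
    intro n
    rw [hag _ fun l => ?_]
    · exact hG.fin n
    · split_ifs
      · exact suc_bot hco
      · exact suc_top hco
  have hsI : SZ S.D (Iio b) ⊆ SZ S.D (Iic b) := SZ_mono Iio_subset_Iic_self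
  refine ⟨ψ, ?_, hag⟩
  constructor
  · exact hhom
  · intro J hJ hJl x z hz
    by_cases hb : b ∈ J
    · have hJe : J = Iic b := subset_antisymm hJ fun g hg => hJl hg hb
      subst hJe
      exact p2 x z hz
    · have hJo : J ⊆ Iio b := by
        intro g hg
        rcases (show g ≤ b from hJ hg).lt_or_eq with h | h
        · exact h
        · exact absurd (h ▸ hg) hb
      rw [hag z fun l => SZ_mono (inter_subset_left.trans hJo) (hz l)]
      exact hG.layer J hJo hJl x z hz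
  · intro U hU
    obtain ⟨x, hx⟩ := lay1 (Iic b) (isLowerSet_Iic b) (fun _ => U) fun _ => hU
    have hU' : U ∈ SZ S.D (Iic b ∩ S.Zl (max x (S.lay b))) := sIm (le_max_left _ _) (hx 0)
    refine suc_eq hhom (fun _ => hU)
      (p4 (max x (S.lay b)) _ (Or.inl ⟨le_max_right _ _, U, hU', rfl⟩)) ?_
    have h17 := p4 (max x (S.lay b)) (fun _ => Uᶜ, iB S.D Θ Uᶜ)
      (Or.inl ⟨le_max_right _ _, Uᶜ, (csI _).compl _ hU', rfl⟩)
    rw [← i4]
    exact h17
  · exact hfin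
  · intro b' hb' hk a θ k hf hq
    rw [suc_qr h14 hb' hag]
    rcases (show b' ≤ b from hb').lt_or_eq with h | h
    · rw [hag _ fun l => ?_]
      · exact hG.r3 b' h hk a θ k hf hq
      · refine (h7 K Λ S.D _ (Tr_of_lower (isLowerSet_Iio b))).2.1 (PF.sng b' (rd θ l)) ?_
        rw [PF.dom_sng]
        rintro _ rfl
        exact h
    · subst h
      exact p4 (S.lay b') (fun l => eb S.D b' (rd θ l), iA S.D a ⊓ S.qr b' (rd θ) φ)
        (Or.inr (Or.inr ⟨rfl, hk, a, θ, k, hf, hq, rfl⟩))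
  · intro b' hb' hE t g y hg hy hP
    rw [suc_qq hb' hag t g hg]
    rcases (show b' ≤ b from hb').lt_or_eq with h | h
    · rw [hag _ fun l => ?_]
      · exact hG.rq b' h hE t g y hg hy hP
      · exact SZ_mono (fun x hx => lt_of_le_of_lt hx.1 h) (hy l)
    · subst h
      exact p4 (S.lay b') (y, S.qq b' t g φ)
        (Or.inr (Or.inl ⟨rfl, hE, t, g, y, hg, hy, hP, rfl⟩))
  · intro d a hd hdis hF
    obtain ⟨l0, hl0⟩ : ∃ l0 : ℕ, ∀ l, l0 < l → b ∉ (d l).dom := by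
      by_cases h : ∃ l0, b ∈ (d l0).dom
      · obtain ⟨l0, h0⟩ := h
        exact ⟨l0, fun l hl hb => (Set.disjoint_left.1 (hdis l0 l hl.ne)) h0 hb⟩
      · exact ⟨0, fun l _ hb => h ⟨l, hb⟩⟩
    set d' : ℕ → PF K Λ := fun l => if b ∈ (d l).dom then PF.nil else d l with hd'
    have hdd : ∀ l, (d' l).dom ⊆ (d l).dom := by
      intro l
      by_cases h : b ∈ (d l).dom
      · simp only [hd', if_pos h, PF.dom_nil]
        exact empty_subset _
      · simp only [hd', if_neg h]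
        exact subset_rfl
    have hdo : ∀ l, (d' l).dom ⊆ Iio b := by
      intro l g hg
      by_cases h : b ∈ (d l).dom
      · simp only [hd', if_pos h, PF.dom_nil] at hg
        exact absurd hg (notMem_empty _)
      · simp only [hd', if_neg h] at hg
        rcases (show g ≤ b from hd l hg).lt_or_eq with h16 | h16
        · exact h16
        · exact absurd (h16 ▸ hg) h
    have hF' : S.Fol rd rt d' a := by
      intro l b' c hc
      by_cases h : b ∈ (d l).dom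
      · simp only [hd', if_pos h, PF.nil_f] at hc
        exact absurd hc (by simp)
      · simp only [hd', if_neg h] at hc
        exact hF l b' c hc
    have h16 := hG.rt d' a hdo
      (fun l m hlm => (hdis l m hlm).mono (hdd l) (hdd m)) hF'
    have hSd' : ∀ l, ee S.D (d' l) ∈ SZ S.D (Iio b) := fun l =>
      (h7 K Λ S.D _ (Tr_of_lower (isLowerSet_Iio b))).2.1 _ (hdo l)
    have hSd : ∀ l, ee S.D (d l) ∈ SZ S.D (Iic b) := fun l =>
      (h7 K Λ S.D _ (Tr_of_lower (isLowerSet_Iic b))).2.1 _ (hd l)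
    rw [← hag _ hSd'] at h16
    have hSe : ∀ l, (fun l => if l < l0 + 1 then (⊥ : BB S.D) else ⊤) l ∈ SZ S.D (Iic b) := by
      intro l
      show (if l < l0 + 1 then (⊥ : BB S.D) else ⊤) ∈ _
      split_ifs
      · exact suc_bot hcb
      · exact suc_top hcb
    have h17 := hhom.inf (fun l => ee S.D (d' l)) (fun l => hsI (hSd' l))
      (fun l => if l < l0 + 1 then (⊥ : BB S.D) else ⊤) hSe
    rw [hfin, inf_top_eq] at h17
    refine h16.trans (h17.symm.le.trans (suc_mono hhom ?_ hSd ?_))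
    · intro l
      exact suc_inf hcb (hsI (hSd' l)) (hSe l)
    · intro l
      show ee S.D (d' l) ⊓ (if l < l0 + 1 then (⊥ : BB S.D) else ⊤) ≤ ee S.D (d l)
      split_ifs with h18
      · rw [inf_bot_eq]
        exact bot_le
      · have h19 := hl0 l (by omega)
        simp only [hd', if_neg h19]
        exact inf_le_left

end CI
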