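import Pool.Agent.CI.C.StepStm

/-!
# Project CI, core: the successor step without requirements (helper40)
-/

set_option autoImplicit false

open Set Cardinal Pool.Agent.CL

namespace CI

universe u

private lemma s0_inf {B : Type u} [CompleteBooleanAlgebra B] {Y : Set B} (h : IsCS Y) {a b : B}
    (ha : a ∈ Y) (hb : b ∈ Y) : a ⊓ b ∈ Y := by
  have h1 : sSup ({aᶜ, bᶜ} : Set B) ∈ Y := by
    apply h.sSup
    rintro x (rfl | rfl)
    · exact h.compl a ha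
    · exact h.compl b hb
  have h2 := h.compl _ h1
  rw [sSup_pair, compl_sup, compl_compl, compl_compl] at h2
  exact h2

private lemma s0_TZ {K Λ Θ : Type u} [LinearOrder K] (D : Dat K Λ) {Z Z' : Set K} (h : Z ⊆ Z')
    {t : TT D Θ} (ht : t ∈ TZ D Θ Z) : t ∈ TZ D Θ Z' := fun a p => by
  rw [ht a p, ht a (p.res Z'), PF.res_res, inter_eq_self_of_subset_right h]

theorem succ0Stm (_h1 : TrStm.{u}) (h2 : SZStm.{u}) (h3 : EeStm.{u}) (_h4 : IicStm.{u})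
    (h5 : IBStm.{u}) (_h6 : IAStm.{u}) (_h7 : TZStm.{u}) (_h8 : ZlStm.{u}) : Succ0Stm.{u} := by
  intro K Λ L Θ _ _ S rd rt b φ x hG _ z U hz _ hbot
  have hTr : Tr S.D (Iio b) := Tr_of_lower (isLowerSet_Iio b)
  obtain ⟨cs, em, -, -, em5, -⟩ := h2 K Λ S.D (Iio b) hTr
  obtain ⟨-, -, -, -, e5, -⟩ := h3 K Λ S.D
  obtain ⟨-, -, -, -, ib0, -⟩ := h5 K Λ Θ S.D
  have hz' : ∀ l, z l ∈ SZ S.D (Iio b) := fun l => SZ_mono inter_subset_left (hz l)
  have hφ : φ z ∈ TZ S.D Θ (Iio b) := s0_TZ S.D inter_subset_left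
    (hG.layer (Iio b) (subset_refl _) (isLowerSet_Iio b) x z hz)
  rw [RO.eq_bot_iff']
  rintro ⟨a, p⟩ hap
  obtain ⟨hap1, hap2⟩ := RO.mem_inf.1 hap
  have hpU : ee S.D p ≤ U := ee_le_iff.2 hap2
  have her : ee S.D (p.res (Iio b)) ∈ SZ S.D (Iio b) := em _ (PF.dom_res_subset p _)
  have key : ∀ l, z l ⊓ ee S.D (p.res (Iio b)) = ⊥ := by
    intro l
    by_contra hne
    have hdis : Disjoint (p.res (Iio b)ᶜ).dom (Iio b) :=
      disjoint_compl_left.mono_left (PF.dom_res_subset p _)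
    apply em5 _ (s0_inf cs (hz' l) her) hne _ hdis
    rw [inf_assoc, ← e5 p (Iio b), ← le_bot_iff, ← hbot l]
    exact inf_le_inf_left _ hpU
  have hbotm : (⊥ : BB S.D) ∈ SZ S.D (Iio b) := by
    have h := cs.sSup ∅ (empty_subset _)
    rwa [sSup_empty] at h
  have h10 : φ (z ⊓ fun _ => ee S.D (p.res (Iio b))) = φ z ⊓ φ fun _ => ee S.D (p.res (Iio b)) :=
    hG.hom.inf z hz' (fun _ => ee S.D (p.res (Iio b))) (fun _ => her)
  have h11 : (z ⊓ fun _ => ee S.D (p.res (Iio b))) = fun _ => (⊥ : BB S.D) := by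
    funext l
    exact key l
  rw [h11, hG.const _ hbotm, hG.const _ her, ib0] at h10
  have h12 : (a, p.res (Iio b)) ∈ (φ z ⊓ iB S.D Θ (ee S.D (p.res (Iio b)))).S :=
    (RO.mem_inf (Q := AF K Θ × PD S.D)).2 ⟨(hφ a p).1 hap1, ee_le_iff.1 le_rfl⟩
  rw [← h10] at h12
  exact RO.not_mem_bot (Q := AF K Θ × PD S.D) _ h12

end CI
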