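import Pool.Agent.CI.C.ItrStm

/-!
# Project CI, core: upper projections to cylinders
-/

set_option autoImplicit false

open Set Cardinal Pool.Agent.CL

namespace CI

universe u

theorem upr_sInf {B : Type u} [CompleteBooleanAlgebra B] {Y : Set B} (h : IsCS Y) {s : Set B}
    (hs : s ⊆ Y) : sInf s ∈ Y := by
  have h1 : sInf s = (sSup (compl '' s))ᶜ := by
    rw [compl_sSup, iInf_image]
    simp only [compl_compl]
    exact sInf_eq_iInf
  rw [h1]
  refine h.compl _ (h.sSup _ ?_)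
  rintro _ ⟨y, hy, rfl⟩
  exact h.compl _ (hs hy)

theorem uPStm (_h1 : TrStm.{u}) (h2 : SZStm.{u}) : UPStm.{u} := by
  intro K Λ _ D Z hZ
  obtain ⟨hcs, -, hres, -⟩ := h2 K Λ D Z hZ
  have hup : IsUP (SZ D Z) fun V => sInf {U | U ∈ SZ D Z ∧ V ≤ U} :=
    { mem := fun x => upr_sInf hcs fun U hU => hU.1
      le := fun x => le_sInf fun U hU => hU.2
      least := fun x y hy hxy => sInf_le ⟨hy, hxy⟩ }
  refine ⟨fun V => sInf {U | U ∈ SZ D Z ∧ V ≤ U}, hup, ?_⟩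
  intro Z' hZ' U hU
  obtain ⟨-, -, hres', -⟩ := h2 K Λ D Z' hZ'
  obtain ⟨hcs2, hee2, -⟩ := h2 K Λ D (Z ∩ Z') (hZ.inter hZ')
  set ρU := sInf {V | V ∈ SZ D Z ∧ U ≤ V} with hρ
  have hρm : ρU ∈ SZ D Z := hup.mem U
  have hρl : U ≤ ρU := hup.le U
  set V : BB D := sSup {x | ∃ p : PF K Λ, p.dom ⊆ Z' ∧ ee D p ≤ U ∧ x = ee D (p.res Z)} with hV
  have hVm : V ∈ SZ D (Z ∩ Z') := by
    refine hcs2.sSup _ ?_
    rintro _ ⟨p, hp, -, rfl⟩
    refine hee2 _ ?_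
    rw [PF.dom_res]
    exact fun x hx => ⟨hx.2, hp hx.1⟩
  have hUV : U ≤ V := by
    intro p hp
    have hp1 : ee D p ≤ U := ee_le_iff.2 hp
    have hp2 : ee D (p.res Z') ≤ U := (hres' U hU p).1 hp1
    refine ee_le_iff.1 ?_
    refine (ee_mono (le_res p Z')).trans ((ee_mono (le_res (p.res Z') Z)).trans ?_)
    exact le_sSup ⟨p.res Z', PF.dom_res_subset _ _, hp2, rfl⟩
  have h3 : ρU = V := by
    refine le_antisymm (hup.least U V (SZ_mono inter_subset_left hVm) hUV) (sSup_le ?_)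
    rintro _ ⟨p, hp, hp1, rfl⟩
    exact (hres ρU hρm p).1 (hp1.trans hρl)
  show ρU ∈ _
  rw [h3]
  exact hVm

end CI
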