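import Pool.Agent.CI.C.StepStm
import Pool.Agent.CI.C.UPr

/-!
# Project CI, core: the successor step, centred kinds
-/

set_option autoImplicit false

open Set Cardinal Pool.Agent.CL

namespace CI

universe u

section

variable {B : Type u} [CompleteBooleanAlgebra B] {Y : Set B}

theorem se_cs_iInf (h : IsCS Y) {ι : Sort*} {f : ι → B} (hf : ∀ i, f i ∈ Y) : ⨅ i, f i ∈ Y := by
  refine upr_sInf h ?_
  rintro _ ⟨i, rfl⟩
  exact hf i

theorem se_cs_iSup (h : IsCS Y) {ι : Sort*} {f : ι → B} (hf : ∀ i, f i ∈ Y) : ⨆ i, f i ∈ Y := by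
  refine h.sSup _ ?_
  rintro _ ⟨i, rfl⟩
  exact hf i

theorem se_cs_inf (h : IsCS Y) {x y : B} (hx : x ∈ Y) (hy : y ∈ Y) : x ⊓ y ∈ Y := by
  rw [← sInf_pair]
  refine upr_sInf h ?_
  rintro w (rfl | rfl)
  · exact hx
  · exact hy

theorem se_cs_top (h : IsCS Y) : (⊤ : B) ∈ Y := by
  rw [← _root_.sInf_empty]
  exact upr_sInf h (empty_subset _)

end

theorem se_ipre {s t : List ℕ} (h : s.length ≤ t.length)
    (h' : ∀ k < s.length, at' s k = at' t k) : s <+: t := by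
  rw [List.prefix_iff_eq_take]
  apply List.ext_getElem
  · rw [List.length_take, min_eq_left h]
  · intro k h1 h2
    have h3 := h' k h1
    have h4 : k < t.length := lt_of_lt_of_le h1 h
    rw [at', at', List.getD_eq_getElem _ _ h1, List.getD_eq_getElem _ _ h4] at h3
    rw [h3, List.getElem_take]

section

variable {K Λ L Θ : Type u} [LinearOrder K] [LinearOrder L] {S : Sys K Λ L}

theorem se_fin {Y : Set (BB S.D)} (hY : IsCS Y) {φ : (ℕ → BB S.D) → TT S.D Θ}
    (hφ : HomOn {z | ∀ l, z l ∈ Y} φ) (htop : φ (fun _ => ⊤) = ⊤) {ι : Type} (T : Finset ι)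
    (w : ι → ℕ → BB S.D) (x : TT S.D Θ) (hw : ∀ i ∈ T, (∀ l, w i l ∈ Y) ∧ x ≤ φ (w i)) :
    (∀ l, T.inf (fun i => w i l) ∈ Y) ∧ x ≤ φ (fun l => T.inf fun i => w i l) := by
  classical
  induction T using Finset.induction_on with
  | empty =>
    simp only [Finset.inf_empty]
    exact ⟨fun _ => se_cs_top hY, by rw [htop]; exact le_top⟩
  | insert i T hi ih =>
    obtain ⟨ih1, ih2⟩ := ih fun j hj => hw j (Finset.mem_insert_of_mem hj)
    obtain ⟨h1, h2⟩ := hw i (Finset.mem_insert_self _ _)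
    simp only [Finset.inf_insert]
    refine ⟨fun l => se_cs_inf hY (h1 l) (ih1 l), ?_⟩
    have h3 := hφ.inf (w i) h1 (fun l => T.inf fun i => w i l) ih1
    have h4 : (w i ⊓ fun l => T.inf fun i => w i l) = fun l => w i l ⊓ T.inf fun i => w i l := rfl
    rw [h4] at h3
    rw [h3]
    exact le_inf h2 ih2

/-- iteration of pure extensions -/
theorem se_iter (h3 : EeStm.{u}) {b : K} {m : ℕ} {t : Fin m → List ℕ}
    {g : Fin m → ℕ → ℕ → ℕ → BB S.D} {y : Fin m → ℕ → BB S.D}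
    (hPE : ∀ i, S.PE b (t i) (g i) (y i)) {l : ℕ} {v₀ : BB S.D} {c : Λ}
    (hv₀ : v₀ ∈ SZ S.D (Iio b)) (hv₀' : v₀ ≠ ⊥) (ht : ∀ i, t i <+: S.st b c)
    (hvg : ∀ i, ∀ k, (t i).length ≤ k → k < (S.st b c).length →
      v₀ ≤ g i l k (at' (S.st b c) k)) (s : Finset (Fin m)) :
    ∃ v ∈ SZ S.D (Iio b), v ≠ ⊥ ∧ v ≤ v₀ ∧ ∃ c', S.st b c' = S.st b c ∧
      v ≤ dv S.D b c' c ∧ ∀ i ∈ s, v ⊓ eb S.D b c' ≤ y i l := by
  classical
  induction s using Finset.induction_on with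
  | empty =>
    exact ⟨v₀, hv₀, hv₀', le_rfl, c, rfl, fun p _ => S.D.refl b c p, fun i hi => by
      simp at hi⟩
  | insert i s hi ih =>
    obtain ⟨v, hv, hv0, hvv, c', hst, hdv, hy⟩ := ih
    obtain ⟨v', hv', hv0', hvv', c'', hst', hdv', hy'⟩ := hPE i l v hv hv0 c'
      (by rw [hst]; exact ht i) (by
        rw [hst]
        exact fun k h1 h2 => hvv.trans (hvg i k h1 h2))
    refine ⟨v', hv', hv0', hvv'.trans hvv, c'', hst'.trans hst, ?_, ?_⟩
    · exact fun p hp => S.D.trans b c'' c' c p (hdv' hp) (hdv (hvv' hp))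
    · intro j hj
      rcases Finset.mem_insert.1 hj with rfl | hj
      · exact hy'
      · refine le_trans ?_ (hy j hj)
        refine le_inf (inf_le_left.trans hvv') ?_
        exact (inf_le_inf_right _ hdv').trans ((h3 K Λ S.D).2.1 b c'' c')

end

theorem succEStm (_h1 : TrStm.{u}) (h2 : SZStm.{u}) (h3 : EeStm.{u}) (_h4 : IicStm.{u})
    (h5 : IBStm.{u}) (h6 : IAStm.{u}) (h7 : TZStm.{u}) (h8 : ZlStm.{u}) (h9 : GenStm.{u})
    (h10 : LongStm.{u}) (_h11 : SCmpStm.{u}) : SuccEStm.{u} := by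
  intro K Λ L Θ _ _ S rd rt b φ hG hE m t g y hg hy hPE z U hz hU hlU
  classical
  by_contra hne
  have hS : (S.kd b).isS := by
    rcases hE with h | h <;> simp [Kd.isS, h]
  have hTb : Tr S.D (Iio b) := Tr_of_lower (isLowerSet_Iio b)
  have hTc : Tr S.D (Iic b) := Tr_of_lower (isLowerSet_Iic b)
  obtain ⟨szcs, szee, szres, szex, szdis, -⟩ := h2 K Λ S.D (Iio b) hTb
  have sccs := (h2 K Λ S.D (Iic b) hTc).1
  obtain ⟨ee1, ee2, ee3, ee4, -⟩ := h3 K Λ S.D
  obtain ⟨ibl, ibinf, -, -, ibbot, ibtop, -, -, -, -, ibmem⟩ := h5 K Λ Θ S.D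
  obtain ⟨iap, iapne, -, -, iane, -, -, -⟩ := h6 K Λ Θ S.D
  obtain ⟨tzcs, tzmono, tzres, -⟩ := h7 K Λ Θ S.D (Iio b) hTb
  obtain ⟨tccs, -, -, tcex⟩ := h7 K Λ Θ S.D (Iic b) hTc
  obtain ⟨gd, gs, ge, -, -, gm, gm'⟩ := h9 K Λ L S b hS
  have tzm : ∀ w ∈ TZ S.D Θ (Iio b ∩ S.Zl (S.lay b)), w ∈ TZ S.D Θ (Iio b) := fun w hw =>
    (h7 K Λ Θ S.D _ (hTb.inter (h8 K Λ L S _))).2.1 _ inter_subset_left hw
  have hφz : φ z ∈ TZ S.D Θ (Iio b) :=
    tzm _ (hG.layer (Iio b) le_rfl (isLowerSet_Iio b) (S.lay b) z hz)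
  have hφg : ∀ i k v, φ (fun l => g i l k v) ∈ TZ S.D Θ (Iio b) := fun i k v =>
    tzm _ (hG.layer (Iio b) le_rfl (isLowerSet_Iio b) (S.lay b) _ fun l => S.sub b (hg i l k v))
  have hgen' : ∀ k v, S.gen b k v ∈ SZ S.D (Iic b) := fun k v =>
    SZ_mono inter_subset_left (gm k v)
  have hest : ∀ s, S.est b s ∈ SZ S.D (Iic b) := fun s =>
    se_cs_iInf sccs fun k => se_cs_iInf sccs fun _ => hgen' _ _
  have hqq : ∀ i, S.qq b (t i) (g i) φ ∈ TZ S.D Θ (Iic b) := fun i =>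
    se_cs_inf tccs (ibmem _ _ (hest (t i))) (se_cs_iInf tccs fun k => se_cs_iInf tccs fun _ =>
      se_cs_iSup tccs fun v => se_cs_inf tccs (ibmem _ _ (hgen' k v))
        (tzmono _ Iio_subset_Iic_self (hφg i k v)))
  obtain ⟨a, p, hpd, hp⟩ := tcex _ (se_cs_inf tccs (se_cs_inf tccs
    (tzmono _ Iio_subset_Iic_self hφz) (ibmem _ _ (SZ_mono inter_subset_left hU)))
    (se_cs_iInf tccs hqq)) hne
  have hΛ : Nonempty Λ := by
    by_contra hΛ
    rw [not_nonempty_iff] at hΛ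
    have h := gs 0
    simp only [Sys.gen, iSup_of_empty, iSup_bot] at h
    have h' := ee_ne_bot (D := S.D) PF.nil
    rw [ee_nil] at h'
    exact h' h.symm
  obtain ⟨c₀, hc₀⟩ : ∃ c, ∀ c', p.f b = some c' → c' = c := by
    rcases h : p.f b with _ | c
    · exact ⟨Classical.arbitrary Λ, fun c' h' => by simp at h'⟩
    · exact ⟨c, fun c' h' => (Option.some.inj h').symm⟩
  set r₀ := p.res (Iio b) with hr₀
  have hr₀b : r₀.f b = none := PF.res_f_of_notMem (by simp)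
  have hp₀ : ee S.D (r₀.upd b c₀) ≤ ee S.D p := by
    refine ee_mono fun x c hx => ⟨c, ?_, S.D.refl _ _ _⟩
    have hxd : x ≤ b := hpd (PF.mem_dom.2 ⟨c, hx⟩)
    rcases hxd.lt_or_eq with h | rfl
    · rw [PF.upd_f_ne h.ne, hr₀, PF.res_f_of_mem (show x ∈ Iio b from h)]
      exact hx
    · rw [PF.upd_f_same, hc₀ c hx]
  rw [ee3 r₀ b c₀ hr₀b] at hp₀
  obtain ⟨V, hVm, hV0, hVr, c, hpre, hlen, hVdv, -, -⟩ := h10 K Λ L S b hS (ee S.D r₀) c₀
    (Finset.univ.sup fun i => (t i).length) (szee r₀ (PF.dom_res_subset _ _)) (ee_ne_bot _)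
  obtain ⟨r, hrd, hrV⟩ := szex V hVm hV0
  have hrb : r.f b = none := by
    rw [← PF.notMem_dom]
    exact fun h => lt_irrefl b (hrd h)
  have hq : ee S.D (r.upd b c) ≤ ee S.D p := by
    rw [ee3 r b c hrb]
    refine le_trans (le_inf (inf_le_left.trans (hrV.trans hVr)) ?_) hp₀
    exact (inf_le_inf_right _ (hrV.trans hVdv)).trans (ee2 b c c₀)
  set q := r.upd b c with hqdef
  have hqX := (show iAP S.D a q ≤ iAP S.D a p by
    rw [iap, iap]
    exact inf_le_inf_left _ ((ibl _ _).2 hq)).trans hp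
  have hqr : q.res (Iio b) = r := by
    ext1
    funext x
    by_cases hx : x < b
    · rw [PF.res_f_of_mem (show x ∈ Iio b from hx), hqdef, PF.upd_f_ne hx.ne]
    · rw [PF.res_f_of_notMem (show x ∉ Iio b from hx)]
      exact (PF.notMem_dom.1 fun h => hx (hrd h)).symm
  have hlen' : ∀ i, (t i).length ≤ (S.st b c).length := by
    intro i
    rw [hlen]
    exact le_trans (Finset.le_sup (f := fun i => (t i).length) (Finset.mem_univ i))
      (le_max_left _ _)
  have hqb : iAP S.D a q ≤ iB S.D Θ (eb S.D b c) := by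
    rw [iap, hqdef, ee3 r b c hrb]
    exact inf_le_right.trans ((ibl _ _).2 inf_le_right)
  have hgen : ∀ k < (S.st b c).length, iAP S.D a q ≤ iB S.D Θ (S.gen b k (at' (S.st b c) k)) :=
    fun k hk => hqb.trans ((ibl _ _).2 (ge c k hk))
  have hqqi : ∀ i, iAP S.D a q ≤ S.qq b (t i) (g i) φ := fun i =>
    hqX.trans (inf_le_right.trans (iInf_le _ i))
  have hpref : ∀ i, t i <+: S.st b c := by
    intro i
    refine se_ipre (hlen' i) fun k hk => ?_
    by_contra hne'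
    have h' : iAP S.D a q ≤ iB S.D Θ (S.gen b k (at' (t i) k)) := by
      refine (hqqi i).trans (inf_le_left.trans ((ibl _ _).2 ?_))
      exact (iInf_le _ k).trans (iInf_le _ hk)
    have h'' := le_inf h' (hgen k (hk.trans_le (hlen' i)))
    rw [← ibinf, gd k _ _ hne', ibbot, le_bot_iff] at h''
    exact iapne a q h''
  have hφgi : ∀ i k, (t i).length ≤ k → k < (S.st b c).length →
      iAP S.D a r ≤ φ (fun l => g i l k (at' (S.st b c) k)) := by
    intro i k hk hk'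
    have h' := (tzres _ (hφg i k (at' (S.st b c) k)) a q).1
    rw [hqr] at h'
    refine h' ?_
    have h'' : iAP S.D a q ≤ ⨆ v : ℕ, iB S.D Θ (S.gen b k v) ⊓ φ fun l => g i l k v :=
      (hqqi i).trans (inf_le_right.trans ((iInf_le _ k).trans (iInf_le _ hk)))
    refine (le_inf (hgen k hk') h'').trans ?_
    rw [inf_iSup_eq]
    refine iSup_le fun v => ?_
    by_cases hv : at' (S.st b c) k = v
    · rw [← hv]
      exact inf_le_right.trans inf_le_right
    · rw [← inf_assoc, ← ibinf, gd k _ _ hv, ibbot, bot_inf_eq]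
      exact bot_le
  have hzr : iAP S.D a r ≤ φ z := by
    have h' := (tzres _ hφz a q).1
    rw [hqr] at h'
    exact h' (hqX.trans (inf_le_left.trans inf_le_left))
  have heer : ee S.D r ∈ SZ S.D (Iio b) := szee r hrd
  have hrr : iAP S.D a r ≤ φ (fun _ => ee S.D r) := by
    rw [hG.const _ heer, iap]
    exact inf_le_right
  have htop : φ (fun _ => ⊤) = ⊤ := by
    rw [hG.const _ (se_cs_top szcs), ibtop]
  have hzSZ : ∀ l, z l ∈ SZ S.D (Iio b) := fun l => SZ_mono inter_subset_left (hz l)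
  set T : Finset (Fin m × ℕ) := (Finset.univ ×ˢ Finset.range (S.st b c).length).filter
    fun x => (t x.1).length ≤ x.2 with hT
  obtain ⟨hF1, hF2⟩ := se_fin szcs hG.hom htop T
    (fun x l => g x.1 l x.2 (at' (S.st b c) x.2)) (iAP S.D a r) (by
      intro x hx
      rw [hT, Finset.mem_filter, Finset.mem_product, Finset.mem_range] at hx
      exact ⟨fun l => SZ_mono inter_subset_left (S.sub b (hg _ _ _ _)),
        hφgi x.1 x.2 hx.2 hx.1.2⟩)
  set F : ℕ → BB S.D := fun l => T.inf fun x => g x.1 l x.2 (at' (S.st b c) x.2) with hF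
  have hzr' : ∀ l, (z ⊓ fun _ => ee S.D r) l ∈ SZ S.D (Iio b) := fun l =>
    se_cs_inf szcs (hzSZ l) heer
  have hG1 : iAP S.D a r ≤ φ (z ⊓ (fun _ => ee S.D r) ⊓ F) := by
    rw [hG.hom.inf _ hzr' _ hF1, hG.hom.inf _ hzSZ _ fun _ => heer]
    exact le_inf (le_inf hzr hrr) hF2
  obtain ⟨l, hl⟩ : ∃ l, z l ⊓ ee S.D r ⊓ F l ≠ ⊥ := by
    by_contra hall
    push Not at hall
    have h' : (z ⊓ (fun _ => ee S.D r) ⊓ F) = fun _ => ⊥ := funext hall
    rw [h', hG.const ⊥ (by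
      have := szcs.sSup ∅ (empty_subset _)
      rwa [sSup_empty] at this), ibbot, le_bot_iff] at hG1
    exact iapne a r hG1
  obtain ⟨v, hv, hv0, hvv, c', hst, hdv, hyv⟩ := se_iter h3 hPE (l := l)
    (v₀ := z l ⊓ ee S.D r ⊓ F l) (c := c) (se_cs_inf szcs (hzr' l) (hF1 l)) hl hpref (by
      intro i k hk hk'
      refine inf_le_right.trans ?_
      have : (i, k) ∈ T := by
        rw [hT, Finset.mem_filter, Finset.mem_product, Finset.mem_range]
        exact ⟨⟨Finset.mem_univ _, hk'⟩, hk⟩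
      exact Finset.inf_le (f := fun x : Fin m × ℕ => g x.1 l x.2 (at' (S.st b c) x.2)) this)
    Finset.univ
  have hfin : v ⊓ eb S.D b c' ≠ ⊥ := by
    refine szdis v hv hv0 _ ?_
    rw [PF.dom_sng, Set.disjoint_singleton_left]
    simp
  apply hfin
  rw [← le_bot_iff, ← hlU l]
  refine le_inf (le_inf ?_ ?_) (le_iInf fun i => hyv i (Finset.mem_univ i))
  · exact inf_le_left.trans (hvv.trans (inf_le_left.trans inf_le_left))
  · have h' : v ⊓ eb S.D b c' ≤ ee S.D q := by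
      rw [hqdef, ee3 r b c hrb]
      refine le_inf (inf_le_left.trans (hvv.trans (inf_le_left.trans inf_le_right))) ?_
      exact (inf_le_inf_right _ hdv).trans (ee2 b c' c)
    refine h'.trans ?_
    by_contra hUq
    have h1 : ee S.D q ⊓ Uᶜ ≠ ⊥ := by
      intro h
      exact hUq (le_compl_iff_disjoint_right.2 (disjoint_iff.2 h) |>.trans (compl_compl U).le)
    apply iane a _ h1
    rw [← le_bot_iff, ibinf, ← inf_assoc, ← iap]
    have h2 := hqX.trans (inf_le_left.trans inf_le_right)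
    refine (inf_le_inf_right _ h2).trans ?_
    rw [← ibinf, inf_compl_self, ibbot]

end CI
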