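import Pool.Agent.CI.C.StepStm

/-!
# Project CI, core, row S2: the successor step above the layer of the new coordinate
-/

set_option autoImplicit false

open Set Cardinal Pool.Agent.CL

namespace CI

universe u

section

variable {K Λ : Type u} [LinearOrder K] {D : Dat K Λ} {Z : Set K}

theorem suh_SZ_inf {U V : BB D} (hU : U ∈ SZ D Z) (hV : V ∈ SZ D Z) : U ⊓ V ∈ SZ D Z := by
  intro p
  constructor
  · intro h
    exact ⟨(hU p).1 h.1, (hV p).1 h.2⟩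
  · intro h
    exact ⟨(hU p).2 h.1, (hV p).2 h.2⟩

theorem suh_SZ_bot : (⊥ : BB D) ∈ SZ D Z := fun p =>
  ⟨fun h => absurd h (RO.not_mem_bot (Q := PD D) p),
    fun h => absurd h (RO.not_mem_bot (Q := PD D) _)⟩

theorem suh_TZ_inf {Θ : Type u} {s t : TT D Θ} (hs : s ∈ TZ D Θ Z) (ht : t ∈ TZ D Θ Z) :
    s ⊓ t ∈ TZ D Θ Z := by
  intro a p
  constructor
  · intro h
    exact ⟨(hs a p).1 h.1, (ht a p).1 h.2⟩
  · intro h
    exact ⟨(hs a p).2 h.1, (ht a p).2 h.2⟩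

theorem suh_mono {X : Type u} {T : Type u} [BooleanAlgebra X] [BooleanAlgebra T]
    {Y : Set X} {φ : X → T} (h : HomOn Y φ) {a b : X} (ha : a ∈ Y) (hb : b ∈ Y) (hab : a ≤ b) :
    φ a ≤ φ b := by
  have h1 := h.inf a ha b hb
  rw [inf_eq_left.2 hab] at h1
  rw [h1]
  exact inf_le_right

/-- the element of a condition with coordinates up to `b` -/
theorem suh_split (h3 : EeStm.{u}) (b : K) (p : PF K Λ) (hp : p.dom ⊆ Iic b) :
    ee D p = ee D (p.res (Iio b)) ∨ ∃ c, ee D p = ee D (p.res (Iio b)) ⊓ eb D b c := by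
  obtain ⟨-, -, -, -, h5, -⟩ := h3 K Λ D
  rcases hb : p.f b with _ | c
  · left
    have h1 : p.res (Iio b) = p := by
      refine PF.res_eq_self fun g hg => ?_
      have hle : g ≤ b := hp hg
      have hne : g ≠ b := by
        rintro rfl
        exact (PF.notMem_dom.2 hb) hg
      exact lt_of_le_of_ne hle hne
    rw [h1]
  · right
    refine ⟨c, ?_⟩
    rw [h5 p (Iio b)]
    have h1 : p.res (Iio b)ᶜ = PF.sng b c := by
      ext g d
      rw [PF.res_f_eq_some, PF.sng_f_eq_some]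
      constructor
      · rintro ⟨hg, hd⟩
        have hle : g ≤ b := hp (PF.mem_dom.2 ⟨d, hd⟩)
        have hge : b ≤ g := not_lt.1 hg
        have hgb : g = b := le_antisymm hle hge
        subst hgb
        rw [hb] at hd
        exact ⟨rfl, Option.some_injective _ hd⟩
      · rintro ⟨rfl, rfl⟩
        exact ⟨fun h => lt_irrefl _ h, hb⟩
    rw [h1]
    rfl

end

/-- the successor step above the layer of the new coordinate -/
theorem succHiStm (h1 : TrStm.{u}) (h2 : SZStm.{u}) (h3 : EeStm.{u}) (h4 : UPStm.{u})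
    (h5 : IBStm.{u}) (h6 : IAStm.{u}) (h7 : TZStm.{u}) (h8 : ZlStm.{u}) : SuccHiStm.{u} := by
  have _ := h1
  intro K Λ L Θ _ _ S rd rt b φ ψ x y hG hby hyx hψ hag hc hT z u U hz hu hU hzuU
  obtain ⟨hBle, hBinf, -, -, hBbot, -, -, -, -, -, hBTZ⟩ := h5 K Λ Θ S.D
  obtain ⟨hAP, hAPne, hAPmem, -⟩ := h6 K Λ Θ S.D
  have hTr1 : ∀ w : L, Tr S.D (Iio b ∩ S.Zl w) := fun w =>
    (Tr_of_lower (isLowerSet_Iio b)).inter (h8 K Λ L S w)
  have hTr2 : ∀ w : L, Tr S.D (Iic b ∩ S.Zl w) := fun w =>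
    (Tr_of_lower (isLowerSet_Iic b)).inter (h8 K Λ L S w)
  have hsub : S.Zl y ⊆ S.Zl x := fun g (hg : S.lay g ≤ y) => (hg.trans hyx.le : S.lay g ≤ x)
  have hBmono : ∀ {V W : BB S.D}, V ≤ W → iB S.D Θ V ≤ iB S.D Θ W := fun h => (hBle _ _).2 h
  -- disjoint sequences
  have WD : ∀ z' u' : ℕ → BB S.D, (∀ l, z' l ∈ SZ S.D (Iio b ∩ S.Zl x)) →
      (∀ l, u' l ∈ SZ S.D (Iic b ∩ S.Zl y)) → (∀ l, z' l ⊓ u' l = ⊥) → φ z' ⊓ ψ u' = ⊥ := by
    intro z' u' hz' hu' hd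
    obtain ⟨ρ, hρ, hρ2⟩ := h4 K Λ S.D (Iic b ∩ S.Zl y) (hTr2 y)
    have hset : Iic b ∩ S.Zl y ∩ (Iio b ∩ S.Zl x) = Iio b ∩ S.Zl y := by
      ext g
      constructor
      · rintro ⟨⟨-, h1⟩, ⟨h2, -⟩⟩
        exact ⟨h2, h1⟩
      · rintro ⟨h1, h2⟩
        exact ⟨⟨le_of_lt h1, h2⟩, ⟨h1, hsub h2⟩⟩
    have hρz : ∀ l, ρ (z' l) ∈ SZ S.D (Iio b ∩ S.Zl y) := by
      intro l
      have h1 := hρ2 _ (hTr1 x) _ (hz' l)
      rwa [hset] at h1
    obtain ⟨hcs, -⟩ := h2 K Λ S.D (Iic b ∩ S.Zl y) (hTr2 y)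
    have hρu : ∀ l, ρ (z' l) ⊓ u' l = ⊥ := by
      intro l
      have h1 : z' l ≤ (u' l)ᶜ := le_compl_iff_disjoint_right.2 (disjoint_iff.2 (hd l))
      have h2 := hρ.least (z' l) _ (hcs.compl _ (hu' l)) h1
      exact disjoint_iff.1 (le_compl_iff_disjoint_right.1 h2)
    have hY1 : z' ∈ {w : ℕ → BB S.D | ∀ l, w l ∈ SZ S.D (Iio b)} := fun l =>
      SZ_mono inter_subset_left (hz' l)
    have hY2 : (fun l => ρ (z' l)) ∈ {w : ℕ → BB S.D | ∀ l, w l ∈ SZ S.D (Iio b)} := fun l =>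
      SZ_mono inter_subset_left (hρz l)
    have hle : φ z' ≤ φ (fun l => ρ (z' l)) :=
      suh_mono hG.hom hY1 hY2 fun l => hρ.le (z' l)
    rw [← hag _ hρz] at hle
    have hY3 : (fun l => ρ (z' l)) ∈ {w : ℕ → BB S.D | ∀ l, w l ∈ SZ S.D (Iic b ∩ S.Zl y)} :=
      fun l => hρ.mem (z' l)
    have h9 := hψ.inf _ hY3 u' hu'
    have h10 : ((fun l => ρ (z' l)) ⊓ u' : ℕ → BB S.D) = fun _ => ⊥ := by
      funext l
      exact hρu l
    rw [h10, hc ⊥ suh_SZ_bot, hBbot] at h9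
    exact le_bot_iff.1 ((inf_le_inf_right _ hle).trans h9.symm.le)
  by_contra hne
  -- the element of the target
  have hφT : φ z ∈ TZ S.D Θ (Iic b ∩ S.Zl x) := by
    have h9 := hG.layer (Iio b) (subset_refl _) (isLowerSet_Iio b) x z hz
    exact (h7 K Λ Θ S.D _ (hTr1 x)).2.1 _ (inter_subset_inter_left _ Iio_subset_Iic_self) h9
  have hψT : ψ u ∈ TZ S.D Θ (Iic b ∩ S.Zl x) :=
    (h7 K Λ Θ S.D _ (hTr2 y)).2.1 _ (inter_subset_inter_right _ hsub) (hT u hu)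
  have hUT : iB S.D Θ U ∈ TZ S.D Θ (Iic b ∩ S.Zl x) := hBTZ _ U hU
  obtain ⟨a, p, hp, hap⟩ := (h7 K Λ Θ S.D _ (hTr2 x)).2.2.2 _
    (suh_TZ_inf (suh_TZ_inf hφT hψT) hUT) hne
  have hap1 : iAP S.D a p ≤ φ z := hap.trans (inf_le_left.trans inf_le_left)
  have hap2 : iAP S.D a p ≤ ψ u := hap.trans (inf_le_left.trans inf_le_right)
  have hap3 : iAP S.D a p ≤ iB S.D Θ U := hap.trans inf_le_right
  have hpU : ee S.D p ≤ U := ee_le_iff.2 ((hAPmem a p _).2 hap3)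
  have hapB : iAP S.D a p ≤ iB S.D Θ (ee S.D p) := by
    rw [hAP]
    exact inf_le_right
  -- the part below `b`
  set r : PF K Λ := p.res (Iio b) with hr
  have hrdom : r.dom ⊆ Iio b ∩ S.Zl x := by
    intro g hg
    rw [hr, PF.dom_res] at hg
    exact ⟨hg.2, (hp hg.1).2⟩
  have hrSZ : ee S.D r ∈ SZ S.D (Iio b ∩ S.Zl x) := (h2 K Λ S.D _ (hTr1 x)).2.1 r hrdom
  have hpr : ee S.D p ≤ ee S.D r := ee_mono (le_res p (Iio b))
  have hz' : ∀ l, z l ⊓ ee S.D r ∈ SZ S.D (Iio b ∩ S.Zl x) := fun l =>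
    suh_SZ_inf (hz l) hrSZ
  have hφz : φ (fun l => z l ⊓ ee S.D r) = φ z ⊓ iB S.D Θ (ee S.D r) := by
    have h9 := hG.hom.inf z (fun l => SZ_mono inter_subset_left (hz l)) (fun _ => ee S.D r)
      (fun _ => SZ_mono inter_subset_left hrSZ)
    rw [hG.const _ (SZ_mono inter_subset_left hrSZ)] at h9
    exact h9
  have hle1 : iAP S.D a p ≤ φ (fun l => z l ⊓ ee S.D r) := by
    rw [hφz]
    exact le_inf hap1 (hapB.trans (hBmono hpr))
  -- the part at `b`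
  have hend : ∀ V : BB S.D, V ∈ SZ S.D (Iic b ∩ S.Zl y) → ee S.D p = ee S.D r ⊓ V → False := by
    intro V hV hpV
    have hu' : ∀ l, u l ⊓ V ∈ SZ S.D (Iic b ∩ S.Zl y) := fun l => suh_SZ_inf (hu l) hV
    have hψu : ψ (fun l => u l ⊓ V) = ψ u ⊓ iB S.D Θ V := by
      have h9 := hψ.inf u hu (fun _ => V) (fun _ => hV)
      rw [hc V hV] at h9
      exact h9
    have hle2 : iAP S.D a p ≤ ψ (fun l => u l ⊓ V) := by
      rw [hψu]
      refine le_inf hap2 (hapB.trans (hBmono ?_))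
      rw [hpV]
      exact inf_le_right
    have hdis : ∀ l, (z l ⊓ ee S.D r) ⊓ (u l ⊓ V) = ⊥ := by
      intro l
      have h9 : (z l ⊓ ee S.D r) ⊓ (u l ⊓ V) = z l ⊓ u l ⊓ ee S.D p := by
        rw [hpV, inf_inf_inf_comm]
      rw [h9, ← le_bot_iff, ← hzuU l]
      exact inf_le_inf_left _ hpU
    have h9 := WD _ _ hz' hu' hdis
    have h10 := le_inf hle1 hle2
    rw [h9, le_bot_iff] at h10
    exact hAPne a p h10
  rcases suh_split (D := S.D) h3 b p (hp.trans inter_subset_left) with h9 | ⟨c, h9⟩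
  · refine hend ⊤ ?_ ?_
    · intro q
      exact ⟨fun _ => RO.mem_top (Q := PD S.D) _, fun _ => RO.mem_top (Q := PD S.D) _⟩
    · rw [inf_top_eq]
      exact h9
  · refine hend (eb S.D b c) ?_ h9
    refine (h2 K Λ S.D _ (hTr2 y)).2.1 (PF.sng b c) ?_
    rw [PF.dom_sng]
    rintro g rfl
    exact ⟨le_refl _, hby⟩

end CI
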