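import Pool.Agent.CI.C.StepStm

/-!
# Project CI, row S4: the hypothesis (H) of the successor step at the layer of `b`, random kind
(helper21)
-/

set_option autoImplicit false

open Set Cardinal Pool.Agent.CL

namespace CI

universe u

theorem succRStm (h1 : TrStm.{u}) (h2 : SZStm.{u}) (h3 : EeStm.{u}) (h4 : IicStm.{u})
    (h5 : IBStm.{u}) (h6 : IAStm.{u}) (h7 : TZStm.{u}) (h8 : ZlStm.{u}) (h9 : RebStm.{u})
    (h10 : RNulStm.{u}) : SuccRStm.{u} := by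
  intro K Λ L Θ _ _ S rd rt b φ hG hb σ z U hz hU hzU
  by_contra hne
  obtain ⟨ia1, ia2, -, -, -, -, ia7, -⟩ := h6 K Λ Θ S.D
  obtain ⟨ib1, ib2, -⟩ := h5 K Λ Θ S.D
  obtain ⟨-, -, ee3, ee4, -, -⟩ := h3 K Λ S.D
  obtain ⟨a, p, hap⟩ := ia7 _ hne
  -- a label at `b`
  obtain ⟨p', ρ, hp'p, hp'b⟩ : ∃ (p' : PF K Λ) (ρ : Λ), ee S.D p' ≤ ee S.D p ∧
      p'.f b = some ρ := by
    rcases h : p.f b with _ | ρ
    · refine ⟨p.upd b (σ 0), σ 0, ?_, PF.upd_f_same _ _ _⟩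
      rw [ee3 p b (σ 0) h]
      exact inf_le_left
    · exact ⟨p, ρ, le_rfl, h⟩
  have hap' : iAP S.D a p' ≤ φ z ⊓ iB S.D Θ U ⊓ S.qr b σ φ := by
    refine le_trans ?_ hap
    rw [ia1, ia1]
    exact inf_le_inf le_rfl ((ib1 _ _).2 hp'p)
  have hφz : iAP S.D a p' ≤ φ z := hap'.trans (inf_le_left.trans inf_le_left)
  have hqr : iAP S.D a p' ≤ S.qr b σ φ := hap'.trans inf_le_right
  have hUU : p' ∈ U.S := by
    have h := (hap'.trans (inf_le_left.trans inf_le_right)) (RO.mem_pt_self (Q := AF K Θ × PD S.D)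
      (a, p'))
    exact h
  -- the condition below `b`
  set r : PF K Λ := p'.res (Iio b) with hr
  have hTrIio : Tr S.D (Iio b) := Tr_of_lower (isLowerSet_Iio b)
  have hTrIic : Tr S.D (Iic b) := Tr_of_lower (isLowerSet_Iic b)
  obtain ⟨cs1, sz2, sz3, -, -, -⟩ := h2 K Λ S.D (Iio b) hTrIio
  have hrb : r.f b = none := PF.res_f_of_notMem (fun h => lt_irrefl _ h)
  have hrIic : p'.res (Iic b) = r.upd b ρ := by
    ext x c
    by_cases hx : x = b
    · subst hx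
      rw [PF.upd_f_same, PF.res_f_of_mem (mem_Iic.2 le_rfl), hp'b]
    · rw [PF.upd_f_ne hx]
      by_cases hx' : x < b
      · rw [PF.res_f_of_mem (mem_Iic.2 hx'.le), hr, PF.res_f_of_mem (mem_Iio.2 hx')]
      · rw [PF.res_f_of_notMem (fun h => hx (le_antisymm (mem_Iic.1 h) (not_lt.1 hx'))), hr,
          PF.res_f_of_notMem (fun h => hx' (mem_Iio.1 h))]
  have hUr : ee S.D r ⊓ eb S.D b ρ ≤ U := by
    rw [← ee3 r b ρ hrb, ← hrIic, ee_le_iff]
    exact (SZ_mono inter_subset_left hU p').1 hUU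
  have heer : ee S.D r ∈ SZ S.D (Iio b) := sz2 r (PF.dom_res_subset _ _)
  have hzIio : ∀ l, z l ∈ SZ S.D (Iio b) := fun l => SZ_mono inter_subset_left (hz l)
  have hinf : ∀ A ∈ SZ S.D (Iio b), ∀ B ∈ SZ S.D (Iio b), A ⊓ B ∈ SZ S.D (Iio b) := by
    intro A hA B hB q
    constructor
    · intro h
      exact ⟨(hA q).1 h.1, (hB q).1 h.2⟩
    · intro h
      exact ⟨(hA q).2 h.1, (hB q).2 h.2⟩
  -- the almost disjoint part
  obtain ⟨-, reb2⟩ := h9 K Λ L S b hb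
  have hnul : ∀ l, z l ⊓ ee S.D r ≤ (S.cR b ρ).nul (S.cR b (σ l)) := by
    intro l
    refine reb2 ρ (σ l) _ (hinf _ (hzIio l) _ heer) ?_
    rw [eq_bot_iff, ← hzU l]
    refine le_inf (le_inf ?_ ?_) inf_le_right
    · exact inf_le_left.trans (inf_le_left.trans inf_le_left)
    · exact le_trans (le_inf (inf_le_left.trans (inf_le_left.trans inf_le_right))
        (inf_le_left.trans inf_le_right)) hUr
  have hnulW : ∀ l, (S.cR b ρ).nul (S.cR b (σ l)) ∈ SZ S.D (Iio b) := fun l =>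
    SZ_mono inter_subset_left (S.sub b (h10 _ (S.W b) (S.ss b) (S.cR b ρ) (S.cR b (σ l))
      (S.cR b ρ)).1)
  -- the condition below `b` is below `φ z`
  obtain ⟨-, -, tz3, -⟩ := h7 K Λ Θ S.D (Iio b) hTrIio
  have hφTZ : φ z ∈ TZ S.D Θ (Iio b) := by
    have h := hG.layer (Iio b) le_rfl (isLowerSet_Iio b) (S.lay b) z hz
    intro a' q
    rw [h a' q, h a' (q.res (Iio b)), PF.res_res,
      inter_eq_self_of_subset_right (inter_subset_left (s := Iio b))]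
  have hφr : iAP S.D a r ≤ φ z := (tz3 _ hφTZ a p').1 hφz
  have hφn : iAP S.D a r ≤ φ fun l => (S.cR b ρ).nul (S.cR b (σ l)) := by
    have e1 : iAP S.D a r ≤ φ z ⊓ φ (fun _ => ee S.D r) := by
      refine le_inf hφr ?_
      rw [hG.const _ heer, ia1]
      exact inf_le_right
    have e2 : φ z ⊓ φ (fun _ => ee S.D r) = φ (z ⊓ fun _ => ee S.D r) :=
      (hG.hom.inf z hzIio _ fun _ => heer).symm
    have hzm : (z ⊓ fun _ => ee S.D r : ℕ → BB S.D) ∈ {z : ℕ → BB S.D | ∀ l, z l ∈ SZ S.D (Iio b)} :=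
      fun l => hinf _ (hzIio l) _ heer
    have e3 : (z ⊓ fun _ => ee S.D r : ℕ → BB S.D) ⊓ (fun l => (S.cR b ρ).nul (S.cR b (σ l))) =
        (z ⊓ fun _ => ee S.D r) := inf_eq_left.2 fun l => hnul l
    have e4 := hG.hom.inf _ hzm (fun l => (S.cR b ρ).nul (S.cR b (σ l))) hnulW
    rw [e3] at e4
    rw [e2, e4] at e1
    exact e1.trans inf_le_right
  -- contradiction
  apply ia2 a p'
  rw [eq_bot_iff]
  have f1 : iAP S.D a p' ≤ iAP S.D a r := by
    rw [ia1, ia1]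
    exact inf_le_inf le_rfl ((ib1 _ _).2 (ee_mono (le_res p' (Iio b))))
  have f2 : iAP S.D a p' ≤ iB S.D Θ (eb S.D b ρ) := by
    rw [ia1]
    exact inf_le_right.trans ((ib1 _ _).2 (ee4 p' b ρ hp'b))
  have f3 : iAP S.D a p' ≤ (S.qr b σ φ)ᶜ := by
    unfold Sys.qr
    rw [compl_compl]
    exact (le_inf (f1.trans hφn) f2).trans
      (le_iSup (fun ρ : Λ => φ (fun l => (S.cR b ρ).nul (S.cR b (σ l))) ⊓
        iB S.D Θ (eb S.D b ρ)) ρ)
  have f4 := le_inf hqr f3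
  rwa [inf_compl_eq_bot] at f4

end CI
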