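import Pool.Agent.CI.C.MdlStm
import Pool.Agent.CI.C.RAmalg

/-!
# Project CI, core: the support of the complement of a null set, counting
-/

set_option autoImplicit false

open Set

namespace CI

universe u

/-! ### two-valued trees -/

section Real

open Classical in
/-- the number of nodes of level `m` in the cone of `(n, a)` -/
noncomputable def spL (S : ℕ → Finset ℕ → Prop) (n : ℕ) (a : Finset ℕ) (m : ℕ) : ℕ :=
  ((Finset.range m).powerset.filter fun b =>
    b ∩ Finset.range n = a ∩ Finset.range m ∧ S m b).card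

theorem sp_succ (S : ℕ → Finset ℕ → Prop) (hS : ∀ n a, S (n + 1) a → S n (a.erase n)) (n : ℕ)
    (a : Finset ℕ) (m : ℕ) : spL S n a (m + 1) ≤ 2 * spL S n a m := by
  classical
  have h := ra_dec (fun m b => b ∩ Finset.range n = a ∩ Finset.range m ∧ S m b) ?_ m
  · unfold spL
    convert h
  rintro m b ⟨h1, h2⟩
  refine ⟨?_, hS m b h2⟩
  ext x
  have h3 := Finset.ext_iff.1 h1 x
  simp only [Finset.mem_inter, Finset.mem_range, Finset.mem_erase] at h3 ⊢
  constructor
  · rintro ⟨⟨hx, hb⟩, hn⟩
    have := h3.1 ⟨hb, hn⟩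
    exact ⟨this.1, by omega⟩
  · rintro ⟨ha, hm⟩
    have := h3.2 ⟨ha, by omega⟩
    exact ⟨⟨by omega, this.1⟩, this.2⟩

theorem sp_small (S : ℕ → Finset ℕ → Prop) (hS : ∀ n a, S (n + 1) a → S n (a.erase n)) (n : ℕ)
    (a : Finset ℕ) (m j : ℕ) (h : spL S n a m * (j + 1) < 2 ^ m) (d : ℕ) :
    spL S n a (m + d) * (j + 1) < 2 ^ (m + d) := by
  induction d with
  | zero => exact h
  | succ d ih =>
    have h1 := sp_succ S hS n a (m + d)
    rw [← add_assoc, pow_succ]
    nlinarith

theorem sp_le (S : ℕ → Finset ℕ → Prop) (hS : ∀ n a, S (n + 1) a → S n (a.erase n)) (n : ℕ)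
    (a : Finset ℕ) (d : ℕ) : spL S n a (n + d) ≤ 2 ^ d := by
  classical
  induction d with
  | zero =>
    rw [pow_zero, add_zero, spL, Finset.card_le_one]
    intro b hb c hc
    rw [Finset.mem_filter, Finset.mem_powerset] at hb hc
    have h1 := hb.2.1
    have h2 := hc.2.1
    rw [Finset.inter_eq_left.2 hb.1] at h1
    rw [Finset.inter_eq_left.2 hc.1] at h2
    rw [h1, h2]
  | succ d ih =>
    have h1 := sp_succ S hS n a (n + d)
    rw [← add_assoc, pow_succ]
    omega

theorem sp_sum (S : ℕ → Finset ℕ → Prop) (n : ℕ)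
    (a : Finset ℕ) (m M : ℕ) (hm : m ≤ M) :
    spL S n a M ≤ ∑ b ∈ (Finset.range m).powerset.filter (fun b =>
      b ∩ Finset.range n = a ∩ Finset.range m), spL S m b M := by
  classical
  unfold spL
  refine (Finset.card_le_card (t := ((Finset.range m).powerset.filter (fun b =>
      b ∩ Finset.range n = a ∩ Finset.range m)).biUnion fun b =>
        ((Finset.range M).powerset.filter fun b' =>
          b' ∩ Finset.range m = b ∩ Finset.range M ∧ S M b')) ?_).trans
      Finset.card_biUnion_le
  intro b' hb'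
  rw [Finset.mem_filter, Finset.mem_powerset] at hb'
  obtain ⟨h1, h2, h3⟩ := hb'
  rw [Finset.mem_biUnion]
  refine ⟨b' ∩ Finset.range m, ?_, ?_⟩
  · rw [Finset.mem_filter, Finset.mem_powerset]
    refine ⟨Finset.inter_subset_right, ?_⟩
    ext x
    have h4 := Finset.ext_iff.1 h2 x
    simp only [Finset.mem_inter, Finset.mem_range] at h4 ⊢
    constructor
    · rintro ⟨⟨hb, hx⟩, hn⟩
      exact ⟨(h4.1 ⟨hb, hn⟩).1, hx⟩
    · rintro ⟨hxa, hx⟩
      have := h4.2 ⟨hxa, by omega⟩
      exact ⟨⟨this.1, hx⟩, this.2⟩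
  · rw [Finset.mem_filter, Finset.mem_powerset]
    refine ⟨h1, ?_, h3⟩
    ext x
    simp only [Finset.mem_inter, Finset.mem_range]
    constructor
    · rintro ⟨hb, hx⟩
      exact ⟨⟨hb, hx⟩, by omega⟩
    · rintro ⟨⟨hb, hx⟩, _⟩
      exact ⟨hb, hx⟩

/-- the support of a tree is as large as the tree -/
theorem sp_main (S0 S : ℕ → Finset ℕ → Prop) (hS : ∀ n a, S0 (n + 1) a → S0 n (a.erase n))
    (hT : ∀ m b, b ⊆ Finset.range m → (∃ j, ∀ m', 2 ^ m' ≤ spL S0 m b m' * (j + 1)) → S m b)
    (n : ℕ) (a : Finset ℕ) (j : ℕ) (hj : ∀ m, 2 ^ m ≤ spL S0 n a m * (j + 1)) (m : ℕ) :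
    2 ^ m ≤ spL S n a m * (j + 1) := by
  classical
  set j' := (j + 1) * (2 ^ m * 2 ^ m) with hj'
  have h1 : ∀ b : Finset ℕ, ∃ m', b ⊆ Finset.range m → ¬ S m b →
      spL S0 m b m' * (j' + 1) < 2 ^ m' := by
    intro b
    by_cases hb : b ⊆ Finset.range m ∧ ¬ S m b
    · have h2 := mt (hT m b hb.1) hb.2
      push Not at h2
      obtain ⟨m', h3⟩ := h2 j'
      exact ⟨m', fun _ _ => h3⟩
    · exact ⟨0, fun h3 h4 => absurd ⟨h3, h4⟩ hb⟩
  choose f hf using h1
  set D := (Finset.range m).powerset.sup f with hD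
  set F := (Finset.range m).powerset.filter (fun b =>
      b ∩ Finset.range n = a ∩ Finset.range m) with hF
  have hF1 : F.card ≤ 2 ^ m := by
    refine (Finset.card_le_card (Finset.filter_subset _ _)).trans ?_
    rw [Finset.card_powerset, Finset.card_range]
  have h2 := sp_sum S0 n a m (m + D) (by omega)
  rw [← hF, ← Finset.sum_filter_add_sum_filter_not F (fun b => S m b)] at h2
  have h3 : ∑ b ∈ F.filter (fun b => S m b), spL S0 m b (m + D) ≤ spL S n a m * 2 ^ D := by
    have h4 : spL S n a m = (F.filter (fun b => S m b)).card := by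
      rw [spL, hF, Finset.filter_filter]
    rw [h4]
    refine (Finset.sum_le_card_nsmul _ _ (2 ^ D) fun b hb => ?_).trans (by rw [smul_eq_mul])
    rw [Finset.mem_filter, hF, Finset.mem_filter, Finset.mem_powerset] at hb
    exact sp_le S0 hS m b D
  have h4 : (∑ b ∈ F.filter (fun b => ¬ S m b), spL S0 m b (m + D)) * (j' + 1) ≤
      2 ^ m * 2 ^ (m + D) := by
    rw [Finset.sum_mul]
    refine (Finset.sum_le_card_nsmul _ _ (2 ^ (m + D)) fun b hb => ?_).trans ?_
    · rw [Finset.mem_filter, hF, Finset.mem_filter, Finset.mem_powerset] at hb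
      have h5 := hf b hb.1.1 hb.2
      have h6 : f b ≤ D := Finset.le_sup (f := f) (Finset.mem_powerset.2 hb.1.1)
      obtain ⟨d, hd⟩ := Nat.exists_eq_add_of_le h6
      have h7 := sp_small S0 hS m b (f b) j' h5 (m + d)
      have h8 : f b + (m + d) = m + D := by omega
      rw [h8] at h7
      exact h7.le
    · rw [smul_eq_mul]
      exact Nat.mul_le_mul_right _ ((Finset.card_le_card (Finset.filter_subset _ _)).trans hF1)
  have h5 := hj (m + D)
  set A := ∑ b ∈ F.filter (fun b => S m b), spL S0 m b (m + D)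
  set C := ∑ b ∈ F.filter (fun b => ¬ S m b), spL S0 m b (m + D)
  set P := spL S n a m
  set L := spL S0 n a (m + D)
  have h6 : 2 ^ (m + D) * (j' + 1) ≤ (P * 2 ^ D) * (j + 1) * (j' + 1) +
      (2 ^ m * 2 ^ (m + D)) * (j + 1) := by
    calc 2 ^ (m + D) * (j' + 1) ≤ L * (j + 1) * (j' + 1) := Nat.mul_le_mul_right _ h5
      _ ≤ (A + C) * (j + 1) * (j' + 1) :=
        Nat.mul_le_mul_right _ (Nat.mul_le_mul_right _ h2)
      _ = A * (j + 1) * (j' + 1) + C * (j' + 1) * (j + 1) := by ring
      _ ≤ (P * 2 ^ D) * (j + 1) * (j' + 1) + (2 ^ m * 2 ^ (m + D)) * (j + 1) :=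
        Nat.add_le_add (Nat.mul_le_mul_right _ (Nat.mul_le_mul_right _ h3))
          (Nat.mul_le_mul_right _ h4)
  have h7 : 2 ^ D * (2 ^ m * (j' + 1)) ≤ 2 ^ D * (P * (j + 1) * (j' + 1) + j') := by
    calc 2 ^ D * (2 ^ m * (j' + 1)) = 2 ^ (m + D) * (j' + 1) := by rw [pow_add]; ring
      _ ≤ _ := h6
      _ = 2 ^ D * (P * (j + 1) * (j' + 1) + j') := by rw [pow_add, hj']; ring
  have h8 := Nat.le_of_mul_le_mul_left h7 (by positivity)
  by_contra hcon
  push Not at hcon
  have h9 : (P * (j + 1) + 1) * (j' + 1) ≤ 2 ^ m * (j' + 1) := Nat.mul_le_mul_right _ hcon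
  nlinarith

end Real

/-! ### the theorem -/

section

variable {B : Type u} [CompleteBooleanAlgebra B]

theorem sp_cnt_mono {α : Type} (A : Finset α) (x y : α → B) (s r : ℕ) (h : ∀ a ∈ A, x a ≤ y a) :
    cntGe A x s r ≤ cntGe A y s r := by
  refine iSup₂_mono fun C hC => ?_
  exact Finset.inf_mono_fun fun a ha => h a (hC.1 ha)

theorem sp_mge_mono (V V' : ℕ → Finset ℕ → B) (s r : ℕ)
    (h : ∀ n a, a ⊆ Finset.range n → V n a ≤ V' n a) : mGe V s r ≤ mGe V' s r :=
  iInf_mono fun n => sp_cnt_mono _ _ _ _ _ fun a ha => h n a (Finset.mem_powerset.1 ha)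

theorem sp_uf (h : RSStm.{u}) {ι : Type} [Countable ι] [Nonempty ι] (b : B) (hb : b ≠ ⊥)
    (y : ι → ℕ → B) : ∃ U : B → Prop, RaUf U ∧ U b ∧
      ∀ i, U (⨆ n, y i n) ↔ ∃ n, U (y i n) := by
  obtain ⟨e, he⟩ := exists_surjective_nat ι
  obtain ⟨U, h1, h2, h3, h4, h5⟩ := h B b (fun k => y (e k)) hb
  refine ⟨U, ⟨h2, h3, h4⟩, h1, fun i => ?_⟩
  obtain ⟨k, rfl⟩ := he i
  exact h5 k

theorem sp_cone {U : B → Prop} (hU : RaUf U) (V : ℕ → Finset ℕ → B) (n : ℕ) (a : Finset ℕ)
    (m : ℕ) (b : Finset ℕ) :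
    U (cone V n a m b) ↔ b ∩ Finset.range n = a ∩ Finset.range m ∧ U (V m b) := by
  classical
  unfold cone
  split_ifs with h
  · exact ⟨fun h1 => ⟨h, h1⟩, fun h1 => h1.2⟩
  · exact ⟨fun h1 => absurd h1 hU.bot, fun h1 => absurd h1.1 h⟩

/-- translation of `mGe` of cones -/
theorem sp_mge {U : B → Prop} (hU : RaUf U) (V : ℕ → Finset ℕ → B) (n : ℕ) (a : Finset ℕ)
    (j : ℕ)
    (hr : U (⨆ m, (cntGe (Finset.range m).powerset (cone V n a m) (j + 1) (1 * 2 ^ m))ᶜ) ↔
      ∃ m, U (cntGe (Finset.range m).powerset (cone V n a m) (j + 1) (1 * 2 ^ m))ᶜ) :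
    U (mGe (cone V n a) (j + 1) 1) ↔
      ∀ m, 2 ^ m ≤ spL (fun m b => U (V m b)) n a m * (j + 1) := by
  classical
  rw [hU.mge _ _ _ hr]
  refine forall_congr' fun m => ?_
  rw [one_mul, spL]
  have h1 : ((Finset.range m).powerset.filter fun b => U (cone V n a m b)) =
      (Finset.range m).powerset.filter fun b =>
        b ∩ Finset.range n = a ∩ Finset.range m ∧ U (V m b) :=
    Finset.filter_congr fun b _ => sp_cone hU V n a m b
  rw [← h1]

end

theorem suppStm (h : RSStm.{u}) : SuppStm.{u} := by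
  classical
  intro B _ d
  -- the tree of the complement
  set T0 : ℕ → Finset ℕ → B := fun n a =>
    if a ⊆ Finset.range n then ((d.U 1).O n a)ᶜ else ⊥ with hT0
  have hT0d : DecT T0 := by
    intro n a
    by_cases ha : a ⊆ Finset.range (n + 1)
    · have h1 : a.erase n ⊆ Finset.range n := by
        intro x hx
        rw [Finset.mem_erase] at hx
        have h2 := ha hx.2
        rw [Finset.mem_range] at h2 ⊢
        have h3 := hx.1
        omega
      simp only [hT0]
      rw [if_pos ha, if_pos h1]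
      refine compl_le_compl (((d.U 1).mono n _ h1).trans ?_)
      by_cases hn : n ∈ a
      · rw [Finset.insert_erase hn]
        exact inf_le_right
      · rw [Finset.erase_eq_of_notMem hn]
        exact inf_le_left
    · simp only [hT0]
      rw [if_neg ha]
      exact bot_le
  set T : ℕ → Finset ℕ → B := fun n a =>
    if a ⊆ Finset.range n then ⨆ j : ℕ, mGe (cone T0 n a) (j + 1) 1 else ⊥ with hT
  refine ⟨T, ?_, ?_, ?_, ?_⟩
  · -- decreasing
    intro n a
    by_cases ha : a ⊆ Finset.range (n + 1)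
    · have h1 : a.erase n ⊆ Finset.range n := by
        intro x hx
        rw [Finset.mem_erase] at hx
        have h2 := ha hx.2
        rw [Finset.mem_range] at h2 ⊢
        have h3 := hx.1
        omega
      simp only [hT]
      rw [if_pos ha, if_pos h1]
      refine iSup_mono fun j => sp_mge_mono _ _ _ _ fun m b _ => ?_
      unfold cone
      by_cases h2 : b ∩ Finset.range (n + 1) = a ∩ Finset.range m
      · have h3 : b ∩ Finset.range n = a.erase n ∩ Finset.range m := by
          ext x
          have h4 := Finset.ext_iff.1 h2 x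
          simp only [Finset.mem_inter, Finset.mem_range, Finset.mem_erase] at h4 ⊢
          constructor
          · rintro ⟨hb, hn⟩
            have := h4.1 ⟨hb, by omega⟩
            exact ⟨⟨by omega, this.1⟩, this.2⟩
          · rintro ⟨⟨hx, hxa⟩, hm⟩
            have := h4.2 ⟨hxa, hm⟩
            exact ⟨this.1, by omega⟩
        rw [if_pos h2, if_pos h3]
      · rw [if_neg h2]
        exact bot_le
    · simp only [hT]
      rw [if_neg ha]
      exact bot_le
  · -- the root
    simp only [hT]
    rw [if_pos (Finset.empty_subset _), eq_top_iff]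
    refine le_iSup_of_le 1 (le_iInf fun n => ?_)
    by_contra hcon
    have h1 : (cntGe (Finset.range n).powerset (cone T0 0 ∅ n) (1 + 1) (1 * 2 ^ n))ᶜ ≠ ⊥ := by
      intro h2
      rw [compl_eq_bot] at h2
      exact hcon h2.ge
    obtain ⟨U, hU, hb, -⟩ := sp_uf h (ι := ℕ) _ h1 (fun _ _ => ⊥)
    rw [hU.compl, hU.cnt, not_le] at hb
    set A := (Finset.range n).powerset.filter fun a => U ((d.U 1).O n a) with hA
    have h2 : 2 ^ n < 2 ^ 1 * A.card := by
      have h3 : (Finset.range n).powerset.card = 2 ^ n := by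
        rw [Finset.card_powerset, Finset.card_range]
      have h4 : ((Finset.range n).powerset.filter fun a => U (cone T0 0 ∅ n a)) =
          (Finset.range n).powerset.filter fun a => ¬ U ((d.U 1).O n a) := by
        refine Finset.filter_congr fun a ha => ?_
        rw [sp_cone hU]
        simp only [hT0]
        rw [if_pos (Finset.mem_powerset.1 ha), hU.compl]
        simp
      have h5 := Finset.card_filter_add_card_filter_not (s := (Finset.range n).powerset)
        (fun a => U ((d.U 1).O n a))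
      rw [h4] at hb
      rw [h3] at h5
      rw [hA]
      omega
    have h3 := d.le 1 n A (fun a ha => Finset.mem_powerset.1 (Finset.mem_filter.1 ha).1) h2
    have h4 : U (A.inf fun a => (d.U 1).O n a) :=
      (hU.finf _ _).2 fun a ha => (Finset.mem_filter.1 ha).2
    rw [Finset.inf_eq_iInf, h3] at h4
    exact hU.bot h4
  · -- smaller than the complement
    intro n a ha
    simp only [hT]
    rw [if_pos ha]
    refine iSup_le fun j => (iInf_le _ n).trans (iSup₂_le fun C hC => ?_)
    have h1 : C.Nonempty := by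
      rw [Finset.nonempty_iff_ne_empty]
      rintro rfl
      have h2 := hC.2
      rw [Finset.card_empty, zero_mul] at h2
      have : 0 < 2 ^ n := by positivity
      omega
    obtain ⟨b, hb⟩ := h1
    refine (Finset.inf_le hb).trans ?_
    have h2 := Finset.mem_powerset.1 (hC.1 hb)
    unfold cone
    split_ifs with h3
    · rw [Finset.inter_eq_left.2 h2, Finset.inter_eq_left.2 ha] at h3
      rw [h3]
      simp only [hT0]
      rw [if_pos ha]
    · exact bot_le
  · -- positive measure
    intro n a ha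
    by_contra hcon
    have h1 : T n a ⊓ (⨆ j : ℕ, mGe (cone T n a) (j + 1) 1)ᶜ ≠ ⊥ := by
      intro h2
      apply hcon
      rw [← disjoint_iff, disjoint_compl_right_iff] at h2
      exact h2
    obtain ⟨U, hU, hb, hs⟩ := sp_uf h (ι := (ℕ × Finset ℕ) ⊕ (ℕ × Finset ℕ × ℕ) ⊕ ℕ) _ h1
      (fun i => match i with
        | Sum.inl t => fun j => mGe (cone T0 t.1 t.2) (j + 1) 1
        | Sum.inr (Sum.inl t) => fun m =>
          (cntGe (Finset.range m).powerset (cone T0 t.1 t.2.1 m) (t.2.2 + 1) (1 * 2 ^ m))ᶜ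
        | Sum.inr (Sum.inr j) => fun m =>
          (cntGe (Finset.range m).powerset (cone T n a m) (j + 1) (1 * 2 ^ m))ᶜ)
    obtain ⟨hb1, hb2⟩ := (hU.inf _ _).1 hb
    have hs1 : ∀ m b, U (⨆ j : ℕ, mGe (cone T0 m b) (j + 1) 1) ↔
        ∃ j, U (mGe (cone T0 m b) (j + 1) 1) := fun m b => hs (Sum.inl (m, b))
    have hs2 : ∀ m b j, U (mGe (cone T0 m b) (j + 1) 1) ↔
        ∀ m', 2 ^ m' ≤ spL (fun m b => U (T0 m b)) m b m' * (j + 1) := fun m b j =>
      sp_mge hU T0 m b j (hs (Sum.inr (Sum.inl (m, b, j))))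
    have hs3 : ∀ j, U (mGe (cone T n a) (j + 1) 1) ↔
        ∀ m', 2 ^ m' ≤ spL (fun m b => U (T m b)) n a m' * (j + 1) := fun j =>
      sp_mge hU T n a j (hs (Sum.inr (Sum.inr j)))
    have hTn : T n a = ⨆ j : ℕ, mGe (cone T0 n a) (j + 1) 1 := by
      simp only [hT]
      rw [if_pos ha]
    rw [hTn, hs1] at hb1
    obtain ⟨j, hj⟩ := hb1
    rw [hs2] at hj
    rw [hU.compl] at hb2
    apply hb2
    refine hU.mono (le_iSup (fun j : ℕ => mGe (cone T n a) (j + 1) 1) j) ((hs3 j).2 ?_)
    refine sp_main (fun m b => U (T0 m b)) (fun m b => U (T m b))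
      (fun m b hb => hU.mono (hT0d m b) hb) ?_ n a j hj
    rintro m b hbm ⟨j', hj'⟩
    have h2 : T m b = ⨆ j : ℕ, mGe (cone T0 m b) (j + 1) 1 := by
      simp only [hT]
      rw [if_pos hbm]
    show U (T m b)
    rw [h2, hs1]
    exact ⟨j', (hs2 m b j').2 hj'⟩

/-! ### counting -/

theorem bits_card (n j : ℕ) : (bits n j).card = n := by
  unfold bits
  rw [Finset.card_image_of_injective, Finset.card_range]
  intro r r' h
  simp only [Nat.pair_eq_pair] at h
  exact h.2.2

theorem bits_disj (n : ℕ) {j j' : ℕ} (h : j ≠ j') : Disjoint (bits n j) (bits n j') := by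
  rw [Finset.disjoint_left]
  intro x hx hx'
  unfold bits at hx hx'
  rw [Finset.mem_image] at hx hx'
  obtain ⟨r, -, rfl⟩ := hx
  obtain ⟨r', -, h1⟩ := hx'
  simp only [Nat.pair_eq_pair] at h1
  exact h h1.2.1.symm

open Classical in
theorem cnt_step (m : ℕ) (D : Finset ℕ) (hD : D ⊆ Finset.range m) (Q : Finset ℕ → Prop)
    (hQ : ∀ b, Q (b \ D) ↔ Q b) :
    ((Finset.range m).powerset.filter Q).card =
      ((Finset.range m).powerset.filter fun b => Q b ∧ Disjoint b D).card * 2 ^ D.card := by
  rw [← Finset.card_powerset, ← Finset.card_product]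
  refine Finset.card_nbij' (fun b => (b \ D, b ∩ D)) (fun p => p.1 ∪ p.2) ?_ ?_ ?_ ?_
  · intro b hb
    rw [Finset.mem_coe, Finset.mem_filter, Finset.mem_powerset] at hb
    rw [Finset.mem_coe, Finset.mem_product, Finset.mem_filter, Finset.mem_powerset,
      Finset.mem_powerset]
    exact ⟨⟨Finset.sdiff_subset.trans hb.1, (hQ b).2 hb.2, Finset.sdiff_disjoint⟩,
      Finset.inter_subset_right⟩
  · rintro ⟨b, c⟩ hp
    rw [Finset.mem_coe, Finset.mem_product, Finset.mem_filter, Finset.mem_powerset,
      Finset.mem_powerset] at hp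
    obtain ⟨⟨h1, h2, h3⟩, h4⟩ := hp
    simp only at h1 h2 h3 h4
    rw [Finset.mem_coe, Finset.mem_filter, Finset.mem_powerset]
    refine ⟨Finset.union_subset h1 (h4.trans hD), ?_⟩
    rw [← hQ]
    have h5 : (b ∪ c) \ D = b := by
      rw [Finset.union_sdiff_distrib, Finset.sdiff_eq_empty_iff_subset.2 h4, Finset.union_empty,
        Finset.sdiff_eq_self_of_disjoint h3]
    simp only [h5]
    exact h2
  · intro b _
    exact Finset.sdiff_union_inter b D
  · rintro ⟨b, c⟩ hp
    rw [Finset.mem_coe, Finset.mem_product, Finset.mem_filter, Finset.mem_powerset,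
      Finset.mem_powerset] at hp
    obtain ⟨⟨h1, h2, h3⟩, h4⟩ := hp
    simp only at h1 h2 h3 h4
    simp only [Prod.mk.injEq]
    constructor
    · rw [Finset.union_sdiff_distrib, Finset.sdiff_eq_empty_iff_subset.2 h4, Finset.union_empty,
        Finset.sdiff_eq_self_of_disjoint h3]
    · rw [Finset.union_inter_distrib_right, Finset.disjoint_iff_inter_eq_empty.1 h3,
        Finset.empty_union, Finset.inter_eq_left.2 h4]

theorem cntStm : CntStm := by
  classical
  intro n m J
  induction J using Finset.induction_on with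
  | empty =>
    intro _
    simp
  | insert j J hj ih =>
    intro hJ
    have ih' := ih fun j' hj' => hJ j' (Finset.mem_insert_of_mem hj')
    set Q : Finset ℕ → Prop := fun b => ∀ j' ∈ J, ¬ Disjoint b (bits n j') with hQ
    have hstep := cnt_step m (bits n j) (hJ j (Finset.mem_insert_self _ _)) Q (by
      intro b
      refine forall₂_congr fun j' hj' => not_congr ?_
      have h1 : Disjoint (bits n j) (bits n j') := bits_disj n fun h => hj (h ▸ hj')
      constructor
      · intro h2
        rw [Finset.disjoint_left] at h1 h2 ⊢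
        intro x hx hx'
        exact h2 (Finset.mem_sdiff.2 ⟨hx, fun h3 => h1 h3 hx'⟩) hx'
      · intro h2
        exact h2.mono_left Finset.sdiff_subset)
    rw [bits_card] at hstep
    have hsplit := Finset.card_filter_add_card_filter_not
      (s := (Finset.range m).powerset.filter Q) (fun b => Disjoint b (bits n j))
    rw [Finset.filter_filter, Finset.filter_filter] at hsplit
    have h1 : ((Finset.range m).powerset.filter fun b => ∀ j' ∈ insert j J,
        ¬ Disjoint b (bits n j')) =
        (Finset.range m).powerset.filter fun b => Q b ∧ ¬ Disjoint b (bits n j) := by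
      refine Finset.filter_congr fun b _ => ?_
      simp only [hQ, Finset.mem_insert, forall_eq_or_imp]
      exact and_comm
    rw [Finset.card_insert_of_notMem hj]
    have h2 : ((Finset.range m).powerset.filter fun b => ∀ j' ∈ insert j J,
        ¬ Disjoint b (bits n j')).card = ((Finset.range m).powerset.filter fun b =>
          Q b ∧ ¬ Disjoint b (bits n j)).card := by
      convert congrArg Finset.card h1
    have h3 : ((Finset.range m).powerset.filter fun b => ∀ j' ∈ J,
        ¬ Disjoint b (bits n j')).card = ((Finset.range m).powerset.filter Q).card := by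
      congr!
    rw [h3] at ih'
    have h4 : ((Finset.range m).powerset.filter fun b => ∀ j' ∈ insert j J,
        ¬ Disjoint b (bits n j')).card * 2 ^ n =
        ((Finset.range m).powerset.filter Q).card * (2 ^ n - 1) := by
      rw [h2, Nat.mul_sub, mul_one]
      set X := ((Finset.range m).powerset.filter fun b => Q b ∧ ¬ Disjoint b (bits n j)).card
      set Y := ((Finset.range m).powerset.filter fun b => Q b ∧ Disjoint b (bits n j)).card
      set Z := ((Finset.range m).powerset.filter Q).card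
      have h5 : Y + X = Z := by
        convert hsplit
      have h6 : Z = Y * 2 ^ n := by
        convert hstep
      have h7 : Z * 2 ^ n = Z + X * 2 ^ n := by
        calc Z * 2 ^ n = (Y + X) * 2 ^ n := by rw [h5]
          _ = Y * 2 ^ n + X * 2 ^ n := by ring
          _ = Z + X * 2 ^ n := by rw [← h6]
      omega
    rw [pow_succ, pow_succ]
    calc _ = ((Finset.range m).powerset.filter fun b => ∀ j' ∈ insert j J,
        ¬ Disjoint b (bits n j')).card * 2 ^ n * (2 ^ n) ^ J.card := by
          ring_nf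
          try rfl
      _ = ((Finset.range m).powerset.filter Q).card * (2 ^ n - 1) * (2 ^ n) ^ J.card := by
          rw [h4]
      _ = ((Finset.range m).powerset.filter Q).card * (2 ^ n) ^ J.card * (2 ^ n - 1) := by ring
      _ = _ := by rw [ih']; ring

end CI
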