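import Pool.Agent.CI.C.MdlStm
import Mathlib.SetTheory.Cardinal.Regular
import Mathlib.SetTheory.Cardinal.Pigeonhole

/-!
# Project CI, row M9: thinning a large family of conditions; longer Cohen stems (helper30)
-/

set_option autoImplicit false

open Set Cardinal Pool.Agent.CL

namespace CI

universe u

private theorem thin_ph {κ : Cardinal.{u}} (hκ : κ.IsRegular) {K T : Type u} (J : Set K)
    (hJ : κ ≤ #J) (f : K → T) (hT : #T < κ) :
    ∃ J' ⊆ J, κ ≤ #J' ∧ ∀ i ∈ J', ∀ j ∈ J', f i = f j := by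
  obtain ⟨a, t, ht, h1, h2⟩ := infinite_pigeonhole_set (s := J) (fun i => f i.1) κ hJ
    hκ.aleph0_le (by rw [hκ.cof_ord]; exact hT)
  exact ⟨t, ht, h1, fun i hi j hj => (h2 hi).trans (h2 hj).symm⟩

private theorem thin_opt {κ : Cardinal.{u}} (hκ : κ.IsRegular) {T : Type u} (hT : #T < κ) :
    #(Option T) < κ := by
  rw [mk_option]
  exact add_lt_of_lt hκ.aleph0_le hT (one_lt_aleph0.trans_le hκ.aleph0_le)

section

variable {K Λ L : Type u} [LinearOrder K] [LinearOrder L] (S : Sys K Λ L)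

/-- the labels agree as far as needed -/
private def thAgr (κ : Cardinal.{u}) (b : K) (c c' : Λ) : Prop :=
  (S.kd b = .tr → S.Eqv b c c') ∧
  ((S.kd b).isS → S.st b c = S.st b c' ∧ (S.cS b c).N = (S.cS b c').N) ∧
  (S.kd b = .rnd → (S.cR b c).q = (S.cR b c').q) ∧
  ((S.kd b).isS → #(CndS (S.kd b) (S.W b)) < κ → S.Eqv b c c') ∧
  (S.kd b = .rnd → #(CndR (S.W b)) < κ → S.Eqv b c c')

variable {S}

private theorem thin_dv (b : K) (c : Λ) : dv S.D b c c = ⊤ :=
  RO.eq_top_iff'.2 fun p => S.D.refl b c p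

private theorem thin_eqS {b : K} (h : (S.kd b).isS) {c c' : Λ} (e : S.cS b c = S.cS b c') :
    S.Eqv b c c' := by
  have h1 := (S.vS b h).1
  constructor
  · rw [h1, ← e, ← h1, thin_dv]
  · rw [h1, ← e, ← h1, thin_dv]

private theorem thin_eqR {b : K} (h : S.kd b = .rnd) {c c' : Λ} (e : S.cR b c = S.cR b c') :
    S.Eqv b c c' := by
  have h1 := (S.vR b h).1
  constructor
  · rw [h1, ← e, ← h1, thin_dv]
  · rw [h1, ← e, ← h1, thin_dv]

private theorem thin_map {α β : Type u} {x y : Option α} {f : α → β} (h : x.map f = y.map f)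
    {c c' : α} (hc : x = some c) (hc' : y = some c') : f c = f c' := by
  rw [hc, hc'] at h
  exact Option.some_injective _ h

private theorem thin_one {κ : Cardinal.{u}} (hκ : κ.IsRegular) (hκ0 : ℵ₀ < κ)
    (p : K → PF K Λ) (b : K) (J : Set K) (hJ : κ ≤ #J) :
    ∃ J' ⊆ J, κ ≤ #J' ∧ ∀ i ∈ J', ∀ j ∈ J', ∀ c c', (p i).f b = some c →
      (p j).f b = some c' → thAgr S κ b c c' := by
  classical
  obtain ⟨J1, s1, k1, e1⟩ := thin_ph hκ J hJ
    (fun i => (ULift.up (((p i).f b).map fun c => (S.st b c, (S.cS b c).N, (S.cR b c).q)) :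
      ULift.{u} (Option (List ℕ × ℕ × ℕ)))) (lt_of_le_of_lt mk_le_aleph0 hκ0)
  obtain ⟨J2, s2, k2, e2⟩ : ∃ J2 ⊆ J1, κ ≤ #J2 ∧ (#(CndS (S.kd b) (S.W b)) < κ →
      ∀ i ∈ J2, ∀ j ∈ J2, ((p i).f b).map (S.cS b) = ((p j).f b).map (S.cS b)) := by
    by_cases h : #(CndS (S.kd b) (S.W b)) < κ
    · obtain ⟨J2, s2, k2, e2⟩ := thin_ph hκ J1 k1 (fun i => ((p i).f b).map (S.cS b))
        (thin_opt hκ h)
      exact ⟨J2, s2, k2, fun _ => e2⟩
    · exact ⟨J1, subset_rfl, k1, fun h' => absurd h' h⟩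
  obtain ⟨J3, s3, k3, e3⟩ : ∃ J3 ⊆ J2, κ ≤ #J3 ∧ (#(CndR (S.W b)) < κ →
      ∀ i ∈ J3, ∀ j ∈ J3, ((p i).f b).map (S.cR b) = ((p j).f b).map (S.cR b)) := by
    by_cases h : #(CndR (S.W b)) < κ
    · obtain ⟨J3, s3, k3, e3⟩ := thin_ph hκ J2 k2 (fun i => ((p i).f b).map (S.cR b))
        (thin_opt hκ h)
      exact ⟨J3, s3, k3, fun _ => e3⟩
    · exact ⟨J2, subset_rfl, k2, fun h' => absurd h' h⟩
  refine ⟨J3, s3.trans (s2.trans s1), k3, ?_⟩
  intro i hi j hj c c' hc hc'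
  have h1 : (((p i).f b).map fun c => (S.st b c, (S.cS b c).N, (S.cR b c).q)) =
      (((p j).f b).map fun c => (S.st b c, (S.cS b c).N, (S.cR b c).q)) :=
    congrArg ULift.down (e1 i (s2 (s3 hi)) j (s2 (s3 hj)))
  rw [hc, hc'] at h1
  have h2 : (S.st b c, (S.cS b c).N, (S.cR b c).q) = (S.st b c', (S.cS b c').N, (S.cR b c').q) :=
    Option.some_injective _ h1
  rw [Prod.mk.injEq, Prod.mk.injEq] at h2
  refine ⟨fun h => ⟨S.vT b h _ _, S.vT b h _ _⟩, fun _ => ⟨h2.1, h2.2.1⟩, fun _ => h2.2.2,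
    fun h hk => thin_eqS h ?_, fun h hk => thin_eqR h ?_⟩
  · exact thin_map (e2 hk i (s3 hi) j (s3 hj)) hc hc'
  · exact thin_map (e3 hk i hi j hj) hc hc'

private theorem thin_all {κ : Cardinal.{u}} (hκ : κ.IsRegular) (hκ0 : ℵ₀ < κ)
    (p : K → PF K Λ) (R : Finset K) (J : Set K) (hJ : κ ≤ #J) :
    ∃ J' ⊆ J, κ ≤ #J' ∧ ∀ b ∈ R, ∀ i ∈ J', ∀ j ∈ J', ∀ c c', (p i).f b = some c →
      (p j).f b = some c' → thAgr S κ b c c' := by
  classical
  induction R using Finset.induction_on with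
  | empty => exact ⟨J, subset_rfl, hJ, fun b hb => absurd hb (Finset.notMem_empty b)⟩
  | insert a R ha ih =>
    obtain ⟨J1, s1, k1, e1⟩ := ih
    obtain ⟨J2, s2, k2, e2⟩ := thin_one (S := S) hκ hκ0 p a J1 k1
    refine ⟨J2, s2.trans s1, k2, ?_⟩
    intro b hb i hi j hj c c' hc hc'
    rcases Finset.mem_insert.1 hb with rfl | hb
    · exact e2 i hi j hj c c' hc hc'
    · exact e1 b hb i (s2 hi) j (s2 hj) c c' hc hc'

end

/-- **Row M9 (1)**: thinning a large family of conditions. -/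
theorem thinStm (h1 : DelFinStm.{u}) : ThinStm.{u} := by
  classical
  intro K Λ L _ _ S κ hκ hκ0 J p n hJ hcoh
  obtain ⟨J1, R, hc1, hR⟩ := h1 K J κ hκ hκ0 hJ (fun i => (p i.1).dom_finite.toFinset)
  have hR' : ∀ i ∈ J1, ∀ j ∈ J1, i ≠ j → (p i.1).dom ∩ (p j.1).dom = (R : Set K) := by
    intro i hi j hj hij
    have h := hR i hi j hj hij
    rwa [Set.Finite.coe_toFinset, Set.Finite.coe_toFinset] at h
  set J1' : Set K := Subtype.val '' J1 with hJ1'
  have hc2 : #J1' = κ := by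
    rw [hJ1', mk_image_eq Subtype.val_injective]
    exact hc1
  have hsub : J1' ⊆ J := by
    rintro _ ⟨i, -, rfl⟩
    exact i.2
  have hint : ∀ i ∈ J1', ∀ j ∈ J1', i ≠ j → (p i).dom ∩ (p j).dom = (R : Set K) := by
    rintro _ ⟨i, hi, rfl⟩ _ ⟨j, hj, rfl⟩ hij
    exact hR' i hi j hj fun h => hij (by rw [h])
  have hroot : ∀ i ∈ J1', (R : Set K) ⊆ (p i).dom := by
    intro i hi
    have h2 : ∃ j ∈ J1', j ≠ i := by
      by_contra hcon
      push Not at hcon
      have h3 : J1' ⊆ {i} := fun j hj => hcon j hj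
      have h4 := mk_le_mk_of_subset h3
      rw [hc2, mk_singleton] at h4
      exact absurd (one_lt_aleph0.trans hκ0) (not_lt.2 h4)
    obtain ⟨j, hj, hji⟩ := h2
    rw [← hint i hi j hj hji.symm]
    exact inter_subset_left
  -- removal of the members of the root
  have hc3 : κ ≤ #(J1' \ (R : Set K) : Set K) := by
    by_contra hcon
    rw [not_le] at hcon
    have h2 : J1' ⊆ (J1' \ (R : Set K)) ∪ (R : Set K) := fun x hx => by
      by_cases h : x ∈ (R : Set K)
      · exact Or.inr h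
      · exact Or.inl ⟨hx, h⟩
    have h3 := (mk_le_mk_of_subset h2).trans (mk_union_le _ _)
    rw [hc2] at h3
    have h4 : #((R : Set K) : Set K) < κ := lt_trans (lt_aleph0_of_finite _) hκ0
    exact absurd (add_lt_of_lt hκ.aleph0_le hcon h4) (not_lt.2 h3)
  obtain ⟨J3, s3, k3, e3⟩ := thin_ph hκ _ hc3
    (fun i => (ULift.up (((p i).f i).map fun c => S.st i c, n i) :
      ULift.{u} (Option (List ℕ) × ℕ))) (lt_of_le_of_lt mk_le_aleph0 hκ0)
  obtain ⟨J4, s4, k4, e4⟩ := thin_all (S := S) hκ hκ0 p R J3 k3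
  obtain ⟨J5, s5, k5⟩ := (le_mk_iff_exists_subset).1 k4
  have hJ5 : ∀ i ∈ J5, i ∈ J1' ∧ i ∉ (R : Set K) := fun i hi => s3 (s4 (s5 hi))
  obtain ⟨i0, hi0⟩ : J5.Nonempty := by
    rw [← Set.nonempty_coe_sort, ← mk_ne_zero_iff, k5]
    exact (lt_trans aleph0_pos hκ0).ne'
  obtain ⟨c0, hc0⟩ := PF.mem_dom.1 (hcoh i0 (hsub (hJ5 i0 hi0).1)).2
  have hst : ∀ i ∈ J5, (((p i).f i).map fun c => S.st i c) = some (S.st i0 c0) ∧ n i = n i0 := by
    intro i hi
    have h2 := congrArg ULift.down (e3 i (s4 (s5 hi)) i0 (s4 (s5 hi0)))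
    have h3 : ((((p i).f i).map fun c => S.st i c), n i) =
      ((((p i0).f i0).map fun c => S.st i0 c), n i0) := h2
    rw [Prod.mk.injEq, hc0] at h3
    exact h3
  refine ⟨J5, R, S.st i0 c0, n i0, fun i hi => hsub (hJ5 i hi).1, k5,
    fun i hi h => (hJ5 i hi).2 h, fun i hi => hroot i (hJ5 i hi).1,
    fun i hi j hj hij => (hint i (hJ5 i hi).1 j (hJ5 j hj).1 hij).subset, ?_,
    fun i hi => (hst i hi).2, ?_⟩
  · intro i hi c hc
    have h2 := (hst i hi).1
    rw [hc] at h2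
    exact Option.some_injective _ h2
  · intro b hb i hi j hj c c' hc hc'
    exact e4 b hb i (s5 hi) j (s5 hj) c c' hc hc'

/-- **Row M9 (2)**: the stem at a Cohen coordinate can be made longer at will. -/
theorem cohStm (h1 : SCmpStm.{u}) (h2 : GenStm.{u}) (h3 : EeStm.{u}) : CohStm.{u} := by
  classical
  intro K Λ L _ _ S i hi p c t hp ht
  have hS : (S.kd i).isS := by
    rw [hi]
    simp [Kd.isS]
  obtain ⟨hcmp, hsur⟩ := S.vS i hS
  have hw : ∀ N k, (S.kd i).w N k = 0 := by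
    intro N k
    rw [hi]
    rfl
  have hBad : ∀ k v, (S.kd i).Bad k v = ∅ := by
    intro k v
    rw [hi]
    rfl
  have hf : ∀ k j, (S.cS i c).f k j = ⊥ := by
    intro k j
    have h4 := (S.cS i c).wd k {j} (by rw [Finset.card_singleton, hw])
    rwa [Finset.inf_singleton] at h4
  obtain ⟨c', hc'⟩ := hsur
    { t := t
      N := 0
      f := fun _ _ => ⊥
      mem := fun _ _ => (S.ss i).bot
      wd := by
        intro k s hs
        have hne : s.Nonempty := by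
          rw [← Finset.card_pos, hs]
          exact Nat.succ_pos _
        obtain ⟨j, hj⟩ := hne
        exact eq_bot_iff.2 (Finset.inf_le hj)
      ln := by
        rw [hi]
        exact Nat.zero_le _ }
  have hst : S.st i c' = t := by
    show (S.cS i c').t = t
    rw [hc']
  have hdv : dv S.D i c' c = ⊤ := by
    rw [hcmp]
    unfold CndS.cmp
    rw [if_pos (by rw [hc']; exact ht)]
    rw [eq_top_iff]
    refine le_inf ?_ ?_
    · refine le_iInf fun k => le_iInf fun j => ?_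
      rw [hf, bot_himp]
    · refine le_iInf fun k => le_iInf fun _ => le_iInf fun j => le_iInf fun _ => ?_
      rw [hf, compl_bot]
  have hle : @LE.le (PD S.D) _ (p.upd i c') p := by
    intro b d hb
    by_cases hbi : b = i
    · subst hbi
      rw [hp] at hb
      obtain rfl := Option.some_injective _ hb
      refine ⟨c', PF.upd_f_same _ _ _, ?_⟩
      have h4 : (p.upd b c').res (Iio b) ∈ (dv S.D b c' c).S := by
        rw [hdv]
        trivial
      exact h4
    · exact ⟨d, by rw [PF.upd_f_ne hbi]; exact hb, S.D.refl _ _ _⟩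
  refine ⟨c', hst, ee_mono hle, fun k hk => ?_⟩
  obtain ⟨-, -, -, e4, -⟩ := h3 K Λ S.D
  obtain ⟨-, -, g3, -⟩ := h2 K Λ L S i hS
  have h5 := g3 c' k (by rw [hst]; exact hk)
  rw [hst] at h5
  exact (e4 _ i c' (PF.upd_f_same _ _ _)).trans h5

end CI
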