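import Pool.Agent.CI.C.ItrStm

/-!
# Project CI, core, row T1: amalgamation over sets closed under memory, the algebra of cylinders
-/

set_option autoImplicit false

open Set Cardinal Pool.Agent.CL

namespace CI

universe u

section

variable {K Λ : Type u} [LinearOrder K] {D : Dat K Λ} {Z : Set K}

/-- the restriction of the amalgamation -/
theorem tra_ov_res {r p : PF K Λ} (hr : r.dom ⊆ Z) (h : @LE.le (PD D) _ r (p.res Z)) :
    (r.ov p).res Z = r := by
  rw [PF.ov_res, PF.res_eq_self hr]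
  ext b c
  by_cases hb : b ∈ r.dom
  · obtain ⟨d, hd⟩ := PF.mem_dom.1 hb
    rw [PF.ov_f_some hd, hd]
  · have h1 := PF.notMem_dom.1 hb
    rw [PF.ov_f_none h1, h1]
    constructor
    · intro h2
      obtain ⟨c', hc', -⟩ := h b c h2
      rw [h1] at hc'
      exact absurd hc' (by simp)
    · intro h2
      exact absurd h2 (by simp)

theorem tra_ov_left (r p : PF K Λ) : @LE.le (PD D) _ (r.ov p) r := fun _ c hb =>
  ⟨c, PF.ov_f_some hb, D.refl _ _ _⟩

theorem tra_ov_right (hZ : Tr D Z) {r p : PF K Λ} (hr : r.dom ⊆ Z)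
    (h : @LE.le (PD D) _ r (p.res Z)) : @LE.le (PD D) _ (r.ov p) p := by
  intro b c hb
  by_cases hbZ : b ∈ Z
  · obtain ⟨c', hc', hm⟩ := h b c (PF.res_f_eq_some.2 ⟨hbZ, hb⟩)
    refine ⟨c', PF.ov_f_some hc', ?_⟩
    have h1 : r ∈ (dv D b c' c).S := mem_dv_res.1 hm
    have h2 : (r.ov p) ∈ (dv D b c' c).S := by
      rw [hZ b hbZ c' c (r.ov p), tra_ov_res hr h]
      exact h1
    exact mem_dv_res.2 h2
  · have h1 : r.f b = none := PF.notMem_dom.1 fun h2 => hbZ (hr h2)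
    exact ⟨c, by rw [PF.ov_f_none h1]; exact hb, D.refl _ _ _⟩

theorem tra_res_mono (hZ : Tr D Z) {p q : PF K Λ} (h : @LE.le (PD D) _ p q) :
    @LE.le (PD D) _ (p.res Z) (q.res Z) := by
  intro b c hb
  obtain ⟨hbZ, hq⟩ := PF.res_f_eq_some.1 hb
  obtain ⟨c', hc', hm⟩ := h b c hq
  refine ⟨c', PF.res_f_eq_some.2 ⟨hbZ, hc'⟩, ?_⟩
  have h1 : p ∈ (dv D b c' c).S := mem_dv_res.1 hm
  exact mem_dv_res.2 ((hZ b hbZ c' c p).1 h1)

end

/-- amalgamation over a set closed under memory -/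
theorem trStm : TrStm.{u} := fun _ _ _ _ _ hZ =>
  ⟨fun r p hr h => ⟨tra_ov_left r p, tra_ov_right hZ hr h⟩, fun _ _ h => tra_res_mono hZ h⟩

/-- cylinders form a complete subalgebra -/
theorem sZStm (h : TrStm.{u}) : SZStm.{u} := by
  intro K Λ _ D Z hZ
  obtain ⟨hov, hmono⟩ := h K Λ D Z hZ
  have hrr : ∀ p : PF K Λ, (p.res Z).res Z = p.res Z := fun p => by
    rw [PF.res_res, inter_self]
  have hdom : ∀ p : PF K Λ, (p.res Z).dom ⊆ Z := fun p => PF.dom_res_subset p Z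
  -- an extension of `p.res Z`, restricted and amalgamated with `p`
  have key : ∀ r p : PF K Λ, @LE.le (PD D) _ r (p.res Z) →
      @LE.le (PD D) _ (r.res Z) (p.res Z) := fun r p hr => by
    have h1 := hmono r (p.res Z) hr
    rwa [hrr] at h1
  have down : ∀ (U : BB D) {p q : PF K Λ}, p ∈ U.S → @LE.le (PD D) _ q p → q ∈ U.S :=
    fun U p q hp hq => U.isReg.down (Q := PD D) hp hq
  have hcompl : ∀ U ∈ SZ D Z, Uᶜ ∈ SZ D Z := by
    intro U hU p
    constructor
    · intro hp r hr hrU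
      have h1 : (PF.res r Z) ∈ U.S := (hU r).1 hrU
      obtain ⟨h2, h3⟩ := hov (PF.res r Z) p (hdom r) (key r p hr)
      exact hp _ h3 (down U h1 h2)
    · intro hp
      exact down Uᶜ hp (le_res p Z)
  have hsup : ∀ s : Set (BB D), s ⊆ SZ D Z → sSup s ∈ SZ D Z := by
    intro s hs p
    have hmem : ∀ q : PF K Λ, q ∈ (sSup s).S ↔ ∀ r : PF K Λ, @LE.le (PD D) _ r q →
        ∃ t : PF K Λ, @LE.le (PD D) _ t r ∧ ∃ U ∈ s, t ∈ U.S := by
      intro q
      change q ∈ reg (⋃ a ∈ s, a.S) ↔ _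
      constructor
      · intro h1 r hr
        obtain ⟨t, ht, htm⟩ := h1 r hr
        obtain ⟨U, hU, htU⟩ := mem_iUnion₂.1 htm
        exact ⟨t, ht, U, hU, htU⟩
      · intro h1 r hr
        obtain ⟨t, ht, U, hU, htU⟩ := h1 r hr
        exact ⟨t, ht, mem_iUnion₂.2 ⟨U, hU, htU⟩⟩
    constructor
    · intro hp
      rw [hmem] at hp ⊢
      intro q hq
      obtain ⟨h2, h3⟩ := hov (PF.res q Z) p (hdom q) (key q p hq)
      obtain ⟨t, ht, U, hU, htU⟩ := hp _ h3
      have h4 : (PF.res t Z) ∈ U.S := (hs hU t).1 htU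
      have h5 : @LE.le (PD D) _ (PF.res t Z) (PF.res q Z) :=
        key t q (le_trans (α := PD D) ht h2)
      obtain ⟨h6, h7⟩ := hov (PF.res t Z) q (hdom t) h5
      exact ⟨_, h7, U, hU, down U h4 h6⟩
    · intro hp
      exact down (sSup s) hp (le_res p Z)
  refine ⟨⟨hcompl, hsup⟩, ?_, ?_, ?_, ?_, ?_⟩
  · intro p hp q
    constructor
    · intro hq
      rw [ee_mem_iff] at hq ⊢
      intro r hr
      obtain ⟨h2, h3⟩ := hov (PF.res r Z) q (hdom r) (key r q hr)
      obtain ⟨s, hs, hsp⟩ := hq _ h3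
      have h4 : @LE.le (PD D) _ (PF.res s Z) (PF.res r Z) :=
        key s r (le_trans (α := PD D) hs h2)
      obtain ⟨h5, h6⟩ := hov (PF.res s Z) r (hdom s) h4
      have h7 : @LE.le (PD D) _ (PF.res s Z) p := by
        have h8 := hmono s p hsp
        rwa [PF.res_eq_self hp] at h8
      exact ⟨_, h6, le_trans (α := PD D) h5 h7⟩
    · intro hq
      exact down (ee D p) hq (le_res q Z)
  · intro U hU p
    rw [ee_le_iff, ee_le_iff]
    exact hU p
  · intro U hU hU0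
    obtain ⟨p, hp⟩ := exists_ee_le hU0
    refine ⟨p.res Z, hdom p, ?_⟩
    rw [ee_le_iff] at hp ⊢
    exact (hU p).1 hp
  · intro U hU hU0 p hp hbot
    obtain ⟨q, hq⟩ := exists_ee_le hU0
    have hq1 : PF.res q Z ∈ U.S := (hU q).1 (ee_le_iff.1 hq)
    have hnil : p.res Z = PF.nil := by
      ext b c
      rw [PF.res_f_eq_some]
      constructor
      · rintro ⟨h1, h2⟩
        exact absurd h1 (Set.disjoint_left.1 hp (PF.mem_dom.2 ⟨c, h2⟩))
      · intro h1
        rw [PF.nil_f] at h1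
        exact absurd h1 (by simp)
    have h1 : @LE.le (PD D) _ (PF.res q Z) (p.res Z) := by
      rw [hnil]
      exact le_nil _
    obtain ⟨h2, h3⟩ := hov (PF.res q Z) p (hdom q) h1
    have h4 : ee D ((PF.res q Z).ov p) ≤ U ⊓ ee D p :=
      le_inf (ee_le_iff.2 (down U hq1 h2)) (ee_mono h3)
    rw [hbot, le_bot_iff] at h4
    exact ee_ne_bot _ h4
  · intro U _ p q hq hqU hle
    obtain ⟨h2, h3⟩ := hov q p hq hle
    exact le_inf (ee_le_iff.2 (down U (ee_le_iff.1 hqU) h2)) (ee_mono h3)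

end CI
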