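import Pool.Agent.CI.C.LowStm

/-!
# Project CI, core: all upper bounds
-/

set_option autoImplicit false

open Set Cardinal Pool.Agent.CL

namespace CI

universe u

/-- the constant function with value zero -/
def uppZ (B : Type u) [CompleteBooleanAlgebra B] : Fu B where
  f := fun _ k => if k = 0 then ⊤ else ⊥
  disj := by
    intro n k k' h
    by_cases h1 : k = 0
    · by_cases h2 : k' = 0
      · exact absurd (h1.trans h2.symm) h
      · simp [h2]
    · simp [h1]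
  top := by
    intro n
    refine le_antisymm le_top ?_
    exact le_iSup_of_le 0 (by simp)

/-- a set of `κ` elements has an element outside each set of less than `κ` elements -/
theorem upp_out {K : Type u} {I E : Set K} (h : #E < #I) : ∃ i ∈ I, i ∉ E := by
  by_contra hc
  push Not at hc
  exact absurd (mk_le_mk_of_subset hc) (not_le.2 h)

/-- a small union of small sets -/
theorem upp_union {K I : Type u} (E : I → Set K) (a b : Cardinal.{u}) (hb : ℵ₀ ≤ b) (hI : #I < b)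
    (hab : a < b) (h : ∀ i, #(E i) < a) : #(⋃ i, E i : Set K) < b := by
  refine lt_of_le_of_lt (mk_iUnion_le E) ?_
  refine lt_of_le_of_lt (mul_le_mul_right (ciSup_le' fun i => (h i).le) _) ?_
  exact mul_lt_of_lt hb hI hab

theorem uppStm (h1 : A1Stm.{u}) (h2 : A2Stm.{u}) (h3 : A3Stm.{u}) (h4 : A4Stm.{u})
    (h5 : NulExStm.{u}) (h6 : GenStm.{u}) : UppStm.{u} := by
  intro l th m hC
  let _ := m.iK
  let _ := m.iL
  let _ := m.wK
  classical
  have hS : ∀ i, m.S.kd i = .coh → (m.S.kd i).isS := by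
    intro i hi
    exact Or.inl hi
  obtain ⟨cf, hcf⟩ : ∃ cf : m.K → Fu (BB m.S.D), ∀ i, m.S.kd i = .coh → m.S.IsCf i (cf i) := by
    refine ⟨fun i => if h : m.S.kd i = .coh then
      ⟨m.S.gen i, (h6 m.K m.Λ m.L m.S i (hS i h)).1, (h6 m.K m.Λ m.L m.S i (hS i h)).2.1⟩
      else uppZ _, fun i hi => ?_⟩
    intro k v
    show (dite (m.S.kd i = .coh) _ _ : Fu (BB m.S.D)).f k v = _
    rw [dif_pos hi]
  choose N1 hN1 using fun i => (h5 (BB m.S.D) (cf i)).2
  choose N3 hN3 using fun i => (h5 (BB m.S.D) (cf i)).1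
  have hb1 := h1 l th m hC cf N1 fun i hi => ⟨hcf i hi, hN1 i⟩
  have hb2 := h2 l th m hC cf hcf
  have hb3 := h3 l th m hC cf N3 fun i hi => ⟨hcf i hi, hN3 i⟩
  have hb4 := h4 l th m hC
  have hl7 : ℵ₀ ≤ l 7 := by
    have := hC.lt 0 7 (by decide)
    rw [hC.zero] at this
    exact aleph0_lt_aleph_one.le.trans this.le
  have hset : ∀ j : Fin 8, ∃ I : Set m.K, #I = l j ∧ ∀ i ∈ I, m.S.kd i = .coh := by
    intro j
    have hj : l j ≤ #{i | m.S.kd i = .coh} := by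
      refine le_trans ?_ m.f5
      rcases eq_or_lt_of_le (Fin.le_last j) with h | h
      · exact le_of_eq (congrArg l h)
      · exact (hC.lt j 7 h).le
    obtain ⟨I, hI, hI2⟩ := (Cardinal.le_mk_iff_exists_subset).1 hj
    exact ⟨I, hI2, fun i hi => hI hi⟩
  have hout : ∀ (j : Fin 8), ∀ I : Set m.K, #I = l j → (∀ i ∈ I, m.S.kd i = .coh) →
      ∀ P : m.K → Prop, #{i | m.S.kd i = .coh ∧ ¬ P i} < l j → ∃ i : I, P i := by
    intro j I hI hco P hP
    rw [← hI] at hP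
    obtain ⟨i, hi, hi2⟩ := upp_out hP
    refine ⟨⟨i, hi⟩, ?_⟩
    by_contra hc
    exact hi2 ⟨hco i hi, hc⟩
  have hout2 : ∀ (j : Fin 8), j < 7 → ∀ (I : Type u), #I < l 7 →
      ∀ P : I → m.K → Prop, (∀ a, #{i | m.S.kd i = .coh ∧ ¬ P a i} < l j) →
        ∃ i, m.S.kd i = .coh ∧ ∀ a, P a i := by
    intro j hj I hI P hP
    have h7 := upp_union (fun a => {i | m.S.kd i = .coh ∧ ¬ P a i}) (l j) (l 7) hl7 hI
      (hC.lt j 7 hj) hP
    obtain ⟨i, hi, hi2⟩ := upp_out (lt_of_lt_of_le h7 m.f5)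
    refine ⟨i, hi, fun a => ?_⟩
    by_contra hc
    exact hi2 (mem_iUnion.2 ⟨a, hi, hc⟩)
  refine ⟨?_, ?_, ?_, ?_, ?_, ?_, ?_⟩
  · obtain ⟨I, hI, hco⟩ := hset 1
    refine ⟨I, fun i => N1 i, hI, fun d => ?_⟩
    obtain ⟨i, hi⟩ := hout 1 I hI hco (fun i => (⨅ x, (N1 i).mem x ⇨ d.mem x) = ⊥) (hb1 d)
    exact le_bot_iff.1 ((iInf_le _ i).trans hi.le)
  · obtain ⟨I, hI, hco⟩ := hset 2
    refine ⟨I, fun i => cf i, hI, fun g => ?_⟩
    obtain ⟨i, hi⟩ := hout 2 I hI hco (fun i => (cf i).le g = ⊥) (hb2 g)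
    exact le_bot_iff.1 ((iInf_le _ i).trans hi.le)
  · obtain ⟨I, hI, hco⟩ := hset 3
    refine ⟨I, fun i => N3 i, hI, fun x => ?_⟩
    obtain ⟨i, hi⟩ := hout 3 I hI hco (fun i => (N3 i).mem x = ⊤) (hb3 x)
    exact top_le_iff.1 (hi.ge.trans (le_iSup (fun i : I => (N3 i).mem x) i))
  · obtain ⟨I, hI, hco⟩ := hset 4
    refine ⟨I, fun i => m.S.crl i, hI, fun F hF => ?_⟩
    obtain ⟨i, hi⟩ := hout 4 I hI hco (fun i => (⨆ n, (F n).mem (m.S.crl i)) = ⊥) (hb4 F hF)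
    exact le_bot_iff.1 ((iInf_le _ i).trans hi.le)
  · intro I hI F hF
    obtain ⟨i, hi, hi2⟩ := hout2 4 (by decide) I hI
      (fun a i => (⨆ n, (F a n).mem (m.S.crl i)) = ⊥) (fun a => hb4 (F a) (hF a))
    refine ⟨m.S.crl i, fun a n => ?_⟩
    exact le_bot_iff.1 ((le_iSup (fun n => (F a n).mem (m.S.crl i)) n).trans (hi2 a).le)
  · intro I hI x
    obtain ⟨i, hi, hi2⟩ := hout2 3 (by decide) I hI
      (fun a i => (N3 i).mem (x a) = ⊤) (fun a => hb3 (x a))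
    exact ⟨N3 i, hi2⟩
  · intro I hI g
    obtain ⟨i, hi, hi2⟩ := hout2 2 (by decide) I hI
      (fun a i => (cf i).le (g a) = ⊥) (fun a => hb2 (g a))
    exact ⟨cf i, hi2⟩

end CI
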