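import Pool.Agent.CI.C.A1
import Pool.Agent.CI.C.A2
import Pool.Agent.CI.C.A3
import Pool.Agent.CI.C.AFcc
import Pool.Agent.CI.C.Am
import Pool.Agent.CI.C.Avg
import Pool.Agent.CI.C.Bair
import Pool.Agent.CI.C.Clo
import Pool.Agent.CI.C.Cmp
import Pool.Agent.CI.C.CoreF
import Pool.Agent.CI.C.Cov
import Pool.Agent.CI.C.Crd
import Pool.Agent.CI.C.Csr
import Pool.Agent.CI.C.DecA
import Pool.Agent.CI.C.DelCtb
import Pool.Agent.CI.C.DelFin
import Pool.Agent.CI.C.EeA
import Pool.Agent.CI.C.EvEt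
import Pool.Agent.CI.C.Ext
import Pool.Agent.CI.C.Gen
import Pool.Agent.CI.C.Hech
import Pool.Agent.CI.C.IAA
import Pool.Agent.CI.C.IBA
import Pool.Agent.CI.C.LayA
import Pool.Agent.CI.C.Lf
import Pool.Agent.CI.C.Lim
import Pool.Agent.CI.C.Lim2
import Pool.Agent.CI.C.Lim4
import Pool.Agent.CI.C.LimH
import Pool.Agent.CI.C.LocB
import Pool.Agent.CI.C.LowF
import Pool.Agent.CI.C.Mdl
import Pool.Agent.CI.C.MemA
import Pool.Agent.CI.C.Mrg
import Pool.Agent.CI.C.NulEx
import Pool.Agent.CI.C.PosE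
import Pool.Agent.CI.C.PosR
import Pool.Agent.CI.C.RAdd
import Pool.Agent.CI.C.RAmalg
import Pool.Agent.CI.C.RAvoid
import Pool.Agent.CI.C.RCut
import Pool.Agent.CI.C.RDens
import Pool.Agent.CI.C.RGen
import Pool.Agent.CI.C.ROpn
import Pool.Agent.CI.C.RS
import Pool.Agent.CI.C.Reb
import Pool.Agent.CI.C.Sik
import Pool.Agent.CI.C.Succ
import Pool.Agent.CI.C.Succ0
import Pool.Agent.CI.C.SuccE
import Pool.Agent.CI.C.SuccHi
import Pool.Agent.CI.C.SuccR
import Pool.Agent.CI.C.Supp
import Pool.Agent.CI.C.TZA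
import Pool.Agent.CI.C.Thin
import Pool.Agent.CI.C.TrA
import Pool.Agent.CI.C.UPr
import Pool.Agent.CI.C.UppF

/-!
# Project CI, core: assembly of all parts
-/

set_option autoImplicit false

namespace CI

namespace All

theorem kw : KwStm := kwStm
theorem rs : RSStm.{0} := rsStm
theorem csr : CsrStm.{0} := csrStm sikStm
theorem scmp : SCmpStm.{0} := sCmpStm
theorem rcmp : RCmpStm.{0} := rCmpStm
theorem smrg : SMrgStm.{0} := sMrgStm kw
theorem sone : SOneStm.{0} := sOneStm
theorem sext : SExtStm.{0} := sExtStm kw sone scmp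
theorem rcut : RCutStm.{0} := rCutStm
theorem rnul : RNulStm.{0} := rNulStm
theorem ravoid : RAvoidStm.{0} := rAvoidStm rs
theorem radd : RAddStm.{0} := rAddStm rs
theorem ramalg : RAmalgStm.{0} := rAmalgStm rs
theorem rdens : RDensStm.{0} := rDensStm rs
theorem rtwo : RTwoStm.{0} := rTwoStm rs
theorem ropn : ROpnStm.{0} := rOpnStm
theorem tr : TrStm.{0} := trStm
theorem sz : SZStm.{0} := sZStm tr
theorem up : UPStm.{0} := uPStm tr sz
theorem ee0 : EeStm.{0} := eeStm
theorem iic : IicStm.{0} := iicStm tr sz ee0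
theorem ib : IBStm.{0} := iBStm
theorem ia : IAStm.{0} := iAStm
theorem af : AFStm.{0} := aFStm
theorem tz : TZStm.{0} := tZStm tr
theorem dec2 : Dec2Stm.{0} := dec2Stm ib ia af
theorem dec : DecStm.{0} := decStm tr sz ib ia tz af
theorem afcc : AFccStm.{0} := aFccStm delCtbStm
theorem zl : ZlStm.{0} := zlStm scmp rcmp
theorem laycld : LayCldStm.{0} := layCldStm tr sz zl dec
theorem mem : MemStm.{0} := memStm cloStm afcc laycld ia
theorem layer : LayerStm.{0} := layerStm tr sz zl
theorem base : BaseStm.{0} := baseStm ib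
theorem long : LongStm.{0} := longStm sext
theorem gen : GenStm.{0} := genStm scmp long sz zl ee0 tr
theorem reb : RebStm.{0} := rebStm rcut rnul sz ee0 tr
theorem succ0 : Succ0Stm.{0} := succ0Stm tr sz ee0 iic ib ia tz zl
theorem succHi : SuccHiStm.{0} := succHiStm tr sz ee0 up ib ia tz zl
theorem succE : SuccEStm.{0} := succEStm tr sz ee0 iic ib ia tz zl gen long scmp
theorem succR : SuccRStm.{0} := succRStm tr sz ee0 iic ib ia tz zl reb rnul
theorem succ1 : SuccStm.{0} :=
  succStm csr succ0 succHi succE succR tr sz ib ia tz zl layer ee0 rnul gen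
theorem limH : LimHStm.{0} := limHStm tr sz ee0 up ib ia tz zl smrg
theorem lim : LimStm.{0} := limStm csr limH tr sz ib ia tz zl layer ee0 rnul
theorem ccc : CccStm.{0} :=
  cccStm tr sz ee0 sext smrg scmp rcmp rdens rtwo delFinStm zl
theorem am : AmStm.{0} := amStm tr sz ee0 smrg scmp rcmp ramalg zl
theorem mdl : MdlStm.{0} :=
  mdlStm scmp rcmp sz zl mem laycld ccc layer base succ1 lim
theorem nulEx : NulExStm.{0} := nulExStm
theorem bair : BairStm.{0} := bairStm
theorem supp : SuppStm.{0} := suppStm rs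
theorem root : RootStm.{0} := rootStm
theorem posE : PosEStm.{0} := posEStm ib ia af gen ee0
theorem plain : PlainStm.{0} := plainStm scmp smrg gen ee0
theorem posR : PosRStm.{0} := posRStm tr sz ee0 ib ia tz af dec2 reb rnul ravoid radd
theorem avg : AvgStm.{0} := avgStm scmp smrg gen ee0 sz zl
theorem tail : TailStm.{0} := tailStm
theorem evBot : EvBotStm.{0} := evBotStm ib
theorem lim2 : Lim2Stm.{0} := lim2Stm tail evBot root posE posR plain ee0 ia ib tz
theorem lim4 : Lim4Stm.{0} := lim4Stm tail evBot root posE avg ee0 ia ib tz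
theorem thin : ThinStm.{0} := thinStm delFinStm
theorem coh : CohStm.{0} := cohStm scmp gen ee0
theorem a1 : A1Stm.{0} := a1Stm thin coh am ccc gen supp bair cntStm
theorem a2 : A2Stm.{0} := a2Stm thin coh lim2 evBot ccc gen
theorem a3 : A3Stm.{0} := a3Stm thin coh am ccc gen
theorem hech : HechStm.{0} := hechStm scmp smrg gen ee0 sz
theorem edIn : EdInStm.{0} := edInStm scmp smrg gen ee0 sz
theorem evNul : EvNulStm.{0} := evNulStm scmp sone gen long ee0 sz
theorem etNwd : EtNwdStm.{0} := etNwdStm scmp sone gen long ee0 sz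
theorem rgen : RGenStm.{0} := rGenStm rcut rnul reb sz ee0 tr rs
theorem rnd : RndStm.{0} := rndStm rgen ropn sz ee0
theorem cov : CovStm.{0} := covStm tr sz coh ee0 gen
theorem locGen : LocGenStm.{0} := locGenStm scmp smrg gen long ee0 sz tr

end All

open All in
/-- the core statement from the last two parts -/
theorem coreAll (hA4 : A4Stm.{0}) (hLoc : LocCodeStm.{0}) : CoreStatement :=
  core_of crdStm mdl
    (lowStm (locStm hLoc locNulStm locGen gen) hech rnd cloExStm edIn evNul etNwd cov gen)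
    (uppStm a1 a2 a3 hA4 nulEx gen) ccc

end CI
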