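import Pool.Agent.CI.C.ItrStm

/-!
# Project CI, core: cylinders in the target
-/

set_option autoImplicit false

open Set Cardinal Pool.Agent.CL

namespace CI

universe u

section

variable {K Λ Θ : Type u} [LinearOrder K] {D : Dat K Λ}

private theorem tza_le {a a' : AF K Θ} {p r : PF K Λ} (h1 : a' ≤ a)
    (h2 : @LE.le (PD D) _ r p) :
    @LE.le (AF K Θ × PD D) _ ((a', r) : AF K Θ × PD D) ((a, p) : AF K Θ × PD D) := ⟨h1, h2⟩

private theorem tza_compl (h1 : TrStm.{u}) {Z : Set K} (hZ : Tr D Z) {U : TT D Θ}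
    (hU : U ∈ TZ D Θ Z) : Uᶜ ∈ TZ D Θ Z := by
  intro a p
  constructor
  · intro h x hx hxU
    obtain ⟨a', r⟩ := x
    have hr : @LE.le (PD D) _ r (p.res Z) := hx.2
    have hr1 : @LE.le (PD D) _ (PF.res r Z) (p.res Z) := by
      have h2 := (h1 K Λ D Z hZ).2 r (p.res Z) hr
      rwa [PF.res_res, inter_self] at h2
    have h3 := (h1 K Λ D Z hZ).1 (PF.res r Z) p (PF.dom_res_subset r Z) hr1
    have h4 : ((a', PF.res r Z) : AF K Θ × PD D) ∈ U.S := (hU a' r).1 hxU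
    have h5 : ((a', (PF.res r Z).ov p) : AF K Θ × PD D) ∈ U.S :=
      U.isReg.down h4 (tza_le le_rfl h3.1)
    exact h (a', (PF.res r Z).ov p) (tza_le hx.1 h3.2) h5
  · intro h x hx hxU
    obtain ⟨a', r⟩ := x
    have hr : @LE.le (PD D) _ r p := hx.2
    have h2 := (h1 K Λ D Z hZ).2 r p hr
    exact h (a', PF.res r Z) (tza_le hx.1 h2) ((hU a' r).1 hxU)

private theorem tza_iInf {Z : Set K} {ι : Sort*} {f : ι → TT D Θ} (hf : ∀ i, f i ∈ TZ D Θ Z) :
    (⨅ i, f i) ∈ TZ D Θ Z := by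
  intro a p
  constructor
  · intro h
    exact (RO.mem_iInf (Q := AF K Θ × PD D)).2 fun i =>
      (hf i a p).1 ((RO.mem_iInf (Q := AF K Θ × PD D)).1 h i)
  · intro h
    exact (RO.mem_iInf (Q := AF K Θ × PD D)).2 fun i =>
      (hf i a p).2 ((RO.mem_iInf (Q := AF K Θ × PD D)).1 h i)

end

/-- cylinders in the target -/
theorem tZStm (h1 : TrStm.{u}) : TZStm.{u} := by
  intro K Λ Θ _ D Z hZ
  refine ⟨⟨fun U hU => tza_compl h1 hZ hU, fun s hs => ?_⟩, ?_, ?_, ?_⟩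
  · have h2 : sSup s = (⨅ U : s, (U : TT D Θ)ᶜ)ᶜ := by
      rw [compl_iInf, sSup_eq_iSup']
      exact iSup_congr fun U => (compl_compl _).symm
    rw [h2]
    exact tza_compl h1 hZ (tza_iInf fun U => tza_compl h1 hZ (hs U.2))
  · intro Z' hZZ U hU a p
    rw [hU a p, hU a (p.res Z'), PF.res_res, inter_eq_self_of_subset_right hZZ]
  · intro t ht a p
    unfold iAP
    rw [RO.pt_le_iff, RO.pt_le_iff]
    exact ht a p
  · intro t ht hne
    obtain ⟨⟨a, p⟩, hp⟩ := RO.exists_pt_le hne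
    refine ⟨a, PF.res p Z, PF.dom_res_subset p Z, ?_⟩
    unfold iAP
    rw [RO.pt_le_iff]
    exact (ht a p).1 ((RO.pt_le_iff (Q := AF K Θ × PD D)).1 hp)

end CI
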