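import Pool.Agent.CI.C.Sik
import Pool.Agent.CI.C.Csr
import Pool.Agent.CI.C.RS
import Pool.Agent.CI.C.DelFin
import Pool.Agent.CI.C.DelCtb
import Pool.Agent.CI.C.Clo
import Pool.Agent.CI.C.Crd
import Pool.Agent.CI.C.Cmp
import Pool.Agent.CI.C.Mrg
import Pool.Agent.CI.C.Ext
import Pool.Agent.CI.C.RCut
import Pool.Agent.CI.C.RAvoid
import Pool.Agent.CI.C.RAdd
import Pool.Agent.CI.C.RAmalg
import Pool.Agent.CI.C.RDens
import Pool.Agent.CI.C.ROpn
import Pool.Agent.CI.C.TrA
import Pool.Agent.CI.C.UPr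
import Pool.Agent.CI.C.EeA
import Pool.Agent.CI.C.IBA
import Pool.Agent.CI.C.IAA
import Pool.Agent.CI.C.TZA
import Pool.Agent.CI.C.DecA
import Pool.Agent.CI.C.AFcc
import Pool.Agent.CI.C.MemA
import Pool.Agent.CI.C.LayA
import Pool.Agent.CI.C.Gen
import Pool.Agent.CI.C.Reb
import Pool.Agent.CI.C.Succ0
import Pool.Agent.CI.C.SuccHi
import Pool.Agent.CI.C.SuccE
import Pool.Agent.CI.C.SuccR
import Pool.Agent.CI.C.Succ
import Pool.Agent.CI.C.LimH
import Pool.Agent.CI.C.Lim
import Pool.Agent.CI.C.Lf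
import Pool.Agent.CI.C.Am

/-!
# Project CI, core: the basic statements, all proved
-/

set_option autoImplicit false

namespace CI

namespace F

universe u

theorem sik : SikStm.{u} := sikStm
theorem csr : CsrStm.{u} := csrStm sik
theorem rs : RSStm.{u} := rsStm
theorem delFin : DelFinStm.{u} := delFinStm
theorem delCtb : DelCtbStm.{u} := delCtbStm
theorem clo : CloStm.{u} := cloStm
theorem crd : CrdStm.{u} := crdStm
theorem kw : KwStm := kwStm
theorem sCmp : SCmpStm.{u} := sCmpStm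
theorem rCmp : RCmpStm.{u} := rCmpStm
theorem sMrg : SMrgStm.{u} := sMrgStm kw
theorem sOne : SOneStm.{u} := sOneStm
theorem sTriv : STrivStm.{u} := sTrivStm kw
theorem sExt : SExtStm.{u} := sExtStm kw sOne sCmp
theorem rCut : RCutStm.{u} := rCutStm
theorem rNul : RNulStm.{u} := rNulStm
theorem rAvoid : RAvoidStm.{u} := rAvoidStm rs
theorem rAdd : RAddStm.{u} := rAddStm rs
theorem rAmalg : RAmalgStm.{u} := rAmalgStm rs
theorem rDens : RDensStm.{u} := rDensStm rs
theorem rTwo : RTwoStm.{u} := rTwoStm rs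
theorem rOpn : ROpnStm.{u} := rOpnStm
theorem tr : TrStm.{u} := trStm
theorem sZ : SZStm.{u} := sZStm tr
theorem uP : UPStm.{u} := uPStm tr sZ
theorem ee : EeStm.{u} := eeStm
theorem iic : IicStm.{u} := iicStm tr sZ ee
theorem iB : IBStm.{u} := iBStm
theorem iA : IAStm.{u} := iAStm
theorem aF : AFStm.{u} := aFStm
theorem tZ : TZStm.{u} := tZStm tr
theorem dec2 : Dec2Stm.{u} := dec2Stm iB iA aF
theorem dec : DecStm.{u} := decStm tr sZ iB iA tZ aF
theorem aFcc : AFccStm.{u} := aFccStm delCtb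
theorem zl : ZlStm.{u} := zlStm sCmp rCmp
theorem layCld : LayCldStm.{u} := layCldStm tr sZ zl dec
theorem mem : MemStm.{u} := memStm clo aFcc layCld iA
theorem layer : LayerStm.{u} := layerStm tr sZ zl
theorem base : BaseStm.{u} := baseStm iB
theorem long : LongStm.{u} := longStm sExt
theorem gen : GenStm.{u} := genStm sCmp long sZ zl ee tr
theorem reb : RebStm.{u} := rebStm rCut rNul sZ ee tr
theorem succ0 : Succ0Stm.{u} := succ0Stm tr sZ ee iic iB iA tZ zl
theorem succHi : SuccHiStm.{u} := succHiStm tr sZ ee uP iB iA tZ zl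
theorem succE : SuccEStm.{u} := succEStm tr sZ ee iic iB iA tZ zl gen long sCmp
theorem succR : SuccRStm.{u} := succRStm tr sZ ee iic iB iA tZ zl reb rNul
theorem succ : SuccStm.{u} :=
  succStm csr succ0 succHi succE succR tr sZ iB iA tZ zl layer ee rNul gen
theorem limH : LimHStm.{u} := limHStm tr sZ ee uP iB iA tZ zl sMrg
theorem lim : LimStm.{u} := limStm csr limH tr sZ iB iA tZ zl layer ee rNul
theorem ccc : CccStm.{u} := cccStm tr sZ ee sExt sMrg sCmp rCmp rDens rTwo delFin zl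
theorem am : AmStm.{u} := amStm tr sZ ee sMrg sCmp rCmp rAmalg zl

end F

end CI
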