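import Pool.Agent.CI.C.EvEtA

/-!
# Project CI, core: smallness of the closed sets of the eventually different reals (row L5)
-/

set_option autoImplicit false

open Set Cardinal Pool.Agent.CL

namespace CI

universe u

theorem evt_ne {B : Type u} [CompleteBooleanAlgebra B] (κ : Kd) (W : Set B) (h : IsSS W) :
    Nonempty (CndS κ W) :=
  ⟨{ t := []
     N := 0
     f := fun _ _ => ⊥
     mem := fun _ _ => h.bot
     wd := fun k s hs => by
       have h1 : s.Nonempty := Finset.card_pos.1 (by omega)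
       obtain ⟨j, hj⟩ := h1
       exact le_bot_iff.1 (Finset.inf_le hj)
     ln := by cases κ <;> simp [Kd.len] }⟩

section

variable {K Λ L : Type u} [LinearOrder K] [LinearOrder L] (S : Sys K Λ L) (b : K)

/-- a density argument at the coordinate `b` -/
theorem evt_dens (h5 : EeStm.{u}) (h6 : SZStm.{u}) (hs : (S.kd b).isS) (Y : BB S.D)
    (H : ∀ U ∈ SZ S.D (Iio b), U ≠ ⊥ → ∀ c, ∃ V ∈ SZ S.D (Iio b), V ≠ ⊥ ∧ V ≤ U ∧
      ∃ c', V ≤ dv S.D b c' c ∧ V ⊓ eb S.D b c' ≤ Y) : Y = ⊤ := by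
  classical
  by_contra hY
  have hY' : Yᶜ ≠ ⊥ := fun h => hY (by rw [← compl_compl Y, h, compl_bot])
  obtain ⟨e1, e2, e3, e4, e5, e6⟩ := h5 K Λ S.D
  have htr : Tr S.D (Iio b) := Tr_of_lower (isLowerSet_Iio b)
  obtain ⟨z1, z2, z3, z4, z5, z6⟩ := h6 K Λ S.D (Iio b) htr
  obtain ⟨p0, hp0⟩ := exists_ee_le hY'
  obtain ⟨d0⟩ := evt_ne (S.kd b) (S.W b) (S.ss b)
  obtain ⟨c0, -⟩ := (S.vS b hs).2 d0
  obtain ⟨p, c, hc, hp⟩ : ∃ (p : PF K Λ) (c : Λ), p.f b = some c ∧ ee S.D p ≤ Yᶜ := by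
    cases h : p0.f b with
    | some c => exact ⟨p0, c, h, hp0⟩
    | none =>
      refine ⟨p0.upd b c0, c0, PF.upd_f_same _ _ _, ?_⟩
      rw [e3 p0 b c0 h]
      exact inf_le_left.trans hp0
  set U := ee S.D (p.res (Iio b)) with hU
  have hUS : U ∈ SZ S.D (Iio b) := z2 _ (PF.dom_res_subset _ _)
  have hU0 : U ≠ ⊥ := ee_ne_bot _
  obtain ⟨V, hVS, hV0, hVU, c', hVc, hVY⟩ := H U hUS hU0 c
  set p2 := p.res (Ioi b) with hp2
  have hp2b : p2.f b = none := PF.res_f_of_notMem (by simp)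
  have hex : p.res (Iio b)ᶜ = p2.upd b c := by
    ext x d
    rw [PF.res_f_eq_some]
    by_cases hx : x = b
    · subst hx
      rw [PF.upd_f_same, hc]
      simp
    · rw [PF.upd_f_ne hx, hp2, PF.res_f_eq_some]
      constructor
      · rintro ⟨h1, h2⟩
        refine ⟨?_, h2⟩
        rcases lt_trichotomy x b with h3 | h3 | h3
        · exact absurd h3 h1
        · exact absurd h3 hx
        · exact h3
      · rintro ⟨h1, h2⟩
        exact ⟨not_lt.2 (le_of_lt h1), h2⟩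
  have hep : ee S.D p = U ⊓ (ee S.D p2 ⊓ eb S.D b c) := by
    rw [e5 p (Iio b), hex, e3 p2 b c hp2b]
  have hdj : Disjoint (p2.upd b c').dom (Iio b) := by
    rw [PF.dom_upd, Set.disjoint_left]
    rintro x (rfl | hx) h1
    · exact lt_irrefl _ h1
    · have h2 := PF.dom_res_subset _ _ hx
      exact lt_asymm (mem_Ioi.1 h2) (mem_Iio.1 h1)
  have hne := z5 V hVS hV0 _ hdj
  rw [e3 p2 b c' hp2b] at hne
  apply hne
  have h1 : V ⊓ (ee S.D p2 ⊓ eb S.D b c') ≤ Yᶜ := by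
    refine le_trans ?_ hp
    rw [hep]
    refine le_inf (inf_le_left.trans hVU) (le_inf (inf_le_right.trans inf_le_left) ?_)
    refine le_trans ?_ (e2 b c' c)
    exact le_inf (inf_le_left.trans hVc) (inf_le_right.trans inf_le_right)
  have h2 : V ⊓ (ee S.D p2 ⊓ eb S.D b c') ≤ Y :=
    le_trans (le_inf inf_le_left (inf_le_right.trans inf_le_right)) hVY
  exact le_bot_iff.1 ((le_inf h2 h1).trans (le_of_eq (inf_compl_self Y)))

/-- transitivity of the order values -/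
theorem evt_dv (h1 : SCmpStm.{u}) (hs : (S.kd b).isS) (c c' c'' : Λ) (V : BB S.D)
    (h : V ≤ dv S.D b c'' c') (h' : V ≤ dv S.D b c' c) : V ≤ dv S.D b c'' c := by
  rw [(S.vS b hs).1] at h h' ⊢
  exact (le_inf h h').trans (h1 _ (S.W b) (S.kd b) (S.ss b) (S.cS b c) (S.cS b c')
    (S.cS b c'')).2.1

/-- one more value of the stem in a given set -/
theorem evt_step (h2 : SOneStm.{u}) (h6 : SZStm.{u}) (hs : (S.kd b).isS)
    (hB : ∀ k v, (S.kd b).Bad k v = {v}) (U : BB S.D) (hU : U ∈ SZ S.D (Iio b)) (h0 : U ≠ ⊥)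
    (c : Λ) (A : Finset ℕ)
    (hA : (S.kd b).w (S.cS b c).N (S.st b c).length < A.card) :
    ∃ V ∈ SZ S.D (Iio b), V ≠ ⊥ ∧ V ≤ U ∧ ∃ (c' : Λ) (v : ℕ), v ∈ A ∧
      S.st b c' = S.st b c ++ [v] ∧ V ≤ dv S.D b c' c ∧ (S.cS b c').N = (S.cS b c).N ∧
      (S.cS b c').f = (S.cS b c).f := by
  classical
  have htr : Tr S.D (Iio b) := Tr_of_lower (isLowerSet_Iio b)
  obtain ⟨z1, -⟩ := h6 K Λ S.D (Iio b) htr
  set k := (S.st b c).length with hk
  obtain ⟨s, hsA, hsc⟩ := Finset.exists_subset_card_eq (s := A)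
    (n := (S.kd b).w (S.cS b c).N k + 1) hA
  have hwd := (S.cS b c).wd k s hsc
  have hv : ∃ v ∈ s, U ⊓ ((S.cS b c).f k v)ᶜ ≠ ⊥ := by
    by_contra hcon
    push Not at hcon
    apply h0
    rw [← le_bot_iff, ← hwd]
    refine Finset.le_inf fun v hv => ?_
    have h3 := hcon v hv
    exact disjoint_compl_right_iff.1 (disjoint_iff.2 h3)
  obtain ⟨v, hvs, hv⟩ := hv
  have hfW : ((S.cS b c).f k v)ᶜ ∈ SZ S.D (Iio b) := by
    refine z1.compl _ ?_
    exact SZ_mono inter_subset_left (S.sub b ((S.cS b c).mem k v))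
  have hinf : ∀ x ∈ SZ S.D (Iio b), ∀ y ∈ SZ S.D (Iio b), x ⊓ y ∈ SZ S.D (Iio b) := by
    intro x hx y hy p
    exact ⟨fun h => ⟨(hx p).1 h.1, (hy p).1 h.2⟩, fun h => ⟨(hx p).2 h.1, (hy p).2 h.2⟩⟩
  obtain ⟨d, hd1, hd2, hd3, hd4⟩ := h2 _ (S.W b) (S.kd b) (S.ss b) (S.cS b c) v
  obtain ⟨c', hc'⟩ := (S.vS b hs).2 d
  refine ⟨U ⊓ ((S.cS b c).f k v)ᶜ, hinf U hU _ hfW, hv, inf_le_left, c', v, hsA hvs, ?_, ?_, ?_,
    ?_⟩
  · show (S.cS b c').t = _
    rw [hc', hd1]
    rfl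
  · rw [(S.vS b hs).1, hc', hd4]
    refine le_iInf fun j => le_iInf fun hj => ?_
    rw [hB, mem_singleton_iff] at hj
    rw [hj]
    exact inf_le_right
  · rw [hc', hd2]
  · rw [hc', hd3]

/-- several more values of the stem in given sets -/
theorem evt_iter (h1 : SCmpStm.{u}) (h2 : SOneStm.{u}) (h6 : SZStm.{u}) (hs : (S.kd b).isS)
    (hB : ∀ k v, (S.kd b).Bad k v = {v}) (A : ℕ → Finset ℕ) (U : BB S.D)
    (hU : U ∈ SZ S.D (Iio b)) (h0 : U ≠ ⊥) (c : Λ) (j : ℕ)
    (hA : ∀ i, i < j → (S.kd b).w (S.cS b c).N ((S.st b c).length + i) <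
      (A ((S.st b c).length + i)).card) :
    ∃ V ∈ SZ S.D (Iio b), V ≠ ⊥ ∧ V ≤ U ∧ ∃ c' : Λ,
      (S.st b c').length = (S.st b c).length + j ∧
      (∀ i, i < j → at' (S.st b c') ((S.st b c).length + i) ∈ A ((S.st b c).length + i)) ∧
      V ≤ dv S.D b c' c ∧ (S.cS b c').N = (S.cS b c).N ∧ (S.cS b c').f = (S.cS b c).f := by
  induction j with
  | zero =>
    refine ⟨U, hU, h0, le_rfl, c, rfl, fun i hi => absurd hi (Nat.not_lt_zero i), ?_, rfl, rfl⟩
    rw [(S.vS b hs).1, (h1 _ (S.W b) (S.kd b) (S.ss b) (S.cS b c) (S.cS b c) (S.cS b c)).1]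
    exact le_top
  | succ j ih =>
    obtain ⟨V, hV, hV0, hVU, c1, hl, hat, hdv, hN, hf⟩ := ih fun i hi => hA i (by omega)
    have hA1 := hA j (Nat.lt_succ_self j)
    obtain ⟨V', hV', hV0', hVV', c2, v, hv, hst, hdv2, hN2, hf2⟩ :=
      evt_step S b h2 h6 hs hB V hV hV0 c1 (A ((S.st b c).length + j)) (by rw [hN, hl]; exact hA1)
    refine ⟨V', hV', hV0', hVV'.trans hVU, c2, ?_, ?_,
      evt_dv S b h1 hs c c1 c2 V' hdv2 (hVV'.trans hdv), hN2.trans hN, hf2.trans hf⟩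
    · rw [hst, List.length_append, hl]
      rfl
    · intro i hi
      rw [hst]
      unfold at'
      rcases Nat.lt_succ_iff_lt_or_eq.1 hi with h3 | rfl
      · rw [List.getD_append _ _ _ _ (by rw [hl]; omega)]
        exact hat i h3
      · rw [List.getD_append_right _ _ _ _ (by rw [hl]), hl, Nat.sub_self]
        exact hv

end

/-- Row L5: small closed sets have measure zero -/
theorem evNulStm (h1 : SCmpStm.{u}) (h2 : SOneStm.{u}) (h3 : GenStm.{u}) (h4 : LongStm.{u})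
    (h5 : EeStm.{u}) (h6 : SZStm.{u}) : EvNulStm.{u} := by
  classical
  intro K Λ L _ _ S b hb n F hF kk
  have hs : (S.kd b).isS := by rw [hb]; simp [Kd.isS]
  have hB : ∀ k v, (S.kd b).Bad k v = {v} := by
    intro k v
    rw [hb]
    rfl
  have hw : ∀ N k, (S.kd b).w N k = N := by
    intro N k
    rw [hb]
    rfl
  obtain ⟨g1, g2, g3, -⟩ := h3 K Λ L S b hs
  refine evt_dens S b h5 h6 hs _ fun U hU h0 c => ?_
  set N := (S.cS b c).N with hN
  set k0 := max n (max (S.st b c).length (2 * N)) with hk0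
  obtain ⟨V0, hV0, hV00, hV0U, c0, hpre, hlen, hdv0, hN0, hf0⟩ := h4 K Λ L S b hs U c k0 hU h0
  have hl0 : (S.st b c0).length = k0 := by
    rw [hlen]
    exact max_eq_left ((le_max_left _ _).trans (le_max_right _ _))
  set j := 2 ^ kk * (k0 + 1) with hj
  obtain ⟨V, hV, hVne, hVV, c', hl, hat, hdv, hN', hf'⟩ :=
    evt_iter S b h1 h2 h6 hs hB (fun k => Finset.range (2 ^ Nat.log 2 (k + 2))) V0 hV0 hV00 c0 j
      (fun i _ => by
        rw [hw, hN0, Finset.card_range, hl0]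
        have h7 : k0 + i + 2 < 2 ^ (Nat.log 2 (k0 + i + 2) + 1) :=
          Nat.lt_pow_succ_log_self (by norm_num) _
        rw [pow_succ] at h7
        have h8 : 2 * N ≤ k0 := (le_max_right _ _).trans (le_max_right _ _)
        have h9 : (S.cS b c).N = N := rfl
        omega)
  rw [hl0] at hat hl
  refine ⟨V, hV, hVne, hVV.trans hV0U, c', evt_dv S b h1 hs c c0 c' V hdv (hVV.trans hdv0), ?_⟩
  refine le_trans ?_ (le_iSup _ (posv (k0 + j)))
  refine le_iInf fun A => le_iInf fun hA => ?_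
  obtain ⟨hA1, hA2⟩ := hA
  -- a member of `A` with the code of the stem
  have hex : ∃ a ∈ A, ∃ k, k0 ≤ k ∧ k < k0 + j ∧
      blk (posv k) (Nat.log 2 (k + 2)) a = at' (S.st b c') k := by
    by_contra hcon
    push Not at hcon
    have h7 := evt_cnt (fun k => at' (S.st b c') k) k0 j (fun k h8 h9 => by
      have h10 := hat (k - k0) (by omega)
      rw [Nat.add_sub_cancel' h8] at h10
      exact Finset.mem_range.1 h10)
    have h8 : A ⊆ (Finset.range (posv (k0 + j))).powerset.filter fun a =>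
        ∀ k, k0 ≤ k → k < k0 + j → blk (posv k) (Nat.log 2 (k + 2)) a ≠ at' (S.st b c') k := by
      intro a ha
      rw [Finset.mem_filter, Finset.mem_powerset]
      exact ⟨hA1 a ha, fun k h9 h10 => hcon a ha k h9 h10⟩
    have h9 := Finset.card_le_card h8
    have h10 : A.card * (k0 + j + 1) ≤ 2 ^ posv (k0 + j) * (k0 + 1) :=
      (Nat.mul_le_mul_right _ h9).trans h7
    have h11 : 2 ^ kk * (A.card * (k0 + j + 1)) ≤ 2 ^ posv (k0 + j) * j := by
      calc 2 ^ kk * (A.card * (k0 + j + 1)) ≤ 2 ^ kk * (2 ^ posv (k0 + j) * (k0 + 1)) :=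
            Nat.mul_le_mul_left _ h10
        _ = 2 ^ posv (k0 + j) * j := by rw [hj]; ring
    have h12 : 2 ^ posv (k0 + j) * (k0 + j + 1) < 2 ^ kk * A.card * (k0 + j + 1) :=
      Nat.mul_lt_mul_of_pos_right hA2 (by omega)
    have h13 : 2 ^ posv (k0 + j) * j ≤ 2 ^ posv (k0 + j) * (k0 + j + 1) :=
      Nat.mul_le_mul_left _ (by omega)
    have h14 : 2 ^ kk * A.card * (k0 + j + 1) = 2 ^ kk * (A.card * (k0 + j + 1)) :=
      mul_assoc _ _ _
    omega
  obtain ⟨a, haA, k, hk1, hk2, hka⟩ := hex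
  have h7 : (⨅ a ∈ A, F.T (posv (k0 + j)) a) ≤ (S.gen b k (at' (S.st b c') k))ᶜ := by
    refine (iInf₂_le a haA).trans ?_
    rw [hF _ a (hA1 a haA)]
    refine (iInf₂_le k ⟨(le_max_left _ _).trans hk1, evt_posv_mono (by omega)⟩).trans ?_
    rw [evt_posv_succ, Nat.add_sub_cancel_left, hka]
  have h8 : eb S.D b c' ≤ S.gen b k (at' (S.st b c') k) := g3 c' k (by rw [hl]; exact hk2)
  refine le_trans inf_le_right (h8.trans ?_)
  rw [← compl_compl (S.gen b k (at' (S.st b c') k))]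
  exact compl_le_compl h7

/-- Row L5: nowhere dense closed sets -/
theorem etNwdStm (h1 : SCmpStm.{u}) (h2 : SOneStm.{u}) (h3 : GenStm.{u}) (h4 : LongStm.{u})
    (h5 : EeStm.{u}) (h6 : SZStm.{u}) : EtNwdStm.{u} := by
  classical
  intro K Λ L _ _ S b hb n F hF n' a' ha'
  have hs : (S.kd b).isS := by rw [hb]; simp [Kd.isS]
  have hB : ∀ k v, (S.kd b).Bad k v = {v} := by
    intro k v
    rw [hb]
    rfl
  have hw : ∀ N k, (S.kd b).w N k = N * (k + 1) ^ N := by
    intro N k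
    rw [hb]
    rfl
  obtain ⟨g1, g2, g3, -⟩ := h3 K Λ L S b hs
  refine evt_dens S b h5 h6 hs _ fun U hU h0 c => ?_
  set N := (S.cS b c).N with hN
  obtain ⟨k, hk, hgr⟩ := evt_growth N (max n (max n' (S.st b c).length))
  have hkn : n ≤ k := (le_max_left _ _).trans hk
  have hkn' : n' ≤ k := ((le_max_left _ _).trans (le_max_right _ _)).trans hk
  have hkl : (S.st b c).length ≤ k := ((le_max_right _ _).trans (le_max_right _ _)).trans hk
  obtain ⟨V0, hV0, hV00, hV0U, c0, hpre, hlen, hdv0, hN0, hf0⟩ := h4 K Λ L S b hs U c k hU h0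
  have hl0 : (S.st b c0).length = k := by
    rw [hlen]
    exact max_eq_left hkl
  obtain ⟨V, hV, hVne, hVV, c', v, hv, hst, hdv, hN', hf'⟩ :=
    evt_step S b h2 h6 hs hB V0 hV0 hV00 c0 (Finset.range (2 ^ (k + 1))) (by
      rw [hw, hN0, Finset.card_range, hl0]
      exact hgr)
  rw [Finset.mem_range] at hv
  refine ⟨V, hV, hVne, hVV.trans hV0U, c', evt_dv S b h1 hs c c0 c' V hdv (hVV.trans hdv0), ?_⟩
  obtain ⟨s, hs1, hs2⟩ := evt_blk_ex (post k) (k + 1) v hv
  have hpk : n' ≤ post k := hkn'.trans (evt_post_le k)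
  have hsub : a' ∪ s ⊆ Finset.range (post (k + 1)) := by
    intro x hx
    rw [Finset.mem_range]
    show x < post k + (k + 1)
    rcases Finset.mem_union.1 hx with h7 | h7
    · have := Finset.mem_range.1 (ha' h7)
      omega
    · exact (hs1 x h7).2
  have hint : (a' ∪ s) ∩ Finset.range n' = a' := by
    ext x
    rw [Finset.mem_inter, Finset.mem_union]
    constructor
    · rintro ⟨h7 | h7, h8⟩
      · exact h7
      · have := hs1 x h7
        have := Finset.mem_range.1 h8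
        omega
    · intro h7
      exact ⟨Or.inl h7, ha' h7⟩
  have hblk : blk (post k) (k + 1) (a' ∪ s) = v := by
    rw [← hs2]
    refine evt_blk_congr _ _ _ _ fun i hi => ?_
    rw [Finset.mem_union]
    constructor
    · rintro (h7 | h7)
      · have := Finset.mem_range.1 (ha' h7)
        omega
      · exact h7
    · exact Or.inr
  have hn1 : n' ≤ post (k + 1) := hpk.trans (Nat.le_add_right _ _)
  refine le_trans ?_ (le_iSup _ (post (k + 1)))
  refine le_trans ?_ (le_iSup _ (a' ∪ s))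
  refine le_trans ?_ (le_iSup _ ⟨hsub, hn1, hint⟩)
  have h7 : F.T (post (k + 1)) (a' ∪ s) ≤ (S.gen b k v)ᶜ := by
    rw [hF _ _ hsub]
    refine (iInf₂_le k ⟨hkn, le_rfl⟩).trans ?_
    have h8 : post (k + 1) - post k = k + 1 := Nat.add_sub_cancel_left _ _
    rw [h8, hblk]
  have h8 : eb S.D b c' ≤ S.gen b k v := by
    have h9 := g3 c' k (by rw [hst, List.length_append, hl0]; exact Nat.lt_succ_self k)
    have h10 : at' (S.st b c') k = v := by
      rw [hst]
      unfold at'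
      rw [List.getD_append_right _ _ _ _ (by rw [hl0]), hl0, Nat.sub_self]
      rfl
    rwa [h10] at h9
  refine le_trans inf_le_right (h8.trans ?_)
  rw [← compl_compl (S.gen b k v)]
  exact compl_le_compl h7

end CI
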