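import Pool.Agent.CI.C.RDens
import Pool.Agent.CI.C.RAvoidA

/-!
# Project CI: null sets as slaloms of clopen sets, the two-valued part
-/

set_option autoImplicit false

open Set

namespace CI

namespace LocR

/-- increasing codes of open sets of measure at most `2 ^ (-k)` -/
structure Dt (P : ℕ → ℕ → Finset ℕ → Prop) : Prop where
  mono : ∀ k m a, a ⊆ Finset.range m → P k m a → P k (m + 1) a ∧ P k (m + 1) (insert m a)
  meas : ∀ k m (A : Finset (Finset ℕ)), (∀ a ∈ A, a ⊆ Finset.range m) → (∀ a ∈ A, P k m a) →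
    2 ^ k * A.card ≤ 2 ^ m

variable {P : ℕ → ℕ → Finset ℕ → Prop} (h : Dt P)

open Classical in
/-- the levels -/
noncomputable def lev (P : ℕ → ℕ → Finset ℕ → Prop) (k m : ℕ) : Finset (Finset ℕ) :=
  (Finset.range m).powerset.filter fun a => P k m a

theorem mem_lev {k m : ℕ} {a : Finset ℕ} : a ∈ lev P k m ↔ a ⊆ Finset.range m ∧ P k m a := by
  classical
  unfold lev
  rw [Finset.mem_filter, Finset.mem_powerset]

include h in
theorem Dt.up {k m m' : ℕ} (hm : m ≤ m') {a : Finset ℕ} (ha : a ⊆ Finset.range m')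
    (hP : P k m (a ∩ Finset.range m)) : P k m' a := by
  induction m', hm using Nat.le_induction generalizing a with
  | base => rwa [Finset.inter_eq_left.2 ha] at hP
  | succ n hn ih =>
    have h1 : P k n (a ∩ Finset.range n) := by
      refine ih Finset.inter_subset_right ?_
      rwa [Finset.inter_assoc, Finset.inter_eq_right.2 (Finset.range_subset_range.2 hn)]
    have h2 := h.mono k n _ Finset.inter_subset_right h1
    by_cases hna : n ∈ a
    · have h3 : insert n (a ∩ Finset.range n) = a := by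
        ext i
        rw [Finset.mem_insert, Finset.mem_inter, Finset.mem_range]
        constructor
        · rintro (rfl | h4)
          · exact hna
          · exact h4.1
        · intro hi
          have h4 := Finset.mem_range.1 (ha hi)
          by_cases h5 : i = n
          · exact Or.inl h5
          · exact Or.inr ⟨hi, by omega⟩
      rw [← h3]
      exact h2.2
    · have h3 : a ∩ Finset.range n = a := by
        rw [Finset.inter_eq_left]
        intro i hi
        have h4 := Finset.mem_range.1 (ha hi)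
        rw [Finset.mem_range]
        have h5 : i ≠ n := fun h5 => hna (h5 ▸ hi)
        omega
      rw [h3] at h2
      exact h2.1

open Classical in
/-- what enters between the levels `r` and `r'` -/
noncomputable def dif (P : ℕ → ℕ → Finset ℕ → Prop) (k r r' : ℕ) : Finset (Finset ℕ) :=
  (Finset.range r').powerset.filter fun a => P k r' a ∧ ¬ P k r (a ∩ Finset.range r)

theorem mem_dif {k r r' : ℕ} {a : Finset ℕ} :
    a ∈ dif P k r r' ↔ a ⊆ Finset.range r' ∧ P k r' a ∧ ¬ P k r (a ∩ Finset.range r) := by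
  classical
  unfold dif
  rw [Finset.mem_filter, Finset.mem_powerset]

/-- good levels -/
def Gd (P : ℕ → ℕ → Finset ℕ → Prop) (n r : ℕ) : Prop :=
  ∀ i : ℕ, ∀ j ∈ Finset.range (n + 1), (dif P (2 * j) r (r + i)).card * 4 ^ n ≤ 2 ^ (r + i)

theorem Gd.mono {n r : ℕ} (hg : Gd P (n + 1) r) : Gd P n r := by
  intro i j hj
  rw [Finset.mem_range] at hj
  have h1 := hg i j (Finset.mem_range.2 (by omega))
  refine le_trans ?_ h1
  exact Nat.mul_le_mul_left _ (Nat.pow_le_pow_right (by norm_num) (Nat.le_succ n))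

include h in
theorem dif_card (k r i : ℕ) : (dif P k r (r + i)).card + (lev P k r).card * 2 ^ i ≤
    (lev P k (r + i)).card := by
  classical
  have h1 : lev P k r ⊆ (Finset.range r).powerset := fun a ha =>
    Finset.mem_powerset.2 (mem_lev.1 ha).1
  rw [← ravLift_card h1, ← Finset.card_union_of_disjoint]
  · refine Finset.card_le_card fun a ha => ?_
    rw [Finset.mem_union, mem_dif, mem_ravLift] at ha
    rw [mem_lev]
    rcases ha with ha | ha
    · exact ⟨ha.1, ha.2.1⟩
    · exact ⟨ha.1, h.up (Nat.le_add_right r i) ha.1 (mem_lev.1 ha.2).2⟩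
  · rw [Finset.disjoint_left]
    intro a ha ha'
    rw [mem_dif] at ha
    rw [mem_ravLift] at ha'
    exact ha.2.2 (mem_lev.1 ha'.2).2

include h in
/-- for one open set there are good levels -/
theorem exists_one (k n : ℕ) : ∃ r0, ∀ r, r0 ≤ r → ∀ i,
    (dif P k r (r + i)).card * 4 ^ n ≤ 2 ^ (r + i) := by
  have hc1 : ∀ r, ((lev P k r).card : ℝ) / 2 ^ r ≤ 1 := by
    intro r
    rw [div_le_one (by positivity)]
    have h1 := h.meas k r (lev P k r) (fun a ha => (mem_lev.1 ha).1) fun a ha => (mem_lev.1 ha).2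
    have h2 : (lev P k r).card ≤ 2 ^ r :=
      (Nat.le_mul_of_pos_left _ (by positivity)).trans h1
    exact_mod_cast h2
  have hmono : Monotone fun r => ((lev P k r).card : ℝ) / 2 ^ r := by
    intro r r' hr
    obtain ⟨i, rfl⟩ := Nat.exists_eq_add_of_le hr
    beta_reduce
    rw [div_le_div_iff₀ (by positivity) (by positivity), pow_add]
    have h1 := dif_card h k r i
    have h2 : (lev P k r).card * 2 ^ i ≤ (lev P k (r + i)).card := by omega
    have h3 : ((lev P k r).card : ℝ) * 2 ^ i ≤ (lev P k (r + i)).card := by exact_mod_cast h2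
    have h4 : (0 : ℝ) ≤ 2 ^ r := by positivity
    nlinarith [mul_le_mul_of_nonneg_right h3 h4]
  have hb : BddAbove (Set.range fun r => ((lev P k r).card : ℝ) / 2 ^ r) :=
    ⟨1, by rintro _ ⟨r, rfl⟩; exact hc1 r⟩
  obtain ⟨r0, hr0⟩ := exists_lt_of_lt_ciSup (f := fun r => ((lev P k r).card : ℝ) / 2 ^ r)
    (b := (⨆ r, ((lev P k r).card : ℝ) / 2 ^ r) - 1 / 4 ^ n) (by
      have : (0 : ℝ) < 1 / 4 ^ n := by positivity
      linarith)
  refine ⟨r0, fun r hr i => ?_⟩
  have h1 := hmono hr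
  have h2 := le_ciSup hb (r + i)
  beta_reduce at h1 h2 hr0
  have h3 : ((lev P k (r + i)).card : ℝ) / 2 ^ (r + i) ≤
      (lev P k r).card / 2 ^ r + 1 / 4 ^ n := by linarith
  have h4 := dif_card h k r i
  have h5 : ((dif P k r (r + i)).card : ℝ) + (lev P k r).card * 2 ^ i ≤
      (lev P k (r + i)).card := by exact_mod_cast h4
  rw [pow_add, div_add_div _ _ (by positivity) (by positivity),
    div_le_div_iff₀ (by positivity) (by positivity)] at h3
  have h6 : ((dif P k r (r + i)).card : ℝ) * 4 ^ n ≤ 2 ^ (r + i) := by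
    rw [pow_add]
    have hp : (0 : ℝ) < 2 ^ r := by positivity
    have hq : (0 : ℝ) < 4 ^ n := by positivity
    have h7 : ((lev P k (r + i)).card : ℝ) * 4 ^ n ≤
        ((lev P k r).card * 4 ^ n + 2 ^ r) * 2 ^ i := by
      have h8 : ((lev P k (r + i)).card : ℝ) * (2 ^ r * 4 ^ n) =
          ((lev P k (r + i)).card * 4 ^ n) * 2 ^ r := by ring
      have h9 : ((lev P k r).card * 4 ^ n + 2 ^ r * 1) * (2 ^ r * 2 ^ i : ℝ) =
          (((lev P k r).card * 4 ^ n + 2 ^ r) * 2 ^ i) * 2 ^ r := by ring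
      rw [h8, h9] at h3
      exact le_of_mul_le_mul_right h3 hp
    have h10 := mul_le_mul_of_nonneg_right h5 hq.le
    nlinarith
  exact_mod_cast h6

include h in
/-- good levels exist -/
theorem exists_gd (n : ℕ) : ∃ r, n ≤ r ∧ Gd P n r := by
  choose f hf using fun j => exists_one h (2 * j) n
  refine ⟨max n ((Finset.range (n + 1)).sup f), le_max_left _ _, fun i j hj => ?_⟩
  exact hf j _ ((Finset.le_sup (f := f) hj).trans (le_max_right _ _)) i

/-- the first good level -/
def Lv (P : ℕ → ℕ → Finset ℕ → Prop) (n r : ℕ) : Prop :=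
  n ≤ r ∧ Gd P n r ∧ ∀ r' ∈ Finset.Ico n r, ¬ Gd P n r'

theorem Lv.uniq {n r s : ℕ} (hr : Lv P n r) (hs : Lv P n s) : r = s := by
  rcases lt_trichotomy r s with h1 | h1 | h1
  · exact absurd hr.2.1 (hs.2.2 r (Finset.mem_Ico.2 ⟨hr.1, h1⟩))
  · exact h1
  · exact absurd hs.2.1 (hr.2.2 s (Finset.mem_Ico.2 ⟨hs.1, h1⟩))

include h in
theorem exists_lv (n : ℕ) : ∃ r, Lv P n r := by
  classical
  have h1 := exists_gd h n
  refine ⟨Nat.find h1, (Nat.find_spec h1).1, (Nat.find_spec h1).2, fun r' hr' hg => ?_⟩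
  rw [Finset.mem_Ico] at hr'
  exact Nat.find_min h1 hr'.2 ⟨hr'.1, hg⟩

theorem Lv.le {n r r' : ℕ} (hr : Lv P n r) (hr' : Lv P (n + 1) r') : r ≤ r' := by
  by_contra h1
  rw [not_le] at h1
  exact hr.2.2 r' (Finset.mem_Ico.2 ⟨(Nat.le_succ n).trans hr'.1, h1⟩) hr'.2.1.mono

/-- the clopen set -/
def Cn (P : ℕ → ℕ → Finset ℕ → Prop) (n r r' : ℕ) (a : Finset ℕ) : Prop :=
  (∃ j ∈ Finset.range (n + 1), P (2 * j) r' a ∧ ¬ P (2 * j) r (a ∩ Finset.range r)) ∨
    P (2 * n) r' a

include h in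
/-- the measure of the clopen set -/
theorem cn_card {n r r' : ℕ} (hr : Gd P n r) (hrr : r ≤ r') (A : Finset (Finset ℕ))
    (hA : ∀ a ∈ A, a ⊆ Finset.range r' ∧ Cn P n r r' a) :
    4 ^ n * A.card ≤ (n + 2) * 2 ^ r' := by
  classical
  obtain ⟨i, rfl⟩ := Nat.exists_eq_add_of_le hrr
  have h1 : A ⊆ (Finset.range (n + 1)).biUnion (fun j => dif P (2 * j) r (r + i)) ∪
      lev P (2 * n) (r + i) := by
    intro a ha
    obtain ⟨h2, h3⟩ := hA a ha
    rw [Finset.mem_union, Finset.mem_biUnion]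
    rcases h3 with ⟨j, hj, h4⟩ | h4
    · exact Or.inl ⟨j, hj, mem_dif.2 ⟨h2, h4⟩⟩
    · exact Or.inr (mem_lev.2 ⟨h2, h4⟩)
  have h2 := (Finset.card_le_card h1).trans (Finset.card_union_le _ _)
  have h3 : ((Finset.range (n + 1)).biUnion fun j => dif P (2 * j) r (r + i)).card * 4 ^ n ≤
      (n + 1) * 2 ^ (r + i) := by
    refine (Nat.mul_le_mul_right _ Finset.card_biUnion_le).trans ?_
    rw [Finset.sum_mul]
    refine (Finset.sum_le_sum fun j hj => hr i j hj).trans ?_
    rw [Finset.sum_const, Finset.card_range, smul_eq_mul]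
  have h4 := h.meas (2 * n) (r + i) (lev P (2 * n) (r + i)) (fun a ha => (mem_lev.1 ha).1)
    fun a ha => (mem_lev.1 ha).2
  have h5 : (2 : ℕ) ^ (2 * n) = 4 ^ n := by rw [pow_mul]; norm_num
  rw [h5] at h4
  calc 4 ^ n * A.card ≤ 4 ^ n * (((Finset.range (n + 1)).biUnion
        fun j => dif P (2 * j) r (r + i)).card + (lev P (2 * n) (r + i)).card) :=
        Nat.mul_le_mul_left _ h2
    _ = ((Finset.range (n + 1)).biUnion fun j => dif P (2 * j) r (r + i)).card * 4 ^ n +
        4 ^ n * (lev P (2 * n) (r + i)).card := by ring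
    _ ≤ (n + 1) * 2 ^ (r + i) + 2 ^ (r + i) := Nat.add_le_add h3 h4
    _ = (n + 2) * 2 ^ (r + i) := by ring

include h in
/-- a point of the open set number `2 k` is in some of the clopen sets -/
theorem cover (ct : ℕ → Finset ℕ) (hct : ∀ m, ct m ⊆ Finset.range m)
    (hct' : ∀ m m', m ≤ m' → ct m' ∩ Finset.range m = ct m) (k : ℕ)
    (hk : ∃ m, P (2 * k) m (ct m)) :
    ∃ n r r', k ≤ n ∧ Lv P n r ∧ Lv P (n + 1) r' ∧ Cn P n r r' (ct r') := by
  classical
  choose lv hlv using exists_lv h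
  obtain ⟨m, hm, hmin⟩ : ∃ m, P (2 * k) m (ct m) ∧ ∀ m', m' < m → ¬ P (2 * k) m' (ct m') :=
    ⟨Nat.find hk, Nat.find_spec hk, fun m' hm' => Nat.find_min hk hm'⟩
  have hex : ∃ n, k ≤ n ∧ m ≤ lv (n + 1) :=
    ⟨max k m, le_max_left _ _, (le_max_right k m).trans
      ((Nat.le_succ _).trans (hlv (max k m + 1)).1)⟩
  obtain ⟨n, ⟨hkn, hmn⟩, hnmin⟩ : ∃ n, (k ≤ n ∧ m ≤ lv (n + 1)) ∧
      ∀ n', n' < n → ¬ (k ≤ n' ∧ m ≤ lv (n' + 1)) :=
    ⟨Nat.find hex, Nat.find_spec hex, fun n' hn' => Nat.find_min hex hn'⟩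
  have hin : P (2 * k) (lv (n + 1)) (ct (lv (n + 1))) :=
    h.up hmn (hct _) (by rw [hct' m _ hmn]; exact hm)
  refine ⟨n, lv n, lv (n + 1), hkn, hlv n, hlv (n + 1), ?_⟩
  rcases Nat.eq_or_lt_of_le hkn with h1 | h1
  · right
    rw [← h1] at hin ⊢
    exact hin
  · left
    refine ⟨k, Finset.mem_range.2 (by omega), hin, ?_⟩
    have h2 : lv n < m := by
      have h3 := hnmin (n - 1) (by omega)
      rw [not_and, not_le, Nat.sub_add_cancel (by omega)] at h3
      exact h3 (by omega)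
    rw [hct' (lv n) _ ((hlv n).le (hlv (n + 1)))]
    exact hmin _ h2

end LocR

end CI
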