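import Pool.Agent.CI.C.LowStm
import Pool.Agent.CI.C.LocR
import Pool.Agent.CI.C.RCut

/-!
# Project CI: null sets as slaloms of clopen sets
-/

set_option autoImplicit false

open Set

namespace CI

universe u

open RDens LocR

section

variable {B : Type u} [CompleteBooleanAlgebra B] (c : NulC B)

/-- few sets enter between the levels `r` and `r + i` -/
noncomputable def laG (n r i : ℕ) : B :=
  (Finset.range (n + 1)).inf fun j =>
    (cntGe (Finset.range (r + i)).powerset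
      (fun a => (c.U (2 * j)).O (r + i) a ⊓ ((c.U (2 * j)).O r (a ∩ Finset.range r))ᶜ)
      (4 ^ n) (2 ^ (r + i) + 1))ᶜ

/-- good levels -/
noncomputable def laGd (n r : ℕ) : B := ⨅ i : ℕ, laG c n r i

/-- the first good level -/
noncomputable def laLv (n r : ℕ) : B :=
  if n ≤ r then laGd c n r ⊓ (Finset.Ico n r).inf fun r' => (laGd c n r')ᶜ else ⊥

/-- the clopen set -/
noncomputable def laC (n r r' : ℕ) (a : Finset ℕ) : B :=
  ((Finset.range (n + 1)).sup fun j =>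
    (c.U (2 * j)).O r' a ⊓ ((c.U (2 * j)).O r (a ∩ Finset.range r))ᶜ) ⊔ (c.U (2 * n)).O r' a

open Classical in
/-- the code of the clopen set -/
noncomputable def laF (n v : ℕ) : B :=
  if (cc v).2 ⊆ (Finset.range (cc v).1).powerset then
    (Finset.range ((cc v).1 + 1)).sup fun r => laLv c n r ⊓ laLv c (n + 1) (cc v).1 ⊓
      (Finset.range (cc v).1).powerset.inf fun a =>
        if a ∈ (cc v).2 then laC c n r (cc v).1 a else (laC c n r (cc v).1 a)ᶜ
  else ⊥

/-! ### membership -/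

section

variable {c} {W : Set B} (hW : IsSS W) (hc : c.In W)

include hW in
theorem la_sup {s : Finset ℕ} {f : ℕ → B} (hf : ∀ i, f i ∈ W) : s.sup f ∈ W := by
  rw [Finset.sup_eq_iSup]
  exact hW.rcCSup fun i => hW.rcPSup (hf i)

include hW hc in
theorem laG_mem (n r i : ℕ) : laG c n r i ∈ W := by
  refine hW.rcFinf _ fun j => hW.compl _ (hW.rcCntGe _ (fun a => ?_) _ _)
  exact hW.rcInf (hc _ _ _) (hW.compl _ (hc _ _ _))

include hW hc in
theorem laGd_mem (n r : ℕ) : laGd c n r ∈ W := hW.rcCInf fun i => laG_mem hW hc n r i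

include hW hc in
theorem laLv_mem (n r : ℕ) : laLv c n r ∈ W := by
  unfold laLv
  split_ifs
  · exact hW.rcInf (laGd_mem hW hc n r) (hW.rcFinf _ fun r' => hW.compl _ (laGd_mem hW hc n r'))
  · exact hW.bot

include hW hc in
theorem laC_mem (n r r' : ℕ) (a : Finset ℕ) : laC c n r r' a ∈ W :=
  hW.rcSup (la_sup hW fun _ => hW.rcInf (hc _ _ _) (hW.compl _ (hc _ _ _))) (hc _ _ _)

include hW hc in
theorem laF_mem (n v : ℕ) : laF c n v ∈ W := by
  classical
  unfold laF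
  split_ifs
  · refine la_sup hW fun r => hW.rcInf (hW.rcInf (laLv_mem hW hc n r)
      (laLv_mem hW hc (n + 1) _)) (hW.rcFinf _ fun a => ?_)
    split_ifs
    · exact laC_mem hW hc n r _ a
    · exact hW.compl _ (laC_mem hW hc n r _ a)
  · exact hW.bot

end

/-! ### two-valued homomorphisms -/

section

variable {c} {U : B → Prop} (hU : Ul U)
  (hs : ∀ n r, U (⨆ i, (laG c n r i)ᶜ) → ∃ i, U (laG c n r i)ᶜ)

include hU in
theorem la_dt : Dt fun k m a => U ((c.U k).O m a) := by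
  refine ⟨fun k m a ha hP => ?_, fun k m A hA hP => ?_⟩
  · exact (hU.inf _ _).1 (hU.mono ((c.U k).mono m a ha) hP)
  · by_contra hcon
    rw [not_le] at hcon
    have h1 := c.le k m A hA hcon
    have h2 : U (A.inf fun a => (c.U k).O m a) := (hU.finf _ _).2 hP
    rw [Finset.inf_eq_iInf, h1] at h2
    exact hU.bot h2

include hU in
theorem laG_iff (n r i : ℕ) : U (laG c n r i) ↔ ∀ j ∈ Finset.range (n + 1),
    (dif (fun k m a => U ((c.U k).O m a)) (2 * j) r (r + i)).card * 4 ^ n ≤ 2 ^ (r + i) := by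
  classical
  unfold laG
  rw [hU.finf]
  refine forall₂_congr fun j _ => ?_
  rw [hU.compl, hU.cnt, Nat.add_one_le_iff, not_lt]
  have h1 : ((Finset.range (r + i)).powerset.filter fun a => U ((c.U (2 * j)).O (r + i) a ⊓
      ((c.U (2 * j)).O r (a ∩ Finset.range r))ᶜ)) =
      dif (fun k m a => U ((c.U k).O m a)) (2 * j) r (r + i) := by
    ext a
    rw [Finset.mem_filter, Finset.mem_powerset, mem_dif, hU.inf, hU.compl]
  rw [h1]

include hU hs in
theorem laGd_iff (n r : ℕ) : U (laGd c n r) ↔ Gd (fun k m a => U ((c.U k).O m a)) n r := by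
  have h1 : laGd c n r = (⨆ i, (laG c n r i)ᶜ)ᶜ := by
    unfold laGd
    rw [compl_iSup]
    simp only [compl_compl]
  constructor
  · intro h i
    rw [← laG_iff hU]
    exact hU.mono (iInf_le _ i) h
  · intro h
    rw [h1, hU.compl]
    intro h2
    obtain ⟨i, hi⟩ := hs n r h2
    rw [hU.compl, laG_iff hU] at hi
    exact hi (h i)

include hU hs in
theorem laLv_iff (n r : ℕ) : U (laLv c n r) ↔ Lv (fun k m a => U ((c.U k).O m a)) n r := by
  unfold laLv Lv
  split_ifs with h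
  · rw [hU.inf, hU.finf, laGd_iff hU hs]
    constructor
    · rintro ⟨h1, h2⟩
      refine ⟨h, h1, fun r' hr' => ?_⟩
      have h3 := h2 r' hr'
      rwa [hU.compl, laGd_iff hU hs] at h3
    · rintro ⟨-, h1, h2⟩
      refine ⟨h1, fun r' hr' => ?_⟩
      rw [hU.compl, laGd_iff hU hs]
      exact h2 r' hr'
  · exact ⟨fun h1 => absurd h1 hU.bot, fun h1 => absurd h1.1 h⟩

include hU in
theorem laC_iff (n r r' : ℕ) (a : Finset ℕ) :
    U (laC c n r r' a) ↔ Cn (fun k m a => U ((c.U k).O m a)) n r r' a := by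
  unfold laC Cn
  rw [hU.sup, hU.fsup]
  simp only [hU.inf, hU.compl]

include hU hs in
theorem laF_iff (n v : ℕ) : U (laF c n v) ↔ (∀ a ∈ (cc v).2, a ⊆ Finset.range (cc v).1) ∧
    ∃ r, r ≤ (cc v).1 ∧ Lv (fun k m a => U ((c.U k).O m a)) n r ∧
      Lv (fun k m a => U ((c.U k).O m a)) (n + 1) (cc v).1 ∧
      ∀ a, a ⊆ Finset.range (cc v).1 →
        (a ∈ (cc v).2 ↔ Cn (fun k m a => U ((c.U k).O m a)) n r (cc v).1 a) := by
  classical
  have h0 : (cc v).2 ⊆ (Finset.range (cc v).1).powerset ↔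
      ∀ a ∈ (cc v).2, a ⊆ Finset.range (cc v).1 :=
    ⟨fun h a ha => Finset.mem_powerset.1 (h ha), fun h a ha => Finset.mem_powerset.2 (h a ha)⟩
  unfold laF
  split_ifs with h
  · rw [hU.fsup]
    constructor
    · rintro ⟨r, hr, h1⟩
      rw [hU.inf, hU.inf, hU.finf, laLv_iff hU hs, laLv_iff hU hs] at h1
      refine ⟨h0.1 h, r, Nat.lt_succ_iff.1 (Finset.mem_range.1 hr), h1.1.1, h1.1.2,
        fun a ha => ?_⟩
      have h2 := h1.2 a (Finset.mem_powerset.2 ha)
      by_cases h3 : a ∈ (cc v).2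
      · rw [if_pos h3, laC_iff hU] at h2
        exact ⟨fun _ => h2, fun _ => h3⟩
      · rw [if_neg h3, hU.compl, laC_iff hU] at h2
        exact ⟨fun h4 => absurd h4 h3, fun h4 => absurd h4 h2⟩
    · rintro ⟨-, r, hr, h1, h2, h3⟩
      refine ⟨r, Finset.mem_range.2 (Nat.lt_succ_iff.2 hr), ?_⟩
      rw [hU.inf, hU.inf, hU.finf, laLv_iff hU hs, laLv_iff hU hs]
      refine ⟨⟨h1, h2⟩, fun a ha => ?_⟩
      have h4 := h3 a (Finset.mem_powerset.1 ha)
      by_cases h5 : a ∈ (cc v).2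
      · rw [if_pos h5, laC_iff hU]
        exact h4.1 h5
      · rw [if_neg h5, hU.compl, laC_iff hU]
        exact fun h6 => h5 (h4.2 h6)
  · exact ⟨fun h1 => absurd h1 hU.bot, fun h1 => absurd (h0.2 h1.1) h⟩

end

/-- an ultrafilter respecting the suprema -/
theorem la_ult (hrs : RSStm.{u}) (b : B) (hb : b ≠ ⊥) (y : ℕ → B) : ∃ U : B → Prop, U b ∧ Ul U ∧
    (∀ n r, U (⨆ i, (laG c n r i)ᶜ) → ∃ i, U (laG c n r i)ᶜ) ∧ (U (⨆ n, y n) → ∃ n, U (y n)) := by
  obtain ⟨U, h1, h2, h3, h4, h5⟩ := hrs B b (fun k i => if k = 0 then y i else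
    (laG c (Nat.unpair (k - 1)).1 (Nat.unpair (k - 1)).2 i)ᶜ) hb
  refine ⟨U, h1, ⟨h2, h3, h4⟩, fun n r => ?_, ?_⟩
  · have h6 := (h5 (Nat.pair n r + 1)).1
    simpa using h6
  · have h6 := (h5 0).1
    simpa using h6

theorem cc_inj {v w : ℕ} (h : cc v = cc w) : v = w :=
  (Denumerable.eqv (ℕ × Finset (Finset ℕ))).symm.injective h

theorem cc_surj (x : ℕ × Finset (Finset ℕ)) : ∃ v, cc v = x :=
  ⟨Denumerable.eqv (ℕ × Finset (Finset ℕ)) x,
    (Denumerable.eqv (ℕ × Finset (Finset ℕ))).symm_apply_apply x⟩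

end

theorem locCodeStm (h : RSStm.{u}) : LocCodeStm.{u} := by
  classical
  intro B _ W hW c hc
  have hdisj : ∀ n k k', k ≠ k' → laF c n k ⊓ laF c n k' = ⊥ := by
    intro n v w hvw
    by_contra hcon
    obtain ⟨U, hb, hU, hs, -⟩ := la_ult c h _ hcon (fun _ => ⊥)
    rw [hU.inf, laF_iff hU hs, laF_iff hU hs] at hb
    obtain ⟨⟨h1, r, hr, h2, h3, h4⟩, h1', r', hr', h2', h3', h4'⟩ := hb
    apply hvw
    apply cc_inj
    have e1 := h3.uniq h3'
    have e2 := h2.uniq h2'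
    subst e2
    refine Prod.ext e1 ?_
    ext a
    constructor
    · intro ha
      have ha1 := h1 a ha
      have ha2 := (h4 a ha1).1 ha
      rw [e1] at ha1 ha2
      exact (h4' a ha1).2 ha2
    · intro ha
      have ha1 := h1' a ha
      have ha2 := (h4' a ha1).1 ha
      rw [← e1] at ha1 ha2
      exact (h4 a ha1).2 ha2
  have hcode : ∀ (U : B → Prop), Ul U → (∀ n r, U (⨆ i, (laG c n r i)ᶜ) →
      ∃ i, U (laG c n r i)ᶜ) → ∀ n r r', Lv (fun k m a => U ((c.U k).O m a)) n r →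
      Lv (fun k m a => U ((c.U k).O m a)) (n + 1) r' → ∃ v, U (laF c n v) ∧ (cc v).1 = r' ∧
        ∀ a, a ⊆ Finset.range r' → Cn (fun k m a => U ((c.U k).O m a)) n r r' a →
          a ∈ (cc v).2 := by
    intro U hU hs n r r' hr hr'
    obtain ⟨v, hv⟩ := cc_surj (r', (Finset.range r').powerset.filter fun a =>
      Cn (fun k m a => U ((c.U k).O m a)) n r r' a)
    refine ⟨v, ?_, by rw [hv], fun a ha1 ha2 => ?_⟩
    · rw [laF_iff hU hs, hv]
      refine ⟨fun a ha => Finset.mem_powerset.1 (Finset.mem_filter.1 ha).1, r, hr.le hr', hr, hr',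
        fun a ha => ?_⟩
      rw [Finset.mem_filter, Finset.mem_powerset]
      exact ⟨fun h1 => h1.2, fun h1 => ⟨ha, h1⟩⟩
    · rw [hv]
      exact Finset.mem_filter.2 ⟨Finset.mem_powerset.2 ha1, ha2⟩
  have htop : ∀ n, ⨆ k, laF c n k = ⊤ := by
    intro n
    by_contra hcon
    have hcon' : (⨆ k, laF c n k)ᶜ ≠ ⊥ := by
      intro h1
      exact hcon (compl_eq_bot.1 h1)
    obtain ⟨U, hb, hU, hs, -⟩ := la_ult c h _ hcon' (fun _ => ⊥)
    rw [hU.compl] at hb
    obtain ⟨r, hr⟩ := exists_lv (la_dt (c := c) hU) n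
    obtain ⟨r', hr'⟩ := exists_lv (la_dt (c := c) hU) (n + 1)
    obtain ⟨v, hv, -⟩ := hcode U hU hs n r r' hr hr'
    exact hb (hU.mono (le_iSup _ v) hv)
  refine ⟨⟨laF c, hdisj, htop⟩, fun n v => laF_mem hW hc n v, fun n v hnv => ?_, fun x k => ?_⟩
  · obtain ⟨U, hb, hU, hs, -⟩ := la_ult c h _ hnv (fun _ => ⊥)
    have hb' : U (laF c n v) := hb
    rw [laF_iff hU hs] at hb'
    obtain ⟨h1, r, hr, h2, h3, h4⟩ := hb'
    exact ⟨h1, cn_card (la_dt (c := c) hU) h2.2.1 hr _ fun a ha =>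
      ⟨h1 a ha, (h4 a (h1 a ha)).1 ha⟩⟩
  · by_contra hcon
    have hcon' : c.mem x ⊓ (⨆ n : ℕ, ⨆ _ : k ≤ n, ⨆ v : ℕ, laF c n v ⊓ ccV x v)ᶜ ≠ ⊥ := by
      intro h1
      apply hcon
      rw [← disjoint_iff, disjoint_compl_right_iff] at h1
      exact h1
    obtain ⟨U, hb, hU, hs, hy⟩ := la_ult c h _ hcon' (fun m => ⨆ a : Finset ℕ,
      ⨆ _ : a ⊆ Finset.range m, (c.U (2 * k)).O m a ⊓ cutV x m a)
    rw [hU.inf, hU.compl] at hb
    obtain ⟨hb1, hb2⟩ := hb
    have h1 : U ((c.U (2 * k)).mem x) := hU.mono (iInf_le _ (2 * k)) hb1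
    obtain ⟨m, hm⟩ := hy h1
    have h2 : (⨆ a : Finset ℕ, ⨆ _ : a ⊆ Finset.range m, (c.U (2 * k)).O m a ⊓ cutV x m a) ≤
        (Finset.range m).powerset.sup fun a => (c.U (2 * k)).O m a ⊓ cutV x m a :=
      iSup₂_le fun a ha => Finset.le_sup
        (f := fun a => (c.U (2 * k)).O m a ⊓ cutV x m a) (Finset.mem_powerset.2 ha)
    obtain ⟨a, ha, ha1⟩ := (hU.fsup _ _).1 (hU.mono h2 hm)
    rw [hU.inf] at ha1
    obtain ⟨ct, hct⟩ : ∃ ct : ℕ → Finset ℕ, ct = fun m =>
      (Finset.range m).filter fun i => U (x i) := ⟨_, rfl⟩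
    have hctm : ∀ m i, i ∈ ct m ↔ i < m ∧ U (x i) := by
      intro m i
      rw [hct]
      beta_reduce
      rw [Finset.mem_filter, Finset.mem_range]
    have hcut : ∀ m, U (cutV x m (ct m)) := by
      intro m
      unfold cutV
      rw [← Finset.inf_univ_eq_iInf, hU.finf]
      intro i _
      split_ifs with hi
      · exact ((hctm _ _).1 hi).2
      · rw [hU.compl]
        exact fun h3 => hi ((hctm _ _).2 ⟨i.2, h3⟩)
    have hact : a = ct m := by
      ext i
      rw [hctm]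
      constructor
      · intro hi
        have hi1 := Finset.mem_range.1 (Finset.mem_powerset.1 ha hi)
        have h3 := hU.mono (iInf_le _ (⟨i, hi1⟩ : Fin m)) ha1.2
        rw [if_pos hi] at h3
        exact ⟨hi1, h3⟩
      · rintro ⟨hi1, hi2⟩
        by_contra hi
        have h3 := hU.mono (iInf_le _ (⟨i, hi1⟩ : Fin m)) ha1.2
        rw [if_neg hi, hU.compl] at h3
        exact h3 hi2
    obtain ⟨n, r, r', hkn, hr, hr', hC⟩ := cover (la_dt (c := c) hU) ct
      (fun m i hi => Finset.mem_range.2 ((hctm m i).1 hi).1)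
      (fun m m' hmm => by
        ext i
        rw [Finset.mem_inter, hctm, hctm, Finset.mem_range]
        constructor
        · rintro ⟨⟨-, h3⟩, h4⟩
          exact ⟨h4, h3⟩
        · rintro ⟨h3, h4⟩
          exact ⟨⟨h3.trans_le hmm, h4⟩, h3⟩) k ⟨m, by rw [← hact]; exact ha1.1⟩
    obtain ⟨v, hv, hv1, hv2⟩ := hcode U hU hs n r r' hr hr'
    apply hb2
    have h3 : U (laF c n v ⊓ ccV x v) := by
      rw [hU.inf]
      refine ⟨hv, hU.mono ?_ (hcut r')⟩
      unfold ccV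
      rw [hv1]
      exact le_iSup₂_of_le (ct r') (hv2 _ (fun i hi => Finset.mem_range.2
        ((hctm r' i).1 hi).1) hC) le_rfl
    exact hU.mono (le_iSup_of_le n (le_iSup₂_of_le hkn v le_rfl)) h3

end CI
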