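import Pool.Agent.CI.C.MdlStm

/-!
# Project CI, row M4: positivity at a centred coordinate, plain limits, the root
-/

set_option autoImplicit false

open Set Cardinal Pool.Agent.CL

namespace CI

universe u

theorem pe_len {κ : Kd} (h : κ.isE) (N : ℕ) : κ.len N = 0 := by
  rcases h with rfl | rfl <;> rfl

theorem pe_bad {κ : Kd} (h : κ.isE) (k v : ℕ) : κ.Bad k v = {v} := by
  rcases h with rfl | rfl <;> rfl

theorem pe_isS {κ : Kd} (h : κ.isE) : κ.isS := by
  rcases h with rfl | rfl <;> simp [Kd.isS]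

theorem rootStm : RootStm.{u} := by
  classical
  intro K Λ Θ _ D R q
  have key : ∀ R : Finset K, (∀ b ∈ R, ∀ (a : AF K Θ) (p : PF K Λ), p.dom ⊆ Iio b →
      ∃ a' ≤ a, ∃ p' : PF K Λ, @LE.le (PD D) _ p' p ∧ p'.dom ⊆ Iic b ∧ iAP D a' p' ≤ q b) →
      ∀ a : AF K Θ, ∃ a' ≤ a, ∃ p' : PF K Λ, (∀ b ∈ R, iAP D a' p' ≤ q b) ∧
        ∀ x ∈ p'.dom, ∃ b ∈ R, x ≤ b := by
    intro R
    induction R using Finset.induction_on_max with
    | empty =>
      intro _ a
      refine ⟨a, le_rfl, PF.nil, fun b hb => absurd hb (Finset.notMem_empty b), ?_⟩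
      intro x hx
      rw [PF.dom_nil] at hx
      exact absurd hx (notMem_empty x)
    | insert b s hs ih =>
      intro hq a
      obtain ⟨a1, ha1, p1, h1, h2⟩ := ih (fun b' hb' => hq b' (Finset.mem_insert_of_mem hb')) a
      obtain ⟨a2, ha2, p2, h3, h4, h5⟩ := hq b (Finset.mem_insert_self b s) a1 p1 (by
        intro x hx
        obtain ⟨b', hb', hxb⟩ := h2 x hx
        exact lt_of_le_of_lt hxb (hs b' hb'))
      refine ⟨a2, le_trans ha2 ha1, p2, ?_, ?_⟩
      · intro b' hb'
        rcases Finset.mem_insert.1 hb' with rfl | hb'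
        · exact h5
        · refine le_trans ?_ (h1 b' hb')
          exact RO.pt_mono (Q := AF K Θ × PD D) ⟨ha2, h3⟩
      · intro x hx
        exact ⟨b, Finset.mem_insert_self b s, h4 hx⟩
  intro hq a
  obtain ⟨a', ha', p', h1, -⟩ := key R hq a
  exact ⟨a', ha', p', le_iInf fun b => le_iInf fun hb => h1 b hb⟩

theorem pe_bool {B : Type u} [BooleanAlgebra B] {a x y : B} (h : a ⊓ x = a ⊓ y) :
    a ⊓ yᶜ ≤ xᶜ := by
  rw [le_compl_iff_disjoint_right, disjoint_iff, inf_right_comm, h, inf_assoc,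
    inf_compl_self, inf_bot_eq]

theorem posEStm (h1 : IBStm.{u}) (h2 : IAStm.{u}) (h3 : AFStm.{u}) (h4 : GenStm.{u})
    (h5 : EeStm.{u}) : PosEStm.{u} := by
  classical
  intro K Λ L Θ _ _ S rd rt φ hG _ b hE hCld t g N hg hw a p _
  obtain ⟨hBle, hBinf, -, hBc, hBb, hBt, -, -, hBsup, -, -⟩ := h1 K Λ Θ S.D
  obtain ⟨hA1, -, -, hA4, hA5, -⟩ := h2 K Λ Θ S.D
  obtain ⟨-, hg2, hg3, hg4, -⟩ := h4 K Λ L S b (pe_isS hE)
  obtain ⟨-, -, -, he4, -⟩ := h5 K Λ S.D
  have hhom := hG.hom
  have hmem : ∀ z : ℕ → BB S.D, z ∈ {z : ℕ → BB S.D | ∀ l, z l ∈ SZ S.D univ} :=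
    fun z l => SZ_univ (z l)
  -- the decisions
  have hdec : ∀ (n : ℕ) (a : AF K Θ), ∃ a' ≤ a, ∃ U ∈ S.W b,
      iA S.D a' ⊓ φ (fun l => g l (Nat.unpair n).1 (Nat.unpair n).2) =
        iA S.D a' ⊓ iB S.D Θ U :=
    fun n a => hCld _ (fun l => hg l _ _) a
  choose! st hst1 U hU hst2 using hdec
  let A : ℕ → AF K Θ := fun n => Nat.rec a (fun n x => st n x) n
  have hA0 : A 0 = a := rfl
  have hAs : ∀ n, A (n + 1) = st n (A n) := fun n => rfl
  obtain ⟨a', ha'⟩ := h3 K Θ A fun n => by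
    rw [hAs n]
    exact hst1 n (A n)
  -- the decided values
  let G : ℕ → ℕ → BB S.D := fun k v => U (Nat.pair k v) (A (Nat.pair k v))
  have hGW : ∀ k v, G k v ∈ S.W b := fun k v => hU _ _
  have hGφ : ∀ k v, iA S.D a' ⊓ φ (fun l => g l k v) = iA S.D a' ⊓ iB S.D Θ (G k v) := by
    intro k v
    have e1 := hst2 (Nat.pair k v) (A (Nat.pair k v))
    rw [Nat.unpair_pair] at e1
    have e2 : iA S.D a' ≤ iA S.D (st (Nat.pair k v) (A (Nat.pair k v))) :=
      hA4 _ _ (ha' (Nat.pair k v + 1))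
    rw [← inf_eq_left.2 e2, inf_assoc, e1, inf_assoc]
  have hφt : φ (fun _ => ⊤) = ⊤ := by
    rw [hG.const ⊤ (SZ_univ _), hBt]
  have hφb : φ (fun _ => ⊥) = ⊥ := by
    rw [hG.const ⊥ (SZ_univ _), hBb]
  have hind : ∀ (k : ℕ) (s : Finset ℕ), iA S.D a' ⊓ iB S.D Θ (s.inf fun v => (G k v)ᶜ) ≤
      φ fun l => s.inf fun v => (g l k v)ᶜ := by
    intro k s
    induction s using Finset.induction_on with
    | empty =>
      simp only [Finset.inf_empty]
      rw [hφt]
      exact le_top
    | insert v s hv ih =>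
      simp only [Finset.inf_insert]
      have e1 := hhom.inf (fun l => (g l k v)ᶜ) (hmem _) (fun l => s.inf fun v => (g l k v)ᶜ)
        (hmem _)
      have e2 : ((fun l => (g l k v)ᶜ) ⊓ fun l => s.inf fun v => (g l k v)ᶜ) =
        fun l => (g l k v)ᶜ ⊓ s.inf fun v => (g l k v)ᶜ := rfl
      rw [e2] at e1
      have e3 : φ (fun l => (g l k v)ᶜ) = (φ fun l => g l k v)ᶜ :=
        hhom.compl (fun l => g l k v) (hmem _)
      rw [e1, e3, hBinf, hBc]
      refine le_inf ?_ ?_
      · refine le_trans ?_ (pe_bool (hGφ k v))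
        exact inf_le_inf_left _ inf_le_left
      · exact le_trans (inf_le_inf_left _ inf_le_right) ih
  -- the label
  let C : CndS (S.kd b) (S.W b) :=
    { t := t
      N := N
      f := fun k v => (G k v)ᶜ
      mem := fun k v => (S.ss b).compl _ (hGW k v)
      wd := by
        intro k s hs
        by_contra hne
        have e1 := hind k s
        have e2 : (fun l => s.inf fun v => (g l k v)ᶜ) = fun _ : ℕ => (⊥ : BB S.D) := by
          funext l
          exact hw l k s hs
        rw [e2, hφb] at e1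
        exact hA5 a' _ hne (le_bot_iff.1 e1)
      ln := by
        rw [pe_len hE]
        exact Nat.zero_le _ }
  obtain ⟨c, hc⟩ := (S.vS b (pe_isS hE)).2 C
  have hst : S.st b c = t := by
    unfold Sys.st
    rw [hc]
  have hf : ∀ k v, (S.cS b c).f k v = (G k v)ᶜ := by
    intro k v
    rw [hc]
  refine ⟨a', ?_, c, ?_⟩
  · have h := ha' 0
    rw [hA0] at h
    exact h
  · rw [hA1]
    have hle : ee S.D (p.upd b c) ≤ eb S.D b c := he4 _ b c (PF.upd_f_same p b c)
    refine le_trans (inf_le_inf_left _ ((hBle _ _).2 hle)) ?_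
    unfold Sys.qq
    refine le_inf (inf_le_right.trans ((hBle _ _).2 ?_)) ?_
    · unfold Sys.est
      refine le_iInf fun k => le_iInf fun hk => ?_
      have h := hg3 c k (by rw [hst]; exact hk)
      rw [hst] at h
      exact h
    · refine le_iInf fun k => le_iInf fun hk => ?_
      have e1 : iA S.D a' ⊓ iB S.D Θ (eb S.D b c) =
          (iA S.D a' ⊓ iB S.D Θ (eb S.D b c)) ⊓ ⨆ v, iB S.D Θ (S.gen b k v) := by
        rw [← hBsup, hg2 k, hBt, inf_top_eq]
      rw [e1, inf_iSup_eq]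
      refine iSup_le fun v => le_trans (le_inf inf_le_right ?_)
        (le_iSup (fun v => iB S.D Θ (S.gen b k v) ⊓ φ fun l => g l k v) v)
      have e2 : eb S.D b c ⊓ S.gen b k v ≤ G k v := by
        have h := hg4 c k v v (by rw [hst]; exact hk) (by
          rw [pe_bad hE]
          exact mem_singleton v)
        rw [hf, ← disjoint_iff, disjoint_compl_right_iff] at h
        exact h
      rw [inf_assoc, ← hBinf]
      refine le_trans (inf_le_inf_left _ ((hBle _ _).2 e2)) ?_
      rw [← hGφ k v]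
      exact inf_le_right

theorem plainStm (_h1 : SCmpStm.{u}) (h2 : SMrgStm.{u}) (h3 : GenStm.{u}) (h4 : EeStm.{u}) :
    PlainStm.{u} := by
  classical
  intro K Λ L _ _ S b hE t N c hc
  obtain ⟨-, -, -, -, -, -, hg7⟩ := h3 K Λ L S b (pe_isS hE)
  obtain ⟨-, he2, -⟩ := h4 K Λ S.D
  refine ⟨?_, fun l k v => (S.ss b).compl _ ((S.cS b (c l)).mem k v), fun l => hg7 (c l), ?_⟩
  · intro l v hv hv0 cs hpre hle
    let d : CndS (S.kd b) (S.W b) :=
      { t := S.st b cs
        N := (S.cS b (c l)).N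
        f := (S.cS b (c l)).f
        mem := (S.cS b (c l)).mem
        wd := (S.cS b (c l)).wd
        ln := by
          rw [pe_len hE]
          exact Nat.zero_le _ }
    obtain ⟨e, e1, -, e3, e4, -⟩ := h2 (BB S.D) (S.W b) (S.kd b) (S.ss b) (S.cS b cs) d rfl (by
      rw [pe_len hE]
      exact Nat.zero_le _)
    obtain ⟨c', hc'⟩ := (S.vS b (pe_isS hE)).2 e
    have hcmp := (S.vS b (pe_isS hE)).1
    have hst : S.st b c' = S.st b cs := by
      unfold Sys.st
      rw [hc', e1]
    refine ⟨v, hv, hv0, le_rfl, c', hst, ?_, ?_⟩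
    · rw [hcmp, hc', e4]
      exact le_top
    · have hdv : v ≤ dv S.D b c' (c l) := by
        rw [hcmp, hc']
        unfold CndS.cmp
        have ht : (S.cS b (c l)).t = t := (hc l).1
        have het : e.t = S.st b cs := e1
        rw [if_pos (by rw [ht, het]; exact hpre)]
        refine le_inf ?_ ?_
        · refine le_iInf fun k => le_iInf fun j => ?_
          rw [e3, le_himp_iff]
          exact inf_le_right.trans le_sup_right
        · refine le_iInf fun k => le_iInf fun hk => le_iInf fun j => le_iInf fun hj => ?_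
          rw [pe_bad hE, mem_singleton_iff] at hj
          rw [ht, het] at hk
          rw [hj, het]
          exact hle k hk.1 hk.2
      exact le_trans (inf_le_inf_right _ hdv) (he2 b c' (c l))
  · intro l k s hs
    simp only [compl_compl]
    refine (S.cS b (c l)).wd k s ?_
    rw [(hc l).2]
    exact hs

end CI
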