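import Pool.Agent.CI.C.AllA
import Pool.Agent.CI.C.NulEx
import Pool.Agent.CI.C.Bair
import Pool.Agent.CI.C.Supp
import Pool.Agent.CI.C.PosE
import Pool.Agent.CI.C.PosR
import Pool.Agent.CI.C.Avg
import Pool.Agent.CI.C.Lim2
import Pool.Agent.CI.C.Lim4
import Pool.Agent.CI.C.Thin
import Pool.Agent.CI.C.A1
import Pool.Agent.CI.C.A2
import Pool.Agent.CI.C.A3
import Pool.Agent.CI.C.A4
import Pool.Agent.CI.C.LocA
import Pool.Agent.CI.C.LocB
import Pool.Agent.CI.C.Hech
import Pool.Agent.CI.C.RGen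
import Pool.Agent.CI.C.EvEt
import Pool.Agent.CI.C.Cov
import Pool.Agent.CI.C.LowF
import Pool.Agent.CI.C.UppF
import Pool.Agent.CI.C.Mdl
import Pool.Agent.CI.C.CoreF

/-!
# Project CI, core: the core statement
-/

set_option autoImplicit false

namespace CI

namespace F

universe u

theorem mdl : MdlStm.{u} := mdlStm sCmp rCmp sZ zl mem layCld ccc layer base succ lim
theorem root : RootStm.{u} := rootStm
theorem posE : PosEStm.{u} := posEStm iB iA aF gen ee
theorem posR : PosRStm.{u} :=
  posRStm tr sZ ee iB iA tZ aF dec2 reb rNul rAvoid rAdd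
theorem plain : PlainStm.{u} := plainStm sCmp sMrg gen ee
theorem avg : AvgStm.{u} := avgStm sCmp sMrg gen ee sZ zl
theorem tail : TailStm.{u} := tailStm
theorem evBot : EvBotStm.{u} := evBotStm iB
theorem lim2 : Lim2Stm.{u} := lim2Stm tail evBot root posE posR plain ee iA iB tZ
theorem lim4 : Lim4Stm.{u} := lim4Stm tail evBot root posE avg ee iA iB tZ
theorem thin : ThinStm.{u} := thinStm delFin
theorem coh : CohStm.{u} := cohStm sCmp gen ee
theorem a1 : A1Stm.{u} := a1Stm thin coh am ccc gen (suppStm rs) bairStm cntStm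
theorem a2 : A2Stm.{u} := a2Stm thin coh lim2 evBot ccc gen
theorem a3 : A3Stm.{u} := a3Stm thin coh am ccc gen
theorem a4 : A4Stm.{u} := a4Stm thin coh lim4 evBot ccc gen
theorem upp : UppStm.{u} := uppStm a1 a2 a3 a4 nulExStm gen
theorem loc : LocStm.{u} :=
  locStm (locCodeStm rs) locNulStm (locGenStm sCmp sMrg gen long ee sZ tr) gen
theorem hech : HechStm.{u} := hechStm sCmp sMrg gen ee sZ
theorem rnd : RndStm.{u} := rndStm (rGenStm rCut rNul reb sZ ee tr rs) rOpn sZ ee
theorem low : LowStm.{u} :=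
  lowStm loc hech rnd cloExStm (edInStm sCmp sMrg gen ee sZ) (evNulStm sCmp sOne gen long ee sZ)
    (etNwdStm sCmp sOne gen long ee sZ) (covStm tr sZ coh ee gen) gen

end F

theorem coreStatement : CoreStatement := core_of F.crd F.mdl F.low F.upp F.ccc

end CI
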