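import Pool.Agent.CI.C.Cond

/-!
# Project CI, core: elementary facts about conditions (statements)
-/

set_option autoImplicit false

open Set

namespace CI

universe u

/-- the widths -/
def KwStm : Prop :=
  ∀ κ : Kd, (∀ N M k, κ.w N k + κ.w M k ≤ κ.w (N + M) k) ∧ (∀ k, κ.w 0 k = 0) ∧
    ∀ N k (s : Finset ℕ), κ.len N ≤ k → s.card ≤ κ.w N k → ∃ v, ∀ j ∈ s, j ∉ κ.Bad k v

/-- the order values of the `S`-kinds -/
def SCmpStm : Prop :=
  ∀ (B : Type u) [CompleteBooleanAlgebra B] (W : Set B) (κ : Kd), IsSS W → ∀ c d e : CndS κ W,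
    c.cmp c = ⊤ ∧ e.cmp d ⊓ d.cmp c ≤ e.cmp c ∧ c.cmp d ∈ W

/-- the order values of the random kind -/
def RCmpStm : Prop :=
  ∀ (B : Type u) [CompleteBooleanAlgebra B] (W : Set B), IsSS W → ∀ c d e : CndR W,
    c.cmp c = ⊤ ∧ e.cmp d ⊓ d.cmp c ≤ e.cmp c ∧ c.cmp d ∈ W

/-- two conditions with the same stem have a lower bound with this stem -/
def SMrgStm : Prop :=
  ∀ (B : Type u) [CompleteBooleanAlgebra B] (W : Set B) (κ : Kd), IsSS W → ∀ c d : CndS κ W,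
    c.t = d.t → κ.len (c.N + d.N) ≤ c.t.length →
    ∃ e : CndS κ W, e.t = c.t ∧ e.N = c.N + d.N ∧ (∀ k j, e.f k j = c.f k j ⊔ d.f k j) ∧
      e.cmp c = ⊤ ∧ e.cmp d = ⊤

/-- the stem can be made longer -/
def SExtStm : Prop :=
  ∀ (B : Type u) [CompleteBooleanAlgebra B] (W : Set B) (κ : Kd), IsSS W → ∀ (c : CndS κ W) (n : ℕ),
    c.t.length ≤ n →
    (⨆ d : CndS κ W, ⨆ _ : d.t.length = n ∧ c.t <+: d.t ∧ d.N = c.N ∧ d.f = c.f, d.cmp c) = ⊤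

/-- one more value for the stem -/
def SOneStm : Prop :=
  ∀ (B : Type u) [CompleteBooleanAlgebra B] (W : Set B) (κ : Kd), IsSS W → ∀ (c : CndS κ W) (v : ℕ),
    ∃ d : CndS κ W, d.t = c.t ++ [v] ∧ d.N = c.N ∧ d.f = c.f ∧
      d.cmp c = ⨅ j : ℕ, ⨅ _ : j ∈ κ.Bad c.t.length v, (c.f c.t.length j)ᶜ

/-- the trivial condition with a given stem -/
def STrivStm : Prop :=
  ∀ (B : Type u) [CompleteBooleanAlgebra B] (W : Set B) (κ : Kd), IsSS W → ∀ t : List ℕ,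
    (∃ d : CndS κ W, d.t = t ∧ d.N = 0 ∧ ∀ k j, d.f k j = ⊥) ∧
    ∀ c d : CndS κ W, c.t <+: d.t → (∀ k j, c.f k j = ⊥) → d.cmp c = ⊤

end CI
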