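import Pool.Agent.CI.C.Alg

/-!
# Project CI, core: conditions of the six kinds over a memory `W`, as objects of a complete
Boolean algebra (definitions)
-/

set_option autoImplicit false

open Set

namespace CI

universe u

/-- the kinds of coordinates; `tr` is the trivial forcing -/
inductive Kd : Type
  | tr | coh | loc | hech | rnd | ev | et
  deriving DecidableEq

/-- the finite set coded by a natural number -/
noncomputable def fs (v : ℕ) : Finset ℕ := Denumerable.ofNat (Finset ℕ) v

/-- the values forbidden by `j` at the place `k` -/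
def Kd.Bad (κ : Kd) (k v : ℕ) : Set ℕ :=
  match κ with
  | .loc => if (fs v).card ≤ k then {j | j ∉ fs v} else univ
  | .hech => {j | v < j}
  | .ev => {v}
  | .et => {v}
  | _ => ∅

/-- the width -/
def Kd.w (κ : Kd) (N k : ℕ) : ℕ :=
  match κ with
  | .loc => N
  | .hech => N
  | .ev => N
  | .et => N * (k + 1) ^ N
  | _ => 0

/-- the length of the stem needed for the parameter `N` -/
def Kd.len (κ : Kd) (N : ℕ) : ℕ :=
  match κ with
  | .loc => 2 * N
  | _ => 0

/-- the kinds given by `Bad` and `w` -/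
def Kd.isS (κ : Kd) : Prop := κ = .coh ∨ κ = .loc ∨ κ = .hech ∨ κ = .ev ∨ κ = .et

/-- the kinds with exact guesses -/
def Kd.isX (κ : Kd) : Prop := κ = .coh ∨ κ = .loc ∨ κ = .hech ∨ κ = .rnd

/-- the centred kinds with limits -/
def Kd.isE (κ : Kd) : Prop := κ = .ev ∨ κ = .et

/-- the kinds where two conditions with the same stem have a lower bound with the same stem -/
def Kd.isC (κ : Kd) : Prop := κ = .coh ∨ κ = .hech ∨ κ = .ev ∨ κ = .et

section

variable {B : Type u} [CompleteBooleanAlgebra B]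

/-- condition of a kind given by `Bad` and `w`; `f k j` is the truth value of `j ∈ F(k)` -/
@[ext] structure CndS (κ : Kd) (W : Set B) where
  t : List ℕ
  N : ℕ
  f : ℕ → ℕ → B
  mem : ∀ k j, f k j ∈ W
  wd : ∀ k (s : Finset ℕ), s.card = κ.w N k + 1 → s.inf (f k) = ⊥
  ln : κ.len N ≤ t.length

/-- the value at the place `k` of the stem `t` -/
def at' (t : List ℕ) (k : ℕ) : ℕ := t.getD k 0

/-- the truth value of `c' ≤ c` -/
noncomputable def CndS.cmp {κ : Kd} {W : Set B} (c' c : CndS κ W) : B :=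
  open Classical in
  if c.t <+: c'.t then
    (⨅ k, ⨅ j, c.f k j ⇨ c'.f k j) ⊓
      ⨅ k : ℕ, ⨅ _ : c.t.length ≤ k ∧ k < c'.t.length, ⨅ j : ℕ, ⨅ _ : j ∈ κ.Bad k (at' c'.t k),
        (c.f k j)ᶜ
  else ⊥

/-- the truth value of: the number of `a ∈ A` with `x a`, times `s`, is at least `r` -/
noncomputable def cntGe {α : Type} (A : Finset α) (x : α → B) (s r : ℕ) : B :=
  ⨆ C : Finset α, ⨆ _ : C ⊆ A ∧ r ≤ C.card * s, C.inf x

/-- the truth value of: every level of the tree `U` has at least the part `r / s`; for a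
decreasing tree: the closed set has measure at least `r / s` -/
noncomputable def mGe (U : ℕ → Finset ℕ → B) (s r : ℕ) : B :=
  ⨅ n : ℕ, cntGe (Finset.range n).powerset (U n) s (r * 2 ^ n)

/-- the truth value of: the measure of `U` is greater than `k / (k + 1)` -/
noncomputable def mGt (U : ℕ → Finset ℕ → B) (k : ℕ) : B :=
  ⨆ j : ℕ, mGe U ((k + 1) * (j + 1)) (k * (j + 1) + 1)

/-- decreasing trees -/
def DecT (U : ℕ → Finset ℕ → B) : Prop := ∀ n a, U (n + 1) a ≤ U n (a.erase n)

/-- random condition: `τ n a` is the truth value of `a ∈ τ`, for `a ⊆ n` -/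
@[ext] structure CndR (W : Set B) where
  τ : ℕ → Finset ℕ → B
  q : ℕ
  mem : ∀ n a, τ n a ∈ W
  dec : DecT τ
  big : mGe τ (q + 1) 1 = ⊤

/-- the truth value of `c' ≤ c` -/
def CndR.cmp {W : Set B} (c' c : CndR W) : B :=
  ⨅ n : ℕ, ⨅ a : Finset ℕ, ⨅ _ : a ⊆ Finset.range n, c'.τ n a ⇨ c.τ n a

/-- the truth value of: the intersection of the two closed sets has measure zero -/
noncomputable def CndR.nul {W : Set B} (c' c : CndR W) : B :=
  (mGt (fun n a => c'.τ n a ⊓ c.τ n a) 0)ᶜ

end

end CI
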