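import Pool.Agent.CI.C.LowStm

/-!
# Project CI, core: blocks of bits, counting (for the row L5)
-/

set_option autoImplicit false

open Set

namespace CI

theorem evt_blk_succ (s m : ℕ) (a : Finset ℕ) :
    blk s (m + 1) a = blk s m a + if s + m ∈ a then 2 ^ m else 0 := by
  unfold blk
  rw [Finset.sum_range_succ]

theorem evt_blk_lt (s m : ℕ) (a : Finset ℕ) : blk s m a < 2 ^ m := by
  induction m with
  | zero => simp [blk]
  | succ m ih =>
    rw [evt_blk_succ, pow_succ]
    split_ifs <;> omega

theorem evt_blk_inj (s m : ℕ) (a a' : Finset ℕ) (h : blk s m a = blk s m a') :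
    ∀ i, i < m → (s + i ∈ a ↔ s + i ∈ a') := by
  induction m with
  | zero => intro i hi; omega
  | succ m ih =>
    rw [evt_blk_succ, evt_blk_succ] at h
    have h1 := evt_blk_lt s m a
    have h2 := evt_blk_lt s m a'
    have h3 : (s + m ∈ a ↔ s + m ∈ a') ∧ blk s m a = blk s m a' := by
      by_cases ha : s + m ∈ a <;> by_cases ha' : s + m ∈ a'
      · rw [if_pos ha, if_pos ha'] at h
        exact ⟨⟨fun _ => ha', fun _ => ha⟩, by omega⟩
      · rw [if_pos ha, if_neg ha'] at h
        omega
      · rw [if_neg ha, if_pos ha'] at h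
        omega
      · rw [if_neg ha, if_neg ha'] at h
        exact ⟨⟨fun h => absurd h ha, fun h => absurd h ha'⟩, by omega⟩
    intro i hi
    rcases Nat.lt_succ_iff_lt_or_eq.1 hi with h4 | rfl
    · exact ih h3.2 i h4
    · exact h3.1

theorem evt_blk_congr (s m : ℕ) (a a' : Finset ℕ) (h : ∀ i, i < m → (s + i ∈ a ↔ s + i ∈ a')) :
    blk s m a = blk s m a' := by
  unfold blk
  refine Finset.sum_congr rfl fun i hi => ?_
  rw [Finset.mem_range] at hi
  simp only [h i hi]

/-- a set with a given code -/
theorem evt_blk_ex (s m : ℕ) : ∀ v, v < 2 ^ m → ∃ a : Finset ℕ,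
    (∀ x ∈ a, s ≤ x ∧ x < s + m) ∧ blk s m a = v := by
  induction m with
  | zero =>
    intro v hv
    refine ⟨∅, fun x hx => absurd hx (Finset.notMem_empty x), ?_⟩
    simp [blk] at hv ⊢
    omega
  | succ m ih =>
    intro v hv
    rw [pow_succ] at hv
    by_cases h : v < 2 ^ m
    · obtain ⟨a, ha, hb⟩ := ih v h
      refine ⟨a, fun x hx => ⟨(ha x hx).1, by have := (ha x hx).2; omega⟩, ?_⟩
      rw [evt_blk_succ, if_neg fun h1 => by have := (ha _ h1).2; omega, hb, add_zero]
    · obtain ⟨a, ha, hb⟩ := ih (v - 2 ^ m) (by omega)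
      refine ⟨insert (s + m) a, fun x hx => ?_, ?_⟩
      · rcases Finset.mem_insert.1 hx with rfl | hx
        · omega
        · have := ha x hx
          omega
      · rw [evt_blk_succ, if_pos (Finset.mem_insert_self _ _)]
        have h1 : blk s m (insert (s + m) a) = blk s m a := by
          refine evt_blk_congr s m _ _ fun i hi => ?_
          rw [Finset.mem_insert]
          constructor
          · rintro (h2 | h2)
            · omega
            · exact h2
          · exact Or.inr
        rw [h1, hb]
        omega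

theorem evt_posv_succ (k : ℕ) : posv (k + 1) = posv k + Nat.log 2 (k + 2) := rfl

theorem evt_posv_mono {k k' : ℕ} (h : k ≤ k') : posv k ≤ posv k' := by
  have h1 : Monotone posv := monotone_nat_of_le_succ fun n => by
    rw [evt_posv_succ]
    exact Nat.le_add_right _ _
  exact h1 h

theorem evt_post_le (k : ℕ) : k ≤ post k := by
  induction k with
  | zero => exact Nat.zero_le _
  | succ k ih => show k + 1 ≤ post k + (k + 1); omega

/-- counting the sets which avoid given codes on the blocks from `k0` on -/
theorem evt_cnt (t : ℕ → ℕ) (k0 j : ℕ)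
    (ht : ∀ k, k0 ≤ k → k < k0 + j → t k < 2 ^ Nat.log 2 (k + 2)) :
    ((Finset.range (posv (k0 + j))).powerset.filter fun a => ∀ k, k0 ≤ k → k < k0 + j →
      blk (posv k) (Nat.log 2 (k + 2)) a ≠ t k).card * (k0 + j + 1) ≤
        2 ^ posv (k0 + j) * (k0 + 1) := by
  induction j with
  | zero =>
    rw [add_zero]
    refine Nat.mul_le_mul_right _ ?_
    refine (Finset.card_le_card (Finset.filter_subset _ _)).trans ?_
    rw [Finset.card_powerset, Finset.card_range]
  | succ j ih =>
    have ih := ih fun k h1 h2 => ht k h1 (by omega)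
    set G := (Finset.range (posv (k0 + j))).powerset.filter fun a => ∀ k, k0 ≤ k → k < k0 + j →
      blk (posv k) (Nat.log 2 (k + 2)) a ≠ t k with hG
    set m := posv (k0 + j) with hm
    set e := Nat.log 2 (k0 + j + 2) with he
    have hle : 2 ^ e ≤ k0 + j + 2 := Nat.pow_log_le_self 2 (by omega)
    have hme : posv (k0 + (j + 1)) = m + e := evt_posv_succ (k0 + j)
    rw [hme]
    set G' := (Finset.range (m + e)).powerset.filter fun a => ∀ k, k0 ≤ k → k < k0 + (j + 1) →
      blk (posv k) (Nat.log 2 (k + 2)) a ≠ t k with hG'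
    have hcard : G'.card ≤ G.card * (2 ^ e - 1) := by
      have h1 : G'.card ≤ (G ×ˢ ((Finset.range (2 ^ e)).erase (t (k0 + j)))).card := by
        refine Finset.card_le_card_of_injOn
          (fun a => (a.filter fun x => x < m, blk m e a)) ?_ ?_
        · intro a ha
          rw [Finset.mem_coe, hG', Finset.mem_filter, Finset.mem_powerset] at ha
          rw [Finset.mem_coe, Finset.mem_product]
          refine ⟨?_, ?_⟩
          · show (a.filter fun x => x < m) ∈ G
            rw [hG, Finset.mem_filter, Finset.mem_powerset]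
            refine ⟨fun x hx => Finset.mem_range.2 (Finset.mem_filter.1 hx).2, fun k h2 h3 => ?_⟩
            have h4 := ha.2 k h2 (by omega)
            have h5 : blk (posv k) (Nat.log 2 (k + 2)) (a.filter fun x => x < m) =
                blk (posv k) (Nat.log 2 (k + 2)) a := by
              refine evt_blk_congr _ _ _ _ fun i hi => ?_
              rw [Finset.mem_filter]
              have h6 : posv k + i < m := by
                have h7 : posv (k + 1) ≤ m := evt_posv_mono (by omega)
                rw [evt_posv_succ] at h7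
                omega
              exact ⟨fun h => h.1, fun h => ⟨h, h6⟩⟩
            rw [h5]
            exact h4
          · show blk m e a ∈ (Finset.range (2 ^ e)).erase (t (k0 + j))
            rw [Finset.mem_erase, Finset.mem_range]
            exact ⟨ha.2 (k0 + j) (by omega) (by omega), evt_blk_lt _ _ _⟩
        · intro a ha a' ha' h
          rw [Finset.mem_coe, hG', Finset.mem_filter, Finset.mem_powerset] at ha ha'
          have h1 : (a.filter fun x => x < m) = a'.filter fun x => x < m := congrArg Prod.fst h
          have h2 : blk m e a = blk m e a' := congrArg Prod.snd h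
          have h3 := evt_blk_inj m e a a' h2
          ext x
          by_cases hx : x < m
          · have h4 := Finset.ext_iff.1 h1 x
            rw [Finset.mem_filter, Finset.mem_filter] at h4
            exact ⟨fun h => (h4.1 ⟨h, hx⟩).1, fun h => (h4.2 ⟨h, hx⟩).1⟩
          · by_cases hx' : x < m + e
            · have h4 := h3 (x - m) (by omega)
              rwa [Nat.add_sub_cancel' (by omega)] at h4
            · constructor
              · intro h
                exact absurd (Finset.mem_range.1 (ha.1 h)) hx'
              · intro h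
                exact absurd (Finset.mem_range.1 (ha'.1 h)) hx'
      rw [Finset.card_product, Finset.card_erase_of_mem (Finset.mem_range.2
        (ht (k0 + j) (by omega) (by omega))), Finset.card_range] at h1
      exact h1
    have hpos : 0 < 2 ^ e := pow_pos two_pos e
    have h5 : (2 ^ e - 1) * (k0 + (j + 1) + 1) ≤ 2 ^ e * (k0 + j + 1) := by
      obtain ⟨u, hu⟩ : ∃ u, 2 ^ e = u + 1 := ⟨2 ^ e - 1, by omega⟩
      rw [hu] at hle ⊢
      rw [Nat.add_sub_cancel]
      nlinarith
    calc G'.card * (k0 + (j + 1) + 1) ≤ G.card * (2 ^ e - 1) * (k0 + (j + 1) + 1) :=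
          Nat.mul_le_mul_right _ hcard
      _ = G.card * ((2 ^ e - 1) * (k0 + (j + 1) + 1)) := mul_assoc _ _ _
      _ ≤ G.card * (2 ^ e * (k0 + j + 1)) := Nat.mul_le_mul_left _ h5
      _ = G.card * (k0 + j + 1) * 2 ^ e := by ring
      _ ≤ 2 ^ m * (k0 + 1) * 2 ^ e := Nat.mul_le_mul_right _ ih
      _ = 2 ^ (m + e) * (k0 + 1) := by rw [pow_add]; ring

/-- growth -/
theorem evt_growth (N K : ℕ) : ∃ k, K ≤ k ∧ N * (k + 1) ^ N < 2 ^ (k + 1) := by
  have h1 := tendsto_pow_const_div_const_pow_of_one_lt N (r := (2 : ℝ)) one_lt_two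
  have h2 : ∀ᶠ n : ℕ in Filter.atTop, ((n : ℝ) ^ N / 2 ^ n) < 1 / ((N : ℝ) + 1) :=
    h1.eventually (gt_mem_nhds (by positivity))
  obtain ⟨M, hM⟩ := Filter.eventually_atTop.1 h2
  refine ⟨max K M, le_max_left _ _, ?_⟩
  have h3 := hM (max K M + 1) ((le_max_right K M).trans (Nat.le_succ _))
  rw [div_lt_div_iff₀ (by positivity) (by positivity), one_mul] at h3
  have h4 : (((max K M + 1) ^ N * (N + 1) : ℕ) : ℝ) < ((2 ^ (max K M + 1) : ℕ) : ℝ) := by
    push_cast
    push_cast at h3
    exact h3
  have h5 : (max K M + 1) ^ N * (N + 1) < 2 ^ (max K M + 1) := by exact_mod_cast h4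
  calc N * (max K M + 1) ^ N ≤ (max K M + 1) ^ N * (N + 1) := by
        rw [mul_comm]
        exact Nat.mul_le_mul_left _ (Nat.le_succ N)
    _ < _ := h5

end CI
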