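import Pool.Agent.CI.C.Cond
import Pool.Agent.CL.RO

/-!
# Project CI, core: data of an iteration, the order, the Boolean algebra, cylinders (definitions)
-/

set_option autoImplicit false

open Set Cardinal Pool.Agent.CL

namespace CI

universe u

/-- finite partial functions from the coordinates to the labels -/
@[ext] structure PF (K : Type u) (Λ : Type u) where
  f : K → Option Λ
  fin : {b | f b ≠ none}.Finite

namespace PF

variable {K Λ : Type u}

/-- the domain -/
def dom (p : PF K Λ) : Set K := {b | p.f b ≠ none}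

/-- the restriction to `Z` -/
noncomputable def res (p : PF K Λ) (Z : Set K) : PF K Λ where
  f b := open Classical in if b ∈ Z then p.f b else none
  fin := p.fin.subset fun b hb => by
    simp only [mem_ofPred_eq] at hb ⊢
    intro h
    apply hb
    split_ifs
    · exact h
    · rfl

/-- change of the value at `b` -/
noncomputable def upd (p : PF K Λ) (b : K) (c : Λ) : PF K Λ where
  f x := open Classical in if x = b then some c else p.f x
  fin := (p.fin.union (finite_singleton b)).subset fun x hx => by
    simp only [mem_ofPred_eq, mem_union, mem_singleton_iff] at hx ⊢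
    by_cases h : x = b
    · exact Or.inr h
    · left
      rwa [if_neg h] at hx

/-- the empty function -/
def nil : PF K Λ := ⟨fun _ => none, by simp⟩

/-- the function with one value -/
noncomputable def sng (b : K) (c : Λ) : PF K Λ := nil.upd b c

/-- the union, `r` is stronger on its domain -/
def ov (r p : PF K Λ) : PF K Λ where
  f x := (r.f x).orElse fun _ => p.f x
  fin := (r.fin.union p.fin).subset fun x hx => by
    simp only [mem_ofPred_eq, mem_union] at hx ⊢
    by_contra h
    push Not at h
    apply hx
    rw [h.1, h.2]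
    rfl

end PF

/-- `p ≤ q` for the raw data `D` -/
def leD {K Λ : Type u} [LinearOrder K] (D : K → Λ → Λ → Set (PF K Λ)) (p q : PF K Λ) : Prop :=
  ∀ b c, q.f b = some c → ∃ c', p.f b = some c' ∧ p.res (Iio b) ∈ D b c' c

/-- data of an iteration: `D b c' c` is the truth value of `c' ≤ c` at the coordinate `b` -/
structure Dat (K Λ : Type u) [LinearOrder K] where
  D : K → Λ → Λ → Set (PF K Λ)
  refl : ∀ b c p, p ∈ D b c c
  trans : ∀ b c₁ c₂ c₃ p, p ∈ D b c₁ c₂ → p ∈ D b c₂ c₃ → p ∈ D b c₁ c₃
  cyl : ∀ b c' c p, p ∈ D b c' c ↔ p.res (Iio b) ∈ D b c' c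
  down : ∀ b c' c p q, leD D p q → q ∈ D b c' c → p ∈ D b c' c
  reg : ∀ b c' c p, (∀ q, leD D q p → ∃ r, leD D r q ∧ r ∈ D b c' c) → p ∈ D b c' c

section

variable {K Λ : Type u} [LinearOrder K]

/-- the forcing of the data -/
def PD (_D : Dat K Λ) : Type u := PF K Λ

variable (D : Dat K Λ)

noncomputable instance : Preorder (PD D) where
  le p q := leD D.D p q
  le_refl p b c h := ⟨c, h, D.refl _ _ _⟩
  le_trans p q r h1 h2 b c h := by
    obtain ⟨c', hc', hm⟩ := h2 b c h
    obtain ⟨c'', hc'', hm'⟩ := h1 b c' hc'
    refine ⟨c'', hc'', D.trans b c'' c' c _ hm' (D.down b c' c _ _ ?_ hm)⟩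
    intro x d hx
    by_cases hxb : x < b
    · have : q.f x = some d := by
        simpa [PF.res, hxb] using hx
      obtain ⟨d', hd', hm''⟩ := h1 x d this
      refine ⟨d', by simpa [PF.res, hxb] using hd', ?_⟩
      have : (PF.res (PF.res p (Iio b)) (Iio x)) = PF.res p (Iio x) := by
        ext y
        by_cases hy : y < x
        · simp [PF.res, hy, hy.trans hxb]
        · simp [PF.res, hy]
      rw [this]
      exact hm''
    · simp [PF.res, hxb] at hx

/-- the complete Boolean algebra of the iteration -/
abbrev BB : Type u := RO (PD D)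

/-- the element of a condition -/
noncomputable def ee (p : PF K Λ) : BB D := RO.pt (Q := PD D) p

/-- the element of a label at a coordinate -/
noncomputable def eb (b : K) (c : Λ) : BB D := ee D (PF.sng b c)

/-- the truth value of `c' ≤ c` at `b` -/
def dv (b : K) (c' c : Λ) : BB D where
  S := {p : PD D | p ∈ D.D b c' c}
  isReg := fun p => ⟨fun h q hq => ⟨q, le_rfl, D.down b c' c q p hq h⟩, fun h => D.reg b c' c p h⟩

/-- cylinders over `Z` -/
def SZ (Z : Set K) : Set (BB D) := {U | ∀ p : PF K Λ, p ∈ U.S ↔ p.res Z ∈ U.S}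

/-- sets of coordinates closed under memory -/
def Tr (Z : Set K) : Prop := ∀ b ∈ Z, ∀ c' c, dv D b c' c ∈ SZ D Z

/-- the poset of countable partial functions from the coordinates to the guesses, ordered by
extension -/
structure AF (K Θ : Type u) where
  f : K → Option Θ
  ctb : {b | f b ≠ none}.Countable

instance {K Θ : Type u} : Preorder (AF K Θ) where
  le a a' := ∀ b x, a'.f b = some x → a.f b = some x
  le_refl _ _ _ h := h
  le_trans _ _ _ h1 h2 b x h := h1 b x (h2 b x h)

variable (Θ : Type u)

/-- the target of the limit homomorphism -/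
abbrev TT : Type u := RO (AF K Θ × PD D)

variable {Θ}

/-- cylinders over `Z` in the target -/
def TZ (Θ : Type u) (Z : Set K) : Set (TT D Θ) :=
  {U | ∀ (a : AF K Θ) (p : PF K Λ), (a, p) ∈ U.S ↔ (a, p.res Z) ∈ U.S}

/-- the algebra inside the target -/
def iB (Θ : Type u) (U : BB D) : TT D Θ where
  S := {x | x.2 ∈ U.S}
  isReg := by
    rintro ⟨a, p⟩
    constructor
    · intro h q hq
      exact ⟨q, le_rfl, U.isReg.down h hq.2⟩
    · intro h
      refine (U.isReg p).2 fun q hq => ?_
      obtain ⟨⟨a', r⟩, hr, hU⟩ := h (a, q) ⟨le_rfl, hq⟩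
      exact ⟨r, hr.2, hU⟩

/-- a guess inside the target -/
noncomputable def iA (a : AF K Θ) : TT D Θ := RO.pt (Q := AF K Θ × PD D) (a, PF.nil)

/-- a condition inside the target -/
noncomputable def iAP (a : AF K Θ) (p : PF K Λ) : TT D Θ := RO.pt (Q := AF K Θ × PD D) (a, p)

end

end CI
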