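import Pool.Agent.CI.C.ItrLem

/-!
# Project CI, core: cylinders, projections, the target algebra, deciding (statements)
-/

set_option autoImplicit false

open Set Cardinal Pool.Agent.CL

namespace CI

universe u

/-- amalgamation over a set closed under memory, monotonicity of the restriction -/
def TrStm : Prop :=
  ∀ (K Λ : Type u) [LinearOrder K] (D : Dat K Λ) (Z : Set K), Tr D Z →
    (∀ r p : PF K Λ, r.dom ⊆ Z → @LE.le (PD D) _ r (p.res Z) →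
      @LE.le (PD D) _ (r.ov p) r ∧ @LE.le (PD D) _ (r.ov p) p) ∧
    (∀ p q : PF K Λ, @LE.le (PD D) _ p q → @LE.le (PD D) _ (p.res Z) (q.res Z))

/-- cylinders form a complete subalgebra -/
def SZStm : Prop :=
  ∀ (K Λ : Type u) [LinearOrder K] (D : Dat K Λ) (Z : Set K), Tr D Z →
    IsCS (SZ D Z) ∧ (∀ p : PF K Λ, p.dom ⊆ Z → ee D p ∈ SZ D Z) ∧
    (∀ U ∈ SZ D Z, ∀ p : PF K Λ, ee D p ≤ U ↔ ee D (p.res Z) ≤ U) ∧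
    (∀ U ∈ SZ D Z, U ≠ ⊥ → ∃ p : PF K Λ, p.dom ⊆ Z ∧ ee D p ≤ U) ∧
    (∀ U ∈ SZ D Z, U ≠ ⊥ → ∀ p : PF K Λ, Disjoint p.dom Z → U ⊓ ee D p ≠ ⊥) ∧
    (∀ U ∈ SZ D Z, ∀ p q : PF K Λ, q.dom ⊆ Z → ee D q ≤ U → @LE.le (PD D) _ q (p.res Z) →
      ee D (q.ov p) ≤ U ⊓ ee D p)

/-- upper projections to cylinders -/
def UPStm : Prop :=
  ∀ (K Λ : Type u) [LinearOrder K] (D : Dat K Λ) (Z : Set K), Tr D Z →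
    ∃ ρ : BB D → BB D, IsUP (SZ D Z) ρ ∧
      ∀ Z' : Set K, Tr D Z' → ∀ U ∈ SZ D Z', ρ U ∈ SZ D (Z ∩ Z')

/-- `e(p)` is the infimum of its coordinates -/
def EeStm : Prop :=
  ∀ (K Λ : Type u) [LinearOrder K] (D : Dat K Λ),
    (∀ p : PF K Λ, ee D p = ⨅ b : K, ⨅ c : Λ, ⨅ _ : p.f b = some c, eb D b c) ∧
    (∀ b c' c, dv D b c' c ⊓ eb D b c' ≤ eb D b c) ∧
    (∀ (p : PF K Λ) (b : K) (c : Λ), p.f b = none → ee D (p.upd b c) = ee D p ⊓ eb D b c) ∧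
    (∀ (p : PF K Λ) (b : K) (c : Λ), p.f b = some c → ee D p ≤ eb D b c) ∧
    (∀ (p : PF K Λ) (Z : Set K), ee D p = ee D (p.res Z) ⊓ ee D (p.res Zᶜ)) ∧
    (∀ (p q : PF K Λ), (∀ b ∈ q.dom, b ∉ p.dom) → ee D (p.ov q) = ee D p ⊓ ee D q)

/-- elements of the algebra of `Iic b` below: a condition below `b` and a label at `b` -/
def IicStm : Prop :=
  ∀ (K Λ : Type u) [LinearOrder K] (D : Dat K Λ) (Z : Set K) (b : K), Tr D Z →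
    Z ⊆ Iic b → b ∈ Z → Nonempty Λ → ∀ U ∈ SZ D Z, U ≠ ⊥ →
    ∃ (r : PF K Λ) (c : Λ), r.dom ⊆ Z ∩ Iio b ∧ ee D r ⊓ eb D b c ≤ U

/-- the embedding of the algebra in the target -/
def IBStm : Prop :=
  ∀ (K Λ Θ : Type u) [LinearOrder K] (D : Dat K Λ),
    (∀ U V : BB D, iB D Θ U ≤ iB D Θ V ↔ U ≤ V) ∧
    (∀ U V : BB D, iB D Θ (U ⊓ V) = iB D Θ U ⊓ iB D Θ V) ∧
    (∀ U V : BB D, iB D Θ (U ⊔ V) = iB D Θ U ⊔ iB D Θ V) ∧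
    (∀ U : BB D, iB D Θ Uᶜ = (iB D Θ U)ᶜ) ∧
    iB D Θ ⊥ = ⊥ ∧ iB D Θ ⊤ = ⊤ ∧
    (∀ (ι : Type u) (U : ι → BB D), iB D Θ (⨆ i, U i) = ⨆ i, iB D Θ (U i)) ∧
    (∀ (ι : Type u) (U : ι → BB D), iB D Θ (⨅ i, U i) = ⨅ i, iB D Θ (U i)) ∧
    (∀ (U : ℕ → BB D), iB D Θ (⨆ i, U i) = ⨆ i, iB D Θ (U i)) ∧
    (∀ (U : ℕ → BB D), iB D Θ (⨅ i, U i) = ⨅ i, iB D Θ (U i)) ∧
    (∀ Z : Set K, ∀ U ∈ SZ D Z, iB D Θ U ∈ TZ D Θ Z)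

/-- guesses and conditions in the target -/
def IAStm : Prop :=
  ∀ (K Λ Θ : Type u) [LinearOrder K] (D : Dat K Λ),
    (∀ (a : AF K Θ) (p : PF K Λ), iAP D a p = iA D a ⊓ iB D Θ (ee D p)) ∧
    (∀ (a : AF K Θ) (p : PF K Λ), iAP D a p ≠ ⊥) ∧
    (∀ (a : AF K Θ) (p : PF K Λ) (t : TT D Θ), (a, p) ∈ t.S ↔ iAP D a p ≤ t) ∧
    (∀ a a' : AF K Θ, a' ≤ a → iA D a' ≤ iA D a) ∧
    (∀ (a : AF K Θ) (U : BB D), U ≠ ⊥ → iA D a ⊓ iB D Θ U ≠ ⊥) ∧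
    (∀ (a : AF K Θ) (Z : Set K), iA D a ∈ TZ D Θ Z) ∧
    (∀ t : TT D Θ, t ≠ ⊥ → ∃ (a : AF K Θ) (p : PF K Λ), iAP D a p ≤ t) ∧
    (∀ (s : Finset (AF K Θ)) (a : AF K Θ) (p : PF K Λ) , (∀ a' ∈ s, iAP D a p ≤ iA D a') →
      ∃ (a₁ : AF K Θ) (p₁ : PF K Λ), a₁ ≤ a ∧ @LE.le (PD D) _ p₁ p ∧ ∀ a' ∈ s, a₁ ≤ a')

/-- cylinders in the target -/
def TZStm : Prop :=
  ∀ (K Λ Θ : Type u) [LinearOrder K] (D : Dat K Λ) (Z : Set K), Tr D Z →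
    IsCS (TZ D Θ Z) ∧ (∀ Z' : Set K, Z ⊆ Z' → TZ D Θ Z ⊆ TZ D Θ Z') ∧
    (∀ t ∈ TZ D Θ Z, ∀ (a : AF K Θ) (p : PF K Λ), iAP D a p ≤ t ↔ iAP D a (p.res Z) ≤ t) ∧
    (∀ t ∈ TZ D Θ Z, t ≠ ⊥ → ∃ (a : AF K Θ) (p : PF K Λ), p.dom ⊆ Z ∧ iAP D a p ≤ t)

/-- deciding elements of the target -/
def DecStm : Prop :=
  ∀ (K Λ Θ : Type u) [LinearOrder K] (D : Dat K Λ) (Z : Set K), Tr D Z → Ccc (BB D) →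
    ∀ t ∈ TZ D Θ Z, ∀ a : AF K Θ, ∃ a' ≤ a, ∃ U ∈ SZ D Z, iA D a' ⊓ t = iA D a' ⊓ iB D Θ U

/-- deciding members of a supremum -/
def Dec2Stm : Prop :=
  ∀ (K Λ Θ : Type u) [LinearOrder K] (D : Dat K Λ), Ccc (BB D) →
    ∀ (ι : Type u) (t : ι → TT D Θ) (a : AF K Θ) (p : PF K Λ), iAP D a p ≤ ⨆ i, t i →
      ∃ a' ≤ a, ∃ (q : ℕ → PF K Λ) (i : ℕ → ι), (∀ n, @LE.le (PD D) _ (q n) p) ∧
        (∀ n, iAP D a' (q n) ≤ t (i n)) ∧ ee D p ≤ ⨆ n, ee D (q n)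

/-- decreasing sequences of guesses have lower bounds -/
def AFStm : Prop :=
  ∀ (K Θ : Type u) (a : ℕ → AF K Θ), (∀ n, a (n + 1) ≤ a n) → ∃ a', ∀ n, a' ≤ a n

/-- the chain condition of the poset of guesses -/
def AFccStm : Prop :=
  ∀ (K Θ : Type u) (θ : Cardinal.{u}), ℵ₀ ≤ θ → θ ^ ℵ₀ = θ → #Θ ≤ θ →
    ∀ s : Set (AF K Θ), (∀ a ∈ s, ∀ b ∈ s, a ≠ b → ¬ ∃ c, c ≤ a ∧ c ≤ b) → #s ≤ θ

/-- closed memories exist -/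
def MemStm : Prop :=
  ∀ (K Λ L Θ : Type u) [LinearOrder K] [LinearOrder L] (S : Sys K Λ L) (rd : Θ → ℕ → Λ)
    (rt : Θ → List ℕ) (I : Set K) (φ : (ℕ → BB S.D) → TT S.D Θ) (θ₀ θ : Cardinal.{u}),
    IsLowerSet I → S.Good rd rt I φ → Ccc (BB S.D) → 2 ≤ θ → ℵ₀ ≤ θ₀ → θ₀ ≤ θ → θ ^ ℵ₀ = θ →
    θ₀ ^ ℵ₀ = θ₀ → #Θ ≤ θ₀ → ∀ (x : L) (X : Set (BB S.D)), X ⊆ SZ S.D (I ∩ S.Zl x) → #X ≤ θ →
      ∃ W : Set (BB S.D), X ⊆ W ∧ W ⊆ SZ S.D (I ∩ S.Zl x) ∧ #W ≤ θ ∧ IsSS W ∧ S.Cld W φ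

/-- the cylinders over a layer are closed -/
def LayCldStm : Prop :=
  ∀ (K Λ L Θ : Type u) [LinearOrder K] [LinearOrder L] (S : Sys K Λ L) (rd : Θ → ℕ → Λ)
    (rt : Θ → List ℕ) (I : Set K) (φ : (ℕ → BB S.D) → TT S.D Θ),
    IsLowerSet I → S.Good rd rt I φ → Ccc (BB S.D) → ∀ x : L,
      S.Cld (SZ S.D (I ∩ S.Zl x)) φ ∧ IsSS (SZ S.D (I ∩ S.Zl x))

/-- the layers are closed under memory -/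
def ZlStm : Prop :=
  ∀ (K Λ L : Type u) [LinearOrder K] [LinearOrder L] (S : Sys K Λ L) (x : L), Tr S.D (S.Zl x)

end CI
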