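import Pool.Agent.CI.C.MdlStm

/-!
# Project CI, core: lower bounds (statements)
-/

set_option autoImplicit false

open Set Cardinal Pool.Agent.CL

namespace CI

universe u

/-! ### the slalom kind and null sets -/

/-- the code of a clopen set: `(m, A)` codes the set of all `x` with `x ∩ m ∈ A` -/
noncomputable def cc (v : ℕ) : ℕ × Finset (Finset ℕ) := Denumerable.ofNat (ℕ × Finset (Finset ℕ)) v

/-- the codes used at the place `n` of a slalom: clopen sets of measure at most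
`(n + 2) / 4 ^ n` -/
def ccOK (n v : ℕ) : Prop :=
  (∀ a ∈ (cc v).2, a ⊆ Finset.range (cc v).1) ∧ 4 ^ n * (cc v).2.card ≤ (n + 2) * 2 ^ (cc v).1

section

variable {B : Type u} [CompleteBooleanAlgebra B]

/-- all values of the name are in `W` -/
def NulC.In (c : NulC B) (W : Set B) : Prop := ∀ k n a, (c.U k).O n a ∈ W

/-- the truth value of: `x` is in the clopen set with the code `v` -/
noncomputable def ccV (x : Rl B) (v : ℕ) : B := ⨆ a : Finset ℕ, ⨆ _ : a ∈ (cc v).2, cutV x (cc v).1 a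

end

/-- a null set is covered by the limes superior of small clopen sets -/
def LocCodeStm : Prop :=
  ∀ (B : Type u) [CompleteBooleanAlgebra B] (W : Set B), IsSS W → ∀ c : NulC B, c.In W →
    ∃ f : Fu B, (∀ n v, f.f n v ∈ W) ∧ (∀ n v, f.f n v ≠ ⊥ → ccOK n v) ∧
      ∀ (x : Rl B) (k : ℕ), c.mem x ≤ ⨆ n : ℕ, ⨆ _ : k ≤ n, ⨆ v : ℕ, f.f n v ⊓ ccV x v

/-- the null set of a slalom of clopen sets -/
def LocNulStm : Prop :=
  ∀ (B : Type u) [CompleteBooleanAlgebra B] (g : Fu B), ∃ d : NulC B, ∀ x : Rl B,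
    (⨅ k : ℕ, ⨆ n : ℕ, ⨆ _ : k ≤ n, ⨆ v : ℕ, ⨆ _ : (fs v).card ≤ n, ⨆ j : ℕ,
      ⨆ _ : j ∈ fs v ∧ ccOK n j, g.f n v ⊓ ccV x j) ≤ d.mem x

/-- the generic slalom -/
def LocGenStm : Prop :=
  ∀ (K Λ L : Type u) [LinearOrder K] [LinearOrder L] (S : Sys K Λ L) (b : K), S.kd b = .loc →
    ∀ f : Fu (BB S.D), (∀ n j, f.f n j ∈ S.W b) →
      (⨆ m : ℕ, ⨅ n : ℕ, ⨅ _ : m ≤ n, ⨆ v : ℕ, ⨆ _ : (fs v).card ≤ n, ⨆ j : ℕ, ⨆ _ : j ∈ fs v,
        f.f n j ⊓ S.gen b n v) = ⊤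

/-- lower bound for the additivity of the null ideal -/
def LocStm : Prop :=
  ∀ (K Λ L : Type u) [LinearOrder K] [LinearOrder L] (S : Sys K Λ L) (b : K),
    S.kd b = .loc → ∃ d : NulC (BB S.D), ∀ c : NulC (BB S.D), c.In (S.W b) →
      ∀ x, c.mem x ≤ d.mem x

/-! ### the other kinds -/

/-- the dominating function -/
def HechStm : Prop :=
  ∀ (K Λ L : Type u) [LinearOrder K] [LinearOrder L] (S : Sys K Λ L) (b : K),
    S.kd b = .hech → ∃ g : Fu (BB S.D), ∀ f : Fu (BB S.D), (∀ n k, f.f n k ∈ S.W b) →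
      f.le g = ⊤

/-- the generic real of the random kind -/
def RGenStm : Prop :=
  ∀ (K Λ L : Type u) [LinearOrder K] [LinearOrder L] (S : Sys K Λ L) (b : K),
    S.kd b = .rnd → ∃ x : Rl (BB S.D), ∀ ρ n a, a ⊆ Finset.range n →
      eb S.D b ρ ⊓ cutV x n a ≤ (S.cR b ρ).τ n a

/-- the random real avoids the null sets of `W` -/
def RndStm : Prop :=
  ∀ (K Λ L : Type u) [LinearOrder K] [LinearOrder L] (S : Sys K Λ L) (b : K),
    S.kd b = .rnd → ∃ x : Rl (BB S.D), ∀ c : NulC (BB S.D), c.In (S.W b) → c.mem x = ⊥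

/-- `F` is the name of the closed set of all `x` such that for all `k ≥ n` the code of `x` on the
`k`-th block `[pos k, pos (k + 1))` is different from `c (k)` -/
def IsF {B : Type u} [CompleteBooleanAlgebra B] (pos : ℕ → ℕ) (c : ℕ → ℕ → B) (n : ℕ)
    (F : CloC B) : Prop :=
  ∀ m a, a ⊆ Finset.range m → F.T m a =
    ⨅ k : ℕ, ⨅ _ : n ≤ k ∧ pos (k + 1) ≤ m, (c k (blk (pos k) (pos (k + 1) - pos k) a))ᶜ

/-- these names exist -/
def CloExStm : Prop :=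
  ∀ (B : Type u) [CompleteBooleanAlgebra B] (pos : ℕ → ℕ) (c : ℕ → ℕ → B), StrictMono pos →
    (∀ k v v', v ≠ v' → c k v ⊓ c k v' = ⊥) → ∀ n, ∃ F : CloC B, IsF pos c n F

/-- the reals of `W` are in the closed sets of the generic function -/
def EdInStm : Prop :=
  ∀ (K Λ L : Type u) [LinearOrder K] [LinearOrder L] (S : Sys K Λ L) (b : K),
    (S.kd b).isE → ∀ pos : ℕ → ℕ, StrictMono pos → ∀ F : ℕ → CloC (BB S.D),
      (∀ n, IsF pos (S.gen b) n (F n)) →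
      ∀ x : Rl (BB S.D), (∀ n, x n ∈ S.W b) → ⨆ n, (F n).mem x = ⊤

/-- short blocks: `pos (k + 1) = pos k + log₂ (k + 2)` -/
def posv : ℕ → ℕ
  | 0 => 0
  | k + 1 => posv k + Nat.log 2 (k + 2)

/-- blocks of length `k + 1` -/
def post : ℕ → ℕ
  | 0 => 0
  | k + 1 => post k + (k + 1)

/-- small closed sets have measure zero -/
def EvNulStm : Prop :=
  ∀ (K Λ L : Type u) [LinearOrder K] [LinearOrder L] (S : Sys K Λ L) (b : K),
    S.kd b = .ev → ∀ (n : ℕ) (F : CloC (BB S.D)), IsF posv (S.gen b) n F → F.Nul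

/-- nowhere dense closed sets -/
def EtNwdStm : Prop :=
  ∀ (K Λ L : Type u) [LinearOrder K] [LinearOrder L] (S : Sys K Λ L) (b : K),
    S.kd b = .et → ∀ (n : ℕ) (F : CloC (BB S.D)), IsF post (S.gen b) n F → F.Nwd

/-- the Cohen reals avoid the nowhere dense sets of smaller memory -/
def CovStm : Prop :=
  ∀ (K Λ L : Type u) [LinearOrder K] [LinearOrder L] (S : Sys K Λ L) (i : K)
    (Z : Set K), S.kd i = .coh → Tr S.D Z → i ∉ Z →
    ∀ F : CloC (BB S.D), (∀ n a, F.T n a ∈ SZ S.D Z) → F.Nwd → F.mem (S.crl i) = ⊥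

/-! ### assembly -/

/-- all lower bounds of the core -/
structure LowP (B : Type u) [CompleteBooleanAlgebra B] (l : Fin 8 → Cardinal.{u}) : Prop where
  addN_ge : ∀ (I : Type u), #I < l 1 → ∀ c : I → NulC B, ∃ d : NulC B,
    ∀ i x, (c i).mem x ≤ d.mem x
  b_ge : ∀ (I : Type u), #I < l 2 → ∀ f : I → Fu B, ∃ g : Fu B, ∀ i, (f i).le g = ⊤
  covN_ge : ∀ (I : Type u), #I < l 3 → ∀ c : I → NulC B, ∃ x : Rl B, ∀ i, (c i).mem x = ⊥
  nonE_ge : ∀ (I : Type u), #I < l 4 → ∀ x : I → Rl B, ∃ F : ℕ → CloC B, (∀ n, (F n).Nul) ∧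
    ∀ i, ⨆ n, (F n).mem (x i) = ⊤
  nonM_ge : ∀ (I : Type u), #I < l 5 → ∀ x : I → Rl B, ∃ F : ℕ → CloC B, (∀ n, (F n).Nwd) ∧
    ∀ i, ⨆ n, (F n).mem (x i) = ⊤
  nonM_le : ∃ (I : Type u) (x : I → Rl B), #I = l 5 ∧ ∀ F : ℕ → CloC B, (∀ n, (F n).Nwd) →
    ⨅ i, ⨆ n, (F n).mem (x i) = ⊥
  covM_ge : ∀ (I : Type u), #I < l 6 → ∀ F : I → ℕ → CloC B, (∀ i n, (F i n).Nwd) →
    ∃ x : Rl B, ∀ i n, (F i n).mem x = ⊥
  covM_le : ∃ (I : Type u) (F : I → ℕ → CloC B), #I = l 6 ∧ (∀ i n, (F i n).Nwd) ∧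
    ∀ x : Rl B, ⨆ i, ⨆ n, (F i n).mem x = ⊤

/-- the upper bounds of the core -/
structure UppP (B : Type u) [CompleteBooleanAlgebra B] (l : Fin 8 → Cardinal.{u}) : Prop where
  addN_le : ∃ (I : Type u) (c : I → NulC B), #I = l 1 ∧ ∀ d : NulC B,
    ⨅ i, ⨅ x, (c i).mem x ⇨ d.mem x = ⊥
  b_le : ∃ (I : Type u) (f : I → Fu B), #I = l 2 ∧ ∀ g : Fu B, ⨅ i, (f i).le g = ⊥
  covN_le : ∃ (I : Type u) (c : I → NulC B), #I = l 3 ∧ ∀ x : Rl B, ⨆ i, (c i).mem x = ⊤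
  nonE_le : ∃ (I : Type u) (x : I → Rl B), #I = l 4 ∧ ∀ F : ℕ → CloC B, (∀ n, (F n).Nul) →
    ⨅ i, ⨆ n, (F n).mem (x i) = ⊥
  covE_ge : ∀ (I : Type u), #I < l 7 → ∀ F : I → ℕ → CloC B, (∀ i n, (F i n).Nul) →
    ∃ x : Rl B, ∀ i n, (F i n).mem x = ⊥
  nonN_ge : ∀ (I : Type u), #I < l 7 → ∀ x : I → Rl B, ∃ c : NulC B, ∀ i, c.mem (x i) = ⊤
  d_ge : ∀ (I : Type u), #I < l 7 → ∀ g : I → Fu B, ∃ f : Fu B, ∀ i, f.le (g i) = ⊥

def LowStm : Prop :=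
  ∀ (l th : Fin 8 → Cardinal.{u}) (m : Mdl l th), Crd l th →
    letI := m.iK; letI := m.iL
    LowP (BB m.S.D) l

def UppStm : Prop :=
  ∀ (l th : Fin 8 → Cardinal.{u}) (m : Mdl l th), Crd l th →
    letI := m.iK; letI := m.iL
    UppP (BB m.S.D) l

end CI
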