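import Pool.Agent.CI.C.Cond

/-!
# Project CI, core: facts about names of closed sets of positive measure (statements)

`B` is any complete Boolean algebra, `W` a `σ`-subalgebra.
-/

set_option autoImplicit false

open Set

namespace CI

universe u

/-- the intersection of a label with a tree, on the value `w`, is a label -/
def RCutStm : Prop :=
  ∀ (B : Type u) [CompleteBooleanAlgebra B] (W : Set B), IsSS W →
    ∀ (c : CndR W) (U : ℕ → Finset ℕ → B) (w : B) (j : ℕ), w ∈ W → (∀ n a, U n a ∈ W) → DecT U →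
      w ≤ mGe (fun n a => c.τ n a ⊓ U n a) (j + 1) 1 →
      ∃ κ : CndR W, κ.q = max c.q j ∧
        ∀ n a, κ.τ n a = c.τ n a ⊓ (wᶜ ⊔ U n a)

/-- symmetry and monotonicity of `nul` -/
def RNulStm : Prop :=
  ∀ (B : Type u) [CompleteBooleanAlgebra B] (W : Set B), IsSS W → ∀ c d e : CndR W,
    c.nul d ∈ W ∧ c.nul d = d.nul c ∧ e.cmp c ⊓ c.nul d ≤ e.nul d ∧ c.nul c = ⊥ ∧
    e.cmp c ⊓ e.cmp d ≤ (c.nul d)ᶜ

/-- if the finite unions of the closed sets `ρ i`, `i` with `w i`, have measure at most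
`k / (k + 1)` on `w*`, then there is a label almost disjoint from all of them -/
def RAvoidStm : Prop :=
  ∀ (B : Type u) [CompleteBooleanAlgebra B] (W : Set B), IsSS W →
    ∀ (ρ : ℕ → CndR W) (w : ℕ → B) (v : B) (k : ℕ), (∀ i, w i ∈ W) → v ∈ W →
      (∀ m, v ≤ (mGt (fun n a => ⨆ i : Fin m, w i ⊓ (ρ i).τ n a) k)ᶜ) →
      ∃ κ : CndR W, ∀ i, v ⊓ w i ≤ κ.nul (ρ i)

/-- a set of measure at least `1 / (k + 1)` is not almost disjoint from a set of measure greater
than `k / (k + 1)` -/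
def RAddStm : Prop :=
  ∀ (B : Type u) [CompleteBooleanAlgebra B] (W : Set B), IsSS W →
    ∀ (ρ : ℕ → CndR W) (w : ℕ → B) (σ : CndR W) (m : ℕ), (∀ i, w i ∈ W) →
      mGt (fun n a => ⨆ i : Fin m, w i ⊓ (ρ i).τ n a) σ.q ⊓
        (⨅ i : Fin m, w i ⇨ (ρ i).nul σ) = ⊥

/-- many sets of measure at least `1 / (k + 1)`: some `1 / (2 k + 2)`-part of them has an
intersection of positive measure -/
def RAmalgStm : Prop :=
  ∀ (B : Type u) [CompleteBooleanAlgebra B] (W : Set B), IsSS W →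
    ∀ (k M : ℕ) (c : Fin M → CndR W), (∀ i, (c i).q ≤ k) →
      (⨆ J : Finset (Fin M), ⨆ _ : M ≤ J.card * (2 * (k + 1)), ⨆ j : ℕ,
        mGe (fun n a => J.inf fun i => (c i).τ n a) (j + 1) 1) = ⊤

/-- density points: some basic clopen set `(m, b)` in which the closed set has relative measure at
least `3 / 4` -/
def RDensStm : Prop :=
  ∀ (B : Type u) [CompleteBooleanAlgebra B] (W : Set B), IsSS W → ∀ c : CndR W,
    (⨆ m : ℕ, ⨆ b : Finset ℕ, ⨆ _ : b ⊆ Finset.range m,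
      mGe (fun n a => open Classical in if b = a ∩ Finset.range m ∨ n ≤ m then c.τ n a else ⊥)
        (4 * 2 ^ m) 3) = ⊤

/-- two closed sets of relative measure at least `3 / 4` in the same basic clopen set -/
def RTwoStm : Prop :=
  ∀ (B : Type u) [CompleteBooleanAlgebra B] (m : ℕ) (b : Finset ℕ) (U V : ℕ → Finset ℕ → B),
    b ⊆ Finset.range m → DecT U → DecT V →
    mGe (fun n a => open Classical in if b = a ∩ Finset.range m ∨ n ≤ m then U n a else ⊥)
        (4 * 2 ^ m) 3 = ⊤ →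
    mGe (fun n a => open Classical in if b = a ∩ Finset.range m ∨ n ≤ m then V n a else ⊥)
        (4 * 2 ^ m) 3 = ⊤ →
    mGe (fun n a => U n a ⊓ V n a) (2 * 2 ^ m) 1 = ⊤

/-- a label minus a name of a small open set -/
def ROpnStm : Prop :=
  ∀ (B : Type u) [CompleteBooleanAlgebra B] (W : Set B), IsSS W →
    ∀ (c : CndR W) (O : OpnC B) (m : ℕ), (∀ n a, O.O n a ∈ W) → O.Le m →
      2 * (c.q + 1) ≤ 2 ^ m →
      ∃ κ : CndR W, (∀ n a, a ⊆ Finset.range n → κ.τ n a = c.τ n a ⊓ (O.O n a)ᶜ) ∧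
        κ.q = 2 * c.q + 1

end CI
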