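import Pool.Agent.CI.C.ItrStm
import Pool.Agent.CI.C.CndStm
import Pool.Agent.CI.C.RndStm

/-!
# Project CI, core: chain condition, finite amalgamation, generic objects, the steps of the
construction of the limit homomorphism (statements)
-/

set_option autoImplicit false

open Set Cardinal Pool.Agent.CL

namespace CI

universe u

/-! ### generic objects -/

/-- the generic object of an `S`-kind -/
def GenStm : Prop :=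
  ∀ (K Λ L : Type u) [LinearOrder K] [LinearOrder L] (S : Sys K Λ L) (b : K), (S.kd b).isS →
    (∀ k v v', v ≠ v' → S.gen b k v ⊓ S.gen b k v' = ⊥) ∧
    (∀ k, ⨆ v, S.gen b k v = ⊤) ∧
    (∀ c k, k < (S.st b c).length → eb S.D b c ≤ S.gen b k (at' (S.st b c) k)) ∧
    (∀ c k v j, (S.st b c).length ≤ k → j ∈ (S.kd b).Bad k v →
      eb S.D b c ⊓ S.gen b k v ⊓ (S.cS b c).f k j = ⊥) ∧
    (∀ c k v, k < (S.st b c).length → at' (S.st b c) k ≠ v → eb S.D b c ⊓ S.gen b k v = ⊥) ∧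
    (∀ k v, S.gen b k v ∈ SZ S.D (Iic b ∩ S.Zl (S.lay b))) ∧
    (∀ c, eb S.D b c ∈ SZ S.D (Iic b ∩ S.Zl (S.lay b)))

/-- every condition can be extended to one with a long stem at `b`, in a controlled way -/
def LongStm : Prop :=
  ∀ (K Λ L : Type u) [LinearOrder K] [LinearOrder L] (S : Sys K Λ L) (b : K), (S.kd b).isS →
    ∀ (U : BB S.D) (c : Λ) (n : ℕ), U ∈ SZ S.D (Iio b) → U ≠ ⊥ →
    ∃ V ∈ SZ S.D (Iio b), V ≠ ⊥ ∧ V ≤ U ∧ ∃ c', S.st b c <+: S.st b c' ∧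
      (S.st b c').length = max n (S.st b c).length ∧ V ≤ dv S.D b c' c ∧
      (S.cS b c').N = (S.cS b c).N ∧ (S.cS b c').f = (S.cS b c).f

/-- random labels: disjointness and null intersections -/
def RebStm : Prop :=
  ∀ (K Λ L : Type u) [LinearOrder K] [LinearOrder L] (S : Sys K Λ L) (b : K), S.kd b = .rnd →
    (∀ ρ σ, (S.cR b ρ).nul (S.cR b σ) ⊓ eb S.D b ρ ⊓ eb S.D b σ = ⊥) ∧
    (∀ ρ σ, ∀ U ∈ SZ S.D (Iio b), U ⊓ eb S.D b ρ ⊓ eb S.D b σ = ⊥ →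
      U ≤ (S.cR b ρ).nul (S.cR b σ))

/-! ### chain condition and finite amalgamation -/

/-- the chain condition -/
def CccStm : Prop :=
  ∀ (K Λ L : Type u) [LinearOrder K] [WellFoundedLT K] [LinearOrder L] (S : Sys K Λ L),
    Ccc (BB S.D)

/-- finite amalgamation -/
def AmStm : Prop :=
  ∀ (K Λ L : Type u) [LinearOrder K] [WellFoundedLT K] [LinearOrder L] (S : Sys K Λ L)
    (M k : ℕ) (p : Fin M → PF K Λ) (R Q : Finset K), Q ⊆ R →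
    (∀ i j, i ≠ j → (p i).dom ∩ (p j).dom ⊆ R) →
    (∀ b ∈ R, b ∉ Q → ∀ i j c c', (p i).f b = some c → (p j).f b = some c' →
      S.Eqv b c c' ∨ ((S.kd b).isC ∧ S.st b c = S.st b c')) →
    (∀ b ∈ Q, S.kd b = .rnd ∧ ∀ i c, (p i).f b = some c → (S.cR b c).q ≤ k) →
    ∃ (J : Finset (Fin M)) (q : PF K Λ), M ≤ J.card * (2 * (k + 1)) ^ Q.card ∧
      ∀ i ∈ J, ee S.D q ≤ ee S.D (p i)

/-! ### construction of the limit homomorphism -/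

/-- countable subsets of `L` are bounded -/
def CtbBdd (L : Type u) [LinearOrder L] : Prop := Nonempty L ∧ ∀ s : ℕ → L, ∃ x, ∀ n, s n ≤ x

/-- every sequence in the algebra of a lower set is a sequence in one of its layers -/
def LayerStm : Prop :=
  ∀ (K Λ L : Type u) [LinearOrder K] [LinearOrder L] (S : Sys K Λ L), CtbBdd L → Ccc (BB S.D) →
    (∀ (I : Set K), IsLowerSet I → ∀ z : ℕ → BB S.D, (∀ l, z l ∈ SZ S.D I) →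
      ∃ x, ∀ l, z l ∈ SZ S.D (I ∩ S.Zl x)) ∧
    ∀ z : ℕ → BB S.D, ∃ C : Set K, C.Countable ∧ ∀ Z : Set K, C ⊆ Z → Tr S.D Z →
      ∀ l, z l ∈ SZ S.D Z

/-- the beginning -/
def BaseStm : Prop :=
  ∀ (K Λ L Θ : Type u) [LinearOrder K] [LinearOrder L] (S : Sys K Λ L) (rd : Θ → ℕ → Λ)
    (rt : Θ → List ℕ), ∃ φ, S.Good rd rt ∅ φ

/-- the successor step without requirements -/
def Succ0Stm : Prop :=
  ∀ (K Λ L Θ : Type u) [LinearOrder K] [LinearOrder L] (S : Sys K Λ L) (rd : Θ → ℕ → Λ)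
    (rt : Θ → List ℕ) (b : K) (φ : (ℕ → BB S.D) → TT S.D Θ) (x : L),
    S.Good rd rt (Iio b) φ → S.lay b ≤ x →
    ∀ (z : ℕ → BB S.D) (U : BB S.D), (∀ l, z l ∈ SZ S.D (Iio b ∩ S.Zl x)) →
      U ∈ SZ S.D (Iic b ∩ S.Zl x) → (∀ l, z l ⊓ U = ⊥) → φ z ⊓ iB S.D Θ U = ⊥

/-- the hypothesis (H) of the successor step above the layer of `b` -/
def SuccHiStm : Prop :=
  ∀ (K Λ L Θ : Type u) [LinearOrder K] [LinearOrder L] (S : Sys K Λ L) (rd : Θ → ℕ → Λ)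
    (rt : Θ → List ℕ) (b : K) (φ ψ : (ℕ → BB S.D) → TT S.D Θ) (x y : L),
    S.Good rd rt (Iio b) φ → S.lay b ≤ y → y < x →
    HomOn {z | ∀ l, z l ∈ SZ S.D (Iic b ∩ S.Zl y)} ψ →
    (∀ z : ℕ → BB S.D, (∀ l, z l ∈ SZ S.D (Iio b ∩ S.Zl y)) → ψ z = φ z) →
    (∀ U ∈ SZ S.D (Iic b ∩ S.Zl y), ψ (fun _ => U) = iB S.D Θ U) →
    (∀ z : ℕ → BB S.D, (∀ l, z l ∈ SZ S.D (Iic b ∩ S.Zl y)) → ψ z ∈ TZ S.D Θ (Iic b ∩ S.Zl y)) →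
    ∀ (z u : ℕ → BB S.D) (U : BB S.D), (∀ l, z l ∈ SZ S.D (Iio b ∩ S.Zl x)) →
      (∀ l, u l ∈ SZ S.D (Iic b ∩ S.Zl y)) → U ∈ SZ S.D (Iic b ∩ S.Zl x) →
      (∀ l, z l ⊓ u l ⊓ U = ⊥) → φ z ⊓ ψ u ⊓ iB S.D Θ U = ⊥

/-- the hypothesis (H) of the successor step at the layer of `b`, centred kinds -/
def SuccEStm : Prop :=
  ∀ (K Λ L Θ : Type u) [LinearOrder K] [LinearOrder L] (S : Sys K Λ L) (rd : Θ → ℕ → Λ)
    (rt : Θ → List ℕ) (b : K) (φ : (ℕ → BB S.D) → TT S.D Θ),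
    S.Good rd rt (Iio b) φ → (S.kd b).isE →
    ∀ (m : ℕ) (t : Fin m → List ℕ) (g : Fin m → ℕ → ℕ → ℕ → BB S.D) (y : Fin m → ℕ → BB S.D),
      (∀ i l k v, g i l k v ∈ S.W b) →
      (∀ i l, y i l ∈ SZ S.D (Iic b ∩ S.Zl (S.lay b))) → (∀ i, S.PE b (t i) (g i) (y i)) →
    ∀ (z : ℕ → BB S.D) (U : BB S.D), (∀ l, z l ∈ SZ S.D (Iio b ∩ S.Zl (S.lay b))) →
      U ∈ SZ S.D (Iic b ∩ S.Zl (S.lay b)) →
      (∀ l, z l ⊓ U ⊓ (⨅ i, y i l) = ⊥) →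
      φ z ⊓ iB S.D Θ U ⊓ (⨅ i, S.qq b (t i) (g i) φ) = ⊥

/-- the hypothesis (H) of the successor step at the layer of `b`, random kind -/
def SuccRStm : Prop :=
  ∀ (K Λ L Θ : Type u) [LinearOrder K] [LinearOrder L] (S : Sys K Λ L) (rd : Θ → ℕ → Λ)
    (rt : Θ → List ℕ) (b : K) (φ : (ℕ → BB S.D) → TT S.D Θ),
    S.Good rd rt (Iio b) φ → S.kd b = .rnd →
    ∀ (σ : ℕ → Λ) (z : ℕ → BB S.D) (U : BB S.D), (∀ l, z l ∈ SZ S.D (Iio b ∩ S.Zl (S.lay b))) →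
      U ∈ SZ S.D (Iic b ∩ S.Zl (S.lay b)) →
      (∀ l, z l ⊓ U ⊓ eb S.D b (σ l) = ⊥) →
      φ z ⊓ iB S.D Θ U ⊓ S.qr b σ φ = ⊥

/-- the successor step -/
def SuccStm : Prop :=
  ∀ (K Λ L Θ : Type u) [LinearOrder K] [LinearOrder L] [WellFoundedLT L] (S : Sys K Λ L)
    (rd : Θ → ℕ → Λ) (rt : Θ → List ℕ) (b : K) (φ : (ℕ → BB S.D) → TT S.D Θ),
    CtbBdd L → Ccc (BB S.D) → S.Good rd rt (Iio b) φ →
    ∃ ψ, S.Good rd rt (Iic b) ψ ∧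
      ∀ z : ℕ → BB S.D, (∀ l, z l ∈ SZ S.D (Iio b)) → ψ z = φ z

/-- the hypothesis (H) of the limit step -/
def LimHStm : Prop :=
  ∀ (K Λ L Θ : Type u) [LinearOrder K] [LinearOrder L] (S : Sys K Λ L) (rd : Θ → ℕ → Λ)
    (rt : Θ → List ℕ) (I Z₂ : Set K) (x : L) (b : K) (φ ψ : (ℕ → BB S.D) → TT S.D Θ),
    IsLowerSet I → b ∈ I → (∀ g ∈ I, ∃ g' ∈ I, g < g') →
    (∀ b' ∈ I, b ≤ b' → S.Good rd rt (Iio b') φ) →
    (Z₂ = ∅ ∨ ∃ y < x, Z₂ = I ∩ S.Zl y) →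
    HomOn {z | ∀ l, z l ∈ SZ S.D Z₂} ψ →
    (∀ z : ℕ → BB S.D, (∀ l, z l ∈ SZ S.D Z₂) → ψ z ∈ TZ S.D Θ Z₂) →
    (∀ b' ∈ I, ∀ z : ℕ → BB S.D, (∀ l, z l ∈ SZ S.D (Iio b' ∩ Z₂)) → ψ z = φ z) →
    (∀ (d : ℕ → PF K Λ) (a : AF K Θ), (∀ l, (d l).dom ⊆ Z₂) →
      (∀ l m, l ≠ m → Disjoint (d l).dom (d m).dom) → S.Fol rd rt d a →
      iA S.D a ≤ ψ fun l => ee S.D (d l)) →
    ∀ (z u : ℕ → BB S.D) (U : BB S.D), (∀ l, z l ∈ SZ S.D (Iio b ∩ S.Zl x)) →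
      (∀ l, u l ∈ SZ S.D Z₂) → U ∈ SZ S.D (I ∩ S.Zl x) →
    ∀ (m : ℕ) (d : Fin m → ℕ → PF K Λ) (a : Fin m → AF K Θ),
      (∀ i l, (d i l).dom ⊆ I ∩ S.Zl x) →
      (∀ i l m, l ≠ m → Disjoint (d i l).dom (d i m).dom) → (∀ i, S.Fol rd rt (d i) (a i)) →
      (∀ l, z l ⊓ u l ⊓ U ⊓ (⨅ i, ee S.D (d i l)) = ⊥) →
      φ z ⊓ ψ u ⊓ iB S.D Θ U ⊓ (⨅ i, iA S.D (a i)) = ⊥

/-- the limit step; `φ` is one function, good on all `Iio b`, `b ∈ I` -/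
def LimStm : Prop :=
  ∀ (K Λ L Θ : Type u) [LinearOrder K] [LinearOrder L] [WellFoundedLT L] (S : Sys K Λ L)
    (rd : Θ → ℕ → Λ) (rt : Θ → List ℕ) (I : Set K) (φ : (ℕ → BB S.D) → TT S.D Θ),
    CtbBdd L → Ccc (BB S.D) → IsLowerSet I → I.Nonempty → (∀ g ∈ I, ∃ g' ∈ I, g < g') →
    (∀ b ∈ I, S.Good rd rt (Iio b) φ) →
    ∃ ψ, S.Good rd rt I ψ ∧
      ∀ b ∈ I, ∀ z : ℕ → BB S.D, (∀ l, z l ∈ SZ S.D (Iio b)) → ψ z = φ z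

end CI
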