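import Pool.Agent.CI.C.AgrS
import Pool.Agent.CI.C.StepStm

/-!
# Project CI, core: coordinates over given data, transport of coordinates, raw data
-/

set_option autoImplicit false
set_option linter.unusedSectionVars false
set_option linter.unusedVariables false

open Set Cardinal Pool.Agent.CL

namespace CI

namespace Agr

universe u

variable {K Λ L : Type u} [LinearOrder K] [LinearOrder L]

/-- a coordinate of kind `κ` over the data `D`, with memory in the cylinders over `Z` -/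
structure Crdn (D : Dat K Λ) (κ : Kd) (Z : Set K) where
  W : Set (BB D)
  cS : Λ → CndS κ W
  cR : Λ → CndR W
  ss : IsSS W
  sub : W ⊆ SZ D Z
  sS : κ.isS → Function.Surjective cS
  sR : κ = .rnd → Function.Surjective cR

/-- the order values -/
noncomputable def Crdn.val {D : Dat K Λ} {κ : Kd} {Z : Set K} (C : Crdn D κ Z) (c' c : Λ) : BB D :=
  open Classical in
  if κ.isS then (C.cS c').cmp (C.cS c) else if κ = .rnd then (C.cR c').cmp (C.cR c) else ⊤

section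

variable {D D' : Dat K Λ} {J : Set K} (hJ : IsLowerSet J) (hD : ∀ b ∈ J, D.D b = D'.D b)

/-- transport of a condition -/
noncomputable def trS {κ : Kd} {W : Set (BB D)} (hW : W ⊆ SZ D J) (c : CndS κ W) :
    CndS κ (tB D D' '' W) where
  t := c.t
  N := c.N
  f k j := tB D D' (c.f k j)
  mem k j := ⟨_, c.mem k j, rfl⟩
  wd k s hs := by
    have h := AgrOn.fin_inf hJ hD s (c.f k) (fun a _ => hW (c.mem k a))
    have h2 : (s.inf fun j => tB D D' (c.f k j)) = tB D D' (s.inf (c.f k)) := h.2.symm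
    rw [h2, c.wd k s hs, tB_bot hJ hD]
  ln := c.ln

/-- transport of a random condition -/
noncomputable def trR {W : Set (BB D)} (hW : W ⊆ SZ D J) (c : CndR W) :
    CndR (tB D D' '' W) where
  τ n a := tB D D' (c.τ n a)
  q := c.q
  mem n a := ⟨_, c.mem n a, rfl⟩
  dec n a := (tB_le hJ hD (hW (c.mem _ _)) (hW (c.mem _ _))).2 (c.dec n a)
  big := by
    have h := AgrOn.mGe_tr hJ hD c.τ (fun n a => hW (c.mem n a)) (c.q + 1) 1
    rw [← h.2, c.big, tB_top hJ hD]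

theorem trS_cmp {κ : Kd} {W : Set (BB D)} (hW : W ⊆ SZ D J) (c' c : CndS κ W) :
    c'.cmp c ∈ SZ D J ∧ (trS hJ hD hW c').cmp (trS hJ hD hW c) = tB D D' (c'.cmp c) := by
  have h1 : ∀ k j, (c.f k j ⇨ c'.f k j) ∈ SZ D J := fun k j =>
    SZ_himp hJ (hW (c.mem k j)) (hW (c'.mem k j))
  have h2 : ∀ k j, (c.f k j)ᶜ ∈ SZ D J := fun k j => SZ_compl hJ (hW (c.mem k j))
  have h3 : (⨅ k, ⨅ j, c.f k j ⇨ c'.f k j) ∈ SZ D J := SZ_iInf fun k => SZ_iInf fun j => h1 k j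
  have h4 : (⨅ k : ℕ, ⨅ _ : c.t.length ≤ k ∧ k < c'.t.length, ⨅ j : ℕ,
      ⨅ _ : j ∈ κ.Bad k (at' c'.t k), (c.f k j)ᶜ) ∈ SZ D J :=
    SZ_iInf fun k => SZ_iInf fun _ => SZ_iInf fun j => SZ_iInf fun _ => h2 k j
  classical
  simp only [CndS.cmp]
  by_cases ht : c.t <+: c'.t
  · rw [if_pos ht, if_pos (show (trS hJ hD hW c).t <+: (trS hJ hD hW c').t from ht)]
    refine ⟨SZ_inf h3 h4, ?_⟩
    rw [tB_inf hJ hD h3 h4, tB_iInf hJ hD fun k => SZ_iInf fun j => h1 k j,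
      tB_iInf hJ hD fun k => SZ_iInf fun _ => SZ_iInf fun j => SZ_iInf fun _ => h2 k j]
    congr 1
    · refine iInf_congr fun k => ?_
      rw [tB_iInf hJ hD fun j => h1 k j]
      refine iInf_congr fun j => ?_
      rw [tB_himp hJ hD (hW (c.mem k j)) (hW (c'.mem k j))]
      rfl
    · refine iInf_congr fun k => ?_
      rw [tB_iInf hJ hD fun _ => SZ_iInf fun j => SZ_iInf fun _ => h2 k j]
      refine iInf_congr fun _ => ?_
      rw [tB_iInf hJ hD fun j => SZ_iInf fun _ => h2 k j]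
      refine iInf_congr fun j => ?_
      rw [tB_iInf hJ hD fun _ => h2 k j]
      refine iInf_congr fun _ => ?_
      rw [tB_compl hJ hD (hW (c.mem k j))]
      rfl
  · rw [if_neg ht, if_neg (show ¬ (trS hJ hD hW c).t <+: (trS hJ hD hW c').t from ht)]
    exact ⟨SZ_bot, (tB_bot hJ hD).symm⟩

theorem trR_cmp {W : Set (BB D)} (hW : W ⊆ SZ D J) (c' c : CndR W) :
    c'.cmp c ∈ SZ D J ∧ (trR hJ hD hW c').cmp (trR hJ hD hW c) = tB D D' (c'.cmp c) := by
  have h1 : ∀ n a, (c'.τ n a ⇨ c.τ n a) ∈ SZ D J := fun k j =>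
    SZ_himp hJ (hW (c'.mem k j)) (hW (c.mem k j))
  simp only [CndR.cmp]
  refine ⟨SZ_iInf fun n => SZ_iInf fun a => SZ_iInf fun _ => h1 n a, ?_⟩
  rw [tB_iInf hJ hD fun n => SZ_iInf fun a => SZ_iInf fun _ => h1 n a]
  refine iInf_congr fun n => ?_
  rw [tB_iInf hJ hD fun a => SZ_iInf fun _ => h1 n a]
  refine iInf_congr fun a => ?_
  rw [tB_iInf hJ hD fun _ => h1 n a]
  refine iInf_congr fun _ => ?_
  rw [tB_himp hJ hD (hW (c'.mem n a)) (hW (c.mem n a))]
  rfl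

include hJ hD in
theorem back {W : Set (BB D)} (hW : W ⊆ SZ D J) {V : BB D'} (hV : V ∈ tB D D' '' W) :
    tB D' D V ∈ W ∧ tB D D' (tB D' D V) = V := by
  obtain ⟨U, hU, rfl⟩ := hV
  rw [tB_tB hJ hD (hW hU)]
  exact ⟨hU, rfl⟩

theorem trS_surj {κ : Kd} {W : Set (BB D)} (hW : W ⊆ SZ D J) :
    Function.Surjective (trS (κ := κ) hJ hD hW) := by
  intro d
  have hDs : ∀ b ∈ J, D'.D b = D.D b := fun b hb => (hD b hb).symm
  have hd : ∀ k j, d.f k j ∈ SZ D' J := by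
    intro k j
    obtain ⟨U, hU, he⟩ := d.mem k j
    rw [← he]
    exact tB_SZ hJ hD subset_rfl (hW hU)
  refine ⟨⟨d.t, d.N, fun k j => tB D' D (d.f k j), fun k j => (back hJ hD hW (d.mem k j)).1, ?_,
    d.ln⟩, ?_⟩
  · intro k s hs
    have h := AgrOn.fin_inf hJ hDs s (d.f k) (fun a _ => hd k a)
    have h2 : (s.inf fun j => tB D' D (d.f k j)) = tB D' D (s.inf (d.f k)) := h.2.symm
    rw [h2, d.wd k s hs, tB_bot hJ hDs]
  · refine CndS.ext rfl rfl ?_
    funext k j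
    exact (back hJ hD hW (d.mem k j)).2

theorem trR_surj {W : Set (BB D)} (hW : W ⊆ SZ D J) :
    Function.Surjective (trR hJ hD hW) := by
  intro d
  have hDs : ∀ b ∈ J, D'.D b = D.D b := fun b hb => (hD b hb).symm
  have hd : ∀ n a, d.τ n a ∈ SZ D' J := by
    intro k j
    obtain ⟨U, hU, he⟩ := d.mem k j
    rw [← he]
    exact tB_SZ hJ hD subset_rfl (hW hU)
  refine ⟨⟨fun n a => tB D' D (d.τ n a), d.q, fun k j => (back hJ hD hW (d.mem k j)).1, ?_, ?_⟩, ?_⟩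
  · intro n a
    exact (tB_le hJ hDs (hd _ _) (hd _ _)).2 (d.dec n a)
  · have h := AgrOn.mGe_tr hJ hDs d.τ hd (d.q + 1) 1
    rw [← h.2, d.big, tB_top hJ hDs]
  · refine CndR.ext ?_ rfl
    funext k j
    exact (back hJ hD hW (d.mem k j)).2

include hJ hD in
theorem image_ss {W : Set (BB D)} (hW : W ⊆ SZ D J) (h : IsSS W) : IsSS (tB D D' '' W) where
  compl := by
    rintro _ ⟨U, hU, rfl⟩
    exact ⟨Uᶜ, h.compl U hU, tB_compl hJ hD (hW hU)⟩
  iSup := by
    intro f hf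
    choose g hg he using hf
    refine ⟨⨆ n, g n, h.iSup g hg, ?_⟩
    rw [tB_iSup hJ hD fun n => hW (hg n)]
    exact iSup_congr he
  bot := ⟨⊥, h.bot, tB_bot hJ hD⟩

/-- transport of a coordinate -/
noncomputable def Crdn.tr {κ : Kd} {Z : Set K} (hZ : Z ⊆ J) (C : Crdn D κ Z) : Crdn D' κ Z where
  W := tB D D' '' C.W
  cS c := trS hJ hD (C.sub.trans (SZ_mono hZ)) (C.cS c)
  cR c := trR hJ hD (C.sub.trans (SZ_mono hZ)) (C.cR c)
  ss := image_ss hJ hD (C.sub.trans (SZ_mono hZ)) C.ss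
  sub := by
    rintro _ ⟨U, hU, rfl⟩
    exact tB_SZ hJ hD hZ (C.sub hU)
  sS h := (trS_surj hJ hD _).comp (C.sS h)
  sR h := (trR_surj hJ hD _).comp (C.sR h)

theorem Crdn.tr_val {κ : Kd} {Z : Set K} (hZ : Z ⊆ J) (C : Crdn D κ Z) (c' c : Λ) :
    C.val c' c ∈ SZ D J ∧ (C.tr hJ hD hZ).val c' c = tB D D' (C.val c' c) := by
  classical
  simp only [Crdn.val]
  by_cases h1 : κ.isS
  · rw [if_pos h1, if_pos h1]
    exact trS_cmp hJ hD (C.sub.trans (SZ_mono hZ)) _ _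
  · rw [if_neg h1, if_neg h1]
    by_cases h2 : κ = .rnd
    · rw [if_pos h2, if_pos h2]
      exact trR_cmp hJ hD (C.sub.trans (SZ_mono hZ)) _ _
    · rw [if_neg h2, if_neg h2]
      exact ⟨SZ_top, (tB_top hJ hD).symm⟩

end

/-- raw data of one coordinate -/
structure Raw (K Λ Θ : Type u) where
  D : Λ → Λ → Set (PF K Λ)
  W : Set (Set (PF K Λ))
  t : Λ → List ℕ
  N : Λ → ℕ
  g : Λ → ℕ → ℕ → Set (PF K Λ)
  τ : Λ → ℕ → Finset ℕ → Set (PF K Λ)
  q : Λ → ℕ
  phi : (ℕ → Set (PF K Λ)) → Set (AF K Θ × PF K Λ)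

/-- the underlying set -/
def und {D : Dat K Λ} (U : BB D) : Set (PF K Λ) := U.S

/-- the underlying set -/
def undT {Θ : Type u} {D : Dat K Λ} (U : TT D Θ) : Set (AF K Θ × PF K Λ) := U.S

theorem und_inj {D : Dat K Λ} {U V : BB D} (h : und U = und V) : U = V := by
  ext p; exact (Set.ext_iff.1 h p)

theorem undT_inj {Θ : Type u} {D : Dat K Λ} {U V : TT D Θ} (h : undT U = undT V) : U = V := by
  ext p; exact (Set.ext_iff.1 h p)

/-- the coordinate has the raw data -/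
structure RawC {Θ : Type u} {D : Dat K Λ} {κ : Kd} {Z : Set K} (C : Crdn D κ Z)
    (r : Raw K Λ Θ) : Prop where
  vD : ∀ c' c, und (C.val c' c) = r.D c' c
  vW : und '' C.W = r.W
  vt : ∀ c, (C.cS c).t = r.t c
  vN : ∀ c, (C.cS c).N = r.N c
  vg : ∀ c k j, und ((C.cS c).f k j) = r.g c k j
  vτ : ∀ c n a, und ((C.cR c).τ n a) = r.τ c n a
  vq : ∀ c, (C.cR c).q = r.q c

/-- the coordinate `b` of the system has the raw data -/
structure RawS {Θ : Type u} (S : Sys K Λ L) (b : K) (r : Raw K Λ Θ) : Prop where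
  vD : S.D.D b = r.D
  vW : und '' S.W b = r.W
  vt : ∀ c, (S.cS b c).t = r.t c
  vN : ∀ c, (S.cS b c).N = r.N c
  vg : ∀ c k j, und ((S.cS b c).f k j) = r.g c k j
  vτ : ∀ c n a, und ((S.cR b c).τ n a) = r.τ c n a
  vq : ∀ c, (S.cR b c).q = r.q c

/-- the system is given on `I` by the raw data and is trivial outside -/
structure IsOn {Θ : Type u} (kd0 : K → Kd) (lay0 : K → L) (S : Sys K Λ L) (f : K → Raw K Λ Θ)
    (I : Set K) : Prop where
  low : IsLowerSet I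
  kd : ∀ b ∈ I, S.kd b = kd0 b
  lay : ∀ b, S.lay b = lay0 b
  raw : ∀ b ∈ I, RawS S b (f b)
  kd' : ∀ b, b ∉ I → S.kd b = .tr

variable {Θ : Type u} {kd0 : K → Kd} {lay0 : K → L}

theorem IsOn.agr {S S' : Sys K Λ L} {f : K → Raw K Λ Θ} {I I' J : Set K}
    (h : IsOn kd0 lay0 S f I) (h' : IsOn kd0 lay0 S' f I') (hJ : IsLowerSet J) (hI : J ⊆ I)
    (hI' : J ⊆ I') : AgrOn S S' J := by
  have hD : ∀ b ∈ J, S.D.D b = S'.D.D b := fun b hb => by
    rw [(h.raw b (hI hb)).vD, (h'.raw b (hI' hb)).vD]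
  have key : ∀ (U : BB S.D) (V : BB S'.D), U ∈ SZ S.D J → und U = und V → tB S.D S'.D U = V := by
    intro U V hU he
    apply und_inj
    rw [← he]
    exact tB_S hJ hD hU
  refine ⟨hJ, hD, ?_, ?_, ?_, ?_, ?_, ?_, ?_, ?_⟩
  · intro b hb; rw [h.kd b (hI hb), h'.kd b (hI' hb)]
  · intro b hb; rw [h.lay b, h'.lay b]
  · intro b hb U hU
    have e : und (tB S.D S'.D U) = und U := tB_S hJ hD hU
    constructor
    · intro h1
      have h2 : und U ∈ und '' S'.W b := by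
        rw [(h'.raw b (hI' hb)).vW, ← (h.raw b (hI hb)).vW]
        exact ⟨U, h1, rfl⟩
      obtain ⟨V, hV, he⟩ := h2
      have : tB S.D S'.D U = V := und_inj (by rw [e, he])
      rw [this]; exact hV
    · intro h1
      have h2 : und U ∈ und '' S.W b := by
        rw [(h.raw b (hI hb)).vW, ← (h'.raw b (hI' hb)).vW, ← e]
        exact ⟨_, h1, rfl⟩
      obtain ⟨V, hV, he⟩ := h2
      rw [← und_inj he]; exact hV
  · intro b hb c; rw [(h.raw b (hI hb)).vt, (h'.raw b (hI' hb)).vt]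
  · intro b hb c; rw [(h.raw b (hI hb)).vN, (h'.raw b (hI' hb)).vN]
  · intro b hb c k j
    exact key _ _ (W_SZ S hJ hb ((S.cS b c).mem k j))
      (by rw [(h.raw b (hI hb)).vg, (h'.raw b (hI' hb)).vg])
  · intro b hb c k j
    exact key _ _ (W_SZ S hJ hb ((S.cR b c).mem k j))
      (by rw [(h.raw b (hI hb)).vτ, (h'.raw b (hI' hb)).vτ])
  · intro b hb c; rw [(h.raw b (hI hb)).vq, (h'.raw b (hI' hb)).vq]

theorem IsOn.congr {S : Sys K Λ L} {f g : K → Raw K Λ Θ} {I : Set K}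
    (h : IsOn kd0 lay0 S f I) (hfg : ∀ b ∈ I, f b = g b) : IsOn kd0 lay0 S g I :=
  ⟨h.low, h.kd, h.lay, fun b hb => hfg b hb ▸ h.raw b hb, h.kd'⟩

/-- building data -/
theorem build_dat (I : Set K) (hI : IsLowerSet I) (R : K → Λ → Λ → Set (PF K Λ))
    (h : ∀ b ∈ I, ∃ Db : Dat K Λ, (∀ c < b, Db.D c = R c) ∧ ∃ V : Λ → Λ → BB Db,
      (∀ c' c, V c' c ∈ SZ Db (Iio b) ∧ und (V c' c) = R b c' c) ∧ (∀ c, V c c = ⊤) ∧
      ∀ c₁ c₂ c₃, V c₁ c₂ ⊓ V c₂ c₃ ≤ V c₁ c₃) :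
    ∃ D : Dat K Λ, (∀ b ∈ I, D.D b = R b) ∧ ∀ b, b ∉ I → ∀ c' c, D.D b c' c = Set.univ := by
  classical
  let D' : K → Λ → Λ → Set (PF K Λ) := fun b => if b ∈ I then R b else fun _ _ => Set.univ
  have hin : ∀ b ∈ I, D' b = R b := fun b hb => by simp only [D', if_pos hb]
  have hout : ∀ b, b ∉ I → ∀ c' c, D' b c' c = Set.univ := fun b hb c' c => by
    simp only [D', if_neg hb]
  have hrefl : ∀ b c p, p ∈ D' b c c := by
    intro b c p
    by_cases hb : b ∈ I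
    · obtain ⟨Db, h1, V, h2, h3, h4⟩ := h b hb
      rw [hin b hb, ← (h2 c c).2, h3]
      exact mem_univ _
    · rw [hout b hb]; exact mem_univ _
  have hdown : ∀ b ∈ I, ∀ (Db : Dat K Λ), (∀ c < b, Db.D c = R c) → ∀ p q : PF K Λ,
      leD D' p q → leD Db.D (p.res (Iio b)) (q.res (Iio b)) := by
    intro b hb Db h1 p q hpq x c hx
    obtain ⟨hxb, hx⟩ := res_some hx
    obtain ⟨c', hc', hm⟩ := hpq x c hx
    refine ⟨c', by rw [res_on hxb]; exact hc', ?_⟩
    rw [res_res_sub _ (show Iio x ⊆ Iio b from fun y hy => lt_trans hy hxb), h1 x hxb,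
      ← hin x (hI (le_of_lt hxb) hb)]
    exact hm
  have hcyl : ∀ b c' c p, p ∈ D' b c' c ↔ p.res (Iio b) ∈ D' b c' c := by
    intro b c' c p
    by_cases hb : b ∈ I
    · obtain ⟨Db, h1, V, h2, h3, h4⟩ := h b hb
      rw [hin b hb, ← (h2 c' c).2]
      exact (h2 c' c).1 p
    · rw [hout b hb]; simp
  refine ⟨⟨D', hrefl, ?_, hcyl, ?_, ?_⟩, hin, hout⟩
  · intro b c₁ c₂ c₃ p hp1 hp2
    by_cases hb : b ∈ I
    · obtain ⟨Db, h1, V, h2, h3, h4⟩ := h b hb
      rw [hin b hb, ← (h2 _ _).2] at hp1 hp2 ⊢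
      exact h4 c₁ c₂ c₃ ⟨hp1, hp2⟩
    · rw [hout b hb]; exact mem_univ _
  · intro b c' c p q hpq hq
    by_cases hb : b ∈ I
    · obtain ⟨Db, h1, V, h2, h3, h4⟩ := h b hb
      rw [hcyl] at hq ⊢
      rw [hin b hb, ← (h2 _ _).2] at hq ⊢
      exact (V c' c).isReg.down hq (hdown b hb Db h1 p q hpq)
    · rw [hout b hb]; exact mem_univ _
  · intro b c' c p hp
    by_cases hb : b ∈ I
    · obtain ⟨Db, h1, V, h2, h3, h4⟩ := h b hb
      rw [hin b hb, ← (h2 _ _).2]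
      refine ((V c' c).isReg p).2 fun (q : PF K Λ) hq => ?_
      -- `q ≤ p` for `Db`
      have hq1 : leD D' (glue (Iio b) q p) p := by
        intro x c hx
        by_cases hxb : x ∈ Iio b
        · obtain ⟨c', hc', hm⟩ := hq x c hx
          refine ⟨c', by rw [glue_on hxb]; exact hc', ?_⟩
          rw [res_congr (Z := Iio x) (q := q) fun y hy => glue_on (J := Iio b) (lt_trans hy hxb),
            hin x (hI (le_of_lt hxb) hb), ← h1 x hxb]
          exact hm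
        · exact ⟨c, by rw [glue_off hxb]; exact hx, hrefl _ _ _⟩
      obtain ⟨r, hr, hrm⟩ := hp _ hq1
      refine ⟨glue (Iio b) r q, ?_, ?_⟩
      · intro x c hx
        by_cases hxb : x ∈ Iio b
        · obtain ⟨c', hc', hm⟩ := hr x c (by rw [glue_on hxb]; exact hx)
          refine ⟨c', by rw [glue_on hxb]; exact hc', ?_⟩
          rw [res_congr (Z := Iio x) (q := r) fun y hy => glue_on (J := Iio b) (lt_trans hy hxb),
            h1 x hxb, ← hin x (hI (le_of_lt hxb) hb)]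
          exact hm
        · exact ⟨c, by rw [glue_off hxb]; exact hx, Db.refl _ _ _⟩
      · rw [hin b hb, ← (h2 _ _).2] at hrm
        have e : (glue (Iio b) r q).res (Iio b) = r.res (Iio b) :=
          res_congr fun y hy => glue_on hy
        have h5 := (h2 c' c).1
        exact (h5 _).2 (by rw [e]; exact (h5 r).1 hrm)
    · rw [hout b hb]; exact mem_univ _

end Agr

end CI
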