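import Pool.Agent.CI.C.RecA

/-!
# Project CI, core: building a system from raw data
-/

set_option autoImplicit false
set_option linter.unusedSectionVars false
set_option linter.unusedVariables false

open Set Cardinal Pool.Agent.CL

namespace CI

namespace Agr

universe u

variable {K Λ L : Type u} [LinearOrder K] [LinearOrder L]

theorem bad_tr {κ : Kd} (h : κ = .tr) : ¬ κ.isS ∧ κ ≠ .rnd := by
  subst h
  constructor
  · rintro (h | h | h | h | h) <;> exact Kd.noConfusion h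
  · intro h; exact Kd.noConfusion h

theorem isS_of {κ : Kd} (h1 : κ ≠ .tr) (h2 : κ ≠ .rnd) : κ.isS := by
  cases κ
  · exact absurd rfl h1
  · exact Or.inl rfl
  · exact Or.inr (Or.inl rfl)
  · exact Or.inr (Or.inr (Or.inl rfl))
  · exact absurd rfl h2
  · exact Or.inr (Or.inr (Or.inr (Or.inl rfl)))
  · exact Or.inr (Or.inr (Or.inr (Or.inr rfl)))

theorem val_mem (hS : SCmpStm.{u}) (hR : RCmpStm.{u}) {D : Dat K Λ} {κ : Kd} {Z : Set K}
    (C : Crdn D κ Z) (c' c : Λ) : C.val c' c ∈ SZ D Z := by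
  classical
  simp only [Crdn.val]
  split_ifs
  · exact C.sub (hS _ _ _ C.ss (C.cS c') (C.cS c) (C.cS c)).2.2
  · exact C.sub (hR _ _ C.ss (C.cR c') (C.cR c) (C.cR c)).2.2
  · exact SZ_top

theorem val_refl (hS : SCmpStm.{u}) (hR : RCmpStm.{u}) {D : Dat K Λ} {κ : Kd} {Z : Set K}
    (C : Crdn D κ Z) (c : Λ) : C.val c c = ⊤ := by
  classical
  simp only [Crdn.val]
  split_ifs
  · exact (hS _ _ _ C.ss (C.cS c) (C.cS c) (C.cS c)).1
  · exact (hR _ _ C.ss (C.cR c) (C.cR c) (C.cR c)).1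
  · rfl

theorem val_trans (hS : SCmpStm.{u}) (hR : RCmpStm.{u}) {D : Dat K Λ} {κ : Kd} {Z : Set K}
    (C : Crdn D κ Z) (c₁ c₂ c₃ : Λ) : C.val c₁ c₂ ⊓ C.val c₂ c₃ ≤ C.val c₁ c₃ := by
  classical
  simp only [Crdn.val]
  split_ifs
  · exact (hS _ _ _ C.ss (C.cS c₃) (C.cS c₂) (C.cS c₁)).2.1
  · exact (hR _ _ C.ss (C.cR c₃) (C.cR c₂) (C.cR c₁)).2.1
  · exact le_top

/-- the trivial coordinate -/
noncomputable def trivC (D : Dat K Λ) (Z : Set K) : Crdn D .tr Z where
  W := {⊥, ⊤}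
  cS _ := ⟨[], 0, fun _ _ => ⊥, fun _ _ => Or.inl rfl, fun k s hs => by
    have : s.Nonempty := by
      rw [← Finset.card_pos, hs]; omega
    obtain ⟨j, hj⟩ := this
    exact le_bot_iff.1 (Finset.inf_le hj), Nat.zero_le _⟩
  cR _ := ⟨fun _ _ => ⊤, 0, fun _ _ => Or.inr rfl, fun _ _ => le_rfl, by
    rw [mGe, iInf_eq_top]
    intro n
    rw [cntGe, eq_top_iff]
    refine le_iSup_of_le (Finset.range n).powerset (le_iSup_of_le ⟨subset_rfl, ?_⟩ ?_)
    · simp
    · exact Finset.le_inf fun a _ => le_rfl⟩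
  ss := by
    refine ⟨?_, ?_, Or.inl rfl⟩
    · rintro a (rfl | rfl)
      · right; simp
      · left; simp
    · intro f hf
      by_cases h : ∃ n, f n = ⊤
      · obtain ⟨n, hn⟩ := h
        right
        exact eq_top_iff.2 (hn ▸ le_iSup f n)
      · left
        have : ∀ n, f n = ⊥ := fun n => (hf n).resolve_right fun h' => h ⟨n, h'⟩
        simp [this]
  sub := by
    rintro U (rfl | rfl)
    · exact SZ_bot
    · exact SZ_top
  sS h := absurd h (bad_tr rfl).1
  sR h := absurd h (bad_tr rfl).2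

variable {Θ : Type u} {kd0 : K → Kd} {lay0 : K → L}

theorem RawC.tr {D D' : Dat K Λ} {J : Set K} (hJ : IsLowerSet J) (hD : ∀ b ∈ J, D.D b = D'.D b)
    {κ : Kd} {Z : Set K} (hZ : Z ⊆ J) {C : Crdn D κ Z} {r : Raw K Λ Θ} (h : RawC C r) :
    RawC (C.tr hJ hD hZ) r where
  vD c' c := by
    have h1 := C.tr_val hJ hD hZ c' c
    rw [h1.2, ← h.vD c' c]
    exact tB_S hJ hD h1.1
  vW := by
    have hsub := C.sub.trans (SZ_mono hZ)
    rw [← h.vW]
    ext x
    constructor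
    · rintro ⟨_, ⟨V, hV, rfl⟩, rfl⟩
      exact ⟨V, hV, (tB_S hJ hD (hsub hV)).symm⟩
    · rintro ⟨V, hV, rfl⟩
      exact ⟨_, ⟨V, hV, rfl⟩, tB_S hJ hD (hsub hV)⟩
  vt c := h.vt c
  vN c := h.vN c
  vg c k j := by
    rw [← h.vg c k j]
    exact tB_S hJ hD (C.sub.trans (SZ_mono hZ) ((C.cS c).mem k j))
  vτ c n a := by
    rw [← h.vτ c n a]
    exact tB_S hJ hD (C.sub.trans (SZ_mono hZ) ((C.cR c).mem n a))
  vq c := h.vq c

/-- building a system -/
theorem build_sys (hS : SCmpStm.{u}) (hR : RCmpStm.{u}) (I : Set K) (hI : IsLowerSet I)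
    (f : K → Raw K Λ Θ)
    (h : ∀ b ∈ I, ∃ S : Sys K Λ L, IsOn kd0 lay0 S f (Iio b) ∧
      ∃ C : Crdn S.D (kd0 b) (Iio b ∩ {g | lay0 g ≤ lay0 b}), RawC C (f b)) :
    ∃ S : Sys K Λ L, IsOn kd0 lay0 S f I := by
  classical
  obtain ⟨D, hD1, hD2⟩ := build_dat I hI (fun b => (f b).D) (fun b hb => by
    obtain ⟨S, hS1, C, hC⟩ := h b hb
    refine ⟨S.D, fun c hc => (hS1.raw c hc).vD, C.val, fun c' c =>
      ⟨SZ_mono inter_subset_left (val_mem hS hR C c' c), hC.vD c' c⟩, val_refl hS hR C,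
      val_trans hS hR C⟩)
  have key : ∀ b : K, ∃ κ : Kd, ∃ C : Crdn D κ (Iio b ∩ {g | lay0 g ≤ lay0 b}),
      (b ∈ I → κ = kd0 b ∧ RawC C (f b)) ∧ (b ∉ I → κ = .tr) := by
    intro b
    by_cases hb : b ∈ I
    · obtain ⟨S, hS1, C, hC⟩ := h b hb
      have hD : ∀ c ∈ Iio b, S.D.D c = D.D c := fun c hc => by
        rw [(hS1.raw c hc).vD, hD1 c (hI (le_of_lt hc) hb)]
      exact ⟨kd0 b, C.tr (isLowerSet_Iio b) hD inter_subset_left,
        fun _ => ⟨rfl, hC.tr (isLowerSet_Iio b) hD inter_subset_left⟩, fun h => absurd hb h⟩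
    · exact ⟨.tr, trivC D _, fun h => absurd h hb, fun _ => rfl⟩
  choose κ C hC1 hC2 using key
  have hval : ∀ b ∈ I, ∀ c' c, dv D b c' c = (C b).val c' c := by
    intro b hb c' c
    apply und_inj
    rw [(hC1 b hb).2.vD c' c]
    change D.D b c' c = _
    rw [hD1 b hb]
  have hin : ∀ b, κ b ≠ .tr → b ∈ I := fun b h => by
    by_contra hb
    exact h (hC2 b hb)
  let S : Sys K Λ L :=
    { D := D
      kd := κ
      lay := lay0
      W := fun b => (C b).W
      cS := fun b => (C b).cS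
      cR := fun b => (C b).cR
      ss := fun b => (C b).ss
      sub := fun b => (C b).sub
      vT := by
        intro b hb c' c
        by_cases hbI : b ∈ I
        · rw [hval b hbI, Crdn.val, if_neg (bad_tr hb).1, if_neg (bad_tr hb).2]
        · apply und_inj
          change D.D b c' c = Set.univ
          exact hD2 b hbI c' c
      vS := by
        intro b hb
        have hbI : b ∈ I := hin b fun h => (bad_tr h).1 hb
        refine ⟨fun c' c => ?_, (C b).sS hb⟩
        rw [hval b hbI, Crdn.val, if_pos hb]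
      vR := by
        intro b hb
        have hbI : b ∈ I := hin b fun h => (bad_tr h).2 hb
        refine ⟨fun c' c => ?_, (C b).sR hb⟩
        have hns : ¬ (κ b).isS := by
          rw [hb]
          rintro (h | h | h | h | h) <;> exact Kd.noConfusion h
        rw [hval b hbI, Crdn.val, if_neg hns, if_pos hb] }
  refine ⟨S, hI, fun b hb => (hC1 b hb).1, fun b => rfl, fun b hb => ?_, hC2⟩
  have hr := (hC1 b hb).2
  exact ⟨hD1 b hb, hr.vW, hr.vt, hr.vN, hr.vg, hr.vτ, hr.vq⟩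

end Agr

end CI
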