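import Pool.Agent.CI.C.RecB

/-!
# Project CI, core: cardinalities of the sets of conditions and of the algebra, labels
-/

set_option autoImplicit false
set_option linter.unusedSectionVars false
set_option linter.unusedVariables false

open Set Cardinal Pool.Agent.CL

namespace CI

namespace Agr

universe u

/-- enumeration by a part of the labels -/
theorem exists_enum {Λ X : Type u} (sm : Set Λ) (hX : #X ≤ #(sm)) [Nonempty X] :
    ∃ g : Λ → X, ∀ x, ∃ c ∈ sm, g c = x := by
  obtain ⟨e⟩ : Nonempty (X ↪ sm) := hX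
  classical
  refine ⟨fun c => if h : ∃ x, (e x : Λ) = c then h.choose else Classical.arbitrary X, fun x =>
    ⟨e x, (e x).2, ?_⟩⟩
  have h : ∃ y, (e y : Λ) = e x := ⟨x, rfl⟩
  simp only [dif_pos h]
  exact e.injective (Subtype.ext h.choose_spec)

theorem inf_of {θ : Cardinal.{u}} (h2 : 2 ≤ θ) (hω : θ ^ ℵ₀ = θ) : ℵ₀ ≤ θ := by
  rw [← hω]
  exact (Cardinal.cantor ℵ₀).le.trans (Cardinal.power_le_power_right h2)

theorem card_seq {X : Type u} {θ : Cardinal.{u}} (hω : θ ^ ℵ₀ = θ) (hX : #X ≤ θ)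
    (ι : Type) [Countable ι] [Nonempty ι] : #(ι → X) ≤ θ := by
  classical
  rcases isEmpty_or_nonempty X with hE | hE
  · have : IsEmpty (ι → X) := ⟨fun f => hE.false (f (Classical.arbitrary ι))⟩
    rw [mk_eq_zero]
    exact zero_le
  · have h1 : #(ι → X) ≤ #(ℕ → X) := by
      obtain ⟨e⟩ := nonempty_embedding_nat ι
      refine mk_le_of_injective (f := fun f n => if h : ∃ i, e i = n then f h.choose else
        Classical.arbitrary X) ?_
      intro f g hfg
      funext i
      have h : ∃ j, e j = e i := ⟨i, rfl⟩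
      have h2 := congrFun hfg (e i)
      simp only [dif_pos h] at h2
      rwa [e.injective h.choose_spec] at h2
    refine h1.trans ?_
    have h3 : #(ℕ → X) = #X ^ ℵ₀ := by simp
    rw [h3, ← hω]
    exact Cardinal.power_le_power_right hX

theorem card_CndS {B : Type u} [CompleteBooleanAlgebra B] {κ : Kd} {W : Set B}
    {θ : Cardinal.{u}} (h2 : 2 ≤ θ) (hω : θ ^ ℵ₀ = θ) (hW : #W ≤ θ) : #(CndS κ W) ≤ θ := by
  have hinf := inf_of h2 hω
  have h1 : #(CndS κ W) ≤ #((List ℕ × ℕ) × (ℕ × ℕ → W)) := by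
    refine mk_le_of_injective (f := fun c => ((c.t, c.N), fun x => ⟨c.f x.1 x.2, c.mem _ _⟩)) ?_
    intro c d h
    simp only [Prod.mk.injEq] at h
    refine CndS.ext h.1.1 h.1.2 ?_
    funext k j
    exact congrArg Subtype.val (congrFun h.2 (k, j))
  refine h1.trans ?_
  rw [mk_prod]
  have h3 : Cardinal.lift.{u} #(List ℕ × ℕ) ≤ θ := by
    refine le_trans ?_ hinf
    rw [lift_le_aleph0]
    exact mk_le_aleph0
  have h4 : #(ℕ × ℕ → W) ≤ θ := card_seq hω hW _
  calc Cardinal.lift.{u} #(List ℕ × ℕ) * Cardinal.lift.{0} #(ℕ × ℕ → W) ≤ θ * θ := by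
        rw [Cardinal.lift_id' #(ℕ × ℕ → W)]
        exact mul_le_mul' h3 h4
    _ = θ := Cardinal.mul_eq_self hinf

theorem card_CndR {B : Type u} [CompleteBooleanAlgebra B] {W : Set B}
    {θ : Cardinal.{u}} (h2 : 2 ≤ θ) (hω : θ ^ ℵ₀ = θ) (hW : #W ≤ θ) : #(CndR W) ≤ θ := by
  have hinf := inf_of h2 hω
  have h1 : #(CndR W) ≤ #(ℕ × (ℕ × Finset ℕ → W)) := by
    refine mk_le_of_injective (f := fun c => (c.q, fun x => ⟨c.τ x.1 x.2, c.mem _ _⟩)) ?_
    intro c d h
    simp only [Prod.mk.injEq] at h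
    refine CndR.ext ?_ h.1
    funext k j
    exact congrArg Subtype.val (congrFun h.2 (k, j))
  refine h1.trans ?_
  rw [mk_prod]
  have h3 : Cardinal.lift.{u} #ℕ ≤ θ := by
    refine le_trans ?_ hinf
    rw [lift_le_aleph0]
    exact mk_le_aleph0
  have h4 : #(ℕ × Finset ℕ → W) ≤ θ := card_seq hω hW _
  calc Cardinal.lift.{u} #ℕ * Cardinal.lift.{0} #(ℕ × Finset ℕ → W) ≤ θ * θ := by
        rw [Cardinal.lift_id' #(ℕ × Finset ℕ → W)]
        exact mul_le_mul' h3 h4
    _ = θ := Cardinal.mul_eq_self hinf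

theorem nonempty_CndS {B : Type u} [CompleteBooleanAlgebra B] {κ : Kd} {W : Set B}
    (h : IsSS W) : Nonempty (CndS κ W) :=
  ⟨⟨[], 0, fun _ _ => ⊥, fun _ _ => h.bot, fun k s hs => by
    have : s.Nonempty := by
      rw [← Finset.card_pos, hs]; omega
    obtain ⟨j, hj⟩ := this
    exact le_bot_iff.1 (Finset.inf_le hj), by cases κ <;> exact Nat.zero_le _⟩⟩

theorem nonempty_CndR {B : Type u} [CompleteBooleanAlgebra B] {W : Set B}
    (h : IsSS W) : Nonempty (CndR W) := by
  have htop : (⊤ : B) ∈ W := by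
    have := h.compl ⊥ h.bot
    simpa using this
  exact ⟨⟨fun _ _ => ⊤, 0, fun _ _ => htop, fun _ _ => le_rfl, by
    rw [mGe, iInf_eq_top]
    intro n
    rw [cntGe, eq_top_iff]
    refine le_iSup_of_le (Finset.range n).powerset (le_iSup_of_le ⟨subset_rfl, ?_⟩ ?_)
    · simp
    · exact Finset.le_inf fun a _ => le_rfl⟩⟩

variable {K Λ : Type u} [LinearOrder K]

/-- every nonzero element is a countable supremum of conditions -/
theorem exists_seq {D : Dat K Λ} (hc : Ccc (BB D)) (U : BB D) (hU : U ≠ ⊥) :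
    ∃ p : ℕ → PF K Λ, U = ⨆ n, ee D (p n) := by
  classical
  -- maximal antichain of conditions below `U`
  let P : Set (Set (BB D)) := {s | (∀ a ∈ s, ∃ p : PF K Λ, a = ee D p ∧ a ≤ U) ∧
    ∀ a ∈ s, ∀ b ∈ s, a ≠ b → a ⊓ b = ⊥}
  obtain ⟨m, hm⟩ := zorn_subset P (by
    intro c hcP hch
    refine ⟨⋃₀ c, ⟨?_, ?_⟩, fun s hs => subset_sUnion_of_mem hs⟩
    · rintro a ⟨s, hs, ha⟩
      exact (hcP hs).1 a ha
    · rintro a ⟨s, hs, ha⟩ b ⟨t, ht, hb⟩ hab
      rcases hch.total hs ht with h | h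
      · exact (hcP ht).2 a (h ha) b hb hab
      · exact (hcP hs).2 a ha b (h hb) hab)
  have hmP := hm.prop
  have hne : ∀ a ∈ m, a ≠ ⊥ := by
    intro a ha
    obtain ⟨p, rfl, _⟩ := hmP.1 a ha
    exact ee_ne_bot p
  have hcount := hc m hne hmP.2
  have hsup : sSup m = U := by
    apply le_antisymm
    · exact sSup_le fun a ha => by
        obtain ⟨p, _, h⟩ := hmP.1 a ha
        exact h
    · by_contra hcon
      have h1 : U ⊓ (sSup m)ᶜ ≠ ⊥ := by
        intro h0
        apply hcon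
        have := disjoint_iff.2 h0
        rwa [disjoint_compl_right_iff] at this
      obtain ⟨p, hp⟩ := exists_ee_le h1
      have h2 : insert (ee D p) m ∈ P := by
        refine ⟨?_, ?_⟩
        · rintro a (rfl | ha)
          · exact ⟨p, rfl, hp.trans inf_le_left⟩
          · exact hmP.1 a ha
        · have h3 : ∀ a ∈ m, ee D p ⊓ a = ⊥ := by
            intro a ha
            rw [← le_bot_iff]
            calc ee D p ⊓ a ≤ (sSup m)ᶜ ⊓ sSup m := inf_le_inf (hp.trans inf_le_right) (le_sSup ha)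
              _ = ⊥ := by simp
          rintro a (rfl | ha) b (rfl | hb) hab
          · exact absurd rfl hab
          · exact h3 b hb
          · rw [inf_comm]; exact h3 a ha
          · exact hmP.2 a ha b hb hab
      have h4 : ee D p ∈ m := (hm.eq_of_subset h2 (subset_insert _ _)) ▸ mem_insert _ _
      have h5 : ee D p ≤ ⊥ := by
        calc ee D p ≤ sSup m ⊓ (sSup m)ᶜ := le_inf (le_sSup h4) (hp.trans inf_le_right)
          _ = ⊥ := by simp
      exact ee_ne_bot p (le_bot_iff.1 h5)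
  have hmne : m.Nonempty := by
    by_contra h
    rw [not_nonempty_iff_eq_empty] at h
    rw [h] at hsup
    simp at hsup
    exact hU hsup.symm
  obtain ⟨e, he⟩ := hcount.exists_eq_range hmne
  have : ∀ n, ∃ p : PF K Λ, e n = ee D p := fun n => by
    obtain ⟨p, hp, _⟩ := hmP.1 (e n) (he ▸ mem_range_self n)
    exact ⟨p, hp⟩
  choose p hp using this
  refine ⟨p, ?_⟩
  rw [← hsup, he, sSup_range]
  exact iSup_congr hp

theorem card_PF (hΛ : ℵ₀ ≤ #Λ) (hK : #K ≤ #Λ) : #(PF K Λ) ≤ #Λ := by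
  classical
  have h1 : #(PF K Λ) ≤ #(Finset (K × Λ)) := by
    have hf : ∀ p : PF K Λ, {x : K × Λ | p.f x.1 = some x.2}.Finite := by
      intro p
      have h2 : {x : K × Λ | p.f x.1 = some x.2} ⊆
          ⋃ b ∈ {b | p.f b ≠ none}, {x : K × Λ | x.1 = b ∧ p.f b = some x.2} := by
        rintro ⟨b, c⟩ h
        simp only [mem_iUnion]
        exact ⟨b, by rw [mem_ofPred_eq]; rw [show p.f b = some c from h]; simp, rfl, h⟩
      refine (p.fin.biUnion fun b hb => ?_).subset h2
      refine Set.Subsingleton.finite ?_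
      rintro ⟨b1, c1⟩ ⟨h1, h2⟩ ⟨b2, c2⟩ ⟨h3, h4⟩
      simp only at h1 h2 h3 h4
      rw [h2] at h4
      simp only [Option.some.injEq] at h4
      rw [h1, h3, h4]
    refine mk_le_of_injective (f := fun p => (hf p).toFinset) ?_
    intro p q hpq
    have h3 : ∀ b c, p.f b = some c ↔ q.f b = some c := by
      intro b c
      have := congrArg (fun s : Finset (K × Λ) => (b, c) ∈ s) hpq
      simp only [Set.Finite.mem_toFinset, mem_ofPred_eq, eq_iff_iff] at this
      exact this
    ext b : 2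
    cases hp : p.f b with
    | none =>
      cases hq : q.f b with
      | none => rfl
      | some c => rw [← h3] at hq; rw [hp] at hq; exact absurd hq (by simp)
    | some c => exact ((h3 b c).1 hp).symm
  refine h1.trans ?_
  have hinf : Infinite Λ := infinite_iff.2 hΛ
  rcases isEmpty_or_nonempty K with hE | hE
  · have : #(Finset (K × Λ)) ≤ ℵ₀ := mk_le_aleph0
    exact this.trans hΛ
  · have hinf2 : Infinite (K × Λ) := inferInstance
    rw [mk_finset_of_infinite, mk_prod, Cardinal.lift_id, Cardinal.lift_id]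
    calc #K * #Λ ≤ #Λ * #Λ := mul_le_mul' hK le_rfl
      _ = #Λ := Cardinal.mul_eq_self hΛ

theorem card_BB {D : Dat K Λ} (hc : Ccc (BB D)) (hK : #K ≤ #Λ) (h2 : 2 ≤ #Λ)
    (hω : #Λ ^ ℵ₀ = #Λ) : #(BB D) ≤ #Λ := by
  classical
  have hinf := inf_of h2 hω
  have hP : #(PF K Λ) ≤ #Λ := card_PF hinf hK
  have h1 : ∀ U : BB D, ∃ o : Option (ℕ → PF K Λ), U = match o with
      | none => ⊥
      | some p => ⨆ n, ee D (p n) := by
    intro U
    by_cases hU : U = ⊥
    · exact ⟨none, hU⟩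
    · obtain ⟨p, hp⟩ := exists_seq hc U hU
      exact ⟨some p, hp⟩
  choose o ho using h1
  have h3 : #(BB D) ≤ #(Option (ℕ → PF K Λ)) := by
    refine mk_le_of_injective (f := o) ?_
    intro U V h
    rw [ho U, ho V, h]
  refine h3.trans ?_
  rw [mk_option]
  have h4 : #(ℕ → PF K Λ) ≤ #Λ := card_seq hω hP ℕ
  exact (add_le_add h4 (one_le_aleph0.trans hinf)).trans (Cardinal.add_eq_self hinf).le

end Agr

end CI
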