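import Pool.Agent.CI.C.RecC

/-!
# Project CI, core: the state of the recursion, congruence of good homomorphisms
-/

set_option autoImplicit false
set_option linter.unusedSectionVars false
set_option linter.unusedVariables false

open Set Cardinal Pool.Agent.CL

namespace CI

namespace Agr

universe u

variable {K Λ L : Type u} [LinearOrder K] [LinearOrder L] {Θ : Type u}

theorem SS_top {B : Type u} [CompleteBooleanAlgebra B] {W : Set B} (h : IsSS W) : ⊤ ∈ W := by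
  have := h.compl ⊥ h.bot
  simpa using this

theorem nul_SZ (S : Sys K Λ L) {J : Set K} (hJ : IsLowerSet J) {b : K} (hb : b ∈ J) (ρ σ : Λ) :
    (S.cR b ρ).nul (S.cR b σ) ∈ SZ S.D J := by
  have A : AgrOn S S J :=
    { low := hJ
      D := fun _ _ => rfl
      kd := fun _ _ => rfl
      lay := fun _ _ => rfl
      W := fun b hb U hU => by
        have : tB S.D S.D U = U := und_inj (tB_S hJ (fun _ _ => rfl) hU)
        rw [this]
      cSt := fun _ _ _ => rfl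
      cSN := fun _ _ _ => rfl
      cSf := fun b hb c k j => und_inj (tB_S hJ (fun _ _ => rfl) (W_SZ S hJ hb ((S.cS b c).mem k j)))
      cRt := fun b hb c k j => und_inj (tB_S hJ (fun _ _ => rfl) (W_SZ S hJ hb ((S.cR b c).mem k j)))
      cRq := fun _ _ _ => rfl }
  exact (A.nul_tr hb ρ σ).1

/-- a good homomorphism can be changed outside the sequences of the algebra -/
theorem good_congr {S : Sys K Λ L} {rd : Θ → ℕ → Λ} {rt : Θ → List ℕ} {I : Set K}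
    (hI : IsLowerSet I) {φ ψ : (ℕ → BB S.D) → TT S.D Θ}
    (h : ∀ z : ℕ → BB S.D, (∀ l, z l ∈ SZ S.D I) → φ z = ψ z) (hg : S.Good rd rt I φ) :
    S.Good rd rt I ψ := by
  refine ⟨⟨?_, ?_⟩, ?_, ?_, ?_, ?_, ?_, ?_⟩
  · intro z hz w hw
    rw [← h z hz, ← h w hw, ← hg.hom.inf z hz w hw]
    exact (h _ fun l => SZ_inf (hz l) (hw l)).symm
  · intro z hz
    rw [← h z hz, ← hg.hom.compl z hz]
    exact (h _ fun l => SZ_compl hI (hz l)).symm
  · intro J hJ hJl x z hz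
    rw [← h z fun l => SZ_mono (inter_subset_left.trans hJ) (hz l)]
    exact hg.layer J hJ hJl x z hz
  · intro U hU
    rw [← h _ fun _ => hU]
    exact hg.const U hU
  · intro n
    rw [← h]
    · exact hg.fin n
    · intro l
      split_ifs
      · exact SZ_bot
      · exact SZ_top
  · intro b hb hk a θ k haθ hq
    have h1 := hg.r3 b hb hk a θ k haθ hq
    rw [h _ fun l => eb_mem hI hb _] at h1
    refine le_trans (le_of_eq ?_) h1
    rw [Sys.qr, Sys.qr]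
    congr 2
    refine iSup_congr fun ρ => ?_
    rw [h _ fun l => nul_SZ S hI hb ρ _]
  · intro b hb hk t g y hgW hy hpe
    have h1 := hg.rq b hb hk t g y hgW hy hpe
    rw [h _ fun l => SZ_mono (fun x hx => hI hx.1 hb) (hy l)] at h1
    refine le_trans (le_of_eq ?_) h1
    rw [Sys.qq, Sys.qq]
    congr 1
    refine iInf_congr fun k => iInf_congr fun _ => iSup_congr fun v => ?_
    rw [h _ fun l => W_SZ S hI hb (hgW l k v)]
  · intro d a hd hdis hf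
    rw [← h]
    · exact hg.rt d a hd hdis hf
    · intro l
      refine ee_mem hI ?_
      exact PF.res_eq_self (hd l)

theorem TZ_of_layer (hL : LayerStm.{u}) {S : Sys K Λ L} (hcb : CtbBdd L) (hc : Ccc (BB S.D))
    {rd : Θ → ℕ → Λ} {rt : Θ → List ℕ} {I : Set K}
    (hI : IsLowerSet I) {φ : (ℕ → BB S.D) → TT S.D Θ} (hg : S.Good rd rt I φ)
    (z : ℕ → BB S.D) (hz : ∀ l, z l ∈ SZ S.D I) : φ z ∈ TZ S.D Θ I := by
  obtain ⟨x, hx⟩ := (hL K Λ L S hcb hc).1 I hI z hz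
  exact TZ_mono inter_subset_left (hg.layer I subset_rfl hI x z hx)

/-- the static parameters of the recursion -/
structure Par (K Λ L Θ : Type u) [LinearOrder K] [LinearOrder L] where
  kd : K → Kd
  lay : K → L
  rd : Θ → ℕ → Λ
  rt : Θ → List ℕ
  sm : Set Λ
  θ : Kd → Cardinal.{u}
  bk : K → Set (ℕ → PF K Λ)

/-- the memory set -/
def Par.Z (P : Par K Λ L Θ) (b : K) : Set K := Iio b ∩ {g | P.lay g ≤ P.lay b}

/-- what is asked of the memory at `b` -/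
structure MemOK (P : Par K Λ L Θ) (S : Sys K Λ L) (b : K) (φ : (ℕ → BB S.D) → TT S.D Θ)
    (C : Crdn S.D (P.kd b) (P.Z b)) : Prop where
  gen : ∀ p ∈ P.bk b, (∀ n, (p n).dom ⊆ Iio b) → (⨆ n, ee S.D (p n)) ∈ SZ S.D (P.Z b) →
    (⨆ n, ee S.D (p n)) ∈ C.W
  cld : P.kd b = .rnd ∨ (P.kd b).isE → S.Cld C.W φ
  et : P.kd b = .et → C.W = SZ S.D (P.Z b)
  card : P.kd b ≠ .et → #C.W ≤ P.θ (P.kd b)
  sm : (P.kd b).isX → ∀ c, ∃ c' ∈ P.sm, C.val c c' = ⊤ ∧ C.val c' c = ⊤ ∧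
    (P.kd b = .rnd → (C.cR c').q = (C.cR c).q)

/-- what is asked of the homomorphism at `b` -/
structure PhiOK (P : Par K Λ L Θ) (S : Sys K Λ L) (f : K → Raw K Λ Θ) (b : K)
    (φ : (ℕ → BB S.D) → TT S.D Θ) (ph : (ℕ → Set (PF K Λ)) → Set (AF K Θ × PF K Λ)) : Prop where
  good : S.Good P.rd P.rt (Iio b) φ
  raw : ∀ z : ℕ → BB S.D, (∀ l, z l ∈ SZ S.D (Iio b)) → undT (φ z) = ph fun l => und (z l)
  coh : ∀ c < b, ∀ z : ℕ → BB S.D, (∀ l, z l ∈ SZ S.D (Iio c)) →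
    ph (fun l => und (z l)) = (f c).phi fun l => und (z l)

/-- the state at `b` is legitimate -/
def Leg (P : Par K Λ L Θ) (b : K) (f : K → Raw K Λ Θ) : Prop :=
  ∃ S : Sys K Λ L, IsOn P.kd P.lay S f (Iio b) ∧ ∃ φ : (ℕ → BB S.D) → TT S.D Θ,
    PhiOK P S f b φ (f b).phi ∧ ∃ C : Crdn S.D (P.kd b) (P.Z b), RawC C (f b) ∧ MemOK P S b φ C

theorem Leg.congr {P : Par K Λ L Θ} {b : K} {f g : K → Raw K Λ Θ} (h : ∀ c ≤ b, f c = g c)
    (hf : Leg P b f) : Leg P b g := by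
  obtain ⟨S, hS, φ, hφ, C, hC, hM⟩ := hf
  refine ⟨S, hS.congr fun c hc => h c (le_of_lt hc), φ, ⟨hφ.good, ?_, ?_⟩, C, ?_, hM⟩
  · rw [← h b le_rfl]; exact hφ.raw
  · intro c hc z hz
    rw [← h b le_rfl, ← h c (le_of_lt hc)]
    exact hφ.coh c hc z hz
  · rw [← h b le_rfl]; exact hC

/-- the homomorphisms of the earlier coordinates, transported -/
theorem exists_phi (hccc : ∀ S : Sys K Λ L, Ccc (BB S.D)) (hL : LayerStm.{u}) (hcb : CtbBdd L)
    {P : Par K Λ L Θ} {f : K → Raw K Λ Θ} {I : Set K} {S : Sys K Λ L}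
    (hS : IsOn P.kd P.lay S f I) {c : K} (hc : Iio c ⊆ I) (hleg : Leg P c f) :
    ∃ φ : (ℕ → BB S.D) → TT S.D Θ, PhiOK P S f c φ (f c).phi := by
  obtain ⟨Sc, hSc, φc, hφc, _⟩ := hleg
  have A : AgrOn Sc S (Iio c) := hSc.agr hS (isLowerSet_Iio c) subset_rfl hc
  have hDs : ∀ b ∈ Iio c, S.D.D b = Sc.D.D b := fun b hb => (A.D b hb).symm
  have hTZ : ∀ z : ℕ → BB Sc.D, (∀ l, z l ∈ SZ Sc.D (Iio c)) → φc z ∈ TZ Sc.D Θ (Iio c) :=
    TZ_of_layer hL hcb (hccc Sc) (isLowerSet_Iio c) hφc.good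
  have hu : ∀ z : ℕ → BB S.D, (∀ l, z l ∈ SZ S.D (Iio c)) →
      (fun l => und (tB S.D Sc.D (z l))) = fun l => und (z l) := by
    intro z hz
    funext l
    exact tB_S A.low hDs (hz l)
  refine ⟨AgrOn.tφ Θ Sc S φc, A.good hTZ hφc.good, ?_, ?_⟩
  · intro z hz
    have h1 : ∀ l, tB S.D Sc.D (z l) ∈ SZ Sc.D (Iio c) :=
      fun l => tB_SZ A.low hDs subset_rfl (hz l)
    have h2 := hφc.raw _ h1
    rw [hu z hz] at h2
    rw [← h2]
    exact tT_S A.low A.D (hTZ _ h1)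
  · intro c' hc' z hz
    have hsub : Iio c' ⊆ Iio c := fun x hx => lt_trans hx hc'
    have h1 : ∀ l, tB S.D Sc.D (z l) ∈ SZ Sc.D (Iio c') :=
      fun l => tB_SZ A.low hDs hsub (hz l)
    have h2 := hφc.coh c' hc' _ h1
    rw [hu z fun l => SZ_mono hsub (hz l)] at h2
    exact h2

/-- the homomorphism below `b` -/
theorem exists_phi_lim (hccc : ∀ S : Sys K Λ L, Ccc (BB S.D)) (hL : LayerStm.{u})
    (hcb : CtbBdd L) [WellFoundedLT L] (hB : BaseStm.{u}) (hSu : SuccStm.{u}) (hLi : LimStm.{u})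
    {P : Par K Λ L Θ} {f : K → Raw K Λ Θ} {I : Set K} (hI : IsLowerSet I) {S : Sys K Λ L}
    (hS : IsOn P.kd P.lay S f I) (hleg : ∀ c ∈ I, Leg P c f) :
    ∃ ψ : (ℕ → BB S.D) → TT S.D Θ, S.Good P.rd P.rt I ψ ∧
      ∀ c ∈ I, ∀ z : ℕ → BB S.D, (∀ l, z l ∈ SZ S.D (Iio c)) →
        undT (ψ z) = (f c).phi fun l => und (z l) := by
  classical
  have hsub : ∀ c ∈ I, Iio c ⊆ I := fun c hc x hx => hI (le_of_lt hx) hc
  have hex : ∀ c, ∃ φ : (ℕ → BB S.D) → TT S.D Θ, c ∈ I → PhiOK P S f c φ (f c).phi := by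
    intro c
    by_cases hc : c ∈ I
    · obtain ⟨φ, hφ⟩ := exists_phi hccc hL hcb hS (hsub c hc) (hleg c hc)
      exact ⟨φ, fun _ => hφ⟩
    · exact ⟨fun _ => ⊤, fun h => absurd h hc⟩
  choose φ hφ using hex
  by_cases hE : I = ∅
  · obtain ⟨ψ, hψ⟩ := hB K Λ L Θ S P.rd P.rt
    refine ⟨ψ, hE ▸ hψ, fun c hc => ?_⟩
    rw [hE] at hc
    exact absurd hc (notMem_empty c)
  · by_cases hM : ∃ c ∈ I, ∀ c' ∈ I, c' ≤ c
    · obtain ⟨c, hc, hmax⟩ := hM
      have e : I = Iic c := by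
        ext x
        exact ⟨fun hx => hmax x hx, fun hx => hI hx hc⟩
      obtain ⟨ψ, hψ, hψ2⟩ := hSu K Λ L Θ S P.rd P.rt c (φ c) hcb (hccc S) (hφ c hc).good
      refine ⟨ψ, e ▸ hψ, fun c' hc' z hz => ?_⟩
      have hle := hmax c' hc'
      have hz2 : ∀ l, z l ∈ SZ S.D (Iio c) :=
        fun l => SZ_mono (fun x hx => lt_of_lt_of_le hx hle) (hz l)
      rw [hψ2 z hz2, (hφ c hc).raw z hz2]
      rcases hle.lt_or_eq with h | h
      · exact (hφ c hc).coh c' h z hz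
      · rw [h]
    · push Not at hM
      have hcohe : ∀ c ∈ I, ∀ c' ∈ I, ∀ z : ℕ → BB S.D, (∀ l, z l ∈ SZ S.D (Iio c)) →
          (∀ l, z l ∈ SZ S.D (Iio c')) → φ c z = φ c' z := by
        have key : ∀ c ∈ I, ∀ c' ∈ I, c < c' → ∀ z : ℕ → BB S.D,
            (∀ l, z l ∈ SZ S.D (Iio c)) → (∀ l, z l ∈ SZ S.D (Iio c')) → φ c z = φ c' z := by
          intro c hc c' hc' hcc z hz hz'
          apply undT_inj
          rw [(hφ c hc).raw z hz, (hφ c' hc').raw z hz', (hφ c' hc').coh c hcc z hz]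
        intro c hc c' hc' z hz hz'
        rcases lt_trichotomy c c' with h | h | h
        · exact key c hc c' hc' h z hz hz'
        · rw [h]
        · exact (key c' hc' c hc h z hz' hz).symm
      let Φ : (ℕ → BB S.D) → TT S.D Θ := fun z =>
        if h : ∃ c ∈ I, ∀ l, z l ∈ SZ S.D (Iio c) then φ h.choose z else ⊤
      have hΦ : ∀ c ∈ I, ∀ z : ℕ → BB S.D, (∀ l, z l ∈ SZ S.D (Iio c)) → φ c z = Φ z := by
        intro c hc z hz
        have h : ∃ c ∈ I, ∀ l, z l ∈ SZ S.D (Iio c) := ⟨c, hc, hz⟩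
        simp only [Φ, dif_pos h]
        exact hcohe c hc _ h.choose_spec.1 z hz h.choose_spec.2
      obtain ⟨ψ, hψ, hψ2⟩ := hLi K Λ L Θ S P.rd P.rt I Φ hcb (hccc S) hI
        (nonempty_iff_ne_empty.2 hE) hM
        (fun c hc => good_congr (isLowerSet_Iio c) (hΦ c hc) (hφ c hc).good)
      refine ⟨ψ, hψ, fun c hc z hz => ?_⟩
      rw [hψ2 c hc z hz, ← hΦ c hc z hz, (hφ c hc).raw z hz]

end Agr

end CI
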