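import Pool.Agent.CI.C.RecD
import Pool.Agent.CI.C.Clo
import Pool.Agent.CI.K.Rec

/-!
# Project CI, core: existence of the memory, the recursion, the final system
-/

set_option autoImplicit false
set_option linter.unusedSectionVars false
set_option linter.unusedVariables false

open Set Cardinal Pool.Agent.CL

namespace CI

namespace Agr

universe u

variable {K Λ L : Type u} [LinearOrder K] [LinearOrder L] {Θ : Type u}

/-- the cardinal assumptions on the static parameters -/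
structure ParOK (P : Par K Λ L Θ) : Prop where
  kd : ∀ b, P.kd b ≠ .tr
  two : ∀ κ, 2 ≤ P.θ κ
  ct : ∀ κ, P.θ κ ^ ℵ₀ = P.θ κ
  sm : ∀ κ : Kd, κ.isX → P.θ κ ≤ #P.sm
  lam : ∀ κ : Kd, P.θ κ ≤ #Λ
  rnd : #Θ ≤ P.θ .rnd
  ev : P.θ .rnd ≤ P.θ .ev
  bk : ∀ b, P.kd b ≠ .et → #(P.bk b) ≤ P.θ (P.kd b)
  K : #K ≤ #Λ
  Λ2 : 2 ≤ #Λ
  Λc : #Λ ^ ℵ₀ = #Λ

theorem isX_cases {κ : Kd} : κ.isX ↔ κ = .coh ∨ κ = .loc ∨ κ = .hech ∨ κ = .rnd := Iff.rfl

/-- coordinate from a memory -/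
theorem exists_crdn (hS : SCmpStm.{u}) (hR : RCmpStm.{u}) {P : Par K Λ L Θ} (hP : ParOK P)
    {D : Dat K Λ} (b : K) (W : Set (BB D)) (hW : IsSS W) (hsub : W ⊆ SZ D (P.Z b))
    (hcard : P.kd b ≠ .et → #W ≤ P.θ (P.kd b)) (hcΛ : #W ≤ #Λ) :
    ∃ C : Crdn D (P.kd b) (P.Z b), C.W = W ∧
      ((P.kd b).isX → ∀ c, ∃ c' ∈ P.sm, C.val c c' = ⊤ ∧ C.val c' c = ⊤ ∧
        (P.kd b = .rnd → (C.cR c').q = (C.cR c).q)) := by
  classical
  have := nonempty_CndS (κ := P.kd b) hW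
  have := nonempty_CndR hW
  by_cases hr : P.kd b = .rnd
  · have hX : (P.kd b).isX := Or.inr (Or.inr (Or.inr hr))
    have hne : P.kd b ≠ .et := by rw [hr]; intro h; exact Kd.noConfusion h
    have h1 : #(CndR W) ≤ #P.sm :=
      (card_CndR (hP.two _) (hP.ct _) (hcard hne)).trans (hP.sm _ hX)
    obtain ⟨g, hg⟩ := exists_enum P.sm h1
    have hns : ¬ (P.kd b).isS := by
      rw [hr]; rintro (h | h | h | h | h) <;> exact Kd.noConfusion h
    let C : Crdn D (P.kd b) (P.Z b) :=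
      { W := W
        cS := fun _ => Classical.arbitrary _
        cR := g
        ss := hW
        sub := hsub
        sS := fun h => absurd h hns
        sR := fun _ x => by obtain ⟨c, _, hc⟩ := hg x; exact ⟨c, hc⟩ }
    refine ⟨C, rfl, fun _ c => ?_⟩
    obtain ⟨c', hc', he⟩ := hg (g c)
    have hv : ∀ x y, C.val x y = (g x).cmp (g y) := by
      intro x y
      simp only [Crdn.val, if_neg hns, if_pos hr, C]
    refine ⟨c', hc', ?_, ?_, fun _ => ?_⟩
    · rw [hv, he]; exact (hR _ _ hW (g c) (g c) (g c)).1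
    · rw [hv, he]; exact (hR _ _ hW (g c) (g c) (g c)).1
    · change (g c').q = (g c).q
      rw [he]
  · have hs : (P.kd b).isS := isS_of (hP.kd b) hr
    by_cases hX : (P.kd b).isX
    · have hne : P.kd b ≠ .et := by
        intro h
        rw [h] at hX
        rcases isX_cases.1 hX with h | h | h | h <;> exact Kd.noConfusion h
      have h1 : #(CndS (P.kd b) W) ≤ #P.sm :=
        (card_CndS (hP.two _) (hP.ct _) (hcard hne)).trans (hP.sm _ hX)
      obtain ⟨g, hg⟩ := exists_enum P.sm h1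
      let C : Crdn D (P.kd b) (P.Z b) :=
        { W := W
          cS := g
          cR := fun _ => Classical.arbitrary _
          ss := hW
          sub := hsub
          sS := fun _ x => by obtain ⟨c, _, hc⟩ := hg x; exact ⟨c, hc⟩
          sR := fun h => absurd h hr }
      refine ⟨C, rfl, fun _ c => ?_⟩
      obtain ⟨c', hc', he⟩ := hg (g c)
      have hv : ∀ x y, C.val x y = (g x).cmp (g y) := by
        intro x y
        simp only [Crdn.val, if_pos hs, C]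
      refine ⟨c', hc', ?_, ?_, fun h => absurd h hr⟩
      · rw [hv, he]; exact (hS _ _ _ hW (g c) (g c) (g c)).1
      · rw [hv, he]; exact (hS _ _ _ hW (g c) (g c) (g c)).1
    · have h1 : #(CndS (P.kd b) W) ≤ #(Set.univ : Set Λ) := by
        rw [mk_univ]
        exact card_CndS hP.Λ2 hP.Λc hcΛ
      obtain ⟨g, hg⟩ := exists_enum Set.univ h1
      let C : Crdn D (P.kd b) (P.Z b) :=
        { W := W
          cS := g
          cR := fun _ => Classical.arbitrary _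
          ss := hW
          sub := hsub
          sS := fun _ x => by obtain ⟨c, _, hc⟩ := hg x; exact ⟨c, hc⟩
          sR := fun h => absurd h hr }
      exact ⟨C, rfl, fun h => absurd h hX⟩

theorem isCS_iSup {B : Type u} [CompleteBooleanAlgebra B] {Y : Set B} (h : IsCS Y) {ι : Type*}
    (f : ι → B) (hf : ∀ i, f i ∈ Y) : ⨆ i, f i ∈ Y := by
  rw [← sSup_range]
  exact h.sSup _ (by rintro _ ⟨i, rfl⟩; exact hf i)

theorem isSS_of_isCS {B : Type u} [CompleteBooleanAlgebra B] {Y : Set B} (h : IsCS Y) :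
    IsSS Y where
  compl := h.compl
  iSup f hf := isCS_iSup h f hf
  bot := by
    have := h.sSup ∅ (empty_subset _)
    simpa using this

/-- the memory -/
theorem exists_mem (hS : SCmpStm.{u}) (hR : RCmpStm.{u}) (hSZ : SZStm.{u}) (hZl : ZlStm.{u})
    (hM : MemStm.{u}) (hLC : LayCldStm.{u}) (hccc : ∀ S : Sys K Λ L, Ccc (BB S.D))
    {P : Par K Λ L Θ} (hP : ParOK P) {f : K → Raw K Λ Θ} {I : Set K} {S : Sys K Λ L}
    (hSo : IsOn P.kd P.lay S f I) (b : K) {φ : (ℕ → BB S.D) → TT S.D Θ}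
    (hφ : S.Good P.rd P.rt (Iio b) φ) :
    ∃ C : Crdn S.D (P.kd b) (P.Z b), MemOK P S b φ C := by
  classical
  have hZ : P.Z b = Iio b ∩ S.Zl (P.lay b) := by
    ext x
    simp only [Par.Z, Sys.Zl, mem_inter_iff, mem_ofPred_eq, hSo.lay]
  have hTr : Tr S.D (P.Z b) := by
    rw [hZ]
    exact (Tr_of_lower (isLowerSet_Iio b)).inter (hZl K Λ L S _)
  have hCS : IsCS (SZ S.D (P.Z b)) := (hSZ K Λ S.D _ hTr).1
  have hBB : #(BB S.D) ≤ #Λ := card_BB (hccc S) hP.K hP.Λ2 hP.Λc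
  -- the generators
  let X : Set (BB S.D) := {U | (∃ p ∈ P.bk b, (∀ n, (p n).dom ⊆ Iio b) ∧ U = ⨆ n, ee S.D (p n)) ∧
    U ∈ SZ S.D (P.Z b)}
  have hXcard : P.kd b ≠ .et → #X ≤ P.θ (P.kd b) := by
    intro hne
    refine le_trans ?_ (hP.bk b hne)
    have : ∀ U : X, ∃ p : P.bk b, (U : BB S.D) = ⨆ n, ee S.D ((p : ℕ → PF K Λ) n) := by
      rintro ⟨U, ⟨p, hp, _, hU⟩, _⟩
      exact ⟨⟨p, hp⟩, hU⟩
    choose e he using this
    refine mk_le_of_injective (f := e) ?_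
    intro U V h
    apply Subtype.ext
    rw [he U, he V, h]
  have hXsub : X ⊆ SZ S.D (P.Z b) := fun U hU => hU.2
  have fin : ∀ W : Set (BB S.D), IsSS W → X ⊆ W → W ⊆ SZ S.D (P.Z b) →
      (P.kd b ≠ .et → #W ≤ P.θ (P.kd b)) → (P.kd b = .et → W = SZ S.D (P.Z b)) →
      (P.kd b = .rnd ∨ (P.kd b).isE → S.Cld W φ) →
      ∃ C : Crdn S.D (P.kd b) (P.Z b), MemOK P S b φ C := by
    intro W hW hXW hWsub hWc hWet hWcl
    obtain ⟨C, hC1, hC2⟩ := exists_crdn hS hR hP b W hW hWsub hWc ((mk_set_le W).trans hBB)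
    refine ⟨C, ?_, ?_, ?_, ?_, hC2⟩
    · intro p hp hdom hmem
      rw [hC1]
      exact hXW ⟨⟨p, hp, hdom, rfl⟩, hmem⟩
    · rw [hC1]; exact hWcl
    · rw [hC1]; exact hWet
    · rw [hC1]; exact hWc
  by_cases het : P.kd b = .et
  · have h1 := hLC K Λ L Θ S P.rd P.rt (Iio b) φ (isLowerSet_Iio b) hφ (hccc S) (P.lay b)
    rw [← hZ] at h1
    exact fin _ h1.2 hXsub subset_rfl (fun h => absurd het h) (fun _ => rfl) fun _ => h1.1
  · have hXc := hXcard het
    by_cases hcl : P.kd b = .rnd ∨ P.kd b = .ev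
    · have hθ : P.θ .rnd ≤ P.θ (P.kd b) := by
        rcases hcl with h | h
        · rw [h]
        · rw [h]; exact hP.ev
      obtain ⟨W, h1, h2, h3, h4, h5⟩ := hM K Λ L Θ S P.rd P.rt (Iio b) φ (P.θ .rnd)
        (P.θ (P.kd b)) (isLowerSet_Iio b) hφ (hccc S) (hP.two _) (inf_of (hP.two _) (hP.ct _)) hθ
        (hP.ct _) (hP.ct _) hP.rnd (P.lay b) X (by rw [← hZ]; exact hXsub) hXc
      rw [← hZ] at h2
      exact fin W h4 h1 h2 (fun _ => h3) (fun h => absurd h het) fun _ => h5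
    · -- sigma closure
      push Not at hcl
      let F : (ℕ → BB S.D) → Set (BB S.D) := fun z => {⨆ n, z n, (z 0)ᶜ}
      obtain ⟨W, h1, h2, h3, h4⟩ := cloStm.{u} (BB S.D) (P.θ (P.kd b)) F (SZ S.D (P.Z b))
        (X ∪ {⊥}) (hP.two _) (hP.ct _) (by
          intro z
          refine le_trans (le_trans (Cardinal.mk_insert_le) ?_) (hP.two (P.kd b))
          rw [mk_singleton]
          exact one_add_one_eq_two.le) (by
          intro z hz
          rintro U (rfl | rfl)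
          · exact isCS_iSup hCS z hz
          · exact hCS.compl _ (hz 0)) (by
          rintro U (hU | rfl)
          · exact hXsub hU
          · exact (isSS_of_isCS hCS).bot) (by
          refine (mk_union_le _ _).trans ?_
          rw [mk_singleton]
          have hi := inf_of (hP.two (P.kd b)) (hP.ct (P.kd b))
          exact (add_le_add hXc (one_le_aleph0.trans hi)).trans (Cardinal.add_eq_self hi).le)
        ⟨⊥, Or.inr rfl⟩
      have hSS : IsSS W := by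
        refine ⟨fun a ha => ?_, fun g hg => ?_, h1 (Or.inr rfl)⟩
        · exact h4 (fun _ => a) (fun _ => ha) (Or.inr rfl)
        · exact h4 g hg (Or.inl rfl)
      refine fin W hSS (subset_union_left.trans h1) h2 (fun _ => h3) (fun h => absurd h het) ?_
      rintro (h | h | h)
      · exact absurd h hcl.1
      · exact absurd h hcl.2
      · exact absurd h het

/-- raw data of a coordinate and a homomorphism -/
noncomputable def mkRaw {S : Sys K Λ L} {κ : Kd} {Z I : Set K} (C : Crdn S.D κ Z)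
    (ψ : (ℕ → BB S.D) → TT S.D Θ) (I : Set K) : Raw K Λ Θ where
  D c' c := und (C.val c' c)
  W := und '' C.W
  t c := (C.cS c).t
  N c := (C.cS c).N
  g c k j := und ((C.cS c).f k j)
  τ c n a := und ((C.cR c).τ n a)
  q c := (C.cR c).q
  phi s := {x | ∃ z : ℕ → BB S.D, (∀ l, z l ∈ SZ S.D I) ∧ (∀ l, und (z l) = s l) ∧
    x ∈ undT (ψ z)}

theorem mkRaw_phi {S : Sys K Λ L} {κ : Kd} {Z I : Set K} (C : Crdn S.D κ Z)
    (ψ : (ℕ → BB S.D) → TT S.D Θ) (z : ℕ → BB S.D) (hz : ∀ l, z l ∈ SZ S.D I) :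
    undT (ψ z) = (mkRaw (Z := Z) (I := I) C ψ I).phi fun l => und (z l) := by
  ext x
  constructor
  · intro hx
    exact ⟨z, hz, fun _ => rfl, hx⟩
  · rintro ⟨z', _, h2, h3⟩
    have : z' = z := funext fun l => und_inj (h2 l)
    rw [← this]; exact h3

section

variable (hS : SCmpStm.{u}) (hR : RCmpStm.{u}) (hSZ : SZStm.{u}) (hZl : ZlStm.{u})
    (hM : MemStm.{u}) (hLC : LayCldStm.{u}) (hccc : ∀ S : Sys K Λ L, Ccc (BB S.D))
    (hL : LayerStm.{u}) (hcb : CtbBdd L) (hB : BaseStm.{u}) (hSu : SuccStm.{u})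
    (hLi : LimStm.{u}) {P : Par K Λ L Θ} (hP : ParOK P)

include hS hR hSZ hZl hM hLC hccc hL hcb hB hSu hLi hP

/-- the recursion -/
theorem exists_raw [WellFoundedLT K] [WellFoundedLT L] :
    ∃ f : K → Raw K Λ Θ, ∀ b, Leg P b f := by
  have : Nonempty (Raw K Λ Θ) := ⟨⟨fun _ _ => ∅, ∅, fun _ => [], fun _ => 0, fun _ _ _ => ∅,
    fun _ _ _ => ∅, fun _ => 0, fun _ => ∅⟩⟩
  refine wf_rec (fun b f => Leg P b f) (fun b f g h hf => hf.congr h) ?_
  intro b f ih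
  obtain ⟨S, hSo⟩ := build_sys (L := L) (kd0 := P.kd) (lay0 := P.lay) hS hR (Iio b)
    (isLowerSet_Iio b) f (fun c hc => by
      obtain ⟨Sc, hSc, _, _, C, hC, _⟩ := ih c hc
      exact ⟨Sc, hSc, C, hC⟩)
  obtain ⟨ψ, hψ, hψ2⟩ := exists_phi_lim hccc hL hcb hB hSu hLi (isLowerSet_Iio b) hSo ih
  obtain ⟨C, hC⟩ := exists_mem hS hR hSZ hZl hM hLC hccc hP hSo b hψ
  refine ⟨mkRaw (Z := P.Z b) (I := Iio b) C ψ (Iio b), fun g hg hgb => ?_⟩
  refine ⟨S, hSo.congr fun c hc => (hg c hc).symm, ψ, ⟨hψ, ?_, ?_⟩, C, ?_, hC⟩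
  · intro z hz
    rw [hgb]
    exact mkRaw_phi C ψ z hz
  · intro c hc z hz
    rw [hgb, ← mkRaw_phi (I := Iio b) C ψ z fun l => SZ_mono (fun x hx => lt_trans hx hc) (hz l),
      hg c hc]
    exact hψ2 c hc z hz
  · rw [hgb]
    exact ⟨fun _ _ => rfl, rfl, fun _ => rfl, fun _ => rfl, fun _ _ _ => rfl, fun _ _ _ => rfl,
      fun _ => rfl⟩

/-- the final system -/
theorem exists_final [WellFoundedLT K] [WellFoundedLT L] :
    ∃ S : Sys K Λ L, (∀ b, S.kd b = P.kd b) ∧ (∀ b, S.lay b = P.lay b) ∧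
      ∃ ψ : (ℕ → BB S.D) → TT S.D Θ, S.Good P.rd P.rt Set.univ ψ ∧ ∀ b,
        (∀ p ∈ P.bk b, (∀ n, (p n).dom ⊆ Iio b) → (⨆ n, ee S.D (p n)) ∈ SZ S.D (P.Z b) →
          (⨆ n, ee S.D (p n)) ∈ S.W b) ∧
        (P.kd b = .rnd ∨ (P.kd b).isE → S.Cld (S.W b) ψ) ∧
        (P.kd b = .et → S.W b = SZ S.D (P.Z b)) ∧
        (P.kd b ≠ .et → #(S.W b) ≤ P.θ (P.kd b)) ∧
        ((P.kd b).isX → ∀ c, ∃ c' ∈ P.sm, S.Eqv b c c' ∧
          (P.kd b = .rnd → (S.cR b c').q = (S.cR b c).q)) := by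
  obtain ⟨f, hf⟩ := exists_raw hS hR hSZ hZl hM hLC hccc hL hcb hB hSu hLi hP
  obtain ⟨S, hSo⟩ := build_sys (L := L) (kd0 := P.kd) (lay0 := P.lay) hS hR Set.univ
    isLowerSet_univ f (fun c _ => by
      obtain ⟨Sc, hSc, _, _, C, hC, _⟩ := hf c
      exact ⟨Sc, hSc, C, hC⟩)
  obtain ⟨ψ, hψ, hψ2⟩ := exists_phi_lim hccc hL hcb hB hSu hLi isLowerSet_univ hSo
    fun c _ => hf c
  refine ⟨S, fun b => hSo.kd b (mem_univ b), hSo.lay, ψ, hψ, fun b => ?_⟩
  obtain ⟨Sb, hSb, φb, hφb, C, hC, hM'⟩ := hf b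
  have A : AgrOn Sb S (Iio b) := hSb.agr hSo (isLowerSet_Iio b) subset_rfl (subset_univ _)
  have hDs : ∀ c ∈ Iio b, S.D.D c = Sb.D.D c := fun c hc => (A.D c hc).symm
  have hZb : P.Z b ⊆ Iio b := inter_subset_left
  have hCJ : C.W ⊆ SZ Sb.D (Iio b) := C.sub.trans (SZ_mono hZb)
  have hWeq : S.W b = tB Sb.D S.D '' C.W := by
    have h1 : und '' S.W b = und '' C.W := by
      rw [(hSo.raw b (mem_univ b)).vW, hC.vW]
    ext U
    constructor
    · intro hU
      have h2 : und U ∈ und '' C.W := by rw [← h1]; exact ⟨U, hU, rfl⟩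
      obtain ⟨V, hV, he⟩ := h2
      refine ⟨V, hV, und_inj ?_⟩
      rw [← he]
      exact tB_S A.low A.D (hCJ hV)
    · rintro ⟨V, hV, rfl⟩
      have h2 : und V ∈ und '' S.W b := by rw [h1]; exact ⟨V, hV, rfl⟩
      obtain ⟨U, hU, he⟩ := h2
      have : tB Sb.D S.D V = U := und_inj (by
        rw [he]; exact tB_S A.low A.D (hCJ hV))
      rw [this]; exact hU
  have hSub : S.W b ⊆ SZ S.D (Iio b) := by
    rw [hWeq]
    rintro _ ⟨V, hV, rfl⟩
    exact tB_SZ A.low A.D subset_rfl (hCJ hV)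
  have hWW : ∀ U ∈ SZ Sb.D (Iio b), U ∈ C.W ↔ tB Sb.D S.D U ∈ S.W b := by
    intro U hU
    rw [hWeq]
    constructor
    · intro h; exact ⟨U, h, rfl⟩
    · rintro ⟨V, hV, he⟩
      rw [← tB_inj A.low A.D (hCJ hV) hU he]
      exact hV
  have hTZ : ∀ z : ℕ → BB Sb.D, (∀ l, z l ∈ SZ Sb.D (Iio b)) → φb z ∈ TZ Sb.D Θ (Iio b) :=
    TZ_of_layer hL hcb (hccc Sb) (isLowerSet_Iio b) hφb.good
  refine ⟨?_, ?_, ?_, ?_, ?_⟩
  · intro p hp hdom hmem
    have hres : ∀ n, (p n).res (Iio b) = p n := fun n => PF.res_eq_self (hdom n)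
    have hee : ∀ n, ee Sb.D (p n) ∈ SZ Sb.D (Iio b) := fun n => ee_mem A.low (hres n)
    have h1 : tB Sb.D S.D (⨆ n, ee Sb.D (p n)) = ⨆ n, ee S.D (p n) := by
      rw [tB_iSup A.low A.D hee]
      exact iSup_congr fun n => tB_ee A.low A.D (hres n)
    have h2 : (⨆ n, ee Sb.D (p n)) ∈ SZ Sb.D (P.Z b) := by
      have h3 := tB_SZ A.low hDs hZb hmem
      rw [← h1, tB_tB A.low A.D (SZ_iSup A.low hee)] at h3
      exact h3
    rw [hWeq, ← h1]
    exact ⟨_, hM'.gen p hp hdom h2, rfl⟩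
  · intro hk
    have h1 := A.cld hTZ (W := C.W) (W' := S.W b) hCJ hSub hWW (hM'.cld hk)
    intro z hz a
    obtain ⟨a', ha', U, hU, he⟩ := h1 z hz a
    refine ⟨a', ha', U, hU, ?_⟩
    rw [← he]
    congr 1
    have hz' : ∀ l, z l ∈ SZ S.D (Iio b) := fun l => hSub (hz l)
    apply undT_inj
    rw [hψ2 b (mem_univ b) z hz']
    have h2 : ∀ l, tB S.D Sb.D (z l) ∈ SZ Sb.D (Iio b) :=
      fun l => tB_SZ A.low hDs subset_rfl (hz' l)
    have h3 := hφb.raw _ h2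
    have h4 : (fun l => und (tB S.D Sb.D (z l))) = fun l => und (z l) := by
      funext l
      exact tB_S A.low hDs (hz' l)
    rw [h4] at h3
    rw [← h3]
    exact (tT_S A.low A.D (hTZ _ h2)).symm
  · intro hk
    rw [hWeq, hM'.et hk]
    ext U
    constructor
    · rintro ⟨V, hV, rfl⟩
      exact tB_SZ A.low A.D hZb hV
    · intro hU
      exact ⟨_, tB_SZ A.low hDs hZb hU, tB_tB A.low hDs (SZ_mono hZb hU)⟩
  · intro hk
    rw [hWeq]
    exact mk_image_le.trans (hM'.card hk)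
  · intro hk c
    obtain ⟨c', hc', h1, h2, h3⟩ := hM'.sm hk c
    have hD : ∀ x y, C.val x y = ⊤ → dv S.D b x y = ⊤ := by
      intro x y h
      apply und_inj
      change S.D.D b x y = Set.univ
      rw [(hSo.raw b (mem_univ b)).vD, ← hC.vD x y, h]
      rfl
    refine ⟨c', hc', ⟨hD _ _ h1, hD _ _ h2⟩, fun hr => ?_⟩
    rw [(hSo.raw b (mem_univ b)).vq, (hSo.raw b (mem_univ b)).vq, ← hC.vq, ← hC.vq]
    exact h3 hr

end

end Agr

end CI
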