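import Pool.Agent.CI.C.Itr

/-!
# Project CI, core: systems (iterations of the six kinds with memories and layers), good limit
homomorphisms (definitions)
-/

set_option autoImplicit false

open Set Cardinal Pool.Agent.CL

namespace CI

universe u

/-- an iteration: kinds, layers, memories, labels -/
structure Sys (K Λ L : Type u) [LinearOrder K] [LinearOrder L] where
  D : Dat K Λ
  kd : K → Kd
  lay : K → L
  W : K → Set (BB D)
  /-- the condition of a label (for the `S`-kinds) -/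
  cS : ∀ b, Λ → CndS (kd b) (W b)
  /-- the condition of a label (for the random kind) -/
  cR : ∀ b, Λ → CndR (W b)
  ss : ∀ b, IsSS (W b)
  sub : ∀ b, W b ⊆ SZ D (Iio b ∩ {g | lay g ≤ lay b})
  vT : ∀ b, kd b = .tr → ∀ c' c, dv D b c' c = ⊤
  vS : ∀ b, (kd b).isS → (∀ c' c, dv D b c' c = (cS b c').cmp (cS b c)) ∧
    Function.Surjective (cS b)
  vR : ∀ b, kd b = .rnd → (∀ c' c, dv D b c' c = (cR b c').cmp (cR b c)) ∧
    Function.Surjective (cR b)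

namespace Sys

variable {K Λ L : Type u} [LinearOrder K] [LinearOrder L] (S : Sys K Λ L)

/-- the coordinates of the layers up to `x` -/
def Zl (x : L) : Set K := {g | S.lay g ≤ x}

/-- the stem of a label -/
def st (b : K) (c : Λ) : List ℕ := (S.cS b c).t

/-- the two labels give the same condition -/
def Eqv (b : K) (c c' : Λ) : Prop := dv S.D b c c' = ⊤ ∧ dv S.D b c' c = ⊤

/-- the truth value of `g(k) = v` for the generic object `g` at `b` -/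
noncomputable def gen (b : K) (k v : ℕ) : BB S.D :=
  ⨆ c : Λ, ⨆ _ : k < (S.st b c).length ∧ at' (S.st b c) k = v, eb S.D b c

/-- the truth value of: the stem `t` is an initial segment of the generic object -/
noncomputable def est (b : K) (t : List ℕ) : BB S.D :=
  ⨅ k : ℕ, ⨅ _ : k < t.length, S.gen b k (at' t k)

variable {Θ : Type u}

/-- the limit element for the stem `t` and the sequence `g l k v` of values of
`v is allowed at k` -/
noncomputable def qq (b : K) (t : List ℕ) (g : ℕ → ℕ → ℕ → BB S.D)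
    (φ : (ℕ → BB S.D) → TT S.D Θ) : TT S.D Θ :=
  iB S.D Θ (S.est b t) ⊓
    ⨅ k : ℕ, ⨅ _ : t.length ≤ k, ⨆ v : ℕ, iB S.D Θ (S.gen b k v) ⊓ φ fun l => g l k v

/-- pure extensions reach `y l` -/
def PE (b : K) (t : List ℕ) (g : ℕ → ℕ → ℕ → BB S.D) (y : ℕ → BB S.D) : Prop :=
  ∀ l, ∀ v ∈ SZ S.D (Iio b), v ≠ ⊥ → ∀ c, t <+: S.st b c →
    (∀ k, t.length ≤ k → k < (S.st b c).length → v ≤ g l k (at' (S.st b c) k)) →
    ∃ v' ∈ SZ S.D (Iio b), v' ≠ ⊥ ∧ v' ≤ v ∧ ∃ c', S.st b c' = S.st b c ∧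
      v' ≤ dv S.D b c' c ∧ v' ⊓ eb S.D b c' ≤ y l

/-- the limit element for a sequence of random conditions -/
noncomputable def qr (b : K) (σ : ℕ → Λ) (φ : (ℕ → BB S.D) → TT S.D Θ) : TT S.D Θ :=
  (⨆ ρ : Λ, φ (fun l => (S.cR b ρ).nul (S.cR b (σ l))) ⊓ iB S.D Θ (eb S.D b ρ))ᶜ

/-- the sequence `d` of conditions follows the guess `a` -/
def Fol (rd : Θ → ℕ → Λ) (rt : Θ → List ℕ) (d : ℕ → PF K Λ) (a : AF K Θ) : Prop :=
  ∀ l b c, (d l).f b = some c → ∃ θ, a.f b = some θ ∧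
    ((S.kd b).isX → S.Eqv b c (rd θ l)) ∧ ((S.kd b).isE → S.st b c = rt θ)

/-- `φ` is good on the initial segment `I` -/
structure Good (rd : Θ → ℕ → Λ) (rt : Θ → List ℕ) (I : Set K)
    (φ : (ℕ → BB S.D) → TT S.D Θ) : Prop where
  hom : HomOn {z | ∀ l, z l ∈ SZ S.D I} φ
  layer : ∀ J : Set K, J ⊆ I → IsLowerSet J → ∀ x : L, ∀ z : ℕ → BB S.D,
    (∀ l, z l ∈ SZ S.D (J ∩ S.Zl x)) → φ z ∈ TZ S.D Θ (J ∩ S.Zl x)
  const : ∀ U ∈ SZ S.D I, φ (fun _ => U) = iB S.D Θ U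
  fin : ∀ n : ℕ, φ (fun l => if l < n then ⊥ else ⊤) = ⊤
  r3 : ∀ b ∈ I, S.kd b = .rnd → ∀ (a : AF K Θ) (θ : Θ) (k : ℕ), a.f b = some θ →
    (∀ l, (S.cR b (rd θ l)).q ≤ k) →
    iA S.D a ⊓ S.qr b (rd θ) φ ≤ φ fun l => eb S.D b (rd θ l)
  rq : ∀ b ∈ I, (S.kd b).isE → ∀ (t : List ℕ) (g : ℕ → ℕ → ℕ → BB S.D) (y : ℕ → BB S.D),
    (∀ l k v, g l k v ∈ S.W b) → (∀ l, y l ∈ SZ S.D (Iic b ∩ S.Zl (S.lay b))) → S.PE b t g y →
    S.qq b t g φ ≤ φ y
  rt : ∀ (d : ℕ → PF K Λ) (a : AF K Θ), (∀ l, (d l).dom ⊆ I) →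
    (∀ l m, l ≠ m → Disjoint (d l).dom (d m).dom) → S.Fol rd rt d a →
    iA S.D a ≤ φ fun l => ee S.D (d l)

/-- `W` is closed for `φ` -/
def Cld (W : Set (BB S.D)) (φ : (ℕ → BB S.D) → TT S.D Θ) : Prop :=
  ∀ z : ℕ → BB S.D, (∀ l, z l ∈ W) → ∀ a : AF K Θ, ∃ a' ≤ a, ∃ U ∈ W,
    iA S.D a' ⊓ φ z = iA S.D a' ⊓ iB S.D Θ U

/-- every sequence of conditions (random and smaller kinds) and every stem is guessed -/
structure Gus (rd : Θ → ℕ → Λ) (rt : Θ → List ℕ) : Prop where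
  ex : ∀ b, (S.kd b).isX → ∀ s : ℕ → Λ, ∃ θ, ∀ l, S.Eqv b (s l) (rd θ l)
  st : Function.Surjective rt

end Sys

end CI
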